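import Pool.Agent.Lib.MP_788af2_nt.TT.Sym2
import Pool.Agent.Lib.MP_788af2_nt.AS.AC

/-!
The second anticoncentration bound on the cube.
-/

set_option linter.unusedSectionVars false

namespace Pool.Agent.Lib.MP_788af2_nt.AS

open Polynomial WeierstrassCurve Pool.Agent.Lib.MP_a3f657_nt.Two Matrix

theorem ac2_pow {α : Type} [DecidableEq α] {v : ℕ} (A G : Finset α) (h : Disjoint A G)
    (f : Finset α → Matrix (Fin v) (Fin v) ℤ) : ∑ S ∈ (A ∪ G).powerset, f S =
      ∑ S ∈ A.powerset, ∑ T ∈ G.powerset, f (S ∪ T) := by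
  ext a b
  simp only [Matrix.sum_apply]
  exact ac_pow A G h fun S => f S a b

theorem ac2_odd {α : Type} [DecidableEq α] {v : ℕ} (γ : Finset α)
    (x : Finset α → Matrix (Fin v) (Fin v) ℤ)
    (h1 : ∀ S a b, (2 : ℤ) ^ ((S.card + 1) / 2) ∣ x S a b) (h3 : Odd (x ∅).det) :
    Odd (∑ T ∈ γ.powerset, x (∅ ∪ T)).det := by
  have h4 : (∑ T ∈ γ.powerset, x (∅ ∪ T)).map (fun z : ℤ => (z : ZMod 2)) =
      (x ∅).map (fun z : ℤ => (z : ZMod 2)) := by
    ext a b
    simp only [Finset.empty_union, Matrix.map_apply, Matrix.sum_apply]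
    rw [← Finset.add_sum_erase _ _ (Finset.empty_mem_powerset γ), Int.cast_add, add_eq_left]
    refine (ZMod.intCast_zmod_eq_zero_iff_dvd _ 2).2 (Finset.dvd_sum fun T hT => ?_)
    have h5 := (Finset.nonempty_iff_ne_empty.2 (Finset.ne_of_mem_erase hT)).card_pos
    exact (dvd_pow_self 2 (by omega)).trans (h1 T a b)
  rw [← Int.not_even_iff_odd, even_iff_two_dvd] at h3 ⊢
  intro h5
  refine h3 ?_
  have h6 := (ZMod.intCast_zmod_eq_zero_iff_dvd _ 2).2 h5
  rw [Int.cast_det, h4, ← Int.cast_det] at h6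
  exact (ZMod.intCast_zmod_eq_zero_iff_dvd _ 2).1 h6

/-- The bound for all coefficient families that are symmetric at level `i` on `N` points. -/
def Ac2Claim (w J : ℕ) (η : ℝ) (i N : ℕ) : Prop :=
  ∀ v ≤ w, ∀ (α : Type) [DecidableEq α] (B : Finset α), B.card = N →
    ∀ (x h : Finset α → Matrix (Fin v) (Fin v) ℤ) (N₀ : ℕ),
    (∀ S a b, (2 : ℤ) ^ ((S.card + 1) / 2) ∣ x S a b) →
    (∀ S a b, (2 : ℤ) ^ (S.card / 2) ∣ h S a b) →
    (∀ S ⊆ B, ∀ S' ⊆ B, S.card = S'.card → ∀ a b,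
      (2 : ℤ) ^ min J ((S.card + i) / 2) ∣ x S a b - x S' a b ∧
        (2 : ℤ) ^ min J ((S.card + i) / 2) ∣ h S a b - h S' a b) →
    Odd (x ∅).det → ((B.powerset.filter fun C =>
      ((((N₀ + C.card).choose 2 : ℕ) : ℤ) • ∑ S ∈ C.powerset, x S +
        ∑ S ∈ C.powerset, h S).det = 0).card : ℝ) ≤ η * 2 ^ N

theorem ac2_diff {α : Type} [DecidableEq α] {J i i' : ℕ} (hi : i' ≤ i + 1) {B B' γ : Finset α}
    (hB' : B' ⊆ B) (hγ' : γ ⊆ B \ B') (c : Finset α → ℤ)
    (h1 : ∀ S, (2 : ℤ) ^ (S.card / 2) ∣ c S)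
    (h2 : ∀ S ⊆ B, ∀ S' ⊆ B, S.card = S'.card → (2 : ℤ) ^ min J ((S.card + i) / 2) ∣ c S - c S')
    (hcol : ∀ S ⊆ B', ∀ S' ⊆ B', S.card = S'.card → S.card ≤ 2 * J →
      ((c S : ℤ) : ZMod (2 ^ J)) = c S') :
    ∀ S ⊆ B', ∀ S' ⊆ B', S.card = S'.card → (2 : ℤ) ^ min J ((S.card + i') / 2) ∣
      ∑ T ∈ γ.powerset, c (S ∪ T) - ∑ T ∈ γ.powerset, c (S' ∪ T) := by
  intro S hS S' hS' he
  rw [← Finset.sum_sub_distrib]
  refine Finset.dvd_sum fun T hT => ?_
  have hT' := (Finset.mem_powerset.1 hT).trans hγ'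
  rcases T.eq_empty_or_nonempty with rfl | hne
  · rw [Finset.union_empty, Finset.union_empty]
    refine (pow_dvd_pow 2 (min_le_left _ _)).trans ?_
    by_cases hJ : S.card ≤ 2 * J
    · have h5 := (ZMod.intCast_eq_intCast_iff_dvd_sub _ _ _).1 (hcol S hS S' hS' he hJ).symm
      exact_mod_cast h5
    · exact dvd_sub ((pow_dvd_pow 2 (by omega)).trans (h1 S))
        ((pow_dvd_pow 2 (by omega)).trans (h1 S'))
  · have hd : ∀ S ⊆ B', (S ∪ T).card = S.card + T.card := fun S hS =>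
      Finset.card_union_of_disjoint (Finset.disjoint_of_subset_left hS
        (Finset.disjoint_of_subset_right hT' Finset.disjoint_sdiff))
    have hs : ∀ S ⊆ B', S ∪ T ⊆ B := fun S hS =>
      Finset.union_subset (hS.trans hB') (hT'.trans Finset.sdiff_subset)
    have h4 := h2 _ (hs S hS) _ (hs S' hS') (by rw [hd S hS, hd S' hS', he])
    rw [hd S hS] at h4
    have h5 := hne.card_pos
    exact (pow_dvd_pow 2 (by omega)).trans h4

theorem ac2_step {w J : ℕ} {η : ℝ} {i i' N' : ℕ} (hi : i' ≤ i + 1)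
    (hcl : Ac2Claim w J η i' N') : ∃ N, Ac2Claim w J η i N := by
  have : NeZero (2 ^ J) := ⟨by positivity⟩
  obtain ⟨N, hN⟩ := ramsey (Fin w → Fin w → ZMod (2 ^ J) × ZMod (2 ^ J)) (2 * J) N'
  refine ⟨N, fun v hv α _ B hB x h N₀ h1 h1' h2 h3 => ?_⟩
  obtain ⟨B', hB', hc, hcol⟩ := hN α B (fun S a b =>
    if hab : a.val < v ∧ b.val < v then
      (((x S ⟨a, hab.1⟩ ⟨b, hab.2⟩ : ℤ) : ZMod (2 ^ J)),
        ((h S ⟨a, hab.1⟩ ⟨b, hab.2⟩ : ℤ) : ZMod (2 ^ J))) else 0) hB.ge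
  have hcol' : ∀ S ⊆ B', ∀ S' ⊆ B', S.card = S'.card → S.card ≤ 2 * J → ∀ a b : Fin v,
      ((x S a b : ℤ) : ZMod (2 ^ J)) = x S' a b ∧ ((h S a b : ℤ) : ZMod (2 ^ J)) = h S' a b := by
    intro S hS S' hS' he hJ a b
    have h4 := congrFun (congrFun (hcol S hS S' hS' he hJ) (Fin.castLE hv a)) (Fin.castLE hv b)
    have h5 : (Fin.castLE hv a).val < v ∧ (Fin.castLE hv b).val < v := ⟨a.2, b.2⟩
    simp only [dif_pos h5] at h4
    exact Prod.mk.inj h4
  have key : ∀ γ ∈ (B \ B').powerset, ((B'.powerset.filter fun C =>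
      ((((N₀ + γ.card + C.card).choose 2 : ℕ) : ℤ) •
        ∑ S ∈ C.powerset, ∑ T ∈ γ.powerset, x (S ∪ T) +
        ∑ S ∈ C.powerset, ∑ T ∈ γ.powerset, h (S ∪ T)).det = 0).card : ℝ) ≤ η * 2 ^ N' := by
    intro γ hγ
    have hγ' := Finset.mem_powerset.1 hγ
    refine hcl v hv α B' hc (fun S => ∑ T ∈ γ.powerset, x (S ∪ T))
      (fun S => ∑ T ∈ γ.powerset, h (S ∪ T)) (N₀ + γ.card) ?_ ?_ ?_ (ac2_odd γ x h1 h3)
    · intro S a b
      rw [Matrix.sum_apply]
      refine Finset.dvd_sum fun T _ => (pow_dvd_pow 2 ?_).trans (h1 _ a b)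
      have := Finset.card_le_card (Finset.subset_union_left (s₁ := S) (s₂ := T))
      omega
    · intro S a b
      rw [Matrix.sum_apply]
      refine Finset.dvd_sum fun T _ => (pow_dvd_pow 2 ?_).trans (h1' _ a b)
      have := Finset.card_le_card (Finset.subset_union_left (s₁ := S) (s₂ := T))
      omega
    · intro S hS S' hS' he a b
      simp only [Matrix.sum_apply]
      exact ⟨ac2_diff hi hB' hγ' (fun S => x S a b)
          (fun S => (pow_dvd_pow 2 (by omega)).trans (h1 S a b))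
          (fun S hS S' hS' he => (h2 S hS S' hS' he a b).1)
          (fun S hS S' hS' he hJ => (hcol' S hS S' hS' he hJ a b).1) S hS S' hS' he,
        ac2_diff hi hB' hγ' (fun S => h S a b) (fun S => h1' S a b)
          (fun S hS S' hS' he => (h2 S hS S' hS' he a b).2)
          (fun S hS S' hS' he hJ => (hcol' S hS S' hS' he hJ a b).2) S hS S' hS' he⟩
  have hm : ∀ C ∈ B.powerset.filter fun C =>
      ((((N₀ + C.card).choose 2 : ℕ) : ℤ) • ∑ S ∈ C.powerset, x S +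
        ∑ S ∈ C.powerset, h S).det = 0, C \ B' ∈ (B \ B').powerset := fun C hC =>
    Finset.mem_powerset.2 (Finset.sdiff_subset_sdiff
      (Finset.mem_powerset.1 (Finset.mem_filter.1 hC).1) Finset.Subset.rfl)
  rw [Finset.card_eq_sum_card_fiberwise hm, Nat.cast_sum]
  refine (Finset.sum_le_card_nsmul _ _ (η * 2 ^ N') fun γ hγ => le_trans ?_ (key γ hγ)).trans
    (le_of_eq ?_)
  · refine Nat.cast_le.2 (Finset.card_le_card_of_injOn (fun C => C ∩ B') (fun C hC => ?_)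
      fun C hC C' hC' he => ?_)
    · obtain ⟨hC1, rfl⟩ := Finset.mem_filter.1 hC
      have h4 := (Finset.mem_filter.1 hC1).2
      have h5 : Disjoint (C ∩ B') (C \ B') := Finset.disjoint_of_subset_left
        Finset.inter_subset_right Finset.disjoint_sdiff
      have h6 : C ∩ B' ∪ C \ B' = C := by rw [Finset.union_comm, Finset.sdiff_union_inter]
      refine Finset.mem_filter.2 ⟨Finset.mem_powerset.2 Finset.inter_subset_right, ?_⟩
      rw [← ac2_pow _ _ h5, ← ac2_pow _ _ h5, h6, add_assoc, Finset.card_sdiff_add_card_inter]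
      exact h4
    · rw [← Finset.sdiff_union_inter C B', ← Finset.sdiff_union_inter C' B',
        (Finset.mem_filter.1 hC).2, (Finset.mem_filter.1 hC').2]
      exact congrArg _ he
  · rw [Finset.card_powerset, nsmul_eq_mul, ← hB, ← Finset.card_sdiff_add_card_eq_card hB', hc,
      pow_add]
    push_cast
    ring

theorem ac2 (w : ℕ) (η : ℝ) (hη : 0 < η) : ∃ R : ℕ, ∀ v ≤ w,
    ∀ x h : Finset (Fin R) → Matrix (Fin v) (Fin v) ℤ, (∀ a b, IsH 1 fun C => x C a b) →
    (∀ a b, IsH 0 fun C => h C a b) → Odd (x ∅).det →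
    ((Finset.univ.filter fun C : Finset (Fin R) =>
      (((C.card.choose 2 : ℕ) : ℤ) • x C + h C).det = 0).card : ℝ) ≤ η * 2 ^ R := by
  obtain ⟨ρ, J, h0⟩ := sym_case2 w η hη
  have key : ∀ k, ∃ N, Ac2Claim w J η (2 * J - k) N := by
    intro k
    induction k with
    | zero =>
      refine ⟨ρ, fun v hv α _ B hB x h N₀ h1 h1' h2 h3 => h0 v hv α B hB x h N₀ h1 h1' ?_ h3⟩
      intro S hS S' hS' he a b
      have h4 := h2 S hS S' hS' he a b
      rwa [min_eq_left (by omega)] at h4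
    | succ k ih =>
      obtain ⟨N', h⟩ := ih
      exact ac2_step (by omega) h
  obtain ⟨R, hR⟩ := key (2 * J)
  refine ⟨R, fun v hv x h h1 h1' h2 => ?_⟩
  choose c hc hc' using h1
  choose e he he' using h1'
  have hx : ∀ C, x C = ∑ S ∈ C.powerset, Matrix.of fun a b => c a b S := by
    intro C
    ext a b
    rw [Matrix.sum_apply]
    exact hc' a b C
  have hh : ∀ C, h C = ∑ S ∈ C.powerset, Matrix.of fun a b => e a b S := by
    intro C
    ext a b
    rw [Matrix.sum_apply]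
    exact he' a b C
  have h3 := hR v hv (Fin R) Finset.univ (by simp) (fun S => Matrix.of fun a b => c a b S)
    (fun S => Matrix.of fun a b => e a b S) 0 (fun S a b => hc a b S) (fun S a b => he a b S)
    (fun S _ S' _ hS a b => by
      have h4 : (2 : ℤ) ^ min J ((S.card + (2 * J - 2 * J)) / 2) ∣ 2 ^ (S.card / 2) :=
        pow_dvd_pow 2 (by omega)
      refine ⟨h4.trans (dvd_sub ((pow_dvd_pow 2 (by omega)).trans (hc a b S))
        ((pow_dvd_pow 2 (by omega)).trans (hc a b S'))), h4.trans (dvd_sub (he a b S) ?_)⟩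
      rw [hS]
      exact he a b S') (by
      have h4 := hx ∅
      rw [Finset.powerset_empty, Finset.sum_singleton] at h4
      exact h4 ▸ h2)
  simpa only [Finset.powerset_univ, zero_add, ← hx, ← hh] using h3

end Pool.Agent.Lib.MP_788af2_nt.AS
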