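import Pool.Agent.Lib.MP_788af2_nt.AS.Defs

/-!
Two parameter family: the algebraic definitions.
-/

set_option linter.unusedSectionVars false

namespace Pool.Agent.Lib.MP_788af2_nt.AS

open Polynomial WeierstrassCurve Pool.Agent.Lib.MP_a3f657_nt.Two Matrix

/-- Functions on the cube whose coefficient at `S` is divisible by `2 ^ ((|S| + j) / 2)`. -/
def IsH {R : ℕ} (j : ℕ) (f : Finset (Fin R) → ℤ) : Prop :=
  ∃ c : Finset (Fin R) → ℤ, (∀ S, (2 : ℤ) ^ ((S.card + j) / 2) ∣ c S) ∧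
    ∀ C, f C = ∑ S ∈ C.powerset, c S

/-- The bivector `∑ p i ∧ w i` vanishes. -/
def Triv {A ι : Type} [AddCommGroup A] [Fintype ι] (p w : ι → A) : Prop :=
  ∀ l : A →+ ZMod 2, ∑ i, ((l (w i)).val • p i + (l (p i)).val • w i) = 0

section

variable {I : Type} [Fintype I] [DecidableEq I] {W : Type} [Fintype W]

/-- The value of a character on an integral family. -/
def Ach (A : G I → Matrix W W ℤ) (ξ : G I) : Matrix W W ℤ := ∑ g, sg (ξ ⬝ᵥ g) • A g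

/-- The first derivative. -/
def D1 (B : G I → Matrix W W (ZMod 2)) (ξ : G I) : Matrix W W (ZMod 2) := ∑ g, (ξ ⬝ᵥ g) • B g

/-- The second derivative. -/
def D2 (B : G I → Matrix W W (ZMod 2)) (ξ ξ' : G I) : Matrix W W (ZMod 2) :=
  ∑ g, ((ξ ⬝ᵥ g) * (ξ' ⬝ᵥ g)) • B g

/-- The dimension of the kernel. -/
noncomputable def cork (C : Matrix W W (ZMod 2)) : ℕ :=
  Module.finrank (ZMod 2) (LinearMap.ker C.mulVecLin)

/-- The dimension of the intersection of the left and right kernels. -/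
noncomputable def lrk (C : Matrix W W (ZMod 2)) : ℕ :=
  Module.finrank (ZMod 2) ↥(LinearMap.ker C.mulVecLin ⊓ LinearMap.ker Cᵀ.mulVecLin)

/-- The first order hypotheses: `τ` is the characteristic vector of the first derivatives. -/
structure FrA (B : G I → Matrix W W (ZMod 2)) (τ : W → ZMod 2) : Prop where
  d0 : ∑ g, B g = 0
  ne : τ ≠ 0
  symm : ∀ ξ, (D1 B ξ)ᵀ = D1 B ξ
  wu : ∀ ξ v, v ⬝ᵥ D1 B ξ *ᵥ v = τ ⬝ᵥ D1 B ξ *ᵥ v
  nd0 : ∀ z w, z ≠ 0 → w ≠ 0 → w ≠ z + τ → ∃ ξ, z ⬝ᵥ D1 B ξ *ᵥ w ≠ 0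
  nd1 : ∀ z w, z ≠ 0 → z ≠ τ → ∃ ξ, z ⬝ᵥ D1 B ξ *ᵥ w + τ ⬝ᵥ D1 B ξ *ᵥ τ ≠ 0

/-- The second order hypothesis. -/
def Clq (B : G I → Matrix W W (ZMod 2)) (r R : ℕ) : Prop :=
  ∀ (p : Fin r → W → ZMod 2) (Mt : Matrix W W (ZMod 2)), Alt Mt → ∃ ξ : Fin R → G I,
    (∀ l, D1 B (ξ l) = 0) ∧ ∀ l l', l ≠ l' → ∀ a, p a ᵥ* D2 B (ξ l) (ξ l') = p a ᵥ* Mt

end

/-- The conclusion of the algebraic part for the parameters `r` and `R`. -/
def AlgOK (m : ℕ) (η : ℝ) (r R : ℕ) : Prop :=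
  ∀ (I : Type) [Fintype I] [DecidableEq I] (W : Type) [Fintype W] [DecidableEq W] (M : Type)
    [AddCommGroup M] (s : G I → M →+ M) (ν : M →+ (W → ZMod 2))
    (B : G I → Matrix W W (ZMod 2)), Lat s ν B → (∀ ξ, (eig s ξ).FG) → ∀ τ, FrA B τ → Clq B r R →
    ∑ ξ, (Module.finrank ℤ (eig s ξ) : ℝ) ^ m ≤ (1 / 2 + η) * Fintype.card (G I)

/-- The tuples supported on the indices before `m`. -/
def pre {R : ℕ} {Γ : Type} [Zero Γ] [DecidableEq Γ] (X : Fin R → Finset Γ) (m : Fin R) :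
    Finset (Fin R → Γ) :=
  Fintype.piFinset fun l => if l < m then X l else {0}

end Pool.Agent.Lib.MP_788af2_nt.AS
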