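import Pool.Agent.Lib.MP_788af2_nt.TT.ADefs

/-!
Adapted rows and columns, and the alternating target.
-/

set_option linter.unusedSectionVars false

namespace Pool.Agent.Lib.MP_788af2_nt.AS

open Polynomial WeierstrassCurve Pool.Agent.Lib.MP_a3f657_nt.Two Matrix

section GramAux

open Module

variable {V : Type} [AddCommGroup V] [Module (ZMod 2) V]

theorem gram_fun {p : Submodule (ZMod 2) V} {v : V} (hv : v ∉ p) :
    ∃ f : V →ₗ[ZMod 2] ZMod 2, f v = 1 ∧ ∀ x ∈ p, f x = 0 := by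
  obtain ⟨f, h1, h2⟩ := Submodule.exists_le_ker_of_notMem hv
  refine ⟨f, ?_, fun x hx => h2 hx⟩
  generalize f v = a at h1
  revert a
  decide

theorem gram_dim [FiniteDimensional (ZMod 2) V] {L : Submodule (ZMod 2) V}
    {f : V →ₗ[ZMod 2] ZMod 2} {u : V} (hu : u ∈ L) (hf : f u = 1) :
    finrank (ZMod 2) ↥(L ⊓ LinearMap.ker f) + 1 = finrank (ZMod 2) L := by
  have h0 : f.domRestrict L ≠ 0 := fun h => by
    have h1 : f u = 0 := LinearMap.congr_fun h ⟨u, hu⟩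
    exact one_ne_zero (hf.symm.trans h1)
  rw [← Module.Dual.finrank_ker_add_one_of_ne_zero h0, LinearMap.ker_domRestrict,
    ← Submodule.finrank_map_subtype_eq L, Submodule.map_comap_subtype]

theorem gram_ext (w : V →ₗ[ZMod 2] V →ₗ[ZMod 2] ZMod 2) (hw : ∀ x, w x x = 0) {u v : V}
    {f g : V →ₗ[ZMod 2] ZMod 2} (h1 : f u = 1) (h2 : f v = 0) (h3 : g u = 0) (h4 : g v = 1) :
    ∃ w' : V →ₗ[ZMod 2] V →ₗ[ZMod 2] ZMod 2, (∀ x, w' x x = 0) ∧
      (∀ x y, f x = 0 → g x = 0 → f y = 0 → g y = 0 → w' x y = w x y) ∧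
      (∀ y, w' u y = g y) ∧ (∀ y, w' v y = f y) ∧ (∀ x, w' x u = g x) ∧ ∀ x, w' x v = f x := by
  let pr : V →ₗ[ZMod 2] V := LinearMap.id - f.smulRight u - g.smulRight v
  have hp : ∀ x, pr x = x - f x • u - g x • v := fun _ => rfl
  have hu : pr u = 0 := by rw [hp, h1, h3]; simp
  have hv : pr v = 0 := by rw [hp, h2, h4]; simp
  let w' : V →ₗ[ZMod 2] V →ₗ[ZMod 2] ZMod 2 :=
    w.compl₁₂ pr pr + f.smulRight g + g.smulRight f
  have hw' : ∀ x y, w' x y = w (pr x) (pr y) + f x * g y + g x * f y := fun _ _ => rfl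
  refine ⟨w', fun x => ?_, fun x y a b c d => ?_, fun y => ?_, fun y => ?_, fun x => ?_,
    fun x => ?_⟩
  · rw [hw', hw, zero_add, mul_comm, CharTwo.add_self_eq_zero]
  · rw [hw', hp, hp, a, b, c, d]; simp
  · rw [hw', hu, h1, h3]; simp
  · rw [hw', hv, h2, h4]; simp
  · rw [hw', hu, h1, h3]; simp
  · rw [hw', hv, h2, h4]; simp

theorem gram_key [FiniteDimensional (ZMod 2) V] (n : ℕ) : ∀ L R : Submodule (ZMod 2) V,
    finrank (ZMod 2) L = n → finrank (ZMod 2) R = n →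
    ∃ (m : ℕ) (p p' : Fin m → V) (w : V →ₗ[ZMod 2] V →ₗ[ZMod 2] ZMod 2), (∀ x, w x x = 0) ∧
      (∀ i, p i ∈ L) ∧ (∀ i, p' i ∈ R) ∧ (∀ i j, w (p i) (p' j) = if i = j then 1 else 0) ∧
      m ≤ n ∧ n ≤ m + finrank (ZMod 2) ↥(L ⊓ R) % 2 := by
  induction n using Nat.strong_induction_on with
  | _ n ih =>
  intro L R hL hR
  by_cases hLR : L = R
  · subst hLR
    rw [inf_idem, hL]
    by_cases hn : n ≤ 1
    · exact ⟨0, Fin.elim0, Fin.elim0, 0, fun _ => rfl, fun i => i.elim0, fun i => i.elim0,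
        fun i => i.elim0, by omega, by omega⟩
    obtain ⟨u, hu, hu0⟩ : ∃ u ∈ L, u ≠ 0 :=
      Submodule.exists_mem_ne_zero_of_ne_bot fun h => by rw [h, finrank_bot] at hL; omega
    obtain ⟨f, hf, -⟩ := gram_fun (p := ⊥) (v := u) hu0
    have d1 := gram_dim hu hf
    obtain ⟨v, hv, hv0⟩ : ∃ v ∈ L ⊓ LinearMap.ker f, v ≠ 0 :=
      Submodule.exists_mem_ne_zero_of_ne_bot fun h => by rw [h, finrank_bot] at d1; omega
    obtain ⟨g0, hg0, -⟩ := gram_fun (p := ⊥) (v := v) hv0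
    have hfv : f v = 0 := hv.2
    obtain ⟨g, hgu, hgv⟩ : ∃ g : V →ₗ[ZMod 2] ZMod 2, g u = 0 ∧ g v = 1 :=
      ⟨g0 - g0 u • f, by simp [hf], by simp [hfv, hg0]⟩
    have d2 := gram_dim hv hgv
    obtain ⟨m, p, p', w, a1, a2, a3, a4, a5, a6⟩ :=
      ih (n - 2) (by omega) (L ⊓ LinearMap.ker f ⊓ LinearMap.ker g)
        (L ⊓ LinearMap.ker f ⊓ LinearMap.ker g) (by omega) (by omega)
    rw [inf_idem] at a6
    obtain ⟨w', b1, b2, b3, b4, b5, b6⟩ := gram_ext w a1 hf hfv hgu hgv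
    have c1 : ∀ i, f (p i) = 0 := fun i => (a2 i).1.2
    have c2 : ∀ i, g (p i) = 0 := fun i => (a2 i).2
    have c3 : ∀ i, f (p' i) = 0 := fun i => (a3 i).1.2
    have c4 : ∀ i, g (p' i) = 0 := fun i => (a3 i).2
    refine ⟨m + 2, Fin.cons u (Fin.cons v p), Fin.cons v (Fin.cons u p'), w', b1, fun i => ?_,
      fun i => ?_, fun i j => ?_, by omega, by omega⟩
    · exact Fin.cases hu (fun i => Fin.cases hv.1 (fun i => (a2 i).1.1) i) i
    · exact Fin.cases hv.1 (fun i => Fin.cases hu (fun i => (a3 i).1.1) i) i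
    · refine Fin.cases ?_ (fun i => Fin.cases ?_ (fun i => ?_) i) i <;>
        refine Fin.cases ?_ (fun j => Fin.cases ?_ (fun j => ?_) j) j <;>
        simp only [Fin.cons_zero, Fin.cons_succ, b3, b4, b5, b6, hf, hfv, hgu, hgv, c1, c2, c3, c4,
          Fin.succ_inj, if_true, Fin.succ_ne_zero, (Fin.succ_ne_zero _).symm, if_false]
      rw [b2 _ _ (c1 _) (c2 _) (c3 _) (c4 _), a4]
  · obtain ⟨u, hu, hu'⟩ : ∃ u ∈ L, u ∉ R := SetLike.not_le_iff_exists.1 fun h =>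
      hLR (Submodule.eq_of_le_of_finrank_eq h (hL.trans hR.symm))
    obtain ⟨v, hv, hv'⟩ : ∃ v ∈ R, v ∉ L := SetLike.not_le_iff_exists.1 fun h =>
      hLR (Submodule.eq_of_le_of_finrank_eq h (hR.trans hL.symm)).symm
    obtain ⟨f, hf, hf'⟩ := gram_fun hu'
    obtain ⟨g, hg, hg'⟩ := gram_fun hv'
    have d1 := gram_dim hu hf
    have d2 := gram_dim hv hg
    obtain ⟨m, p, p', w, a1, a2, a3, a4, a5, a6⟩ :=
      ih (n - 1) (by omega) (L ⊓ LinearMap.ker f) (R ⊓ LinearMap.ker g) (by omega) (by omega)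
    have e : (L ⊓ LinearMap.ker f) ⊓ (R ⊓ LinearMap.ker g) = L ⊓ R :=
      le_antisymm (inf_le_inf inf_le_left inf_le_left)
        fun x hx => ⟨⟨hx.1, hf' x hx.2⟩, hx.2, hg' x hx.1⟩
    rw [e] at a6
    obtain ⟨w', b1, b2, b3, b4, b5, b6⟩ := gram_ext w a1 hf (hf' v hv) (hg' u hu) hg
    have c1 : ∀ i, f (p i) = 0 := fun i => (a2 i).2
    have c2 : ∀ i, g (p i) = 0 := fun i => hg' _ (a2 i).1
    have c3 : ∀ i, f (p' i) = 0 := fun i => hf' _ (a3 i).1
    have c4 : ∀ i, g (p' i) = 0 := fun i => (a3 i).2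
    refine ⟨m + 1, Fin.cons u p, Fin.cons v p', w', b1, fun i => ?_, fun i => ?_, fun i j => ?_,
      by omega, by omega⟩
    · exact Fin.cases hu (fun i => (a2 i).1) i
    · exact Fin.cases hv (fun i => (a3 i).1) i
    · refine Fin.cases ?_ (fun i => ?_) i <;> refine Fin.cases ?_ (fun j => ?_) j <;>
        simp only [Fin.cons_zero, Fin.cons_succ, b3, b6, hg, c1, c4,
          Fin.succ_inj, if_true, Fin.succ_ne_zero, (Fin.succ_ne_zero _).symm, if_false]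
      rw [b2 _ _ (c1 _) (c2 _) (c3 _) (c4 _), a4]

end GramAux

theorem gram_cork {W : Type} [Fintype W] [DecidableEq W] (C : Matrix W W (ZMod 2)) :
    C.rank + cork C = Fintype.card W := by
  have h := LinearMap.finrank_range_add_finrank_ker C.mulVecLin
  rwa [Module.finrank_fintype_fun_eq_card] at h

theorem gram {W : Type} [Fintype W] [DecidableEq W] (C : Matrix W W (ZMod 2)) :
    ∃ (n₁ n₂ : ℕ) (P₁ P₁' : Matrix W (Fin n₁) (ZMod 2)) (P₂ P₂' : Matrix W (Fin n₂) (ZMod 2))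
      (Mt : Matrix W W (ZMod 2)), Alt Mt ∧ P₁ᵀ * C = 0 ∧ C * P₁' = 0 ∧ (P₂ᵀ * C * P₂').det ≠ 0 ∧
      (P₁ᵀ * Mt * P₁').det ≠ 0 ∧ n₂ + cork C = Fintype.card W ∧ n₁ ≤ cork C ∧
      cork C ≤ n₁ + lrk C % 2 := by
  have k1 := gram_cork C
  have k2 := gram_cork Cᵀ
  rw [Matrix.rank_transpose] at k2
  obtain ⟨m, p, p', w, a1, a2, a3, a4, a5, a6⟩ := gram_key (cork C) (LinearMap.ker Cᵀ.mulVecLin)
    (LinearMap.ker C.mulVecLin) (show cork Cᵀ = cork C by omega) rfl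
  obtain ⟨Mt, rfl⟩ := Matrix.toBilin'.surjective w
  obtain ⟨A, B, e, -, -, hAB⟩ := Matrix.exists_rank_normal_form C
  refine ⟨m, C.rank, Matrix.of fun x i => p i x, Matrix.of fun x i => p' i x,
    (A.submatrix (fun i => e.symm (Sum.inl i)) id)ᵀ, B.submatrix id fun i => e.symm (Sum.inl i), Mt,
    ⟨fun i => ?_, fun i j => ?_⟩, ?_, ?_, ?_, ?_, k1, a5, by rwa [inf_comm] at a6⟩
  · rw [← Matrix.toBilin'_single Mt i i, a1]
  · have h := a1 (Pi.single i 1 + Pi.single j 1)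
    simp only [map_add, LinearMap.add_apply, a1, Matrix.toBilin'_single, zero_add, add_zero] at h
    exact (CharTwo.add_eq_zero.1 h).symm
  · ext i j
    have h : (Cᵀ *ᵥ p i) j = 0 := congrFun (a2 i) j
    simpa [Matrix.mul_apply, Matrix.mulVec, dotProduct, mul_comm] using h
  · ext i j
    exact congrFun (a3 j) i
  · have h : (A.submatrix (fun i => e.symm (Sum.inl i)) id)ᵀᵀ * C *
        (B.submatrix id fun i => e.symm (Sum.inl i)) = 1 := by
      ext i j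
      have h1 := congrFun (congrFun hAB (e.symm (Sum.inl i))) (e.symm (Sum.inl j))
      rw [Matrix.submatrix_apply, e.apply_symm_apply, e.apply_symm_apply,
        Matrix.fromBlocks_apply₁₁] at h1
      exact h1
    rw [h, Matrix.det_one]
    exact one_ne_zero
  · have h : (Matrix.of fun x i => p i x)ᵀ * Mt * (Matrix.of fun x i => p' i x) = 1 := by
      ext i j
      rw [Matrix.one_apply, ← a4, Matrix.toBilin'_apply', Matrix.mul_assoc]
      rfl
    rw [h, Matrix.det_one]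
    exact one_ne_zero

end Pool.Agent.Lib.MP_788af2_nt.AS
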