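import Pool.Agent.Lib.MP_788af2_nt.TT.ADefs

/-!
The parity of the rank of a symmetric form with a characteristic vector.
-/

set_option linter.unusedSectionVars false

namespace Pool.Agent.Lib.MP_788af2_nt.AS

open Polynomial WeierstrassCurve Pool.Agent.Lib.MP_a3f657_nt.Two Matrix

private lemma wu_alt {V : Type} [AddCommGroup V] [Finite V] (ψ : V →+ V →+ ZMod 2)
    (S : AddSubgroup V) (h : ∀ v ∈ S, ψ v v = 0) :
    ∃ i, Nat.card S = Nat.card (rad ψ S) * 4 ^ i := by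
  let φ : S →+ S →+ ZMod 2 := (((ψ.comp S.subtype).flip).comp S.subtype).flip
  have hφ : ∀ v w : S, φ v w = ψ v w := fun _ _ => rfl
  obtain ⟨i, hi⟩ := card_alt φ (fun v => by rw [hφ]; exact h v v.2) ⊤
  refine ⟨i, ?_⟩
  have e1 : Nat.card (rad φ ⊤) = Nat.card (rad ψ S) :=
    Nat.card_congr
      ⟨fun v => ⟨v.1.1, v.1.2, fun w hw => v.2.2 ⟨w, hw⟩ (AddSubgroup.mem_top _)⟩,
        fun v => ⟨⟨v.1, v.2.1⟩, AddSubgroup.mem_top _, fun w _ => v.2.2 w.1 w.2⟩,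
        fun _ => rfl, fun _ => rfl⟩
  rw [← e1, ← hi, AddSubgroup.card_top]

private lemma wu_index {V : Type} [AddCommGroup V] [Finite V] (f : V →+ ZMod 2)
    (S : AddSubgroup V) {a : V} (ha : a ∈ S) (h1 : f a = 1) :
    Nat.card (f.ker ⊓ S : AddSubgroup V) * 2 = Nat.card S := by
  have e1 : S.map f = ⊤ := by
    rw [eq_top_iff]
    rintro x -
    exact ⟨x.val • a, nsmul_mem ha _, by simp [h1]⟩
  have e2 : f.ker.relIndex S = 2 := by
    rw [AddSubgroup.relIndex_ker, e1]; simp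
  have e3 : Nat.card (f.ker ⊓ S : AddSubgroup V) * f.ker.relIndex S = Nat.card S := by
    rw [← AddSubgroup.inf_relIndex_right, AddSubgroup.relIndex,
      ← Nat.card_congr (AddSubgroup.addSubgroupOfEquivOfLe (inf_le_right (a := f.ker))).toEquiv,
      AddSubgroup.card_mul_index]
  rwa [e2] at e3

private lemma wu_rad {V : Type} [AddCommGroup V] (ψ : V →+ V →+ ZMod 2)
    (hs : ∀ v w, ψ v w = ψ w v) (S : AddSubgroup V) {a : V} (ha : a ∈ S) (h1 : ψ a a = 1) :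
    rad ψ ((ψ a).ker ⊓ S) = rad ψ S := by
  refine le_antisymm (fun v hv => ?_) fun v hv => ?_
  · refine ⟨hv.1.2, fun w hw => ?_⟩
    have h0 : ψ a v = 0 := hv.1.1
    have := hv.2 (w + (ψ a w).val • a) ⟨by simp [h1, z2_add_self], add_mem hw (nsmul_mem ha _)⟩
    simpa [hs v a, h0] using this
  · refine ⟨⟨?_, hv.1⟩, fun w hw => hv.2 w hw.2⟩
    show ψ a v = 0
    rw [hs a v, hv.2 a ha]

private lemma wu_one {V : Type} [AddCommGroup V] [Finite V]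
    (ψ : V →+ V →+ ZMod 2) (hs : ∀ v w, ψ v w = ψ w v) (S : AddSubgroup V) {τ : V} (hτ : τ ∈ S)
    (hw : ∀ v ∈ S, ψ v v = ψ τ v) (h1 : ψ τ τ = 1) :
    ∃ i, Nat.card S = Nat.card (rad ψ S) * 2 * 4 ^ i := by
  obtain ⟨i, hi⟩ := wu_alt ψ ((ψ τ).ker ⊓ S) fun v hv => by
    rw [hw v hv.2]; exact hv.1
  refine ⟨i, ?_⟩
  rw [← wu_index (ψ τ) S hτ h1, hi, wu_rad ψ hs S hτ h1]
  ring

theorem wu_card {V : Type} [AddCommGroup V] [Finite V] (h2 : ∀ x : V, x + x = 0)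
    (ψ : V →+ V →+ ZMod 2) (hs : ∀ v w, ψ v w = ψ w v) (S : AddSubgroup V) {τ : V} (hτ : τ ∈ S)
    (hw : ∀ v ∈ S, ψ v v = ψ τ v) :
    ∃ i, Nat.card S = Nat.card (rad ψ S) * 2 ^ (ψ τ τ).val * 4 ^ i := by
  have _ := h2
  rcases z2_cases (ψ τ τ) with h0 | h1
  · by_cases h : ∀ v ∈ S, ψ τ v = 0
    · obtain ⟨i, hi⟩ := wu_alt ψ S fun v hv => by rw [hw v hv, h v hv]
      exact ⟨i, by rw [h0, hi]; simp⟩
    push Not at h
    obtain ⟨e, he, hte⟩ := h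
    have h1 : ψ τ e = 1 := (z2_cases _).resolve_left hte
    have h3 : ψ e e = 1 := by rw [hw e he, h1]
    have h4 : ψ e τ = 1 := by rw [hs, h1]
    obtain ⟨i, hi⟩ := wu_one ψ hs ((ψ e).ker ⊓ S) (τ := τ + e)
      ⟨by simp [h3, h4, z2_add_self], add_mem hτ he⟩
      (fun v hv => by
        have h5 : ψ e v = 0 := hv.1
        rw [hw v hv.2, map_add, AddMonoidHom.add_apply, h5, add_zero])
      (by simp [h0, h1, h3, h4, z2_add_self])
    refine ⟨i + 1, ?_⟩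
    rw [← wu_index (ψ e) S he h3, hi, wu_rad ψ hs S he h3, h0]
    simp only [ZMod.val_zero]
    ring
  · obtain ⟨i, hi⟩ := wu_one ψ hs S hτ hw h1
    exact ⟨i, by rw [h1, hi]; rfl⟩

end Pool.Agent.Lib.MP_788af2_nt.AS
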