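import Pool.Agent.Lib.MP_788af2_nt.TT.LoseA
import Pool.Agent.Lib.MP_788af2_nt.TT.Wu

/-!
The losing characters have density at most one half.
-/

set_option linter.unusedSectionVars false

namespace Pool.Agent.Lib.MP_788af2_nt.AS

open Polynomial WeierstrassCurve Pool.Agent.Lib.MP_a3f657_nt.Two Matrix

variable {I : Type} [Fintype I] [DecidableEq I] {W : Type} [Fintype W] [DecidableEq W]
  {B : G I → Matrix W W (ZMod 2)} {τ : W → ZMod 2}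

private lemma loseB_two (x : ZMod 2) : x + x = 0 := CharTwo.add_self_eq_zero x

private lemma loseB_vtwo (x : W → ZMod 2) : x + x = 0 := funext fun i => loseB_two (x i)

private lemma loseB_sum_symm (a : W → W → ZMod 2) (h : ∀ i j, a i j = a j i) :
    ∑ i, ∑ j, a i j = ∑ i, a i i := by
  have h0 : ∑ p ∈ (Finset.univ : Finset W).offDiag, a p.1 p.2 = 0 := by
    refine Finset.sum_involution (fun p _ => p.swap) (fun p _ => ?_) (fun p hp _ => ?_)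
      (fun p hp => ?_) (fun p _ => rfl)
    · simp only [Prod.fst_swap, Prod.snd_swap]
      rw [h p.2 p.1, loseB_two]
    · intro e
      exact (Finset.mem_offDiag.1 hp).2.2 (congrArg Prod.snd e)
    · simp only [Finset.mem_offDiag, Finset.mem_univ, true_and] at hp ⊢
      exact fun e => hp e.symm
  rw [← Finset.sum_product', ← Finset.diag_union_offDiag,
    Finset.sum_union (Finset.disjoint_diag_offDiag _), h0, add_zero, Finset.sum_diag]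

private lemma loseB_comm {C : Matrix W W (ZMod 2)} (hC : Cᵀ = C) (v w : W → ZMod 2) :
    v ⬝ᵥ C *ᵥ w = (C *ᵥ v) ⬝ᵥ w := by
  rw [dotProduct_mulVec, ← mulVec_transpose, hC]

private lemma loseB_diag {C : Matrix W W (ZMod 2)} (hC : Cᵀ = C) (v : W → ZMod 2) :
    v ⬝ᵥ C *ᵥ v = (fun i => C i i) ⬝ᵥ v := by
  have h1 : v ⬝ᵥ C *ᵥ v = ∑ i, ∑ j, v i * C i j * v j := by
    simp only [dotProduct, mulVec, Finset.mul_sum, mul_assoc]
  rw [h1, loseB_sum_symm]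
  · refine Finset.sum_congr rfl fun i _ => ?_
    rcases z2_cases (v i) with h | h <;> simp [h]
  · intro i j
    have : C j i = C i j := by rw [← transpose_apply C i j, hC]
    rw [this]; ring

private lemma loseB_alt {q u : W → ZMod 2} (h : ∀ w, q ⬝ᵥ w = 0 → u ⬝ᵥ w = 0) :
    u = 0 ∨ u = q := by
  by_cases hu : u = 0
  · exact Or.inl hu
  obtain ⟨i, hi⟩ := Function.ne_iff.1 hu
  have hui : u i = 1 := (z2_cases (u i)).resolve_left hi
  have hqi : q i = 1 := by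
    refine (z2_cases (q i)).resolve_left fun h0 => hi ?_
    have := h (Pi.single i 1) (by simp [h0])
    simpa using this
  refine Or.inr (funext fun j => ?_)
  have := h (Pi.single j 1 + Pi.single i (q j)) (by
    rw [dotProduct_add, dotProduct_single, dotProduct_single, hqi, mul_one, one_mul, loseB_two])
  rw [dotProduct_add, dotProduct_single, dotProduct_single, hui, mul_one, one_mul] at this
  exact (CharTwo.add_eq_zero.1 this)

/-- The bilinear form of a matrix. -/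
private def loseB_form (C : Matrix W W (ZMod 2)) : (W → ZMod 2) →+ (W → ZMod 2) →+ ZMod 2 :=
  AddMonoidHom.mk' (fun v => AddMonoidHom.mk' (fun w => v ⬝ᵥ C *ᵥ w) fun a b => by
    rw [mulVec_add, dotProduct_add]) fun a b => by
      ext w
      simp [add_dotProduct]

/-- The functional of a vector. -/
private def loseB_fn (q : W → ZMod 2) : (W → ZMod 2) →+ ZMod 2 :=
  AddMonoidHom.mk' (fun w => q ⬝ᵥ w) fun a b => dotProduct_add q a b

private lemma loseB_card_ker {q : W → ZMod 2} (hq : q ≠ 0) :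
    2 * {v | q ⬝ᵥ v = 0}.ncard = 2 ^ Fintype.card W := by
  obtain ⟨i, hi⟩ := Function.ne_iff.1 hq
  have hqi : q i = 1 := (z2_cases (q i)).resolve_left hi
  have h1 : (loseB_fn q).range = ⊤ := by
    refine eq_top_iff.2 fun c _ => ⟨Pi.single i c, ?_⟩
    change q ⬝ᵥ Pi.single i c = c
    rw [dotProduct_single, hqi, one_mul]
  have h2 := (loseB_fn q).ker.index_mul_card
  rw [AddSubgroup.index_ker, h1, AddSubgroup.card_top, Nat.card_zmod, Nat.card_fun, Nat.card_zmod,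
    Nat.card_eq_fintype_card (α := W)] at h2
  exact h2

/-- The Wu relation on the kernel of `q`. -/
private lemma loseB_wu {C : Matrix W W (ZMod 2)} (hC : Cᵀ = C) {q : W → ZMod 2}
    (hq : ∀ v, v ⬝ᵥ C *ᵥ v = τ ⬝ᵥ C *ᵥ v + q ⬝ᵥ v) :
    ∃ i, {v | q ⬝ᵥ v = 0}.ncard =
      {v | q ⬝ᵥ v = 0 ∧ (C *ᵥ v = 0 ∨ C *ᵥ v = q)}.ncard * 2 ^ (τ ⬝ᵥ C *ᵥ τ).val * 4 ^ i := by
  have hτ : q ⬝ᵥ τ = 0 := by simpa using hq τ
  obtain ⟨i, hi⟩ := wu_card loseB_vtwo (loseB_form C) (fun v w => by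
    change v ⬝ᵥ C *ᵥ w = w ⬝ᵥ C *ᵥ v
    rw [loseB_comm hC, dotProduct_comm]) (loseB_fn q).ker (τ := τ) hτ (fun v hv => by
    change v ⬝ᵥ C *ᵥ v = τ ⬝ᵥ C *ᵥ v
    have hv' : q ⬝ᵥ v = 0 := hv
    rw [hq, hv', add_zero])
  refine ⟨i, ?_⟩
  have e : (rad (loseB_form C) (loseB_fn q).ker : Set (W → ZMod 2)) =
      {v | q ⬝ᵥ v = 0 ∧ (C *ᵥ v = 0 ∨ C *ᵥ v = q)} := by
    ext v
    change (q ⬝ᵥ v = 0 ∧ ∀ w, q ⬝ᵥ w = 0 → v ⬝ᵥ C *ᵥ w = 0) ↔ _
    refine and_congr_right fun _ => ⟨fun h => loseB_alt fun w hw => ?_, fun h w hw => ?_⟩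
    · rw [← loseB_comm hC, h w hw]
    · rw [loseB_comm hC]
      rcases h with h | h <;> rw [h]
      · exact zero_dotProduct w
      · exact hw
  rw [← e]
  exact hi

private lemma loseB_lrk {C : Matrix W W (ZMod 2)} (hC : Cᵀ = C) {q : W → ZMod 2}
    (hq : ∀ v, v ⬝ᵥ C *ᵥ v = τ ⬝ᵥ C *ᵥ v + q ⬝ᵥ v) :
    {v | q ⬝ᵥ v = 0 ∧ C *ᵥ v = 0}.ncard = 2 ^ lrk C := by
  rw [← card_lrk]
  congr 1
  ext v
  simp only [Set.mem_ofPred_eq]
  rw [← mulVec_transpose, hC, and_self]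
  refine ⟨fun h => h.2, fun h => ⟨?_, h⟩⟩
  simpa [h] using (hq v).symm

private lemma loseB_par {n e i : ℕ} {c : ZMod 2} (h : 2 ^ n = 2 ^ e * 2 ^ c.val * 4 ^ i) :
    (e : ZMod 2) = n + c := by
  have h1 : n = e + c.val + 2 * i := by
    refine Nat.pow_right_injective (le_refl 2) ?_
    change 2 ^ n = 2 ^ (e + c.val + 2 * i)
    rw [h, pow_add, pow_add, pow_mul]
    norm_num
  rw [h1]
  push_cast
  rw [ZMod.natCast_zmod_val, two_mul, loseB_two, add_zero, add_assoc, loseB_two, add_zero]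

/-- The dichotomy for one symmetric matrix. -/
private lemma loseB_one {C : Matrix W W (ZMod 2)} (hC : Cᵀ = C) {q : W → ZMod 2} (h0 : q ≠ 0)
    (hq : ∀ v, v ⬝ᵥ C *ᵥ v = τ ⬝ᵥ C *ᵥ v + q ⬝ᵥ v) {n : ℕ} (hn : {v | q ⬝ᵥ v = 0}.ncard = 2 ^ n) :
    ({v | q ⬝ᵥ v = 0 ∧ C *ᵥ v = q}.ncard = 0 ∧ (lrk C : ZMod 2) = n + τ ⬝ᵥ C *ᵥ τ) ∨
      ({v | q ⬝ᵥ v = 0 ∧ C *ᵥ v = q}.ncard = 2 ^ lrk C ∧
        (lrk C : ZMod 2) + 1 = n + τ ⬝ᵥ C *ᵥ τ) := by
  obtain ⟨i, hi⟩ := loseB_wu hC hq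
  have hK := loseB_lrk hC hq
  have e : {v | q ⬝ᵥ v = 0 ∧ (C *ᵥ v = 0 ∨ C *ᵥ v = q)} =
      {v | q ⬝ᵥ v = 0 ∧ C *ᵥ v = 0} ∪ {v | q ⬝ᵥ v = 0 ∧ C *ᵥ v = q} := by
    ext v
    simp only [Set.mem_ofPred_eq, Set.mem_union, and_or_left]
  have hd : Disjoint {v | q ⬝ᵥ v = 0 ∧ C *ᵥ v = 0} {v | q ⬝ᵥ v = 0 ∧ C *ᵥ v = q} :=
    Set.disjoint_left.2 fun v h1 h2 => h0 (h2.2.symm.trans h1.2)
  rw [e, Set.ncard_union_eq hd, hK, hn] at hi
  rcases Set.eq_empty_or_nonempty {v | q ⬝ᵥ v = 0 ∧ C *ᵥ v = q} with h | ⟨u, hu1, hu2⟩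
  · rw [h, Set.ncard_empty] at hi ⊢
    exact Or.inl ⟨rfl, loseB_par hi⟩
  · have hL : {v | q ⬝ᵥ v = 0 ∧ C *ᵥ v = q}.ncard = 2 ^ lrk C := by
      rw [← hK]
      refine Set.ncard_congr (fun v _ => v + u) (fun v hv => ⟨?_, ?_⟩)
        (fun a b _ _ hab => add_right_cancel hab) (fun v hv => ⟨v + u, ⟨?_, ?_⟩, ?_⟩)
      · rw [dotProduct_add, hv.1, hu1, add_zero]
      · rw [mulVec_add, hv.2, hu2, loseB_vtwo]
      · rw [dotProduct_add, hv.1, hu1, add_zero]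
      · rw [mulVec_add, hv.2, hu2, zero_add]
      · rw [add_assoc, loseB_vtwo, add_zero]
    rw [hL, ← two_mul, ← pow_succ'] at hi
    refine Or.inr ⟨hL, ?_⟩
    rw [← loseB_par hi]
    push_cast
    rfl

private lemma loseB_swap {α β : Type} [Fintype α] [Fintype β] (A : Finset α) (S : Finset β)
    (r : α → β → Prop) :
    ∑ a ∈ A, {b | b ∈ S ∧ r a b}.ncard = ∑ b ∈ S, {a | a ∈ A ∧ r a b}.ncard := by
  classical
  have h1 : ∀ a, {b | b ∈ S ∧ r a b}.ncard = ∑ b ∈ S, if r a b then 1 else 0 := fun a => by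
    rw [← Finset.card_filter, ← Set.ncard_coe_finset, Finset.coe_filter]
  have h2 : ∀ b, {a | a ∈ A ∧ r a b}.ncard = ∑ a ∈ A, if r a b then 1 else 0 := fun b => by
    rw [← Finset.card_filter, ← Set.ncard_coe_finset, Finset.coe_filter]
  simp only [h1, h2]
  exact Finset.sum_comm

private lemma loseB_count {α : Type} [Fintype α] (A : Finset α) (p : α → Prop) (f g : α → ℕ)
    (h1 : ∀ a ∈ A, f a ≤ g a) (h2 : ∀ a ∈ A, p a → f a + 2 ≤ g a) :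
    2 * {a | a ∈ A ∧ p a}.ncard + ∑ a ∈ A, f a ≤ ∑ a ∈ A, g a := by
  classical
  rw [← Finset.coe_filter, Set.ncard_coe_finset, Finset.card_filter, Finset.mul_sum,
    ← Finset.sum_add_distrib]
  refine Finset.sum_le_sum fun a ha => ?_
  have := h1 a ha
  have := h2 a ha
  split_ifs with h
  · have := this h
    omega
  · omega

private lemma loseB_odd {e : ℕ} (h : Odd e) : (e : ZMod 2) = 1 ∧ 2 ≤ 2 ^ e :=
  ⟨h.natCast_zmod_two, Nat.le_self_pow h.pos.ne' 2⟩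

theorem FrA.lose (h : FrA B τ) (C : Matrix W W (ZMod 2)) :
    2 * {ξ | Odd (lrk (C + D1 B ξ))}.ncard ≤ Fintype.card (G I) := by
  classical
  by_cases hC : Cᵀ = C
  swap
  · exact h.lose_ne hC
  obtain ⟨q, hq0⟩ : ∃ q : W → ZMod 2, ∀ v, v ⬝ᵥ C *ᵥ v = τ ⬝ᵥ C *ᵥ v + q ⬝ᵥ v := by
    refine ⟨C *ᵥ τ + fun i => C i i, fun v => ?_⟩
    rw [add_dotProduct, ← loseB_comm hC, ← add_assoc, loseB_two, zero_add, loseB_diag hC]
  have hs : ∀ ξ, (C + D1 B ξ)ᵀ = C + D1 B ξ := fun ξ => by rw [transpose_add, hC, h.symm]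
  have hq : ∀ ξ v, v ⬝ᵥ (C + D1 B ξ) *ᵥ v = τ ⬝ᵥ (C + D1 B ξ) *ᵥ v + q ⬝ᵥ v := fun ξ v => by
    rw [add_mulVec, dotProduct_add, dotProduct_add, hq0, h.wu]
    ring
  have ht : ∀ ξ, τ ⬝ᵥ (C + D1 B ξ) *ᵥ τ = τ ⬝ᵥ C *ᵥ τ + τ ⬝ᵥ D1 B ξ *ᵥ τ := fun ξ => by
    rw [add_mulVec, dotProduct_add]
  have hqτ : q ⬝ᵥ τ = 0 := by simpa using hq0 τ
  by_cases h0 : q = 0
  · rw [← h.half (1 + Fintype.card W + τ ⬝ᵥ C *ᵥ τ)]
    refine Nat.mul_le_mul_left 2 (Set.ncard_le_ncard fun ξ hξ => ?_)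
    obtain ⟨i, hi⟩ := loseB_wu (hs ξ) (hq ξ)
    have hK := loseB_lrk (hs ξ) (hq ξ)
    subst h0
    simp only [or_self] at hi
    rw [hK] at hi
    have e : {v : W → ZMod 2 | (0 : W → ZMod 2) ⬝ᵥ v = 0}.ncard = 2 ^ Fintype.card W := by
      simp [Set.ncard_univ]
    rw [e] at hi
    have h1 := loseB_par hi
    rw [(loseB_odd hξ).1, ht] at h1
    change τ ⬝ᵥ D1 B ξ *ᵥ τ = _
    rw [h1]
    generalize τ ⬝ᵥ D1 B ξ *ᵥ τ = a, τ ⬝ᵥ C *ᵥ τ = b, (Fintype.card W : ZMod 2) = c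
    revert a b c
    decide
  have hS := loseB_card_ker h0
  obtain ⟨n, hn⟩ : ∃ n, {v | q ⬝ᵥ v = 0}.ncard = 2 ^ n := by
    obtain ⟨n, -, hn⟩ := (Nat.dvd_prime_pow Nat.prime_two).1 (Dvd.intro_left 2 hS)
    exact ⟨n, hn⟩
  set S : Finset (W → ZMod 2) := Finset.univ.filter fun v => q ⬝ᵥ v = 0 with hSd
  have hSm : ∀ v, v ∈ S ↔ q ⬝ᵥ v = 0 := fun v => by simp [hSd]
  have hSc : 2 * S.card = 2 ^ Fintype.card W := by
    rw [← hS, ← Set.ncard_coe_finset]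
    congr 2
    ext v
    simp [hSm]
  obtain ⟨A, hA⟩ : ∃ A : ZMod 2 → Finset (G I), ∀ c ξ, ξ ∈ A c ↔ τ ⬝ᵥ D1 B ξ *ᵥ τ = c :=
    ⟨fun c => Finset.univ.filter fun ξ => τ ⬝ᵥ D1 B ξ *ᵥ τ = c, fun c ξ => by simp⟩
  have hAc : ∀ c, 2 * (A c).card = Fintype.card (G I) := fun c => by
    rw [← h.half c, ← Set.ncard_coe_finset]
    congr 2
    ext ξ
    simp [hA]
  obtain ⟨c, hc⟩ : ∃ c : ZMod 2, (n : ZMod 2) + (τ ⬝ᵥ C *ᵥ τ + c) = 1 := by
    generalize τ ⬝ᵥ C *ᵥ τ = b, (n : ZMod 2) = c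
    revert b c
    decide
  have hone := fun ξ => loseB_one (hs ξ) h0 (hq ξ) hn
  have hK := fun ξ => loseB_lrk (hs ξ) (hq ξ)
  simp only [← hSm] at hone hK
  have hz : ∀ c, {ξ | ξ ∈ A c ∧ (C + D1 B ξ) *ᵥ 0 = q}.ncard = 0 := fun c => by
    simp [Ne.symm h0]
  have h0S : (0 : W → ZMod 2) ∈ S := by simp [hSm]
  -- the class where the radical has odd dimension
  have hcA : 4 * {ξ | ξ ∈ A c ∧ Odd (lrk (C + D1 B ξ))}.ncard ≤ Fintype.card (G I) := by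
    have h1 := loseB_count (A c) (fun ξ => Odd (lrk (C + D1 B ξ)))
      (fun ξ => {v | v ∈ S ∧ (C + D1 B ξ) *ᵥ v = q}.ncard)
      (fun ξ => {v | v ∈ S ∧ (C + D1 B ξ) *ᵥ v = 0}.ncard) (fun ξ _ => by
        rw [hK]
        rcases hone ξ with h1 | h1 <;> rw [h1.1]
        exact Nat.zero_le _) (fun ξ hξ ho => by
        rw [hK]
        rcases hone ξ with h1 | h1
        · rw [h1.1, zero_add]
          exact (loseB_odd ho).2
        · have h2 := h1.2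
          rw [ht, (hA c ξ).1 hξ, hc, (loseB_odd ho).1] at h2
          exact absurd h2 (by decide))
    rw [loseB_swap (A c) S fun ξ v => (C + D1 B ξ) *ᵥ v = q,
      loseB_swap (A c) S fun ξ v => (C + D1 B ξ) *ᵥ v = 0, ← Finset.add_sum_erase S _ h0S,
      ← Finset.add_sum_erase S _ h0S, hz] at h1
    have h2 : ∑ v ∈ S.erase 0, {ξ | ξ ∈ A c ∧ (C + D1 B ξ) *ᵥ v = 0}.ncard =
        ∑ v ∈ S.erase 0, {ξ | ξ ∈ A c ∧ (C + D1 B ξ) *ᵥ v = q}.ncard := by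
      refine Finset.sum_congr rfl fun v hv => ?_
      obtain ⟨hv0, hv⟩ := Finset.mem_erase.1 hv
      obtain ⟨x, hx1, hx2⟩ := h.exists_shift hv0 ((hSm v).1 hv) hqτ
      have e1 : ∀ ξ, (C + D1 B (ξ + x)) *ᵥ v = (C + D1 B ξ) *ᵥ v + q := fun ξ => by
        rw [D1_add, ← add_assoc, add_mulVec, hx1]
      have e2 : ∀ ξ, ξ ∈ A c → ξ + x ∈ A c := fun ξ hξ => by
        rw [hA] at hξ ⊢
        rw [D1_add, add_mulVec, dotProduct_add, hξ, hx2, add_zero]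
      refine Set.ncard_congr (fun ξ _ => ξ + x) (fun ξ hξ => ⟨e2 ξ hξ.1, ?_⟩)
        (fun a b _ _ hab => add_right_cancel hab) (fun ξ hξ => ⟨ξ + x, ⟨e2 ξ hξ.1, ?_⟩, ?_⟩)
      · rw [e1, hξ.2, zero_add]
      · rw [e1, hξ.2, loseB_vtwo]
      · rw [add_assoc, loseB_vtwo, add_zero]
    have h3 : {ξ | ξ ∈ A c ∧ (C + D1 B ξ) *ᵥ 0 = 0}.ncard = (A c).card := by simp
    rw [h2, h3] at h1
    have := hAc c
    omega
  -- the class where the radical has even dimension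
  have hcB : 4 * {ξ | ξ ∈ A (c + 1) ∧ Odd (lrk (C + D1 B ξ))}.ncard ≤ Fintype.card (G I) := by
    have h1 := loseB_count (A (c + 1)) (fun ξ => Odd (lrk (C + D1 B ξ))) (fun _ => 0)
      (fun ξ => {v | v ∈ S ∧ (C + D1 B ξ) *ᵥ v = q}.ncard) (fun ξ _ => Nat.zero_le _)
      (fun ξ hξ ho => by
        rcases hone ξ with h1 | h1
        · have h2 := h1.2
          rw [ht, (hA _ ξ).1 hξ, ← add_assoc _ c, ← add_assoc, hc, (loseB_odd ho).1] at h2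
          exact absurd h2 (by decide)
        · rw [h1.1, zero_add]
          exact (loseB_odd ho).2)
    rw [loseB_swap (A (c + 1)) S fun ξ v => (C + D1 B ξ) *ᵥ v = q, Finset.sum_const_zero,
      add_zero] at h1
    have h2 : (∑ v ∈ S, {ξ | ξ ∈ A (c + 1) ∧ (C + D1 B ξ) *ᵥ v = q}.ncard) * 2 ^ Fintype.card W ≤
        S.card * Fintype.card (G I) := by
      rw [Finset.sum_mul, ← smul_eq_mul]
      refine Finset.sum_le_card_nsmul _ _ _ fun v _ => ?_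
      by_cases hv : v = 0
      · rw [hv, hz, zero_mul]
        exact Nat.zero_le _
      · refine le_trans (le_of_eq ?_) (h.prob_vec2 C hv q (c + 1))
        simp only [hA, and_comm]
    rw [← hSc, mul_comm S.card, ← mul_assoc] at h2
    have h3 := Nat.le_of_mul_le_mul_right h2 (Finset.card_pos.2 ⟨0, h0S⟩)
    omega
  have h4 : {ξ | Odd (lrk (C + D1 B ξ))}.ncard ≤
      {ξ | ξ ∈ A c ∧ Odd (lrk (C + D1 B ξ))}.ncard +
        {ξ | ξ ∈ A (c + 1) ∧ Odd (lrk (C + D1 B ξ))}.ncard := by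
    refine le_trans (Set.ncard_le_ncard fun ξ hξ => ?_) (Set.ncard_union_le _ _)
    have : ∀ a b : ZMod 2, a = b ∨ a = b + 1 := by decide
    rcases this (τ ⬝ᵥ D1 B ξ *ᵥ τ) c with h1 | h1
    · exact Or.inl ⟨(hA _ _).2 h1, hξ⟩
    · exact Or.inr ⟨(hA _ _).2 h1, hξ⟩
  omega

end Pool.Agent.Lib.MP_788af2_nt.AS
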