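import Pool.Agent.Lib.MP_788af2_nt.TT.Cube
import Pool.Agent.Lib.MP_788af2_nt.TT.Gram
import Pool.Agent.Lib.MP_788af2_nt.TT.LoseB
import Pool.Agent.Lib.MP_788af2_nt.AS.Lattice

/-!
The average rank of the eigen-lattices.
-/

set_option linter.unusedSectionVars false

namespace Pool.Agent.Lib.MP_788af2_nt.AS

open Polynomial WeierstrassCurve Pool.Agent.Lib.MP_a3f657_nt.Two Matrix

private lemma alg2_sg (x : ZMod 2) : sg x = 1 - 2 * (x.val : ℤ) := by
  revert x; decide

private lemma alg2_thr (m : ℕ) (δ : ℝ) (hδ : 0 < δ) :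
    ∃ r : ℕ, ∀ x : ℕ, r < x → (x : ℝ) ^ m ≤ δ * 2 ^ x := by
  have h := tendsto_pow_const_div_const_pow_of_one_lt m (r := (2 : ℝ)) (by norm_num)
  obtain ⟨r, hr⟩ := Filter.eventually_atTop.1 (h.eventually (gt_mem_nhds hδ))
  refine ⟨r, fun x hx => ?_⟩
  have h1 := hr x hx.le
  rw [div_lt_iff₀ (by positivity)] at h1
  exact h1.le

private lemma alg2_half {I : Type} [Fintype I] [DecidableEq I] {W : Type} [Fintype W]
    {A : G I → Matrix W W ℤ} {B : G I → Matrix W W (ZMod 2)}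
    (hA : ∀ g, (A g).map (Int.cast : ℤ → ZMod 2) = B g) (h0 : ∑ g, B g = 0) :
    ∃ C₀ : Matrix W W (ZMod 2), ∀ ξ i j, ∃ c : ℤ, Ach A ξ i j = 2 * c ∧
      (c : ZMod 2) = (C₀ + D1 B ξ) i j := by
  have h1 : ∀ i j, ∃ c : ℤ, ∑ g, A g i j = 2 * c := by
    intro i j
    refine (ZMod.intCast_zmod_eq_zero_iff_dvd _ 2).1 ?_
    have h2 := congrFun (congrFun h0 i) j
    rw [Matrix.sum_apply] at h2
    push_cast
    rw [Matrix.zero_apply] at h2
    rw [← h2]
    refine Finset.sum_congr rfl fun g _ => ?_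
    rw [← hA g, map_apply]
  choose c₀ hc₀ using h1
  refine ⟨Matrix.of fun i j => (c₀ i j : ZMod 2), fun ξ i j =>
    ⟨c₀ i j - ∑ g, ((ξ ⬝ᵥ g).val : ℤ) * A g i j, ?_, ?_⟩⟩
  · rw [mul_sub, ← hc₀, Finset.mul_sum, ← Finset.sum_sub_distrib]
    simp only [Ach, Matrix.sum_apply, Matrix.smul_apply, smul_eq_mul, alg2_sg]
    refine Finset.sum_congr rfl fun g _ => ?_
    ring
  · rw [Matrix.add_apply, of_apply, Int.cast_sub, CharTwo.sub_eq_add]
    congr 1
    simp only [D1, Matrix.sum_apply, Matrix.smul_apply, smul_eq_mul, ← hA, map_apply]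
    push_cast
    simp only [ZMod.natCast_val, ZMod.cast_id', id_eq]

private lemma alg2_det {W : Type} [Fintype W] {n : ℕ} {X : Matrix W W ℤ}
    {C : Matrix W W (ZMod 2)} (hX : ∀ i j, ∃ c : ℤ, X i j = 2 * c ∧ (c : ZMod 2) = C i j)
    {P P' : Matrix W (Fin n) (ZMod 2)} (h : (Pᵀ * C * P').det ≠ 0) :
    ((P.map fun x => (x.val : ℤ))ᵀ * X * (P'.map fun x => (x.val : ℤ))).det ≠ 0 := by
  choose c hc hc' using hX
  have h1 : X = (2 : ℤ) • Matrix.of c := by
    ext i j
    rw [Matrix.smul_apply, of_apply, smul_eq_mul, hc]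
  rw [h1, Matrix.mul_smul, Matrix.smul_mul, det_smul]
  refine mul_ne_zero (pow_ne_zero _ two_ne_zero) fun h2 => h ?_
  have h3 := congrArg (Int.cast : ℤ → ZMod 2) h2
  rw [Int.cast_det, Int.cast_zero] at h3
  rw [← h3]
  congr 1
  ext i j
  simp only [map_apply, Matrix.mul_apply, transpose_apply, of_apply]
  push_cast
  simp only [ZMod.natCast_val, ZMod.cast_id', id_eq, hc']

private lemma alg2_count {A : Type} [AddCommGroup A] [Fintype A] {β : Type} [Fintype β]
    (p q : A → Prop) [DecidablePred p] [DecidablePred q] (v : β → A) (c : ℝ)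
    (hq : ∀ a b, p (a + v b) → q a)
    (h : ∀ a, q a → ((Finset.univ.filter fun b => p (a + v b)).card : ℝ) ≤ c) :
    ((Finset.univ.filter p).card : ℝ) * Fintype.card β ≤ (Finset.univ.filter q).card * c := by
  have h1 : ∀ b, (Finset.univ.filter fun a => p (a + v b)).card = (Finset.univ.filter p).card :=
    fun b => Finset.card_equiv (Equiv.addRight (v b)) (by simp)
  have h2 : ∑ a, (Finset.univ.filter fun b => p (a + v b)).card =
      ∑ b, (Finset.univ.filter fun a => p (a + v b)).card := by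
    simp only [Finset.card_filter]
    exact Finset.sum_comm
  simp only [h1, Finset.sum_const, Finset.card_univ, smul_eq_mul] at h2
  have h3 : ∑ a, ((Finset.univ.filter fun b => p (a + v b)).card : ℝ) ≤
      ∑ a, if q a then c else 0 := by
    refine Finset.sum_le_sum fun a _ => ?_
    split_ifs with ha
    · exact h a ha
    · rw [Finset.filter_eq_empty_iff.2 fun b _ hb => ha (hq a b hb)]
      simp
  rw [← Nat.cast_sum, h2, ← Finset.sum_filter, Finset.sum_const, nsmul_eq_mul, Nat.cast_mul,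
    mul_comm] at h3
  exact h3

private lemma alg2_D1_sum {I : Type} [Fintype I] [DecidableEq I] {W : Type} [Fintype W]
    [DecidableEq W] (B : G I → Matrix W W (ZMod 2)) {R : ℕ} (ξ : Fin R → G I)
    (h : ∀ l, D1 B (ξ l) = 0) (ξ₀ : G I) (S : Finset (Fin R)) :
    D1 B (ξ₀ + ∑ l ∈ S, ξ l) = D1 B ξ₀ := by
  induction S using Finset.induction_on with
  | empty => simp
  | insert a S ha ih =>
    rw [Finset.sum_insert ha, add_comm (ξ a), ← add_assoc, D1_add, ih, h a, add_zero]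

private lemma alg2_point (m : ℕ) (hm : 1 ≤ m) (δ : ℝ) (hδ : 0 < δ) (r : ℕ)
    (hr : ∀ x : ℕ, r < x → (x : ℝ) ^ m ≤ δ * 2 ^ x) (k c l : ℕ) (hk : k ≤ c) :
    (k : ℝ) ^ m ≤ (if Odd l then 1 else 0) + (if c ≤ r ∧ l % 2 < k then (r : ℝ) ^ m else 0) +
      δ * 2 ^ c := by
  have h1 : (0 : ℝ) ≤ if Odd l then 1 else 0 := by split_ifs <;> norm_num
  have h2 : (0 : ℝ) ≤ if c ≤ r ∧ l % 2 < k then (r : ℝ) ^ m else 0 := by
    split_ifs <;> positivity
  have h3 : (0 : ℝ) ≤ δ * 2 ^ c := by positivity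
  by_cases hc : c ≤ r
  · by_cases hl : l % 2 < k
    · rw [if_pos (⟨hc, hl⟩ : c ≤ r ∧ l % 2 < k)]
      have h4 : (k : ℝ) ^ m ≤ (r : ℝ) ^ m :=
        pow_le_pow_left₀ (by positivity) (by exact_mod_cast hk.trans hc) m
      linarith
    · by_cases ho : Odd l
      · rw [if_pos ho]
        have h5 : k ≤ 1 := by omega
        have h4 : (k : ℝ) ^ m ≤ 1 := pow_le_one₀ (by positivity) (by exact_mod_cast h5)
        linarith
      · have h5 : k = 0 := by
          rw [Nat.odd_iff] at ho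
          omega
        have h4 : (k : ℝ) ^ m = 0 := by
          rw [h5, Nat.cast_zero, zero_pow (by omega)]
        linarith
  · have h4 : (k : ℝ) ^ m ≤ (c : ℝ) ^ m :=
      pow_le_pow_left₀ (by positivity) (by exact_mod_cast hk) m
    have h5 := hr c (by omega)
    linarith

theorem alg2 (m : ℕ) (hm : 1 ≤ m) (η : ℝ) (hη : 0 < η) : ∃ r R : ℕ, AlgOK m η r R := by
  obtain ⟨r, hr⟩ := alg2_thr m (η / 6) (by positivity)
  obtain ⟨R, hR⟩ := cube r (η / (2 * ((r : ℝ) ^ m + 1))) (by positivity)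
  refine ⟨r, R, fun I _ _ W _ _ M _ s ν B hL hfg τ hF hQ => ?_⟩
  classical
  obtain ⟨A, hA, hlift⟩ := hL.lift2 hfg
  obtain ⟨C₀, hC₀⟩ := alg2_half hA hF.d0
  set η' : ℝ := η / (2 * ((r : ℝ) ^ m + 1)) with hη'
  have hrk : ∀ ξ, Module.finrank ℤ (eig s ξ) ≤ cork (C₀ + D1 B ξ) := by
    intro ξ
    obtain ⟨n₁, n₂, P₁, P₁', P₂, P₂', Mt, -, -, -, h4, -, h6, -, -⟩ := gram (C₀ + D1 B ξ)
    have h7 := hlift ξ (Fin n₂) _ _ (alg2_det (hC₀ ξ) h4)
    rw [Fintype.card_fin] at h7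
    omega
  let bad : G I → Prop := fun ξ => cork (C₀ + D1 B ξ) ≤ r ∧
    lrk (C₀ + D1 B ξ) % 2 < Module.finrank ℤ (eig s ξ)
  have hlev : ∀ C : Matrix W W (ZMod 2),
      ((Finset.univ.filter fun ξ => bad ξ ∧ C₀ + D1 B ξ = C).card : ℝ) ≤
        η' * (Finset.univ.filter fun ξ : G I => C₀ + D1 B ξ = C).card := by
    intro C
    by_cases hC : cork C ≤ r
    · obtain ⟨n₁, n₂, P₁, P₁', P₂, P₂', Mt, h1, h2, h3, h4, h5, h6, h7, h8⟩ := gram C
      have hn : n₁ ≤ r := h7.trans hC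
      obtain ⟨ξ, hξ1, hξ2⟩ := hQ (fun a i => if h : (a : ℕ) < n₁ then P₁ i ⟨a, h⟩ else 0) Mt h1
      have hξ3 : ∀ l l', l ≠ l' → P₁ᵀ * D2 B (ξ l) (ξ l') = P₁ᵀ * Mt := by
        intro l l' hl
        ext a j
        have h9 := congrFun (hξ2 l l' hl (Fin.castLE hn a)) j
        simpa [vecMul, dotProduct, Matrix.mul_apply] using h9
      have key := alg2_count (fun ξ₀ => bad ξ₀ ∧ C₀ + D1 B ξ₀ = C)
        (fun ξ₀ : G I => C₀ + D1 B ξ₀ = C) (fun S : Finset (Fin R) => ∑ l ∈ S, ξ l)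
        (η' * 2 ^ R) (fun a S h => by
          rw [← alg2_D1_sum B ξ hξ1 a S]
          exact h.2) (fun ξ₀ h₀ => by
          refine le_trans ?_ (hR I W A B hA ξ₀ C (fun i j => h₀ ▸ hC₀ ξ₀ i j) n₁ hn n₂ P₁ P₁' P₂
            P₂' Mt h2 h3 h4 h5 ξ hξ1 hξ3)
          rw [← Set.ncard_coe_finset]
          refine Nat.cast_le.2 (Set.ncard_le_ncard (fun S hS => ?_) (Set.toFinite _))
          simp only [Finset.coe_filter, Finset.mem_univ, true_and, Set.mem_ofPred_eq] at hS ⊢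
          intro P P'
          by_contra hne
          have h9 := hlift (ξ₀ + ∑ l ∈ S, ξ l) _ P P' hne
          obtain ⟨⟨-, h10⟩, h11⟩ := hS
          rw [h11] at h10
          simp only [Fintype.card_sum, Fintype.card_fin] at h9
          omega)
      rw [Fintype.card_finset, Fintype.card_fin, Nat.cast_pow, Nat.cast_ofNat, ← mul_assoc,
        mul_comm _ η'] at key
      exact le_of_mul_le_mul_right key (by positivity)
    · rw [Finset.filter_eq_empty_iff.2
        fun ξ _ (h : bad ξ ∧ C₀ + D1 B ξ = C) => hC (h.2 ▸ h.1.1)]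
      simp only [Finset.card_empty, Nat.cast_zero]
      positivity
  have hbad : ((Finset.univ.filter bad).card : ℝ) ≤ η' * Fintype.card (G I) := by
    have h1 := Finset.card_eq_sum_card_fiberwise (s := Finset.univ.filter bad)
      (t := Finset.univ) (f := fun ξ : G I => C₀ + D1 B ξ) (fun _ _ => Finset.mem_univ _)
    have h2 := Finset.card_eq_sum_card_fiberwise (s := (Finset.univ : Finset (G I)))
      (t := Finset.univ) (f := fun ξ : G I => C₀ + D1 B ξ) (fun _ _ => Finset.mem_univ _)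
    rw [← Finset.card_univ, h1, h2, Nat.cast_sum, Nat.cast_sum, Finset.mul_sum]
    refine Finset.sum_le_sum fun C _ => ?_
    rw [Finset.filter_filter]
    exact hlev C
  have hodd : ((Finset.univ.filter fun ξ : G I => Odd (lrk (C₀ + D1 B ξ))).card : ℝ) ≤
      Fintype.card (G I) / 2 := by
    have h1 := hF.lose C₀
    have h2 : {ξ | Odd (lrk (C₀ + D1 B ξ))}.ncard =
        (Finset.univ.filter fun ξ : G I => Odd (lrk (C₀ + D1 B ξ))).card := by
      rw [← Set.ncard_coe_finset]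
      congr 1
      ext ξ
      simp
    rw [h2] at h1
    have h3 : (2 : ℝ) * (Finset.univ.filter fun ξ : G I => Odd (lrk (C₀ + D1 B ξ))).card ≤
        Fintype.card (G I) := by exact_mod_cast h1
    linarith
  have hcork : ∑ ξ : G I, (2 : ℝ) ^ cork (C₀ + D1 B ξ) ≤ 3 * Fintype.card (G I) := by
    exact_mod_cast hF.sum_cork C₀
  have hsum := Finset.sum_le_sum fun ξ (_ : ξ ∈ (Finset.univ : Finset (G I))) =>
    alg2_point m hm (η / 6) (by positivity) r hr (Module.finrank ℤ (eig s ξ))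
      (cork (C₀ + D1 B ξ)) (lrk (C₀ + D1 B ξ)) (hrk ξ)
  rw [Finset.sum_add_distrib, Finset.sum_add_distrib, ← Finset.mul_sum, ← Finset.sum_filter,
    ← Finset.sum_filter, Finset.sum_const, Finset.sum_const, nsmul_eq_mul, nsmul_eq_mul,
    mul_one] at hsum
  have hG : (0 : ℝ) ≤ Fintype.card (G I) := by positivity
  have hrm : (0 : ℝ) ≤ (r : ℝ) ^ m := by positivity
  have h1 : η' * (r : ℝ) ^ m ≤ η / 2 := by
    rw [hη', div_mul_eq_mul_div, div_le_div_iff₀ (by positivity) (by positivity)]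
    nlinarith
  have h2 : ((Finset.univ.filter bad).card : ℝ) * (r : ℝ) ^ m ≤
      η / 2 * Fintype.card (G I) := by
    calc _ ≤ η' * Fintype.card (G I) * (r : ℝ) ^ m := mul_le_mul_of_nonneg_right hbad hrm
      _ = η' * (r : ℝ) ^ m * Fintype.card (G I) := by ring
      _ ≤ _ := mul_le_mul_of_nonneg_right h1 hG
  have h3 : η / 6 * ∑ ξ : G I, (2 : ℝ) ^ cork (C₀ + D1 B ξ) ≤ η / 6 * (3 * Fintype.card (G I)) :=
    mul_le_mul_of_nonneg_left hcork (by positivity)
  have h4 : ((Finset.univ.filter fun ξ : G I => cork (C₀ + D1 B ξ) ≤ r ∧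
      lrk (C₀ + D1 B ξ) % 2 < Module.finrank ℤ (eig s ξ)).card : ℝ) =
      (Finset.univ.filter bad).card := rfl
  rw [h4] at hsum
  linarith

end Pool.Agent.Lib.MP_788af2_nt.AS
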