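import Pool.Agent.Lib.MP_788af2_nt.TT.ADefs

/-!
Additive polynomials and Lagrange interpolation with degrees.
-/

set_option linter.unusedSectionVars false

namespace Pool.Agent.Lib.MP_788af2_nt.AS

open Polynomial WeierstrassCurve Pool.Agent.Lib.MP_a3f657_nt.Two

variable {L : Type} [Field L] [CharP L 2] (d : DF L)

/-- The additive polynomial with coefficients `c`. -/
private def mooP (c : ℕ → L) (n : ℕ) (x : L) : L := ∑ j ∈ Finset.range (n + 1), c j * x ^ 2 ^ j

private lemma mooP_add (c : ℕ → L) (n : ℕ) (x y : L) :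
    mooP c n (x + y) = mooP c n x + mooP c n y := by
  unfold mooP
  rw [← Finset.sum_add_distrib]
  refine Finset.sum_congr rfl fun j _ => ?_
  rw [add_pow_char_pow, mul_add]

private lemma mooP_zero (c : ℕ → L) (n : ℕ) : mooP c n 0 = 0 := by
  unfold mooP
  refine Finset.sum_eq_zero fun j _ => ?_
  rw [zero_pow (by positivity), mul_zero]

private lemma mooP_step (c : ℕ → L) (n : ℕ) (e x : L) :
    mooP (fun j => (if j = 0 then 0 else c (j - 1) ^ 2) + (if j ≤ n then e * c j else 0)) (n + 1) x =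
      mooP c n x * (mooP c n x + e) := by
  have h1 : ∑ j ∈ Finset.range (n + 1 + 1), (if j = 0 then 0 else c (j - 1) ^ 2) * x ^ 2 ^ j =
      mooP c n x ^ 2 := by
    rw [Finset.sum_range_succ', mooP, CharTwo.sum_sq]
    simp only [Nat.add_one_ne_zero, if_false, Nat.add_sub_cancel, if_true, zero_mul, add_zero]
    refine Finset.sum_congr rfl fun j _ => ?_
    rw [mul_pow, ← pow_mul, ← pow_succ]
  have h2 : ∑ j ∈ Finset.range (n + 1 + 1), (if j ≤ n then e * c j else 0) * x ^ 2 ^ j =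
      e * mooP c n x := by
    rw [Finset.sum_range_succ, mooP, Finset.mul_sum, if_neg (by omega), zero_mul, add_zero]
    refine Finset.sum_congr rfl fun j hj => ?_
    rw [if_pos (by have := Finset.mem_range.1 hj; omega), mul_assoc]
  have h3 : mooP (fun j => (if j = 0 then 0 else c (j - 1) ^ 2) + (if j ≤ n then e * c j else 0))
      (n + 1) x = mooP c n x ^ 2 + e * mooP c n x := by
    rw [← h1, ← h2, ← Finset.sum_add_distrib, mooP]
    refine Finset.sum_congr rfl fun j _ => ?_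
    rw [add_mul]
  rw [h3]; ring

private lemma moo_addpoly (U : AddSubgroup L) {K : ℝ} (hK : 0 ≤ K) (h1 : ∀ u ∈ U, u ∈ d.Le K)
    (h2 : ∀ u ∈ U, u ≠ 0 → u ∉ d.Le (-K)) (l : L →+ ZMod 2) (gs : List L)
    (hg : ∀ g ∈ gs, g ∈ U ∧ l g = 0) :
    ∃ c : ℕ → L, (∀ j, c j ∈ d.Le (2 ^ gs.length * K)) ∧ (∀ g ∈ gs, mooP c gs.length g = 0) ∧
      ∀ x ∈ U, mooP c gs.length x ∈ d.Le (2 ^ gs.length * K) ∧
        (mooP c gs.length x ≠ 0 → mooP c gs.length x ∉ d.Le (-(2 ^ gs.length * K))) ∧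
        (mooP c gs.length x = 0 → l x = 0) := by
  induction gs with
  | nil =>
    refine ⟨fun _ => 1, fun _ => DF.Le.one (by simpa using hK), by simp, fun x hx => ?_⟩
    have e : mooP (fun _ => (1 : L)) 0 x = x := by simp [mooP]
    simp only [List.length_nil, pow_zero, one_mul, e]
    exact ⟨h1 x hx, h2 x hx, fun h => by rw [h, map_zero]⟩
  | cons u gs ih =>
    obtain ⟨c, hc, hz, hx⟩ := ih fun g h => hg g (List.mem_cons_of_mem _ h)
    obtain ⟨hu, lu⟩ := hg u List.mem_cons_self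
    set n := gs.length with hn
    have hl : (u :: gs).length = n + 1 := rfl
    have e2 : (2 : ℝ) ^ (n + 1) * K = 2 ^ n * K + 2 ^ n * K := by ring
    refine ⟨fun j => (if j = 0 then 0 else c (j - 1) ^ 2) +
      (if j ≤ n then mooP c n u * c j else 0), fun j => ?_, fun g hg' => ?_, fun x hxU => ?_⟩
    · rw [hl, e2]
      refine add_mem ?_ ?_
      · split_ifs
        · exact zero_mem _
        · exact DF.Le.sq (hc _) (by linarith)
      · split_ifs
        · exact DF.Le.mul (hx u hu).1 (hc _) le_rfl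
        · exact zero_mem _
    · rw [hl, mooP_step]
      rcases List.mem_cons.1 hg' with rfl | h
      · rw [CharTwo.add_self_eq_zero, mul_zero]
      · rw [hz g h, zero_mul]
    · rw [hl, mooP_step, ← mooP_add, e2]
      have hxu := hx (x + u) (add_mem hxU hu)
      have hxx := hx x hxU
      refine ⟨DF.Le.mul hxx.1 hxu.1 le_rfl, fun h => ?_, fun h => ?_⟩
      · have a1 : mooP c n x ≠ 0 := left_ne_zero_of_mul h
        have a2 : mooP c n (x + u) ≠ 0 := right_ne_zero_of_mul h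
        have b1 := (DF.not_mem_Le.1 (hxx.2.1 a1)).2
        have b2 := (DF.not_mem_Le.1 (hxu.2.1 a2)).2
        refine DF.not_mem_Le.2 ⟨h, ?_⟩
        rw [d.deg_mul a1 a2]
        linarith
      · rcases mul_eq_zero.1 h with h | h
        · exact hxx.2.2 h
        · have := hxu.2.2 h
          rwa [map_add, lu, add_zero] at this

private lemma moo_zmod (t : ZMod 2) : t = 0 ∨ t = 1 := by
  revert t; decide

theorem moore (U : AddSubgroup L) {K : ℝ} (hK : 0 ≤ K) (h1 : ∀ u ∈ U, u ∈ d.Le K)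
    (h2 : ∀ u ∈ U, u ≠ 0 → u ∉ d.Le (-K)) {r : ℕ} {p w : Fin r → L} (hp : ∀ a, p a ∈ U)
    (hw : ∀ a, w a ∈ U) (h : ¬ Triv p w) : ∃ j, 1 ≤ j ∧ j ≤ 2 * r ∧
      ∑ a, (p a ^ 2 ^ j * w a + w a ^ 2 ^ j * p a) ∉ d.Le (-((2 ^ (2 * r + 1) + 1) * K)) := by
  unfold Triv at h
  push Not at h
  obtain ⟨l, hl⟩ := h
  set x0 := ∑ i, ((l (w i)).val • p i + (l (p i)).val • w i) with hx0
  have hx0U : x0 ∈ U := sum_mem fun i _ => add_mem (nsmul_mem (hp i) _) (nsmul_mem (hw i) _)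
  obtain ⟨u, huU, lu⟩ : ∃ u ∈ U, l u = 1 := by
    by_contra hne
    push Not at hne
    apply hl
    refine Finset.sum_eq_zero fun i _ => ?_
    rw [(moo_zmod _).resolve_right (hne _ (hp i)), (moo_zmod _).resolve_right (hne _ (hw i))]
    simp
  have hgen : ∀ g ∈ U, g + (l g).val • u ∈ U ∧ l (g + (l g).val • u) = 0 := by
    intro g hg
    refine ⟨add_mem hg (nsmul_mem huU _), ?_⟩
    rw [map_add, map_nsmul, lu]
    rcases moo_zmod (l g) with e | e <;> rw [e] <;> decide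
  set gs : List L := (List.ofFn fun a => p a + (l (p a)).val • u) ++
    (List.ofFn fun a => w a + (l (w a)).val • u) with hgs
  have hlen : gs.length = 2 * r := by simp [hgs]; ring
  obtain ⟨c, hc, hz, hx⟩ := moo_addpoly d U hK h1 h2 l gs (by
    intro g hg
    rcases List.mem_append.1 hg with h | h
    · obtain ⟨a, rfl⟩ := List.mem_ofFn.1 h
      exact hgen _ (hp a)
    · obtain ⟨a, rfl⟩ := List.mem_ofFn.1 h
      exact hgen _ (hw a))
  rw [hlen] at hc hz hx
  have hval : ∀ g, g + (l g).val • u ∈ gs →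
      mooP c (2 * r) g = (l g).val • mooP c (2 * r) u := by
    intro g hg
    have := hz _ hg
    rw [mooP_add] at this
    rcases moo_zmod (l g) with e | e
    · rw [e] at this ⊢
      simpa [mooP_zero] using this
    · rw [e] at this ⊢
      have e1 : (1 : ZMod 2).val = 1 := rfl
      rw [e1, one_smul] at this ⊢
      exact CharTwo.add_eq_zero.1 this
  have hp' : ∀ a, mooP c (2 * r) (p a) = (l (p a)).val • mooP c (2 * r) u := fun a =>
    hval _ (List.mem_append_left _ (List.mem_ofFn.2 ⟨a, rfl⟩))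
  have hw' : ∀ a, mooP c (2 * r) (w a) = (l (w a)).val • mooP c (2 * r) u := fun a =>
    hval _ (List.mem_append_right _ (List.mem_ofFn.2 ⟨a, rfl⟩))
  have key : mooP c (2 * r) u * x0 = ∑ j ∈ Finset.range (2 * r + 1),
      c j * ∑ a, (p a ^ 2 ^ j * w a + w a ^ 2 ^ j * p a) := by
    have e1 : mooP c (2 * r) u * x0 =
        ∑ a, (mooP c (2 * r) (p a) * w a + mooP c (2 * r) (w a) * p a) := by
      rw [hx0, Finset.mul_sum]
      refine Finset.sum_congr rfl fun a _ => ?_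
      rw [hp', hw']
      simp only [nsmul_eq_mul]
      ring
    rw [e1]
    simp only [Finset.mul_sum]
    rw [Finset.sum_comm]
    refine Finset.sum_congr rfl fun a _ => ?_
    unfold mooP
    rw [Finset.sum_mul, Finset.sum_mul, ← Finset.sum_add_distrib]
    refine Finset.sum_congr rfl fun j _ => ?_
    ring
  have hPu : mooP c (2 * r) u ≠ 0 := fun e => by
    have := (hx u huU).2.2 e
    rw [lu] at this
    exact one_ne_zero this
  have b1 := (DF.not_mem_Le.1 ((hx u huU).2.1 hPu)).2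
  have b2 := (DF.not_mem_Le.1 (h2 x0 hx0U hl)).2
  by_contra hne
  push Not at hne
  have hm : mooP c (2 * r) u * x0 ∈ d.Le (-((2 ^ (2 * r) + 1) * K)) := by
    rw [key]
    refine sum_mem fun j hj => ?_
    by_cases hj0 : j = 0
    · subst hj0
      have : ∑ a, (p a ^ 2 ^ 0 * w a + w a ^ 2 ^ 0 * p a) = 0 :=
        Finset.sum_eq_zero fun a _ => by
          rw [pow_zero, pow_one, pow_one, mul_comm, CharTwo.add_self_eq_zero]
      rw [this, mul_zero]
      exact zero_mem _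
    · refine DF.Le.mul (hc j) (hne j (by omega) (by have := Finset.mem_range.1 hj; omega)) ?_
      rw [pow_succ]
      linarith
  rw [DF.mem_Le_iff (mul_ne_zero hPu hl), d.deg_mul hPu hl] at hm
  linarith

theorem lagr {n : ℕ} (f : L[X]) (hf : f.natDegree ≤ n) (x : Fin (n + 1) → L) {c r : ℝ}
    (hx : ∀ i j, i ≠ j → x i + x j ≠ 0 ∧ -c ≤ d.deg (x i + x j)) (h : ∀ i, f.eval (x i) ∈ d.Le r) :
    f.coeff n ∈ d.Le (r + n * c) := by
  classical
  have hinj : Set.InjOn x (Finset.univ : Finset (Fin (n + 1))) := by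
    intro i _ j _ e
    by_contra hne
    exact (hx i j hne).1 (by rw [e, CharTwo.add_self_eq_zero])
  have hdeg : f.degree < (Finset.univ : Finset (Fin (n + 1))).card := by
    rw [Finset.card_univ, Fintype.card_fin]
    exact lt_of_le_of_lt (degree_le_of_natDegree_le hf) (by exact_mod_cast Nat.lt_succ_self n)
  have e := Lagrange.coeff_eq_sum hinj hdeg
  rw [Finset.card_univ, Fintype.card_fin, Nat.add_sub_cancel] at e
  rw [e]
  refine sum_mem fun i _ => ?_
  rw [div_eq_mul_inv, ← Finset.prod_inv_distrib]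
  have hp : ∏ j ∈ Finset.univ.erase i, (x i - x j)⁻¹ ∈ d.Le (∑ j ∈ Finset.univ.erase i, c) := by
    refine DF.Le.prod _ fun j hj => ?_
    have hij : i ≠ j := (Finset.ne_of_mem_erase hj).symm
    rw [CharTwo.sub_eq_add]
    refine DF.mem_Le_of ?_
    rw [DF.deg_inv (hx i j hij).1]
    linarith [(hx i j hij).2]
  refine DF.Le.mul (h i) hp ?_
  rw [Finset.sum_const, Finset.card_erase_of_mem (Finset.mem_univ i), Finset.card_univ,
    Fintype.card_fin, Nat.add_sub_cancel, nsmul_eq_mul]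

private lemma moo_norm (z w : L) :
    (z * w * (1 + z + w) + 1) * ((z + 1) * w * (z + w) + 1) *
        (z * (w + 1) * (z + w) + 1) * ((z + 1) * (w + 1) * (1 + z + w) + 1) =
      (z ^ 2 + z) ^ 4 * (w ^ 2 + w) ^ 2 + (z ^ 2 + z) ^ 2 * (w ^ 2 + w) ^ 4 + (z ^ 2 + z) ^ 2 +
        (z ^ 2 + z) * (w ^ 2 + w) + (w ^ 2 + w) ^ 2 := by
  grind

/-- The norm of the cubic plus one is a polynomial of degree six in the parameter. -/
theorem norm_poly (h h' : L) : ∃ f : L[X], f.natDegree ≤ 6 ∧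
    f.coeff 6 = (h * h' * (h + h')) ^ 4 ∧ ∀ y z w : L, wp z = y * h ^ 2 → wp w = y * h' ^ 2 →
      f.eval y = (z * w * (1 + z + w) + 1) * ((z + 1) * w * (z + w) + 1) *
        (z * (w + 1) * (z + w) + 1) * ((z + 1) * (w + 1) * (1 + z + w) + 1) := by
  refine ⟨C ((h * h' * (h + h')) ^ 4) * X ^ 6 + C (h ^ 4 + h ^ 2 * h' ^ 2 + h' ^ 4) * X ^ 2,
    ?_, ?_, fun y z w hz hw => ?_⟩
  · compute_degree
  · rw [coeff_add, coeff_C_mul_X_pow, coeff_C_mul_X_pow]
    simp
  · unfold wp at hz hw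
    rw [moo_norm, hz, hw]
    simp only [eval_add, eval_mul, eval_C, eval_pow, eval_X]
    grind

private lemma moo_sum_lt {α : Type} (s : Finset α) (f : α → L) (M r₀ : ℝ) (h0 : r₀ < M)
    (h : ∀ i ∈ s, ∃ r', r' < M ∧ f i ∈ d.Le r') :
    ∃ r', r' < M ∧ r₀ ≤ r' ∧ ∑ i ∈ s, f i ∈ d.Le r' := by
  classical
  induction s using Finset.induction_on with
  | empty => exact ⟨r₀, h0, le_rfl, by simp⟩
  | insert a s ha ih =>
    obtain ⟨r1, a1, a2, a3⟩ := ih fun i hi => h i (Finset.mem_insert_of_mem hi)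
    obtain ⟨r2, b1, b2⟩ := h a (Finset.mem_insert_self _ _)
    refine ⟨max r1 r2, max_lt a1 b1, a2.trans (le_max_left _ _), ?_⟩
    rw [Finset.sum_insert ha]
    exact add_mem (DF.Le.mono b2 (le_max_right _ _)) (DF.Le.mono a3 (le_max_left _ _))

/-- Two terms of maximal degree are needed for cancellation. -/
theorem tie {n : ℕ} (Hk : ℕ → L) : ∃ t : Finset ℝ, t.card ≤ n ^ 2 ∧ ∀ (Δ E : L) (r : ℝ), Δ ≠ 0 →
    d.deg Δ ∉ t → E ∈ d.Le r → ∀ j, 1 ≤ j → j ≤ n → Δ ^ 2 ^ j * Hk j ∉ d.Le r →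
      ∑ i ∈ Finset.Icc 1 n, Δ ^ 2 ^ i * Hk i + E ∉ d.Le r := by
  classical
  refine ⟨(Finset.Icc 1 n ×ˢ Finset.Icc 1 n).image fun q : ℕ × ℕ =>
    (d.deg (Hk q.2) - d.deg (Hk q.1)) / ((2 : ℝ) ^ q.1 - 2 ^ q.2), ?_, ?_⟩
  · refine Finset.card_image_le.trans ?_
    rw [Finset.card_product, Nat.card_Icc, Nat.add_sub_cancel, sq]
  intro Δ E r hΔ ht hE j hj1 hjn hj
  have hdeg : ∀ i, Hk i ≠ 0 → d.deg (Δ ^ 2 ^ i * Hk i) = 2 ^ i * d.deg Δ + d.deg (Hk i) := by
    intro i hi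
    rw [d.deg_mul (pow_ne_zero _ hΔ) hi, DF.deg_pow hΔ]
    push_cast
    ring
  obtain ⟨hj0, hjr⟩ := DF.not_mem_Le.1 hj
  have hjH : Hk j ≠ 0 := right_ne_zero_of_mul hj0
  obtain ⟨i0, hi0, hmax⟩ := Finset.exists_max_image ((Finset.Icc 1 n).filter fun i => Hk i ≠ 0)
    (fun i => d.deg (Δ ^ 2 ^ i * Hk i)) ⟨j, Finset.mem_filter.2 ⟨Finset.mem_Icc.2 ⟨hj1, hjn⟩, hjH⟩⟩
  obtain ⟨hi1, hi2⟩ := Finset.mem_filter.1 hi0
  have hM : r < d.deg (Δ ^ 2 ^ i0 * Hk i0) :=
    hjr.trans_le (hmax j (Finset.mem_filter.2 ⟨Finset.mem_Icc.2 ⟨hj1, hjn⟩, hjH⟩))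
  obtain ⟨r', a1, a2, a3⟩ := moo_sum_lt d ((Finset.Icc 1 n).erase i0)
    (fun i => Δ ^ 2 ^ i * Hk i) _ r hM (by
      intro i hi
      obtain ⟨hne, hi'⟩ := Finset.mem_erase.1 hi
      by_cases hH : Hk i = 0
      · exact ⟨r, hM, by rw [hH, mul_zero]; exact zero_mem _⟩
      refine ⟨_, lt_of_le_of_ne (hmax i (Finset.mem_filter.2 ⟨hi', hH⟩)) fun e => ht ?_,
        DF.mem_Le_deg _⟩
      refine Finset.mem_image.2 ⟨(i, i0), Finset.mem_product.2 ⟨hi', hi1⟩, ?_⟩
      have hp : (2 : ℝ) ^ i - 2 ^ i0 ≠ 0 := fun e' =>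
        hne (pow_right_injective₀ (by norm_num) (by norm_num) (sub_eq_zero.1 e'))
      rw [hdeg i hH, hdeg i0 hi2] at e
      rw [div_eq_iff hp]
      linarith)
  rw [← Finset.add_sum_erase _ _ hi1, add_assoc]
  have := DF.deg_add_lt (d := d) (mul_ne_zero (pow_ne_zero _ hΔ) hi2)
    (add_mem a3 (DF.Le.mono hE a2)) a1
  exact DF.not_mem_Le.2 ⟨this.1, by rw [this.2]; exact hM⟩

end Pool.Agent.Lib.MP_788af2_nt.AS
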