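import Pool.Agent.Lib.MP_788af2_nt.TT.ADefs

/-!
Vanishing bivectors, and two counting lemmas.
-/

set_option linter.unusedSectionVars false

namespace Pool.Agent.Lib.MP_788af2_nt.AS

open Polynomial WeierstrassCurve Pool.Agent.Lib.MP_a3f657_nt.Two

lemma triv_val {A : Type} [AddCommGroup A] {x : A} (hx : x + x = 0) (a b : ZMod 2) :
    (a + b).val • x = a.val • x + b.val • x := by
  have e : ∀ a b : ZMod 2, (a + b).val = a.val + b.val ∨ (a + b).val + 2 = a.val + b.val := by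
    decide
  rw [← add_smul]
  rcases e a b with h | h
  · rw [h]
  · rw [← h, add_smul, two_nsmul, hx, add_zero]

lemma triv_zero {A B : Type} [AddCommGroup A] [AddCommGroup B] (U : AddSubgroup A) {f : A → B}
    (hf : ∀ x ∈ U, ∀ y ∈ U, f (x + y) = f x + f y) : f 0 = 0 := by
  have := hf 0 U.zero_mem 0 U.zero_mem
  rw [add_zero] at this
  exact left_eq_add.1 this

lemma triv_sum {A B ι : Type} [AddCommGroup A] [AddCommGroup B] (U : AddSubgroup A) {f : A → B}
    (hf : ∀ x ∈ U, ∀ y ∈ U, f (x + y) = f x + f y) (s : Finset ι) {g : ι → A}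
    (hg : ∀ i, g i ∈ U) : f (∑ i ∈ s, g i) = ∑ i ∈ s, f (g i) := by
  classical
  induction s using Finset.induction_on with
  | empty => simpa using triv_zero U hf
  | insert i s hi ih =>
    rw [Finset.sum_insert hi, Finset.sum_insert hi, hf _ (hg i) _ (U.sum_mem fun j _ => hg j), ih]

lemma triv_nsmul {A B : Type} [AddCommGroup A] [AddCommGroup B] (U : AddSubgroup A) {f : A → B}
    (hf : ∀ x ∈ U, ∀ y ∈ U, f (x + y) = f x + f y) {x : A} (hx : x ∈ U) (n : ℕ) :
    f (n • x) = n • f x := by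
  induction n with
  | zero => simpa using triv_zero U hf
  | succ n ih => rw [succ_nsmul, succ_nsmul, hf _ (U.nsmul_mem hx n) _ hx, ih]

lemma triv_hom {A A' ι : Type} [AddCommGroup A] [AddCommGroup A'] [Fintype ι] {p w : ι → A}
    (φ : A →+ A') (h : Triv p w) : Triv (fun i => φ (p i)) fun i => φ (w i) := fun l => by
  have := congrArg φ (h (l.comp φ))
  simpa only [map_sum, map_add, map_nsmul, map_zero, AddMonoidHom.comp_apply] using this

theorem Triv.alt {A B ι : Type} [AddCommGroup A] [AddCommGroup B] [Fintype ι]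
    (h2 : ∀ x : A, x + x = 0) (U : AddSubgroup A) {p w : ι → A} (hp : ∀ i, p i ∈ U)
    (hw : ∀ i, w i ∈ U) (Φ : A → A → B)
    (hl : ∀ x ∈ U, ∀ y ∈ U, ∀ z ∈ U, Φ (x + y) z = Φ x z + Φ y z)
    (hr : ∀ x ∈ U, ∀ y ∈ U, ∀ z ∈ U, Φ z (x + y) = Φ z x + Φ z y) (ha : ∀ x ∈ U, Φ x x = 0)
    (h : Triv p w) : ∑ i, Φ (p i) (w i) = 0 := by
  classical
  have l' : ∀ z ∈ U, ∀ x ∈ U, ∀ y ∈ U, Φ (x + y) z = Φ x z + Φ y z := fun z hz x hx y hy =>
    hl x hx y hy z hz
  have r' : ∀ z ∈ U, ∀ x ∈ U, ∀ y ∈ U, Φ z (x + y) = Φ z x + Φ z y := fun z hz x hx y hy =>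
    hr x hx y hy z hz
  have hsym : ∀ x ∈ U, ∀ y ∈ U, Φ x y = Φ y x := fun x hx y hy => by
    have h1 := ha _ (U.add_mem hx hy)
    rw [hl x hx y hy _ (U.add_mem hx hy), hr x hx y hy x hx, hr x hx y hy y hy, ha x hx, ha y hy,
      zero_add, add_zero] at h1
    have h3 := hl x hx x hx y hy
    rw [h2, triv_zero U (f := fun x => Φ x y) (l' y hy)] at h3
    exact add_left_cancel (h3.symm.trans h1.symm)
  generalize hn : (Finset.univ.filter fun i => p i ≠ 0).card = n
  induction n using Nat.strong_induction_on generalizing p w with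
  | _ n ih =>
  by_cases h0 : ∀ i, p i = 0
  · refine Finset.sum_eq_zero fun i _ => ?_
    rw [h0 i]
    exact triv_zero U (f := fun x => Φ x (w i)) (l' _ (hw i))
  obtain ⟨i₀, hi₀⟩ := not_forall.1 h0
  obtain ⟨l, hl₀, -⟩ := exists_sep_hom h2 ⊥ (v := p i₀) (by simpa using hi₀)
  have hl₁ : l (p i₀) = 1 := (z2_cases _).resolve_left hl₀
  let π : A →+ A := AddMonoidHom.mk' (fun x => x + (l x).val • p i₀) fun x y => by
    rw [map_add, triv_val (h2 _)]
    abel
  have hπ : ∀ x, π x = x + (l x).val • p i₀ := fun _ => rfl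
  have hU : ∀ x ∈ U, π x ∈ U := fun x hx => U.add_mem hx (U.nsmul_mem (hp i₀) _)
  have hx : ∀ x, x = π x + (l x).val • p i₀ := fun x => by rw [hπ, add_assoc, h2, add_zero]
  have h1 := ih _ (by
    rw [← hn]
    refine Finset.card_lt_card ((Finset.ssubset_iff_of_subset fun i hi => ?_).2 ⟨i₀, ?_, ?_⟩)
    · simp only [Finset.mem_filter, Finset.mem_univ, true_and] at hi ⊢
      exact fun e => hi (by rw [e, map_zero])
    · simpa using hi₀
    · simp only [Finset.mem_filter, Finset.mem_univ, true_and, not_not]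
      rw [hπ, hl₁]
      exact (congrArg _ (one_nsmul _)).trans (h2 _)) (fun i => hU _ (hp i)) (fun i => hU _ (hw i))
    (triv_hom π h) rfl
  have h3 : ∀ x ∈ U, ∀ y ∈ U, Φ x y =
      Φ (π x) (π y) + Φ (p i₀) ((l y).val • π x + (l x).val • π y) := fun x hx' y hy' => by
    have a1 := hU x hx'
    have a2 := hU y hy'
    have a3 := fun n : ℕ => U.nsmul_mem (hp i₀) n
    conv_lhs => rw [hx x, hx y]
    rw [hl _ a1 _ (a3 _) _ (U.add_mem a2 (a3 _)), hr _ a2 _ (a3 _) _ a1,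
      hr _ a2 _ (a3 _) _ (a3 _), hr _ (U.nsmul_mem a1 _) _ (U.nsmul_mem a2 _) _ (hp i₀),
      triv_nsmul U (r' _ a1) (hp i₀), triv_nsmul U (r' _ (a3 _)) (hp i₀),
      triv_nsmul U (r' _ (hp i₀)) a1, triv_nsmul U (r' _ (hp i₀)) a2,
      triv_nsmul U (f := fun x => Φ x (π y)) (l' _ a2) (hp i₀),
      triv_nsmul U (f := fun x => Φ x (p i₀)) (l' _ (hp i₀)) (hp i₀), ha _ (hp i₀),
      hsym _ a1 _ (hp i₀), smul_zero, smul_zero, add_zero, add_assoc]
  have h4 : ∑ i, ((l (w i)).val • π (p i) + (l (p i)).val • π (w i)) = 0 := by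
    have := congrArg π (h l)
    simpa only [map_sum, map_add, map_nsmul, map_zero] using this
  rw [Finset.sum_congr rfl fun i _ => h3 _ (hp i) _ (hw i), Finset.sum_add_distrib, h1, zero_add,
    ← triv_sum U (r' _ (hp i₀)) _ fun i => U.add_mem (U.nsmul_mem (hU _ (hp i)) _)
      (U.nsmul_mem (hU _ (hw i)) _), h4]
  exact triv_zero U (r' _ (hp i₀))

theorem Triv.map {A A' ι : Type} [AddCommGroup A] [AddCommGroup A'] [Fintype ι]
    (h2 : ∀ x : A, x + x = 0) (U : AddSubgroup A) {p w : ι → A} (hp : ∀ i, p i ∈ U)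
    (hw : ∀ i, w i ∈ U) (φ : A → A') (hφ : ∀ x ∈ U, ∀ y ∈ U, φ (x + y) = φ x + φ y)
    (h : Triv p w) : Triv (fun i => φ (p i)) fun i => φ (w i) := fun l => by
  have h3 : ∀ x ∈ U, φ x + φ x = 0 := fun x hx => by rw [← hφ x hx x hx, h2, triv_zero U hφ]
  refine Triv.alt h2 U hp hw (fun x y => (l (φ y)).val • φ x + (l (φ x)).val • φ y)
    (fun x hx y hy z hz => ?_) (fun x hx y hy z hz => ?_) (fun x hx => ?_) h
  · rw [hφ x hx y hy, map_add, triv_val (h3 z hz), smul_add]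
    abel
  · rw [hφ x hx y hy, map_add, triv_val (h3 z hz), smul_add]
    abel
  · rw [← smul_add, h3 x hx, smul_zero]

theorem Triv.of_map {A A' ι : Type} [AddCommGroup A] [AddCommGroup A'] [Fintype ι]
    (h2 : ∀ x : A', x + x = 0) {p w : ι → A} (φ : A →+ A') (hφ : Function.Injective φ)
    (h : Triv (fun i => φ (p i)) fun i => φ (w i)) : Triv p w := by
  have h3 : ∀ x : A, x + x = 0 := fun x => hφ (by rw [map_add, h2, map_zero])
  let : Module (ZMod 2) A := AddCommGroup.zmodModule fun x => by rw [two_nsmul, h3]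
  let : Module (ZMod 2) A' := AddCommGroup.zmodModule fun x => by rw [two_nsmul, h2]
  obtain ⟨g, hg⟩ := (φ.toZModLinearMap 2).exists_leftInverse_of_injective
    (LinearMap.ker_eq_bot.2 hφ)
  have hg' : ∀ x, g.toAddMonoidHom (φ x) = x := fun x => LinearMap.congr_fun hg x
  simpa only [hg'] using triv_hom g.toAddMonoidHom h

/-- Averaging over the orbits of a finite group, with witnesses transported along `Nr`. -/
theorem coset2 {α Γ τ : Type} [AddCommGroup Γ] [Fintype Γ] (A : Finset α) (act : Γ → α → α)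
    (h0 : ∀ a, act 0 a = a) (hadd : ∀ γ γ' a, act (γ + γ') a = act γ (act γ' a))
    (hA : ∀ γ, ∀ a ∈ A, act γ a ∈ A) (bad : α → τ → Prop) (Nr : τ → τ → Prop)
    (hs : ∀ t t', Nr t t' → Nr t' t) (ht : ∀ t t' t'', Nr t t' → Nr t' t'' → Nr t t'')
    (Z c n : ℕ) (hZ : ∀ a ∈ A, ∃ S : Finset τ, S.card ≤ Z ∧
      ∀ γ t, bad (act γ a) t → ∃ t₀ ∈ S, Nr t₀ t)
    (hn : ∀ a ∈ A, ∀ t, bad a t → {γ | ∃ t', Nr t t' ∧ bad (act γ a) t'}.ncard * c ≤ n) :
    {a | a ∈ A ∧ ∃ t, bad a t}.ncard * c * Fintype.card Γ ≤ Z * n * A.card := by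
  classical
  have e0 : {a | a ∈ A ∧ ∃ t, bad a t}.ncard = (A.filter fun a => ∃ t, bad a t).card := by
    rw [← Set.ncard_coe_finset]
    congr 1
    ext a
    simp
  have e1 : ∀ γ, (A.filter fun a => ∃ t, bad (act γ a) t).card =
      (A.filter fun a => ∃ t, bad a t).card := fun γ => by
    refine Finset.card_nbij' (act γ) (act (-γ)) (fun a ha => ?_) (fun a ha => ?_)
      (fun a _ => ?_) fun a _ => ?_
    · rw [Finset.mem_coe, Finset.mem_filter] at ha ⊢
      exact ⟨hA γ a ha.1, ha.2⟩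
    · rw [Finset.mem_coe, Finset.mem_filter] at ha ⊢
      refine ⟨hA _ a ha.1, ?_⟩
      rw [← hadd, add_neg_cancel, h0]
      exact ha.2
    · rw [← hadd, neg_add_cancel, h0]
    · rw [← hadd, add_neg_cancel, h0]
  have e2 : ∑ a ∈ A, (Finset.univ.filter fun γ => ∃ t, bad (act γ a) t).card =
      (A.filter fun a => ∃ t, bad a t).card * Fintype.card Γ := by
    simp only [Finset.card_filter]
    rw [Finset.sum_comm]
    simp only [← Finset.card_filter, e1]
    rw [Finset.sum_const, Finset.card_univ, smul_eq_mul, mul_comm]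
  have e3 : ∀ a ∈ A, (Finset.univ.filter fun γ => ∃ t, bad (act γ a) t).card * c ≤ Z * n := by
    intro a ha
    obtain ⟨S, hS, hc⟩ := hZ a ha
    have a1 : (Finset.univ.filter fun γ => ∃ t, bad (act γ a) t).card ≤
        ∑ t₀ ∈ S, (Finset.univ.filter fun γ => ∃ t, Nr t₀ t ∧ bad (act γ a) t).card := by
      refine le_trans (Finset.card_le_card fun γ hγ => ?_) Finset.card_biUnion_le
      obtain ⟨t, h⟩ := (Finset.mem_filter.1 hγ).2
      obtain ⟨t₀, h1, h3⟩ := hc γ t h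
      exact Finset.mem_biUnion.2 ⟨t₀, h1, Finset.mem_filter.2 ⟨Finset.mem_univ _, t, h3, h⟩⟩
    have a2 : ∀ t₀ ∈ S,
        (Finset.univ.filter fun γ => ∃ t, Nr t₀ t ∧ bad (act γ a) t).card * c ≤ n := by
      intro t₀ _
      rcases (Finset.univ.filter fun γ => ∃ t, Nr t₀ t ∧ bad (act γ a) t).eq_empty_or_nonempty
        with h | ⟨γ₀, h⟩
      · rw [h, Finset.card_empty, zero_mul]
        exact Nat.zero_le _
      obtain ⟨t₁, h1, h3⟩ := (Finset.mem_filter.1 h).2
      refine le_trans (Nat.mul_le_mul_right c ?_) (hn _ (hA γ₀ a ha) t₁ h3)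
      rw [← Set.ncard_coe_finset]
      refine Set.ncard_le_ncard_of_injOn (· - γ₀) (fun γ hγ => ?_) sub_left_injective.injOn
      obtain ⟨t, h4, h5⟩ := (Finset.mem_filter.1 hγ).2
      refine ⟨t, ht _ _ _ (hs _ _ h1) h4, ?_⟩
      rwa [← hadd, sub_add_cancel]
    calc _ ≤ _ := Nat.mul_le_mul_right c a1
      _ ≤ S.card • n := by
        rw [Finset.sum_mul]
        exact Finset.sum_le_card_nsmul _ _ _ a2
      _ ≤ Z * n := Nat.mul_le_mul_right n hS
  rw [e0, mul_right_comm, ← e2, Finset.sum_mul, mul_comm (Z * n)]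
  exact Finset.sum_le_card_nsmul _ _ _ e3

/-- A set of coefficient vectors whose differences have few possible degrees is small. -/
theorem tie_card {k : Type} [Field k] [Finite k] [CharP k 2] {J : ℕ} (S : Set (Fin J → k))
    (t : Finset ℕ) (h : ∀ γ ∈ S, ∀ γ' ∈ S, γ ≠ γ' →
      (∑ j, C ((γ + γ') j) * X ^ (j : ℕ) : k[X]).natDegree ∈ t) :
    S.ncard ≤ Nat.card k ^ t.card := by
  have hc : ∀ (γ : Fin J → k) (j : Fin J),
      (∑ j, C (γ j) * X ^ (j : ℕ) : k[X]).coeff j = γ j := fun γ j => by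
    simp only [finsetSum_coeff, coeff_C_mul_X_pow, Fin.val_inj]
    simp
  have hadd : ∀ γ γ' : Fin J → k, (∑ j, C ((γ + γ') j) * X ^ (j : ℕ) : k[X]) =
      ∑ j, C (γ j) * X ^ (j : ℕ) + ∑ j, C (γ' j) * X ^ (j : ℕ) := fun γ γ' => by
    simp only [Pi.add_apply, C_add, add_mul, Finset.sum_add_distrib]
  have h1 := Set.ncard_le_ncard_of_injOn (s := S) (t := (Set.univ : Set (t → k)))
    (fun γ i => (∑ j, C (γ j) * X ^ (j : ℕ) : k[X]).coeff i) (fun _ _ => Set.mem_univ _)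
    (fun γ hγ γ' hγ' e => by
      by_contra hne
      have h3 := congrFun e ⟨_, h γ hγ γ' hγ' hne⟩
      have h4 : (∑ j, C ((γ + γ') j) * X ^ (j : ℕ) : k[X]) = 0 := by
        rw [← leadingCoeff_eq_zero, leadingCoeff]
        nth_rewrite 1 [hadd]
        rw [coeff_add]
        exact CharTwo.add_eq_zero.2 h3
      refine hne (funext fun j => CharTwo.add_eq_zero.1 ?_)
      have h5 := hc (γ + γ') j
      rw [h4, coeff_zero] at h5
      exact h5.symm)
  rwa [Set.ncard_univ, Nat.card_fun, Nat.card_eq_fintype_card (α := t), Fintype.card_coe] at h1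

/-- The solutions of an affine system along a biadditive pairing. -/
theorem pair_card {Γ Ξ : Type} [AddCommGroup Γ] [Fintype Γ] [AddCommGroup Ξ]
    (h2 : ∀ x : Γ, x + x = 0) (h2' : ∀ x : Ξ, x + x = 0) (Y : Finset Ξ) (h0 : 0 ∈ Y)
    (hY : ∀ x ∈ Y, ∀ y ∈ Y, x + y ∈ Y) (φ : Ξ → Γ → ZMod 2)
    (hl : ∀ x y γ, φ (x + y) γ = φ x γ + φ y γ) (hr : ∀ x γ γ', φ x (γ + γ') = φ x γ + φ x γ')
    (u : Ξ → ZMod 2) :
    {γ | ∀ x ∈ Y, u x + φ x γ = 0}.ncard * Y.card ≤
      {x | x ∈ Y ∧ ∀ γ, φ x γ = 0}.ncard * Fintype.card Γ := by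
  let Y' : AddSubgroup Ξ :=
    { carrier := Y
      zero_mem' := h0
      add_mem' := fun {a b} ha hb => hY a ha b hb
      neg_mem' := fun {a} ha => by rwa [neg_eq_of_add_eq_zero_left (h2' a)] }
  let ψ : Y' →+ Γ →+ ZMod 2 := AddMonoidHom.mk'
    (fun x => AddMonoidHom.mk' (φ x) (hr x)) fun x y => AddMonoidHom.ext fun γ => hl x y γ
  let RK : AddSubgroup Γ :=
    { carrier := {γ | ∀ x : Y', ψ x γ = 0}
      zero_mem' := fun x => map_zero _
      add_mem' := fun {a b} ha hb x => by rw [map_add, ha x, hb x, add_zero]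
      neg_mem' := fun {a} ha x => by rw [map_neg, ha x, neg_zero] }
  have : Finite (Γ →+ ZMod 2) := DFunLike.finite _
  have a1 : {γ | ∀ x ∈ Y, u x + φ x γ = 0}.ncard ≤ Nat.card RK := by
    rcases {γ | ∀ x ∈ Y, u x + φ x γ = 0}.eq_empty_or_nonempty with h | ⟨γ₀, h⟩
    · rw [h, Set.ncard_empty]
      exact Nat.zero_le _
    refine Set.ncard_le_ncard_of_injOn (t := (RK : Set Γ)) (· + γ₀) (fun γ hγ x => ?_)
      (add_left_injective γ₀).injOn
    have b1 := hγ x x.2
    have b2 := h x x.2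
    have b3 := z2_add_self (u x)
    change φ x (γ + γ₀) = 0
    rw [hr]
    linear_combination b1 + b2 - b3
  have a2 : Nat.card ψ.range ≤ Nat.card (ann RK) := by
    refine AddSubgroup.card_le_of_le ?_
    rintro _ ⟨x, rfl⟩ γ hγ
    exact hγ x
  have a3 := card_ann h2 RK
  have a4 : Y.card = Nat.card ψ.range * Nat.card ψ.ker := by
    rw [← Nat.card_congr (QuotientAddGroup.quotientKerEquivRange ψ).toEquiv,
      ← AddSubgroup.card_eq_card_quotient_mul_card_addSubgroup]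
    exact (Nat.card_eq_finsetCard Y).symm
  have a5 : Nat.card ψ.ker ≤ {x | x ∈ Y ∧ ∀ γ, φ x γ = 0}.ncard := by
    refine Set.ncard_le_ncard_of_injOn (s := (ψ.ker : Set Y')) (fun x => (x : Ξ))
      (fun x hx => ⟨x.2, fun γ => ?_⟩) Subtype.val_injective.injOn
      (Y.finite_toSet.subset fun x hx => hx.1)
    exact DFunLike.congr_fun (AddMonoidHom.mem_ker.1 hx) γ
  rw [a4, ← Nat.card_eq_fintype_card, ← a3]
  calc _ ≤ Nat.card RK * (Nat.card (ann RK) * {x | x ∈ Y ∧ ∀ γ, φ x γ = 0}.ncard) :=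
        Nat.mul_le_mul a1 (Nat.mul_le_mul a2 a5)
    _ = _ := by ring

/-- The tuples with one exceptional coordinate. -/
theorem pre_fiber {R : ℕ} {Γ : Type} [Zero Γ] [DecidableEq Γ] (Y : Fin R → Finset Γ)
    {l m : Fin R} (h : l < m) (E : Set Γ) :
    {ξ | ξ ∈ pre Y m ∧ ξ l ∈ E}.ncard * (Y l).card ≤
      {x | x ∈ Y l ∧ x ∈ E}.ncard * (pre Y m).card := by
  classical
  have e1 : {x | x ∈ Y l ∧ x ∈ E} = ↑((Y l).filter (· ∈ E)) := by
    ext x
    simp
  have e2 : {ξ | ξ ∈ pre Y m ∧ ξ l ∈ E} = ↑(Fintype.piFinset (Function.update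
      (fun l => if l < m then Y l else {0}) l ((Y l).filter (· ∈ E)))) := by
    ext ξ
    simp only [pre, Set.mem_ofPred_eq, Finset.mem_coe, Fintype.mem_piFinset]
    rw [Function.forall_update_iff (fun l => if l < m then Y l else {0})
      fun a (s : Finset Γ) => ξ a ∈ s, Finset.mem_filter]
    refine ⟨fun h1 => ⟨⟨by simpa [h] using h1.1 l, h1.2⟩, fun a _ => h1.1 a⟩,
      fun h1 => ⟨fun a => ?_, h1.1.2⟩⟩
    by_cases ha : a = l
    · rw [ha, if_pos h]
      exact h1.1.1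
    · exact h1.2 a ha
  rw [e1, e2, Set.ncard_coe_finset, Set.ncard_coe_finset, pre, Fintype.card_piFinset,
    Fintype.card_piFinset, ← Finset.mul_prod_erase _ _ (Finset.mem_univ l),
    ← Finset.mul_prod_erase _ _ (Finset.mem_univ l), Function.update_self, if_pos h,
    Finset.prod_congr rfl fun a ha => by rw [Function.update_of_ne (Finset.ne_of_mem_erase ha)]]
  exact le_of_eq (by ring)

end Pool.Agent.Lib.MP_788af2_nt.AS
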