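import Pool.Agent.Lib.MP_788af2_nt.TT.D12
import Pool.Agent.Lib.MP_788af2_nt.TT.Triv

/-!
Perturbation of the parameter: transport and the first variation.
-/

set_option linter.unusedSectionVars false

namespace Pool.Agent.Lib.MP_788af2_nt.AS

open Polynomial WeierstrassCurve Pool.Agent.Lib.MP_a3f657_nt.Two

namespace Tw

variable {k : Type} [Field k] [Finite k] [CharP k 2] {I : Type} [Fintype I] [DecidableEq I]
  {β : I → k[X]} {L : Type} [Field L] [CharP L 2] (T : Tw β L)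

variable {H : AddSubgroup L} {κ δ z z' z'' w w' : L} {K : ℕ} {r m n : ℝ} {ξ : G I}

variable {T} in
lemma Near.refl (z : L) : T.Near z z :=
  ⟨rfl, by rw [CharTwo.add_self_eq_zero]; exact zero_mem _⟩

variable {T} in
lemma Near.symm (h : T.Near z z') : T.Near z' z := ⟨h.1.symm, by rw [add_comm]; exact h.2⟩

variable {T} in
lemma Near.trans (h : T.Near z z') (h' : T.Near z' z'') : T.Near z z'' := by
  refine ⟨h'.1.trans h.1, ?_⟩
  have e : z + z'' = z + z' + (z' + z'') := by grind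
  rw [e]
  exact add_mem h.2 h'.2

variable {T} in
lemma Near.add (h : T.Near z z') (h' : T.Near w w') : T.Near (z + w) (z' + w') := by
  refine ⟨by rw [PB.c1_add, PB.c1_add, h.1, h'.1], ?_⟩
  rw [add_add_add_comm]
  exact add_mem h.2 h'.2

variable {T} in
lemma Near.σ (h : T.Near z z') (g : G I) : T.Near (T.σ g z) (T.σ g z') := by
  refine ⟨by rw [σ_c1, σ_c1, h.1], ?_⟩
  rw [← map_add]
  exact T.σ_mem g h.2

variable {T} in
lemma Near.zc_mul (h : T.Near z z') (u : ZMod 2) : T.Near (zc L u * z) (zc L u * z') := by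
  refine ⟨by rw [c1_zc_mul, c1_zc_mul, h.1], ?_⟩
  rw [← mul_add]
  exact T.zc_mul_mem u h.2

variable {T} in
lemma Near.uniq (h : T.Near z z') (h1 : T.Kr κ z) (h2 : T.Kr κ z') : z = z' := by
  have e : wp (z + z') = 0 := by
    unfold Kr at h1 h2
    rw [wp_add, h1, h2, h.1, CharTwo.add_self_eq_zero]
  have := T.eq_zero_of_wp h.2 (by norm_num) e
  grind

variable {T} in
lemma Kr.exists_near (h1 : T.Kr κ z) (h2 : δ * T.P.c1 z ∈ T.d.Le (-1)) :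
    ∃ z', T.Kr (κ + δ) z' ∧ T.Near z z' := by
  obtain ⟨e, he, hw⟩ := T.hensel (-1) ((δ * T.P.c1 z) ^ 2) (by norm_num)
    (DF.Le.sq h2 (by norm_num))
  have h0 : T.P.c1 e = 0 := by rw [← PB.c1_wp, hw, PB.c1_sq]
  have h3 : T.P.c1 (z + e) = T.P.c1 z := by rw [PB.c1_add, h0, add_zero]
  refine ⟨z + e, ?_, h3, ?_⟩
  · unfold Kr at h1 ⊢
    rw [wp_add, h1, hw, h3]
    unfold bh
    grind
  · rwa [← add_assoc, CharTwo.add_self_eq_zero, zero_add]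

variable {T} in
lemma Near.err (h : T.Near z z') (h1 : T.Kr κ z) (h2 : T.Kr (κ + δ) z')
    (h3 : δ * T.P.c1 z ∈ T.d.Le r) (hr : r < 0) : wp (z + z') = (δ * T.P.c1 z) ^ 2 ∧
      z + z' ∈ T.d.Le (2 * r) ∧ z + z' + (δ * T.P.c1 z) ^ 2 ∈ T.d.Le (4 * r) := by
  have e : wp (z + z') = (δ * T.P.c1 z) ^ 2 := by
    unfold Kr at h1 h2
    rw [wp_add, h1, h2, h.1]
    unfold bh
    grind
  have e2 : z + z' ∈ T.d.Le (2 * r) :=
    T.of_wp_small h.2 (by norm_num) (by rw [e]; exact DF.Le.sq h3 le_rfl)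
  refine ⟨e, e2, ?_⟩
  have e3 : z + z' + (δ * T.P.c1 z) ^ 2 = (z + z') ^ 2 := by
    rw [← e, wp]
    grind
  rw [e3]
  exact DF.Le.sq e2 (by linarith)

variable {T} in
lemma Kp.pert (hK : T.Kp H κ K) (hδ : T.Fix δ) (h : δ ∈ T.d.Le 0) : T.Kp H (κ + δ) K :=
  ⟨hK.hg, hK.pos, hK.fix.add hδ, add_mem hK.le (DF.Le.mono h (Nat.cast_nonneg K))⟩

variable {T} in
lemma Kp.exists_near (hK : T.Kp H κ K) (hδ : T.Fix δ) (h : δ ∈ T.d.Le (-K - 1))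
    (hz : z ∈ T.Vs H κ) : ∃ z' ∈ T.Vs H (κ + δ), T.Near z z' := by
  have h1 : δ * T.P.c1 z ∈ T.d.Le (-1) := DF.Le.mul h (hK.V_c1_le hz) (by linarith)
  obtain ⟨⟨h2, h3⟩, h4⟩ := hz
  obtain ⟨z', h5, h6⟩ := Kr.exists_near h2 h1
  refine ⟨z', ⟨⟨h5, by rw [h6.1]; exact h3⟩, ?_⟩, h6⟩
  have h7 : T.Fix (z + z') := by
    refine T.fix_of_wp ?_ h6.2 (by norm_num)
    rw [(h6.err h2 h5 h1 (by norm_num)).1]
    exact (hδ.mul h4.c1).pow 2
  have := h4.add h7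
  rwa [← add_assoc, CharTwo.add_self_eq_zero, zero_add] at this

variable {T} in
lemma Kp.exists_near' (hK : T.Kp H κ K) (hδ : T.Fix δ) (h : δ ∈ T.d.Le (-K - 1))
    (hz : z' ∈ T.Vs H (κ + δ)) : ∃ z ∈ T.Vs H κ, T.Near z z' := by
  have h0 : (0 : ℝ) ≤ K := Nat.cast_nonneg K
  obtain ⟨z, h1, h2⟩ := (hK.pert hδ (DF.Le.mono h (by linarith))).exists_near hδ h hz
  rw [add_assoc, CharTwo.add_self_eq_zero, add_zero] at h1
  exact ⟨z, h1, h2.symm⟩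

variable {T} in
lemma Kp.triv_near (hK : T.Kp H κ K) (hδ : T.Fix δ) (h : δ ∈ T.d.Le (-K - 1)) {ι : Type}
    [Fintype ι] {p q p' q' : ι → L} (hp : ∀ i, p i ∈ T.Vs H κ) (hq : ∀ i, q i ∈ T.Vs H κ)
    (hp' : ∀ i, p' i ∈ T.Vs H (κ + δ)) (hq' : ∀ i, q' i ∈ T.Vs H (κ + δ))
    (h1 : ∀ i, T.Near (p i) (p' i)) (h2 : ∀ i, T.Near (q i) (q' i)) (h3 : Triv p q) :
    Triv p' q' := by
  have key : ∀ x ∈ T.Vs H κ, ∃ y ∈ T.Vs H (κ + δ), T.Near x y := fun x hx =>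
    hK.exists_near hδ h hx
  choose! φ hφ hn using key
  have hu : ∀ x ∈ T.Vs H κ, ∀ y ∈ T.Vs H (κ + δ), T.Near x y → φ x = y := fun x hx y hy e =>
    ((hn x hx).symm.trans e).uniq (hφ x hx).1.1 hy.1.1
  have := Triv.map (fun x : L => CharTwo.add_self_eq_zero x) (T.Vs H κ) hp hq φ
    (fun x hx y hy => hu _ (add_mem hx hy) _ (add_mem (hφ x hx) (hφ y hy))
      ((hn x hx).add (hn y hy))) h3
  have e1 : (fun i => φ (p i)) = p' := funext fun i => hu _ (hp i) _ (hp' i) (h1 i)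
  have e2 : (fun i => φ (q i)) = q' := funext fun i => hu _ (hq i) _ (hq' i) (h2 i)
  rwa [e1, e2] at this

private lemma pert_id {b d z w e e' h h' f g O : L} (hf : f * b = 1) (hg : g * (b + d ^ 2) = 1)
    (hz : z ^ 2 + z = b * h ^ 2) (hw : w ^ 2 + w = b * h' ^ 2) (he : e ^ 2 + e = (d * h) ^ 2)
    (he' : e' ^ 2 + e' = (d * h') ^ 2) (hO : O ^ 2 = z * w * (1 + z + w) * f ^ 2) :
    (z + e) * (w + e') * g + z * w * f + (d * O) ^ 2 =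
      d ^ 4 * (f ^ 2 * g) * (z * w) + d ^ 2 * (f * g) * (z * e') + d ^ 2 * (f * g) * (w * e) +
        f * (z * e' ^ 2) + f * (w * e ^ 2) + g * (e * e') := by
  have h1 : g = f + d ^ 2 * f * g := by grind
  have h2 : O ^ 2 = f ^ 2 * (z * w) + f * (w * h ^ 2 + z * h' ^ 2) := by
    have h3 : z * w * (1 + z + w) = z * w + w * (z ^ 2 + z) + z * (w ^ 2 + w) := by grind
    rw [hO, h3, hz, hw]
    grind
  have h4 : e ^ 2 = e + (d * h) ^ 2 := by grind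
  have h5 : e' ^ 2 = e' + (d * h') ^ 2 := by grind
  rw [mul_pow d O, h2, h4, h5]
  clear h2 h4 h5 hO he he' hz hw hf hg
  grind

private lemma pert_inv (hκ : T.Fix κ) : 1 / T.bh κ ∈ T.d.Le 0 :=
  DF.Le.div' (DF.Le.one le_rfl) (T.bh_not_le hκ) (by norm_num)

lemma prod_pert (hκ : T.Fix κ) (hδ : T.Fix δ) (h : δ ∈ T.d.Le (-m)) (hz : T.Kr κ z)
    (hw : T.Kr κ w) (hz' : T.Kr (κ + δ) z') (hw' : T.Kr (κ + δ) w') (h1 : T.Near z z')
    (h2 : T.Near w w') {A B A' B' M : ℝ} (a1 : z ∈ T.d.Le A) (a2 : T.P.c1 z ∈ T.d.Le B)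
    (a3 : w ∈ T.d.Le A') (a4 : T.P.c1 w ∈ T.d.Le B') (b1 : B < m) (b2 : B' < m)
    (c1 : A + A' ≤ M) (c2 : A + 2 * B' ≤ M) (c3 : A' + 2 * B ≤ M) (c4 : A + 4 * B' ≤ M)
    (c5 : A' + 4 * B ≤ M) (c6 : 2 * B + 2 * B' ≤ M) :
    z' * w' / T.bh (κ + δ) + z * w / T.bh κ + (δ * T.P.c1 (z * w / T.bh κ)) ^ 2 ∈
      T.d.Le (M - 4 * m) := by
  obtain ⟨e1, e2, -⟩ := h1.err hz hz' (DF.Le.mul h a2 le_rfl) (by linarith)
  obtain ⟨e3, e4, -⟩ := h2.err hw hw' (DF.Le.mul h a4 le_rfl) (by linarith)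
  have hf := T.pert_inv hκ
  have hg := T.pert_inv (hκ.add hδ)
  have hb : T.bh (κ + δ) = T.bh κ + δ ^ 2 := by
    unfold bh
    grind
  have key := pert_id (b := T.bh κ) (d := δ) (z := z) (w := w) (e := z + z') (e' := w + w')
    (h := T.P.c1 z) (h' := T.P.c1 w) (f := 1 / T.bh κ) (g := 1 / T.bh (κ + δ))
    (O := T.P.c1 (z * w / T.bh κ)) (one_div_mul_cancel (T.bh_ne κ))
    (by rw [← hb]; exact one_div_mul_cancel (T.bh_ne _)) hz hw e1 e3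
    (by rw [hz.D_mul hw, Gq, div_pow, one_pow, mul_one_div])
  rw [← add_assoc z, CharTwo.add_self_eq_zero, zero_add, ← add_assoc w, CharTwo.add_self_eq_zero,
    zero_add, mul_one_div, mul_one_div] at key
  rw [key]
  have hd2 : δ ^ 2 ∈ T.d.Le (-(2 * m)) := DF.Le.sq h (by linarith)
  have hd4 : δ ^ 4 ∈ T.d.Le (-(4 * m)) := DF.Le.pow h 4 (by push_cast; linarith)
  have hfg : 1 / T.bh κ * (1 / T.bh (κ + δ)) ∈ T.d.Le 0 := DF.Le.mul hf hg (by norm_num)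
  have hffg : (1 / T.bh κ) ^ 2 * (1 / T.bh (κ + δ)) ∈ T.d.Le 0 :=
    DF.Le.mul (DF.Le.sq hf (c := 0) (by norm_num)) hg (by norm_num)
  refine add_mem (add_mem (add_mem (add_mem (add_mem ?_ ?_) ?_) ?_) ?_) ?_
  · exact DF.Le.mul (DF.Le.mul hd4 hffg le_rfl) (DF.Le.mul a1 a3 le_rfl) (by linarith)
  · exact DF.Le.mul (DF.Le.mul hd2 hfg le_rfl) (DF.Le.mul a1 e4 le_rfl) (by linarith)
  · exact DF.Le.mul (DF.Le.mul hd2 hfg le_rfl) (DF.Le.mul a3 e2 le_rfl) (by linarith)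
  · exact DF.Le.mul hf (DF.Le.mul a1 (DF.Le.sq e4 le_rfl) le_rfl) (by linarith)
  · exact DF.Le.mul hf (DF.Le.mul a3 (DF.Le.sq e2 le_rfl) le_rfl) (by linarith)
  · exact DF.Le.mul hg (DF.Le.mul e2 e4 le_rfl) (by linarith)

variable {T} in
theorem Kp.d1_pert (hK : T.Kp H κ K) (hδ : T.Fix δ) (h : δ ∈ T.d.Le (-m)) (hm : K + 1 ≤ m)
    (hz : z ∈ T.Vs H κ) (hw : w ∈ T.Vs H κ) (hz' : z' ∈ T.Vs H (κ + δ))
    (hw' : w' ∈ T.Vs H (κ + δ)) (h1 : T.Near z z') (h2 : T.Near w w')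
    (hn : T.p (comb β ξ) ∈ T.d.Le n) (hmn : 2 * n + 6 * K + 3 ≤ 4 * m) :
    T.d1 H (κ + δ) ξ z' w' =
      T.d1 H κ ξ z w + T.RK (T.p (comb β ξ) * δ * T.P.c1 (z * w / T.bh κ)) := by
  have h0 : (0 : ℝ) ≤ K := Nat.cast_nonneg K
  have e := T.prod_pert (M := 6 * K) hK.fix hδ h hz.1.1 hw.1.1 hz'.1.1 hw'.1.1 h1 h2 (hK.V_le hz)
    (hK.V_c1_le hz) (hK.V_le hw) (hK.V_c1_le hw) (by linarith) (by linarith) (by linarith)
    (by linarith) (by linarith) (by linarith) (by linarith) (by linarith)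
  have f1 : T.Fix (z * w / T.bh κ) := (hz.2.mul hw.2).div (T.bh_fix hK.fix)
  have f2 : T.Fix (z' * w' / T.bh (κ + δ)) := (hz'.2.mul hw'.2).div (T.bh_fix (hK.fix.add hδ))
  have f3 : T.Fix (T.yy ξ) := T.fix_p _
  have hy : T.yy ξ ∈ T.d.Le (1 + 2 * n) := by
    rw [yy_eq]
    exact DF.Le.mul T.b_mem (DF.Le.sq hn le_rfl) le_rfl
  have e2 := T.RK_small (f3.mul ((f2.add f1).add ((hδ.mul f1.c1).pow 2)))
    (DF.Le.mul hy e (by linarith))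
  have e3 : T.yy ξ * (δ * T.P.c1 (z * w / T.bh κ)) ^ 2 =
      T.P.b * (T.p (comb β ξ) * δ * T.P.c1 (z * w / T.bh κ)) ^ 2 := by
    rw [yy_eq]
    ring
  have e4 := T.RK_c1 (T.fix_b.mul ((((T.fix_p (comb β ξ)).mul hδ).mul f1.c1).pow 2))
  rw [PB.c1_b_sq] at e4
  rw [mul_add, mul_add, RK_add, RK_add, e3, ← e4] at e2
  unfold d1
  rw [h1.1, h2.1]
  generalize T.RK (T.yy ξ * (z' * w' / T.bh (κ + δ))) = a at e2 ⊢
  generalize T.RK (T.yy ξ * (z * w / T.bh κ)) = b at e2 ⊢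
  generalize T.RK (T.p (comb β ξ) * δ * T.P.c1 (z * w / T.bh κ)) = c at e2 ⊢
  generalize T.R (comb T.θ ξ * (T.lf H (T.P.c1 w) * T.P.c1 z)) = d
  revert a b c d
  decide

variable {T} in
theorem Kp.inK_pert (hK : T.Kp H κ K) (hδ : T.Fix δ) (h : δ ∈ T.d.Le (-m))
    (hn : T.p (comb β ξ) ∈ T.d.Le n) (h0 : 0 ≤ n) (hmn : n + 2 * K + 2 ≤ m) :
    T.InK H (κ + δ) ξ ↔ T.InK H κ ξ := by
  have hK0 : (0 : ℝ) ≤ K := Nat.cast_nonneg K
  have h' : δ ∈ T.d.Le (-K - 1) := DF.Le.mono h (by linarith)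
  have key : ∀ z ∈ T.Vs H κ, ∀ w ∈ T.Vs H κ, ∀ z' ∈ T.Vs H (κ + δ), ∀ w' ∈ T.Vs H (κ + δ),
      T.Near z z' → T.Near w w' → T.d1 H (κ + δ) ξ z' w' = T.d1 H κ ξ z w := by
    intro z hz w hw z' hz' w' hw' h1 h2
    have f1 : T.Fix (z * w / T.bh κ) := (hz.2.mul hw.2).div (T.bh_fix hK.fix)
    have l1 : z * w / T.bh κ ∈ T.d.Le (4 * K) :=
      DF.Le.div' (DF.Le.mul (hK.V_le hz) (hK.V_le hw) le_rfl) (T.bh_not_le hK.fix) (by linarith)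
    have l2 : T.P.c1 (z * w / T.bh κ) ∈ T.d.Le (2 * K) := f1.c1_le l1 (by linarith)
    rw [hK.d1_pert hδ h (by linarith) hz hw hz' hw' h1 h2 hn (by linarith),
      T.RK_small (((T.fix_p _).mul hδ).mul f1.c1)
        (DF.Le.mul (DF.Le.mul hn h le_rfl) l2 (by linarith)), add_zero]
  refine ⟨fun hI z hz w hw => ?_, fun hI z' hz' w' hw' => ?_⟩
  · obtain ⟨z', hz', h1⟩ := hK.exists_near hδ h' hz
    obtain ⟨w', hw', h2⟩ := hK.exists_near hδ h' hw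
    rw [← key z hz w hw z' hz' w' hw' h1 h2]
    exact hI z' hz' w' hw'
  · obtain ⟨z, hz, h1⟩ := hK.exists_near' hδ h' hz'
    obtain ⟨w, hw, h2⟩ := hK.exists_near' hδ h' hw'
    rw [key z hz w hw z' hz' w' hw' h1 h2]
    exact hI z hz w hw

end Tw

end Pool.Agent.Lib.MP_788af2_nt.AS
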