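import Pool.Agent.Lib.MP_788af2_nt.TT.Flp
import Pool.Agent.Lib.MP_788af2_nt.TT.Pert
import Pool.Agent.Lib.MP_788af2_nt.TT.Moore

/-!
Nontrivial bivectors are rarely small.
-/

set_option linter.unusedSectionVars false

namespace Pool.Agent.Lib.MP_788af2_nt.AS

open Polynomial WeierstrassCurve Pool.Agent.Lib.MP_a3f657_nt.Two

private lemma bad0_smul {L : Type} [Field L] [CharP L 2] (u : ZMod 2) (y : L) :
    u.val • y = zc L u * y := by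
  rcases z2_cases u with rfl | rfl
  · simp
  · rw [map_one, one_mul]
    exact one_nsmul y

private lemma bad0_hom {L : Type} [Field L] [CharP L 2] (l : L →+ ZMod 2) (u : ZMod 2) (y : L) :
    l (zc L u * y) = u * l y := by
  rcases z2_cases u with rfl | rfl <;> simp

private lemma bad0_exp {L : Type} [Field L] [CharP L 2] {e y : L} (h : wp e = y ^ 2) (n : ℕ) :
    e = ∑ i ∈ Finset.Icc 1 n, y ^ 2 ^ i + e ^ 2 ^ n := by
  have h1 : e = y ^ 2 + e ^ 2 := by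
    unfold wp at h
    grind
  induction n with
  | zero => simp
  | succ n ih =>
    have h2 : e ^ 2 ^ n = y ^ 2 ^ (n + 1) + e ^ 2 ^ (n + 1) := by
      conv_lhs => rw [h1, add_pow_char_pow, ← pow_mul, ← pow_mul, ← pow_succ']
    rw [Finset.sum_Icc_succ_top (by omega), add_assoc, ← h2]
    exact ih

namespace Tw

variable {k : Type} [Field k] [Finite k] [CharP k 2] {I : Type} [Fintype I] [DecidableEq I]
  {β : I → k[X]} {L : Type} [Field L] [CharP L 2] (T : Tw β L)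

variable {Hf : k[X] → AddSubgroup L} {b s : k[X]} {e r R K s₀ J₀ K₃ K₄ D c N ε : ℕ}

variable {T} in
lemma Kp.not_triv {H : AddSubgroup L} {κ : L} (hK : T.Kp H κ K) {p w : Fin r → L}
    (hp : ∀ a, p a ∈ T.Vs H κ) (hw : ∀ a, w a ∈ T.Vs H κ) (h : ¬ Triv p w)
    (h' : T.gw p w ∈ T.d.Le (-K)) : ¬ Triv (fun a => T.P.c1 (p a)) fun a => T.P.c1 (w a) := by
  intro h0
  have h2 : ∀ x : L, x + x = 0 := CharTwo.add_self_eq_zero
  obtain ⟨lam, hl, -⟩ := exists_sep_hom h2 ⊥ (v := (1 : L)) (by simp)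
  replace hl : lam 1 = 1 := (z2_cases _).resolve_left hl
  have hz : ∀ (u : ZMod 2) {v}, v ∈ T.Vs H κ → zc L u * v ∈ T.Vs H κ := fun u v hv => by
    rw [← bad0_smul]
    exact nsmul_mem hv _
  have uq : ∀ v ∈ T.Vs H κ, T.P.c1 v = 0 → lam v = 0 → v = 0 := fun v hv e1 e2 =>
    (hv.1.1.cases e1).resolve_right fun e3 => by
      rw [e3, hl] at e2
      exact one_ne_zero e2
  have uq2 : ∀ v ∈ T.Vs H κ, ∀ v' ∈ T.Vs H κ, T.P.c1 v = T.P.c1 v' → lam v = lam v' → v = v' :=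
    fun v hv v' hv' e1 e2 => CharTwo.add_eq_zero.1 (uq _ (add_mem hv hv')
      (by rw [PB.c1_add, e1, h2]) (by rw [map_add, e2, z2_add_self]))
  have hπ : ∀ v ∈ T.Vs H κ, v + zc L (lam v) * 1 ∈ T.Vs H κ ∧
      T.P.c1 (v + zc L (lam v) * 1) = T.P.c1 v ∧ lam (v + zc L (lam v) * 1) = 0 := fun v hv =>
    ⟨add_mem hv (hz _ (T.one_mem_Vs H κ)), by rw [PB.c1_add, c1_zc_mul]; simp,
      by rw [map_add, bad0_hom, hl, mul_one, z2_add_self]⟩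
  have hex : ∀ u ∈ (T.Vs H κ).map T.P.c1h, ∃ v, v ∈ T.Vs H κ ∧ T.P.c1 v = u ∧ lam v = 0 := by
    rintro _ ⟨v, hv, rfl⟩
    exact ⟨_, hπ v hv⟩
  choose! sec s1 s2 s3 using hex
  have hU : ∀ v ∈ T.Vs H κ, T.P.c1 v ∈ (T.Vs H κ).map T.P.c1h := fun v hv => ⟨v, hv, rfl⟩
  have sadd : ∀ x ∈ (T.Vs H κ).map T.P.c1h, ∀ y ∈ (T.Vs H κ).map T.P.c1h,
      sec (x + y) = sec x + sec y := fun x hx y hy =>
    uq2 _ (s1 _ (add_mem hx hy)) _ (add_mem (s1 x hx) (s1 y hy))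
      (by rw [PB.c1_add, s2 _ (add_mem hx hy), s2 x hx, s2 y hy])
      (by rw [map_add, s3 _ (add_mem hx hy), s3 x hx, s3 y hy, add_zero])
  have dec : ∀ v ∈ T.Vs H κ, v = sec (T.P.c1 v) + zc L (lam v) * 1 := fun v hv => by
    obtain ⟨a1, a2, a3⟩ := hπ v hv
    rw [uq2 _ (s1 _ (hU v hv)) _ a1 (by rw [s2 _ (hU v hv), a2]) (by rw [s3 _ (hU v hv), a3]),
      add_assoc, h2, add_zero]
  have t1 := Triv.alt h2 _ (fun a => hU _ (hp a)) (fun a => hU _ (hw a))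
    (fun u u' => sec u * u' + sec u' * u) (fun x hx y hy z _ => by rw [sadd x hx y hy]; ring)
    (fun x hx y hy z _ => by rw [sadd x hx y hy]; ring) (fun x _ => h2 _) h0
  have t2 := Triv.map h2 _ (fun a => hU _ (hp a)) (fun a => hU _ (hw a)) sec sadd h0
  obtain ⟨P, hP⟩ : ∃ P : Fin r → L, ∀ a, P a = sec (T.P.c1 (p a)) := ⟨_, fun _ => rfl⟩
  obtain ⟨W, hW⟩ : ∃ W : Fin r → L, ∀ a, W a = sec (T.P.c1 (w a)) := ⟨_, fun _ => rfl⟩
  simp only [← hP, ← hW] at t1 t2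
  have dp : ∀ a, p a = P a + zc L (lam (p a)) * 1 := fun a => hP a ▸ dec _ (hp a)
  have dw : ∀ a, w a = W a + zc L (lam (w a)) * 1 := fun a => hW a ▸ dec _ (hw a)
  obtain ⟨v, hv⟩ : ∃ v, v = ∑ a, (zc L (lam (p a)) * W a + zc L (lam (w a)) * P a) := ⟨_, rfl⟩
  have v1 : v ∈ T.Vs H κ := hv ▸ sum_mem fun a _ =>
    add_mem (hz _ (hW a ▸ s1 _ (hU _ (hw a)))) (hz _ (hP a ▸ s1 _ (hU _ (hp a))))
  have v2 : T.P.c1 v = T.gw p w := by
    rw [hv, c1_sum, gw, ← zero_add (∑ a, T.P.c1 _), ← t1, ← Finset.sum_add_distrib]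
    refine Finset.sum_congr rfl fun a _ => ?_
    rw [PB.c1_add, c1_zc_mul, c1_zc_mul, hP, hW, s2 _ (hU _ (hw a)), s2 _ (hU _ (hp a)), ← hP,
      ← hW]
    linear_combination -T.P.c1 (w a) * dp a - T.P.c1 (p a) * dw a
  have vl : ∀ l : L →+ ZMod 2, l v = ∑ a, (lam (p a) * l (W a) + lam (w a) * l (P a)) :=
    fun l => by simp only [hv, map_sum, map_add, bad0_hom]
  have v3 : v = 0 := uq v v1 (by_contra fun e1 => hK.V_c1_not_le v1 e1 (v2 ▸ h')) (by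
    simp only [vl, hP, hW, s3 _ (hU _ (hw _)), s3 _ (hU _ (hp _)), mul_zero, add_zero,
      Finset.sum_const_zero])
  refine h fun l => ?_
  have t3 := t2 l
  have t4 : zc L (l 1) * v + zc L (l v) = 0 := by simp [v3]
  simp only [bad0_smul] at t3 ⊢
  rw [vl, map_sum, hv, Finset.mul_sum, ← Finset.sum_add_distrib] at t4
  rw [← add_zero (0 : L)]
  conv_rhs => congr; rw [← t3]; rfl; rw [← t4]
  rw [← Finset.sum_add_distrib]
  refine Finset.sum_congr rfl fun a _ => ?_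
  have l1 := congrArg (fun x => zc L (l x)) (dp a)
  have l2 := congrArg (fun x => zc L (l x)) (dw a)
  simp only [map_add, bad0_hom, map_mul] at l1 l2 ⊢
  rw [l1, l2]
  linear_combination (zc L (l (W a)) + zc L (lam (w a)) * zc L (l 1)) * dp a +
    (zc L (l (P a)) + zc L (lam (p a)) * zc L (l 1)) * dw a +
    h2 (zc L (lam (p a)) * zc L (lam (w a)) * zc L (l 1))

private lemma bad0_two {H : AddSubgroup L} {κ Δ : L} (hK : T.Kp H κ K) {p w p' w' : Fin r → L}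
    (hp : ∀ a, p a ∈ T.Vs H κ) (hw : ∀ a, w a ∈ T.Vs H κ)
    (hp' : ∀ a, p' a ∈ T.Vs H (κ + Δ)) (hw' : ∀ a, w' a ∈ T.Vs H (κ + Δ))
    (n1 : ∀ a, T.Near (p a) (p' a)) (n2 : ∀ a, T.Near (w a) (w' a)) {x : ℝ}
    (hΔ : Δ ∈ T.d.Le x) (hx : x + K < 0) (n : ℕ) :
    ∃ E ∈ T.d.Le (2 ^ n * (2 * (x + K)) + K), T.gw p w + T.gw p' w' =
      ∑ i ∈ Finset.Icc 1 n, Δ ^ 2 ^ i * ∑ a, (T.P.c1 (p a) ^ 2 ^ i * T.P.c1 (w a) +
        T.P.c1 (w a) ^ 2 ^ i * T.P.c1 (p a)) + E := by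
  have e1 := fun a => (n1 a).err (hp a).1.1 (hp' a).1.1
    (DF.Le.mul hΔ (hK.V_c1_le (hp a)) le_rfl) hx
  have e2 := fun a => (n2 a).err (hw a).1.1 (hw' a).1.1
    (DF.Le.mul hΔ (hK.V_c1_le (hw a)) le_rfl) hx
  refine ⟨∑ a, ((p a + p' a) ^ 2 ^ n * T.P.c1 (w a) + (w a + w' a) ^ 2 ^ n * T.P.c1 (p a)),
    sum_mem fun a _ => add_mem ?_ ?_, ?_⟩
  · exact DF.Le.mul (DF.Le.pow (e1 a).2.1 _ le_rfl) (hK.V_c1_le (hw a)) (by push_cast; rfl)
  · exact DF.Le.mul (DF.Le.pow (e2 a).2.1 _ le_rfl) (hK.V_c1_le (hp a)) (by push_cast; rfl)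
  · simp only [gw, Finset.mul_sum]
    rw [Finset.sum_comm, ← Finset.sum_add_distrib, ← Finset.sum_add_distrib]
    refine Finset.sum_congr rfl fun a _ => ?_
    have f1 := bad0_exp (e1 a).1 n
    have f2 := bad0_exp (e2 a).1 n
    have f3 : ∑ i ∈ Finset.Icc 1 n, Δ ^ 2 ^ i * (T.P.c1 (p a) ^ 2 ^ i * T.P.c1 (w a) +
        T.P.c1 (w a) ^ 2 ^ i * T.P.c1 (p a)) =
        (∑ i ∈ Finset.Icc 1 n, (Δ * T.P.c1 (p a)) ^ 2 ^ i) * T.P.c1 (w a) +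
          (∑ i ∈ Finset.Icc 1 n, (Δ * T.P.c1 (w a)) ^ 2 ^ i) * T.P.c1 (p a) := by
      rw [Finset.sum_mul, Finset.sum_mul, ← Finset.sum_add_distrib]
      exact Finset.sum_congr rfl fun i _ => by rw [mul_pow, mul_pow]; ring
    rw [(n1 a).1, (n2 a).1, f3]
    linear_combination T.P.c1 (w a) * f1 + T.P.c1 (p a) * f2

theorem bad0 (hC : T.Cfg Hf K b s N ε) (hP : Prm e r R K s₀ J₀ K₃ K₄ D c ε)
    (he : Nat.card k ≤ 2 ^ e) :
    {a | a ∈ Ae k N ε ∧ ¬ T.Gd0 (Hf a) (T.kap a b) r K₄}.ncard * 2 ^ K ≤ (Ae k N ε).card := by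
  classical
  have := Fintype.ofFinite k
  obtain ⟨i, hF⟩ : ∃ i, s.natDegree + i + J₀ + (4 * K + 1) = ε + 1 :=
    ⟨ε + 1 - (s.natDegree + J₀ + (4 * K + 1)), by have := hC.s_le; have := hP.e2; omega⟩
  have hm : 1 ≤ 4 * K + 1 := by omega
  have hK0 : (0 : ℝ) ≤ K := Nat.cast_nonneg K
  have h4 : (2 : ℝ) ^ (2 * r) * (2 * (4 * K + 1 + J₀) + K) + (2 ^ (2 * r + 1) + 1) * K + 1 ≤ K₄ := by
    exact_mod_cast hP.h4
  have hdel : ∀ a ∈ Ae k N ε, ∀ γ : Fin J₀ → k,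
      T.del a b (mu s i J₀ γ) ∈ T.d.Le (-(7 * K + 2 : ℝ)) := fun a ha γ =>
    DF.Le.mono (hC.del_le hF hm ha γ) (by push_cast; linarith)
  have key := coset2 (Ae k N ε) (fun (γ : Fin J₀ → k) a => a + X * mu s i J₀ γ ^ 2)
    (fun a => by simp [mu_zero]) (fun γ γ' a => by rw [mu_add, CharTwo.add_sq]; ring)
    (fun γ a ha => hC.flip_mem hF hm ha γ)
    (fun a (t : (Fin r → L) × (Fin r → L)) => (∀ j, t.1 j ∈ T.Vs (Hf a) (T.kap a b)) ∧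
      (∀ j, t.2 j ∈ T.Vs (Hf a) (T.kap a b)) ∧ ¬ Triv t.1 t.2 ∧ T.gw t.1 t.2 ∈ T.d.Le (-K₄))
    (fun t t' => (∀ j, T.Near (t.1 j) (t'.1 j)) ∧ ∀ j, T.Near (t.2 j) (t'.2 j))
    (fun t t' h => ⟨fun j => (h.1 j).symm, fun j => (h.2 j).symm⟩)
    (fun t t' t'' h h' => ⟨fun j => (h.1 j).trans (h'.1 j), fun j => (h.2 j).trans (h'.2 j)⟩)
    (2 ^ (2 * r * s₀)) 1 (Nat.card k ^ (2 * r) ^ 2) ?_ ?_
  · have e1 : {a | a ∈ Ae k N ε ∧ ¬ T.Gd0 (Hf a) (T.kap a b) r K₄} = {a | a ∈ Ae k N ε ∧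
        ∃ t : (Fin r → L) × (Fin r → L), (∀ j, t.1 j ∈ T.Vs (Hf a) (T.kap a b)) ∧
        (∀ j, t.2 j ∈ T.Vs (Hf a) (T.kap a b)) ∧ ¬ Triv t.1 t.2 ∧
        T.gw t.1 t.2 ∈ T.d.Le (-K₄)} := by
      ext a
      simp only [Gd0, Set.mem_ofPred_eq, not_forall, not_not, Prod.exists, exists_prop]
    rw [e1]
    rw [mul_one, Fintype.card_fun, Fintype.card_fin, ← Nat.card_eq_fintype_card] at key
    have q2 : 2 ≤ Nat.card k := Finite.one_lt_card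
    have a1 : Nat.card k ^ (2 * r) ^ 2 ≤ 2 ^ (4 * r ^ 2 * e) :=
      (Nat.pow_le_pow_left he _).trans (by rw [← pow_mul]; exact le_of_eq (by congr 1; ring))
    have a2 : 2 ^ (2 * r * s₀) * Nat.card k ^ (2 * r) ^ 2 * 2 ^ K ≤ Nat.card k ^ J₀ := by
      refine (Nat.mul_le_mul_right _ (Nat.mul_le_mul_left _ a1)).trans ?_
      rw [← pow_add, ← pow_add]
      exact (Nat.pow_le_pow_right two_pos (by have := hP.hJ; omega)).trans
        (Nat.pow_le_pow_left q2 _)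
    refine Nat.le_of_mul_le_mul_right ?_ (show 0 < Nat.card k ^ J₀ by positivity)
    rw [mul_right_comm]
    refine (Nat.mul_le_mul_right _ key).trans ?_
    rw [mul_right_comm, mul_comm]
    exact Nat.mul_le_mul_left _ a2
  · intro a ha
    have hK := hC.kp ha
    obtain ⟨S, hS, hS'⟩ := hK.exists_V' he hP.hs
    refine ⟨(Fintype.piFinset fun _ => S) ×ˢ Fintype.piFinset fun _ => S, ?_, ?_⟩
    · rw [Finset.card_product, Fintype.card_piFinset_const, ← pow_add]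
      refine (Nat.pow_le_pow_left hS _).trans (le_of_eq ?_)
      rw [← pow_mul]
      congr 1
      ring
    · rintro γ t ⟨h1, h2, -⟩
      simp only [hC.flip_H, hC.flip_kap hF hm ha] at h1 h2
      have hd := DF.Le.mono (hdel a ha γ) (show _ ≤ -(K : ℝ) - 1 by linarith)
      choose p hp hp' using fun j => hK.exists_near' (T.del_fix _ _ _) hd (h1 j)
      choose w hw hw' using fun j => hK.exists_near' (T.del_fix _ _ _) hd (h2 j)
      exact ⟨(p, w), Finset.mem_product.2 ⟨Fintype.mem_piFinset.2 fun j => (hS' _).2 (hp j),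
        Fintype.mem_piFinset.2 fun j => (hS' _).2 (hw j)⟩, hp', hw'⟩
  · rintro a ha ⟨p, w⟩ ⟨hp, hw, h3, h5⟩
    have hK := hC.kp ha
    have g1 : (1 : ℝ) ≤ 2 ^ (2 * r) := one_le_pow₀ one_le_two
    have g2 : (0 : ℝ) ≤ 2 ^ (2 * r) * K := by positivity
    have g3 : (0 : ℝ) ≤ 2 ^ (2 * r) * (2 * (4 * K + 1 + J₀) + K) := by positivity
    rw [pow_succ] at h4
    obtain ⟨j, j1, j2, hj⟩ := moore T.d ((T.Vs (Hf a) (T.kap a b)).map T.P.c1h) hK0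
      (by rintro _ ⟨v, hv, rfl⟩; exact hK.V_c1_le hv)
      (by rintro _ ⟨v, hv, rfl⟩ h0; exact hK.V_c1_not_le hv h0)
      (fun j => ⟨_, hp j, rfl⟩) (fun j => ⟨_, hw j, rfl⟩)
      (hK.not_triv hp hw h3 (DF.Le.mono h5 (by linarith)))
    obtain ⟨t, ht, ht'⟩ := tie T.d (n := 2 * r) fun i => ∑ a, (T.P.c1 (p a) ^ 2 ^ i * T.P.c1 (w a) +
      T.P.c1 (w a) ^ 2 ^ i * T.P.c1 (p a))
    rw [mul_one]
    refine (tie_card _ (t.image fun x : ℝ =>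
      ⌊(x + 4 * ε - (od b).natDegree) / 2 - (s.natDegree + i)⌋₊) ?_).trans
      (Nat.pow_le_pow_right Nat.card_pos (Finset.card_image_le.trans ht))
    rintro γ ⟨⟨p', w'⟩, ⟨n1, n2⟩, a1, a2, -, a3⟩ γ' ⟨⟨p'', w''⟩, ⟨n3, n4⟩, b1, b2, -, b3⟩ hγ
    obtain ⟨d1, d2, d3⟩ := hC.del_diff hF hm ha hγ
    refine Finset.mem_image.2 ⟨T.d.deg (T.del a b (mu s i J₀ γ) + T.del a b (mu s i J₀ γ')),
      by_contra fun hnot => ?_, by
        rw [d2]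
        exact (congrArg _ (by ring)).trans (Nat.floor_natCast (R := ℝ) _)⟩
    simp only [hC.flip_H, hC.flip_kap hF hm ha] at a1 a2 b1 b2
    have d4 := (DF.mem_Le_iff d1).1 (add_mem (hdel a ha γ) (hdel a ha γ'))
    have hK' := hK.pert (T.del_fix a b (mu s i J₀ γ)) (DF.Le.mono (hdel a ha γ) (by linarith))
    obtain ⟨Δ, hΔ⟩ : ∃ Δ, Δ = T.del a b (mu s i J₀ γ) + T.del a b (mu s i J₀ γ') := ⟨_, rfl⟩
    rw [show T.kap a b + T.del a b (mu s i J₀ γ') = T.kap a b + T.del a b (mu s i J₀ γ) + Δ by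
      rw [hΔ]; grind] at b1 b2
    rw [← hΔ] at d1 d3 d4 hnot
    obtain ⟨E, hE, hE'⟩ := T.bad0_two hK' a1 a2 b1 b2 (fun j => (n1 j).symm.trans (n3 j))
      (fun j => (n2 j).symm.trans (n4 j)) (DF.mem_Le_deg Δ) (by linarith) (2 * r)
    have c1 : ∀ j, T.P.c1 (p' j) = T.P.c1 (p j) := fun j => (n1 j).1
    have c2 : ∀ j, T.P.c1 (w' j) = T.P.c1 (w j) := fun j => (n2 j).1
    simp only [c1, c2] at hE'
    obtain ⟨x, hx⟩ : ∃ x, x = T.d.deg Δ := ⟨_, rfl⟩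
    rw [← hx] at d3 d4 hE
    push_cast at d3
    have g4 : (2 : ℝ) ^ (2 * r) * x ≤ 2 ^ (2 * r) * -(7 * K + 2) := by gcongr
    have g5 : (2 : ℝ) ^ (2 * r) * -(2 * (4 * K + 1 + J₀) + K) ≤ 2 ^ (2 * r) * x := by gcongr
    have g6 : 1 * (K : ℝ) ≤ 2 ^ (2 * r) * K := by gcongr
    have g7 : (2 : ℝ) ^ (2 * r) * x ≤ 2 ^ j * x :=
      mul_le_mul_of_nonpos_right (pow_le_pow_right₀ one_le_two j2) (by linarith)
    refine ht' Δ E (2 ^ (2 * r) * x - (2 ^ (2 * r + 1) + 1) * K) d1 hnot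
      (DF.Le.mono hE (by rw [pow_succ]; linarith)) j j1 j2 (fun h => hj ?_) ?_
    · rw [mul_comm (Δ ^ _)] at h
      refine DF.Le.of_mul h (pow_ne_zero _ d1) ?_
      rw [DF.deg_pow d1, ← hx]
      push_cast
      linarith
    · rw [← hE']
      exact DF.Le.mono (add_mem a3 b3) (by rw [pow_succ]; linarith)

end Tw

end Pool.Agent.Lib.MP_788af2_nt.AS
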