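import Pool.Agent.Lib.MP_788af2_nt.TT.FlipA
import Pool.Agent.Lib.MP_788af2_nt.TT.Pert

/-!
First order degeneracy is rare.
-/

set_option linter.unusedSectionVars false

namespace Pool.Agent.Lib.MP_788af2_nt.AS

open Polynomial WeierstrassCurve Pool.Agent.Lib.MP_a3f657_nt.Two

section gen

variable {k : Type} [Field k] [Finite k] [CharP k 2] {I : Type} [Fintype I] [DecidableEq I]
  {β : I → k[X]} {L : Type} [Field L] [CharP L 2] (T : Tw β L)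
  {H : AddSubgroup L} {κ z w : L} {K : ℕ}

/-- The coefficient of the first variation. -/
private noncomputable def bad1O (κ z w : L) (cc : ZMod 2) : L :=
  T.P.c1 (z * w / T.bh κ) + zc L cc * T.P.c1 (1 * 1 / T.bh κ)

private lemma bad1_zc_sq (cc : ZMod 2) : zc L cc ^ 2 = zc L cc := by
  rw [← map_pow]
  exact congrArg _ (by revert cc; decide)

private lemma bad1O_fix (hK : T.Kp H κ K) (hz : z ∈ T.Vs H κ) (hw : w ∈ T.Vs H κ) (cc : ZMod 2) :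
    T.Fix (bad1O T κ z w cc) :=
  ((hz.2.mul hw.2).div (T.bh_fix hK.fix)).c1.add
    ((T.fix_zc cc).mul ((T.fix_one.mul T.fix_one).div (T.bh_fix hK.fix)).c1)

private lemma bad1_c1_le (hK : T.Kp H κ K) (hz : z ∈ T.Vs H κ) (hw : w ∈ T.Vs H κ) :
    T.P.c1 (z * w / T.bh κ) ∈ T.d.Le (2 * K) := by
  have h1 : z * w / T.bh κ ∈ T.d.Le (4 * K) :=
    DF.Le.div' (DF.Le.mul (hK.V_le hz) (hK.V_le hw) le_rfl) (T.bh_not_le hK.fix) (by linarith)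
  exact ((hz.2.mul hw.2).div (T.bh_fix hK.fix)).c1_le h1 (by linarith)

private lemma bad1O_le (hK : T.Kp H κ K) (hz : z ∈ T.Vs H κ) (hw : w ∈ T.Vs H κ) (cc : ZMod 2) :
    bad1O T κ z w cc ∈ T.d.Le (2 * K) :=
  add_mem (bad1_c1_le T hK hz hw)
    (T.zc_mul_mem cc (bad1_c1_le T hK (T.one_mem_Vs H κ) (T.one_mem_Vs H κ)))

private lemma bad1O_sq (hz : z ∈ T.Vs H κ) (hw : w ∈ T.Vs H κ) (cc : ZMod 2) :
    bad1O T κ z w cc ^ 2 * T.bh κ ^ 2 = Gq z w + zc L cc := by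
  have h1 := Tw.Kr.D_mul hz.1.1 hw.1.1
  have h2 := Tw.Kr.D_mul (T.one_mem_Vs H κ).1.1 (T.one_mem_Vs H κ).1.1
  have h3 : Gq (1 : L) 1 = 1 := by unfold Gq; grind
  have h4 := T.bh_ne κ
  rw [bad1O, CharTwo.add_sq, mul_pow, h1, h2, h3, bad1_zc_sq]
  field_simp

private lemma bad1O_not_le (hK : T.Kp H κ K) (hz : z ∈ T.Vs H κ) (hw : w ∈ T.Vs H κ) (cc : ZMod 2)
    {K₃ : ℕ} (h : Gq z w + zc L cc ∉ T.d.Le (-K₃)) :
    bad1O T κ z w cc ∉ T.d.Le (-(K₃ : ℝ) / 2 - 2 * K) := fun h1 => h <| by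
  rw [← bad1O_sq T hz hw cc]
  exact DF.Le.mul (DF.Le.sq h1 le_rfl) (DF.Le.sq hK.bh_le le_rfl) (by linarith)

private lemma bad1_pert {δ z' w' : L} {m n : ℝ} {ξ : G I} (hK : T.Kp H κ K) (hδ : T.Fix δ)
    (h : δ ∈ T.d.Le (-m)) (hm : K + 1 ≤ m)
    (hz : z ∈ T.Vs H κ) (hw : w ∈ T.Vs H κ) (hz' : z' ∈ T.Vs H (κ + δ))
    (hw' : w' ∈ T.Vs H (κ + δ)) (h1 : T.Near z z') (h2 : T.Near w w')
    (hn : T.p (comb β ξ) ∈ T.d.Le n) (hmn : 2 * n + 6 * K + 3 ≤ 4 * m) (cc : ZMod 2) :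
    T.d1 H (κ + δ) ξ z' w' + cc * T.d1 H (κ + δ) ξ 1 1 =
      (T.d1 H κ ξ z w + cc * T.d1 H κ ξ 1 1) +
        T.RK (T.p (comb β ξ) * δ * bad1O T κ z w cc) := by
  rw [hK.d1_pert hδ h hm hz hw hz' hw' h1 h2 hn hmn,
    hK.d1_pert hδ h hm (T.one_mem_Vs _ _) (T.one_mem_Vs _ _) (T.one_mem_Vs _ _)
      (T.one_mem_Vs _ _) (Tw.Near.refl 1) (Tw.Near.refl 1) hn hmn, bad1O, mul_add _ _ (_ * _),
    T.RK_add, mul_left_comm _ (zc L cc), T.RK_zc_mul]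
  ring

end gen

variable {k : Type} [Field k] [Finite k] [CharP k 2] {s : k[X]} {R D c : ℕ} {L : Type} [Field L]
  [CharP L 2] (T : Tw (bet s R D c) L) {Hf : k[X] → AddSubgroup L} {b : k[X]}
  {e r K s₀ J₀ K₃ K₄ N ε : ℕ}

/-- The witnesses of degeneracy. -/
private def bad1P (Hf : k[X] → AddSubgroup L) (b : k[X]) (K₃ : ℕ) (a : k[X])
    (t : L × L × ZMod 2) : Prop :=
  t.1 ∈ T.Vs (Hf a) (T.kap a b) ∧ t.2.1 ∈ T.Vs (Hf a) (T.kap a b) ∧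
    Gq t.1 t.2.1 + zc L t.2.2 ∉ T.d.Le (-K₃) ∧
    ∀ ξ, T.d1 (Hf a) (T.kap a b) ξ t.1 t.2.1 + t.2.2 * T.d1 (Hf a) (T.kap a b) ξ 1 1 = 0

/-- The transport relation on witnesses. -/
private def bad1N (t t' : L × L × ZMod 2) : Prop :=
  T.Near t.1 t'.1 ∧ T.Near t.2.1 t'.2.1 ∧ t.2.2 = t'.2.2

private lemma bad1_Z (hC : T.Cfg Hf K b s N ε) (he : Nat.card k ≤ 2 ^ e)
    (hs : 2 * K * e + 1 ≤ s₀) {i J m : ℕ} (hF : s.natDegree + i + J + m = ε + 1)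
    (hm : K + 1 ≤ m) {a : k[X]} (ha : a ∈ Ae k N ε) :
    ∃ S : Finset (L × L × ZMod 2), S.card ≤ 2 ^ (2 * s₀ + 1) ∧ ∀ (γ : Fin J → k) t,
      bad1P T Hf b K₃ (a + X * mu s i J γ ^ 2) t → ∃ t₀ ∈ S, bad1N T t₀ t := by
  have hK := hC.kp ha
  obtain ⟨S, hS, hV⟩ := hK.exists_V' he hs
  refine ⟨S ×ˢ S ×ˢ Finset.univ, ?_, ?_⟩
  · rw [Finset.card_product, Finset.card_product, Finset.card_univ, ZMod.card, pow_succ, two_mul,
      pow_add, mul_assoc]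
    exact Nat.mul_le_mul hS (Nat.mul_le_mul hS le_rfl)
  · rintro γ ⟨z', w', cc⟩ ⟨h1, h2, -, -⟩
    have hm1 : 1 ≤ m := by omega
    have hmr : (K : ℝ) + 1 ≤ m := by exact_mod_cast hm
    rw [hC.flip_H, hC.flip_kap hF hm1 ha] at h1 h2
    have hd : T.del a b (mu s i J γ) ∈ T.d.Le (-K - 1) :=
      DF.Le.mono (hC.del_le hF hm1 ha γ) (by have : (0 : ℝ) ≤ K := Nat.cast_nonneg K; linarith)
    obtain ⟨z, hz, hz1⟩ := hK.exists_near' (T.del_fix _ _ _) hd h1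
    obtain ⟨w, hw, hw1⟩ := hK.exists_near' (T.del_fix _ _ _) hd h2
    exact ⟨(z, w, cc), by simp [hV, hz, hw], hz1, hw1, rfl⟩

private lemma bad1_n (hC : T.Cfg Hf K b s N ε) (hR : 0 < R) {i J m : ℕ}
    (hF : s.natDegree + i + J + m = ε + 1) (hm : K + 1 ≤ m)
    (g1 : K + c + D + 5 * K + 4 ≤ 4 * m) (g2 : K + c + D + 3 * K + 4 ≤ 2 * J + 2 * m)
    (g3 : 4 * m + 6 * K + K₃ ≤ 2 * c + 6) {a : k[X]} (ha : a ∈ Ae k N ε)
    {t : L × L × ZMod 2} (ht : bad1P T Hf b K₃ a t) :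
    {γ : Fin J → k | ∃ t', bad1N T t t' ∧ bad1P T Hf b K₃ (a + X * mu s i J γ ^ 2) t'}.ncard *
      2 ^ (D / 2) ≤ Nat.card k ^ J := by
  obtain ⟨z, w, cc⟩ := t
  obtain ⟨hz, hw, hG, -⟩ := ht
  have hK := hC.kp ha
  have hm1 : 1 ≤ m := by omega
  have hmr : (K : ℝ) + 1 ≤ m := by exact_mod_cast hm
  have g1r : (K : ℝ) + c + D + 5 * K + 4 ≤ 4 * m := by exact_mod_cast g1
  have g2r : (K : ℝ) + c + D + 3 * K + 4 ≤ 2 * J + 2 * m := by exact_mod_cast g2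
  have g3r : 4 * (m : ℝ) + 6 * K + K₃ ≤ 2 * c + 6 := by exact_mod_cast g3
  have hK0 : (0 : ℝ) ≤ K := Nat.cast_nonneg K
  have h4 : (4 : ℝ) ^ ((⟨0, hR⟩ : Fin R) : ℕ) = 1 := pow_zero _
  have key := T.flipA hC hF hm1 ha ⟨0, hR⟩ (Blk (fun _ => D) ⟨0, hR⟩) subset_rfl
    (zero_mem_Blk _) (fun x hx y hy => add_mem_Blk hx hy) (bad1O_fix T hK hz hw cc)
    (bad1O_le T hK hz hw cc) (bad1O_not_le T hK hz hw cc hG)
    (by rw [h4]; linarith) (by rw [h4]; linarith) (by rw [h4]; linarith)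
    (fun ξ => T.d1 (Hf a) (T.kap a b) ξ z w + cc * T.d1 (Hf a) (T.kap a b) ξ 1 1)
  rw [card_Blk, mul_right_comm, mul_comm (2 ^ D)] at key
  refine le_trans (Nat.mul_le_mul_right _ (Set.ncard_le_ncard ?_ (Set.toFinite _)))
    (Nat.le_of_mul_le_mul_right key (by positivity))
  rintro γ ⟨⟨z', w', cc'⟩, ⟨n1, n2, n3⟩, h1, h2, -, h3⟩ ξ hξ
  obtain rfl : cc = cc' := n3
  rw [hC.flip_H, hC.flip_kap hF hm1 ha] at h1 h2 h3
  have hn := T.blk_le hC.s_le hξ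
  rw [h4] at hn
  rw [← bad1_pert T hK (T.del_fix _ _ _) (hC.del_le hF hm1 ha γ) (by linarith) hz hw h1 h2 n1 n2
    hn (by linarith) cc]
  exact h3 ξ

theorem Tw.bad1 (hC : T.Cfg Hf K b s N ε) (hP : Prm e r R K s₀ J₀ K₃ K₄ D c ε)
    (he : Nat.card k ≤ 2 ^ e) (hR : 0 < R) :
    {a | a ∈ Ae k N ε ∧ ¬ T.Gd1 (Hf a) (T.kap a b) K₃}.ncard * 2 ^ K ≤ (Ae k N ε).card := by
  classical
  obtain ⟨m, hm⟩ : ∃ m, m = (K + c + D + 5 * K + 7) / 4 := ⟨_, rfl⟩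
  obtain ⟨J, hJ⟩ : ∃ J, J = K + c + D + K + 2 := ⟨_, rfl⟩
  have hc := hP.hc
  have hK := hP.K_pos
  have hs := hC.s_le
  have e3 := hP.e3
  have h4 : c ≤ 4 ^ R * c := Nat.le_mul_of_pos_left _ (by positivity)
  obtain ⟨i, hF⟩ : ∃ i, s.natDegree + i + J + m = ε + 1 :=
    ⟨ε + 1 - (s.natDegree + J + m), by omega⟩
  have hm1 : K + 1 ≤ m := by omega
  let _ : Fintype k := Fintype.ofFinite k
  have key := coset2 (Γ := Fin J → k) (Ae k N ε) (fun γ a => a + X * mu s i J γ ^ 2)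
    (fun a => by simp [mu_zero]) (fun γ γ' a => by simp only [mu_add, flip_add])
    (fun γ a ha => hC.flip_mem hF (by omega) ha γ) (bad1P T Hf b K₃) (bad1N T)
    (fun t t' h => ⟨h.1.symm, h.2.1.symm, h.2.2.symm⟩)
    (fun t t' t'' h h' => ⟨h.1.trans h'.1, h.2.1.trans h'.2.1, h.2.2.trans h'.2.2⟩)
    (2 ^ (2 * s₀ + 1)) (2 ^ (D / 2)) (Nat.card k ^ J)
    (fun a ha => bad1_Z T hC he hP.hs hF hm1 ha)
    (fun a ha t ht => bad1_n T hC hR hF hm1 (by omega) (by omega) (by omega) ha ht)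
  have hset : {a | a ∈ Ae k N ε ∧ ¬ T.Gd1 (Hf a) (T.kap a b) K₃} =
      {a | a ∈ Ae k N ε ∧ ∃ t, bad1P T Hf b K₃ a t} := by
    ext a
    simp only [Set.mem_ofPred_eq, Tw.Gd1, bad1P]
    refine and_congr_right fun _ => ⟨fun h => ?_, ?_⟩
    · push Not at h
      obtain ⟨z, hz, w, hw, cc, h1, h2⟩ := h
      exact ⟨(z, w, cc), hz, hw, h1, h2⟩
    · rintro ⟨t, hz, hw, h1, h2⟩ h
      obtain ⟨ξ, hξ⟩ := h _ hz _ hw _ h1
      exact hξ (h2 ξ)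
  rw [hset]
  have hq : 0 < Nat.card k ^ J := pow_pos Nat.card_pos _
  rw [Fintype.card_fun, Fintype.card_fin, ← Nat.card_eq_fintype_card, mul_right_comm _ (_ ^ J)]
    at key
  have k2 := Nat.le_of_mul_le_mul_right key hq
  have hD : K + (2 * s₀ + 1) ≤ D / 2 := by have := hP.hD; omega
  refine Nat.le_of_mul_le_mul_left (le_trans ?_ k2) (by positivity : 0 < 2 ^ (2 * s₀ + 1))
  rw [mul_comm, mul_assoc, ← pow_add]
  exact Nat.mul_le_mul_left _ (Nat.pow_le_pow_right (by norm_num) hD)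

end Pool.Agent.Lib.MP_788af2_nt.AS
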