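import Pool.Agent.Lib.MP_788af2_nt.TT.Bad2a

/-!
Second order degeneracy is rare.
-/

set_option linter.unusedSectionVars false

namespace Pool.Agent.Lib.MP_788af2_nt.AS

open Polynomial WeierstrassCurve Pool.Agent.Lib.MP_a3f657_nt.Two

private lemma bad2_fib {Γ Ξ : Type} [Finite Γ] [Finite Ξ] (P : Set (Γ × Ξ)) (F : Set Γ)
    (M n : ℕ) (h : ∀ γ ∈ F, M ≤ {ξ | (γ, ξ) ∈ P}.ncard * n) : F.ncard * M ≤ n * P.ncard := by
  classical
  let _ : Fintype Γ := Fintype.ofFinite Γ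
  let _ : Fintype Ξ := Fintype.ofFinite Ξ
  have h1 : P.toFinset.card = ∑ γ : Γ, (P.toFinset.filter fun q => q.1 = γ).card :=
    Finset.card_eq_sum_card_fiberwise fun _ _ => Finset.mem_coe.2 (Finset.mem_univ _)
  have h2 : ∀ γ : Γ, {ξ | (γ, ξ) ∈ P}.ncard ≤ (P.toFinset.filter fun q => q.1 = γ).card := by
    intro γ
    rw [← Set.ncard_coe_finset]
    refine Set.ncard_le_ncard_of_injOn (fun ξ => (γ, ξ)) (fun ξ hξ => ?_)
      (fun x _ y _ e => (Prod.ext_iff.1 e).2) (Set.toFinite _)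
    simpa using hξ
  rw [Set.ncard_eq_toFinset_card' F, Set.ncard_eq_toFinset_card' P, h1, Finset.mul_sum]
  calc F.toFinset.card * M = ∑ _γ ∈ F.toFinset, M := by simp
    _ ≤ ∑ γ ∈ F.toFinset, n * (P.toFinset.filter fun q => q.1 = γ).card := by
        refine Finset.sum_le_sum fun γ hγ => (h γ (Set.mem_toFinset.1 hγ)).trans ?_
        rw [mul_comm]
        exact Nat.mul_le_mul_left _ (h2 γ)
    _ ≤ _ := Finset.sum_le_sum_of_subset (Finset.subset_univ _)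

variable {k : Type} [Field k] [Finite k] [CharP k 2] {s : k[X]} {R D c : ℕ} {L : Type} [Field L]
  [CharP L 2] (T : Tw (bet s R D c) L) {Hf : k[X] → AddSubgroup L} {b : k[X]}
  {e r K s₀ J₀ K₃ K₄ N ε : ℕ}

/-- The witnesses of degeneracy. -/
private def bad2P (Hf : k[X] → AddSubgroup L) (b : k[X]) (K₄ n : ℕ) (m l₀ : Fin R) (a : k[X])
    (t : (Fin r → L) × (Fin R → Fin r → L)) : Prop :=
  (∀ j, t.1 j ∈ T.Vs (Hf a) (T.kap a b)) ∧ (∀ l j, t.2 l j ∈ T.Vs (Hf a) (T.kap a b)) ∧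
    T.gw t.1 (t.2 l₀) ∉ T.d.Le (-K₄) ∧
    (pre (T.Xb (Hf a) (T.kap a b)) m).card <
      (T.Zr (Hf a) (T.kap a b) m l₀ t.1 t.2).ncard * 2 ^ n

/-- The transport relation on witnesses. -/
private def bad2N (t t' : (Fin r → L) × (Fin R → Fin r → L)) : Prop :=
  (∀ j, T.Near (t.1 j) (t'.1 j)) ∧ ∀ l j, T.Near (t.2 l j) (t'.2 l j)

private lemma bad2_Z (hC : T.Cfg Hf K b s N ε) (he : Nat.card k ≤ 2 ^ e)
    (hs : 2 * K * e + 1 ≤ s₀) {i J m' n : ℕ} (hF : s.natDegree + i + J + m' = ε + 1)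
    (hm : K + 1 ≤ m') (m l₀ : Fin R) {a : k[X]} (ha : a ∈ Ae k N ε) :
    ∃ S : Finset ((Fin r → L) × (Fin R → Fin r → L)), S.card ≤ 2 ^ (r * s₀ * (R + 1)) ∧
      ∀ (γ : Fin J → k) t, bad2P T Hf b K₄ n m l₀ (a + X * mu s i J γ ^ 2) t →
        ∃ t₀ ∈ S, bad2N T t₀ t := by
  classical
  have hK := hC.kp ha
  obtain ⟨S, hS, hV⟩ := hK.exists_V' he hs
  refine ⟨(Fintype.piFinset fun _ : Fin r => S) ×ˢ
    (Fintype.piFinset fun _ : Fin R => Fintype.piFinset fun _ : Fin r => S), ?_, ?_⟩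
  · rw [Finset.card_product, Fintype.card_piFinset, Fintype.card_piFinset]
    simp only [Fintype.card_piFinset, Finset.prod_const, Finset.card_univ, Fintype.card_fin]
    rw [← pow_succ', ← pow_mul, show r * s₀ * (R + 1) = s₀ * (r * (R + 1)) by ring, pow_mul 2 s₀]
    exact Nat.pow_le_pow_left hS _
  · rintro γ ⟨p', w'⟩ ⟨h1, h2, -, -⟩
    have hm1 : 1 ≤ m' := by omega
    have hmr : (K : ℝ) + 1 ≤ m' := by exact_mod_cast hm
    rw [hC.flip_H, hC.flip_kap hF hm1 ha] at h1 h2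
    have hd : T.del a b (mu s i J γ) ∈ T.d.Le (-K - 1) :=
      DF.Le.mono (hC.del_le hF hm1 ha γ) (by have : (0 : ℝ) ≤ K := Nat.cast_nonneg K; linarith)
    choose p hp hp1 using fun j => hK.exists_near' (T.del_fix _ _ _) hd (h1 j)
    choose w hw hw1 using fun l j => hK.exists_near' (T.del_fix _ _ _) hd (h2 l j)
    exact ⟨(p, w), by simp [Fintype.mem_piFinset, hV, hp, hw], hp1, hw1⟩

private lemma bad2_Xb {H : AddSubgroup L} {κ δ : L} (hK : T.Kp H κ K) (hs : s.natDegree ≤ K)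
    (hδ : T.Fix δ) {μ : ℝ} (h : δ ∈ T.d.Le (-μ)) {l : Fin R}
    (hl : (K : ℝ) + 4 ^ (l : ℕ) * c + D + 2 * K + 2 ≤ μ) : T.Xb H (κ + δ) l = T.Xb H κ l := by
  ext ξ
  rw [T.mem_Xb, T.mem_Xb]
  exact and_congr_right fun hξ => hK.inK_pert hδ h (T.blk_le hs hξ) (by positivity) hl

private lemma bad2_pre {Γ : Type} [Zero Γ] [DecidableEq Γ] {Y Y' : Fin R → Finset Γ} {m : Fin R}
    (h : ∀ l < m, Y l = Y' l) : pre Y m = pre Y' m := by
  unfold pre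
  congr 1
  funext l
  split_ifs with hl
  · exact h l hl
  · rfl

private lemma bad2_mem_pre {Γ : Type} [Zero Γ] [DecidableEq Γ] {Y : Fin R → Finset Γ}
    {m l : Fin R} {ξ : Fin R → Γ} (h : ξ ∈ pre Y m) (hl : l < m) : ξ l ∈ Y l := by
  have := Fintype.mem_piFinset.1 h l
  rwa [if_pos hl] at this

private lemma bad2_pre_pos {H : AddSubgroup L} {κ : L} (m : Fin R) :
    0 < (pre (T.Xb H κ) m).card := by
  refine Finset.card_pos.2 ⟨0, Fintype.mem_piFinset.2 fun l => ?_⟩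
  split_ifs
  · exact T.zero_mem_Xb l
  · exact Finset.mem_singleton_self _

private lemma bad2_Zr {H : AddSubgroup L} {κ δ : L} (hK : T.Kp H κ K) (hs : s.natDegree ≤ K)
    (he : Nat.card k ≤ 2 ^ e) (hs₀ : 2 * K * e + 1 ≤ s₀) (hc : D ≤ c)
    (hδ : T.Fix δ) {μ : ℝ} (h : δ ∈ T.d.Le (-μ)) {m l₀ : Fin R} (hl : l₀ < m)
    (hμ : (4 : ℝ) ^ (m : ℕ) * c + D + 4 * K + 2 ≤ μ)
    {p p' : Fin r → L} {w w' : Fin R → Fin r → L} (hp : ∀ j, p j ∈ T.Vs H κ)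
    (hw : ∀ l j, w l j ∈ T.Vs H κ) (hp' : ∀ j, p' j ∈ T.Vs H (κ + δ))
    (hw' : ∀ l j, w' l j ∈ T.Vs H (κ + δ)) (n1 : ∀ j, T.Near (p j) (p' j))
    (n2 : ∀ l j, T.Near (w l j) (w' l j)) :
    pre (T.Xb H (κ + δ)) m = pre (T.Xb H κ) m ∧
    T.Zr H (κ + δ) m l₀ p' w' ⊆ {ξ | ξ ∈ pre (T.Xb H κ) m ∧ ∀ x ∈ T.Xb H κ m,
      (∑ l with l ≤ l₀, ∑ a, T.d2 H κ (ξ l) x (p a) (w l a)) +
        T.RK (T.p (comb (bet s R D c) x) * δ * T.Ov H κ l₀ p w ξ) = 0} := by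
  have hK0 : (0 : ℝ) ≤ K := Nat.cast_nonneg K
  have hc0 : (0 : ℝ) ≤ c := Nat.cast_nonneg c
  have hcr : (D : ℝ) ≤ c := by exact_mod_cast hc
  have hlt : ∀ l < m, 4 * ((4 : ℝ) ^ (l : ℕ) * c) ≤ 4 ^ (m : ℕ) * c ∧
      (c : ℝ) ≤ (4 : ℝ) ^ (l : ℕ) * c := by
    intro l hl'
    refine ⟨?_, le_mul_of_one_le_left hc0 (one_le_pow₀ (by norm_num))⟩
    rw [← mul_assoc, ← pow_succ']
    exact mul_le_mul_of_nonneg_right (pow_le_pow_right₀ (by norm_num) hl') hc0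
  have e1 : T.Xb H (κ + δ) m = T.Xb H κ m := bad2_Xb T hK hs hδ h (by linarith)
  have e2 : pre (T.Xb H (κ + δ)) m = pre (T.Xb H κ) m :=
    bad2_pre fun l hl' => bad2_Xb T hK hs hδ h (by have := hlt l hl'; linarith [this.1, this.2])
  refine ⟨e2, ?_⟩
  rintro ξ ⟨h1, h2⟩
  rw [e2] at h1
  refine ⟨h1, fun x hx => ?_⟩
  have hx' : x ∈ T.Xb H (κ + δ) m := e1 ▸ hx
  obtain ⟨n₀, -, vv, ν, B, hB⟩ := T.exists_frm hK he hs₀
  rw [← h2 x hx', Tw.Ov, Finset.mul_sum, T.RK_sum, ← Finset.sum_add_distrib]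
  refine Finset.sum_congr rfl fun l hl' => ?_
  have hlm : l < m := lt_of_le_of_lt (Finset.mem_filter.1 hl').2 hl
  have hξ := T.mem_Xb.1 (bad2_mem_pre h1 hlm)
  have h3 := hlt l hlm
  rw [Finset.mul_sum, T.RK_sum, ← Finset.sum_add_distrib]
  refine Finset.sum_congr rfl fun a _ => ?_
  exact (hK.d2_pert hδ h (T.mem_Xb.1 hx').2 (hp a) (hw l a) (hp' a) (hw' l a) (n1 a) (n2 l a)
    (hB.lift _ hξ.2 _ (hp a)) (hB.lift _ hξ.2 _ (hw l a)) (T.blk_le hs hξ.1) (by positivity)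
    (T.blk_le hs (T.mem_Xb.1 hx).1) (by linarith [h3.1, h3.2]) (by linarith [h3.1, h3.2])).symm

private lemma bad2_n (hC : T.Cfg Hf K b s N ε) (hP : Prm e r R K s₀ J₀ K₃ K₄ D c ε)
    (he : Nat.card k ≤ 2 ^ e) {m l₀ : Fin R} (hl : l₀ < m) {i J m' n : ℕ}
    (hF : s.natDegree + i + J + m' = ε + 1) (hJ : J = 4 ^ (m : ℕ) * c + D + 2 * K + 2)
    (hm : m' = (4 ^ (m : ℕ) * c + D + 5 * K + 3) / 2) {a : k[X]} (ha : a ∈ Ae k N ε)
    {t : (Fin r → L) × (Fin R → Fin r → L)} (ht : bad2P T Hf b K₄ n m l₀ a t) :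
    {γ : Fin J → k | ∃ t', bad2N T t t' ∧
      bad2P T Hf b K₄ n m l₀ (a + X * mu s i J γ ^ 2) t'}.ncard * 2 ^ (D / 2) ≤
        2 ^ (n + (s₀ ^ 2 + 1)) * Nat.card k ^ J := by
  obtain ⟨p, w⟩ := t
  obtain ⟨hp, hw, hg, -⟩ := ht
  have hK := hC.kp ha
  have hm1 : 1 ≤ m' := by omega
  have hm2 : 4 ^ (m : ℕ) * c + D + 5 * K + 2 ≤ 2 * m' := by omega
  have hm3 : (4 : ℝ) ^ (m : ℕ) * c + D + 5 * K + 2 ≤ 2 * m' := by exact_mod_cast hm2
  have hc : D ≤ c := by have := hP.hc; omega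
  have key := T.pairs2 hC hP he ha hl hF hJ hm hp hw hg fun ξ x =>
    ∑ l with l ≤ l₀, ∑ j, T.d2 (Hf a) (T.kap a b) (ξ l) x (p j) (w l j)
  have hpos := bad2_pre_pos T (H := Hf a) (κ := T.kap a b) m
  refine Nat.le_of_mul_le_mul_right ?_ hpos
  rw [mul_right_comm, pow_add, mul_assoc (2 ^ n), mul_assoc (2 ^ n)]
  refine le_trans ?_ (Nat.mul_le_mul_left _ key)
  rw [← mul_assoc]
  refine Nat.mul_le_mul_right _ (bad2_fib _ _ _ _ ?_)
  rintro γ ⟨⟨p', w'⟩, ⟨n1, n2⟩, h1, h2, -, h3⟩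
  rw [hC.flip_H, hC.flip_kap hF hm1 ha] at h1 h2 h3
  obtain ⟨e1, e2⟩ := bad2_Zr T hK hC.s_le he hP.hs hc (T.del_fix _ _ _) (hC.del_le hF hm1 ha γ)
    hl (by linarith) hp hw h1 h2 n1 n2
  rw [e1] at h3
  exact h3.le.trans (Nat.mul_le_mul_right _ (Set.ncard_le_ncard e2 (Set.toFinite _)))

private lemma bad2_one (hC : T.Cfg Hf K b s N ε) (hP : Prm e r R K s₀ J₀ K₃ K₄ D c ε)
    (he : Nat.card k ≤ 2 ^ e) {m l₀ : Fin R} (hl : l₀ < m) :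
    {a | a ∈ Ae k N ε ∧ ∃ t : (Fin r → L) × (Fin R → Fin r → L),
      bad2P T Hf b K₄ ((r * s₀ * R + 1) * (R + 1)) m l₀ a t}.ncard * 2 ^ (2 * R + K) ≤
        (Ae k N ε).card := by
  classical
  obtain ⟨m', hm⟩ : ∃ m', m' = (4 ^ (m : ℕ) * c + D + 5 * K + 3) / 2 := ⟨_, rfl⟩
  obtain ⟨J, hJ⟩ : ∃ J, J = 4 ^ (m : ℕ) * c + D + 2 * K + 2 := ⟨_, rfl⟩
  have hs := hC.s_le
  have e3 := hP.e3
  have h4 : 4 ^ (m : ℕ) * c ≤ 4 ^ R * c :=
    Nat.mul_le_mul_right _ (Nat.pow_le_pow_right (by norm_num) m.2.le)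
  obtain ⟨i, hF⟩ : ∃ i, s.natDegree + i + J + m' = ε + 1 :=
    ⟨ε + 1 - (s.natDegree + J + m'), by omega⟩
  have hm1 : K + 1 ≤ m' := by omega
  let _ : Fintype k := Fintype.ofFinite k
  obtain ⟨n, hn⟩ : ∃ n, n = (r * s₀ * R + 1) * (R + 1) := ⟨_, rfl⟩
  have hD := hP.hD
  rw [← hn] at hD ⊢
  have key := coset2 (Γ := Fin J → k) (Ae k N ε) (fun γ a => a + X * mu s i J γ ^ 2)
    (fun a => by simp [mu_zero]) (fun γ γ' a => by simp only [mu_add, flip_add])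
    (fun γ a ha => hC.flip_mem hF (by omega) ha γ) (bad2P (r := r) T Hf b K₄ n m l₀) (bad2N T)
    (fun t t' h => ⟨fun j => (h.1 j).symm, fun l j => (h.2 l j).symm⟩)
    (fun t t' t'' h h' => ⟨fun j => (h.1 j).trans (h'.1 j), fun l j => (h.2 l j).trans (h'.2 l j)⟩)
    (2 ^ (r * s₀ * (R + 1))) (2 ^ (D / 2)) (2 ^ (n + (s₀ ^ 2 + 1)) * Nat.card k ^ J)
    (fun a ha => bad2_Z T hC he hP.hs hF hm1 m l₀ ha)
    (fun a ha t ht => bad2_n T hC hP he hl hF hJ hm ha ht)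
  have hq : 0 < Nat.card k ^ J := pow_pos Nat.card_pos _
  rw [Fintype.card_fun, Fintype.card_fin, ← Nat.card_eq_fintype_card, ← mul_assoc, ← pow_add,
    mul_right_comm _ (Nat.card k ^ J)] at key
  have k2 := Nat.le_of_mul_le_mul_right key hq
  refine Nat.le_of_mul_le_mul_left (le_trans ?_ k2)
    (by positivity : 0 < 2 ^ (r * s₀ * (R + 1) + (n + (s₀ ^ 2 + 1))))
  rw [mul_comm, mul_assoc, ← pow_add]
  exact Nat.mul_le_mul_left _ (Nat.pow_le_pow_right (by norm_num) (by omega))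

theorem Tw.bad2 (hC : T.Cfg Hf K b s N ε) (hP : Prm e r R K s₀ J₀ K₃ K₄ D c ε)
    (he : Nat.card k ≤ 2 ^ e) :
    {a | a ∈ Ae k N ε ∧ ¬ T.Gd2 (Hf a) (T.kap a b) r K₄ ((r * s₀ * R + 1) * (R + 1))}.ncard *
      2 ^ K ≤ (Ae k N ε).card := by
  classical
  let B : Fin R × Fin R → Finset k[X] := fun q => (Ae k N ε).filter fun a => q.2 < q.1 ∧
    ∃ t : (Fin r → L) × (Fin R → Fin r → L),
      bad2P T Hf b K₄ ((r * s₀ * R + 1) * (R + 1)) q.1 q.2 a t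
  have h1 : ∀ q, (B q).card * 2 ^ (2 * R + K) ≤ (Ae k N ε).card := by
    intro q
    by_cases hl : q.2 < q.1
    · refine le_trans (Nat.mul_le_mul_right _ ?_) (bad2_one T hC hP he hl)
      rw [← Set.ncard_coe_finset]
      refine Set.ncard_le_ncard (fun a ha => ?_)
        ((Ae k N ε).finite_toSet.subset fun a ha => ha.1)
      have := Finset.mem_filter.1 (Finset.mem_coe.1 ha)
      exact ⟨this.1, this.2.2⟩
    · have : B q = ∅ := Finset.filter_eq_empty_iff.2 fun a _ h => hl h.1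
      simp [this]
  have h2 : {a | a ∈ Ae k N ε ∧
      ¬ T.Gd2 (Hf a) (T.kap a b) r K₄ ((r * s₀ * R + 1) * (R + 1))}.ncard ≤ ∑ q, (B q).card := by
    refine le_trans ?_ Finset.card_biUnion_le
    rw [← Set.ncard_coe_finset]
    refine Set.ncard_le_ncard ?_ (Finset.finite_toSet _)
    rintro a ⟨ha, h⟩
    unfold Tw.Gd2 at h
    push Not at h
    obtain ⟨m, l₀, hl, p, w, hp, hw, hg, hlt⟩ := h
    exact Finset.mem_coe.2 (Finset.mem_biUnion.2 ⟨(m, l₀), Finset.mem_univ _,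
      Finset.mem_filter.2 ⟨ha, hl, (p, w), hp, hw, hg, hlt⟩⟩)
  have h3 : (∑ q, (B q).card) * 2 ^ (2 * R + K) ≤ 2 ^ (2 * R) * (Ae k N ε).card := by
    rw [Finset.sum_mul]
    refine (Finset.sum_le_sum fun q _ => h1 q).trans ?_
    rw [Finset.sum_const, Finset.card_univ, Fintype.card_prod, Fintype.card_fin, smul_eq_mul,
      two_mul, pow_add]
    exact Nat.mul_le_mul_right _ (Nat.mul_le_mul Nat.lt_two_pow_self.le Nat.lt_two_pow_self.le)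
  refine Nat.le_of_mul_le_mul_left (le_trans ?_ h3) (by positivity : 0 < 2 ^ (2 * R))
  rw [pow_add, mul_left_comm]
  exact Nat.mul_le_mul_right _ h2

end Pool.Agent.Lib.MP_788af2_nt.AS
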