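import Pool.Agent.Lib.MP_788af2_nt.TT.Fix

/-!
Degrees in the blocks, and the exceptional characters.
-/

set_option linter.unusedSectionVars false

namespace Pool.Agent.Lib.MP_788af2_nt.AS

open Polynomial WeierstrassCurve Pool.Agent.Lib.MP_a3f657_nt.Two

variable {k : Type} [Field k] [Finite k] [CharP k 2] {s : k[X]} {R D c K : ℕ}

private lemma cn2_cases (a : ZMod 2) : a = 0 ∨ a = 1 := by
  revert a
  decide

private lemma cn2_mem {l : Fin R} {ξ : G (Ix fun _ : Fin R => D)} :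
    ξ ∈ Blk (fun _ : Fin R => D) l ↔ ∀ i : Ix fun _ : Fin R => D, i.1 ≠ l → ξ i = 0 := by
  simp [Blk]

lemma card_Blk (l : Fin R) : (Blk (fun _ : Fin R => D) l).card = 2 ^ D := by
  have h : (Finset.univ : Finset (Fin D → ZMod 2)).card = 2 ^ D := by
    rw [Finset.card_univ, Fintype.card_fun, ZMod.card, Fintype.card_fin]
  rw [← h]
  refine Finset.card_nbij' (fun ξ j => ξ ⟨l, j⟩)
    (fun h (i : Ix fun _ : Fin R => D) => if i.1 = l then h i.2 else 0)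
    (fun _ _ => by simp) (fun h _ => Finset.mem_coe.2 (cn2_mem.2 fun i hi => if_neg hi)) ?_ ?_
  · intro ξ hξ
    funext i
    by_cases hi : i.1 = l
    · obtain ⟨a, j⟩ := i
      subst hi
      exact if_pos rfl
    · exact (if_neg hi).trans (cn2_mem.1 (Finset.mem_coe.1 hξ) i hi).symm
  · intro h _
    funext j
    exact if_pos rfl

lemma zero_mem_Blk (l : Fin R) : 0 ∈ Blk (fun _ : Fin R => D) l := cn2_mem.2 fun _ _ => rfl

lemma add_mem_Blk {l : Fin R} {x y : G (Ix fun _ : Fin R => D)}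
    (hx : x ∈ Blk (fun _ : Fin R => D) l) (hy : y ∈ Blk (fun _ : Fin R => D) l) :
    x + y ∈ Blk (fun _ : Fin R => D) l := cn2_mem.2 fun i hi => by
  rw [Pi.add_apply, cn2_mem.1 hx i hi, cn2_mem.1 hy i hi, add_zero]

lemma dvd_bet (i : Ix fun _ : Fin R => D) : s ∣ bet s R D c i := dvd_mul_right _ _

lemma dvd_comb_bet (ξ : G (Ix fun _ : Fin R => D)) : s ∣ comb (bet s R D c) ξ :=
  Finset.dvd_sum fun i _ => (dvd_bet i).mul_left _

private lemma cn2_ne {I : Type} [Fintype I] {j : I → ℕ} (hj : Function.Injective j) {ξ : G I}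
    (h : ξ ≠ 0) : (∑ i, zc k[X] (ξ i) * X ^ j i) ≠ 0 := by
  obtain ⟨i, hi⟩ := Function.ne_iff.1 h
  have h1 : ξ i = 1 := (cn2_cases _).resolve_left hi
  intro h0
  have h2 := congrArg (fun p : k[X] => p.coeff (j i)) h0
  simp only [finsetSum_coeff, coeff_zero] at h2
  rw [Finset.sum_eq_single i, h1, map_one, one_mul, coeff_X_pow_self] at h2
  · exact one_ne_zero h2
  · intro i' _ hi'
    have n1 : j i ≠ j i' := fun e => hi' (hj e).symm
    rcases cn2_cases (ξ i') with e | e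
    · simp [e]
    · rw [e, map_one, one_mul, coeff_X_pow, if_neg n1]
  · simp

private lemma cn2_lt {a a' x x' : ℕ} (h : a < a') (hx : x < c) : 4 ^ a * c + x < 4 ^ a' * c + x' := by
  have h1 : 4 ^ (a + 1) ≤ 4 ^ a' := Nat.pow_le_pow_right (by norm_num) h
  have h2 : 1 ≤ 4 ^ a := Nat.one_le_pow _ _ (by norm_num)
  have h3 := Nat.mul_le_mul_right c h1
  have h4 := Nat.mul_le_mul_right c h2
  rw [pow_succ] at h3
  nlinarith

lemma comb_bet_ne (hs : s ≠ 0) (hc : D ≤ c) (ξ : G (Ix fun _ : Fin R => D)) (h : ξ ≠ 0) :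
    comb (bet s R D c) ξ ≠ 0 := by
  have e : comb (bet s R D c) ξ =
      s * ∑ i : Ix fun _ : Fin R => D, zc k[X] (ξ i) * X ^ (4 ^ (i.1 : ℕ) * c + i.2) := by
    rw [comb, Finset.mul_sum]
    exact Finset.sum_congr rfl fun i _ => by rw [bet]; ring
  rw [e]
  refine mul_ne_zero hs (cn2_ne ?_ h)
  rintro ⟨a, x⟩ ⟨a', x'⟩ e1
  have e2 : 4 ^ (a : ℕ) * c + x = 4 ^ (a' : ℕ) * c + x' := e1
  have hx : (x : ℕ) < c := lt_of_lt_of_le x.2 hc
  have hx' : (x' : ℕ) < c := lt_of_lt_of_le x'.2 hc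
  have e3 : a = a' := by
    rcases lt_trichotomy (a : ℕ) a' with h1 | h1 | h1
    · exact absurd e2 (cn2_lt h1 hx).ne
    · exact Fin.ext h1
    · exact absurd e2 (cn2_lt h1 hx').ne'
  subst e3
  have e4 : x = x' := Fin.ext (by omega)
  rw [e4]

private lemma cn2_bet_deg (hs : s.natDegree ≤ K) (i : Ix fun _ : Fin R => D) :
    (bet s R D c i).natDegree ≤ K + 4 ^ (i.1 : ℕ) * c + D := by
  have h1 : (i.2 : ℕ) < D := i.2.2
  refine natDegree_mul_le.trans ?_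
  rw [natDegree_X_pow]
  omega

private lemma cn2_bet_deg' (hs : s.natDegree ≤ K) (i : Ix fun _ : Fin R => D) :
    (bet s R D c i).natDegree ≤ K + 4 ^ R * c + D := by
  have h1 : 4 ^ (i.1 : ℕ) ≤ 4 ^ R := Nat.pow_le_pow_right (by norm_num) i.1.2.le
  have h2 := Nat.mul_le_mul_right c h1
  have h3 := cn2_bet_deg (c := c) hs i
  omega

private lemma cn2_zc_deg (u : ZMod 2) (q : k[X]) : (zc k[X] u * q).natDegree ≤ q.natDegree := by
  rcases cn2_cases u with e | e <;> simp [e]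

lemma comb_bet_deg (hs : s.natDegree ≤ K) (ξ : G (Ix fun _ : Fin R => D)) :
    (comb (bet s R D c) ξ).natDegree ≤ K + 4 ^ R * c + D :=
  natDegree_sum_le_of_forall_le _ _ fun i _ => (cn2_zc_deg _ _).trans (cn2_bet_deg' hs i)

lemma gam_bet (hs : s.natDegree ≤ K) :
    gam (bet s R D c) Finset.univ ≤ ((R * D * (K + 4 ^ R * c + D + 1) : ℕ) : ℝ) := by
  have h1 : (Finset.univ : Finset (Ix fun _ : Fin R => D)).card = R * D := by simp
  have h2 := Finset.sum_le_card_nsmul (Finset.univ : Finset (Ix fun _ : Fin R => D))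
    (fun i => (((bet s R D c i).natDegree : ℝ) + 1 / 2)) ((K + 4 ^ R * c + D + 1 : ℕ) : ℝ)
    fun i _ => by
      have h3 : (((bet s R D c i).natDegree : ℕ) : ℝ) ≤ ((K + 4 ^ R * c + D : ℕ) : ℝ) :=
        Nat.cast_le.2 (cn2_bet_deg' hs i)
      rw [Nat.cast_add _ 1, Nat.cast_one]
      linarith
  rw [h1, nsmul_eq_mul, ← Nat.cast_mul] at h2
  exact h2

private lemma cn2_sq (m n : ℕ) (η : G (Fin n)) :
    (∑ j : Fin n, zc k[X] (η j) * X ^ (m + (j : ℕ))) ^ 2 =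
      ∑ j : Fin n, zc k[X] (η j) * X ^ (2 * m + 2 * (j : ℕ)) := by
  rw [CharTwo.sum_sq]
  refine Finset.sum_congr rfl fun j _ => ?_
  rcases cn2_cases (η j) with e | e
  · simp [e]
  · rw [e, map_one, one_mul, one_mul, ← pow_mul]
    congr 1
    ring

private lemma cn2_v (m n : ℕ) {η : G (Fin n)} (h : η ≠ 0) :
    (∑ j : Fin n, zc k[X] (η j) * X ^ (m + (j : ℕ))) ≠ 0 ∧
      m ≤ (∑ j : Fin n, zc k[X] (η j) * X ^ (m + (j : ℕ))).natDegree := by
  have h1 : (∑ j : Fin n, zc k[X] (η j) * X ^ (m + (j : ℕ))) ≠ 0 :=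
    cn2_ne (j := fun j : Fin n => m + (j : ℕ)) (fun a b e => Fin.ext (by simpa using e)) h
  refine ⟨h1, ?_⟩
  have h2 : (X : k[X]) ^ m ∣ ∑ j : Fin n, zc k[X] (η j) * X ^ (m + (j : ℕ)) :=
    Finset.dvd_sum fun _ _ => Dvd.dvd.mul_left (pow_dvd_pow _ (Nat.le_add_right _ _)) _
  simpa using natDegree_le_of_dvd h2 h1

variable {L : Type} [Field L] [CharP L 2] (T : Tw (bet s R D c) L)

lemma Tw.blk_le (hs : s.natDegree ≤ K) {l : Fin R} {ξ : G (Ix fun _ : Fin R => D)}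
    (h : ξ ∈ Blk (fun _ : Fin R => D) l) :
    T.p (comb (bet s R D c) ξ) ∈ T.d.Le ((K : ℝ) + 4 ^ (l : ℕ) * c + D) := by
  have h1 : (comb (bet s R D c) ξ).natDegree ≤ K + 4 ^ (l : ℕ) * c + D := by
    refine natDegree_sum_le_of_forall_le _ _ fun i _ => ?_
    by_cases hi : i.1 = l
    · exact (cn2_zc_deg _ _).trans (hi ▸ cn2_bet_deg hs i)
    · simp [cn2_mem.1 h i hi]
  refine DF.Le.mono (T.p_mem _) ?_
  exact_mod_cast h1

private lemma cn2_big {v : k[X]} {m : ℕ} (hv : v ≠ 0 ∧ m ≤ v.natDegree) {w : L} {r thr : ℝ}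
    (hw : w ∉ T.d.Le r) (h : thr ≤ m + r) : T.p v * w ∉ T.d.Le thr := by
  intro h1
  rw [mul_comm] at h1
  have h2 : (m : ℝ) ≤ v.natDegree := Nat.cast_le.2 hv.2
  exact hw (DF.Le.of_mul h1 (T.p_ne hv.1) (by rw [T.deg_p hv.1]; linarith))

private lemma cn2_key (cc : ℕ) {g : L} {dlo thr : ℝ} (h1 : g ∉ T.d.Le dlo)
    (h2 : 2 * thr + 1 ≤ cc + dlo) : ∃ ε : ℕ, ε ≤ 1 ∧ ∀ (n : ℕ) (η : G (Fin n)), η ≠ 0 →
      T.P.c1 (T.p (∑ j : Fin n, zc k[X] (η j) * X ^ (cc + ε + 2 * (j : ℕ))) * g) ∉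
        T.d.Le thr := by
  by_cases h : T.P.c1 g ∈ T.d.Le ((dlo - 1) / 2)
  · have h0 : T.P.c0 g ∉ T.d.Le (dlo / 2) := by
      intro h0
      have hb : T.P.b ∈ T.d.Le 1 := by simpa [T.p_X] using T.p_mem X
      refine h1 ?_
      rw [T.P.spec g]
      exact add_mem (DF.Le.sq h0 (by linarith))
        (DF.Le.mul hb (DF.Le.sq h (le_refl _)) (by linarith))
    obtain ⟨ε, m, e1, e2⟩ : ∃ ε m, ε ≤ 1 ∧ cc + ε = 2 * m + 1 :=
      ⟨1 - cc % 2, cc / 2, by omega, by omega⟩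
    refine ⟨ε, e1, fun n η hη => ?_⟩
    have e3 : (∑ j : Fin n, zc k[X] (η j) * X ^ (cc + ε + 2 * (j : ℕ))) =
        (∑ j : Fin n, zc k[X] (η j) * X ^ (m + (j : ℕ))) ^ 2 * X := by
      rw [cn2_sq, Finset.sum_mul, e2]
      exact Finset.sum_congr rfl fun j _ => by ring
    have e4 : (cc : ℝ) ≤ 2 * m + 1 := by exact_mod_cast (by omega : cc ≤ 2 * m + 1)
    rw [e3, map_mul, map_pow, T.p_X, mul_assoc, PB.c1_sq_mul, PB.c1_b_mul]
    exact cn2_big T (cn2_v m n hη) h0 (by linarith)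
  · obtain ⟨ε, m, e1, e2⟩ : ∃ ε m, ε ≤ 1 ∧ cc + ε = 2 * m :=
      ⟨cc % 2, (cc + 1) / 2, by omega, by omega⟩
    refine ⟨ε, e1, fun n η hη => ?_⟩
    have e4 : (cc : ℝ) ≤ 2 * m := by exact_mod_cast (by omega : cc ≤ 2 * m)
    rw [e2, ← cn2_sq, map_pow, PB.c1_sq_mul]
    exact cn2_big T (cn2_v m n hη) h (by linarith)

theorem Tw.cnt2 (hs : s ≠ 0) (l : Fin R) {g : L} (hg : T.Fix g) {dlo thr : ℝ}
    (h1 : g ∉ T.d.Le dlo) (h2 : 2 * thr + 1 ≤ 4 ^ (l : ℕ) * c + dlo) :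
    {ξ | ξ ∈ Blk (fun _ : Fin R => D) l ∧
      T.P.c1 (T.p (comb (bet s R D c) ξ) * g) ∈ T.d.Le thr}.ncard * 2 ^ (D / 2) ≤ 2 ^ D := by
  classical
  have _ := hg
  have h3 : T.p s * g ∉ T.d.Le dlo :=
    cn2_big T (m := 0) ⟨hs, Nat.zero_le _⟩ h1 (by simp)
  obtain ⟨ε, e1, key⟩ := cn2_key T (4 ^ (l : ℕ) * c) h3 (thr := thr) (by exact_mod_cast h2)
  let em : Fin (D / 2) → Ix fun _ : Fin R => D := fun j =>
    ⟨l, (⟨ε + 2 * j, by have := j.2; omega⟩ : Fin D)⟩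
  let ex : G (Fin (D / 2)) → G (Ix fun _ : Fin R => D) := fun η i =>
    ∑ j, if em j = i then η j else 0
  have x1 : ∀ η η', ex (η + η') = ex η + ex η' := by
    intro η η'
    funext i
    simp only [ex, Pi.add_apply, ← Finset.sum_add_distrib]
    refine Finset.sum_congr rfl fun j _ => ?_
    split_ifs <;> simp
  have x2 : ∀ η, comb (bet s R D c) (ex η) =
      (∑ j : Fin (D / 2), zc k[X] (η j) * X ^ (4 ^ (l : ℕ) * c + ε + 2 * (j : ℕ))) * s := by
    intro η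
    simp only [comb, ex, map_sum, Finset.sum_mul]
    rw [Finset.sum_comm]
    refine Finset.sum_congr rfl fun j _ => ?_
    rw [Finset.sum_eq_single (em j), if_pos rfl, add_assoc]
    · rw [mul_assoc, mul_comm _ s]
      rfl
    · intro i _ hi
      rw [if_neg hi.symm, map_zero, zero_mul]
    · simp
  have x3 : ∀ η, ex η ∈ Blk (fun _ : Fin R => D) l := fun η => cn2_mem.2 fun i hi =>
    Finset.sum_eq_zero fun j _ => if_neg fun e => hi (by rw [← e])
  have x4 : ∀ ξ ξ' : G (Ix fun _ : Fin R => D), comb (bet s R D c) (ξ + ξ') =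
      comb (bet s R D c) ξ + comb (bet s R D c) ξ' := fun ξ ξ' => by
    simp only [comb, Pi.add_apply, map_add, add_mul, Finset.sum_add_distrib]
  have z : ∀ {I : Type} (x : G I), x + x = 0 := fun x => by
    funext i
    exact CharTwo.add_self_eq_zero _
  have c1 : (Finset.univ : Finset (G (Fin (D / 2)))).card = 2 ^ (D / 2) := by simp
  have c0 : {ξ | ξ ∈ Blk (fun _ : Fin R => D) l ∧
      T.P.c1 (T.p (comb (bet s R D c) ξ) * g) ∈ T.d.Le thr} =
      ↑((Blk (fun _ : Fin R => D) l).filter fun ξ =>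
        T.P.c1 (T.p (comb (bet s R D c) ξ) * g) ∈ T.d.Le thr) := by
    ext ξ
    simp
  rw [c0, Set.ncard_coe_finset, ← c1, ← card_Blk (D := D) l, ← Finset.card_product]
  refine Finset.card_le_card_of_injOn (fun p => p.1 + ex p.2) (fun p hp => ?_) ?_
  · have hp1 := (Finset.mem_filter.1 (Finset.mem_product.1 (Finset.mem_coe.1 hp)).1).1
    exact Finset.mem_coe.2 (add_mem_Blk hp1 (x3 _))
  rintro ⟨ξ, η⟩ a ⟨ξ', η'⟩ b e
  have a1 := (Finset.mem_filter.1 (Finset.mem_product.1 (Finset.mem_coe.1 a)).1).2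
  have b1 := (Finset.mem_filter.1 (Finset.mem_product.1 (Finset.mem_coe.1 b)).1).2
  have e3 : ξ + ex η = ξ' + ex η' := e
  have e4 : ex (η + η') = ξ + ξ' := by
    rw [x1]
    linear_combination e3 + z (ex η') - z ξ
  have e5 : η + η' = 0 := by
    by_contra n
    refine key _ _ n ?_
    rw [← mul_assoc, ← map_mul, ← x2, e4, x4, map_add, add_mul, PB.c1_add]
    exact add_mem a1 b1
  have e6 : η = η' := by linear_combination e5 - z η'
  subst e6
  rw [add_right_cancel e3]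

end Pool.Agent.Lib.MP_788af2_nt.AS
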