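import Pool.Agent.Lib.MP_788af2_nt.TT.Col

/-!
The first and second derivatives of the pairing.
-/

set_option linter.unusedSectionVars false

namespace Pool.Agent.Lib.MP_788af2_nt.AS

open Polynomial WeierstrassCurve Pool.Agent.Lib.MP_a3f657_nt.Two

namespace Tw

variable {k : Type} [Field k] [Finite k] [CharP k 2] {I : Type} [Fintype I] [DecidableEq I]
  {β : I → k[X]} {L : Type} [Field L] [CharP L 2] (T : Tw β L)

variable {H : AddSubgroup L} {κ z w h h' zh wh zt wt : L} {K : ℕ} {ξ ξ' : G I}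

private lemma d12_cases (u : ZMod 2) : u = 0 ∨ u = 1 := by revert u; decide

private lemma d12_two (a b : ZMod 2) : a + b + b = a := by revert a b; decide

private lemma d12_eq (a b c d : ZMod 2) (h : a + c + (b + d) = 0) : a + b = c + d := by
  revert a b c d; decide

private lemma d12_comb {R : Type} [CommRing R] [CharP R 2] (γ : I → R) (ξ ξ' : G I) :
    comb γ (ξ + ξ') = comb γ ξ + comb γ ξ' := by
  simp only [comb, Pi.add_apply, map_add, add_mul, Finset.sum_add_distrib]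

private lemma d12_yy (ξ ξ' : G I) : T.yy (ξ + ξ') = T.yy ξ + T.yy ξ' := by
  rw [yy_eq, yy_eq, yy_eq, d12_comb, map_add, CharTwo.add_sq, mul_add]

private lemma d12_expand (x y h : L) (u : G I → ZMod 2) :
    T.R (x * (y * ∑ g, zc L (u g) * T.σ g h)) = ∑ g, u g * T.R (x * (y * T.σ g h)) := by
  rw [Finset.mul_sum, Finset.mul_sum, R_sum]
  refine Finset.sum_congr rfl fun g _ => ?_
  rw [← R_zc_mul]
  congr 1
  ring

private lemma d12_tr (h : L) : T.tr h = ∑ g, zc L ((fun _ => 1 : G I → ZMod 2) g) * T.σ g h := by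
  simp only [tr, map_one, one_mul]

private lemma d12_c1_comb (ξ : G I) : T.P.c1 (comb T.θ ξ) = T.p (comb β ξ) :=
  (T.P.uniq (T.comb_spec ξ)).2

private lemma d12_sq (hz : T.Kr κ z) : z * z / T.bh κ = 1 * z / T.bh κ + T.P.c1 z ^ 2 := by
  have h0 := T.bh_ne κ
  have h1 : z * z = z + T.bh κ * T.P.c1 z ^ 2 := by
    have h2 : wp z = T.bh κ * T.P.c1 z ^ 2 := hz
    rw [← h2, wp]
    grind
  rw [h1]
  field_simp

variable {T} in
lemma HG.sym (hH : T.HG H K) (h1 : h ∈ H) (h2 : h' ∈ H) (ξ : G I) (u : G I → ZMod 2) :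
    T.R (comb T.θ ξ * (h' * ∑ g, zc L (u g) * T.σ g h)) =
      T.R (comb T.θ ξ * (h * ∑ g, zc L (u g) * T.σ g h')) := by
  rw [d12_expand, d12_expand]
  refine Finset.sum_congr rfl fun g _ => ?_
  congr 1
  rw [← T.R_σ g, map_mul, map_mul, σ_σ, σ_comb, add_mul, R_add, R_zc_mul,
    hH.iso _ (hH.σ_mem g _ h2) _ h1, mul_zero, add_zero, mul_comm h]

variable {T} in
lemma HG.quad (hH : T.HG H K) (h1 : h ∈ H) (ξ : G I) (u : G I → ZMod 2) (hu : u 0 = 1) :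
    T.R (comb T.θ ξ * (h * ∑ g, zc L (u g) * T.σ g h)) = T.RK (T.yy ξ * T.tr h ^ 2) := by
  rw [d12_expand, Finset.sum_eq_single 0]
  · have e1 : comb T.θ ξ * (h * h) = h ^ 2 * comb T.θ ξ := by ring
    have e2 : T.yy ξ * T.tr h ^ 2 = T.P.b * (T.p (comb β ξ) * T.tr h) ^ 2 := by
      rw [yy_eq]; ring
    have f2 : T.Fix (T.P.b * (T.p (comb β ξ) * T.tr h) ^ 2) :=
      T.fix_b.mul (((T.fix_p _).mul (T.fix_tr h)).pow 2)
    rw [hu, one_mul, T.σ_zero, e1, ← R_c1, PB.c1_sq_mul, d12_c1_comb, mul_comm h,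
      T.R_fix_mul (T.fix_p _), e2, ← T.RK_c1 f2, PB.c1_b_sq]
  · intro g _ hg
    rcases d12_cases (ξ ⬝ᵥ g) with e | e
    · have e1 : T.σ g (comb T.θ ξ * (h * T.σ g h)) = comb T.θ ξ * (h * T.σ g h) := by
        rw [map_mul, map_mul, σ_σ, σ_comb, e, map_zero, add_zero, mul_comm h]
      rw [R_eq_RK, T.tr_of_inv hg e1, RK_zero, mul_zero]
    · rw [hH.iso' h h1 ξ g e, mul_zero]
  · intro h0
    exact absurd (Finset.mem_univ _) h0

variable {T} in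
private lemma d12_sym1 (hH : T.HG H K) (h1 : h ∈ H) (h2 : h' ∈ H) (ξ : G I) :
    T.R (comb T.θ ξ * (h' * T.tr h)) = T.R (comb T.θ ξ * (h * T.tr h')) := by
  rw [d12_tr, d12_tr]
  exact hH.sym h1 h2 ξ _

variable {T} in
private lemma d12_symH (hH : T.HG H K) (h1 : h ∈ H) (h2 : h' ∈ H) (ξ ξ' : G I) :
    T.R (comb T.θ ξ' * (h' * T.trH ξ h)) = T.R (comb T.θ ξ' * (h * T.trH ξ h')) :=
  hH.sym h1 h2 ξ' fun g => 1 + ξ ⬝ᵥ g

private lemma d12_trH_add (ξ : G I) (x y : L) : T.trH ξ (x + y) = T.trH ξ x + T.trH ξ y := by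
  simp only [trH, map_add (T.σ _), mul_add, Finset.sum_add_distrib]

variable {T} in
private lemma d12_trH_mem (hH : T.HG H K) (h1 : h ∈ H) (ξ : G I) : T.trH ξ h ∈ H := by
  refine sum_mem fun g _ => ?_
  rcases d12_cases (1 + ξ ⬝ᵥ g) with e | e
  · rw [e, map_zero, zero_mul]
    exact zero_mem _
  · rw [e, map_one, one_mul]
    exact hH.σ_mem g _ h1

variable {T} in
private lemma d12_diff {zh' zt' : L} (hH : T.HG H K) (h1 : T.Lft H κ ξ z zh zt)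
    (h2 : T.Lft H κ ξ z zh' zt') : zh + zh' ∈ T.Vs H κ := by
  refine ⟨⟨h1.ker.add h2.ker, ?_⟩, fun g => ?_⟩
  · rw [PB.c1_add, ← h1.trH_eq, ← h2.trH_eq]
    exact add_mem (d12_trH_mem hH h1.mem ξ) (d12_trH_mem hH h2.mem ξ)
  · rw [map_add, h1.act, h2.act]
    grind

variable {T} in
lemma Kp.lf_spec (hK : T.Kp H κ K) (hz : z ∈ T.Vs H κ) :
    T.lf H (T.P.c1 z) ∈ H ∧ T.tr (T.lf H (T.P.c1 z)) = T.P.c1 z :=
  Classical.epsilon_spec (p := fun h' => h' ∈ H ∧ T.tr h' = T.P.c1 z)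
    (hK.hg.lift _ hz.1.2 (Fix.c1 hz.2))

variable {T} in
lemma Kp.d1_eq (hK : T.Kp H κ K) (hz : z ∈ T.Vs H κ) (hw : w ∈ T.Vs H κ) (h1 : wt ∈ H)
    (h2 : T.tr wt = T.P.c1 w) (ξ : G I) : T.d1 H κ ξ z w =
      T.RK (T.yy ξ * (z * w / T.bh κ)) + T.R (comb T.θ ξ * (wt * T.P.c1 z)) := by
  obtain ⟨a1, a2⟩ := hK.lf_spec hz
  obtain ⟨b1, b2⟩ := hK.lf_spec hw
  have e1 := d12_sym1 hK.hg a1 b1 ξ
  have e2 := d12_sym1 hK.hg a1 h1 ξ
  rw [a2, b2] at e1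
  rw [a2, h2] at e2
  rw [d1, e1, e2]

variable {T} in
lemma Kp.d1_symm (hK : T.Kp H κ K) (hz : z ∈ T.Vs H κ) (hw : w ∈ T.Vs H κ) (ξ : G I) :
    T.d1 H κ ξ z w = T.d1 H κ ξ w z := by
  obtain ⟨a1, a2⟩ := hK.lf_spec hz
  obtain ⟨b1, b2⟩ := hK.lf_spec hw
  have e1 := d12_sym1 hK.hg a1 b1 ξ
  rw [a2, b2] at e1
  rw [d1, d1, e1, mul_comm z w]

variable {T} in
lemma Kp.d1_wu (hK : T.Kp H κ K) (hz : z ∈ T.Vs H κ) (ξ : G I) :
    T.d1 H κ ξ z z = T.d1 H κ ξ 1 z := by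
  obtain ⟨a1, a2⟩ := hK.lf_spec hz
  have e1 := hK.hg.quad a1 ξ (fun _ => 1) rfl
  rw [← d12_tr, a2] at e1
  rw [d1, d1, e1, d12_sq T hz.1.1, mul_add, RK_add, d12_two, PB.c1_one, mul_zero, mul_zero, R_zero,
    add_zero]

lemma d1_add (H : AddSubgroup L) (κ : L) (ξ ξ' : G I) (z w : L) :
    T.d1 H κ (ξ + ξ') z w = T.d1 H κ ξ z w + T.d1 H κ ξ' z w := by
  rw [d1, d1, d1, d12_yy, d12_comb, add_mul, add_mul, RK_add, R_add, add_add_add_comm]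

lemma InK_zero (H : AddSubgroup L) (κ : L) : T.InK H κ 0 := by
  intro z _ w _
  have e := T.d1_add H κ 0 0 z w
  rw [add_zero] at e
  rw [e]
  exact CharTwo.add_self_eq_zero _

variable {T} in
lemma InK.add (h1 : T.InK H κ ξ) (h2 : T.InK H κ ξ') : T.InK H κ (ξ + ξ') := by
  intro z hz w hw
  rw [d1_add, h1 z hz w hw, h2 z hz w hw, add_zero]

lemma lz_spec (h1 : ∃ zh zt, T.Lft H κ ξ z zh zt) :
    T.Lft H κ ξ z (T.lz H κ ξ z).1 (T.lz H κ ξ z).2 := by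
  obtain ⟨a, b, h⟩ := h1
  exact Classical.epsilon_spec (p := fun q : L × L => T.Lft H κ ξ z q.1 q.2) ⟨(a, b), h⟩

variable {T} in
lemma Kp.E2_fix (hK : T.Kp H κ K) (hz : z ∈ T.Vs H κ) (hw : w ∈ T.Vs H κ)
    (h1 : T.Lft H κ ξ z zh zt) (h2 : T.Lft H κ ξ w wh wt) : T.Fix (T.E2 κ z zh w wh) := by
  refine Fix.div (fun g => ?_) (T.bh_fix hK.fix)
  rw [map_add, map_add, map_mul, map_mul, map_mul, h1.act, h2.act, hz.2 g, hw.2 g]
  grind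

variable {T} in
theorem Kp.d2_eq (hK : T.Kp H κ K) (hξ : T.InK H κ ξ') (hz : z ∈ T.Vs H κ) (hw : w ∈ T.Vs H κ)
    (h1 : T.Lft H κ ξ z zh zt) (h2 : T.Lft H κ ξ w wh wt) : T.d2 H κ ξ ξ' z w =
      T.RK (T.yy ξ' * T.E2 κ z zh w wh) + T.R (comb T.θ ξ' * (wt * T.P.c1 zh)) := by
  have g1 := T.lz_spec ⟨_, _, h1⟩
  have g2 := T.lz_spec ⟨_, _, h2⟩
  rw [d2]
  generalize (T.lz H κ ξ z).1 = zh0 at g1 ⊢
  generalize (T.lz H κ ξ z).2 = zt0 at g1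
  generalize (T.lz H κ ξ w).1 = wh0 at g2 ⊢
  generalize (T.lz H κ ξ w).2 = wt0 at g2 ⊢
  have hv := d12_diff hK.hg g1 h1
  have hv' := d12_diff hK.hg g2 h2
  have sA : T.RK (T.yy ξ' * T.E2 κ z zh0 w wh0) + T.R (comb T.θ ξ' * (wt0 * T.P.c1 zh0)) =
      T.RK (T.yy ξ' * T.E2 κ z zh w wh0) + T.R (comb T.θ ξ' * (wt0 * T.P.c1 zh)) := by
    have e := hξ _ hv _ hw
    rw [hK.d1_eq hv hw g2.mem g2.tr_eq] at e
    refine d12_eq _ _ _ _ ?_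
    have e1 : T.yy ξ' * T.E2 κ z zh0 w wh0 + T.yy ξ' * T.E2 κ z zh w wh0 =
        T.yy ξ' * ((zh0 + zh) * w / T.bh κ) := by
      rw [← mul_add, E2, E2, ← add_div]
      congr 2
      grind
    rw [← RK_add, ← R_add, e1, ← mul_add, ← mul_add, ← PB.c1_add]
    exact e
  have sB : T.RK (T.yy ξ' * T.E2 κ z zh w wh0) + T.R (comb T.θ ξ' * (wt0 * T.P.c1 zh)) =
      T.RK (T.yy ξ' * T.E2 κ z zh w wh) + T.R (comb T.θ ξ' * (wt * T.P.c1 zh)) := by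
    have e := hξ _ hv' _ hz
    rw [hK.d1_eq hv' hz h1.mem h1.tr_eq] at e
    refine d12_eq _ _ _ _ ?_
    have e1 : T.yy ξ' * T.E2 κ z zh w wh0 + T.yy ξ' * T.E2 κ z zh w wh =
        T.yy ξ' * ((wh0 + wh) * z / T.bh κ) := by
      rw [← mul_add, E2, E2, ← add_div]
      congr 2
      grind
    rw [← RK_add, ← R_add, e1, ← mul_add, ← add_mul, ← h1.trH_eq,
      d12_symH hK.hg h1.mem (add_mem g2.mem h2.mem), d12_trH_add, g2.trH_eq, h2.trH_eq,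
      ← PB.c1_add]
    exact e
  rw [sA, sB]

variable {T} in
theorem Kp.d2_symm (hK : T.Kp H κ K) (h1 : ∃ zh zt, T.Lft H κ ξ z zh zt)
    (h2 : ∃ wh wt, T.Lft H κ ξ w wh wt) : T.d2 H κ ξ ξ' z w = T.d2 H κ ξ ξ' w z := by
  have g1 := T.lz_spec h1
  have g2 := T.lz_spec h2
  have e1 : T.E2 κ z (T.lz H κ ξ z).1 w (T.lz H κ ξ w).1 =
      T.E2 κ w (T.lz H κ ξ w).1 z (T.lz H κ ξ z).1 := by
    rw [E2, E2]
    congr 1
    ring
  rw [d2, d2, e1, ← g1.trH_eq, ← g2.trH_eq, d12_symH hK.hg g1.mem g2.mem]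

variable {T} in
theorem Kp.d2_alt (hK : T.Kp H κ K) (hξ : T.InK H κ ξ') (hz : z ∈ T.Vs H κ)
    (h1 : ∃ zh zt, T.Lft H κ ξ z zh zt) : T.d2 H κ ξ ξ' z z = 0 := by
  have g1 := T.lz_spec h1
  have e1 : T.E2 κ z (T.lz H κ ξ z).1 z (T.lz H κ ξ z).1 = z * z / T.bh κ := by
    rw [E2]
    congr 1
    grind
  have e2 : T.R (comb T.θ ξ' * ((T.lz H κ ξ z).2 * T.trH ξ (T.lz H κ ξ z).2)) =
      T.RK (T.yy ξ' * T.tr (T.lz H κ ξ z).2 ^ 2) :=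
    hK.hg.quad g1.mem ξ' (fun g => 1 + ξ ⬝ᵥ g) (by simp)
  have e3 := hξ _ (T.one_mem_Vs H κ) _ hz
  rw [d1, PB.c1_one, mul_zero, mul_zero, R_zero, add_zero] at e3
  rw [d2, e1, ← g1.trH_eq, e2, g1.tr_eq, d12_sq T hz.1.1, mul_add, RK_add, d12_two, e3]

end Tw

end Pool.Agent.Lib.MP_788af2_nt.AS
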