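import Pool.Agent.Lib.MP_788af2_nt.TT.ADefs

/-!
First moments for the affine family of matrices.
-/

set_option linter.unusedSectionVars false

namespace Pool.Agent.Lib.MP_788af2_nt.AS

open Polynomial WeierstrassCurve Pool.Agent.Lib.MP_a3f657_nt.Two Matrix

variable {I : Type} [Fintype I] [DecidableEq I] {W : Type} [Fintype W] [DecidableEq W]
  {B : G I → Matrix W W (ZMod 2)} {τ : W → ZMod 2}

lemma D1_add (B : G I → Matrix W W (ZMod 2)) (ξ ξ' : G I) : D1 B (ξ + ξ') = D1 B ξ + D1 B ξ' := by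
  simp only [D1, add_dotProduct, add_smul, Finset.sum_add_distrib]

lemma D1_zero (B : G I → Matrix W W (ZMod 2)) : D1 B 0 = 0 := by simp [D1]

lemma D2_add (B : G I → Matrix W W (ZMod 2)) (ξ x y : G I) :
    D2 B ξ (x + y) = D2 B ξ x + D2 B ξ y := by
  simp only [D2, add_dotProduct, mul_add, add_smul, Finset.sum_add_distrib]

lemma D2_comm (B : G I → Matrix W W (ZMod 2)) (ξ ξ' : G I) : D2 B ξ ξ' = D2 B ξ' ξ := by
  simp only [D2, mul_comm]

private lemma card_sub (U : Submodule (ZMod 2) (W → ZMod 2)) :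
    (U : Set (W → ZMod 2)).ncard = 2 ^ Module.finrank (ZMod 2) U := by
  have := Module.natCard_eq_pow_finrank (K := ZMod 2) (V := U)
  rw [Nat.card_zmod] at this
  rw [← this]
  rfl

lemma card_ker (C : Matrix W W (ZMod 2)) : {v | C *ᵥ v = 0}.ncard = 2 ^ cork C := by
  rw [cork, ← card_sub]
  rfl

lemma card_lrk (C : Matrix W W (ZMod 2)) : {v | C *ᵥ v = 0 ∧ v ᵥ* C = 0}.ncard = 2 ^ lrk C := by
  rw [lrk, ← card_sub]
  congr 1
  ext v
  simp

private lemma vec_two (x : W → ZMod 2) : x + x = 0 := funext fun i => z2_add_self (x i)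

private lemma vec_eq {x y : W → ZMod 2} : x + y = 0 ↔ x = y := by
  rw [← add_left_inj y, add_assoc, vec_two, add_zero, zero_add]

private lemma fib_le {A V : Type} [AddCommGroup A] [Finite A] [AddCommGroup V] [Finite V]
    (h2 : ∀ x : V, x + x = 0) (φ : A →+ V) {χ₀ : V →+ ZMod 2}
    (h : ∀ χ : V →+ ZMod 2, (∀ a, χ (φ a) = 0) → χ = 0 ∨ χ = χ₀) (y : V) :
    {a | φ a = y}.ncard * Nat.card V ≤ 2 * Nat.card A := by
  have h1 : {a | φ a = y}.ncard ≤ Nat.card φ.ker := by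
    rcases Set.eq_empty_or_nonempty {a | φ a = y} with e | ⟨a₀, ha₀⟩
    · simp [e]
    · refine Set.ncard_le_ncard_of_injOn (t := (φ.ker : Set A)) (fun a => a - a₀)
        (fun a ha => ?_) (fun a _ b _ e => sub_left_injective e)
      have ha' : φ a = y := ha
      have ha₀' : φ a₀ = y := ha₀
      simp [ha', ha₀']
  have h3 : Nat.card (ann φ.range) ≤ 2 := by
    have : (ann φ.range : Set (V →+ ZMod 2)) ⊆ {0, χ₀} := fun χ hχ =>
      h χ fun a => hχ _ ⟨a, rfl⟩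
    exact (Set.ncard_le_ncard this).trans (by simpa using Set.ncard_insert_le 0 {χ₀})
  rw [← card_ann h2 φ.range, ← φ.ker.card_mul_index, AddSubgroup.index_ker]
  calc _ ≤ Nat.card φ.ker * (2 * Nat.card φ.range) := by gcongr
    _ = _ := by ring

private lemma hom_dot (χ : (W → ZMod 2) →+ ZMod 2) (x : W → ZMod 2) :
    χ x = (fun i => χ (Pi.single i 1)) ⬝ᵥ x := by
  conv_lhs => rw [← Finset.univ_sum_single x, map_sum]
  refine Finset.sum_congr rfl fun i _ => ?_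
  rcases z2_cases (x i) with e | e <;> simp [e]

private lemma hom_dot2 (χ : (W → ZMod 2) × ZMod 2 →+ ZMod 2) :
    ∃ z c, ∀ x u, χ (x, u) = z ⬝ᵥ x + c * u := by
  refine ⟨fun i => χ (Pi.single i 1, 0), χ (0, 1), fun x u => ?_⟩
  have e : (x, u) = (x, 0) + (0, u) := by simp
  rw [e, map_add]
  congr 1
  · exact hom_dot (χ.comp (AddMonoidHom.inl _ _)) x
  · rcases z2_cases u with rfl | rfl
    · rw [mul_zero]
      exact map_zero χ
    · simp

/-- The first derivative applied to a vector. -/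
private def dv (B : G I → Matrix W W (ZMod 2)) (v : W → ZMod 2) : G I →+ (W → ZMod 2) where
  toFun ξ := D1 B ξ *ᵥ v
  map_zero' := by rw [D1_zero, zero_mulVec]
  map_add' ξ ξ' := by rw [D1_add, add_mulVec]

/-- The first derivative applied to a vector, and its value on `τ`. -/
private def dv2 (B : G I → Matrix W W (ZMod 2)) (τ v : W → ZMod 2) :
    G I →+ (W → ZMod 2) × ZMod 2 where
  toFun ξ := (D1 B ξ *ᵥ v, τ ⬝ᵥ D1 B ξ *ᵥ τ)
  map_zero' := by simp [D1_zero]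
  map_add' ξ ξ' := by simp [D1_add, add_mulVec]

private lemma FrA.sym (h : FrA B τ) (ξ : G I) (z w : W → ZMod 2) :
    z ⬝ᵥ D1 B ξ *ᵥ w = w ⬝ᵥ D1 B ξ *ᵥ z := by
  rw [dotProduct_mulVec, ← mulVec_transpose, h.symm, dotProduct_comm]

private lemma FrA.ann1 (h : FrA B τ) {v z : W → ZMod 2} (hv : v ≠ 0)
    (hz : ∀ ξ, z ⬝ᵥ D1 B ξ *ᵥ v = 0) : z = 0 ∨ z = v + τ := by
  by_contra h1
  rw [not_or] at h1
  obtain ⟨ξ, e⟩ := h.nd0 z v h1.1 hv fun e => h1.2 (by rw [e, add_assoc, vec_two, add_zero])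
  exact e (hz ξ)

private lemma FrA.ann2 (h : FrA B τ) {v z : W → ZMod 2} {c : ZMod 2} (hv : v ≠ 0)
    (hz : ∀ ξ, z ⬝ᵥ D1 B ξ *ᵥ v + c * (τ ⬝ᵥ D1 B ξ *ᵥ τ) = 0) :
    (z = 0 ∧ c = 0) ∨ (z = v + τ ∧ c = 0 ∧ v ≠ τ) ∨ (z = τ ∧ c = 1 ∧ v = τ) := by
  rcases z2_cases c with rfl | rfl
  · rcases h.ann1 hv (z := z) (fun ξ => by simpa using hz ξ) with e | e
    · exact Or.inl ⟨e, rfl⟩
    · by_cases e1 : v = τ
      · exact Or.inl ⟨by rw [e, e1, vec_two], rfl⟩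
      · exact Or.inr (Or.inl ⟨e, rfl, e1⟩)
  · have e1 : v = τ := by
      by_contra e1
      obtain ⟨ξ, e⟩ := h.nd1 v z hv e1
      exact e (by rw [h.sym, ← hz ξ, one_mul])
    subst e1
    refine Or.inr (Or.inr ⟨?_, rfl, rfl⟩)
    rcases h.ann1 hv (z := z + v) (fun ξ => by rw [add_dotProduct, ← hz ξ, one_mul]) with e | e
    · exact vec_eq.1 e
    · exact vec_eq.1 (by rw [e, vec_two])

private lemma card_vec : Nat.card (W → ZMod 2) = 2 ^ Fintype.card W := by simp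

lemma FrA.prob_vec (h : FrA B τ) (C : Matrix W W (ZMod 2)) {v : W → ZMod 2} (hv : v ≠ 0)
    (y : W → ZMod 2) :
    {ξ | (C + D1 B ξ) *ᵥ v = y}.ncard * 2 ^ Fintype.card W ≤ 2 * Fintype.card (G I) := by
  have := fib_le vec_two (dv B v) (χ₀ := ⟨⟨fun x => (v + τ) ⬝ᵥ x, by simp⟩, by simp⟩)
    (fun χ hχ => by
      rcases h.ann1 hv (z := fun i => χ (Pi.single i 1))
        (fun ξ => by rw [← hom_dot]; exact hχ ξ) with e | e
      · exact Or.inl (AddMonoidHom.ext fun x => by rw [hom_dot, e]; simp)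
      · exact Or.inr (AddMonoidHom.ext fun x => by rw [hom_dot, e]; rfl)) (y - C *ᵥ v)
  rw [card_vec, Nat.card_eq_fintype_card] at this
  convert this using 3
  ext ξ
  simp only [Set.mem_ofPred_eq, add_mulVec]
  exact ⟨fun e => by rw [← e]; simp [dv], fun e => by rw [show D1 B ξ *ᵥ v = _ from e]; simp⟩

private lemma pair_two (x : (W → ZMod 2) × ZMod 2) : x + x = 0 :=
  Prod.ext (vec_two x.1) (z2_add_self x.2)

lemma FrA.prob_vec2 (h : FrA B τ) (C : Matrix W W (ZMod 2)) {v : W → ZMod 2} (hv : v ≠ 0)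
    (y : W → ZMod 2) (c : ZMod 2) :
    {ξ | (C + D1 B ξ) *ᵥ v = y ∧ τ ⬝ᵥ D1 B ξ *ᵥ τ = c}.ncard * 2 ^ Fintype.card W ≤
      Fintype.card (G I) := by
  have := fib_le pair_two (dv2 B τ v) (χ₀ := ⟨⟨fun x =>
      if v = τ then τ ⬝ᵥ x.1 + x.2 else (v + τ) ⬝ᵥ x.1, by simp⟩, fun x y => by
        split_ifs <;> simp only [Prod.fst_add, Prod.snd_add, dotProduct_add]
        ring⟩)
    (fun χ hχ => by
      obtain ⟨z, c, e⟩ := hom_dot2 χ
      rcases h.ann2 hv (z := z) (c := c) (fun ξ => by rw [← e]; exact hχ ξ) with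
        ⟨rfl, rfl⟩ | ⟨rfl, rfl, e1⟩ | ⟨rfl, rfl, e1⟩
      · exact Or.inl (AddMonoidHom.ext fun x => by rw [e]; simp)
      · exact Or.inr (AddMonoidHom.ext fun x => by rw [e]; simp [e1])
      · exact Or.inr (AddMonoidHom.ext fun x => by rw [e]; simp [e1])) (y - C *ᵥ v, c)
  rw [Nat.card_prod, card_vec, Nat.card_zmod, Nat.card_eq_fintype_card, ← mul_assoc,
    mul_comm _ 2] at this
  refine le_of_eq_of_le ?_ (Nat.le_of_mul_le_mul_left this two_pos)
  congr 2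
  ext ξ
  simp only [Set.mem_ofPred_eq, add_mulVec, dv2, AddMonoidHom.coe_mk, ZeroHom.coe_mk, Prod.mk.injEq]
  rw [eq_sub_iff_add_eq, add_comm]

lemma FrA.exists_shift (h : FrA B τ) {v q : W → ZMod 2} (hv : v ≠ 0) (h1 : q ⬝ᵥ v = 0)
    (h2 : q ⬝ᵥ τ = 0) : ∃ ξ, D1 B ξ *ᵥ v = q ∧ τ ⬝ᵥ D1 B ξ *ᵥ τ = 0 := by
  by_contra h3
  obtain ⟨χ, h4, h5⟩ := exists_sep_hom pair_two (dv2 B τ v).range (v := (q, 0))
    fun ⟨ξ, e⟩ => h3 ⟨ξ, congrArg Prod.fst e, congrArg Prod.snd e⟩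
  obtain ⟨z, c, e⟩ := hom_dot2 χ
  refine h4 ?_
  rw [e, mul_zero, add_zero, dotProduct_comm]
  rcases h.ann2 hv (z := z) (c := c) (fun ξ => by rw [← e]; exact h5 _ ⟨ξ, rfl⟩) with
    ⟨rfl, -⟩ | ⟨rfl, -⟩ | ⟨rfl, -⟩
  · simp
  · rw [dotProduct_add, h1, h2, add_zero]
  · exact h2

lemma FrA.half (h : FrA B τ) (c : ZMod 2) :
    2 * {ξ | τ ⬝ᵥ D1 B ξ *ᵥ τ = c}.ncard = Fintype.card (G I) := by
  obtain ⟨ξ₀, h0⟩ := h.nd0 τ τ h.ne h.ne (by rw [vec_two]; exact h.ne)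
  have h1 : τ ⬝ᵥ D1 B ξ₀ *ᵥ τ = 1 := (z2_cases _).resolve_left h0
  have h2 : ∀ a c : ZMod 2, a + 1 = c ↔ ¬ a = c := by decide
  have h3 : {ξ | τ ⬝ᵥ D1 B ξ *ᵥ τ = c}ᶜ = (fun ξ => ξ + ξ₀) ⁻¹' {ξ | τ ⬝ᵥ D1 B ξ *ᵥ τ = c} := by
    ext ξ
    simp only [Set.mem_compl_iff, Set.mem_ofPred_eq, Set.mem_preimage, D1_add, add_mulVec,
      dotProduct_add, h1, h2]
  have h4 := Set.ncard_add_ncard_compl {ξ | τ ⬝ᵥ D1 B ξ *ᵥ τ = c}
  rw [h3, Set.ncard_preimage_of_injective_subset_range (add_left_injective ξ₀)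
    (by rw [(add_right_surjective ξ₀).range_eq]; exact Set.subset_univ _),
    Nat.card_eq_fintype_card] at h4
  omega

private lemma ncard_sum {α : Type} [Fintype α] (p : α → Prop) [DecidablePred p] :
    {a | p a}.ncard = ∑ a, if p a then 1 else 0 := by
  rw [Finset.sum_boole, ← Set.ncard_coe_finset]
  simp

theorem FrA.sum_cork (h : FrA B τ) (C : Matrix W W (ZMod 2)) :
    ∑ ξ, 2 ^ cork (C + D1 B ξ) ≤ 3 * Fintype.card (G I) := by
  simp only [← card_ker, ncard_sum]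
  rw [Finset.sum_comm]
  simp only [← ncard_sum]
  refine Nat.le_of_mul_le_mul_right ?_ (pow_pos two_pos (Fintype.card W))
  rw [← Finset.add_sum_erase _ _ (Finset.mem_univ 0), add_mul, Finset.sum_mul]
  have h1 : {ξ | (C + D1 B ξ) *ᵥ 0 = 0}.ncard = Fintype.card (G I) := by
    simp [Set.ncard_univ]
  have h2 := Finset.sum_le_card_nsmul (Finset.univ.erase (0 : W → ZMod 2)) _ _
    fun v hv => h.prob_vec C (Finset.ne_of_mem_erase hv) 0
  have h3 : (Finset.univ.erase (0 : W → ZMod 2)).card ≤ 2 ^ Fintype.card W :=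
    (Finset.card_le_univ _).trans (by simp)
  rw [smul_eq_mul] at h2
  rw [h1]
  calc _ ≤ _ + 2 ^ Fintype.card W * (2 * Fintype.card (G I)) := by
        gcongr
        exact h2.trans (by gcongr)
    _ = _ := by ring

private lemma ker_alt {N : Matrix W W (ZMod 2)} (h0 : N ≠ 0) (h1 : ∀ i, N i i = 0)
    (h2 : ∀ i j, N i j = N j i) : {v | N *ᵥ v = 0}.ncard * 4 ≤ 2 ^ Fintype.card W := by
  obtain ⟨i, j, e⟩ : ∃ i j, N i j = 1 := by
    by_contra h3
    exact h0 (Matrix.ext fun i j => (z2_cases _).resolve_right fun e => h3 ⟨i, j, e⟩)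
  let ψ : (W → ZMod 2) →+ ZMod 2 × ZMod 2 :=
    ⟨⟨fun v => ((N *ᵥ v) i, (N *ᵥ v) j), by simp⟩, fun x y => by simp [mulVec_add]⟩
  have h4 : ψ.range = ⊤ := by
    rw [eq_top_iff]
    rintro ⟨a, b⟩ -
    refine ⟨Pi.single j a + Pi.single i b, ?_⟩
    simp [ψ, mulVec_add, h1, e, ← h2 i j]
  have h5 := ψ.ker.card_mul_index
  rw [AddSubgroup.index_ker, h4, card_vec] at h5
  rw [← h5]
  refine Nat.mul_le_mul (Set.ncard_le_ncard (t := (ψ.ker : Set (W → ZMod 2))) fun v hv => ?_)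
    (by simp)
  have hv' : N *ᵥ v = 0 := hv
  simp [ψ, hv']

theorem FrA.lose_ne (h : FrA B τ) {C : Matrix W W (ZMod 2)} (hC : Cᵀ ≠ C) :
    2 * {ξ | Odd (lrk (C + D1 B ξ))}.ncard ≤ Fintype.card (G I) := by
  classical
  have hN := ker_alt (N := C + Cᵀ)
    (fun e => hC (Matrix.ext fun i j => by
      have := congrFun (congrFun e i) j
      exact (CharTwo.add_eq_zero.1 this).symm))
    (fun i => z2_add_self _) (fun i j => add_comm _ _)
  set S := Finset.univ.filter fun v : W → ZMod 2 => (C + Cᵀ) *ᵥ v = 0 ∧ v ≠ 0 with hS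
  have h1 : S.card ≤ {v | (C + Cᵀ) *ᵥ v = 0}.ncard := by
    rw [← Set.ncard_coe_finset]
    exact Set.ncard_le_ncard fun v hv => (Finset.mem_filter.1 hv).2.1
  have h2 : {ξ | Odd (lrk (C + D1 B ξ))}.ncard ≤ ∑ v ∈ S, {ξ | (C + D1 B ξ) *ᵥ v = 0}.ncard := by
    simp only [ncard_sum]
    rw [Finset.sum_comm]
    refine Finset.sum_le_sum fun ξ _ => ?_
    split_ifs with ho
    · have h3 : 1 < {v | (C + D1 B ξ) *ᵥ v = 0 ∧ v ᵥ* (C + D1 B ξ) = 0}.ncard := by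
        rw [card_lrk]
        exact Nat.one_lt_two_pow ho.pos.ne'
      obtain ⟨v, ⟨h4, h5⟩, hv⟩ := Set.exists_ne_of_one_lt_ncard h3 0
      have h6 : v ∈ S := by
        refine Finset.mem_filter.2 ⟨Finset.mem_univ _, ?_, hv⟩
        rw [← mulVec_transpose, transpose_add, h.symm, add_mulVec, vec_eq] at h5
        rw [add_mulVec, vec_eq] at h4
        rw [add_mulVec, h4, h5, vec_two]
      exact le_of_eq_of_le (if_pos h4).symm
        (Finset.single_le_sum (f := fun v => if (C + D1 B ξ) *ᵥ v = 0 then 1 else 0)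
          (fun _ _ => Nat.zero_le _) h6)
    · exact Nat.zero_le _
  have h3 := Finset.sum_le_card_nsmul S _ _
    fun v hv => h.prob_vec C (Finset.mem_filter.1 hv).2.2 0
  rw [smul_eq_mul, ← Finset.sum_mul] at h3
  refine Nat.le_of_mul_le_mul_right ?_ (pow_pos two_pos (Fintype.card W))
  calc _ = 2 * ({ξ | Odd (lrk (C + D1 B ξ))}.ncard * 2 ^ Fintype.card W) := by ring
    _ ≤ 2 * (S.card * (2 * Fintype.card (G I))) :=
        Nat.mul_le_mul_left _ ((Nat.mul_le_mul_right _ h2).trans h3)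
    _ = Fintype.card (G I) * (S.card * 4) := by ring
    _ ≤ _ := Nat.mul_le_mul_left _ ((Nat.mul_le_mul_right _ h1).trans hN)

end Pool.Agent.Lib.MP_788af2_nt.AS
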