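import Pool.Agent.Lib.MP_788af2_nt.TT.Fr0
import Pool.Agent.Lib.MP_788af2_nt.TT.D12
import Pool.Agent.Lib.MP_788af2_nt.TT.LoseA
import Pool.Agent.Lib.MP_788af2_nt.TT.Cnt2

/-!
The frame.
-/

set_option linter.unusedSectionVars false

namespace Pool.Agent.Lib.MP_788af2_nt.AS

open Polynomial WeierstrassCurve Pool.Agent.Lib.MP_a3f657_nt.Two Matrix

private lemma frm_cases (u : ZMod 2) : u = 0 ∨ u = 1 := by revert u; decide

private lemma frm_mat_zero {W : Type} [Fintype W] [DecidableEq W] {C : Matrix W W (ZMod 2)}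
    (h : ∀ u u' : W → ZMod 2, u ⬝ᵥ C *ᵥ u' = 0) : C = 0 := by
  ext i j
  simpa using h (Pi.single i 1) (Pi.single j 1)

private lemma frm_sum_dot {W α : Type} [Fintype W] [Fintype α] (c : α → ZMod 2)
    (B : α → Matrix W W (ZMod 2)) (u u' : W → ZMod 2) :
    ∑ g, (c g • u) ⬝ᵥ B g *ᵥ u' = u ⬝ᵥ (∑ g, c g • B g) *ᵥ u' := by
  rw [Matrix.sum_mulVec, dotProduct_sum]
  refine Finset.sum_congr rfl fun g _ => ?_
  rw [smul_dotProduct, Matrix.smul_mulVec, dotProduct_smul]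

namespace Tw

variable {k : Type} [Field k] [Finite k] [CharP k 2] {I : Type} [Fintype I] [DecidableEq I]
  {β : I → k[X]} {L : Type} [Field L] [CharP L 2] (T : Tw β L)

variable {H : AddSubgroup L} {κ : L} {K : ℕ}

private lemma frm_zc_mem (u : ZMod 2) {x : L} (hx : x ∈ H) : zc L u * x ∈ H := by
  rcases frm_cases u with rfl | rfl
  · rw [map_zero, zero_mul]; exact zero_mem _
  · rwa [map_one, one_mul]

private lemma frm_σ_trH (ξ g : G I) (x : L) :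
    T.σ g (T.trH ξ x) = T.trH ξ x + zc L (ξ ⬝ᵥ g) * T.tr x := by
  simp only [trH, tr, map_sum, map_mul, σ_zc, ← T.σ_add, Finset.mul_sum, ← Finset.sum_add_distrib]
  refine Fintype.sum_equiv (Equiv.addLeft g) _ _ fun h => ?_
  have e : (1 + ξ ⬝ᵥ h : ZMod 2) = 1 + ξ ⬝ᵥ (g + h) + ξ ⬝ᵥ g := by
    rw [dotProduct_add]
    generalize ξ ⬝ᵥ g = a
    generalize ξ ⬝ᵥ h = b
    revert a b
    decide
  rw [Equiv.coe_addLeft, e, map_add (zc L) _ (ξ ⬝ᵥ g), add_mul]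

private lemma frm_trH_σ (ξ g : G I) (x : L) :
    T.trH ξ (T.σ g x) = T.trH ξ x + zc L (ξ ⬝ᵥ g) * T.tr x := by
  rw [← frm_σ_trH]
  simp only [trH, map_sum, map_mul, σ_zc, ← T.σ_add, add_comm g]

private lemma frm_trH_sum (ξ : G I) {α : Type} (s : Finset α) (F : α → L) :
    T.trH ξ (∑ i ∈ s, F i) = ∑ i ∈ s, T.trH ξ (F i) := by
  simp only [trH, map_sum, Finset.mul_sum]
  exact Finset.sum_comm

private lemma frm_trH_zc (ξ : G I) (u : ZMod 2) (x : L) :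
    T.trH ξ (zc L u * x) = zc L u * T.trH ξ x := by
  simp only [trH, map_mul, σ_zc, Finset.mul_sum, mul_left_comm (zc L u)]

private lemma frm_trH_c1 (ξ : G I) (x : L) : T.trH ξ (T.P.c1 x) = T.P.c1 (T.trH ξ x) := by
  simp only [trH, c1_sum, c1_zc_mul, σ_c1]

private lemma frm_Θ_trH (hκ : T.Fix κ) (ξ : G I) (x : L) :
    T.Θ κ (T.trH ξ x) = T.trH ξ (T.Θ κ x) := by
  simp only [trH, Θ_sum, Θ_zc_mul, T.Θ_σ hκ]

private lemma frm_tr_mul {ξ : G I} {z zh : L} (h : ∀ g, T.σ g zh = zh + zc L (ξ ⬝ᵥ g) * z) (x : L) :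
    T.tr (zh * x) = z * T.trH ξ x + zh * T.tr x + z * T.tr x := by
  simp only [trH, tr, map_mul, h, Finset.mul_sum, ← Finset.sum_add_distrib, map_add, map_one]
  refine Finset.sum_congr rfl fun g _ => ?_
  grind

/-- The coordinates. -/
private noncomputable def frmν (κ : L) {W : Type} (Ψ : W → L) : L →+ (W → ZMod 2) where
  toFun x i := T.R (x / T.bh κ * (T.lgE * Ψ i))
  map_zero' := funext fun i => by simp [R_zero]
  map_add' x y := funext fun i => by rw [add_div, add_mul, R_add]; rfl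

private lemma frmν_apply (κ : L) {W : Type} (Ψ : W → L) (x : L) (i : W) :
    T.frmν κ Ψ x i = T.R (x / T.bh κ * (T.lgE * Ψ i)) := rfl

private lemma frmν_zc (κ : L) {W : Type} (Ψ : W → L) (u : ZMod 2) (x : L) :
    T.frmν κ Ψ (zc L u * x) = u • T.frmν κ Ψ x := by
  rcases frm_cases u with rfl | rfl <;> simp

/-- The combination of the columns. -/
private noncomputable def frmζ {W : Type} [Fintype W] (ζ : W → L) (u : W → ZMod 2) : L :=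
  ∑ j, zc L (u j) * ζ j

section

variable {T} {W : Type} [Fintype W] [DecidableEq W]
  {vv : (W → ZMod 2) →+ L} {Ψ ζ : W → L} {B : G I → Matrix W W (ZMod 2)}

private lemma frm_col (h : T.Fr0 H κ vv Ψ ζ B) (u : W → ZMod 2) : T.P.c1 (frmζ ζ u) ∈ H := by
  rw [frmζ, c1_sum]
  exact sum_mem fun j _ => by rw [c1_zc_mul]; exact frm_zc_mem _ (h.col j)

private lemma frm_tr (h : T.Fr0 H κ vv Ψ ζ B) (u : W → ZMod 2) : T.tr (frmζ ζ u) = vv u := by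
  rw [frmζ, tr_sum]
  conv_rhs => rw [← Finset.univ_sum_single u, map_sum]
  refine Finset.sum_congr rfl fun j _ => ?_
  rw [T.tr_fix_mul (T.fix_zc _), h.tr_col]
  rcases frm_cases (u j) with e | e <;> simp [e]

private lemma frm_Θ (h : T.Fr0 H κ vv Ψ ζ B) (u : W → ZMod 2) :
    T.Θ κ (frmζ ζ u) = ∑ g, ∑ i, zc L ((B g *ᵥ u) i) * T.σ g (T.lgE * Ψ i) := by
  simp only [frmζ, Θ_sum, Θ_zc_mul, h.Θ_col, Finset.mul_sum, mulVec, dotProduct, map_sum, map_mul,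
    Finset.sum_mul]
  rw [Finset.sum_comm]
  refine Finset.sum_congr rfl fun g _ => ?_
  rw [Finset.sum_comm]
  refine Finset.sum_congr rfl fun i _ => Finset.sum_congr rfl fun j _ => ?_
  ring

private lemma frm_pair (hK : T.Kp H κ K) (h : T.Fr0 H κ vv Ψ ζ B) (x : L) (u : W → ZMod 2) :
    T.R (x / T.bh κ * T.Θ κ (frmζ ζ u)) = ∑ g, T.frmν κ Ψ (T.σ g x) ⬝ᵥ B g *ᵥ u := by
  rw [frm_Θ h, Finset.mul_sum, R_sum]
  refine Finset.sum_congr rfl fun g _ => ?_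
  rw [Finset.mul_sum, R_sum, dotProduct]
  refine Finset.sum_congr rfl fun i _ => ?_
  rw [mul_left_comm, R_zc_mul, mul_comm, frmν_apply, ← T.R_σ g, map_mul, σ_σ, map_div₀,
    T.bh_fix hK.fix g]

private lemma frm_vv (h : T.Fr0 H κ vv Ψ ζ B) (u : W → ZMod 2) : T.frmν κ Ψ (vv u) = u := by
  funext i
  rw [frmν_apply, ← h.dual i u, RK]
  congr 1
  ring

private lemma frm_mem (h : T.Fr0 H κ vv Ψ ζ B) (u : W → ZMod 2) : vv u ∈ T.Vs H κ :=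
  (h.range _).2 ⟨u, rfl⟩

private lemma frm_rel (hK : T.Kp H κ K) (h : T.Fr0 H κ vv Ψ ζ B) {x : L} (hx : x ∈ T.Sh H κ)
    (u : W → ZMod 2) : ∑ g, T.frmν κ Ψ (T.σ g x) ⬝ᵥ B g *ᵥ u = 0 := by
  have h1 := Kr.ident hx.1 (θ := 1) (y := 0) (by simp) (frmζ ζ u)
  rw [one_mul, one_mul, frm_pair hK h, hK.hg.iso _ (frm_col h u) _ hx.2] at h1
  simpa [R_zero] using h1

private lemma frm_d0 (hK : T.Kp H κ K) (h : T.Fr0 H κ vv Ψ ζ B) : ∑ g, B g = 0 := by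
  refine frm_mat_zero fun u u' => ?_
  have h1 := frm_rel hK h (frm_mem h u).1 u'
  simp only [(frm_mem h u).2 _, frm_vv h] at h1
  rwa [Matrix.sum_mulVec, dotProduct_sum]

private lemma frm_sum0 (hK : T.Kp H κ K) (h : T.Fr0 H κ vv Ψ ζ B) (u u' : W → ZMod 2) :
    ∑ g, u ⬝ᵥ B g *ᵥ u' = 0 := by
  rw [← dotProduct_sum, ← Matrix.sum_mulVec, frm_d0 hK h]
  simp

private lemma frm_yy (ξ : G I) : T.Fix (T.yy ξ) := T.fix_p _

private lemma frm_d1 (hK : T.Kp H κ K) (h : T.Fr0 H κ vv Ψ ζ B) (ξ : G I) (u u' : W → ZMod 2) :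
    u ⬝ᵥ D1 B ξ *ᵥ u' = T.d1 H κ ξ (vv u) (vv u') := by
  have hz := frm_mem h u
  have h1 := Kr.ident hz.1.1 (T.comb_spec ξ) (frmζ ζ u')
  rw [← mul_div_assoc, frm_pair hK h, ← yy_eq,
    T.R_fix_mul ((frm_yy ξ).mul (hz.2.div (T.bh_fix hK.fix))), frm_tr h] at h1
  rw [hK.d1_eq hz (frm_mem h u') (frm_col h u') (by rw [tr_c1, frm_tr h]),
    show T.yy ξ * (vv u * vv u' / T.bh κ) = T.yy ξ * (vv u / T.bh κ) * vv u' by ring, ← h1]
  simp only [map_mul, σ_comb, hz.2 _, add_mul, map_add, frmν_zc, frm_vv h, add_dotProduct,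
    Finset.sum_add_distrib, frm_sum0 hK h, zero_add, frm_sum_dot]
  rfl

private lemma frm_D1 (hK : T.Kp H κ K) (h : T.Fr0 H κ vv Ψ ζ B) {ξ : G I} (hξ : T.InK H κ ξ) :
    D1 B ξ = 0 :=
  frm_mat_zero fun u u' => by rw [frm_d1 hK h, hξ _ (frm_mem h u) _ (frm_mem h u')]

private lemma frm_lift (hK : T.Kp H κ K) (h : T.Fr0 H κ vv Ψ ζ B) {ξ : G I} (hξ : T.InK H κ ξ)
    (u : W → ZMod 2) : T.Lft H κ ξ (vv u) (T.trH ξ (frmζ ζ u)) (T.P.c1 (frmζ ζ u)) := by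
  refine ⟨?_, fun g => by rw [frm_σ_trH, frm_tr h], frm_col h u, by rw [tr_c1, frm_tr h],
    T.frm_trH_c1 ξ _⟩
  have e0 : ∀ i, ∑ g, (B g *ᵥ u) i = 0 := fun i => by
    rw [← Finset.sum_apply, ← Matrix.sum_mulVec, frm_d0 hK h]; simp
  have e1 : ∀ i, ∑ g, (B g *ᵥ u) i * (ξ ⬝ᵥ g) = 0 := fun i => by
    have := congrFun (congrArg (· *ᵥ u) (frm_D1 hK h hξ)) i
    simp only [D1, Matrix.sum_mulVec, Matrix.smul_mulVec, Finset.sum_apply, Pi.smul_apply,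
      smul_eq_mul, Matrix.zero_mulVec, Pi.zero_apply] at this
    simpa only [mul_comm] using this
  rw [Kr_iff, T.frm_Θ_trH hK.fix, frm_Θ h]
  simp only [frm_trH_sum, frm_trH_zc, frm_trH_σ, mul_add, ← mul_assoc, ← map_mul (zc L)]
  rw [Finset.sum_comm]
  refine Finset.sum_eq_zero fun i _ => ?_
  rw [Finset.sum_add_distrib, ← Finset.sum_mul, ← Finset.sum_mul, ← map_sum, ← map_sum, e0, e1]
  simp

private lemma frm_d2 (hK : T.Kp H κ K) (h : T.Fr0 H κ vv Ψ ζ B) {ξ ξ' : G I} (hξ : T.InK H κ ξ)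
    (hξ' : T.InK H κ ξ') (u u' : W → ZMod 2) :
    u ⬝ᵥ D2 B ξ ξ' *ᵥ u' = T.d2 H κ ξ ξ' (vv u) (vv u') := by
  have hz := frm_lift hK h hξ u
  have hw := frm_lift hK h hξ u'
  rw [hK.d2_eq hξ' (frm_mem h u) (frm_mem h u') hz hw]
  generalize T.trH ξ (frmζ ζ u) = zh at hz ⊢
  have h1 := Kr.ident hz.ker (T.comb_spec ξ') (frmζ ζ u')
  rw [← mul_div_assoc, frm_pair hK h, ← yy_eq,
    show T.yy ξ' * (zh / T.bh κ) * frmζ ζ u' = T.yy ξ' / T.bh κ * (zh * frmζ ζ u') by ring,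
    T.R_fix_mul ((frm_yy ξ').div (T.bh_fix hK.fix)), T.frm_tr_mul hz.act, frm_tr h] at h1
  rw [E2, ← mul_div_assoc, mul_div_right_comm, ← h1]
  have e : ∀ g, T.σ g (comb T.θ ξ' * zh) = comb T.θ ξ' * zh + zc L (ξ ⬝ᵥ g) * (comb T.θ ξ' * vv u) +
      zc L (ξ' ⬝ᵥ g) * zh + zc L ((ξ ⬝ᵥ g) * (ξ' ⬝ᵥ g)) * vv u := fun g => by
    rw [map_mul, σ_comb, hz.act, map_mul]
    ring
  have e1 := frm_D1 hK h hξ
  have e2 := frm_D1 hK h hξ'
  rw [D1] at e1 e2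
  simp only [e, map_add, frmν_zc, frm_vv h, add_dotProduct, Finset.sum_add_distrib, frm_sum0 hK h,
    zero_add, frm_sum_dot, e1, e2, Matrix.zero_mulVec, dotProduct_zero]
  rfl

private lemma frm_inj (hK : T.Kp H κ K) (h : T.Fr0 H κ vv Ψ ζ B) {x : L} (hx : x ∈ T.Sh H κ)
    (h0 : ∀ g, T.frmν κ Ψ (T.σ g x) = 0) : x = 0 := by
  by_contra hne
  let N : AddSubgroup L :=
    { carrier := {y | y ∈ T.Sh H κ ∧ ∀ g, T.frmν κ Ψ (T.σ g y) = 0}
      zero_mem' := ⟨zero_mem _, fun g => by simp⟩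
      add_mem' := by
        rintro a b ⟨h1, h2⟩ ⟨h3, h4⟩
        exact ⟨add_mem h1 h3, fun g => by rw [map_add, map_add, h2, h4, add_zero]⟩
      neg_mem' := by
        intro a ha
        rwa [CharTwo.neg_eq] }
  obtain ⟨y, hy, hy0, hf⟩ := T.socle N
    (fun g a ha => ⟨hK.Sh_σ g ha.1, fun g' => by rw [← T.σ_add]; exact ha.2 _⟩) ⟨hx, h0⟩ hne
  obtain ⟨u, rfl⟩ := (h.range y).1 ⟨hy.1, hf⟩
  have := hy.2 0
  rw [T.σ_zero, frm_vv h] at this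
  exact hy0 (by rw [this, map_zero])

end

variable {T} in
theorem Fr0.frm (hK : T.Kp H κ K) {W : Type} [Fintype W] [DecidableEq W]
    {vv : (W → ZMod 2) →+ L} {Ψ ζ : W → L} {B : G I → Matrix W W (ZMod 2)}
    (h : T.Fr0 H κ vv Ψ ζ B) : ∃ ν, T.Frm H κ vv ν B := by
  refine ⟨T.frmν κ Ψ, h.inj, h.range, fun x hx h0 => frm_inj hK h hx h0, fun x hx j => ?_,
    frm_d0 hK h, frm_d1 hK h, fun ξ hξ z hz => ?_, fun ξ ξ' hξ hξ' => frm_d2 hK h hξ hξ'⟩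
  · simpa [dotProduct] using frm_rel hK h hx (Pi.single j 1)
  · obtain ⟨u, rfl⟩ := (h.range z).1 hz
    exact ⟨_, _, frm_lift hK h hξ u⟩

variable {T} in
theorem Fr0.frm' (hK : T.Kp H κ K) {W : Type} [Fintype W] [DecidableEq W]
    {vv : (W → ZMod 2) →+ L} {Ψ ζ : W → L} {B : G I → Matrix W W (ZMod 2)}
    (h : T.Fr0 H κ vv Ψ ζ B) : ∃ ν, T.Frm H κ vv ν B ∧ ∀ u, ν (vv u) = u := by
  refine ⟨T.frmν κ Ψ, ⟨h.inj, h.range, fun x hx h0 => frm_inj hK h hx h0, fun x hx j => ?_,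
    frm_d0 hK h, frm_d1 hK h, fun ξ hξ z hz => ?_, fun ξ ξ' hξ hξ' => frm_d2 hK h hξ hξ'⟩,
    frm_vv h⟩
  · simpa [dotProduct] using frm_rel hK h hx (Pi.single j 1)
  · obtain ⟨u, rfl⟩ := (h.range z).1 hz
    exact ⟨_, _, frm_lift hK h hξ u⟩

variable {T} in
theorem Fr0.exists_tw (hK : T.Kp H κ K) {W : Type} [Fintype W] [DecidableEq W]
    {vv : (W → ZMod 2) →+ L} {Ψ ζ : W → L} {B : G I → Matrix W W (ZMod 2)}
    (h : T.Fr0 H κ vv Ψ ζ B) (ξ : G I) (u : W → ZMod 2) : ∃ y, T.P.c1 y ∈ H ∧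
      T.Θ κ y = ∑ i, zc L ((D1 B ξ *ᵥ u) i) * Ψ i ∧
      ∀ g, T.σ g y = y + zc L (ξ ⬝ᵥ g) * vv u := by
  refine ⟨T.trH ξ (frmζ ζ u), ?_, ?_, fun g => by rw [frm_σ_trH, frm_tr h]⟩
  · rw [← T.frm_trH_c1, trH]
    exact sum_mem fun g _ => frm_zc_mem _ (hK.hg.σ_mem g _ (frm_col h u))
  · have e0 : ∀ i, ∑ g, (B g *ᵥ u) i = 0 := fun i => by
      rw [← Finset.sum_apply, ← Matrix.sum_mulVec, frm_d0 hK h]; simp
    have e1 : ∀ i, ∑ g, (B g *ᵥ u) i * (ξ ⬝ᵥ g) = (D1 B ξ *ᵥ u) i := fun i => by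
      simp only [D1, Matrix.sum_mulVec, Matrix.smul_mulVec, Finset.sum_apply, Pi.smul_apply,
        smul_eq_mul, mul_comm]
    rw [T.frm_Θ_trH hK.fix, frm_Θ h]
    simp only [frm_trH_sum, frm_trH_zc, frm_trH_σ, mul_add, ← mul_assoc, ← map_mul (zc L)]
    rw [Finset.sum_comm]
    refine Finset.sum_congr rfl fun i _ => ?_
    rw [Finset.sum_add_distrib, ← Finset.sum_mul, ← Finset.sum_mul, ← map_sum, ← map_sum, e0, e1,
      T.lgE_tr_mul (h.fix i)]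
    simp

theorem exists_frm (hK : T.Kp H κ K) {e s₀ : ℕ} (he : Nat.card k ≤ 2 ^ e)
    (hs : 2 * K * e + 1 ≤ s₀) : ∃ n ≤ s₀, ∃ (vv : (Fin n → ZMod 2) →+ L)
      (ν : L →+ (Fin n → ZMod 2)) (B : G I → Matrix (Fin n) (Fin n) (ZMod 2)),
      T.Frm H κ vv ν B := by
  obtain ⟨n, hn, vv, Ψ, ζ, B, h⟩ := T.exists_fr0 hK he hs
  obtain ⟨ν, h'⟩ := h.frm hK
  exact ⟨n, hn, vv, ν, B, h'⟩

variable {T} in
lemma Frm.inK_iff {W : Type} [Fintype W] [DecidableEq W] {vv : (W → ZMod 2) →+ L}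
    {ν : L →+ (W → ZMod 2)} {B : G I → Matrix W W (ZMod 2)} (h : T.Frm H κ vv ν B) (ξ : G I) :
    T.InK H κ ξ ↔ D1 B ξ = 0 := by
  refine ⟨fun hξ => frm_mat_zero fun u u' => ?_, fun h0 z hz w hw => ?_⟩
  · rw [h.d1_eq, hξ _ ((h.range _).2 ⟨u, rfl⟩) _ ((h.range _).2 ⟨u', rfl⟩)]
  · obtain ⟨u, rfl⟩ := (h.range z).1 hz
    obtain ⟨u', rfl⟩ := (h.range w).1 hw
    rw [← h.d1_eq, h0]
    simp

end Tw

section

variable {k : Type} [Field k] [Finite k] [CharP k 2] {R D : ℕ}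
  {β : (Ix fun _ : Fin R => D) → k[X]} {L : Type} [Field L] [CharP L 2] (T : Tw β L)
  {H : AddSubgroup L} {κ : L} {K : ℕ}

lemma Tw.mem_Xb {l : Fin R} {ξ : G (Ix fun _ : Fin R => D)} :
    ξ ∈ T.Xb H κ l ↔ ξ ∈ Blk (fun _ : Fin R => D) l ∧ T.InK H κ ξ := by
  classical
  rw [Tw.Xb, Finset.mem_filter]

lemma Tw.zero_mem_Xb (l : Fin R) : 0 ∈ T.Xb H κ l :=
  T.mem_Xb.2 ⟨zero_mem_Blk l, T.InK_zero H κ⟩

lemma Tw.add_mem_Xb {l : Fin R} {x y : G (Ix fun _ : Fin R => D)} (hx : x ∈ T.Xb H κ l)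
    (hy : y ∈ T.Xb H κ l) : x + y ∈ T.Xb H κ l :=
  T.mem_Xb.2 ⟨add_mem_Blk (T.mem_Xb.1 hx).1 (T.mem_Xb.1 hy).1,
    (T.mem_Xb.1 hx).2.add (T.mem_Xb.1 hy).2⟩

theorem Tw.card_Xb (hK : T.Kp H κ K) {e s₀ : ℕ} (he : Nat.card k ≤ 2 ^ e)
    (hs : 2 * K * e + 1 ≤ s₀) (l : Fin R) : 2 ^ D ≤ (T.Xb H κ l).card * 2 ^ s₀ ^ 2 := by
  classical
  obtain ⟨n, hn, vv, ν, B, h⟩ := T.exists_frm hK he hs
  have h1 := Finset.card_le_mul_card_image_of_maps_to (s := Blk (fun _ : Fin R => D) l)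
    (t := Finset.univ) (f := D1 B) (fun _ _ => Finset.mem_univ _) (T.Xb H κ l).card fun C _ => by
      rcases Finset.eq_empty_or_nonempty
        ((Blk (fun _ : Fin R => D) l).filter fun a => D1 B a = C) with h0 | ⟨x, hx⟩
      · rw [h0]; simp
      · rw [Finset.mem_filter] at hx
        refine Finset.card_le_card_of_injOn (· + x) (fun y hy => ?_) fun a _ b _ e => ?_
        · rw [Finset.mem_coe, Finset.mem_filter] at hy
          refine T.mem_Xb.2 ⟨add_mem_Blk hy.1 hx.1, (h.inK_iff _).2 ?_⟩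
          rw [D1_add, hy.2, hx.2]
          ext i j
          exact CharTwo.add_self_eq_zero _
        · exact add_right_cancel e
  rw [card_Blk] at h1
  refine h1.trans (Nat.mul_le_mul_left _ ?_)
  have h2 : (Finset.univ : Finset (Matrix (Fin n) (Fin n) (ZMod 2))).card = 2 ^ (n * n) := by
    rw [Finset.card_univ]
    change Fintype.card (Fin n → Fin n → ZMod 2) = _
    simp [pow_mul]
  rw [h2, sq]
  exact Nat.pow_le_pow_right two_pos (Nat.mul_le_mul hn hn)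

end

end Pool.Agent.Lib.MP_788af2_nt.AS
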