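import Pool.Agent.Lib.MP_788af2_nt.TT.Pert

/-!
Perturbation of the parameter: the second variation.
-/

set_option linter.unusedSectionVars false

namespace Pool.Agent.Lib.MP_788af2_nt.AS

open Polynomial WeierstrassCurve Pool.Agent.Lib.MP_a3f657_nt.Two

namespace Tw

variable {k : Type} [Field k] [Finite k] [CharP k 2] {I : Type} [Fintype I] [DecidableEq I]
  {β : I → k[X]} {L : Type} [Field L] [CharP L 2] (T : Tw β L)

variable {H : AddSubgroup L} {κ δ z z' w w' zh zt wh wt : L} {K : ℕ} {m n n' : ℝ} {ξ ξ' : G I}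

private lemma pt2_th (ξ : G I) (hn : T.p (comb β ξ) ∈ T.d.Le n) (h0 : 0 ≤ n) :
    comb T.θ ξ ∈ T.d.Le (n + 1 / 2) := by
  have h1 : wp (comb T.θ ξ) ∈ T.d.Le (2 * n + 1) := by
    rw [T.wp_comb, map_mul, map_pow, p_X]
    exact DF.Le.mul T.b_mem (DF.Le.sq hn le_rfl) (by linarith)
  exact DF.Le.of_wp h1 (by linarith) (by linarith)

variable {T} in
private lemma pt2_phi (hK : T.Kp H κ K) (hz : z ∈ T.Vs H κ) :
    T.Fix (z / T.bh κ) ∧ z / T.bh κ ∈ T.d.Le 0 := by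
  have h1 : T.Fix (z / T.bh κ) := Fix.div hz.2 (T.bh_fix hK.fix)
  exact ⟨h1, by simpa [gam] using T.log_le h1.fx (Kr.log hz.1.1)⟩

variable {T} in
private lemma pt2_psi (hK : T.Kp H κ K) (hz : z ∈ T.Vs H κ) (h1 : T.Lft H κ ξ z zh zt)
    (hn : T.p (comb β ξ) ∈ T.d.Le n) (h0 : 0 ≤ n) : ∃ ψ, T.Fix ψ ∧ ψ ∈ T.d.Le n ∧
      zh = ψ * T.bh κ + comb T.θ ξ * z ∧
      ψ + T.P.c1 ψ = T.p (comb β ξ) * (T.P.c1 z + κ * (z / T.bh κ)) := by
  obtain ⟨f1, f2⟩ := pt2_phi hK hz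
  obtain ⟨t0, t1⟩ := T.P.uniq (T.comb_spec ξ)
  have hb := T.bh_ne κ
  have x1 : T.Fix (zh + comb T.θ ξ * z) := fun g => by
    rw [map_add, map_mul, h1.act, σ_comb, hz.2 g]
    grind
  have x2 : T.Fix ((zh + comb T.θ ξ * z) / T.bh κ) := x1.div (T.bh_fix hK.fix)
  have e0 : (zh + comb T.θ ξ * z) / T.bh κ = zh / T.bh κ + comb T.θ ξ * (z / T.bh κ) := by ring
  have e1 : (zh + comb T.θ ξ * z) / T.bh κ + T.P.c1 ((zh + comb T.θ ξ * z) / T.bh κ) =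
      T.p (comb β ξ) * T.P.c0 (z / T.bh κ) := by
    rw [e0, PB.c1_add, PB.c1_mul, t0, t1, Kr.log h1.ker, Kr.log hz.1.1]
    grind
  have e2 : T.P.c0 (z / T.bh κ) = T.P.c1 z + κ * (z / T.bh κ) := by
    rw [Kr.c1_eq hz.1.1]
    grind
  refine ⟨_, x2, T.of_add_c1 x2.fx ?_ (by simpa [gam] using h0), ?_, by rw [e1, e2]⟩
  · rw [e1]
    exact DF.Le.mul hn (f1.c0_le f2 (r' := 0) (by norm_num)) (by linarith)
  · rw [div_mul_cancel₀ _ hb]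
    grind

variable {T} in
lemma Kp.lft_le (hK : T.Kp H κ K) (hz : z ∈ T.Vs H κ) (h1 : T.Lft H κ ξ z zh zt)
    (hn : T.p (comb β ξ) ∈ T.d.Le n) (h0 : 0 ≤ n) :
    zh ∈ T.d.Le (n + 2 * K + 1) ∧ T.P.c1 zh ∈ T.d.Le (n + 2 * K + 1) := by
  obtain ⟨ψ, -, p2, p3, -⟩ := pt2_psi hK hz h1 hn h0
  have hK0 : (0 : ℝ) ≤ K := Nat.cast_nonneg K
  have a1 : zh ∈ T.d.Le (n + 2 * K + 1) := by
    rw [p3]
    exact add_mem (DF.Le.mul p2 hK.bh_le (by linarith))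
      (DF.Le.mul (T.pt2_th ξ hn h0) (hK.V_le hz) (by linarith))
  refine ⟨a1, ?_⟩
  have a2 : wp zh ∈ T.d.Le (2 * (n + 2 * K + 1)) := DF.Le.wp_mem a1 le_rfl (by linarith)
  have a3 := DF.Le.div' a2 (T.bh_not_le hK.fix) (c := 2 * (n + 2 * K + 1)) (by linarith)
  rw [show wp zh = T.bh κ * T.P.c1 zh ^ 2 from h1.ker,
    mul_div_cancel_left₀ _ (T.bh_ne κ)] at a3
  exact DF.Le.of_sq a3 (by linarith)

variable {T} in
lemma Kp.E2_near (hK : T.Kp H κ K) (hz : z ∈ T.Vs H κ) (hw : w ∈ T.Vs H κ)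
    (h1 : T.Lft H κ ξ z zh zt) (h2 : T.Lft H κ ξ w wh wt) (hn : T.p (comb β ξ) ∈ T.d.Le n)
    (h0 : 0 ≤ n) : T.E2 κ z zh w wh + T.p (comb β ξ) * (z * T.P.c1 w + w * T.P.c1 z) ∈
      T.d.Le (n / 2 + 4 * K) := by
  obtain ⟨ψ, p1, p2, p3, p4⟩ := pt2_psi hK hz h1 hn h0
  obtain ⟨χ, q1, q2, q3, q4⟩ := pt2_psi hK hw h2 hn h0
  have hK0 : (0 : ℝ) ≤ K := Nat.cast_nonneg K
  have hb := T.bh_ne κ
  have e0 : T.E2 κ z zh w wh = z * χ + w * ψ + z * (w / T.bh κ) := by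
    have e2 := div_mul_cancel₀ w hb
    rw [E2, div_eq_iff hb, p3, q3]
    generalize w / T.bh κ = f at e2
    grind
  have e1 : z * (w / T.bh κ) = w * (z / T.bh κ) := by ring
  have e : T.E2 κ z zh w wh + T.p (comb β ξ) * (z * T.P.c1 w + w * T.P.c1 z) =
      z * T.P.c1 χ + w * T.P.c1 ψ + z * (w / T.bh κ) := by
    rw [e0]
    generalize w / T.bh κ = f at *
    generalize z / T.bh κ = f' at *
    grind
  rw [e]
  exact add_mem (add_mem (DF.Le.mul (hK.V_le hz) (q1.c1_le q2 le_rfl) (by linarith))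
    (DF.Le.mul (hK.V_le hw) (p1.c1_le p2 le_rfl) (by linarith)))
    (DF.Le.mul (hK.V_le hz) (pt2_phi hK hw).2 (by linarith))

variable {T} in
private lemma pt2_lft (hK : T.Kp H κ K) (hδ : T.Fix δ) (hz' : z' ∈ T.Vs H (κ + δ))
    (h1 : T.Near z z') (l : T.Lft H κ ξ z zh zt) (hs : δ * T.P.c1 zh ∈ T.d.Le (-1)) :
    ∃ zh', T.Near zh zh' ∧ T.Lft H (κ + δ) ξ z' zh' zt := by
  obtain ⟨zh', k1, k2⟩ := l.ker.exists_near hs
  refine ⟨zh', k2, k1, fun g => ?_, l.mem, by rw [l.tr_eq, h1.1], by rw [l.trH_eq, k2.1]⟩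
  have a1 := k2.σ g
  rw [l.act] at a1
  exact (a1.symm.trans (k2.add (h1.zc_mul _))).uniq (k1.σ (hK.fix.add hδ) g)
    (k1.add (Kr.zc_mul hz'.1.1 _))

variable {T} in
theorem Kp.d2_pert (hK : T.Kp H κ K) (hδ : T.Fix δ) (h : δ ∈ T.d.Le (-m))
    (hξ : T.InK H (κ + δ) ξ') (hz : z ∈ T.Vs H κ) (hw : w ∈ T.Vs H κ)
    (hz' : z' ∈ T.Vs H (κ + δ)) (hw' : w' ∈ T.Vs H (κ + δ)) (h1 : T.Near z z') (h2 : T.Near w w')
    (l1 : ∃ zh zt, T.Lft H κ ξ z zh zt) (l2 : ∃ wh wt, T.Lft H κ ξ w wh wt)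
    (hn : T.p (comb β ξ) ∈ T.d.Le n) (h0 : 0 ≤ n) (hn' : T.p (comb β ξ') ∈ T.d.Le n')
    (hm : n + 2 * K + 2 ≤ m) (hmn : 2 * n' + 4 * n + 10 * K + 7 ≤ 4 * m) :
    T.d2 H (κ + δ) ξ ξ' z' w' = T.d2 H κ ξ ξ' z w + T.RK (T.p (comb β ξ') * δ *
      T.P.c1 (T.E2 κ z (T.lz H κ ξ z).1 w (T.lz H κ ξ w).1)) := by
  have hK0 : (0 : ℝ) ≤ K := Nat.cast_nonneg K
  have l3 := T.lz_spec l1
  have l4 := T.lz_spec l2
  rw [show T.d2 H κ ξ ξ' z w = T.RK (T.yy ξ' * T.E2 κ z (T.lz H κ ξ z).1 w (T.lz H κ ξ w).1) +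
    T.R (comb T.θ ξ' * ((T.lz H κ ξ w).2 * T.P.c1 (T.lz H κ ξ z).1)) from rfl]
  generalize (T.lz H κ ξ z).1 = zh at *
  generalize (T.lz H κ ξ z).2 = zt at *
  generalize (T.lz H κ ξ w).1 = wh at *
  generalize (T.lz H κ ξ w).2 = wt at *
  obtain ⟨a1, a2⟩ := hK.lft_le hz l3 hn h0
  obtain ⟨a3, a4⟩ := hK.lft_le hw l4 hn h0
  obtain ⟨zh', n1, l5⟩ := pt2_lft hK hδ hz' h1 l3 (DF.Le.mul h a2 (by linarith))
  obtain ⟨wh', n2, l6⟩ := pt2_lft hK hδ hw' h2 l4 (DF.Le.mul h a4 (by linarith))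
  have hK' := hK.pert hδ (DF.Le.mono h (by linarith))
  have v1 := hK.V_le hz
  have v2 := hK.V_c1_le hz
  have v3 := hK.V_le hw
  have v4 := hK.V_c1_le hw
  have e1 := T.prod_pert hK.fix hδ h hz.1.1 l4.ker hz'.1.1 l6.ker h1 n2
    (M := 4 * n + 10 * K + 4) v1 v2 a3 a4 (by linarith) (by linarith) (by linarith) (by linarith)
    (by linarith) (by linarith) (by linarith) (by linarith)
  have e2 := T.prod_pert hK.fix hδ h l3.ker hw.1.1 l5.ker hw'.1.1 n1 h2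
    (M := 4 * n + 10 * K + 4) a1 a2 v3 v4 (by linarith) (by linarith) (by linarith) (by linarith)
    (by linarith) (by linarith) (by linarith) (by linarith)
  have e3 := T.prod_pert hK.fix hδ h hz.1.1 hw.1.1 hz'.1.1 hw'.1.1 h1 h2
    (M := 4 * n + 10 * K + 4) v1 v2 v3 v4 (by linarith) (by linarith) (by linarith) (by linarith)
    (by linarith) (by linarith) (by linarith) (by linarith)
  have e4 := add_mem (add_mem e1 e2) e3
  have s1 : T.E2 κ z zh w wh = z * wh / T.bh κ + zh * w / T.bh κ + z * w / T.bh κ := by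
    rw [E2, add_div, add_div]
  have s2 : T.E2 (κ + δ) z' zh' w' wh' =
      z' * wh' / T.bh (κ + δ) + zh' * w' / T.bh (κ + δ) + z' * w' / T.bh (κ + δ) := by
    rw [E2, add_div, add_div]
  have e5 : T.E2 (κ + δ) z' zh' w' wh' + T.E2 κ z zh w wh +
      (δ * T.P.c1 (T.E2 κ z zh w wh)) ^ 2 ∈ T.d.Le (4 * n + 10 * K + 4 - 4 * m) := by
    convert e4 using 1
    rw [s2, s1, PB.c1_add, PB.c1_add]
    generalize z * wh / T.bh κ = x1
    generalize zh * w / T.bh κ = x2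
    generalize z * w / T.bh κ = x3
    generalize z' * wh' / T.bh (κ + δ) = y1
    generalize zh' * w' / T.bh (κ + δ) = y2
    generalize z' * w' / T.bh (κ + δ) = y3
    grind
  have f1 := hK.E2_fix hz hw l3 l4
  have f2 := hK'.E2_fix hz' hw' l5 l6
  have f3 : T.Fix (T.yy ξ') := T.fix_p _
  have f4 : T.yy ξ' ∈ T.d.Le (2 * n' + 1) := by
    rw [yy_eq]
    exact DF.Le.mul T.b_mem (DF.Le.sq hn' le_rfl) (by linarith)
  have r1 := T.RK_small (f3.mul ((f2.add f1).add ((hδ.mul f1.c1).pow 2)))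
    (DF.Le.mul f4 e5 (by linarith))
  have r2 := T.RK_c1 (T.fix_b.mul ((((T.fix_p (comb β ξ')).mul hδ).mul f1.c1).pow 2))
  rw [PB.c1_b_sq] at r2
  have r3 : T.yy ξ' * (δ * T.P.c1 (T.E2 κ z zh w wh)) ^ 2 =
      T.P.b * (T.p (comb β ξ') * δ * T.P.c1 (T.E2 κ z zh w wh)) ^ 2 := by
    rw [yy_eq]
    ring
  rw [mul_add, mul_add, RK_add, RK_add, r3, ← r2] at r1
  rw [hK'.d2_eq hξ hz' hw' l5 l6, n1.1]
  clear r2
  generalize T.RK (T.yy ξ' * T.E2 (κ + δ) z' zh' w' wh') = u1 at *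
  generalize T.RK (T.yy ξ' * T.E2 κ z zh w wh) = u2 at *
  generalize T.RK (T.p (comb β ξ') * δ * T.P.c1 (T.E2 κ z zh w wh)) = u3 at *
  generalize T.R (comb T.θ ξ' * (wt * T.P.c1 zh)) = u4
  revert u1 u2 u3 u4
  decide

end Tw

end Pool.Agent.Lib.MP_788af2_nt.AS
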