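import Pool.Agent.Lib.MP_788af2_nt.TT.FlipA
import Pool.Agent.Lib.MP_788af2_nt.TT.Pert2
import Pool.Agent.Lib.MP_788af2_nt.TT.Frame

/-!
The second variation along the flips.
-/

set_option linter.unusedSectionVars false

namespace Pool.Agent.Lib.MP_788af2_nt.AS

open Polynomial WeierstrassCurve Pool.Agent.Lib.MP_a3f657_nt.Two

variable {k : Type} [Field k] [Finite k] [CharP k 2] {s : k[X]} {R D c : ℕ} {L : Type} [Field L]
  [CharP L 2] (T : Tw (bet s R D c) L) {Hf : k[X] → AddSubgroup L} {b : k[X]}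
  {e r K s₀ J₀ K₃ K₄ N ε : ℕ}

/-- The element governing the second variation. -/
noncomputable def Tw.Ov (H : AddSubgroup L) (κ : L) (l₀ : Fin R) (p : Fin r → L)
    (w : Fin R → Fin r → L) (ξ : Fin R → G (Ix fun _ : Fin R => D)) : L :=
  ∑ l with l ≤ l₀, ∑ a,
    T.P.c1 (T.E2 κ (p a) (T.lz H κ (ξ l) (p a)).1 (w l a) (T.lz H κ (ξ l) (w l a)).1)

private lemma bad2a_fib {Γ Ξ : Type} [Finite Γ] (S : Set (Γ × Ξ)) (P : Finset Ξ)
    (hS : ∀ q ∈ S, q.2 ∈ P) : S.ncard ≤ ∑ ξ ∈ P, {γ | (γ, ξ) ∈ S}.ncard := by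
  classical
  let F : Ξ → Finset Γ := fun ξ => (Set.toFinite {γ | (γ, ξ) ∈ S}).toFinset
  have h1 : S ⊆ ↑(P.biUnion fun ξ => (F ξ).image fun γ => (γ, ξ)) := by
    rintro ⟨γ, ξ⟩ hq
    simp only [Finset.coe_biUnion, Set.mem_iUnion, Finset.mem_coe, Finset.mem_image]
    exact ⟨ξ, hS _ hq, γ, by simpa [F] using hq, rfl⟩
  refine (Set.ncard_le_ncard h1 (Finset.finite_toSet _)).trans ?_
  rw [Set.ncard_coe_finset]
  refine Finset.card_biUnion_le.trans (Finset.sum_le_sum fun ξ _ => ?_)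
  rw [Set.ncard_eq_toFinset_card _ (Set.toFinite _)]
  exact Finset.card_image_le

private lemma bad2a_pre {Γ : Type} [Zero Γ] [DecidableEq Γ] {X : Fin R → Finset Γ} {m l : Fin R}
    {ξ : Fin R → Γ} (h : ξ ∈ pre X m) (hl : l < m) : ξ l ∈ X l := by
  have := Fintype.mem_piFinset.1 h l
  rwa [if_pos hl] at this

private lemma bad2a_one {H : AddSubgroup L} {κ : L} (hK : T.Kp H κ K) (hs : s.natDegree ≤ K)
    (hs₀ : 2 * K * e + 1 ≤ s₀) (he : Nat.card k ≤ 2 ^ e) {l : Fin R}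
    {x : G (Ix fun _ : Fin R => D)} (hx : x ∈ T.Xb H κ l) {z w : L} (hz : z ∈ T.Vs H κ)
    (hw : w ∈ T.Vs H κ) :
    T.Fix (T.P.c1 (T.E2 κ z (T.lz H κ x z).1 w (T.lz H κ x w).1)) ∧
      T.P.c1 (T.E2 κ z (T.lz H κ x z).1 w (T.lz H κ x w).1) ∈
        T.d.Le (((K : ℝ) + 4 ^ (l : ℕ) * c + D) / 2 + 2 * K) ∧
      T.P.c1 (T.E2 κ z (T.lz H κ x z).1 w (T.lz H κ x w).1) +
        T.P.c1 (T.p (comb (bet s R D c) x) * (z * T.P.c1 w + w * T.P.c1 z)) ∈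
        T.d.Le (((K : ℝ) + 4 ^ (l : ℕ) * c + D) / 4 + 2 * K) := by
  obtain ⟨hb, hi⟩ := T.mem_Xb.1 hx
  obtain ⟨n, -, vv, ν, B, hF⟩ := T.exists_frm hK he hs₀
  have l1 := T.lz_spec (hF.lift x hi z hz)
  have l2 := T.lz_spec (hF.lift x hi w hw)
  have hn := T.blk_le hs hb
  have h0 : (0 : ℝ) ≤ (K : ℝ) + 4 ^ (l : ℕ) * c + D := by positivity
  have hK0 : (0 : ℝ) ≤ K := by positivity
  have hf := hK.E2_fix hz hw l1 l2
  have hnear := hK.E2_near hz hw l1 l2 hn h0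
  have hzf : T.Fix z := hz.2
  have hwf : T.Fix w := hw.2
  have hg : z * T.P.c1 w + w * T.P.c1 z ∈ T.d.Le (3 * K) :=
    add_mem (DF.Le.mul (hK.V_le hz) (hK.V_c1_le hw) (by linarith))
      (DF.Le.mul (hK.V_le hw) (hK.V_c1_le hz) (by linarith))
  have hgf : T.Fix (T.p (comb (bet s R D c) x) * (z * T.P.c1 w + w * T.P.c1 z)) :=
    (T.fix_p _).mul ((hzf.mul hwf.c1).add (hwf.mul hzf.c1))
  have hE : T.E2 κ z (T.lz H κ x z).1 w (T.lz H κ x w).1 ∈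
      T.d.Le (((K : ℝ) + 4 ^ (l : ℕ) * c + D) + 4 * K) := by
    have := sub_mem (DF.Le.mono hnear (c := ((K : ℝ) + 4 ^ (l : ℕ) * c + D) + 4 * K) (by linarith))
      (DF.Le.mul hn hg (by linarith))
    rwa [add_sub_cancel_right] at this
  refine ⟨hf.c1, hf.c1_le hE (by linarith), ?_⟩
  rw [← PB.c1_add]
  exact (hf.add hgf).c1_le hnear (by linarith)

lemma Tw.Ov_bd {H : AddSubgroup L} {κ : L} (hK : T.Kp H κ K) (hs : s.natDegree ≤ K)
    (hP : Prm e r R K s₀ J₀ K₃ K₄ D c ε) (he : Nat.card k ≤ 2 ^ e) {m l₀ : Fin R} (hl : l₀ < m)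
    {p : Fin r → L} {w : Fin R → Fin r → L} (hp : ∀ a, p a ∈ T.Vs H κ)
    (hw : ∀ l a, w l a ∈ T.Vs H κ) {ξ : Fin R → G (Ix fun _ : Fin R => D)}
    (hξ : ξ ∈ pre (T.Xb H κ) m) : T.Fix (T.Ov H κ l₀ p w ξ) ∧
      T.Ov H κ l₀ p w ξ ∈ T.d.Le ((K : ℝ) + 4 ^ (m : ℕ) * c + D) ∧
      T.Ov H κ l₀ p w ξ + T.P.c1 (T.p (comb (bet s R D c) (ξ l₀)) * T.gw p (w l₀)) ∈
        T.d.Le (4 ^ (l₀ : ℕ) * c / 4 + D + 6 * K) := by
  have key := fun (l : Fin R) (h : l ≤ l₀) (a : Fin r) =>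
    bad2a_one T hK hs hP.hs he (bad2a_pre hξ (lt_of_le_of_lt h hl)) (hp a) (hw l a)
  have hK0 : (0 : ℝ) ≤ K := by positivity
  have hD0 : (0 : ℝ) ≤ D := by positivity
  have hc0 : (0 : ℝ) ≤ c := by positivity
  have hc : 24 * (K : ℝ) ≤ c := by
    have : 24 * K ≤ c := by have := hP.hc; omega
    exact_mod_cast this
  refine ⟨?_, ?_, ?_⟩
  · exact Tw.Fix.sum _ fun l h => Tw.Fix.sum _ fun a _ =>
      (key l (Finset.mem_filter.1 h).2 a).1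
  · refine sum_mem fun l h => sum_mem fun a _ => ?_
    have h1 : l ≤ l₀ := (Finset.mem_filter.1 h).2
    refine DF.Le.mono (key l h1 a).2.1 ?_
    have h2 : (4 : ℝ) ^ (l : ℕ) ≤ 4 ^ (m : ℕ) :=
      pow_le_pow_right₀ (by norm_num) (Fin.le_def.1 (h1.trans hl.le))
    have h3 : (1 : ℝ) ≤ 4 ^ (m : ℕ) := one_le_pow₀ (by norm_num)
    have h4 := mul_le_mul_of_nonneg_right h2 hc0
    have h5 := mul_le_mul_of_nonneg_right h3 hc0
    linarith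
  · have hmem : l₀ ∈ Finset.univ.filter fun l : Fin R => l ≤ l₀ := by simp
    have hcomm : ∀ x y z : L, x + y + z = x + z + y := add_right_comm
    rw [Tw.Ov, ← Finset.add_sum_erase _ _ hmem, hcomm]
    refine add_mem ?_ (sum_mem fun l h => sum_mem fun a _ => ?_)
    · rw [Tw.gw, Finset.mul_sum, T.c1_sum, ← Finset.sum_add_distrib]
      refine sum_mem fun a _ => DF.Le.mono (key l₀ le_rfl a).2.2 ?_
      linarith
    · obtain ⟨h0, h1⟩ := Finset.mem_erase.1 h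
      have h1' : l ≤ l₀ := (Finset.mem_filter.1 h1).2
      refine DF.Le.mono (key l h1' a).2.1 ?_
      have h2 : (l : ℕ) + 1 ≤ l₀ := Fin.lt_def.1 (lt_of_le_of_ne h1' h0)
      have h3 : (4 : ℝ) ^ ((l : ℕ) + 1) ≤ 4 ^ (l₀ : ℕ) := pow_le_pow_right₀ (by norm_num) h2
      rw [pow_succ] at h3
      have h4 := mul_le_mul_of_nonneg_right h3 hc0
      have h5 : (0 : ℝ) ≤ 4 ^ (l : ℕ) * c := by positivity
      nlinarith

/-- The count of the pairs (tuple, flip) on which the varied functional vanishes. -/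
theorem Tw.pairs2 (hC : T.Cfg Hf K b s N ε) (hP : Prm e r R K s₀ J₀ K₃ K₄ D c ε)
    (he : Nat.card k ≤ 2 ^ e) {a : k[X]} (ha : a ∈ Ae k N ε) {m l₀ : Fin R} (hl : l₀ < m)
    {i J m' : ℕ} (hF : s.natDegree + i + J + m' = ε + 1) (hJ : J = 4 ^ (m : ℕ) * c + D + 2 * K + 2)
    (hm : m' = (4 ^ (m : ℕ) * c + D + 5 * K + 3) / 2) {p : Fin r → L} {w : Fin R → Fin r → L}
    (hp : ∀ j, p j ∈ T.Vs (Hf a) (T.kap a b)) (hw : ∀ l j, w l j ∈ T.Vs (Hf a) (T.kap a b))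
    (hg : T.gw p (w l₀) ∉ T.d.Le (-K₄))
    (u : (Fin R → G (Ix fun _ : Fin R => D)) → G (Ix fun _ : Fin R => D) → ZMod 2) :
    {q : (Fin J → k) × (Fin R → G (Ix fun _ : Fin R => D)) |
      q.2 ∈ pre (T.Xb (Hf a) (T.kap a b)) m ∧ ∀ x ∈ T.Xb (Hf a) (T.kap a b) m,
        u q.2 x + T.RK (T.p (comb (bet s R D c) x) * T.del a b (mu s i J q.1) *
          T.Ov (Hf a) (T.kap a b) l₀ p w q.2) = 0}.ncard * 2 ^ (D / 2) ≤
      2 ^ (s₀ ^ 2 + 1) * Nat.card k ^ J * (pre (T.Xb (Hf a) (T.kap a b)) m).card := by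
  classical
  have hK := hC.kp ha
  set H := Hf a with hH
  set κ := T.kap a b with hκ
  set P := pre (T.Xb H κ) m with hPdef
  set thr : ℝ := 4 ^ (l₀ : ℕ) * c / 4 + D + 6 * K with hthr
  set E : Set (G (Ix fun _ : Fin R => D)) :=
    {x | T.P.c1 (T.p (comb (bet s R D c) x) * T.gw p (w l₀)) ∈ T.d.Le thr} with hE
  have hK0 : (0 : ℝ) ≤ K := by positivity
  have hD0 : (0 : ℝ) ≤ D := by positivity
  have hc0 : (0 : ℝ) ≤ c := by positivity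
  have hpos : ∀ l, 0 < (T.Xb H κ l).card := fun l => Finset.card_pos.2 ⟨0, T.zero_mem_Xb l⟩
  have hcard := fun l => T.card_Xb hK he hP.hs l
  -- the exceptional tuples
  have hgf : T.Fix (T.gw p (w l₀)) := Tw.Fix.sum _ fun j _ =>
    (Tw.Fix.mul (hp j).2 (Tw.Fix.c1 (hw l₀ j).2)).add
      (Tw.Fix.mul (hw l₀ j).2 (Tw.Fix.c1 (hp j).2))
  have hexc : (P.filter fun ξ => ξ l₀ ∈ E).card * 2 ^ (D / 2) ≤ 2 ^ s₀ ^ 2 * P.card := by
    have hc : 4 * (D : ℝ) + 24 * K + 2 * K₄ + 2 ≤ c := by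
      have : 4 * D + 24 * K + 2 * K₄ + 2 ≤ c := by have := hP.hc; omega
      exact_mod_cast this
    have h3 : (1 : ℝ) ≤ 4 ^ (l₀ : ℕ) := one_le_pow₀ (by norm_num)
    have h5 := mul_le_mul_of_nonneg_right h3 hc0
    have h1 := T.cnt2 hC.s_ne l₀ hgf (thr := thr) hg (by rw [hthr]; linarith)
    have h2 := pre_fiber (T.Xb H κ) hl E
    have h6 : {x | x ∈ T.Xb H κ l₀ ∧ x ∈ E}.ncard ≤ {ξ | ξ ∈ Blk (fun _ : Fin R => D) l₀ ∧
        T.P.c1 (T.p (comb (bet s R D c) ξ) * T.gw p (w l₀)) ∈ T.d.Le thr}.ncard :=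
      Set.ncard_le_ncard (fun x hx => ⟨(T.mem_Xb.1 hx.1).1, hx.2⟩) (Set.toFinite _)
    have h7 : {ξ | ξ ∈ pre (T.Xb H κ) m ∧ ξ l₀ ∈ E}.ncard =
        (P.filter fun ξ => ξ l₀ ∈ E).card := by
      rw [← Set.ncard_coe_finset]
      congr 1
      ext ξ
      simp [hPdef]
    rw [h7] at h2
    refine Nat.le_of_mul_le_mul_right ?_ (hpos l₀)
    calc (P.filter fun ξ => ξ l₀ ∈ E).card * 2 ^ (D / 2) * (T.Xb H κ l₀).card
        = (P.filter fun ξ => ξ l₀ ∈ E).card * (T.Xb H κ l₀).card * 2 ^ (D / 2) := by ring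
      _ ≤ {x | x ∈ T.Xb H κ l₀ ∧ x ∈ E}.ncard * P.card * 2 ^ (D / 2) :=
          Nat.mul_le_mul_right _ h2
      _ = {x | x ∈ T.Xb H κ l₀ ∧ x ∈ E}.ncard * 2 ^ (D / 2) * P.card := by ring
      _ ≤ 2 ^ D * P.card :=
          Nat.mul_le_mul_right _ ((Nat.mul_le_mul_right _ h6).trans h1)
      _ ≤ (T.Xb H κ l₀).card * 2 ^ s₀ ^ 2 * P.card := Nat.mul_le_mul_right _ (hcard l₀)
      _ = 2 ^ s₀ ^ 2 * P.card * (T.Xb H κ l₀).card := by ring
  -- the other tuples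
  have hm1 : 4 ^ (m : ℕ) * c + D + 5 * K + 2 ≤ 2 * m' := by omega
  have hm2 : 2 * m' ≤ 4 ^ (m : ℕ) * c + D + 5 * K + 3 := by omega
  have hm1' : (4 : ℝ) ^ (m : ℕ) * c + D + 5 * K + 2 ≤ 2 * m' := by exact_mod_cast hm1
  have hm2' : 2 * (m' : ℝ) ≤ 4 ^ (m : ℕ) * c + D + 5 * K + 3 := by exact_mod_cast hm2
  have hJ' : (J : ℝ) = 4 ^ (m : ℕ) * c + D + 2 * K + 2 := by exact_mod_cast hJ
  have hm0 : (0 : ℝ) ≤ m' := by positivity
  have hreg : ∀ ξ ∈ P, ξ l₀ ∉ E → {γ : Fin J → k | ∀ x ∈ T.Xb H κ m,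
      u ξ x + T.RK (T.p (comb (bet s R D c) x) * T.del a b (mu s i J γ) *
        T.Ov H κ l₀ p w ξ) = 0}.ncard * 2 ^ (D / 2) ≤ 2 ^ s₀ ^ 2 * Nat.card k ^ J := by
    intro ξ hξ hne
    obtain ⟨o0, o1, o2⟩ := T.Ov_bd hK hC.s_le hP he hl hp hw hξ
    have o3 : T.Ov H κ l₀ p w ξ ∉ T.d.Le ((D : ℝ) + 6 * K) := fun h => hne (by
      have h5 : (0 : ℝ) ≤ 4 ^ (l₀ : ℕ) * c / 4 := by positivity
      have := sub_mem o2 (DF.Le.mono h (by linarith))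
      rwa [add_sub_cancel_left] at this)
    have h1 := T.flipA hC hF (by omega) ha m (T.Xb H κ m) (fun x hx => (T.mem_Xb.1 hx).1)
      (T.zero_mem_Xb m) (fun x hx y hy => T.add_mem_Xb hx hy) o0 o1 o3 (by linarith)
      (by linarith) (by linarith) (u ξ)
    refine Nat.le_of_mul_le_mul_right ?_ (hpos m)
    calc _ = _ * (T.Xb H κ m).card * 2 ^ (D / 2) := by ring
      _ ≤ 2 ^ D * Nat.card k ^ J := h1
      _ ≤ (T.Xb H κ m).card * 2 ^ s₀ ^ 2 * Nat.card k ^ J := Nat.mul_le_mul_right _ (hcard m)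
      _ = _ := by ring
  refine (Nat.mul_le_mul_right _ (bad2a_fib _ P fun q hq => hq.1)).trans ?_
  rw [Finset.sum_mul]
  have hall : ∀ S : Set (Fin J → k), S.ncard ≤ Nat.card k ^ J := fun S => by
    have := Set.ncard_le_card S
    rwa [Nat.card_fun, Nat.card_eq_fintype_card (α := Fin J), Fintype.card_fin] at this
  calc _ ≤ ∑ ξ ∈ P, ((if ξ l₀ ∈ E then Nat.card k ^ J * 2 ^ (D / 2) else 0) +
        2 ^ s₀ ^ 2 * Nat.card k ^ J) := by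
        refine Finset.sum_le_sum fun ξ hξ => ?_
        by_cases h : ξ l₀ ∈ E
        · rw [if_pos h]
          exact (Nat.mul_le_mul_right _ (hall _)).trans (Nat.le_add_right _ _)
        · rw [if_neg h, zero_add]
          refine le_trans (Nat.mul_le_mul_right _ ?_) (hreg ξ hξ h)
          exact Set.ncard_le_ncard (fun γ hγ => hγ.2) (Set.toFinite _)
    _ = Nat.card k ^ J * ((P.filter fun ξ => ξ l₀ ∈ E).card * 2 ^ (D / 2)) +
        2 ^ s₀ ^ 2 * Nat.card k ^ J * P.card := by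
        rw [Finset.sum_add_distrib, ← Finset.sum_filter, Finset.sum_const, Finset.sum_const,
          smul_eq_mul, smul_eq_mul]
        ring
    _ ≤ Nat.card k ^ J * (2 ^ s₀ ^ 2 * P.card) + 2 ^ s₀ ^ 2 * Nat.card k ^ J * P.card :=
        Nat.add_le_add_right (Nat.mul_le_mul_left _ hexc) _
    _ = _ := by rw [pow_succ]; ring

end Pool.Agent.Lib.MP_788af2_nt.AS
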