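import Pool.Agent.Lib.MP_788af2_nt.TT.Flp
import Pool.Agent.Lib.MP_788af2_nt.TT.Pert
import Pool.Agent.Lib.MP_788af2_nt.TT.Moore

/-!
The cubic is rarely close to one.
-/

set_option linter.unusedSectionVars false

namespace Pool.Agent.Lib.MP_788af2_nt.AS

open Polynomial WeierstrassCurve Pool.Agent.Lib.MP_a3f657_nt.Two

namespace Tw

variable {k : Type} [Field k] [Finite k] [CharP k 2] {I : Type} [Fintype I] [DecidableEq I]
  {β : I → k[X]} {L : Type} [Field L] [CharP L 2] (T : Tw β L)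

variable {Hf : k[X] → AddSubgroup L} {b s : k[X]} {e r R K s₀ J₀ K₃ K₄ D c N ε : ℕ}

/-- The witnesses of failure. -/
private def b3Bad (H : AddSubgroup L) (κ : L) (K₃ : ℕ) (t : L × L) : Prop :=
  t.1 ∈ T.Vs H κ ∧ t.2 ∈ T.Vs H κ ∧ t.1 ≠ 0 ∧ t.1 ≠ 1 ∧ Gq t.1 t.2 + 1 ∈ T.d.Le (-K₃)

private lemma b3_kr {H : AddSubgroup L} {κ z : L} (hz : z ∈ T.Vs H κ) : T.Kr κ z := hz.1.1

private lemma b3_c1 {H : AddSubgroup L} {κ : L} (hK : T.Kp H κ K) (h4 : 4 * K + 1 ≤ K₃)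
    {t : L × L} (ht : T.b3Bad H κ K₃ t) :
    T.P.c1 t.1 ≠ 0 ∧ T.P.c1 t.2 ≠ 0 ∧ T.P.c1 (t.1 + t.2) ≠ 0 := by
  obtain ⟨z, w⟩ := t
  obtain ⟨hz, hw, h0, h1, hs⟩ := ht
  simp only at hz hw h0 h1 hs ⊢
  have h4' : (4 * K + 1 : ℝ) ≤ K₃ := by exact_mod_cast h4
  have hK0 : (0 : ℝ) ≤ K := Nat.cast_nonneg K
  have hone : (1 : L) ∉ T.d.Le (-K₃) := by
    rw [DF.mem_Le_iff one_ne_zero, DF.deg_one]
    linarith
  have hsq : (z + 1) ^ 2 ∉ T.d.Le (-K₃) := by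
    intro h
    have h5 : z + 1 ≠ 0 := fun e => h1 (by grind)
    exact hK.V_not_le (add_mem hz (T.one_mem_Vs H κ)) h5 (DF.Le.of_sq h (by linarith))
  refine ⟨fun e => ?_, fun e => ?_, fun e => ?_⟩
  · rcases (T.b3_kr hz).cases e with e | e
    exacts [h0 e, h1 e]
  · rcases (T.b3_kr hw).cases e with e | e
    · exact hone (by simpa [Gq, e] using hs)
    · refine hsq ?_
      rwa [show Gq z w + 1 = (z + 1) ^ 2 by rw [e, Gq]; grind] at hs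
  · rcases (T.b3_kr (add_mem hz hw)).cases e with e | e
    · refine hsq ?_
      rwa [show Gq z w + 1 = (z + 1) ^ 2 by
        rw [show w = z by grind, Gq]; grind] at hs
    · refine hone ?_
      rwa [show Gq z w + 1 = 1 by
        rw [show w = z + 1 by grind, Gq]; grind] at hs

private lemma b3_cub {d : DF L} {x y u : L} {r : ℝ} (hr : 0 ≤ r) (hx : x ∈ d.Le r)
    (hy : y ∈ d.Le r) (hu : u ∈ d.Le r) : x * y * u + 1 ∈ d.Le (3 * r) :=
  add_mem (DF.Le.mul (DF.Le.mul hx hy le_rfl) hu (by linarith)) (DF.Le.one (by linarith))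

private lemma b3_six {a : k[X]} {i m : ℕ} (hC : T.Cfg Hf K b s N ε)
    (hF : s.natDegree + i + J₀ + m = ε + 1) (hm : 1 ≤ m)
    (h3 : 30 * K + 12 * (2 * (m + J₀) + K) + 1 ≤ K₃) (ha : a ∈ Ae k N ε) {t : L × L}
    (ht : T.b3Bad (Hf a) (T.kap a b) K₃ t) :
    {γ : Fin J₀ → k | ∃ t' : L × L, (T.Near t.1 t'.1 ∧ T.Near t.2 t'.2) ∧
      T.b3Bad (Hf (a + X * mu s i J₀ γ ^ 2)) (T.kap (a + X * mu s i J₀ γ ^ 2) b) K₃ t'}.ncard
        ≤ 6 := by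
  classical
  by_contra hcon
  obtain ⟨S, hS, hc⟩ := Set.exists_subset_card_eq (not_le.1 hcon : 6 + 1 ≤ _)
  have hfin : S.Finite := Set.toFinite S
  rw [Set.ncard_eq_toFinset_card S hfin] at hc
  let eq := (hfin.toFinset.equivFinOfCardEq hc).symm
  let γ : Fin (6 + 1) → Fin J₀ → k := fun j => (eq j).1
  have hγ : ∀ j, γ j ∈ S := fun j => hfin.mem_toFinset.1 (eq j).2
  have hinj : ∀ j j', j ≠ j' → γ j ≠ γ j' := fun j j' h e => h (eq.injective (Subtype.ext e))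
  choose t' hN hB using fun j => hS (hγ j)
  have hK := hC.kp ha
  obtain ⟨c1, c2, c3⟩ := T.b3_c1 hK (by omega) ht
  obtain ⟨f, f1, f2, f3⟩ := norm_poly (T.P.c1 t.1) (T.P.c1 t.2)
  have hK0 : (0 : ℝ) ≤ K := Nat.cast_nonneg K
  have h3' : (30 * K + 12 * (2 * (m + J₀) + K) + 1 : ℝ) ≤ K₃ := by exact_mod_cast h3
  have key := lagr T.d f f1 (fun j => T.bh (T.kap (a + X * mu s i J₀ (γ j) ^ 2) b))
    (c := 2 * (2 * (m + J₀) + K)) (r := 18 * K - K₃) (fun j j' h => by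
      obtain ⟨d1, -, d3⟩ := hC.del_diff hF hm ha (hinj j j' h)
      have e : T.bh (T.kap (a + X * mu s i J₀ (γ j) ^ 2) b) +
          T.bh (T.kap (a + X * mu s i J₀ (γ j') ^ 2) b) =
          (T.del a b (mu s i J₀ (γ j)) + T.del a b (mu s i J₀ (γ j'))) ^ 2 := by
        rw [hC.flip_kap hF hm ha, hC.flip_kap hF hm ha, bh, bh]
        grind
      simp only [e]
      refine ⟨pow_ne_zero 2 d1, ?_⟩
      rw [DF.deg_sq d1]
      linarith) (fun j => by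
      obtain ⟨hz, hw, -, -, hs⟩ := hB j
      have hK' := hC.kp (hC.flip_mem hF hm ha (γ j))
      have z1 := hK'.V_le hz
      have w1 := hK'.V_le hw
      have o1 : (1 : L) ∈ T.d.Le (2 * K) := DF.Le.one (by linarith)
      have k1 := T.b3_kr hz
      have k2 := T.b3_kr hw
      unfold Kr at k1 k2
      rw [(hN j).1.1] at k1
      rw [(hN j).2.1] at k2
      rw [f3 _ _ _ k1 k2]
      have h2K : (0 : ℝ) ≤ 2 * K := by linarith
      exact DF.Le.mul (DF.Le.mul (DF.Le.mul hs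
        (b3_cub h2K (add_mem z1 o1) w1 (add_mem z1 w1)) le_rfl)
        (b3_cub h2K z1 (add_mem w1 o1) (add_mem z1 w1)) le_rfl)
        (b3_cub h2K (add_mem z1 o1) (add_mem w1 o1) (add_mem (add_mem o1 z1) w1))
        (by linarith))
  have g1 := (DF.not_mem_Le.1 (hK.V_c1_not_le ht.1 c1)).2
  have g2 := (DF.not_mem_Le.1 (hK.V_c1_not_le ht.2.1 c2)).2
  have g3 := (DF.not_mem_Le.1 (hK.V_c1_not_le (add_mem ht.1 ht.2.1) c3)).2
  rw [PB.c1_add] at g3 c3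
  rw [f2, DF.mem_Le_iff (pow_ne_zero 4 (mul_ne_zero (mul_ne_zero c1 c2) c3)),
    DF.deg_pow (mul_ne_zero (mul_ne_zero c1 c2) c3), T.d.deg_mul (mul_ne_zero c1 c2) c3,
    T.d.deg_mul c1 c2] at key
  push_cast at key
  linarith

theorem bad3 (hC : T.Cfg Hf K b s N ε) (hP : Prm e r R K s₀ J₀ K₃ K₄ D c ε)
    (he : Nat.card k ≤ 2 ^ e) :
    {a | a ∈ Ae k N ε ∧ ¬ T.Gd3 (Hf a) (T.kap a b) K₃}.ncard * 2 ^ K ≤ (Ae k N ε).card := by
  classical
  let _ : Fintype k := Fintype.ofFinite k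
  have hs := hC.s_le
  have e2 := hP.e2
  obtain ⟨i, hF⟩ : ∃ i, s.natDegree + i + J₀ + (4 * K + 1) = ε + 1 :=
    ⟨ε + 1 - s.natDegree - J₀ - (4 * K + 1), by omega⟩
  have hm : 1 ≤ 4 * K + 1 := by omega
  have hK0 : (0 : ℝ) ≤ K := Nat.cast_nonneg K
  have key := coset2 (Γ := Fin J₀ → k) (Ae k N ε) (fun γ a => a + X * mu s i J₀ γ ^ 2)
    (fun a => by simp [mu_zero]) (fun γ γ' a => by rw [mu_add, flip_add])
    (fun γ a ha => hC.flip_mem hF hm ha γ)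
    (fun a (t : L × L) => T.b3Bad (Hf a) (T.kap a b) K₃ t)
    (fun t t' => T.Near t.1 t'.1 ∧ T.Near t.2 t'.2) (fun t t' h => ⟨h.1.symm, h.2.symm⟩)
    (fun t t' t'' h h' => ⟨h.1.trans h'.1, h.2.trans h'.2⟩) (2 ^ s₀ * 2 ^ s₀) 1 6
    (fun a ha => by
      have hK := hC.kp ha
      obtain ⟨S, hS, hV⟩ := hK.exists_V' he hP.hs
      refine ⟨S ×ˢ S, by rw [Finset.card_product]; exact Nat.mul_le_mul hS hS, ?_⟩
      rintro γ t ⟨hz, hw, -⟩
      rw [hC.flip_H, hC.flip_kap hF hm ha] at hz hw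
      have hd : T.del a b (mu s i J₀ γ) ∈ T.d.Le (-K - 1) :=
        DF.Le.mono (hC.del_le hF hm ha γ) (by push_cast; linarith)
      obtain ⟨z, z1, z2⟩ := hK.exists_near' (T.del_fix _ _ _) hd hz
      obtain ⟨w, w1, w2⟩ := hK.exists_near' (T.del_fix _ _ _) hd hw
      exact ⟨(z, w), Finset.mem_product.2 ⟨(hV z).2 z1, (hV w).2 w1⟩, z2, w2⟩)
    (fun a ha t ht => by
      rw [mul_one]
      exact T.b3_six hC hF hm hP.h3 ha ht)
  have hset : {a | a ∈ Ae k N ε ∧ ¬ T.Gd3 (Hf a) (T.kap a b) K₃} =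
      {a | a ∈ Ae k N ε ∧ ∃ t : L × L, T.b3Bad (Hf a) (T.kap a b) K₃ t} := by
    ext a
    simp only [Set.mem_ofPred_eq, Gd3, b3Bad, not_forall, not_not, Prod.exists, exists_prop]
    refine and_congr_right fun _ => ⟨?_, ?_⟩
    · rintro ⟨z, hz, w, hw, h⟩
      exact ⟨z, w, hz, hw, h⟩
    · rintro ⟨z, w, hz, hw, h⟩
      exact ⟨z, hz, w, hw, h⟩
  rw [hset]
  have hq : 2 ^ (2 * s₀ + K + 3) ≤ Fintype.card (Fin J₀ → k) := by
    rw [Fintype.card_fun, Fintype.card_fin]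
    have hJ := hP.hJ
    exact (Nat.pow_le_pow_right two_pos (by omega)).trans
      (Nat.pow_le_pow_left Fintype.one_lt_card J₀)
  generalize {a | a ∈ Ae k N ε ∧ ∃ t : L × L, T.b3Bad (Hf a) (T.kap a b) K₃ t}.ncard = x
    at key ⊢
  have h1 : x * 2 ^ (2 * s₀ + K + 3) ≤ 2 ^ s₀ * 2 ^ s₀ * 6 * (Ae k N ε).card :=
    (Nat.mul_le_mul_left x hq).trans (by simpa using key)
  have h2 : 2 ^ s₀ * 2 ^ s₀ * (8 * (x * 2 ^ K)) ≤ 2 ^ s₀ * 2 ^ s₀ * (6 * (Ae k N ε).card) := by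
    calc _ = x * 2 ^ (2 * s₀ + K + 3) := by ring
      _ ≤ _ := h1
      _ = _ := by ring
  have h3 := Nat.le_of_mul_le_mul_left h2 (by positivity)
  omega

end Tw

end Pool.Agent.Lib.MP_788af2_nt.AS
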