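import Pool.Agent.Lib.MP_788af2_nt.TT.Poly

/-!
The exceptional coefficients are rare.
-/

set_option linter.unusedSectionVars false

namespace Pool.Agent.Lib.MP_788af2_nt.AS

open Polynomial WeierstrassCurve Pool.Agent.Lib.MP_a3f657_nt.Two

variable {k : Type} [Field k] [Finite k] [CharP k 2]

private lemma bb_two_le : 2 ≤ Nat.card k := Finite.one_lt_card

/-- A set of polynomials whose members agree outside a finite set of indices is small. -/
private lemma bb_agree (A : Set k[X]) (S : Finset ℕ)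
    (h : ∀ f ∈ A, ∀ g ∈ A, ∀ i, i ∉ S → f.coeff i = g.coeff i) :
    A.Finite ∧ A.ncard ≤ Nat.card k ^ S.card := by
  have hinj : Set.InjOn (fun (f : k[X]) (i : S) => f.coeff i) A := by
    intro f hf g hg e
    ext i
    by_cases hi : i ∈ S
    · exact congrFun e ⟨i, hi⟩
    · exact h f hf g hg i hi
  refine ⟨Set.Finite.of_injOn (t := Set.univ) (fun _ _ => Set.mem_univ _) hinj Set.finite_univ, ?_⟩
  have := Set.ncard_le_ncard_of_injOn (t := Set.univ) _ (fun _ _ => Set.mem_univ _) hinj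
    Set.finite_univ
  rw [Set.ncard_univ, Nat.card_fun, Nat.card_eq_fintype_card (α := S), Fintype.card_coe] at this
  exact this

private lemma bb_deg (n : ℕ) :
    {f : k[X] | f.natDegree ≤ n}.Finite ∧
      {f : k[X] | f.natDegree ≤ n}.ncard ≤ Nat.card k ^ (n + 1) := by
  have := bb_agree {f : k[X] | f.natDegree ≤ n} (Finset.range (n + 1)) (by
    intro f hf g hg i hi
    rw [Finset.mem_range] at hi
    have hf' : f.natDegree ≤ n := hf
    have hg' : g.natDegree ≤ n := hg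
    rw [coeff_eq_zero_of_natDegree_lt (by omega), coeff_eq_zero_of_natDegree_lt (by omega)])
  rwa [Finset.card_range] at this

private lemma bb_monic (n : ℕ) :
    {f : k[X] | f.Monic ∧ f.natDegree = n}.Finite ∧
      {f : k[X] | f.Monic ∧ f.natDegree = n}.ncard ≤ Nat.card k ^ n := by
  have := bb_agree {f : k[X] | f.Monic ∧ f.natDegree = n} (Finset.range n) (by
    intro f hf g hg i hi
    rw [Finset.mem_range] at hi
    obtain ⟨hf1, hf2⟩ := hf
    obtain ⟨hg1, hg2⟩ := hg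
    rcases (not_lt.1 hi).eq_or_lt with e | e
    · have e1 : f.coeff i = 1 := by rw [← e, ← hf2]; exact hf1.coeff_natDegree
      have e2 : g.coeff i = 1 := by rw [← e, ← hg2]; exact hg1.coeff_natDegree
      rw [e1, e2]
    · rw [coeff_eq_zero_of_natDegree_lt (by omega), coeff_eq_zero_of_natDegree_lt (by omega)])
  rwa [Finset.card_range] at this

/-- The odd indices in a window. -/
private def bbOdd (lo m : ℕ) : Finset ℕ :=
  (Finset.range m).image fun j => 2 * (lo / 2) + 1 + 2 * j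

private lemma bbOdd_card (lo m : ℕ) : (bbOdd lo m).card = m := by
  rw [bbOdd, Finset.card_image_of_injective _ (fun a b e => by omega),
    Finset.card_range]

private lemma bbOdd_mem {lo m i : ℕ} (h : i ∈ bbOdd lo m) :
    ∃ j, i = 2 * j + 1 ∧ lo ≤ i ∧ i < lo + 2 * m := by
  obtain ⟨j, hj, rfl⟩ := Finset.mem_image.1 h
  rw [Finset.mem_range] at hj
  exact ⟨lo / 2 + j, by ring, by omega, by omega⟩

private lemma bb_card_sdiff {lo m n : ℕ} (h : lo + 2 * m ≤ n) :
    (Finset.range n \ bbOdd lo m).card = n - m := by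
  rw [Finset.card_sdiff_of_subset, Finset.card_range, bbOdd_card]
  intro i hi
  obtain ⟨j, -, -, h3⟩ := bbOdd_mem hi
  rw [Finset.mem_range]
  omega

private lemma bb_coeff_odd (f : k[X]) (j : ℕ) (h : (derivative f).coeff (2 * j) = 0) :
    f.coeff (2 * j + 1) = 0 := by
  rw [coeff_derivative] at h
  have h2 : (2 : k) = 0 := CharP.cast_eq_zero k 2
  have e : ((2 * j : ℕ) : k) + 1 = 1 := by
    rw [Nat.cast_mul, Nat.cast_ofNat, h2, zero_mul, zero_add]
  rwa [e, mul_one] at h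

private lemma bb_pow_le {x y m e : ℕ} (hx : x ≤ Nat.card k ^ y) (h : y + m ≤ e) :
    x * 2 ^ m ≤ Nat.card k ^ e := by
  have h2 : 2 ≤ Nat.card k := bb_two_le
  calc x * 2 ^ m ≤ Nat.card k ^ y * Nat.card k ^ m :=
        Nat.mul_le_mul hx (Nat.pow_le_pow_left h2 m)
    _ = Nat.card k ^ (y + m) := (pow_add _ _ _).symm
    _ ≤ Nat.card k ^ e := Nat.pow_le_pow_right (by omega) h

lemma card_box (N : ℕ) : (AllDegAux.box k N).card = Nat.card k ^ (N + 1) := by
  have e1 : Nat.card (degreeLT k (N + 1)) = Nat.card k ^ (N + 1) := by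
    rw [Nat.card_congr (degreeLTEquiv k (N + 1)).toEquiv, Nat.card_fun, Nat.card_fin]
  rw [← e1, ← Fintype.card_coe, ← Nat.card_eq_fintype_card]
  refine Nat.card_congr (Equiv.subtypeEquivRight fun a => ?_)
  rw [AllDegAux.mem_box, mem_degreeLT]
  by_cases ha : a = 0
  · subst ha
    simp
  · rw [← natDegree_lt_iff_degree_lt ha]
    omega

theorem badA (N K : ℕ) (hK : K ≤ N) :
    {a : k[X] | a.natDegree ≤ N ∧ (od a = 0 ∨ 2 * (od a).natDegree + K < N)}.ncard * 2 ^ (K / 2) ≤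
      Nat.card k ^ (N + 1) := by
  have hz : ∀ a ∈ {a : k[X] | a.natDegree ≤ N ∧ (od a = 0 ∨ 2 * (od a).natDegree + K < N)},
      ∀ i, i ∉ Finset.range (N + 1) \ bbOdd (N - K + 1) (K / 2) → a.coeff i = 0 := by
    rintro a ⟨h1, h2⟩ i hi
    rw [Finset.mem_sdiff, Finset.mem_range, not_and, not_not] at hi
    by_cases hi' : i < N + 1
    · obtain ⟨j, rfl, h3, -⟩ := bbOdd_mem (hi hi')
      apply bb_coeff_odd
      rw [derivative_eq_od]
      rcases h2 with h2 | h2
      · rw [h2, zero_pow two_ne_zero, coeff_zero]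
      · apply coeff_eq_zero_of_natDegree_lt
        rw [natDegree_pow]
        omega
    · exact coeff_eq_zero_of_natDegree_lt (by omega)
  have h := (bb_agree _ _ fun f hf g hg i hi => (hz f hf i hi).trans (hz g hg i hi).symm).2
  rw [bb_card_sdiff (by omega)] at h
  exact bb_pow_le h (by omega)

private lemma bb_prod {D E B : Set k[X]} (F : k[X] → k[X] → k[X]) (hD : D.Finite) (hE : E.Finite)
    (h : ∀ b ∈ B, ∃ d ∈ D, ∃ e ∈ E, b = F d e) : B.ncard ≤ D.ncard * E.ncard := by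
  have hs : B ⊆ (fun p : k[X] × k[X] => F p.1 p.2) '' (D ×ˢ E) := by
    intro b hb
    obtain ⟨d, hd, e, he, rfl⟩ := h b hb
    exact ⟨(d, e), ⟨hd, he⟩, rfl⟩
  calc B.ncard ≤ ((fun p : k[X] × k[X] => F p.1 p.2) '' (D ×ˢ E)).ncard :=
        Set.ncard_le_ncard hs ((hD.prod hE).image _)
    _ ≤ (D ×ˢ E).ncard := Set.ncard_image_le (hD.prod hE)
    _ = D.ncard * E.ncard := Set.ncard_prod

/-- Multiples of a monic polynomial with small derivative. -/
private lemma bb_nt (N K j : ℕ) (hj : j ≤ 2 * N) :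
    {b : k[X] | b ≠ 0 ∧ b.natDegree ≤ 2 * N ∧ ∃ d : k[X], d.Monic ∧ d.natDegree = j ∧ d ∣ b ∧
      (derivative d).natDegree + K < j}.ncard * 2 ^ ((K - 1) / 2) ≤ Nat.card k ^ (2 * N + 1) := by
  by_cases hKj : K < j
  swap
  · have : {b : k[X] | b ≠ 0 ∧ b.natDegree ≤ 2 * N ∧ ∃ d : k[X], d.Monic ∧ d.natDegree = j ∧
        d ∣ b ∧ (derivative d).natDegree + K < j} = ∅ := by
      ext b
      simp only [Set.mem_ofPred_eq, Set.mem_empty_iff_false, iff_false]
      rintro ⟨-, -, d, -, -, -, h⟩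
      omega
    rw [this, Set.ncard_empty, zero_mul]
    exact Nat.zero_le _
  have hD := bb_agree {d : k[X] | d.Monic ∧ d.natDegree = j ∧ (derivative d).natDegree + K < j}
    (Finset.range j \ bbOdd (j - K + 1) ((K - 1) / 2)) (by
      rintro f ⟨hf1, hf2, hf3⟩ g ⟨hg1, hg2, hg3⟩ i hi
      rw [Finset.mem_sdiff, Finset.mem_range, not_and, not_not] at hi
      rcases lt_trichotomy i j with e | e | e
      · obtain ⟨l, rfl, h3, -⟩ := bbOdd_mem (hi e)
        rw [bb_coeff_odd f l (coeff_eq_zero_of_natDegree_lt (by omega)),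
          bb_coeff_odd g l (coeff_eq_zero_of_natDegree_lt (by omega))]
      · have e1 : f.coeff i = 1 := by rw [e, ← hf2]; exact hf1.coeff_natDegree
        have e2 : g.coeff i = 1 := by rw [e, ← hg2]; exact hg1.coeff_natDegree
        rw [e1, e2]
      · rw [coeff_eq_zero_of_natDegree_lt (by omega), coeff_eq_zero_of_natDegree_lt (by omega)])
  by_cases hK : K = 0
  · subst hK
    have h1 := bb_deg (k := k) (2 * N)
    refine bb_pow_le ((Set.ncard_le_ncard (fun b hb => hb.2.1) h1.1).trans h1.2) (by omega)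
  rw [bb_card_sdiff (by omega)] at hD
  have hE := bb_deg (k := k) (2 * N - j)
  have h := bb_prod (B := {b : k[X] | b ≠ 0 ∧ b.natDegree ≤ 2 * N ∧ ∃ d : k[X], d.Monic ∧
      d.natDegree = j ∧ d ∣ b ∧ (derivative d).natDegree + K < j}) (fun d e => d * e) hD.1 hE.1 (by
    rintro b ⟨hb0, hb, d, h1, h2, ⟨e, rfl⟩, h4⟩
    refine ⟨d, ⟨h1, h2, h4⟩, e, ?_, rfl⟩
    have := natDegree_mul h1.ne_zero (right_ne_zero_of_mul hb0)
    show e.natDegree ≤ 2 * N - j
    omega)
  have h' := h.trans (Nat.mul_le_mul hD.2 hE.2)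
  rw [← pow_add] at h'
  exact bb_pow_le h' (by omega)

/-- Multiples of a large square. -/
private lemma bb_sq (N K j : ℕ) (hj : j ≤ N) :
    {b : k[X] | b ≠ 0 ∧ b.natDegree ≤ 2 * N ∧ K < j ∧ ∃ s : k[X], s.Monic ∧ s.natDegree = j ∧
      s ^ 2 ∣ b}.ncard * 2 ^ ((K - 1) / 2) ≤ Nat.card k ^ (2 * N + 1) := by
  by_cases hKj : K < j
  swap
  · have : {b : k[X] | b ≠ 0 ∧ b.natDegree ≤ 2 * N ∧ K < j ∧ ∃ s : k[X], s.Monic ∧
        s.natDegree = j ∧ s ^ 2 ∣ b} = ∅ := by
      ext b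
      simp only [Set.mem_ofPred_eq, Set.mem_empty_iff_false, iff_false]
      rintro ⟨-, -, h, -⟩
      exact hKj h
    rw [this, Set.ncard_empty, zero_mul]
    exact Nat.zero_le _
  have hD := bb_monic (k := k) j
  have hE := bb_deg (k := k) (2 * N - 2 * j)
  have h := bb_prod (B := {b : k[X] | b ≠ 0 ∧ b.natDegree ≤ 2 * N ∧ K < j ∧ ∃ s : k[X], s.Monic ∧
      s.natDegree = j ∧ s ^ 2 ∣ b}) (fun d e => d ^ 2 * e) hD.1 hE.1 (by
    rintro b ⟨hb0, hb, -, s, h1, h2, ⟨e, rfl⟩⟩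
    refine ⟨s, ⟨h1, h2⟩, e, ?_, rfl⟩
    have := natDegree_mul (left_ne_zero_of_mul hb0) (right_ne_zero_of_mul hb0)
    rw [natDegree_pow] at this
    show e.natDegree ≤ 2 * N - 2 * j
    omega)
  have h' := h.trans (Nat.mul_le_mul hD.2 hE.2)
  rw [← pow_add] at h'
  exact bb_pow_le h' (by omega)

private lemma bb_union (n c Q : ℕ) (A : ℕ → Set k[X]) (h : ∀ j < n, (A j).ncard * c ≤ Q) :
    (⋃ j ∈ Finset.range n, A j).ncard * c ≤ n * Q := by
  calc (⋃ j ∈ Finset.range n, A j).ncard * c ≤ (∑ j ∈ Finset.range n, (A j).ncard) * c :=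
        Nat.mul_le_mul_right _ (Finset.set_ncard_biUnion_le _ _)
    _ = ∑ j ∈ Finset.range n, (A j).ncard * c := Finset.sum_mul ..
    _ ≤ ∑ _j ∈ Finset.range n, Q := Finset.sum_le_sum fun j hj => h j (Finset.mem_range.1 hj)
    _ = n * Q := by rw [Finset.sum_const, Finset.card_range, smul_eq_mul]

private lemma bb_normal {d : k[X]} (hd : d ≠ 0) : ∃ d0 : k[X], d0.Monic ∧
    d0.natDegree = d.natDegree ∧ d0 ∣ d ∧ (derivative d0).natDegree = (derivative d).natDegree := by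
  have hc : (leadingCoeff d)⁻¹ ≠ 0 := inv_ne_zero (leadingCoeff_ne_zero.2 hd)
  refine ⟨d * C (leadingCoeff d)⁻¹, monic_mul_leadingCoeff_inv hd, natDegree_mul_C hc, ?_, ?_⟩
  · refine ⟨C (leadingCoeff d), ?_⟩
    rw [mul_assoc, ← C_mul, inv_mul_cancel₀ (leadingCoeff_ne_zero.2 hd), C_1, mul_one]
  · rw [derivative_mul, derivative_C, mul_zero, add_zero, natDegree_mul_C hc]

theorem badB (N K : ℕ) (hK : K ≤ N) :
    {b : k[X] | b.natDegree ≤ 2 * N ∧ ¬ GoodB b N K}.ncard * 2 ^ ((K - 1) / 2) ≤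
      (4 * N + 4) * Nat.card k ^ (2 * N + 1) := by
  obtain ⟨A1, hA1⟩ : ∃ A1 : Set k[X], A1 = {f : k[X] | f.natDegree ≤ 2 * N - K} := ⟨_, rfl⟩
  obtain ⟨A2, hA2⟩ : ∃ A2 : ℕ → Set k[X], A2 = fun j => {b : k[X] | b ≠ 0 ∧ b.natDegree ≤ 2 * N ∧
    ∃ d : k[X], d.Monic ∧ d.natDegree = j ∧ d ∣ b ∧ (derivative d).natDegree + K < j} := ⟨_, rfl⟩
  obtain ⟨A3, hA3⟩ : ∃ A3 : ℕ → Set k[X], A3 = fun j => {b : k[X] | b ≠ 0 ∧ b.natDegree ≤ 2 * N ∧
    K < j ∧ ∃ s : k[X], s.Monic ∧ s.natDegree = j ∧ s ^ 2 ∣ b} := ⟨_, rfl⟩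
  have h1 : A1.ncard * 2 ^ ((K - 1) / 2) ≤ Nat.card k ^ (2 * N + 1) := by
    rw [hA1]
    exact bb_pow_le (bb_deg (k := k) (2 * N - K)).2 (by omega)
  have h2 := bb_union (2 * N + 1) (2 ^ ((K - 1) / 2)) (Nat.card k ^ (2 * N + 1)) A2 (by
    intro j hj
    rw [hA2]
    exact bb_nt N K j (by omega))
  have h3 := bb_union (N + 1) (2 ^ ((K - 1) / 2)) (Nat.card k ^ (2 * N + 1)) A3 (by
    intro j hj
    rw [hA3]
    exact bb_sq N K j (by omega))
  have hsub : {b : k[X] | b.natDegree ≤ 2 * N ∧ ¬ GoodB b N K} ⊆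
      (A1 ∪ ⋃ j ∈ Finset.range (2 * N + 1), A2 j) ∪ ⋃ j ∈ Finset.range (N + 1), A3 j := by
    rintro b ⟨hb, hg⟩
    by_cases hb1 : b.natDegree ≤ 2 * N - K
    · exact Or.inl (Or.inl (by rw [hA1]; exact hb1))
    have hb0 : b ≠ 0 := by
      rintro rfl
      exact hb1 (by rw [natDegree_zero]; exact Nat.zero_le _)
    by_cases hnt : NT b K
    · right
      have hs : ¬ ∀ s, s ^ 2 ∣ b → s.natDegree ≤ K := fun hs => hg ⟨hb0, hb, by omega, hnt, hs⟩
      push Not at hs
      obtain ⟨s, hs1, hs2⟩ := hs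
      have hs0 : s ≠ 0 := by
        rintro rfl
        rw [natDegree_zero] at hs2
        omega
      obtain ⟨s0, m1, m2, m3, -⟩ := bb_normal hs0
      have hle := natDegree_le_of_dvd hs1 hb0
      rw [natDegree_pow] at hle
      simp only [Set.mem_iUnion, exists_prop, Finset.mem_range]
      refine ⟨s.natDegree, by omega, ?_⟩
      rw [hA3]
      exact ⟨hb0, hb, hs2, s0, m1, m2, (pow_dvd_pow_of_dvd m3 2).trans hs1⟩
    · left
      right
      unfold NT at hnt
      push Not at hnt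
      obtain ⟨d, hd1, hd2, hd3⟩ := hnt
      have hd0 : d ≠ 0 := by
        rintro rfl
        exact hd2 derivative_zero
      obtain ⟨d0, m1, m2, m3, m4⟩ := bb_normal hd0
      have hle := natDegree_le_of_dvd hd1 hb0
      simp only [Set.mem_iUnion, exists_prop, Finset.mem_range]
      refine ⟨d.natDegree, by omega, ?_⟩
      rw [hA2]
      exact ⟨hb0, hb, d0, m1, m2, m3.trans hd1, by omega⟩
  have hfin : ((A1 ∪ ⋃ j ∈ Finset.range (2 * N + 1), A2 j) ∪
      ⋃ j ∈ Finset.range (N + 1), A3 j).Finite := by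
    refine (bb_deg (k := k) (2 * N)).1.subset ?_
    intro b hb
    simp only [Set.mem_union, Set.mem_iUnion, exists_prop] at hb
    rcases hb with (hb | ⟨j, -, hb⟩) | ⟨j, -, hb⟩
    · rw [hA1] at hb
      exact le_trans (show b.natDegree ≤ 2 * N - K from hb) (Nat.sub_le _ _)
    · rw [hA2] at hb
      exact hb.2.1
    · rw [hA3] at hb
      exact hb.2.1
  have h4 := (Set.ncard_le_ncard hsub hfin).trans ((Set.ncard_union_le _ _).trans
    (Nat.add_le_add_right (Set.ncard_union_le _ _) _))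
  have h5 := Nat.mul_le_mul_right (2 ^ ((K - 1) / 2)) h4
  rw [add_mul, add_mul] at h5
  calc _ ≤ _ := h5
    _ ≤ Nat.card k ^ (2 * N + 1) + (2 * N + 1) * Nat.card k ^ (2 * N + 1) +
          (N + 1) * Nat.card k ^ (2 * N + 1) := Nat.add_le_add (Nat.add_le_add h1 h2) h3
    _ = (3 * N + 3) * Nat.card k ^ (2 * N + 1) := by ring
    _ ≤ (4 * N + 4) * Nat.card k ^ (2 * N + 1) := Nat.mul_le_mul_right _ (by omega)

end Pool.Agent.Lib.MP_788af2_nt.AS
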