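import Pool.Agent.Lib.MP_788af2_nt.TT.Triv

/-!
The greedy construction of a clique with prescribed second derivatives.
-/

set_option linter.unusedSectionVars false

namespace Pool.Agent.Lib.MP_788af2_nt.AS

open Polynomial WeierstrassCurve Pool.Agent.Lib.MP_a3f657_nt.Two Matrix

private lemma clq_self {ι : Type} (y : ι → ZMod 2) : y + y = 0 :=
  funext fun i => z2_add_self (y i)

private lemma clq_solve {Γ ι : Type} [AddCommGroup Γ] [Fintype ι] (X : Finset Γ) (h0 : 0 ∈ X)
    (hX : ∀ x ∈ X, ∀ y ∈ X, x + y ∈ X) (φ : Γ → ι → ZMod 2)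
    (hφ : ∀ x y, φ (x + y) = φ x + φ y) (τ : ι → ZMod 2)
    (h : ∀ lam : ι → ZMod 2, (∀ x ∈ X, ∑ i, φ x i * lam i = 0) → ∑ i, τ i * lam i = 0) :
    ∃ x ∈ X, φ x = τ := by
  classical
  by_contra hn
  have hφ0 : φ 0 = 0 := by
    have := hφ 0 0
    rw [add_zero, clq_self] at this
    exact this
  let U : AddSubgroup (ι → ZMod 2) :=
    { carrier := {y | ∃ x ∈ X, φ x = y}
      zero_mem' := ⟨0, h0, hφ0⟩
      add_mem' := by
        rintro _ _ ⟨x, hx, rfl⟩ ⟨y, hy, rfl⟩
        exact ⟨x + y, hX x hx y hy, hφ x y⟩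
      neg_mem' := by
        rintro _ ⟨x, hx, rfl⟩
        exact ⟨x, hx, eq_neg_of_add_eq_zero_left (clq_self _)⟩ }
  obtain ⟨χ, h1, h2⟩ := exists_sep_hom clq_self U (v := τ) hn
  have h3 : ∀ y : ι → ZMod 2, χ y = ∑ i, y i * χ (Pi.single i 1) := fun y => by
    conv_lhs => rw [← Finset.univ_sum_single y, map_sum]
    refine Finset.sum_congr rfl fun i _ => ?_
    rcases z2_cases (y i) with e | e <;> simp [e]
  refine h1 ?_
  rw [h3]
  exact h _ fun x hx => by rw [← h3]; exact h2 _ ⟨x, hx, rfl⟩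

private lemma clq_index {Γ κ : Type} [AddCommGroup Γ] [Fintype κ] (Y X : Finset Γ)
    (hY : ∀ x ∈ Y, ∀ y ∈ Y, x + y ∈ Y) (ψ : Γ → κ → ZMod 2) (hψ : ∀ x y, ψ (x + y) = ψ x + ψ y)
    {x0 : Γ} (hx0 : x0 ∈ Y) (hX : ∀ x ∈ Y, ψ x = ψ x0 → x ∈ X) :
    Y.card ≤ X.card * 2 ^ Fintype.card κ := by
  classical
  refine (Finset.card_le_mul_card_image (f := ψ) Y X.card fun b hb => ?_).trans ?_
  · obtain ⟨y0, hy0, rfl⟩ := Finset.mem_image.1 hb
    refine Finset.card_le_card_of_injOn (fun y => y + y0 + x0) (fun y hy => ?_)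
      fun y _ y' _ h => add_right_cancel (add_right_cancel h)
    obtain ⟨h1, h2⟩ := Finset.mem_filter.1 (Finset.mem_coe.1 hy)
    exact Finset.mem_coe.2 (hX _ (hY _ (hY y h1 y0 hy0) x0 hx0)
      (by rw [hψ, hψ, h2, clq_self, zero_add]))
  · refine Nat.mul_le_mul_left _ ((Finset.card_le_univ _).trans ?_)
    rw [Fintype.card_fun, ZMod.card]

private lemma clq_alt {W : Type} [Fintype W] [DecidableEq W] {Mt : Matrix W W (ZMod 2)}
    (hMt : Alt Mt) (x : W → ZMod 2) : x ⬝ᵥ Mt *ᵥ x = 0 := by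
  have h : x ⬝ᵥ Mt *ᵥ x = ∑ ij : W × W, x ij.1 * (Mt ij.1 ij.2 * x ij.2) := by
    rw [Fintype.sum_prod_type]
    simp only [dotProduct, mulVec, Finset.mul_sum]
  rw [h]
  refine Finset.sum_involution (fun ij _ => ij.swap) (fun ij _ => ?_) (fun ij _ hne e => hne ?_)
    (fun _ _ => Finset.mem_univ _) fun ij _ => Prod.swap_swap ij
  · simp only [Prod.fst_swap, Prod.snd_swap]
    rw [hMt.2 ij.2 ij.1, show x ij.2 * (Mt ij.1 ij.2 * x ij.1) = x ij.1 * (Mt ij.1 ij.2 * x ij.2) by
      ring, z2_add_self]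
  · have e1 : ij.2 = ij.1 := congrArg Prod.fst e
    rw [e1, hMt.1, zero_mul, mul_zero]

private lemma clq_sum {W : Type} [Fintype W] {R r : ℕ} (m : Fin R) (p : Fin r → W → ZMod 2)
    (A : Fin R → Matrix W W (ZMod 2)) (lam : Fin R × Fin r × W → ZMod 2) :
    ∑ i : Fin R × Fin r × W, (if i.1 < m then (p i.2.1 ᵥ* A i.1) i.2.2 else 0) * lam i =
      ∑ l with l < m, ∑ a, p a ⬝ᵥ A l *ᵥ fun j => lam (l, a, j) := by
  rw [Finset.sum_filter, Fintype.sum_prod_type]
  refine Finset.sum_congr rfl fun l _ => ?_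
  split_ifs with h
  · rw [Fintype.sum_prod_type]
    refine Finset.sum_congr rfl fun a _ => ?_
    rw [dotProduct_mulVec]
    simp only [dotProduct]
  · simp only [zero_mul, Finset.sum_const_zero]

/-- Many solutions of the system at the index `m`. -/
private lemma clq_sol {Γ : Type} [AddCommGroup Γ] {W : Type} [Fintype W] [DecidableEq W]
    {R r s : ℕ} (hs : Fintype.card W ≤ s) (X : Finset Γ) (h0 : 0 ∈ X)
    (hX : ∀ x ∈ X, ∀ y ∈ X, x + y ∈ X) (d : Γ → Γ → Matrix W W (ZMod 2))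
    (dadd : ∀ x y z, d x (y + z) = d x y + d x z) (p : Fin r → W → ZMod 2)
    {Mt : Matrix W W (ZMod 2)} (hMt : Alt Mt) (m : Fin R) (ξ : Fin R → Γ)
    (hξ : ∀ w : Fin R → Fin r → W → ZMod 2,
      (∀ x ∈ X, ∑ l with l < m, ∑ a, p a ⬝ᵥ d (ξ l) x *ᵥ w l a = 0) → ∀ l < m, Triv p (w l))
    (S : Finset Γ) (hS : ∀ x ∈ X, (∀ l < m, ∀ a, p a ᵥ* d (ξ l) x = p a ᵥ* Mt) → x ∈ S) :
    X.card ≤ S.card * 2 ^ (r * s * R) := by
  let φ : Γ → Fin R × Fin r × W → ZMod 2 := fun x i =>
    if i.1 < m then (p i.2.1 ᵥ* d (ξ i.1) x) i.2.2 else 0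
  let τ : Fin R × Fin r × W → ZMod 2 := fun i => if i.1 < m then (p i.2.1 ᵥ* Mt) i.2.2 else 0
  have hφ : ∀ x y, φ (x + y) = φ x + φ y := fun x y => funext fun i => by
    simp only [φ, Pi.add_apply, dadd, vecMul_add]
    split_ifs <;> simp
  obtain ⟨x0, hx0, e0⟩ := clq_solve X h0 hX φ hφ τ fun lam hl => by
    have ht := hξ (fun l a j => lam (l, a, j)) fun x hx => by
      rw [← clq_sum m p (fun l => d (ξ l) x) lam]
      exact hl x hx
    rw [clq_sum m p (fun _ => Mt) lam]
    refine Finset.sum_eq_zero fun l hl' => ?_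
    exact Triv.alt clq_self ⊤ (fun _ => trivial) (fun _ => trivial) (fun x y => x ⬝ᵥ Mt *ᵥ y)
      (fun x _ y _ z _ => add_dotProduct _ _ _)
      (fun x _ y _ z _ => by simp only [mulVec_add, dotProduct_add])
      (fun x _ => clq_alt hMt x) (ht l (Finset.mem_filter.1 hl').2)
  refine (clq_index X S hX φ hφ hx0 fun x hx e => hS x hx fun l hl a => funext fun j => ?_).trans
    (Nat.mul_le_mul_left _ (Nat.pow_le_pow_right two_pos ?_))
  · have := congrFun (e.trans e0) (l, a, j)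
    simpa only [φ, τ, if_pos hl] using this
  · rw [Fintype.card_prod, Fintype.card_prod, Fintype.card_fin, Fintype.card_fin, mul_comm]
    exact Nat.mul_le_mul_right _ (Nat.mul_le_mul_left _ hs)

private def clqPre {R : ℕ} {Γ : Type} [Zero Γ] [DecidableEq Γ] (X : Fin R → Finset Γ) (m : ℕ) :
    Finset (Fin R → Γ) :=
  Fintype.piFinset fun l => if (l : ℕ) < m then X l else {0}

private lemma clq_mem {R : ℕ} {Γ : Type} [Zero Γ] [DecidableEq Γ] {X : Fin R → Finset Γ} {m : ℕ}
    {ξ : Fin R → Γ} : ξ ∈ clqPre X m ↔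
      (∀ l : Fin R, (l : ℕ) < m → ξ l ∈ X l) ∧ ∀ l : Fin R, ¬ (l : ℕ) < m → ξ l = 0 := by
  rw [clqPre, Fintype.mem_piFinset]
  refine ⟨fun h => ⟨fun l hl => ?_, fun l hl => ?_⟩, fun h l => ?_⟩
  · simpa only [if_pos hl] using h l
  · simpa only [if_neg hl, Finset.mem_singleton] using h l
  · split_ifs with hl
    · exact h.1 l hl
    · exact Finset.mem_singleton.2 (h.2 l hl)

private lemma clq_pre_eq {R : ℕ} {Γ : Type} [Zero Γ] [DecidableEq Γ] (X : Fin R → Finset Γ)
    (m : Fin R) : pre X m = clqPre X m := by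
  ext ξ
  simp only [pre, clqPre, Fintype.mem_piFinset, Fin.lt_def]

private lemma clq_succ {R : ℕ} {Γ : Type} [Zero Γ] [DecidableEq Γ] (X : Fin R → Finset Γ)
    (m : Fin R) : (clqPre X (m + 1)).card ≤ (clqPre X m).card * (X m).card := by
  rw [← Finset.card_product]
  refine Finset.card_le_card_of_injOn (fun ξ => (Function.update ξ m 0, ξ m)) (fun ξ hξ => ?_)
    fun ξ _ ξ' _ e => ?_
  · obtain ⟨h1, h2⟩ := clq_mem.1 (Finset.mem_coe.1 hξ)
    refine Finset.mem_coe.2 (Finset.mem_product.2 ⟨clq_mem.2 ⟨fun l hl => ?_, fun l hl => ?_⟩,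
      h1 m (Nat.lt_succ_self _)⟩)
    · have : l ≠ m := fun e => by rw [e] at hl; exact lt_irrefl _ hl
      simp only [Function.update_of_ne this]
      exact h1 l (by omega)
    · by_cases e : l = m
      · simp only [e, Function.update_self]
      · simp only [Function.update_of_ne e]
        exact h2 l fun h => e (Fin.ext (by omega))
  · obtain ⟨e1, e2⟩ := Prod.mk.inj e
    funext l
    by_cases h : l = m
    · rw [h]; exact e2
    · simpa only [Function.update_of_ne h] using congrFun e1 l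

theorem clique {Γ : Type} [AddCommGroup Γ] [DecidableEq Γ] {W : Type} [Fintype W] [DecidableEq W]
    {R r s : ℕ} (hs : Fintype.card W ≤ s) (h2 : ∀ x : Γ, x + x = 0) (Y : Fin R → Finset Γ)
    (h0 : ∀ l, 0 ∈ Y l) (hY : ∀ l, ∀ x ∈ Y l, ∀ y ∈ Y l, x + y ∈ Y l)
    (d : Γ → Γ → Matrix W W (ZMod 2)) (dadd : ∀ x y z, d x (y + z) = d x y + d x z)
    (dsym : ∀ x y, d x y = d y x) (p : Fin r → W → ZMod 2) {Mt : Matrix W W (ZMod 2)}
    (hMt : Alt Mt) (hG : ∀ (m : Fin R) (w : Fin R → Fin r → W → ZMod 2),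
      (∃ l < m, ¬ Triv p (w l)) → {ξ | ξ ∈ pre Y m ∧ ∀ x ∈ Y m,
        ∑ l with l < m, ∑ a, p a ⬝ᵥ d (ξ l) x *ᵥ w l a = 0}.ncard *
          2 ^ ((r * s * R + 1) * (R + 1)) ≤ (pre Y m).card) :
    ∃ ξ : Fin R → Γ, (∀ l, ξ l ∈ Y l) ∧
      ∀ l l', l ≠ l' → ∀ a, p a ᵥ* d (ξ l) (ξ l') = p a ᵥ* Mt := by
  classical
  let P : ℕ → Finset (Fin R → Γ) := fun m => (clqPre Y m).filter fun ξ =>
    ∀ l l' : Fin R, l < l' → (l' : ℕ) < m → ∀ a, p a ᵥ* d (ξ l) (ξ l') = p a ᵥ* Mt
  have key : ∀ m ≤ R, (clqPre Y m).card ≤ (P m).card * 2 ^ ((r * s * R + 1) * m) := by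
    intro m
    induction m with
    | zero =>
      intro _
      rw [mul_zero, pow_zero, mul_one]
      exact Finset.card_le_card fun ξ hξ =>
        Finset.mem_filter.2 ⟨hξ, fun l l' _ h => absurd h (Nat.not_lt_zero _)⟩
    | succ n ih =>
      intro hn
      have ih' := ih (by omega)
      obtain ⟨m, rfl⟩ : ∃ m : Fin R, (m : ℕ) = n := ⟨⟨n, hn⟩, rfl⟩
      let T : Finset (Fin R → Fin r → W → ZMod 2) :=
        Finset.univ.filter fun w => ∃ l < m, ¬ Triv p (w l)
      let K : (Fin R → Fin r → W → ZMod 2) → Finset (Fin R → Γ) := fun w =>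
        (clqPre Y m).filter fun ξ =>
          ∀ x ∈ Y m, ∑ l with l < m, ∑ a, p a ⬝ᵥ d (ξ l) x *ᵥ w l a = 0
      let B : Finset (Fin R → Γ) := T.biUnion K
      have hT : T.card ≤ 2 ^ (r * s * R) := by
        refine (Finset.card_le_univ _).trans ?_
        rw [Fintype.card_fun, Fintype.card_fun, Fintype.card_fun, ZMod.card, Fintype.card_fin,
          Fintype.card_fin, ← pow_mul, ← pow_mul]
        refine Nat.pow_le_pow_right two_pos ?_
        rw [← mul_assoc, mul_comm _ r]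
        exact Nat.mul_le_mul_right _ (Nat.mul_le_mul_left _ hs)
      have hK : ∀ w ∈ T, (K w).card * 2 ^ ((r * s * R + 1) * (R + 1)) ≤ (clqPre Y m).card := by
        intro w hw
        have h := hG m w (Finset.mem_filter.1 hw).2
        rw [clq_pre_eq] at h
        refine le_trans (le_of_eq ?_) h
        congr 1
        rw [← Set.ncard_coe_finset]
        congr 1
        ext ξ
        simp only [K, Finset.coe_filter, Set.mem_ofPred_eq]
      have hB : B.card * 2 ^ ((r * s * R + 1) * (R + 1)) ≤ 2 ^ (r * s * R) * (clqPre Y m).card := by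
        calc B.card * 2 ^ ((r * s * R + 1) * (R + 1))
            ≤ (∑ w ∈ T, (K w).card) * 2 ^ ((r * s * R + 1) * (R + 1)) :=
              Nat.mul_le_mul_right _ Finset.card_biUnion_le
          _ = ∑ w ∈ T, (K w).card * 2 ^ ((r * s * R + 1) * (R + 1)) := Finset.sum_mul _ _ _
          _ ≤ T.card • (clqPre Y m).card := Finset.sum_le_card_nsmul _ _ _ hK
          _ ≤ _ := Nat.mul_le_mul_right _ hT
      have hB2 : B.card * 2 ≤ (P m).card := by
        have h1 : 2 * (2 ^ (r * s * R) * 2 ^ ((r * s * R + 1) * (m : ℕ))) ≤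
            2 ^ ((r * s * R + 1) * (R + 1)) := by
          rw [← pow_add, ← pow_succ']
          refine Nat.pow_le_pow_right two_pos ?_
          have := Nat.mul_le_mul_left (r * s * R + 1) (show (m : ℕ) + 1 ≤ R + 1 by omega)
          rw [mul_add, mul_one] at this
          omega
        refine Nat.le_of_mul_le_mul_right (c := 2 ^ (r * s * R) * 2 ^ ((r * s * R + 1) * (m : ℕ)))
          ?_ (by positivity)
        calc B.card * 2 * (2 ^ (r * s * R) * 2 ^ ((r * s * R + 1) * (m : ℕ)))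
            ≤ B.card * 2 ^ ((r * s * R + 1) * (R + 1)) := by
              rw [mul_assoc]; exact Nat.mul_le_mul_left _ h1
          _ ≤ 2 ^ (r * s * R) * (clqPre Y m).card := hB
          _ ≤ 2 ^ (r * s * R) * ((P m).card * 2 ^ ((r * s * R + 1) * (m : ℕ))) :=
              Nat.mul_le_mul_left _ ih'
          _ = _ := by ring
      have hG2 : (P m).card ≤ (P m \ B).card * 2 := by
        have := Finset.le_card_sdiff B (P m)
        omega
      let S : (Fin R → Γ) → Finset Γ := fun ξ => (Y m).filter fun x =>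
        ∀ l < m, ∀ a, p a ᵥ* d (ξ l) x = p a ᵥ* Mt
      have hS : ∀ ξ ∈ P m \ B, (Y m).card ≤ (S ξ).card * 2 ^ (r * s * R) := by
        intro ξ hξ
        obtain ⟨h1, h3⟩ := Finset.mem_sdiff.1 hξ
        refine clq_sol hs (Y m) (h0 m) (hY m) d dadd p hMt m ξ (fun w hw l hl => ?_) (S ξ)
          fun x hx h => Finset.mem_filter.2 ⟨hx, h⟩
        by_contra hn'
        exact h3 (Finset.mem_biUnion.2 ⟨w, Finset.mem_filter.2 ⟨Finset.mem_univ _, l, hl, hn'⟩,
          Finset.mem_filter.2 ⟨(Finset.mem_filter.1 h1).1, hw⟩⟩)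
      have hI : ∑ ξ ∈ P m \ B, (S ξ).card ≤ (P (m + 1)).card := by
        rw [← Finset.card_sigma]
        refine Finset.card_le_card_of_injOn (fun z => Function.update z.1 m z.2) (fun z hz => ?_)
          fun z hz z' hz' e => ?_
        · obtain ⟨h1, h3⟩ := Finset.mem_sigma.1 (Finset.mem_coe.1 hz)
          obtain ⟨h4, h5⟩ := Finset.mem_filter.1 (Finset.mem_sdiff.1 h1).1
          obtain ⟨h6, h7⟩ := clq_mem.1 h4
          obtain ⟨h8, h9⟩ := Finset.mem_filter.1 h3
          refine Finset.mem_coe.2 (Finset.mem_filter.2 ⟨clq_mem.2 ⟨fun l hl => ?_, fun l hl => ?_⟩,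
            fun l l' hl hl' a => ?_⟩)
          · by_cases e : l = m
            · simpa only [e, Function.update_self] using h8
            · simp only [Function.update_of_ne e]
              exact h6 l (lt_of_le_of_ne (by omega) fun h => e (Fin.ext h))
          · have e : l ≠ m := fun e => hl (by rw [e]; exact Nat.lt_succ_self _)
            simp only [Function.update_of_ne e]
            exact h7 l (by omega)
          · have hl2 : (l : ℕ) < l' := hl
            have e : l ≠ m := fun e => by rw [e] at hl2; omega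
            by_cases e' : l' = m
            · simp only [Function.update_of_ne e, e', Function.update_self]
              exact h9 l (e' ▸ hl) a
            · simp only [Function.update_of_ne e, Function.update_of_ne e']
              exact h5 l l' hl (lt_of_le_of_ne (by omega) fun h => e' (Fin.ext h)) a
        · obtain ⟨ξ, x⟩ := z
          obtain ⟨ξ', x'⟩ := z'
          have m1 := (clq_mem.1 (Finset.mem_filter.1 (Finset.mem_sdiff.1
            (Finset.mem_sigma.1 (Finset.mem_coe.1 hz)).1).1).1).2 m (lt_irrefl _)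
          have m2 := (clq_mem.1 (Finset.mem_filter.1 (Finset.mem_sdiff.1
            (Finset.mem_sigma.1 (Finset.mem_coe.1 hz')).1).1).1).2 m (lt_irrefl _)
          have e1 : x = x' := by simpa only [Function.update_self] using congrFun e m
          have e2 : ξ = ξ' := funext fun l => by
            by_cases h : l = m
            · rw [h]; exact m1.trans m2.symm
            · simpa only [Function.update_of_ne h] using congrFun e l
          subst e1 e2
          rfl
      have hJ : (P m \ B).card * (Y m).card ≤ (P (m + 1)).card * 2 ^ (r * s * R) := by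
        calc (P m \ B).card * (Y m).card ≤ ∑ ξ ∈ P m \ B, (S ξ).card * 2 ^ (r * s * R) :=
              Finset.card_nsmul_le_sum _ _ _ hS
          _ = (∑ ξ ∈ P m \ B, (S ξ).card) * 2 ^ (r * s * R) := (Finset.sum_mul _ _ _).symm
          _ ≤ _ := Nat.mul_le_mul_right _ hI
      calc (clqPre Y (m + 1)).card ≤ (clqPre Y m).card * (Y m).card := clq_succ Y m
        _ ≤ (P m \ B).card * 2 * 2 ^ ((r * s * R + 1) * (m : ℕ)) * (Y m).card :=
            Nat.mul_le_mul_right _ (ih'.trans (Nat.mul_le_mul_right _ hG2))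
        _ = (P m \ B).card * (Y m).card * (2 * 2 ^ ((r * s * R + 1) * (m : ℕ))) := by ring
        _ ≤ (P (m + 1)).card * 2 ^ (r * s * R) * (2 * 2 ^ ((r * s * R + 1) * (m : ℕ))) :=
            Nat.mul_le_mul_right _ hJ
        _ = _ := by ring
  have hpos : 0 < (clqPre Y R).card :=
    Finset.card_pos.2 ⟨0, clq_mem.2 ⟨fun l _ => h0 l, fun _ _ => rfl⟩⟩
  obtain ⟨ξ, hξ⟩ := Finset.card_pos.1 (Nat.pos_of_mul_pos_right (hpos.trans_le (key R le_rfl)))
  obtain ⟨h1, h3⟩ := Finset.mem_filter.1 hξ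
  refine ⟨ξ, fun l => (clq_mem.1 h1).1 l l.2, fun l l' hl a => ?_⟩
  rcases lt_or_gt_of_ne hl with h | h
  · exact h3 l l' h l'.2 a
  · rw [dsym]
    exact h3 l' l h l.2 a

end Pool.Agent.Lib.MP_788af2_nt.AS
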