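import Pool.Agent.Lib.MP_788af2_nt.TT.Fix2

/-!
The local condition at infinity and the size of the Selmer group.
-/

set_option linter.unusedSectionVars false

namespace Pool.Agent.Lib.MP_788af2_nt.AS

open Polynomial WeierstrassCurve Pool.Agent.Lib.MP_a3f657_nt.Two

namespace Tw

variable {k : Type} [Field k] [Finite k] [CharP k 2] {I : Type} [Fintype I] [DecidableEq I]
  {β : I → k[X]} {L : Type} [Field L] [CharP L 2] (T : Tw β L)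

variable {H : AddSubgroup L} {κ ζ ζ' z h : L} {K : ℕ}

private lemma col_c0_bh (κ : L) : T.P.c0 (T.bh κ) = κ := by simp [bh, PB.c0_add]

private lemma col_c1_bh (κ : L) : T.P.c1 (T.bh κ) = 1 := by simp [bh, PB.c1_add]

lemma bh_ne (κ : L) : T.bh κ ≠ 0 := fun h => by
  have := T.col_c1_bh κ
  rw [h, PB.c1_zero] at this
  exact zero_ne_one this

lemma bh_fix (hκ : T.Fix κ) : T.Fix (T.bh κ) := T.fix_b.add (hκ.pow 2)

lemma bh_not_le (hκ : T.Fix κ) : T.bh κ ∉ T.d.Le 0 := T.fix_not_sq hκ zero_lt_one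

variable {T} in
lemma Kp.bh_le (hK : T.Kp H κ K) : T.bh κ ∈ T.d.Le (2 * K) := by
  have h1 : (1 : ℝ) ≤ K := by exact_mod_cast hK.pos
  exact add_mem (DF.Le.mono T.b_mem (by linarith)) (DF.Le.sq hK.le le_rfl)

private lemma col_c1_div (κ ζ : L) :
    T.P.c1 (ζ / T.bh κ) = (T.P.c0 ζ + κ * T.P.c1 ζ) / T.bh κ := by
  have h0 := T.bh_ne κ
  have e : ζ / T.bh κ = (1 / T.bh κ) ^ 2 * (ζ * T.bh κ) := by field_simp
  rw [e, PB.c1_sq_mul, PB.c1_mul, col_c0_bh, col_c1_bh]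
  field_simp

lemma c1_inv_bh (κ : L) : T.P.c1 (1 / T.bh κ) = 1 / T.bh κ := by
  rw [col_c1_div]; simp

lemma Θ_add (κ ζ ζ' : L) : T.Θ κ (ζ + ζ') = T.Θ κ ζ + T.Θ κ ζ' := by
  simp only [Θ, PB.c0_add, PB.c1_add]; ring

lemma Θ_sq (κ ζ : L) : T.Θ κ ζ ^ 2 = wp ζ + T.bh κ * T.P.c1 ζ ^ 2 := by
  have := T.P.spec ζ
  simp only [Θ, bh, wp]
  grind

lemma Θ_σ (hκ : T.Fix κ) (g : G I) (ζ : L) : T.Θ κ (T.σ g ζ) = T.σ g (T.Θ κ ζ) := by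
  simp only [Θ, map_add, map_mul, hκ g, σ_c0, σ_c1]

lemma Θ_sum (κ : L) {α : Type} (s : Finset α) (F : α → L) :
    T.Θ κ (∑ i ∈ s, F i) = ∑ i ∈ s, T.Θ κ (F i) := by
  simp only [Θ, c0_sum, c1_sum, Finset.sum_add_distrib, Finset.mul_sum]

lemma Θ_zc_mul (κ : L) (u : ZMod 2) (ζ : L) : T.Θ κ (zc L u * ζ) = zc L u * T.Θ κ ζ := by
  simp only [Θ, c0_zc_mul, c1_zc_mul]; ring

lemma Θ_tr (hκ : T.Fix κ) (ζ : L) : T.Θ κ (T.tr ζ) = T.tr (T.Θ κ ζ) := by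
  simp only [tr, Θ_sum, T.Θ_σ hκ]

lemma Kr_iff : T.Kr κ ζ ↔ T.Θ κ ζ = 0 := by
  rw [← pow_eq_zero_iff (two_ne_zero (α := ℕ)), Θ_sq, CharTwo.add_eq_zero, Kr]

lemma Kr_of_wp (e : wp ζ = T.bh κ * h ^ 2) : T.P.c1 ζ = h ∧ T.Kr κ ζ := by
  have h1 : T.P.c1 ζ = h := by
    have := congrArg T.P.c1 e
    rwa [wp, PB.c1_add, PB.c1_sq, zero_add, mul_comm, PB.c1_sq_mul, col_c1_bh, mul_one] at this
  exact ⟨h1, by rw [Kr, h1, e]⟩

variable {T} in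
lemma Kr.add (h1 : T.Kr κ ζ) (h2 : T.Kr κ ζ') : T.Kr κ (ζ + ζ') := by
  rw [Kr_iff] at *
  rw [Θ_add, h1, h2, add_zero]

variable {T} in
lemma Kr.zc_mul (h1 : T.Kr κ ζ) (u : ZMod 2) : T.Kr κ (zc L u * ζ) := by
  rw [Kr_iff] at *
  rw [Θ_zc_mul, h1, mul_zero]

variable {T} in
lemma Kr.σ (hκ : T.Fix κ) (h1 : T.Kr κ ζ) (g : G I) : T.Kr κ (T.σ g ζ) := by
  rw [Kr_iff] at *
  rw [T.Θ_σ hκ, h1, map_zero]

variable {T} in
lemma Kr.log (h1 : T.Kr κ ζ) : T.P.c1 (ζ / T.bh κ) = ζ / T.bh κ := by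
  rw [Kr_iff, Θ, add_assoc, CharTwo.add_eq_zero] at h1
  rw [col_c1_div, ← h1]

variable {T} in
lemma Kr.c1_eq (h1 : T.Kr κ ζ) : T.P.c1 ζ = T.P.c0 (ζ / T.bh κ) + κ * (ζ / T.bh κ) := by
  have h0 := T.bh_ne κ
  have e : ζ = ζ / T.bh κ * T.bh κ := by field_simp
  conv_lhs => rw [e, PB.c1_mul, col_c0_bh, col_c1_bh, h1.log]
  ring

variable {T} in
lemma Kr.cases (h1 : T.Kr κ ζ) (h0 : T.P.c1 ζ = 0) : ζ = 0 ∨ ζ = 1 :=
  wp_eq_zero.1 (by rw [h1, h0]; simp)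

variable {T} in
lemma Kr.D_mul (h1 : T.Kr κ ζ) (h2 : T.Kr κ ζ') :
    T.P.c1 (ζ * ζ' / T.bh κ) ^ 2 = Gq ζ ζ' / T.bh κ ^ 2 := by
  have h0 := T.bh_ne κ
  have e := T.P.D_mul (ζ / T.bh κ) ζ'
  have e2 : T.P.c1 ζ' ^ 2 = (ζ' ^ 2 + ζ') / T.bh κ := by
    rw [eq_div_iff h0, mul_comm]
    exact Eq.symm h2
  simp only [PB.D] at e
  rw [h1.log, e2] at e
  rw [mul_div_right_comm, e, Gq]
  field_simp
  ring

variable {T} in
/-- The adjunction identity. -/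
lemma Kr.ident (h1 : T.Kr κ ζ) {θ y : L} (hθ : θ = θ ^ 2 + T.P.b * y ^ 2) (ζ' : L) :
    T.R (θ * (ζ / T.bh κ) * T.Θ κ ζ') =
      T.R (T.P.b * y ^ 2 * (ζ / T.bh κ) * ζ') + T.R (θ * (T.P.c1 ζ' * T.P.c1 ζ)) := by
  have hl := h1.log
  rw [h1.c1_eq]
  generalize ζ / T.bh κ = φ at hl ⊢
  have e : T.P.b * y ^ 2 * φ * ζ' = θ * φ * ζ' + θ ^ 2 * (φ * ζ') := by grind
  rw [e, R_add, ← T.R_c1 (θ ^ 2 * (φ * ζ')), PB.c1_sq_mul, PB.c1_mul, hl, ← R_add, ← R_add, Θ]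
  congr 1
  grind

variable {T} in
lemma Kp.Sh_σ (hK : T.Kp H κ K) (g : G I) (h1 : ζ ∈ T.Sh H κ) : T.σ g ζ ∈ T.Sh H κ :=
  ⟨Kr.σ hK.fix h1.1 g, by rw [σ_c1]; exact hK.hg.σ_mem g _ h1.2⟩

lemma one_mem_Vs (H : AddSubgroup L) (κ : L) : (1 : L) ∈ T.Vs H κ :=
  ⟨⟨by simp [Kr], by rw [PB.c1_one]; exact zero_mem _⟩, T.fix_one⟩

variable {T} in
lemma Kp.V_le (hK : T.Kp H κ K) (hz : z ∈ T.Vs H κ) : z ∈ T.d.Le (2 * K) := by
  have h0 := T.bh_ne κ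
  have hf : T.Fix z := hz.2
  have h1 := T.log_le (hf.div (T.bh_fix hK.fix)).fx (Kr.log hz.1.1)
  have e : z = z / T.bh κ * T.bh κ := by field_simp
  rw [e]
  exact DF.Le.mul h1 hK.bh_le (by simp [gam])

variable {T} in
lemma Kp.V_c1_le (hK : T.Kp H κ K) (hz : z ∈ T.Vs H κ) : T.P.c1 z ∈ T.d.Le K :=
  Fix.c1_le hz.2 (hK.V_le hz) (by linarith)

variable {T} in
lemma Kp.V_c1_not_le (hK : T.Kp H κ K) (hz : z ∈ T.Vs H κ) (h0 : T.P.c1 z ≠ 0) :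
    T.P.c1 z ∉ T.d.Le (-K) := fun h => h0 (hK.hg.disc _ hz.1.2 (Fix.c1 hz.2) h)

variable {T} in
lemma Kp.V_not_le (hK : T.Kp H κ K) (hz : z ∈ T.Vs H κ) (h0 : z ≠ 0) :
    z ∉ T.d.Le (-(2 * K)) := fun h => by
  have h1 : (1 : ℝ) ≤ K := by exact_mod_cast hK.pos
  have h2 : T.P.c1 z = 0 := by
    by_contra h3
    exact hK.V_c1_not_le hz h3 (Fix.c1_le hz.2 h (by linarith))
  rcases Kr.cases hz.1.1 h2 with h3 | h3
  · exact h0 h3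
  · rw [h3, DF.mem_Le_iff one_ne_zero, DF.deg_one] at h
    linarith

variable {T} in
lemma Kp.RK_iso (hK : T.Kp H κ K) {h h' : L} (h1 : h ∈ H) (h2 : T.Fix h) (h3 : h' ∈ H)
    (h4 : T.Fix h') : T.RK (h * h') = 0 := by
  obtain ⟨h'', h5, rfl⟩ := hK.hg.lift h' h3 h4
  rw [← T.R_fix_mul h2]
  exact hK.hg.iso _ h1 _ h5

variable {T} in
private lemma col_card (hK : T.Kp H κ K) (s : Finset L) (hs : ∀ z ∈ s, z ∈ T.Vs H κ) :
    s.card ≤ 2 * Nat.card k ^ (2 * K) := by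
  classical
  have h1 : (s.image T.P.c1).card ≤ Nat.card k ^ (K + K) := by
    refine T.card_win _ K K (fun x hx => ?_) fun x hx y hy h => ?_
    · obtain ⟨z, hz, rfl⟩ := Finset.mem_image.1 hx
      exact ⟨Fix.c1 (hs z hz).2, hK.V_c1_le (hs z hz)⟩
    · obtain ⟨z, hz, rfl⟩ := Finset.mem_image.1 hx
      obtain ⟨w, hw, rfl⟩ := Finset.mem_image.1 hy
      rw [← PB.c1_add] at h
      by_contra h3
      refine hK.V_c1_not_le (add_mem (hs z hz) (hs w hw)) (fun h4 => h3 ?_) h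
      rwa [PB.c1_add, CharTwo.add_eq_zero] at h4
  refine (Finset.card_le_mul_card_image (f := T.P.c1) s 2 fun a ha => ?_).trans ?_
  · obtain ⟨z, hz, rfl⟩ := Finset.mem_image.1 ha
    refine (Finset.card_le_card (t := {z, z + 1}) fun w hw => ?_).trans Finset.card_le_two
    obtain ⟨hw, e⟩ := Finset.mem_filter.1 hw
    have h2 : w + z ∈ T.Vs H κ := add_mem (hs w hw) (hs z hz)
    rcases Kr.cases h2.1.1 (by rw [PB.c1_add, e, CharTwo.add_self_eq_zero]) with h3 | h3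
    · exact Finset.mem_insert.2 (Or.inl (by grind))
    · exact Finset.mem_insert.2 (Or.inr (Finset.mem_singleton.2 (by grind)))
  · rw [two_mul K]
    exact Nat.mul_le_mul_left 2 h1

variable {T} in
theorem Kp.exists_V (hK : T.Kp H κ K) :
    ∃ S : Finset L, S.card ≤ 2 * Nat.card k ^ (2 * K) ∧ ∀ z, z ∈ S ↔ z ∈ T.Vs H κ := by
  have hf : (T.Vs H κ : Set L).Finite := by
    by_contra hi
    obtain ⟨s, h1, h2⟩ := Set.Infinite.exists_subset_card_eq hi (2 * Nat.card k ^ (2 * K) + 1)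
    have := col_card hK s fun z hz => h1 hz
    omega
  exact ⟨hf.toFinset, col_card hK _ fun z hz => hf.mem_toFinset.1 hz, fun z => hf.mem_toFinset⟩

variable {T} in
theorem Kp.exists_V' (hK : T.Kp H κ K) {e s₀ : ℕ} (he : Nat.card k ≤ 2 ^ e)
    (hs : 2 * K * e + 1 ≤ s₀) : ∃ S : Finset L, S.card ≤ 2 ^ s₀ ∧ ∀ z, z ∈ S ↔ z ∈ T.Vs H κ := by
  obtain ⟨S, h1, h2⟩ := hK.exists_V
  refine ⟨S, h1.trans ?_, h2⟩
  calc 2 * Nat.card k ^ (2 * K) ≤ 2 * (2 ^ e) ^ (2 * K) :=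
        Nat.mul_le_mul_left 2 (Nat.pow_le_pow_left he _)
    _ = 2 ^ (2 * K * e + 1) := by rw [← pow_mul, pow_succ, mul_comm e, mul_comm]
    _ ≤ 2 ^ s₀ := Nat.pow_le_pow_right two_pos hs

end Tw

end Pool.Agent.Lib.MP_788af2_nt.AS
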