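import Pool.Agent.Lib.MP_788af2_nt.TT.ADefs

/-!
Closure properties of the classes of functions on the cube.
-/

set_option linter.unusedSectionVars false

namespace Pool.Agent.Lib.MP_788af2_nt.AS

open Polynomial WeierstrassCurve Pool.Agent.Lib.MP_a3f657_nt.Two Matrix

variable {R j : ℕ} {f g : Finset (Fin R) → ℤ}

private lemma hcls_zero (j : ℕ) : IsH j fun _ : Finset (Fin R) => (0 : ℤ) :=
  ⟨fun _ => 0, fun _ => dvd_zero _, fun _ => by simp⟩

private lemma hcls_congr (hf : IsH j f) (h : ∀ C, g C = f C) : IsH j g := by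
  obtain ⟨c, hc, hf⟩ := hf
  exact ⟨c, hc, fun C => (h C).trans (hf C)⟩

private lemma hcls_conv (c d : Finset (Fin R) → ℤ) (C : Finset (Fin R)) :
    (∑ S ∈ C.powerset, c S) * (∑ T ∈ C.powerset, d T) =
      ∑ U ∈ C.powerset, ∑ p ∈ (Finset.univ : Finset (Finset (Fin R) × Finset (Fin R))) with
        p.1 ∪ p.2 = U, c p.1 * d p.2 := by
  rw [Finset.sum_mul_sum, ← Finset.sum_product', Finset.sum_fiberwise_eq_sum_filter]
  refine Finset.sum_congr ?_ fun _ _ => rfl
  ext p
  simp [Finset.union_subset_iff]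

lemma IsH.const (hj : j ≤ 1) (c : ℤ) : IsH j fun _ : Finset (Fin R) => c := by
  refine ⟨fun S => if S = ∅ then c else 0, fun S => ?_, fun C => ?_⟩
  · by_cases h : S = ∅
    · subst h
      have : (0 + j) / 2 = 0 := by omega
      rw [Finset.card_empty, this, pow_zero]
      exact one_dvd _
    · simp only [if_neg h]
      exact dvd_zero _
  · rw [Finset.sum_ite_eq']
    simp

lemma IsH.add (hf : IsH j f) (hg : IsH j g) : IsH j fun C => f C + g C := by
  obtain ⟨c, hc, hf⟩ := hf
  obtain ⟨d, hd, hg⟩ := hg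
  refine ⟨fun S => c S + d S, fun S => dvd_add (hc S) (hd S), fun C => ?_⟩
  simp only [hf, hg, Finset.sum_add_distrib]

lemma IsH.neg (hf : IsH j f) : IsH j fun C => -f C := by
  obtain ⟨c, hc, hf⟩ := hf
  refine ⟨fun S => -c S, fun S => (dvd_neg).2 (hc S), fun C => ?_⟩
  simp only [hf, Finset.sum_neg_distrib]

lemma IsH.sub (hf : IsH j f) (hg : IsH j g) : IsH j fun C => f C - g C :=
  hcls_congr (hf.add hg.neg) fun _ => sub_eq_add_neg _ _

lemma IsH.sum {α : Type} (s : Finset α) {F : α → Finset (Fin R) → ℤ} (h : ∀ a ∈ s, IsH j (F a)) :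
    IsH j fun C => ∑ a ∈ s, F a C := by
  classical
  induction s using Finset.induction_on with
  | empty => exact hcls_congr (hcls_zero j) fun _ => Finset.sum_empty
  | insert a s ha ih =>
    have h1 := h a (Finset.mem_insert_self _ _)
    have h2 := ih fun b hb => h b (Finset.mem_insert_of_mem hb)
    exact hcls_congr (h1.add h2) fun _ => Finset.sum_insert ha

lemma IsH.mul (hj : j ≤ 1) (hf : IsH 1 f) (hg : IsH j g) : IsH j fun C => f C * g C := by
  obtain ⟨c, hc, hf⟩ := hf
  obtain ⟨d, hd, hg⟩ := hg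
  refine ⟨fun U => ∑ p ∈ (Finset.univ : Finset (Finset (Fin R) × Finset (Fin R))) with
        p.1 ∪ p.2 = U, c p.1 * d p.2, fun U => ?_, fun C => ?_⟩
  · refine Finset.dvd_sum fun p hp => ?_
    have hp' : p.1 ∪ p.2 = U := (Finset.mem_filter.1 hp).2
    have h1 : U.card ≤ p.1.card + p.2.card := hp' ▸ Finset.card_union_le _ _
    have h2 : (U.card + j) / 2 ≤ (p.1.card + 1) / 2 + (p.2.card + j) / 2 := by omega
    refine (pow_dvd_pow _ h2).trans ?_
    rw [pow_add]
    exact mul_dvd_mul (hc _) (hd _)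
  · show f C * g C = _
    rw [hf, hg, hcls_conv]

lemma IsH.zero_of_one (hf : IsH 1 f) : IsH 0 f := by
  obtain ⟨c, hc, hf⟩ := hf
  exact ⟨c, fun S => (pow_dvd_pow _ (by omega)).trans (hc S), hf⟩

lemma IsH.cast (hf : IsH 1 f) (C : Finset (Fin R)) : (f C : ZMod 2) = f ∅ := by
  obtain ⟨c, hc, hf⟩ := hf
  rw [hf C, hf ∅, Finset.powerset_empty, Finset.sum_singleton, Int.cast_sum]
  refine Finset.sum_eq_single_of_mem ∅ (Finset.empty_mem_powerset _) fun S _ hS => ?_
  have h1 : 0 < S.card := Finset.card_pos.2 (Finset.nonempty_iff_ne_empty.2 hS)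
  have h2 : (2 : ℤ) ^ 1 ∣ c S := (pow_dvd_pow _ (by omega)).trans (hc S)
  rw [pow_one] at h2
  exact (ZMod.intCast_zmod_eq_zero_iff_dvd _ 2).2 (by exact_mod_cast h2)

private lemma hcls_prod {α : Type} (s : Finset α) {F : α → Finset (Fin R) → ℤ}
    (h : ∀ a ∈ s, IsH 1 (F a)) : IsH 1 fun C => ∏ a ∈ s, F a C := by
  classical
  induction s using Finset.induction_on with
  | empty => exact hcls_congr (IsH.const le_rfl 1) fun _ => Finset.prod_empty
  | insert a s ha ih =>
    have h1 := h a (Finset.mem_insert_self _ _)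
    have h2 := ih fun b hb => h b (Finset.mem_insert_of_mem hb)
    exact hcls_congr (IsH.mul le_rfl h1 h2) fun _ => Finset.prod_insert ha

lemma IsH.det {n : Type} [Fintype n] [DecidableEq n] {M : Finset (Fin R) → Matrix n n ℤ}
    (h : ∀ a b, IsH 1 fun C => M C a b) : IsH 1 fun C => (M C).det := by
  have key : IsH 1 fun C => ∑ σ : Equiv.Perm n,
      ((Equiv.Perm.sign σ : ℤˣ) : ℤ) * ∏ i, M C (σ i) i :=
    IsH.sum Finset.univ (F := fun (σ : Equiv.Perm n) C =>
      ((Equiv.Perm.sign σ : ℤˣ) : ℤ) * ∏ i, M C (σ i) i) fun σ _ =>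
      IsH.mul le_rfl (IsH.const le_rfl _)
        (hcls_prod Finset.univ (F := fun i C => M C (σ i) i) fun i _ => h _ _)
  refine hcls_congr key fun C => ?_
  rw [Matrix.det_apply']
  simp

lemma IsH.adjugate {n : Type} [Fintype n] [DecidableEq n] {M : Finset (Fin R) → Matrix n n ℤ}
    (h : ∀ a b, IsH 1 fun C => M C a b) (a b : n) : IsH 1 fun C => (M C).adjugate a b := by
  have key : IsH 1 fun C => ((M C).updateRow b (Pi.single a 1)).det := by
    refine IsH.det (M := fun C => (M C).updateRow b (Pi.single a 1)) fun x y => ?_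
    by_cases hx : x = b
    · exact hcls_congr (IsH.const le_rfl ((Pi.single a 1 : n → ℤ) y)) fun C => by
        rw [Matrix.updateRow_apply, if_pos hx]
    · exact hcls_congr (h x y) fun C => by rw [Matrix.updateRow_apply, if_neg hx]
  exact hcls_congr key fun C => Matrix.adjugate_apply _ _ _

lemma IsH.matMul {n₁ n₂ n₃ : Type} [Fintype n₂] (hj : j ≤ 1)
    {M : Finset (Fin R) → Matrix n₁ n₂ ℤ} {M' : Finset (Fin R) → Matrix n₂ n₃ ℤ}
    (h : ∀ a b, IsH j fun C => M C a b) (h' : ∀ a b, IsH 1 fun C => M' C a b) (a : n₁) (b : n₃) :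
    IsH j fun C => (M C * M' C) a b := by
  have key : IsH j fun C => ∑ x, M' C x b * M C a x :=
    IsH.sum Finset.univ (F := fun x C => M' C x b * M C a x) fun x _ =>
      IsH.mul hj (h' x b) (h a x)
  refine hcls_congr key fun C => ?_
  rw [Matrix.mul_apply]
  exact Finset.sum_congr rfl fun x _ => mul_comm _ _

end Pool.Agent.Lib.MP_788af2_nt.AS
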