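import Pool.Agent.Lib.MP_788af2_nt.TT.AC2
import Pool.Agent.Lib.MP_788af2_nt.TT.HCls

/-!
The determinant along a cube of characters.
-/

set_option linter.unusedSectionVars false

namespace Pool.Agent.Lib.MP_788af2_nt.AS

open Polynomial WeierstrassCurve Pool.Agent.Lib.MP_a3f657_nt.Two Matrix

private lemma sg_add_Cube (x y : ZMod 2) : sg (x + y) = sg x * sg y := by
  revert x y
  unfold sg
  decide

private lemma sg_eq_Cube (x : ZMod 2) : sg x = 1 + -2 * (x.val : ℤ) := by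
  revert x
  unfold sg
  decide

private lemma cast_sg_Cube (x : ZMod 2) : ((sg x : ℤ) : ZMod 2) = 1 := by
  revert x
  unfold sg
  decide

private lemma sg_sum_Cube {α : Type} (C : Finset α) (x : α → ZMod 2) :
    sg (∑ l ∈ C, x l) = ∑ S ∈ C.powerset, (-2) ^ S.card * ∏ l ∈ S, ((x l).val : ℤ) := by
  classical
  have h : sg (∑ l ∈ C, x l) = ∏ l ∈ C, (1 + -2 * ((x l).val : ℤ)) := by
    induction C using Finset.induction_on with
    | empty => simp [sg]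
    | insert a s ha ih =>
      rw [Finset.sum_insert ha, Finset.prod_insert ha, sg_add_Cube, ih, sg_eq_Cube]
  rw [h, Finset.prod_one_add]
  refine Finset.sum_congr rfl fun S _ => ?_
  rw [Finset.prod_mul_distrib, Finset.prod_const]

/-- The coefficients of the expansion on the cube. -/
private def al_Cube {I W : Type} [Fintype I] [DecidableEq I] {R : ℕ}
    (A : G I → Matrix W W ℤ) (ξ : Fin R → G I) (ξ₀ : G I) (S : Finset (Fin R)) : Matrix W W ℤ :=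
  ∑ g, ((-1) ^ S.card * sg (ξ₀ ⬝ᵥ g) * ∏ l ∈ S, ((ξ l ⬝ᵥ g).val : ℤ)) • A g

private lemma sum_al_Cube {I W : Type} [Fintype I] [DecidableEq I] [Fintype W] {R : ℕ}
    (A : G I → Matrix W W ℤ) (ξ : Fin R → G I) (ξ₀ : G I) (C : Finset (Fin R)) :
    Ach A (ξ₀ + ∑ l ∈ C, ξ l) = ∑ S ∈ C.powerset, (2 : ℤ) ^ S.card • al_Cube A ξ ξ₀ S := by
  have h : ∀ g : G I, sg ((ξ₀ + ∑ l ∈ C, ξ l) ⬝ᵥ g) = ∑ S ∈ C.powerset, (2 : ℤ) ^ S.card *
      ((-1) ^ S.card * sg (ξ₀ ⬝ᵥ g) * ∏ l ∈ S, ((ξ l ⬝ᵥ g).val : ℤ)) := by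
    intro g
    rw [add_dotProduct, sum_dotProduct, sg_add_Cube, sg_sum_Cube, Finset.mul_sum]
    refine Finset.sum_congr rfl fun S _ => ?_
    rw [neg_pow]
    ring
  simp only [Ach, h, Finset.sum_smul, mul_smul ((2 : ℤ) ^ _)]
  rw [Finset.sum_comm]
  refine Finset.sum_congr rfl fun S _ => ?_
  rw [← Finset.smul_sum, al_Cube]

private lemma map_al_Cube {I W : Type} [Fintype I] [DecidableEq I] [Fintype W] {R : ℕ}
    {A : G I → Matrix W W ℤ} {B : G I → Matrix W W (ZMod 2)}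
    (hA : ∀ g, (A g).map (Int.cast : ℤ → ZMod 2) = B g) (ξ : Fin R → G I) (ξ₀ : G I)
    (S : Finset (Fin R)) :
    (al_Cube A ξ ξ₀ S).map (Int.castRingHom (ZMod 2)) = ∑ g, (∏ l ∈ S, ξ l ⬝ᵥ g) • B g := by
  have h1 : (-1 : ZMod 2) = 1 := by decide
  ext i j
  simp only [al_Cube, Matrix.sum_apply, Matrix.smul_apply, map_apply, smul_eq_mul, ← hA,
    eq_intCast]
  push_cast
  simp only [cast_sg_Cube, h1, one_pow, one_mul, ZMod.natCast_val, ZMod.cast_id', id_eq]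

private lemma lift_Cube {m n : Type} (P : Matrix m n (ZMod 2)) :
    ∃ U : Matrix m n ℤ, U.map (Int.castRingHom (ZMod 2)) = P :=
  ⟨P.map fun x => (x.val : ℤ), by
    ext i j
    simp⟩

private lemma dvd_Cube {m n : Type} {U : Matrix m n ℤ}
    (h : U.map (Int.castRingHom (ZMod 2)) = 0) (i : m) (j : n) : (2 : ℤ) ∣ U i j :=
  (ZMod.intCast_zmod_eq_zero_iff_dvd _ 2).1 (congrFun (congrFun h i) j)

private lemma odd_Cube {x : ℤ} (h : (x : ZMod 2) ≠ 0) : Odd x := by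
  rw [← Int.not_even_iff_odd, even_iff_two_dvd]
  exact fun h2 => h ((ZMod.intCast_zmod_eq_zero_iff_dvd _ 2).2 h2)

private lemma sum_two_Cube {R : ℕ} (C : Finset (Fin R)) (m : ℤ) :
    ∑ S ∈ C.powerset, (if S.card = 2 then m else 0) = ((C.card.choose 2 : ℕ) : ℤ) * m := by
  rw [← Finset.sum_filter, ← Finset.powersetCard_eq_filter, Finset.sum_const,
    Finset.card_powersetCard, nsmul_eq_mul]

private lemma half_Cube {n : ℕ} {a : ℤ} (h : n ≤ 1 → 2 ∣ a) :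
    ∃ z : ℤ, (2 : ℤ) ^ ((n + 1) / 2) ∣ z ∧ 2 ^ n * a = 2 * z := by
  rcases n with _ | _ | n
  · obtain ⟨c, rfl⟩ := h (by omega)
    exact ⟨c, by simp, by simp⟩
  · exact ⟨a, by simpa using h le_rfl, by simp⟩
  · exact ⟨2 ^ (n + 1) * a, (pow_dvd_pow _ (by omega)).mul_right _, by ring⟩

private lemma quarter_Cube {n : ℕ} {a m : ℤ} (h0 : n = 0 → 4 ∣ a) (h1 : n = 1 → 2 ∣ a)
    (h2 : n = 2 → 2 ∣ a - m) :
    ∃ e : ℤ, (2 : ℤ) ^ ((n + 0) / 2) ∣ e ∧ 2 ^ n * a = 4 * ((if n = 2 then m else 0) + e) := by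
  rcases n with _ | _ | _ | n
  · obtain ⟨c, rfl⟩ := h0 rfl
    exact ⟨c, by simp, by simp⟩
  · obtain ⟨c, rfl⟩ := h1 rfl
    exact ⟨c, by simp, by simp; ring⟩
  · exact ⟨a - m, by simpa using h2 rfl, by simp⟩
  · refine ⟨2 ^ (n + 1) * a, (pow_dvd_pow _ (by omega)).mul_right _, ?_⟩
    rw [if_neg (by omega)]
    ring

private lemma core_Cube {R n₁ n₂ : ℕ} {W : Type} [Fintype W]
    (Y : Finset (Fin R) → Matrix (Fin n₂) W ℤ) (H : Finset (Fin R) → Matrix (Fin n₁) W ℤ)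
    (Mh : Matrix (Fin n₁) W ℤ) (Q : Matrix W (Fin n₁) ℤ) (U' : Matrix W (Fin n₂) ℤ)
    (hY : ∀ a b, IsH 1 fun S => Y S a b) (hH : ∀ a b, IsH 0 fun S => H S a b)
    (h1 : ((Y ∅ * U').map (Int.castRingHom (ZMod 2))).det ≠ 0)
    (h2 : (Y ∅ * Q).map (Int.castRingHom (ZMod 2)) = 0)
    (h3 : ((Mh * Q).map (Int.castRingHom (ZMod 2))).det ≠ 0) :
    ∃ Qt : Finset (Fin R) → Matrix W (Fin n₁) ℤ, (∀ a b, IsH 1 fun S => (Mh * Qt S) a b) ∧
      (∀ a b, IsH 0 fun S => (H S * Qt S) a b) ∧ Odd (Mh * Qt ∅).det ∧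
      ∀ S, Y S * Qt S = 0 ∧ (Y S * U').det ≠ 0 := by
  have hY' : ∀ a b, IsH 1 fun S => (Y S * U') a b :=
    IsH.matMul le_rfl hY fun a b => IsH.const le_rfl _
  have hd := IsH.det hY'
  have hd0 : (((Y ∅ * U').det : ℤ) : ZMod 2) ≠ 0 := by
    rw [← RingHom.mapMatrix_apply, ← RingHom.map_det] at h1
    exact h1
  have hQt : ∀ a b, IsH 1 fun S =>
      ((Y S * U').det • Q - U' * ((Y S * U').adjugate * (Y S * Q))) a b := fun a b =>
    IsH.sub (IsH.mul le_rfl hd (IsH.const le_rfl (Q a b)))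
      (IsH.matMul (M := fun _ => U') le_rfl (fun a b => IsH.const le_rfl _)
        (IsH.matMul le_rfl (IsH.adjugate hY')
          (IsH.matMul (M' := fun _ => Q) le_rfl hY fun a b => IsH.const le_rfl _)) a b)
  refine ⟨fun S => (Y S * U').det • Q - U' * ((Y S * U').adjugate * (Y S * Q)),
    IsH.matMul (M := fun _ => Mh) le_rfl (fun a b => IsH.const le_rfl _) hQt,
    IsH.matMul (by omega) hH hQt, odd_Cube ?_, fun S => ⟨?_, fun h => hd0 ?_⟩⟩
  · have e1 : (((Y ∅ * U').det : ℤ) : ZMod 2) = 1 := by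
      generalize (((Y ∅ * U').det : ℤ) : ZMod 2) = x at hd0
      revert x
      decide
    have e2 : ((Y ∅ * U').det • Q - U' * ((Y ∅ * U').adjugate * (Y ∅ * Q))).map
        (Int.castRingHom (ZMod 2)) = Q.map (Int.castRingHom (ZMod 2)) := by
      have e3 : (U' * ((Y ∅ * U').adjugate * (Y ∅ * Q))).map (Int.castRingHom (ZMod 2)) = 0 := by
        rw [Matrix.map_mul, Matrix.map_mul, h2, Matrix.mul_zero, Matrix.mul_zero]
      ext a b
      have e4 := congrFun (congrFun e3 a) b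
      simp only [map_apply, eq_intCast, Matrix.zero_apply] at e4
      simp only [map_apply, eq_intCast, Matrix.sub_apply, Matrix.smul_apply, smul_eq_mul,
        Int.cast_sub,
        Int.cast_mul, e1, e4, one_mul, sub_zero]
    rw [Matrix.map_mul, ← e2, ← Matrix.map_mul, ← RingHom.mapMatrix_apply,
      ← RingHom.map_det] at h3
    exact h3
  · rw [Matrix.mul_sub, Matrix.mul_smul, ← Matrix.mul_assoc (Y S) U', ← Matrix.mul_assoc,
      mul_adjugate, Matrix.smul_mul, Matrix.one_mul, sub_self]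
  · rw [← hd.cast S, h, Int.cast_zero]

theorem cube (w : ℕ) (η : ℝ) (hη : 0 < η) : ∃ R : ℕ, ∀ (I : Type) [Fintype I] [DecidableEq I]
    (W : Type) [Fintype W] (A : G I → Matrix W W ℤ) (B : G I → Matrix W W (ZMod 2)),
    (∀ g, (A g).map (Int.cast : ℤ → ZMod 2) = B g) → ∀ (ξ₀ : G I) (C : Matrix W W (ZMod 2)),
    (∀ i j, ∃ c : ℤ, Ach A ξ₀ i j = 2 * c ∧ (c : ZMod 2) = C i j) → ∀ n₁ ≤ w, ∀ (n₂ : ℕ)
    (P₁ P₁' : Matrix W (Fin n₁) (ZMod 2)) (P₂ P₂' : Matrix W (Fin n₂) (ZMod 2))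
    (Mt : Matrix W W (ZMod 2)), P₁ᵀ * C = 0 → C * P₁' = 0 → (P₂ᵀ * C * P₂').det ≠ 0 →
    (P₁ᵀ * Mt * P₁').det ≠ 0 → ∀ ξ : Fin R → G I, (∀ l, D1 B (ξ l) = 0) →
    (∀ l l', l ≠ l' → P₁ᵀ * D2 B (ξ l) (ξ l') = P₁ᵀ * Mt) →
    ({S : Finset (Fin R) | ∀ P P' : Matrix W (Fin n₁ ⊕ Fin n₂) ℤ,
      (Pᵀ * Ach A (ξ₀ + ∑ l ∈ S, ξ l) * P').det = 0}.ncard : ℝ) ≤ η * 2 ^ R := by
  obtain ⟨R, hR⟩ := ac2 w η hη
  refine ⟨R, fun I _ _ W _ A B hA ξ₀ C hC n₁ hn n₂ P₁ P₁' P₂ P₂' Mt h1 h1' h2 h3 ξ hD1 hD2 => ?_⟩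
  classical
  choose c hc hcC using hC
  have hc' : (Matrix.of c).map (Int.castRingHom (ZMod 2)) = C := by
    ext i j
    exact hcC i j
  have ha0 : al_Cube A ξ ξ₀ ∅ = (2 : ℤ) • Matrix.of c := by
    ext i j
    have := hc i j
    simpa [al_Cube, Ach] using this
  have ha1 : ∀ T : Finset (Fin R), T.card = 1 →
      (al_Cube A ξ ξ₀ T).map (Int.castRingHom (ZMod 2)) = 0 := by
    intro T hT
    obtain ⟨l, rfl⟩ := Finset.card_eq_one.1 hT
    rw [map_al_Cube hA, ← hD1 l]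
    simp only [Finset.prod_singleton, D1]
  obtain ⟨U₁, rfl⟩ := lift_Cube P₁
  obtain ⟨Q, rfl⟩ := lift_Cube P₁'
  obtain ⟨U₂, rfl⟩ := lift_Cube P₂
  obtain ⟨U', rfl⟩ := lift_Cube P₂'
  obtain ⟨Mh, hMh⟩ := lift_Cube ((U₁.map (Int.castRingHom (ZMod 2)))ᵀ * Mt)
  have hz : ∀ (T : Finset (Fin R)) i j, ∃ z : ℤ, (2 : ℤ) ^ ((T.card + 1) / 2) ∣ z ∧
      2 ^ T.card * al_Cube A ξ ξ₀ T i j = 2 * z := fun T i j => half_Cube fun hT => by
    rcases Nat.le_one_iff_eq_zero_or_eq_one.1 hT with h | h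
    · rw [Finset.card_eq_zero.1 h, ha0]
      exact Dvd.intro _ rfl
    · exact dvd_Cube (ha1 T h) i j
  choose z hz1 hz2 using hz
  have he : ∀ (T : Finset (Fin R)) i j, ∃ e : ℤ, (2 : ℤ) ^ ((T.card + 0) / 2) ∣ e ∧
      2 ^ T.card * (U₁ᵀ * al_Cube A ξ ξ₀ T) i j =
        4 * ((if T.card = 2 then Mh i j else 0) + e) := fun T i j => by
    refine quarter_Cube (fun h => ?_) (fun h => dvd_Cube ?_ i j) fun h => ?_
    · rw [Finset.card_eq_zero.1 h, ha0, Matrix.mul_smul]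
      have : (U₁ᵀ * Matrix.of c).map (Int.castRingHom (ZMod 2)) = 0 := by
        rw [Matrix.map_mul, hc', transpose_map, h1]
      exact mul_dvd_mul_left (2 : ℤ) (dvd_Cube this i j)
    · rw [Matrix.map_mul, ha1 T h, Matrix.mul_zero]
    · obtain ⟨l, l', hl, rfl⟩ := Finset.card_eq_two.1 h
      have : (U₁ᵀ * al_Cube A ξ ξ₀ {l, l'}).map (Int.castRingHom (ZMod 2)) =
          Mh.map (Int.castRingHom (ZMod 2)) := by
        rw [Matrix.map_mul, map_al_Cube hA, hMh, ← hD2 l l' hl, transpose_map]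
        simp only [Finset.prod_pair hl, D2]
      refine (ZMod.intCast_zmod_eq_zero_iff_dvd _ 2).1 ?_
      rw [Int.cast_sub, sub_eq_zero]
      exact congrFun (congrFun this i) j
  choose e he1 he2 using he
  let Z : Finset (Fin R) → Matrix W W ℤ := fun S => Matrix.of fun i j => ∑ T ∈ S.powerset, z T i j
  let H : Finset (Fin R) → Matrix (Fin n₁) W ℤ := fun S =>
    Matrix.of fun i j => ∑ T ∈ S.powerset, e T i j
  have hZ : ∀ S, Ach A (ξ₀ + ∑ l ∈ S, ξ l) = (2 : ℤ) • Z S := by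
    intro S
    rw [sum_al_Cube]
    ext i j
    simp only [Matrix.sum_apply, Matrix.smul_apply, smul_eq_mul, hz2, Z, of_apply, Finset.mul_sum]
  have hH : ∀ S : Finset (Fin R), U₁ᵀ * Ach A (ξ₀ + ∑ l ∈ S, ξ l) =
      (4 : ℤ) • (((S.card.choose 2 : ℕ) : ℤ) • Mh + H S) := by
    intro S
    rw [sum_al_Cube, Matrix.mul_sum]
    ext i j
    simp only [Matrix.sum_apply, Matrix.mul_smul, Matrix.smul_apply, smul_eq_mul, he2, H,
      of_apply, Matrix.add_apply]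
    rw [← Finset.mul_sum, Finset.sum_add_distrib, sum_two_Cube]
  have hZ0 : Z ∅ = Matrix.of c := by
    have := hZ ∅
    rw [sum_al_Cube, Finset.powerset_empty, Finset.sum_singleton, Finset.card_empty, pow_zero,
      one_smul, ha0] at this
    exact (smul_right_injective _ two_ne_zero this).symm
  obtain ⟨Qt, k1, k2, k3, k4⟩ := core_Cube (fun S => U₂ᵀ * Z S) H Mh Q U'
    (IsH.matMul (M := fun _ => U₂ᵀ) le_rfl (fun a b => IsH.const le_rfl _)
      fun a b => ⟨fun T => z T a b, fun T => hz1 T a b, fun _ => rfl⟩)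
    (fun a b => ⟨fun T => e T a b, fun T => he1 T a b, fun _ => rfl⟩)
    (by rwa [Matrix.map_mul, Matrix.map_mul, hZ0, hc', transpose_map])
    (by rw [Matrix.map_mul, Matrix.map_mul, hZ0, hc', Matrix.mul_assoc, h1', Matrix.mul_zero])
    (by rwa [Matrix.map_mul, hMh])
  refine le_trans ?_ (hR n₁ hn (fun S => Mh * Qt S) (fun S => H S * Qt S) k1 k2 k3)
  rw [← Set.ncard_coe_finset]
  refine Nat.cast_le.2 (Set.ncard_le_ncard (fun S hS => ?_) (Finset.finite_toSet _))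
  simp only [Finset.coe_filter, Finset.mem_univ, true_and, Set.mem_ofPred_eq] at hS ⊢
  have k5 := hS (fromCols U₁ U₂) (fromCols (Qt S) U')
  have k6 : U₂ᵀ * Ach A (ξ₀ + ∑ l ∈ S, ξ l) = (2 : ℤ) • (U₂ᵀ * Z S) := by
    rw [hZ, Matrix.mul_smul]
  rw [transpose_fromCols, fromRows_mul, fromRows_mul_fromCols, hH, k6, Matrix.smul_mul 2,
    (k4 S).1, smul_zero, det_fromBlocks_zero₂₁, Matrix.smul_mul, Matrix.smul_mul, det_smul,
    det_smul, Matrix.add_mul, Matrix.smul_mul] at k5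
  have k7 := (mul_eq_zero.1 k5).resolve_right
    (mul_ne_zero (pow_ne_zero _ two_ne_zero) (k4 S).2)
  exact (mul_eq_zero.1 k7).resolve_left (pow_ne_zero _ four_ne_zero)

end Pool.Agent.Lib.MP_788af2_nt.AS
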