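import Pool.Agent.Lib.MP_788af2_nt.TT.Defs
import Pool.Agent.Lib.MP_788af2_nt.AS.Tmap

/-!
The curve `y ^ 2 + x y = x ^ 3 + a x ^ 2 + b` and its additive descent map.
-/

set_option linter.unusedSectionVars false

namespace Pool.Agent.Lib.MP_788af2_nt.AS

open Polynomial WeierstrassCurve Pool.Agent.Lib.MP_a3f657_nt.Two

variable {F : Type} [Field F] [CharP F 2] [DecidableEq F] {a b : F} (P : PB F)

lemma eb_eq {Q : (Eb a b).Point} (h : Q ≠ 0) :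
    yc Q ^ 2 + xc Q * yc Q = xc Q ^ 3 + a * xc Q ^ 2 + b := by
  rcases Q with _ | ⟨x, y, h'⟩
  · exact absurd rfl h
  · simpa [Eb, xc, yc] using (Affine.equation_iff _ _).1 h'.1

private lemma cvb_Δ (hb : b ≠ 0) : (Eb a b).Δ ≠ 0 := by
  have e : (Eb a b).Δ = b := by
    simp only [Eb, WeierstrassCurve.Δ, WeierstrassCurve.b₂, WeierstrassCurve.b₄,
      WeierstrassCurve.b₆, WeierstrassCurve.b₈]
    grind
  rwa [e]

lemma eb_exists (hb : b ≠ 0) {x y : F} (h : y ^ 2 + x * y = x ^ 3 + a * x ^ 2 + b) :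
    ∃ Q : (Eb a b).Point, Q ≠ 0 ∧ xc Q = x ∧ yc Q = y := by
  have h1 : (Eb a b).Equation x y := (Affine.equation_iff _ _).2 (by simpa [Eb] using h)
  exact ⟨.some x y ((Affine.equation_iff_nonsingular_of_Δ_ne_zero (cvb_Δ hb)).1 h1),
    Affine.Point.some_ne_zero _, rfl, rfl⟩

lemma eb_x_ne (hb : P.c1 b ≠ 0) {Q : (Eb a b).Point} (h : Q ≠ 0) : xc Q ≠ 0 := by
  intro hx
  have e := eb_eq h
  rw [hx] at e
  have e' : b = yc Q ^ 2 := by linear_combination -e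
  exact hb (by rw [e', P.c1_sq])

lemma eb_wp (Q : (Eb a b).Point) (hx : xc Q ≠ 0) :
    wp (yc Q / xc Q) = xc Q + a + b / xc Q ^ 2 := by
  have h := eb_eq (Q := Q) (by rintro rfl; exact hx rfl)
  unfold wp
  field_simp
  linear_combination h

lemma eb_yc_neg (Q : (Eb a b).Point) : yc (-Q) = yc Q + xc Q := by
  rcases Q with _ | ⟨x, y, h⟩
  · exact (add_zero _).symm
  · change -y - 1 * x - 0 = y + x
    grind

private lemma cvb_add (Q Q' : (Eb a b).Point) : Q = 0 ∨ Q' = 0 ∨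
    Q ≠ 0 ∧ Q' ≠ 0 ∧ (Q + Q' = 0 ∧ xc Q = xc Q' ∨ Q + Q' ≠ 0 ∧ ∃ l,
      l = (Eb a b).slope (xc Q) (xc Q') (yc Q) (yc Q') ∧
      xc (Q + Q') = l ^ 2 + l + a + xc Q + xc Q' ∧
      yc (Q + Q') = l * (xc (Q + Q') + xc Q) + yc Q + xc (Q + Q') ∧
      xc Q * xc Q' * xc (Q + Q') = b + (l * xc Q + yc Q) ^ 2 ∧
      xc Q * xc Q' + xc Q * xc (Q + Q') + xc Q' * xc (Q + Q') = l * xc Q + yc Q) := by
  rcases Q with _ | ⟨x, y, h⟩
  · exact Or.inl rfl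
  rcases Q' with _ | ⟨x', y', h'⟩
  · exact Or.inr (Or.inl rfl)
  refine Or.inr (Or.inr ⟨Affine.Point.some_ne_zero _, Affine.Point.some_ne_zero _, ?_⟩)
  by_cases hxy : x = x' ∧ y = (Eb a b).negY x' y'
  · exact Or.inl ⟨Affine.Point.add_of_Y_eq hxy.1 hxy.2, hxy.1⟩
  have e := Affine.addPolynomial_slope h.1 h'.1 hxy
  rw [Affine.addPolynomial_eq, neg_inj, Cubic.prod_X_sub_C_eq, Cubic.toPoly_injective,
    Cubic.mk.injEq] at e
  obtain ⟨-, -, e1, e2⟩ := e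
  rw [Affine.Point.add_some hxy]
  refine Or.inr ⟨Affine.Point.some_ne_zero _, _, rfl, ?_⟩
  simp only [xc, yc, Affine.addY, Affine.negAddY, Affine.negY]
  generalize (Eb a b).slope x x' y y' = l at *
  have e0 : (Eb a b).addX x x' l = l ^ 2 + 1 * l - a - x - x' := rfl
  generalize (Eb a b).addX x x' l = z at *
  simp only [Eb] at e1 e2 ⊢
  refine ⟨by grind, by grind, by grind, by grind⟩

lemma eb_add (Q Q' : (Eb a b).Point) : Q = 0 ∨ Q' = 0 ∨ (Q + Q' = 0 ∧ xc Q' = xc Q) ∨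
    (Q ≠ 0 ∧ Q' ≠ 0 ∧ Q + Q' ≠ 0 ∧ ∃ μ, xc Q * xc Q' * xc (Q + Q') = b + μ ^ 2 ∧
      xc Q * xc Q' + xc Q * xc (Q + Q') + xc Q' * xc (Q + Q') = μ) := by
  rcases cvb_add Q Q' with h | h | ⟨h1, h2, ⟨h3, h4⟩ | ⟨h3, l, -, -, -, h4, h5⟩⟩
  · exact Or.inl h
  · exact Or.inr (Or.inl h)
  · exact Or.inr (Or.inr (Or.inl ⟨h3, h4.symm⟩))
  · exact Or.inr (Or.inr (Or.inr ⟨h1, h2, h3, _, h4, h5⟩))

private lemma cvb_mul {x y : F} (hx : x ≠ 0) (hy : y ≠ 0) :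
    P.D (x * y) / (x * y) = P.D x / x + P.D y / y := by
  rw [P.D_mul]
  field_simp
  ring

lemma eb_three {x₁ x₂ x₃ μ : F} (h1 : x₁ ≠ 0) (h2 : x₂ ≠ 0) (h3 : x₃ ≠ 0)
    (h : x₁ * x₂ * x₃ = b + μ ^ 2) :
    P.D x₁ / x₁ + P.D x₂ / x₂ + P.D x₃ / x₃ = P.c1 b ^ 2 / (x₁ * x₂ * x₃) := by
  rw [← cvb_mul P h1 h2, ← cvb_mul P (mul_ne_zero h1 h2) h3]
  conv_lhs => rw [h, P.D_add, P.D_sq, add_zero, ← h]
  rfl

lemma hV_zero {W : Affine F} (b : F) : hV P b (0 : W.Point) = 0 := by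
  simp [hV]

lemma hV_neg {W : Affine F} (b : F) (Q : W.Point) : hV P b (-Q) = hV P b Q := by
  simp only [hV, xc_neg]

private lemma cvb_log (x : F) : P.c1 (P.D x / x) = P.D x / x := by
  by_cases hx : x = 0
  · simp [hx]
  have e : P.D x / x = (P.c1 x / x) ^ 2 * x := by
    unfold PB.D
    field_simp
  conv_lhs => rw [e, P.c1_sq_mul]
  unfold PB.D
  field_simp

private lemma cvb_ne (hb : P.c1 b ≠ 0) : b ≠ 0 := by
  rintro rfl
  exact hb P.c1_zero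

private lemma cvb_sq (hb : P.c1 b ≠ 0) {W : Affine F} (Q : W.Point) :
    hV P b Q ^ 2 = (P.D (xc Q) / xc Q) ^ 2 * (b / P.c1 b ^ 2) + P.D (xc Q) / xc Q +
      P.c1 b ^ 2 * (xc Q)⁻¹ ^ 2 := by
  have e1 := P.spec (P.D (xc Q) / xc Q)
  rw [cvb_log] at e1
  have e2 : b / P.c1 b ^ 2 = (P.c0 b / P.c1 b) ^ 2 + P.b := by
    rw [div_pow, div_add' _ _ _ (pow_ne_zero 2 hb), ← P.spec b]
  unfold hV
  rw [e2, div_eq_mul_inv (P.c1 b)]
  generalize P.D (xc Q) / xc Q = f at *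
  generalize P.c0 b / P.c1 b = u at *
  generalize (xc Q)⁻¹ = v at *
  generalize P.c0 f = g at *
  grind

lemma hV_add (hb : P.c1 b ≠ 0) (Q Q' : (Eb a b).Point) :
    hV P b (Q + Q') = hV P b Q + hV P b Q' := by
  rcases eb_add Q Q' with rfl | rfl | ⟨h1, h2⟩ | ⟨h1, h2, h3, μ, h4, h5⟩
  · rw [zero_add, hV_zero, zero_add]
  · rw [add_zero, hV_zero, add_zero]
  · rw [h1, hV_zero]
    unfold hV
    rw [h2, CharTwo.add_self_eq_zero]
  have g1 := eb_x_ne P hb h1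
  have g2 := eb_x_ne P hb h2
  have g3 := eb_x_ne P hb h3
  have e1 := eb_three P g1 g2 g3 h4
  have e2 : (xc Q)⁻¹ + (xc Q')⁻¹ + (xc (Q + Q'))⁻¹ = μ / (xc Q * xc Q' * xc (Q + Q')) := by
    rw [← h5]
    field_simp
    ring
  have e3 : (P.c1 b ^ 2 / (xc Q * xc Q' * xc (Q + Q'))) ^ 2 * (b / P.c1 b ^ 2) +
      P.c1 b ^ 2 / (xc Q * xc Q' * xc (Q + Q')) +
      P.c1 b ^ 2 * (μ / (xc Q * xc Q' * xc (Q + Q'))) ^ 2 = 0 := by
    have g4 := mul_ne_zero (mul_ne_zero g1 g2) g3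
    generalize xc Q * xc Q' * xc (Q + Q') = e at *
    field_simp
    grind
  rw [← e1, ← e2] at e3
  refine sq_inj ?_
  rw [CharTwo.add_sq, cvb_sq P hb, cvb_sq P hb, cvb_sq P hb]
  generalize P.D (xc Q) / xc Q = f1 at *
  generalize P.D (xc Q') / xc Q' = f2 at *
  generalize P.D (xc (Q + Q')) / xc (Q + Q') = f3 at *
  generalize (xc Q)⁻¹ = v1 at *
  generalize (xc Q')⁻¹ = v2 at *
  generalize (xc (Q + Q'))⁻¹ = v3 at *
  generalize b / P.c1 b ^ 2 = u at *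
  generalize P.c1 b ^ 2 = w at *
  clear e1 e2 h4 h5
  grind

lemma hV_sq (hb : P.c1 b ≠ 0) {W : Affine F} (Q : W.Point) :
    hV P b Q ^ 2 = (P.D (xc Q) / xc Q) ^ 2 / (P.D b / b) + P.D (xc Q) / xc Q +
      b / xc Q ^ 2 * (P.D b / b) := by
  have h0 := cvb_ne P hb
  have e1 : b / xc Q ^ 2 * (P.D b / b) = P.c1 b ^ 2 * (xc Q)⁻¹ ^ 2 := by
    rw [div_eq_mul_inv b, ← inv_pow]
    unfold PB.D
    generalize (xc Q)⁻¹ = v
    field_simp
  rw [cvb_sq P hb, e1, div_div_eq_mul_div, mul_div_assoc]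
  rfl

lemma eb_two {Q : (Eb a b).Point} (hx : xc Q ≠ 0) :
    Q + Q ≠ 0 ∧ xc (Q + Q) = xc Q ^ 2 + b / xc Q ^ 2 := by
  have hw := eb_wp Q hx
  rcases Q with _ | ⟨x, y, h⟩
  · exact absurd rfl hx
  change x ≠ 0 at hx
  change wp (y / x) = x + a + b / x ^ 2 at hw
  have e1 : y - (Eb a b).negY x y = x := by
    change y - (-y - 1 * x - 0) = x
    grind
  have hy : y ≠ (Eb a b).negY x y := fun e => hx (by rw [← e1, ← e, sub_self])
  rw [Affine.Point.add_self_of_Y_ne hy]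
  refine ⟨Affine.Point.some_ne_zero _, ?_⟩
  have e2 : (Eb a b).slope x x y y = x + y / x := by
    rw [Affine.slope_of_Y_ne rfl hy, e1, div_eq_iff hx, add_mul, div_mul_cancel₀ _ hx]
    simp only [Eb]
    grind
  change (Eb a b).addX x x ((Eb a b).slope x x y y) = x ^ 2 + b / x ^ 2
  rw [e2]
  simp only [Affine.addX, Eb]
  unfold wp at hw
  generalize b / x ^ 2 = u at *
  generalize y / x = v at *
  grind

lemma eb_half (hb : P.c1 b ≠ 0) (S : Subfield F) (hS : ∀ x ∈ S, P.c0 x ∈ S ∧ P.c1 x ∈ S)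
    (hbS : b ∈ S) {Q : (Eb a b).Point} (h1 : xc Q ∈ S) (h2 : yc Q ∈ S) (h : hV P b Q = 0) :
    ∃ Q' : (Eb a b).Point, Q' + Q' = Q ∧ xc Q' ∈ S ∧ yc Q' ∈ S := by
  by_cases hQ : Q = 0
  · exact ⟨0, by rw [hQ, add_zero], S.zero_mem, S.zero_mem⟩
  have h0 := cvb_ne P hb
  have hx := eb_x_ne P hb hQ
  have hD : P.D b ≠ 0 := pow_ne_zero 2 hb
  have hfb : P.D b / b ≠ 0 := div_ne_zero hD h0
  have e0 := hV_sq P hb Q
  rw [h, zero_pow two_ne_zero] at e0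
  obtain ⟨w, hw⟩ : ∃ w, w = P.D (xc Q) / xc Q / (P.D b / b) + 1 := ⟨_, rfl⟩
  have hwS : w ∈ S := hw ▸ add_mem (div_mem (div_mem (pow_mem (hS _ h1).2 2) h1)
    (div_mem (pow_mem (hS _ hbS).2 2) hbS)) S.one_mem
  have e1 : P.D (xc Q) / xc Q = (w + 1) * (P.D b / b) := by
    rw [hw, add_assoc, CharTwo.add_self_eq_zero, add_zero, div_mul_cancel₀ _ hfb]
  have e2 : wp w = b / xc Q ^ 2 := by
    rw [e1, mul_pow, pow_two (P.D b / b), ← mul_assoc, mul_div_cancel_right₀ _ hfb] at e0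
    refine mul_right_cancel₀ hfb ?_
    unfold wp
    generalize P.D b / b = fb at *
    generalize b / xc Q ^ 2 = u at *
    clear hw hwS e1
    grind
  have e3 : b = xc Q ^ 2 * (w ^ 2 + w) := by
    rw [← wp, e2, mul_div_cancel₀ _ (pow_ne_zero 2 hx)]
  have hw0 : w ≠ 0 := fun e => h0 (by rw [e3, e]; ring)
  have e4 : P.D b = xc Q ^ 2 * P.D w := by
    conv_lhs => rw [e3, P.D_sq_mul, P.D_add, P.D_sq, zero_add]
  have e5 : P.D (xc Q * w) = 0 := by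
    rw [div_eq_iff hx] at e1
    have e6 : P.D b / b * w * (w + 1) = P.D w := by
      refine mul_left_cancel₀ (pow_ne_zero 2 hx) ?_
      rw [← e4]
      calc xc Q ^ 2 * (P.D b / b * w * (w + 1)) = P.D b / b * (xc Q ^ 2 * (w ^ 2 + w)) := by ring
        _ = P.D b := by rw [← e3, div_mul_cancel₀ _ h0]
    rw [P.D_mul, e1, ← e6]
    generalize P.D b / b = fb
    clear e0 e1 e2 e3 e4 e6 hw
    grind
  have e6 := P.D_eq_zero e5
  have hx'S := (hS _ (mul_mem h1 hwS)).1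
  generalize P.c0 (xc Q * w) = x' at e6 hx'S
  have hx' : x' ≠ 0 := fun e => mul_ne_zero hx hw0 (by rw [e6, e]; ring)
  have e7 : b / x' ^ 2 = xc Q * (w + 1) := by
    rw [div_eq_iff (pow_ne_zero 2 hx'), ← e6]
    linear_combination e3
  have e8 : wp (x' + yc Q / xc Q + w) = x' + a + b / x' ^ 2 := by
    rw [wp_add, wp_add, eb_wp Q hx, e2, e7]
    unfold wp
    rw [← e6]
    generalize b / xc Q ^ 2 = u
    clear e0 e1 e2 e3 e4 e5 e6 e7 hw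
    grind
  have hz : x' + yc Q / xc Q + w ∈ S := add_mem (add_mem hx'S (div_mem h2 h1)) hwS
  generalize x' + yc Q / xc Q + w = z at e8 hz
  obtain ⟨Q', -, g1, g2⟩ := eb_exists (a := a) h0 (x := x') (y := x' * z) (by
    have e : b / x' ^ 2 * x' ^ 2 = b := div_mul_cancel₀ _ (pow_ne_zero 2 hx')
    unfold wp at e8
    linear_combination x' ^ 2 * e8 + e)
  obtain ⟨g3, g4⟩ := eb_two (Q := Q') (g1 ▸ hx')
  rw [g1, e7, ← e6] at g4
  have g5 : xc (Q' + Q') = xc Q := by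
    rw [g4]
    clear e0 e1 e2 e3 e4 e5 e6 e7 e8 hw g4
    grind
  rcases eq_or_neg g3 hQ g5 with e | e
  · exact ⟨Q', e, g1 ▸ hx'S, g2 ▸ mul_mem hx'S hz⟩
  · refine ⟨-Q', by rw [← neg_add, e, neg_neg], by rw [xc_neg, g1]; exact hx'S, ?_⟩
    rw [eb_yc_neg, g1, g2]
    exact add_mem (mul_mem hx'S hz) hx'S

lemma eb_sub_add (S : Subfield F) (ha : a ∈ S) {Q Q' : (Eb a b).Point} (h1 : xc Q ∈ S)
    (h2 : yc Q ∈ S) (h3 : xc Q' ∈ S) (h4 : yc Q' ∈ S) : xc (Q + Q') ∈ S ∧ yc (Q + Q') ∈ S := by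
  rcases cvb_add Q Q' with rfl | rfl | ⟨-, -, ⟨h5, -⟩ | ⟨-, l, hl, h5, h6, -⟩⟩
  · rw [zero_add]
    exact ⟨h3, h4⟩
  · rw [add_zero]
    exact ⟨h1, h2⟩
  · rw [h5]
    exact ⟨S.zero_mem, S.zero_mem⟩
  · have h7 : l ∈ S := by
      rw [hl, Affine.slope]
      simp only [Eb, Affine.negY]
      have t2 : (2 : F) ∈ S := ofNat_mem S 2
      have t3 : (3 : F) ∈ S := ofNat_mem S 3
      split_ifs
      · exact S.zero_mem
      · exact div_mem (sub_mem (add_mem (add_mem (mul_mem t3 (pow_mem h1 2))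
          (mul_mem (mul_mem t2 ha) h1)) S.zero_mem) (mul_mem S.one_mem h2))
          (sub_mem h2 (sub_mem (sub_mem (neg_mem h2) (mul_mem S.one_mem h1)) S.zero_mem))
      · exact div_mem (sub_mem h2 h4) (sub_mem h1 h3)
    have h8 : xc (Q + Q') ∈ S :=
      h5 ▸ add_mem (add_mem (add_mem (add_mem (pow_mem h7 2) h7) ha) h1) h3
    exact ⟨h8, h6 ▸ add_mem (add_mem (mul_mem h7 (add_mem h8 h1)) h2) h8⟩

end Pool.Agent.Lib.MP_788af2_nt.AS
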