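import Pool.Agent.Lib.MP_788af2_nt.TT.ADefs
import Pool.Agent.Lib.MP_788af2_nt.AS.Log
import Pool.Agent.Lib.MP_788af2_nt.AS.AllDeg

/-!
Two parameter family: the analytic definitions.
-/

set_option linter.unusedSectionVars false

namespace Pool.Agent.Lib.MP_788af2_nt.AS

open Polynomial WeierstrassCurve Pool.Agent.Lib.MP_a3f657_nt.Two Matrix

section poly

variable {k : Type} [Field k] [Finite k] [CharP k 2]

/-- The even part. -/
noncomputable def ev (a : k[X]) : k[X] := (exists_parts a).choose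

/-- The odd part. -/
noncomputable def od (a : k[X]) : k[X] := (exists_parts a).choose_spec.choose

lemma ev_od (a : k[X]) : a = ev a ^ 2 + X * od a ^ 2 := (exists_parts a).choose_spec.choose_spec

/-- No divisor of `b` has a small nonzero derivative. -/
def NT (b : k[X]) (K : ℕ) : Prop :=
  ∀ d, d ∣ b → derivative d ≠ 0 → d.natDegree ≤ (derivative d).natDegree + K

/-- The good second coefficients. -/
structure GoodB (b : k[X]) (N K : ℕ) : Prop where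
  ne : b ≠ 0
  le : b.natDegree ≤ 2 * N
  ge : 2 * N ≤ b.natDegree + K
  nt : NT b K
  sq : ∀ s, s ^ 2 ∣ b → s.natDegree ≤ K

/-- The factorisation data at the finite places. -/
structure Adm2 (b ro s c a : k[X]) : Prop where
  eq : b = ro * s ^ 2
  d_ne : derivative ro ≠ 0
  s_ne : s ≠ 0
  cop_ro : IsCoprime ro (derivative ro)
  cop_c : IsCoprime c (derivative c)
  cop : IsCoprime ro c
  dvd : c ∣ s
  loc : ∀ q, Irreducible q → q ∣ s → ¬ q ∣ ro → ∃ n s', s = q ^ n * s' ∧ ¬ q ∣ s' ∧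
    ((q ∣ c ∧ (Odd n ∨ ∃ z, q ∣ a + z ^ 2 + z)) ∨ (¬ q ∣ c ∧ Even n ∧ ∀ z, ¬ q ∣ a + z ^ 2 + z))

open Classical in
/-- The product of the primes at which the component group matters. -/
noncomputable def cq (ro s a : k[X]) : k[X] :=
  ∏ q ∈ (UniqueFactorizationMonoid.normalizedFactors s).toFinset.filter fun q => ¬ q ∣ ro ∧
    (Odd ((UniqueFactorizationMonoid.normalizedFactors s).count q) ∨ ∃ z, q ∣ a + z ^ 2 + z), q

open Classical in
/-- The first coefficients of degree at most `N` whose odd part has degree `ε`. -/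
noncomputable def Ae (k : Type) [Field k] [Finite k] [CharP k 2] (N ε : ℕ) : Finset k[X] :=
  (AllDegAux.box k N).filter fun a => od a ≠ 0 ∧ (od a).natDegree = ε

/-- The flips. -/
noncomputable def mu (s : k[X]) (i J : ℕ) (γ : Fin J → k) : k[X] :=
  s * X ^ i * ∑ j, C (γ j) * X ^ (j : ℕ)

/-- The curve `y ^ 2 + x y = x ^ 3 + a x ^ 2 + b x`. -/
def Et {F : Type} [Field F] (a b : F) : Affine F := ⟨1, a, 0, b, 0⟩

/-- The rank of the curve `y ^ 2 + x y = x ^ 3 + a x ^ 2 + b`. -/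
noncomputable def rkb [DecidableEq (RatFunc k)] (a b : k[X]) : ℕ :=
  Module.finrank ℤ (Eb (ι a) (ι b)).Point

end poly

/-- The cubic governing the first variation. -/
def Gq {L : Type} [CommRing L] (z w : L) : L := z * w * (1 + z + w)

/-- The additive descent map on `y ^ 2 + x y = x ^ 3 + a x ^ 2 + b`. -/
noncomputable def hV {F : Type} [Field F] (P : PB F) (b : F) {W : Affine F} (Q : W.Point) : F :=
  P.c1 b / xc Q + P.c0 b / P.c1 b * (P.D (xc Q) / xc Q) + P.c0 (P.D (xc Q) / xc Q)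

/-- The numerical parameters. -/
structure Prm (e r R K s₀ J₀ K₃ K₄ D c ε : ℕ) : Prop where
  K_pos : 1 ≤ K
  hs : 2 * K * e + 1 ≤ s₀
  hJ : 2 * r * s₀ + 4 * r ^ 2 * e + 2 * s₀ + K + 3 ≤ J₀
  h3 : 30 * K + 12 * (2 * (4 * K + 1 + J₀) + K) + 1 ≤ K₃
  h4 : 2 ^ (2 * r) * (2 * (4 * K + 1 + J₀) + K) + (2 ^ (2 * r + 1) + 1) * K + 1 ≤ K₄
  hD : s₀ ^ 2 + r * s₀ * (R + 1) + 2 * R + (r * s₀ * R + 1) * (R + 1) + 2 * s₀ + K + 1 ≤ D / 2
  hc : 4 * D + 24 * K + K₃ + 2 * K₄ + 2 ≤ c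
  e1 : 5 * K + 5 * (R * D * (K + 4 ^ R * c + D + 1)) + 5 ≤ ε
  e2 : 5 * K + 1 + J₀ ≤ ε
  e3 : 2 * (4 ^ R * c + D + K) + 4 * K + 4 ≤ ε

namespace Tw

variable {k : Type} [Field k] [Finite k] [CharP k 2] {I : Type} [Fintype I] [DecidableEq I]
  {β : I → k[X]} {L : Type} [Field L] [CharP L 2] (T : Tw β L)

/-- The fixed elements. -/
def Fix (x : L) : Prop := ∀ g, T.σ g x = x

/-- The residue on the fixed field. -/
noncomputable def RK (x : L) : ZMod 2 := T.R (T.lgE * x)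

/-- The trace over the kernel of a character. -/
noncomputable def trH (ξ : G I) (x : L) : L := ∑ g, zc L (1 + ξ ⬝ᵥ g) * T.σ g x

/-- The axioms of the group cut out by the conditions at the finite places. -/
structure HG (H : AddSubgroup L) (K : ℕ) : Prop where
  σ_mem : ∀ g, ∀ h ∈ H, T.σ g h ∈ H
  iso : ∀ h ∈ H, ∀ h' ∈ H, T.R (h * h') = 0
  iso' : ∀ h ∈ H, ∀ ξ g : G I, ξ ⬝ᵥ g = 1 → T.R (comb T.θ ξ * (h * T.σ g h)) = 0
  lift : ∀ h ∈ H, T.Fix h → ∃ h' ∈ H, T.tr h' = h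
  disc : ∀ h ∈ H, T.Fix h → h ∈ T.d.Le (-K) → h = 0
  count : ∀ M₀ : ℕ, ∃ M : ℕ, M₀ ≤ M ∧ ∃ s : Finset L, Nat.card k ^ (M + 1) ≤ s.card ∧
    ∀ h ∈ s, h ∈ H ∧ T.Fix h ∧ h ∈ T.d.Le M

/-- The standing hypotheses of the local theory at infinity. -/
structure Kp (H : AddSubgroup L) (κ : L) (K : ℕ) : Prop where
  hg : T.HG H K
  pos : 1 ≤ K
  fix : T.Fix κ
  le : κ ∈ T.d.Le K

/-- The local 2-basis. -/
noncomputable def bh (κ : L) : L := T.P.b + κ ^ 2

/-- The operator whose kernel is the local condition. -/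
noncomputable def Θ (κ ζ : L) : L := ζ + T.P.c0 ζ + κ * T.P.c1 ζ

/-- The local condition. -/
def Kr (κ ζ : L) : Prop := wp ζ = T.bh κ * T.P.c1 ζ ^ 2

/-- The Selmer group over the tower. -/
def Sh (H : AddSubgroup L) (κ : L) : AddSubgroup L where
  carrier := {ζ | T.Kr κ ζ ∧ T.P.c1 ζ ∈ H}
  zero_mem' := ⟨by simp [Kr, wp], by simp⟩
  add_mem' := by
    rintro x y ⟨h1, h2⟩ ⟨h3, h4⟩
    refine ⟨?_, by rw [PB.c1_add]; exact add_mem h2 h4⟩
    unfold Kr at h1 h3 ⊢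
    rw [wp_add, h1, h3, PB.c1_add]
    grind
  neg_mem' := by
    intro x hx
    rwa [CharTwo.neg_eq]

/-- The Selmer group over the ground field. -/
def Vs (H : AddSubgroup L) (κ : L) : AddSubgroup L where
  carrier := {ζ | ζ ∈ T.Sh H κ ∧ T.Fix ζ}
  zero_mem' := ⟨zero_mem _, fun g => map_zero _⟩
  add_mem' := by
    rintro x y ⟨h1, h2⟩ ⟨h3, h4⟩
    exact ⟨add_mem h1 h3, fun g => by rw [map_add, h2 g, h4 g]⟩
  neg_mem' := by
    intro x hx
    rwa [CharTwo.neg_eq]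

/-- A chosen element of `H` with given trace. -/
noncomputable def lf (H : AddSubgroup L) (h : L) : L :=
  Classical.epsilon fun h' => h' ∈ H ∧ T.tr h' = h

/-- The twisting polynomial. -/
noncomputable def yy (ξ : G I) : L := T.p (X * comb β ξ ^ 2)

/-- The first derivative of the pairing. -/
noncomputable def d1 (H : AddSubgroup L) (κ : L) (ξ : G I) (z w : L) : ZMod 2 :=
  T.RK (T.yy ξ * (z * w / T.bh κ)) + T.R (comb T.θ ξ * (T.lf H (T.P.c1 w) * T.P.c1 z))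

/-- The characters with vanishing first derivative. -/
def InK (H : AddSubgroup L) (κ : L) (ξ : G I) : Prop :=
  ∀ z ∈ T.Vs H κ, ∀ w ∈ T.Vs H κ, T.d1 H κ ξ z w = 0

/-- `zh` lifts `z` along `ξ`, and `ht` is an element of `H` with the corresponding traces. -/
structure Lft (H : AddSubgroup L) (κ : L) (ξ : G I) (z zh ht : L) : Prop where
  ker : T.Kr κ zh
  act : ∀ g, T.σ g zh = zh + zc L (ξ ⬝ᵥ g) * z
  mem : ht ∈ H
  tr_eq : T.tr ht = T.P.c1 z
  trH_eq : T.trH ξ ht = T.P.c1 zh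

/-- A chosen lift. -/
noncomputable def lz (H : AddSubgroup L) (κ : L) (ξ : G I) (z : L) : L × L :=
  Classical.epsilon fun q => T.Lft H κ ξ z q.1 q.2

/-- The fixed element entering the second derivative. -/
noncomputable def E2 (κ z zh w wh : L) : L := (z * wh + zh * w + z * w) / T.bh κ

/-- The second derivative of the pairing. -/
noncomputable def d2 (H : AddSubgroup L) (κ : L) (ξ ξ' : G I) (z w : L) : ZMod 2 :=
  T.RK (T.yy ξ' * T.E2 κ z (T.lz H κ ξ z).1 w (T.lz H κ ξ w).1) +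
    T.R (comb T.θ ξ' * ((T.lz H κ ξ w).2 * T.P.c1 (T.lz H κ ξ z).1))

/-- A basis of `Vs`, a dual basis and the columns of the relation matrix. -/
structure Fr0 (H : AddSubgroup L) (κ : L) {W : Type} [Fintype W] [DecidableEq W]
    (vv : (W → ZMod 2) →+ L) (Ψ ζ : W → L) (B : G I → Matrix W W (ZMod 2)) : Prop where
  inj : Function.Injective vv
  range : ∀ z, z ∈ T.Vs H κ ↔ ∃ u, vv u = z
  fix : ∀ i, T.Fix (Ψ i)
  dual : ∀ i u, T.RK (Ψ i * (vv u / T.bh κ)) = u i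
  col : ∀ j, T.P.c1 (ζ j) ∈ H
  tr_col : ∀ j, T.tr (ζ j) = vv (Pi.single j 1)
  Θ_col : ∀ j, T.Θ κ (ζ j) = ∑ g, ∑ i, zc L (B g i j) * T.σ g (T.lgE * Ψ i)

/-- The frame: coordinates on the Selmer group and the relation matrix. -/
structure Frm (H : AddSubgroup L) (κ : L) {W : Type} [Fintype W]
    (vv : (W → ZMod 2) →+ L) (ν : L →+ (W → ZMod 2)) (B : G I → Matrix W W (ZMod 2)) : Prop where
  inj : Function.Injective vv
  range : ∀ z, z ∈ T.Vs H κ ↔ ∃ u, vv u = z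
  ν_inj : ∀ ζ ∈ T.Sh H κ, (∀ g, ν (T.σ g ζ) = 0) → ζ = 0
  rel : ∀ ζ ∈ T.Sh H κ, ∀ j, ∑ g, ∑ i, ν (T.σ g ζ) i * B g i j = 0
  d0 : ∑ g, B g = 0
  d1_eq : ∀ ξ u u', u ⬝ᵥ D1 B ξ *ᵥ u' = T.d1 H κ ξ (vv u) (vv u')
  lift : ∀ ξ, T.InK H κ ξ → ∀ z ∈ T.Vs H κ, ∃ zh ht, T.Lft H κ ξ z zh ht
  d2_eq : ∀ ξ ξ', T.InK H κ ξ → T.InK H κ ξ' → ∀ u u',
    u ⬝ᵥ D2 B ξ ξ' *ᵥ u' = T.d2 H κ ξ ξ' (vv u) (vv u')

/-- The alternating expression governing the second variation. -/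
noncomputable def gw {r : ℕ} (p w : Fin r → L) : L :=
  ∑ a, (p a * T.P.c1 (w a) + w a * T.P.c1 (p a))

/-- Two solutions of nearby local conditions correspond. -/
def Near (z z' : L) : Prop := T.P.c1 z' = T.P.c1 z ∧ z + z' ∈ T.d.Le (-1)

/-- Nontrivial bivectors are not small. -/
def Gd0 (H : AddSubgroup L) (κ : L) (r K₄ : ℕ) : Prop :=
  ∀ p w : Fin r → L, (∀ a, p a ∈ T.Vs H κ) → (∀ a, w a ∈ T.Vs H κ) → ¬ Triv p w →
    T.gw p w ∉ T.d.Le (-K₄)

/-- The cubic is not close to one. -/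
def Gd3 (H : AddSubgroup L) (κ : L) (K₃ : ℕ) : Prop :=
  ∀ z ∈ T.Vs H κ, ∀ w ∈ T.Vs H κ, z ≠ 0 → z ≠ 1 → Gq z w + 1 ∉ T.d.Le (-K₃)

/-- First order nondegeneracy. -/
def Gd1 (H : AddSubgroup L) (κ : L) (K₃ : ℕ) : Prop :=
  ∀ z ∈ T.Vs H κ, ∀ w ∈ T.Vs H κ, ∀ c : ZMod 2, Gq z w + zc L c ∉ T.d.Le (-K₃) →
    ∃ ξ, T.d1 H κ ξ z w + c * T.d1 H κ ξ 1 1 ≠ 0

/-- The logarithmic derivative of a polynomial. -/
noncomputable def fl (q : k[X]) : L := T.p (derivative q) / T.p q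

/-- A representative of `h` satisfying the conditions at the finite places. -/
structure Rep (ro c a : k[X]) (h F u ρ z : L) : Prop where
  sq : h ^ 2 = F ^ 2 / T.fl ro + F + u * T.fl ro
  u_O : u ∈ T.O
  ρ_O : ρ ∈ T.O
  z_O : z ∈ T.O
  F_O : T.p ro * (F + ρ * T.fl c) ∈ T.O
  idem : ∃ o ∈ T.O, wp ρ = T.p c * o
  cong : ∃ o ∈ T.O, u + ρ * T.p a + wp z = T.p c * o

/-- The group cut out by the conditions at the finite places. -/
def Hs (ro c a : k[X]) : AddSubgroup L where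
  carrier := {h | ∃ F u ρ z, T.Rep ro c a h F u ρ z}
  zero_mem' := ⟨0, 0, 0, 0, by simp, zero_mem _, zero_mem _, zero_mem _, by simp,
    ⟨0, zero_mem _, by simp [wp]⟩, ⟨0, zero_mem _, by simp [wp]⟩⟩
  add_mem' := by
    rintro x y ⟨F, u, ρ, z, h⟩ ⟨F', u', ρ', z', h'⟩
    obtain ⟨o1, ho1, e1⟩ := h.idem
    obtain ⟨o2, ho2, e2⟩ := h.cong
    obtain ⟨o3, ho3, e3⟩ := h'.idem
    obtain ⟨o4, ho4, e4⟩ := h'.cong
    refine ⟨F + F', u + u', ρ + ρ', z + z', ?_, add_mem h.u_O h'.u_O, add_mem h.ρ_O h'.ρ_O,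
      add_mem h.z_O h'.z_O, ?_, ⟨o1 + o3, add_mem ho1 ho3, by rw [wp_add, e1, e3, mul_add]⟩,
      ⟨o2 + o4, add_mem ho2 ho4, by rw [wp_add, mul_add, ← e2, ← e4]; ring⟩⟩
    · rw [CharTwo.add_sq, CharTwo.add_sq, h.sq, h'.sq]
      ring
    · have := add_mem h.F_O h'.F_O
      rwa [← mul_add, add_add_add_comm, ← add_mul] at this
  neg_mem' := by
    intro x hx
    rwa [CharTwo.neg_eq]

/-- The parameter of the local condition at infinity. -/
noncomputable def kap (a b : k[X]) : L := T.p (od b) / T.p (od a) ^ 2 + T.p (ev b) / T.p (od b)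

/-- The change of the parameter under a flip. -/
noncomputable def del (a b μ : k[X]) : L :=
  T.p (od b) * (T.p μ / (T.p (od a) * (T.p (od a) + T.p μ))) ^ 2

/-- The standing hypotheses for the family over a fixed second coefficient. -/
structure Cfg (Hf : k[X] → AddSubgroup L) (K : ℕ) (b s : k[X]) (N ε : ℕ) : Prop where
  pos : 1 ≤ K
  hg : ∀ a, T.HG (Hf a) K
  inv : ∀ a μ, s ∣ μ → Hf (a + X * μ ^ 2) = Hf a
  od_ne : od b ≠ 0
  ev_le : (ev b).natDegree ≤ (od b).natDegree + K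
  le1 : (od b).natDegree ≤ 2 * ε + K
  le2 : 2 * ε ≤ (od b).natDegree + K
  s_ne : s ≠ 0
  s_le : s.natDegree ≤ K
  N_ge : 2 * ε + 1 ≤ N

/-- The degree hypotheses of the local theory of the curve. -/
structure Par2 (_ : Tw β L) (a b : k[X]) (K ε : ℕ) : Prop where
  pos : 1 ≤ K
  a_ne : od a ≠ 0
  a_od : (od a).natDegree = ε
  a_le : a.natDegree ≤ 2 * ε + K
  b_ne : od b ≠ 0
  b_le : b.natDegree ≤ 2 * (od b).natDegree + K
  le1 : (od b).natDegree ≤ 2 * ε + K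
  le2 : 2 * ε ≤ (od b).natDegree + K
  big : 5 * (K : ℝ) + 5 * gam β Finset.univ + 5 ≤ ε

/-- The curve over the tower. -/
noncomputable abbrev Cw (a b : k[X]) : Affine L := Eb (T.p a) (T.p b)

end Tw

section blocks

variable {k : Type} [Field k] [Finite k] [CharP k 2] {R D : ℕ}

/-- The generators of the tower: `R` blocks of size `D`. -/
noncomputable def bet (s : k[X]) (R D c : ℕ) (i : Ix fun _ : Fin R => D) : k[X] :=
  s * X ^ (4 ^ (i.1 : ℕ) * c + i.2)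

variable {β : (Ix fun _ : Fin R => D) → k[X]} {L : Type} [Field L] [CharP L 2] (T : Tw β L)

open Classical in
/-- The characters in a block with vanishing first derivative. -/
noncomputable def Tw.Xb (H : AddSubgroup L) (κ : L) (l : Fin R) :
    Finset (G (Ix fun _ : Fin R => D)) :=
  (Blk (fun _ => D) l).filter fun ξ => T.InK H κ ξ

/-- The tuples on which a given second order functional vanishes. -/
def Tw.Zr (H : AddSubgroup L) (κ : L) {r : ℕ} (m l₀ : Fin R) (p : Fin r → L)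
    (w : Fin R → Fin r → L) : Set (Fin R → G (Ix fun _ : Fin R => D)) :=
  {ξ | ξ ∈ pre (T.Xb H κ) m ∧ ∀ x ∈ T.Xb H κ m,
    ∑ l with l ≤ l₀, ∑ a, T.d2 H κ (ξ l) x (p a) (w l a) = 0}

/-- Second order nondegeneracy. -/
def Tw.Gd2 (H : AddSubgroup L) (κ : L) (r K₄ n : ℕ) : Prop :=
  ∀ m l₀ : Fin R, l₀ < m → ∀ (p : Fin r → L) (w : Fin R → Fin r → L), (∀ a, p a ∈ T.Vs H κ) →
    (∀ l a, w l a ∈ T.Vs H κ) → T.gw p (w l₀) ∉ T.d.Le (-K₄) →
    (T.Zr H κ m l₀ p w).ncard * 2 ^ n ≤ (pre (T.Xb H κ) m).card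

end blocks

end Pool.Agent.Lib.MP_788af2_nt.AS
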