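import Pool.Agent.Lib.MP_788af2_nt.TT.Defs

/-!
The fixed field: residues, Hensel lifting, socle and Nakayama lemmas.
-/

set_option linter.unusedSectionVars false

namespace Pool.Agent.Lib.MP_788af2_nt.AS

open Polynomial WeierstrassCurve Pool.Agent.Lib.MP_a3f657_nt.Two

namespace Tw

variable {k : Type} [Field k] [Finite k] [CharP k 2] {I : Type} [Fintype I] [DecidableEq I]
  {β : I → k[X]} {L : Type} [Field L] [CharP L 2] (T : Tw β L)

variable {T} {x y z f : L} {r r' : ℝ}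

lemma Fix.fx (h : T.Fix x) : x ∈ T.Fx ∅ := T.mem_Fx_empty.2 h

lemma Fix.add (hx : T.Fix x) (hy : T.Fix y) : T.Fix (x + y) := fun g => by
  rw [map_add, hx g, hy g]

lemma Fix.mul (hx : T.Fix x) (hy : T.Fix y) : T.Fix (x * y) := fun g => by
  rw [map_mul, hx g, hy g]

lemma Fix.div (hx : T.Fix x) (hy : T.Fix y) : T.Fix (x / y) := fun g => by
  rw [map_div₀, hx g, hy g]

lemma Fix.pow (hx : T.Fix x) (n : ℕ) : T.Fix (x ^ n) := fun g => by rw [map_pow, hx g]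

lemma Fix.c0 (hx : T.Fix x) : T.Fix (T.P.c0 x) := fun g => by rw [← σ_c0, hx g]

lemma Fix.c1 (hx : T.Fix x) : T.Fix (T.P.c1 x) := fun g => by rw [← σ_c1, hx g]

lemma Fix.sum {α : Type} (s : Finset α) {F : α → L} (h : ∀ i ∈ s, T.Fix (F i)) :
    T.Fix (∑ i ∈ s, F i) := fun g => by
  rw [map_sum]
  exact Finset.sum_congr rfl fun i hi => h i hi g

lemma Fix.c1_le (hx : T.Fix x) (h : x ∈ T.d.Le r) (hr : r / 2 ≤ r') : T.P.c1 x ∈ T.d.Le r' :=
  T.c1_le hx.fx h (by simpa [gam] using hr)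

lemma Fix.c0_le (hx : T.Fix x) (h : x ∈ T.d.Le r) (hr : r / 2 ≤ r') : T.P.c0 x ∈ T.d.Le r' :=
  T.c0_le hx.fx h (by simpa [gam] using hr)

variable (T)

lemma fix_p (a : k[X]) : T.Fix (T.p a) := fun g => T.σ_p g a

lemma fix_e (a : RatFunc k) : T.Fix (T.e a) := fun g => T.σ_e g a

lemma fix_b : T.Fix T.P.b := T.σ_b

lemma fix_zc (u : ZMod 2) : T.Fix (zc L u) := fun g => T.σ_zc g u

lemma fix_one : T.Fix 1 := fun g => map_one _

lemma fix_zero : T.Fix 0 := fun g => map_zero _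

lemma fix_tr (x : L) : T.Fix (T.tr x) := fun g => T.σ_tr g x

lemma c0_ev (a : k[X]) : T.P.c0 (T.p a) = T.p (ev a) := by
  conv_lhs => rw [ev_od a]
  exact T.c0_p _ _

lemma c1_od (a : k[X]) : T.P.c1 (T.p a) = T.p (od a) := by
  conv_lhs => rw [ev_od a]
  exact T.c1_p _ _

lemma yy_eq (ξ : G I) : T.yy ξ = T.P.b * T.p (comb β ξ) ^ 2 := by
  rw [yy, map_mul, map_pow, p_X]

lemma comb_spec (ξ : G I) :
    comb T.θ ξ = comb T.θ ξ ^ 2 + T.P.b * T.p (comb β ξ) ^ 2 := by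
  have := T.wp_comb ξ
  rw [map_mul, map_pow, p_X, wp] at this
  grind

lemma RK_add (x y : L) : T.RK (x + y) = T.RK x + T.RK y := by rw [RK, mul_add, R_add]; rfl

lemma RK_zero : T.RK 0 = 0 := by rw [RK, mul_zero, R_zero]

lemma RK_sum {α : Type} (s : Finset α) (F : α → L) :
    T.RK (∑ i ∈ s, F i) = ∑ i ∈ s, T.RK (F i) := by
  simp only [RK, Finset.mul_sum, R_sum]

lemma RK_zc_mul (u : ZMod 2) (x : L) : T.RK (zc L u * x) = u * T.RK x := by
  rw [RK, mul_left_comm, R_zc_mul]; rfl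

lemma R_eq_RK (y : L) : T.R y = T.RK (T.tr y) :=
  T.R_congr (T.lgE_tr_mul (T.fix_tr y)).symm

lemma R_fix_mul (hx : T.Fix x) (y : L) : T.R (x * y) = T.RK (x * T.tr y) := by
  rw [R_eq_RK, T.tr_fix_mul hx]

lemma RK_c1 (hx : T.Fix x) : T.RK (T.P.c1 x) = T.RK x := by
  have h : T.RK x = T.R (T.P.c1 (T.lgE * x)) := (T.R_c1 _).symm
  rw [h, R_eq_RK, tr_c1, T.lgE_tr_mul hx]

lemma RK_small (hx : T.Fix x) (h : x ∈ T.d.Le (-2)) : T.RK x = 0 := by
  rw [RK, T.R_eq (y := 0) (by rwa [T.lgE_tr_mul hx, map_zero, sub_zero]), map_zero]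

lemma RK_sq_mul (hz : T.Fix z) (hf : T.Fix f) : T.RK (z ^ 2 * f) = T.RK (z * T.P.c1 f) := by
  rw [← T.RK_c1 ((hz.pow 2).mul hf), PB.c1_sq_mul]

lemma RK_wp_mul (hz : T.Fix z) (hf : T.Fix f) (h : T.P.c1 f = f) : T.RK (wp z * f) = 0 := by
  rw [wp, add_mul, RK_add, T.RK_sq_mul hz hf, h]
  exact CharTwo.add_self_eq_zero _

private lemma fixG_add_self (g : G I) : g + g = 0 :=
  funext fun i => CharTwo.add_self_eq_zero (g i)

private lemma fix_σ_comm (g g' : G I) (x : L) : T.σ g (T.σ g' x) = T.σ g' (T.σ g x) := by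
  rw [← T.σ_add, add_comm, T.σ_add]

lemma tr_of_inv {g : G I} (hg : g ≠ 0) (h : T.σ g x = x) : T.tr x = 0 := by
  refine Finset.sum_involution (fun g' _ => g' + g) (fun g' _ => ?_) (fun g' _ _ e => hg ?_)
    (fun _ _ => Finset.mem_univ _) (fun g' _ => ?_)
  · rw [T.σ_add, h]
    exact CharTwo.add_self_eq_zero _
  · exact add_eq_left.1 e
  · rw [add_assoc, fixG_add_self, add_zero]

lemma eq_zero_of_wp (hx : x ∈ T.d.Le r) (hr : r < 0) (h : wp x = 0) : x = 0 := by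
  rcases wp_eq_zero.1 h with h1 | h1
  · exact h1
  · rw [h1, DF.mem_Le_iff one_ne_zero, DF.deg_one] at hx
    linarith

lemma of_wp_small (hx : x ∈ T.d.Le r) (hr : r < 0) (h : wp x ∈ T.d.Le r') : x ∈ T.d.Le r' := by
  by_cases h0 : x = 0
  · rw [h0]
    exact zero_mem _
  have h1 := (DF.mem_Le_iff h0).1 hx
  have h2 := DF.deg_add_lt (d := T.d) h0 (DF.Le.sq (DF.mem_Le_deg x) le_rfl) (by linarith)
  rw [wp, add_comm, DF.mem_Le_iff h2.1, h2.2] at h
  exact DF.mem_Le_of h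

private lemma fix_of_wp_aux (h : T.Fix (wp x)) (hx : x ∈ T.d.Le r) (hr : r < 0) : T.Fix x := by
  intro g
  have h1 : wp (T.σ g x + x) = 0 := by
    have h2 := h g
    rw [wp, map_add, map_pow] at h2
    rw [wp_add, wp, wp, h2]
    exact CharTwo.add_self_eq_zero _
  exact CharTwo.add_eq_zero.1 (T.eq_zero_of_wp (add_mem (T.σ_mem g hx) hx) hr h1)

lemma fix_hensel (hx : T.Fix x) (h : x ∈ T.d.Le r) (hr : r < 0) :
    ∃ u, T.Fix u ∧ u ∈ T.d.Le r ∧ wp u = x := by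
  obtain ⟨u, h1, h2⟩ := T.hensel r x hr h
  exact ⟨u, T.fix_of_wp_aux (h2 ▸ hx) h1 hr, h1, h2⟩

lemma fix_of_wp (h : T.Fix (wp x)) (hx : x ∈ T.d.Le r) (hr : r < 0) : T.Fix x :=
  T.fix_of_wp_aux h hx hr

lemma tr_zero_eq (h : T.tr x = 0) :
    x = ∑ g, (T.σ g (T.lgE * T.σ g x) + T.lgE * T.σ g x) := by
  have h1 : ∑ g : G I, T.σ g T.lgE = 1 := T.lgE_tr
  have h2 : ∑ g : G I, T.σ g x = 0 := h
  simp only [map_mul, σ_σ]
  rw [Finset.sum_add_distrib, ← Finset.sum_mul, ← Finset.mul_sum, h1, h2, one_mul, mul_zero,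
    add_zero]

private lemma socle_aux (N : AddSubgroup L) (hN : ∀ g, ∀ x ∈ N, T.σ g x ∈ N) (hx : x ∈ N)
    (h0 : x ≠ 0) (S : Finset (G I)) : ∃ y ∈ N, y ≠ 0 ∧ ∀ g ∈ S, T.σ g y = y := by
  induction S using Finset.induction_on with
  | empty => exact ⟨x, hx, h0, fun g hg => absurd hg (Finset.notMem_empty g)⟩
  | insert j S _ ih =>
    obtain ⟨y, h1, h2, h3⟩ := ih
    by_cases h4 : T.σ j y + y = 0
    · refine ⟨y, h1, h2, fun g hg => ?_⟩
      rcases Finset.mem_insert.1 hg with rfl | hg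
      exacts [CharTwo.add_eq_zero.1 h4, h3 g hg]
    · refine ⟨T.σ j y + y, add_mem (hN j y h1) h1, h4, fun g hg => ?_⟩
      rcases Finset.mem_insert.1 hg with rfl | hg
      · rw [map_add, σ_σ, add_comm]
      · rw [map_add, fix_σ_comm, h3 g hg]

theorem socle (N : AddSubgroup L) (hN : ∀ g, ∀ x ∈ N, T.σ g x ∈ N) (hx : x ∈ N) (h0 : x ≠ 0) :
    ∃ y ∈ N, y ≠ 0 ∧ T.Fix y := by
  obtain ⟨y, h1, h2, h3⟩ := T.socle_aux N hN hx h0 Finset.univ
  exact ⟨y, h1, h2, fun g => h3 g (Finset.mem_univ g)⟩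

private lemma nak_aux (S : Finset (G I)) : ∀ N : AddSubgroup L, (∀ g, ∀ x ∈ N, T.σ g x ∈ N) →
    (∀ x, ∃ n ∈ N, ∃ y : G I → L, x = n + ∑ g ∈ S, (T.σ g (y g) + y g)) → ∀ x, x ∈ N := by
  induction S using Finset.induction_on with
  | empty =>
    intro N _ h x
    obtain ⟨n, hn, y, e⟩ := h x
    rwa [e, Finset.sum_empty, add_zero]
  | insert j S hj ih =>
    intro N hN h
    let N' : AddSubgroup L :=
      { carrier := {x | ∃ n ∈ N, ∃ w, x = n + (T.σ j w + w)}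
        zero_mem' := ⟨0, zero_mem _, 0, by simp⟩
        add_mem' := by
          rintro _ _ ⟨n, hn, w, rfl⟩ ⟨n', hn', w', rfl⟩
          exact ⟨n + n', add_mem hn hn', w + w', by rw [map_add]; ring⟩
        neg_mem' := by
          intro x hx
          rwa [CharTwo.neg_eq] }
    have key : ∀ x, ∃ n ∈ N, ∃ w, x = n + (T.σ j w + w) := by
      refine ih N' ?_ fun x => ?_
      · rintro g _ ⟨n, hn, w, rfl⟩
        exact ⟨T.σ g n, hN g n hn, T.σ g w, by rw [map_add, map_add, fix_σ_comm]⟩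
      · obtain ⟨n, hn, y, e⟩ := h x
        exact ⟨n + (T.σ j (y j) + y j), ⟨n, hn, y j, rfl⟩, y, by
          rw [e, Finset.sum_insert hj, ← add_assoc]⟩
    intro x
    obtain ⟨n, hn, w, e⟩ := key x
    obtain ⟨n', hn', w', e'⟩ := key w
    have h1 : T.σ j w + w = T.σ j n' + n' := by
      have h2 : T.σ j w = T.σ j n' + (w' + T.σ j w') := by
        rw [e', map_add, map_add, σ_σ]
      rw [h2, e']
      generalize T.σ j n' = a
      generalize T.σ j w' = b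
      grind
    rw [e, h1]
    exact add_mem hn (add_mem (hN j n' hn') hn')

theorem nak (N : AddSubgroup L) (hN : ∀ g, ∀ x ∈ N, T.σ g x ∈ N)
    (h : ∀ x, ∃ n ∈ N, T.tr n = T.tr x) (x : L) : x ∈ N := by
  refine T.nak_aux Finset.univ N hN (fun x => ?_) x
  obtain ⟨n, hn, e⟩ := h x
  have h1 : T.tr (n + x) = 0 := by
    rw [tr_add, e]
    exact CharTwo.add_self_eq_zero _
  refine ⟨n, hn, fun g => T.lgE * T.σ g (n + x), ?_⟩
  rw [← T.tr_zero_eq h1, ← add_assoc, CharTwo.add_self_eq_zero, zero_add]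

end Tw

end Pool.Agent.Lib.MP_788af2_nt.AS
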