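import Pool.Agent.Lib.MP_788af2_nt.TT.Fix

/-!
The fixed field: expansions at infinity.
-/

set_option linter.unusedSectionVars false

namespace Pool.Agent.Lib.MP_788af2_nt.AS

open Polynomial WeierstrassCurve Pool.Agent.Lib.MP_a3f657_nt.Two

private lemma fix2_cases (u : ZMod 2) : u = 0 ∨ u = 1 := by revert u; decide

lemma exists_delta (k : Type) [Field k] [Finite k] [CharP k 2] :
    ∃ δ : k, ∀ c : k, ∃ (u : ZMod 2) (z : k), c = zc k u * δ + wp z := by
  let f : k →+ k := AddMonoidHom.mk' wp wp_add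
  have e1 : Nat.card f.ker = 2 := by
    have : (f.ker : Set k) = {0, 1} := by
      ext x
      simp only [SetLike.mem_coe, AddMonoidHom.mem_ker, Set.mem_insert_iff, Set.mem_singleton_iff]
      exact wp_eq_zero
    have h2 : Nat.card f.ker = (f.ker : Set k).ncard := rfl
    rw [h2, this, Set.ncard_pair zero_ne_one]
  have e2 : f.range.index = 2 := by rw [AddSubgroup.index_range, e1]
  obtain ⟨δ, hδ⟩ : ∃ c, c ∉ f.range := by
    by_contra h
    push Not at h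
    have : f.range = ⊤ := (AddSubgroup.eq_top_iff' _).2 h
    rw [this, AddSubgroup.index_top] at e2
    omega
  refine ⟨δ, fun c => ?_⟩
  by_cases hc : c ∈ f.range
  · obtain ⟨z, hz⟩ := hc
    exact ⟨0, z, by rw [map_zero, zero_mul, zero_add]; exact hz.symm⟩
  · have h3 : c + δ ∈ f.range :=
      (AddSubgroup.add_mem_iff_of_index_two e2).2 ⟨fun h => absurd h hc, fun h => absurd h hδ⟩
    obtain ⟨z, hz⟩ := h3
    refine ⟨1, z, ?_⟩
    have hz' : wp z = c + δ := hz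
    rw [map_one, one_mul, hz']
    grind

namespace Tw

variable {k : Type} [Field k] [Finite k] [CharP k 2] {I : Type} [Fintype I] [DecidableEq I]
  {β : I → k[X]} {L : Type} [Field L] [CharP L 2] (T : Tw β L)

variable {x : L}

lemma fix_deg (hx : T.Fix x) (h0 : x ≠ 0) : ∃ n : ℤ, T.d.deg x = n := by
  obtain ⟨y, hy⟩ := T.dense x hx (T.d.deg x - 1)
  have h1 := DF.deg_add_lt h0 (neg_mem hy) (by linarith)
  rw [show x + -(x - T.e y) = T.e y by ring] at h1
  have h2 : y ≠ 0 := fun e => h1.1 (by rw [e, map_zero])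
  refine ⟨-(ord (val none) y : ℤ), ?_⟩
  rw [← h1.2, T.d_e y h2]
  push_cast
  rfl

lemma fix_pol (hx : T.Fix x) : ∃ a : k[X], x + T.p a ∈ T.d.Le (-1) := by
  obtain ⟨y, hy⟩ := T.dense x hx (-1)
  have h1 : T.e (y - ι (pol y)) ∈ T.d.Le ((-1 : ℤ) : ℝ) := T.e_mem.2 (by simpa using pol_spec y)
  refine ⟨pol y, ?_⟩
  have h2 := add_mem hy (show T.e (y - ι (pol y)) ∈ T.d.Le (-1) by simpa using h1)
  rwa [map_sub, sub_add_sub_cancel, CharTwo.sub_eq_add] at h2

lemma p_small {a : k[X]} {r : ℝ} (hr : r < 0) (h : T.p a ∈ T.d.Le r) : a = 0 := by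
  by_contra h0
  rw [DF.mem_Le_iff (T.p_ne h0), T.deg_p h0] at h
  have : (0 : ℝ) ≤ a.natDegree := by positivity
  linarith

lemma p_le_iff {a : k[X]} {n : ℕ} : T.p a ∈ T.d.Le n ↔ a.natDegree ≤ n := by
  by_cases h0 : a = 0
  · simp [h0]
  · rw [DF.mem_Le_iff (T.p_ne h0), T.deg_p h0, Nat.cast_le]

private lemma fix2_deg_b : T.d.deg T.P.b = 1 := by
  rw [← T.p_X, T.deg_p X_ne_zero]; simp

private lemma fix2_C (c : k) : T.p (C c) ∈ T.d.Le 0 := by
  simpa using T.p_mem (C c)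

private lemma fix2_lead (hx : T.Fix x) {c : k} (h : T.P.b * x + T.p (C c) ∈ T.d.Le (-1)) :
    T.RK x = MP_a3f657_nt.Two.tr k c := by
  have hX : (RatFunc.X : RatFunc k) ≠ 0 := RatFunc.X_ne_zero
  have h1 : T.tr (T.lgE * x) - T.e (ι (C c) / RatFunc.X) ∈ T.d.Le (-2) := by
    rw [T.lgE_tr_mul hx, map_div₀, ← T.hP, ← p_eq, CharTwo.sub_eq_add,
      show x + T.p (C c) / T.P.b = (T.P.b * x + T.p (C c)) / T.P.b by
        have := T.P.b_ne
        field_simp]
    exact DF.Le.div h (by rw [fix2_deg_b]; norm_num)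
  rw [RK, T.R_eq h1, res_none, resInf_apply, mul_div_cancel₀ _ hX, pol_ι, coeff_C_zero]

private lemma fix2_const (hx : T.Fix x) (h : x ∈ T.d.Le 0) :
    ∃ c : k, x + T.p (C c) ∈ T.d.Le (-1) := by
  obtain ⟨a, ha⟩ := T.fix_pol hx
  have h1 : T.p a ∈ T.d.Le ((0 : ℕ) : ℝ) := by
    have := add_mem h (DF.Le.mono ha (c := 0) (by norm_num))
    rw [← add_assoc, two_K, zero_add] at this
    simpa using this
  exact ⟨a.coeff 0, by rwa [← eq_C_of_natDegree_le_zero (T.p_le_iff.1 h1)]⟩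

private lemma fix2_step (hx : T.Fix x) (h : T.P.b * x ∈ T.d.Le 0)
    (hc : ∀ c : k, T.RK (T.p (C c) * x) = 0) : T.P.b * x ∈ T.d.Le (-1) := by
  obtain ⟨c0, h0⟩ := T.fix2_const (T.fix_b.mul hx) h
  have h1 : ∀ c : k, MP_a3f657_nt.Two.tr k (c * c0) = 0 := fun c => by
    rw [← hc c]
    refine (T.fix2_lead ((T.fix_p _).mul hx) ?_).symm
    rw [show T.P.b * (T.p (C c) * x) + T.p (C (c * c0)) = T.p (C c) * (T.P.b * x + T.p (C c0)) by
      rw [C_mul, map_mul]; ring]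
    exact DF.Le.mul (T.fix2_C c) h0 (by norm_num)
  have h2 : c0 = 0 := by
    by_contra h2
    obtain ⟨c1, h3⟩ := tr_ne (k := k)
    exact h3 (by simpa [h2] using h1 (c1 / c0))
  simpa [h2] using h0

lemma RK_nd (hx : T.Fix x) (h0 : x ≠ 0) : ∃ Ψ, T.Fix Ψ ∧ T.RK (Ψ * x) ≠ 0 := by
  obtain ⟨c, hc⟩ := tr_ne (k := k)
  have h1 : T.Fix (T.p (C c) / (T.P.b * x)) := (T.fix_p _).div (T.fix_b.mul hx)
  refine ⟨_, h1, ?_⟩
  rw [T.fix2_lead (h1.mul hx) (c := c)]
  · exact hc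
  · have := T.P.b_ne
    rw [show T.P.b * (T.p (C c) / (T.P.b * x) * x) = T.p (C c) by field_simp, two_K]
    exact zero_mem _

lemma RK_win (hx : T.Fix x) (h : x ∈ T.d.Le (-1)) (J : ℕ)
    (hJ : ∀ j < J, ∀ c : k, T.RK (T.p (C c * X ^ j) * x) = 0) : x ∈ T.d.Le (-1 - J) := by
  induction J with
  | zero => simpa using h
  | succ J ih =>
    have h1 := ih fun j hj => hJ j (by omega)
    have hb := T.P.b_ne
    have h2 : T.P.b * (T.P.b ^ J * x) ∈ T.d.Le 0 :=
      DF.Le.mul T.b_mem (DF.Le.mul (DF.Le.pow T.b_mem J le_rfl) h1 le_rfl) (by linarith)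
    have h3 := T.fix2_step ((T.fix_b.pow J).mul hx) h2 fun c => by
      have := hJ J (by omega) c
      rwa [map_mul, map_pow, p_X, mul_assoc] at this
    rw [show T.P.b * (T.P.b ^ J * x) = x * T.P.b ^ (J + 1) by ring] at h3
    refine DF.Le.of_mul h3 (pow_ne_zero _ hb) ?_
    rw [DF.deg_pow hb, fix2_deg_b]
    linarith

lemma card_win (s : Finset L) (n n' : ℕ) (h1 : ∀ x ∈ s, T.Fix x ∧ x ∈ T.d.Le n)
    (h2 : ∀ x ∈ s, ∀ y ∈ s, x + y ∈ T.d.Le (-n') → x = y) : s.card ≤ Nat.card k ^ (n + n') := by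
  have hb := T.P.b_ne
  have h3 : ∀ x : s, ∃ a : k[X], a.natDegree ≤ n + n' ∧
      T.P.b ^ n' * x.1 + T.p a ∈ T.d.Le (-1) := fun x => by
    obtain ⟨a, ha⟩ := T.fix_pol ((T.fix_b.pow n').mul (h1 x.1 x.2).1)
    refine ⟨a, T.p_le_iff.1 ?_, ha⟩
    have h4 : T.P.b ^ n' * x.1 ∈ T.d.Le ((n + n' : ℕ) : ℝ) :=
      DF.Le.mul (DF.Le.pow T.b_mem n' le_rfl) (h1 x.1 x.2).2 (by push_cast; linarith)
    have h5 : (0 : ℝ) ≤ ((n + n' : ℕ) : ℝ) := by positivity
    have := add_mem h4 (DF.Le.mono ha (c := ((n + n' : ℕ) : ℝ)) (by linarith))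
    rwa [← add_assoc, two_K, zero_add] at this
  choose a ha hb' using h3
  have h4 : Function.Injective fun (x : s) (i : Fin (n + n')) => (a x).coeff (i + 1) := by
    intro x y hxy
    refine Subtype.ext (h2 _ x.2 _ y.2 ?_)
    have h5 : (a x + a y).natDegree ≤ 0 := by
      refine natDegree_le_iff_coeff_eq_zero.2 fun N hN => ?_
      obtain ⟨i, rfl⟩ : ∃ i, N = i + 1 := ⟨N - 1, by omega⟩
      rw [coeff_add]
      by_cases hi : i < n + n'
      · have h6 : (a x).coeff (i + 1) = (a y).coeff (i + 1) := congrFun hxy ⟨i, hi⟩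
        rw [h6, two_K]
      · rw [coeff_eq_zero_of_natDegree_lt (by have := ha x; omega),
          coeff_eq_zero_of_natDegree_lt (by have := ha y; omega), add_zero]
    have h6 : T.p (a x + a y) ∈ T.d.Le 0 := by simpa using T.p_le_iff.2 h5
    have h7 := add_mem (DF.Le.mono (add_mem (hb' x) (hb' y)) (c := 0) (by norm_num)) h6
    rw [show T.P.b ^ n' * x.1 + T.p (a x) + (T.P.b ^ n' * y.1 + T.p (a y)) + T.p (a x + a y) =
      (x.1 + y.1) * T.P.b ^ n' by rw [map_add]; grind] at h7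
    refine DF.Le.of_mul h7 (pow_ne_zero _ hb) ?_
    rw [DF.deg_pow hb, fix2_deg_b]
    linarith
  have h5 := Nat.card_le_card_of_injective _ h4
  rwa [Nat.card_fun, Nat.card_eq_fintype_card (α := Fin (n + n')), Fintype.card_fin,
    Nat.card_eq_fintype_card (α := s), Fintype.card_coe] at h5

private lemma fix2_poly {δ : k} (hδ : ∀ c : k, ∃ (u : ZMod 2) (z : k), c = zc k u * δ + wp z)
    (M n : ℕ) : ∀ a : k[X], a.natDegree ≤ n → n ≤ 2 * M + 1 → ∃ (u : ZMod 2) (γ z : k[X]),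
      γ.natDegree ≤ M ∧ T.p a = zc L u * T.p (C δ) + T.p (X * γ ^ 2) + wp (T.p z) := by
  induction n with
  | zero =>
    intro a ha _
    obtain ⟨u, z, h⟩ := hδ (a.coeff 0)
    refine ⟨u, 0, C z, by simp, ?_⟩
    rw [eq_C_of_natDegree_le_zero ha, h]
    rcases fix2_cases u with rfl | rfl <;> simp [wp]
  | succ n ih =>
    intro a ha hn
    obtain ⟨g, h, e⟩ := exists_parts a
    have h1 : T.p a ∈ T.d.Le ((n + 1 : ℕ) : ℝ) := T.p_le_iff.2 ha
    have hn' : (n : ℝ) ≤ 2 * M := by exact_mod_cast (by omega : n ≤ 2 * M)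
    have h2 : g.natDegree ≤ n := by
      have h3 := (T.fix_p a).c0_le h1 le_rfl
      rw [e, c0_p] at h3
      by_cases h0 : g = 0
      · simp [h0]
      rw [DF.mem_Le_iff (T.p_ne h0), T.deg_p h0] at h3
      have h4 : ((2 * g.natDegree : ℕ) : ℝ) ≤ ((n + 1 : ℕ) : ℝ) := by push_cast at h3 ⊢; linarith
      have h5 : 2 * g.natDegree ≤ n + 1 := by exact_mod_cast h4
      omega
    have h3 : h.natDegree ≤ M := by
      have h4 := T.c1_le' (T.fix_p a).fx h1
      rw [e, c1_p] at h4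
      refine T.p_le_iff.1 (DF.Le.mono h4 ?_)
      simp only [gam, Finset.sum_empty]
      push_cast
      linarith
    obtain ⟨u, γ, z, h4, h5⟩ := ih g h2 (by omega)
    refine ⟨u, γ + h, z + g, (natDegree_add_le _ _).trans (max_le h4 h3), ?_⟩
    rw [e]
    simp only [map_add, map_mul, map_pow, wp] at h5 ⊢
    grind

lemma fix_class {δ : k} (hδ : ∀ c : k, ∃ (u : ZMod 2) (z : k), c = zc k u * δ + wp z) (M : ℕ)
    (hx : T.Fix x) (h : x ∈ T.d.Le (2 * M + 1)) : ∃ (u : ZMod 2) (γ : k[X]) (z : L),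
      γ.natDegree ≤ M ∧ T.Fix z ∧ x = zc L u * T.p (C δ) + T.p (X * γ ^ 2) + wp z := by
  obtain ⟨a, ha⟩ := T.fix_pol hx
  obtain ⟨w, h1, -, h2⟩ := T.fix_hensel (hx.add (T.fix_p a)) ha (by norm_num)
  have h3 : a.natDegree ≤ 2 * M + 1 := by
    refine T.p_le_iff.1 ?_
    have h0 : (0 : ℝ) ≤ M := by positivity
    have := add_mem h (DF.Le.mono ha (c := 2 * M + 1) (by linarith))
    rw [← add_assoc, two_K, zero_add] at this
    exact_mod_cast this
  obtain ⟨u, γ, z, h4, h5⟩ := T.fix2_poly hδ M _ a h3 le_rfl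
  refine ⟨u, γ, T.p z + w, h4, (T.fix_p z).add h1, ?_⟩
  rw [wp_add, h2, ← add_assoc, ← h5]
  grind

end Tw

end Pool.Agent.Lib.MP_788af2_nt.AS
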