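import Pool.Agent.Lib.MP_788af2_nt.TT.Flp
import Pool.Agent.Lib.MP_788af2_nt.TT.Fix2
import Pool.Agent.Lib.MP_788af2_nt.TT.Cnt2
import Pool.Agent.Lib.MP_788af2_nt.TT.Triv

/-!
Few flips kill a linear functional.
-/

set_option linter.unusedSectionVars false

namespace Pool.Agent.Lib.MP_788af2_nt.AS

open Polynomial WeierstrassCurve Pool.Agent.Lib.MP_a3f657_nt.Two

variable {k : Type} [Field k] [Finite k] [CharP k 2] {s : k[X]} {R D c : ℕ} {L : Type} [Field L]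
  [CharP L 2] (T : Tw (bet s R D c) L) {Hf : k[X] → AddSubgroup L} {b : k[X]}
  {e r K s₀ J₀ K₃ K₄ N ε : ℕ}

lemma flipA_comb_add {I A : Type} [Fintype I] [Ring A] [CharP A 2] (β : I → A) (x y : G I) :
    comb β (x + y) = comb β x + comb β y := by
  simp only [comb, Pi.add_apply, map_add, add_mul, Finset.sum_add_distrib]

lemma flipA_mu_single (s : k[X]) (i J : ℕ) (j : Fin J) (x : k) :
    mu s i J (Pi.single j x) = s * X ^ i * (C x * X ^ (j : ℕ)) := by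
  rw [mu, Finset.sum_eq_single j]
  · simp
  · intro j' _ hj
    simp [Pi.single_eq_of_ne hj]
  · simp

lemma flipA_split {al μ : L} (h1 : al ≠ 0) (h2 : al + μ ≠ 0) :
    μ / (al * (al + μ)) = μ / al ^ 2 + μ ^ 2 / (al ^ 2 * (al + μ)) := by
  field_simp
  grind

lemma flipA_mu_le {i J m : ℕ} (hF : s.natDegree + i + J + m = ε + 1) (γ : Fin J → k) :
    T.p (mu s i J γ) ∈ T.d.Le ((ε : ℝ) - m) := by
  by_cases h : mu s i J γ = 0
  · rw [h, map_zero]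
    exact zero_mem _
  have h1 := (natDegree_lt_iff_degree_lt h).2 (mu_degree s i J γ)
  refine DF.Le.mono (T.p_mem _) ?_
  have h2 : (mu s i J γ).natDegree + m ≤ ε := by omega
  have h3 : ((mu s i J γ).natDegree : ℝ) + m ≤ ε := by exact_mod_cast h2
  linarith

theorem Tw.flipA (hC : T.Cfg Hf K b s N ε) {i J m : ℕ} (hF : s.natDegree + i + J + m = ε + 1)
    (hm : 1 ≤ m) {a : k[X]} (ha : a ∈ Ae k N ε) (l : Fin R)
    (Y : Finset (G (Ix fun _ : Fin R => D))) (hY : Y ⊆ Blk (fun _ => D) l) (h0 : 0 ∈ Y)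
    (hadd : ∀ x ∈ Y, ∀ y ∈ Y, x + y ∈ Y) {O : L} (hO : T.Fix O) {dlo dhi : ℝ}
    (o1 : O ∈ T.d.Le dhi) (o2 : O ∉ T.d.Le dlo)
    (h1 : (K : ℝ) + 4 ^ (l : ℕ) * c + D + K + dhi + 4 ≤ 4 * m)
    (h2 : (K : ℝ) + 4 ^ (l : ℕ) * c + D + K + dhi + 4 ≤ 2 * J + 2 * m)
    (h3 : 2 * (m : ℝ) + K ≤ 4 ^ (l : ℕ) * c + dlo + 3) (u : G (Ix fun _ : Fin R => D) → ZMod 2) :
    {γ : Fin J → k | ∀ ξ ∈ Y, u ξ + T.RK (T.p (comb (bet s R D c) ξ) *
      T.del a b (mu s i J γ) * O) = 0}.ncard * Y.card * 2 ^ (D / 2) ≤ 2 ^ D * Nat.card k ^ J := by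
  classical
  obtain ⟨-, a1, a2⟩ := mem_Ae.1 ha
  have al0 : T.p (od a) ≠ 0 := T.p_ne a1
  have ald : T.d.deg (T.p (od a)) = ε := by rw [T.deg_p a1, a2]
  have b0 : T.p (od b) ≠ 0 := T.p_ne hC.od_ne
  have bd : T.d.deg (T.p (od b)) = (od b).natDegree := T.deg_p hC.od_ne
  have le1 : ((od b).natDegree : ℝ) ≤ 2 * ε + K := by exact_mod_cast hC.le1
  have le2 : 2 * (ε : ℝ) ≤ (od b).natDegree + K := by exact_mod_cast hC.le2
  have hFr : (s.natDegree : ℝ) + i + J + m = ε + 1 := by exact_mod_cast hF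
  have hmr : (1 : ℝ) ≤ m := by exact_mod_cast hm
  set W : G (Ix fun _ : Fin R => D) → L :=
    fun ξ => T.P.c1 (T.p (comb (bet s R D c) ξ) * (T.p (od b) * O)) with hW
  have ffix : ∀ ξ, T.Fix (T.p (comb (bet s R D c) ξ) * (T.p (od b) * O)) := fun ξ =>
    (T.fix_p _).mul ((T.fix_p _).mul hO)
  have Wfix : ∀ ξ, T.Fix (W ξ) := fun ξ => (ffix ξ).c1
  have Wle : ∀ ξ ∈ Y, W ξ ∈
      T.d.Le (((K : ℝ) + 4 ^ (l : ℕ) * c + D + (2 * ε + K) + dhi) / 2) := fun ξ hξ =>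
    (ffix ξ).c1_le (DF.Le.mul (T.blk_le hC.s_le (hY hξ))
      (DF.Le.mul (T.p_mem (od b)) o1 le_rfl) (by linarith)) le_rfl
  set φ : G (Ix fun _ : Fin R => D) → (Fin J → k) → ZMod 2 :=
    fun ξ γ => T.RK (T.p (mu s i J γ) / T.p (od a) ^ 2 * W ξ) with hφ
  have key : ∀ ξ ∈ Y, ∀ γ : Fin J → k,
      T.RK (T.p (comb (bet s R D c) ξ) * T.del a b (mu s i J γ) * O) = φ ξ γ := by
    intro ξ hξ γ
    have m1 := flipA_mu_le T hF γ
    obtain ⟨s0, sd⟩ := DF.deg_add_lt al0 m1 (by rw [ald]; linarith)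
    have e1 : T.p (comb (bet s R D c) ξ) * T.del a b (mu s i J γ) * O =
        (T.p (mu s i J γ) / (T.p (od a) * (T.p (od a) + T.p (mu s i J γ)))) ^ 2 *
          (T.p (comb (bet s R D c) ξ) * (T.p (od b) * O)) := by
      rw [Tw.del]
      ring
    rw [e1, T.RK_sq_mul ((T.fix_p _).div ((T.fix_p _).mul ((T.fix_p _).add (T.fix_p _))))
      (ffix ξ), flipA_split al0 s0, add_mul, T.RK_add]
    have e2 : T.RK (T.p (mu s i J γ) ^ 2 / (T.p (od a) ^ 2 * (T.p (od a) + T.p (mu s i J γ))) *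
        W ξ) = 0 := by
      refine T.RK_small ((((T.fix_p _).pow 2).div
        (((T.fix_p _).pow 2).mul ((T.fix_p _).add (T.fix_p _)))).mul (Wfix ξ)) ?_
      refine DF.Le.mul (r := -ε - 2 * m) (DF.Le.div (DF.Le.sq m1 le_rfl) ?_) (Wle ξ hξ) ?_
      · rw [T.d.deg_mul (pow_ne_zero 2 al0) s0, DF.deg_sq al0, sd, ald]
        linarith
      · linarith
    exact (congrArg _ e2).trans (add_zero _)
  let _ : Fintype k := Fintype.ofFinite k
  have hl : ∀ x y γ, φ (x + y) γ = φ x γ + φ y γ := fun x y γ => by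
    simp only [hφ, hW, flipA_comb_add, map_add, add_mul, PB.c1_add, mul_add, T.RK_add]
  have hr : ∀ x γ γ', φ x (γ + γ') = φ x γ + φ x γ' := fun x γ γ' => by
    simp only [hφ, mu_add, map_add, add_div, add_mul, T.RK_add]
  have pc := pair_card (Γ := Fin J → k)
    (fun x => _root_.funext fun _ => CharTwo.add_self_eq_zero _)
    (fun x => _root_.funext fun _ => CharTwo.add_self_eq_zero _) Y h0 hadd φ hl hr u
  have e3 : {γ : Fin J → k | ∀ ξ ∈ Y, u ξ + T.RK (T.p (comb (bet s R D c) ξ) *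
      T.del a b (mu s i J γ) * O) = 0} = {γ | ∀ x ∈ Y, u x + φ x γ = 0} := by
    ext γ
    exact forall₂_congr fun ξ hξ => by rw [key ξ hξ]
  have g2 : T.p (od b) * O ∉ T.d.Le ((od b).natDegree + dlo) := by
    obtain ⟨q1, q2⟩ := DF.not_mem_Le.1 o2
    refine DF.not_mem_Le.2 ⟨mul_ne_zero b0 q1, ?_⟩
    rw [T.d.deg_mul b0 q1, bd]
    linarith
  have cn := T.cnt2 hC.s_ne l ((T.fix_p _).mul hO) (thr := (ε : ℝ) + m - 2) g2 (by linarith)
  have sub : {x | x ∈ Y ∧ ∀ γ, φ x γ = 0} ⊆ {ξ | ξ ∈ Blk (fun _ : Fin R => D) l ∧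
      T.P.c1 (T.p (comb (bet s R D c) ξ) * (T.p (od b) * O)) ∈ T.d.Le ((ε : ℝ) + m - 2)} := by
    rintro ξ ⟨hξ, hz⟩
    refine ⟨hY hξ, ?_⟩
    have sx : s * X ^ i ≠ 0 := mul_ne_zero hC.s_ne (pow_ne_zero _ X_ne_zero)
    have sd : T.d.deg (T.p (s * X ^ i) / T.p (od a) ^ 2) = s.natDegree + i - 2 * ε := by
      rw [DF.deg_div (T.p_ne sx) (pow_ne_zero 2 al0), DF.deg_sq al0, ald, T.deg_p sx,
        natDegree_mul_X_pow i hC.s_ne]
      push_cast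
      ring
    have s0 : T.p (s * X ^ i) / T.p (od a) ^ 2 ≠ 0 :=
      div_ne_zero (T.p_ne sx) (pow_ne_zero 2 al0)
    have w1 : W ξ * (T.p (s * X ^ i) / T.p (od a) ^ 2) ∈ T.d.Le (-1) :=
      DF.Le.mul (Wle ξ hξ) (DF.mem_Le_deg _) (by rw [sd]; linarith)
    have w2 := T.RK_win ((Wfix ξ).mul ((T.fix_p _).div ((T.fix_p _).pow 2))) w1 J fun j hj x => by
      have := hz (Pi.single ⟨j, hj⟩ x)
      simp only [hφ, flipA_mu_single] at this
      rw [← this, map_mul T.p (s * X ^ i)]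
      congr 1
      ring
    exact DF.Le.of_mul w2 s0 (by rw [sd]; linarith)
  have c1 := Set.ncard_le_ncard sub (Set.toFinite _)
  rw [e3]
  rw [Fintype.card_fun, Fintype.card_fin, ← Nat.card_eq_fintype_card] at pc
  calc _ ≤ {x | x ∈ Y ∧ ∀ γ, φ x γ = 0}.ncard * Nat.card k ^ J * 2 ^ (D / 2) :=
        Nat.mul_le_mul_right _ pc
    _ = {x | x ∈ Y ∧ ∀ γ, φ x γ = 0}.ncard * 2 ^ (D / 2) * Nat.card k ^ J := by ring
    _ ≤ _ := Nat.mul_le_mul_right _ ((Nat.mul_le_mul_right _ c1).trans cn)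

end Pool.Agent.Lib.MP_788af2_nt.AS
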