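import Pool.Agent.Lib.MP_788af2_nt.TT.Defs

/-!
Even and odd parts, and the factorisation data.
-/

set_option linter.unusedSectionVars false

namespace Pool.Agent.Lib.MP_788af2_nt.AS

open Polynomial WeierstrassCurve Pool.Agent.Lib.MP_a3f657_nt.Two

variable {k : Type} [Field k] [Finite k] [CharP k 2] {a b s μ : k[X]} {N K ε : ℕ}

private lemma poly_sq_inj {x y : k[X]} (h : x ^ 2 = y ^ 2) : x = y := by
  have h1 : (x + y) ^ 2 = 0 := by rw [CharTwo.add_sq, h, CharTwo.add_self_eq_zero]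
  have h2 : x + y = 0 := (pow_eq_zero_iff two_ne_zero).1 h1
  have h3 : x + y + y = y := by rw [h2, zero_add]
  rwa [add_assoc, CharTwo.add_self_eq_zero, add_zero] at h3

private lemma poly_der_sq (g : k[X]) : derivative (g ^ 2) = 0 := by
  rw [sq, derivative_mul, mul_comm g, CharTwo.add_self_eq_zero]

private lemma poly_der (g h : k[X]) : derivative (g ^ 2 + X * h ^ 2) = h ^ 2 := by
  rw [derivative_add, derivative_mul, poly_der_sq, poly_der_sq, derivative_X]
  ring

lemma od_eq {g h : k[X]} (e : a = g ^ 2 + X * h ^ 2) : ev a = g ∧ od a = h := by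
  have e1 : od a = h := by
    refine poly_sq_inj ?_
    rw [← poly_der (ev a) (od a), ← ev_od, e, poly_der]
  refine ⟨poly_sq_inj ?_, e1⟩
  have e2 := ev_od a
  rw [e1] at e2
  exact add_right_cancel (e2.symm.trans e)

lemma od_flip (a μ : k[X]) : od (a + X * μ ^ 2) = od a + μ := by
  refine (od_eq (g := ev a) ?_).2
  rw [CharTwo.add_sq, mul_add, ← add_assoc, ← ev_od]

lemma derivative_eq_od (a : k[X]) : derivative a = od a ^ 2 := by
  rw [← poly_der (ev a) (od a), ← ev_od]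

private lemma poly_deg_odd {h : k[X]} (h0 : h ≠ 0) :
    (X * h ^ 2).natDegree = 2 * h.natDegree + 1 := by
  rw [natDegree_X_mul (pow_ne_zero 2 h0), natDegree_pow]

private lemma poly_deg (g h : k[X]) : 2 * g.natDegree ≤ (g ^ 2 + X * h ^ 2).natDegree ∧
    (h ≠ 0 → 2 * h.natDegree + 1 ≤ (g ^ 2 + X * h ^ 2).natDegree) := by
  by_cases h0 : h = 0
  · subst h0
    simp [natDegree_pow]
  have e1 := poly_deg_odd h0
  have e2 : (g ^ 2).natDegree = 2 * g.natDegree := natDegree_pow g 2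
  rcases Nat.lt_or_ge (g ^ 2).natDegree (X * h ^ 2).natDegree with h1 | h1
  · rw [natDegree_add_eq_right_of_natDegree_lt h1]
    exact ⟨by omega, fun _ => by omega⟩
  · have h2 : (X * h ^ 2).natDegree < (g ^ 2).natDegree := by omega
    rw [natDegree_add_eq_left_of_natDegree_lt h2]
    exact ⟨by omega, fun _ => by omega⟩

lemma ev_deg (a : k[X]) : 2 * (ev a).natDegree ≤ a.natDegree := by
  have := (poly_deg (ev a) (od a)).1
  rwa [← ev_od] at this

lemma od_deg (h : od a ≠ 0) : 2 * (od a).natDegree + 1 ≤ a.natDegree := by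
  have := (poly_deg (ev a) (od a)).2 h
  rwa [← ev_od] at this

lemma mem_Ae : a ∈ Ae k N ε ↔ a.natDegree ≤ N ∧ od a ≠ 0 ∧ (od a).natDegree = ε := by
  classical
  unfold Ae
  simp only [Finset.mem_filter, AllDegAux.mem_box]

lemma Ae_flip (ha : a ∈ Ae k N ε) (hN : 2 * ε + 1 ≤ N) (hμ : μ.degree < ε) :
    a + X * μ ^ 2 ∈ Ae k N ε := by
  rw [mem_Ae] at ha ⊢
  obtain ⟨h1, h2, h3⟩ := ha
  have hd : μ.degree < (od a).degree := by rwa [degree_eq_natDegree h2, h3]
  rw [od_flip]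
  refine ⟨natDegree_add_le_of_degree_le h1 ?_, ?_, ?_⟩
  · by_cases h0 : μ = 0
    · simp [h0]
    · rw [poly_deg_odd h0]
      have : μ.natDegree < ε := (natDegree_lt_iff_degree_lt h0).2 hμ
      omega
  · intro h0
    have := degree_add_eq_left_of_degree_lt hd
    rw [h0, degree_zero] at this
    exact h2 (degree_eq_bot.1 this.symm)
  · rw [natDegree_add_eq_left_of_degree_lt hd, h3]

private lemma poly_cop {q q' : k[X]} (h1 : Irreducible q) (h2 : q.Monic) (h3 : Irreducible q')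
    (h4 : q'.Monic) (hne : q ≠ q') : IsCoprime q q' := by
  rw [h1.coprime_iff_not_dvd]
  intro hd
  exact hne (eq_of_monic_of_associated h2 h4 (h1.associated_of_dvd h3 hd))

open Classical in
private lemma poly_adm (ro : k[X]) (hs : s ≠ 0) (S : Finset k[X])
    (hS : ∀ q, q ∈ S ↔ (Irreducible q ∧ q.Monic ∧ q ∣ s) ∧ ¬ q ∣ ro ∧
      (Odd ((UniqueFactorizationMonoid.normalizedFactors s).count q) ∨ ∃ z, q ∣ a + z ^ 2 + z)) :
    IsCoprime (∏ q ∈ S, q) (derivative (∏ q ∈ S, q)) ∧ IsCoprime ro (∏ q ∈ S, q) ∧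
    (∏ q ∈ S, q) ∣ s ∧ ∀ q, Irreducible q → q ∣ s → ¬ q ∣ ro → ∃ n s', s = q ^ n * s' ∧ ¬ q ∣ s' ∧
      ((q ∣ (∏ q ∈ S, q) ∧ (Odd n ∨ ∃ z, q ∣ a + z ^ 2 + z)) ∨
        (¬ q ∣ (∏ q ∈ S, q) ∧ Even n ∧ ∀ z, ¬ q ∣ a + z ^ 2 + z)) := by
  have hp : ∀ x ∈ S, ∀ y ∈ S, x ≠ y → IsCoprime x y := fun x hx y hy hne =>
    poly_cop ((hS x).1 hx).1.1 ((hS x).1 hx).1.2.1 ((hS y).1 hy).1.1 ((hS y).1 hy).1.2.1 hne
  refine ⟨?_, ?_, ?_, ?_⟩
  · exact separable_prod' (f := fun q => q) hp
      fun q hq => PerfectField.separable_of_irreducible ((hS q).1 hq).1.1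
  · exact IsCoprime.prod_right fun q hq =>
      (((hS q).1 hq).1.1.coprime_iff_not_dvd.2 ((hS q).1 hq).2.1).symm
  · exact Finset.prod_dvd_of_coprime (fun x hx y hy hne => hp x hx y hy hne)
      fun q hq => ((hS q).1 hq).1.2.2
  · intro q hq hqs hqr
    have has : Associated (normalize q) q := normalize_associated q
    have hfin : FiniteMultiplicity q s := FiniteMultiplicity.of_not_isUnit hq.not_isUnit hs
    obtain ⟨s', e, hs'⟩ := hfin.exists_eq_pow_mul_and_not_dvd
    have hn := UniqueFactorizationMonoid.multiplicity_eq_count_normalizedFactors hq hs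
    have hz : ∀ z, normalize q ∣ a + z ^ 2 + z ↔ q ∣ a + z ^ 2 + z := fun z => has.dvd_iff_dvd_left
    have hm : normalize q ∈ S ↔ (Odd (multiplicity q s) ∨ ∃ z, q ∣ a + z ^ 2 + z) := by
      rw [hS, hn, exists_congr hz]
      exact ⟨fun h => h.2.2, fun h => ⟨⟨has.symm.irreducible hq, monic_normalize hq.ne_zero,
        has.dvd.trans hqs⟩, fun h' => hqr (has.symm.dvd.trans h'), h⟩⟩
    refine ⟨multiplicity q s, s', e, hs', ?_⟩
    by_cases hc : Odd (multiplicity q s) ∨ ∃ z, q ∣ a + z ^ 2 + z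
    · exact Or.inl ⟨has.symm.dvd.trans (Finset.dvd_prod_of_mem (fun q => q) (hm.2 hc)), hc⟩
    · refine Or.inr ⟨fun hd => hc (hm.1 ?_), Nat.not_odd_iff_even.1 fun h => hc (Or.inl h),
        fun z h => hc (Or.inr ⟨z, h⟩)⟩
      obtain ⟨q', hq', hd'⟩ := (hq.prime.dvd_finsetProd_iff _).1 hd
      have h1 := ((hS q').1 hq').1
      have h2 : normalize q = q' := eq_of_monic_of_associated (monic_normalize hq.ne_zero) h1.2.1
        (has.trans (hq.associated_of_dvd h1.1 hd'))
      rwa [h2]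

private lemma poly_sqf : ∀ (n : ℕ) (b : k[X]), b ≠ 0 → b.natDegree = n →
    ∃ ro s : k[X], s ^ 2 * ro = b ∧ Squarefree ro := by
  intro n
  induction n using Nat.strong_induction_on with
  | _ n ih =>
    intro b hb hn
    by_cases h : Squarefree b
    · exact ⟨b, 1, by simp, h⟩
    obtain ⟨x, ⟨y, e⟩, hx⟩ : ∃ x, x * x ∣ b ∧ ¬ IsUnit x := by
      by_contra h'
      exact h fun x hx => by_contra fun hu => h' ⟨x, hx, hu⟩
    have hx0 : x ≠ 0 := by
      rintro rfl
      exact hb (by simp [e])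
    have hy0 : y ≠ 0 := by
      rintro rfl
      exact hb (by simp [e])
    have h1 : 0 < x.natDegree := natDegree_pos_iff_degree_pos.2 (degree_pos_of_ne_zero_of_nonunit hx0 hx)
    have h2 : b.natDegree = x.natDegree + x.natDegree + y.natDegree := by
      rw [e, natDegree_mul (mul_ne_zero hx0 hx0) hy0, natDegree_mul hx0 hx0]
    obtain ⟨ro, s, e', hs⟩ := ih y.natDegree (by omega) y hy0 rfl
    exact ⟨ro, x * s, by rw [e, ← e']; ring, hs⟩

theorem exists_adm (hb : od b ≠ 0) : ∃ ro s : k[X], ∀ a, Adm2 b ro s (cq ro s a) a := by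
  classical
  have hd : derivative b ≠ 0 := by
    rw [derivative_eq_od]
    exact pow_ne_zero 2 hb
  have hb0 : b ≠ 0 := by
    rintro rfl
    exact hd derivative_zero
  obtain ⟨ro, s, e, hsq⟩ := poly_sqf _ b hb0 rfl
  have hs : s ≠ 0 := by
    rintro rfl
    exact hb0 (by rw [← e]; simp)
  have hr : derivative ro ≠ 0 := by
    intro h0
    apply hd
    rw [← e, derivative_mul, poly_der_sq, h0]
    simp
  refine ⟨ro, s, fun a => ?_⟩
  obtain ⟨h1, h2, h3, h4⟩ := poly_adm (a := a) ro hs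
    ((UniqueFactorizationMonoid.normalizedFactors s).toFinset.filter fun q => ¬ q ∣ ro ∧
      (Odd ((UniqueFactorizationMonoid.normalizedFactors s).count q) ∨ ∃ z, q ∣ a + z ^ 2 + z))
    fun q => by
      rw [Finset.mem_filter, Multiset.mem_toFinset, Polynomial.mem_normalizedFactors_iff hs]
  exact ⟨by rw [← e, mul_comm], hr, hs, PerfectField.separable_iff_squarefree.2 hsq, h1, h2, h3, h4⟩

lemma cq_flip (ro : k[X]) (hs : s ≠ 0) (a : k[X]) (h : s ∣ μ) :
    cq ro s (a + X * μ ^ 2) = cq ro s a := by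
  classical
  have _ := hs
  unfold cq
  refine Finset.prod_congr (Finset.filter_congr fun q hq => ?_) fun _ _ => rfl
  have hq' : q ∣ X * μ ^ 2 := (dvd_pow ((UniqueFactorizationMonoid.dvd_of_mem_normalizedFactors
    (Multiset.mem_toFinset.1 hq)).trans h) two_ne_zero).mul_left X
  refine and_congr_right fun _ => or_congr_right (exists_congr fun z => ?_)
  have e : a + X * μ ^ 2 + z ^ 2 + z = X * μ ^ 2 + (a + z ^ 2 + z) := by ring
  rw [e, dvd_add_right hq']

lemma GoodB.od (h : GoodB b N K) (hK : 2 * K < N) : od b ≠ 0 ∧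
    b.natDegree ≤ 2 * (od b).natDegree + K ∧ N ≤ (od b).natDegree + K ∧ (od b).natDegree < N := by
  have h1 := h.le
  have h2 := h.ge
  have h0 : AS.od b ≠ 0 := by
    intro h0
    have e := ev_od b
    rw [h0] at e
    have e' : b = ev b ^ 2 := e.trans (by simp)
    have h3 := h.sq (ev b) (e' ▸ dvd_refl _)
    have h4 : b.natDegree = 2 * (ev b).natDegree := by
      have := natDegree_pow (ev b) 2
      rwa [← e'] at this
    omega
  have h5 := h.nt b (dvd_refl b) (by rw [derivative_eq_od]; exact pow_ne_zero 2 h0)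
  rw [derivative_eq_od, natDegree_pow] at h5
  have h6 := od_deg h0
  exact ⟨h0, h5, by omega, by omega⟩

lemma mu_add (s : k[X]) (i J : ℕ) (γ γ' : Fin J → k) :
    mu s i J (γ + γ') = mu s i J γ + mu s i J γ' := by
  simp only [mu, Pi.add_apply, C_add, add_mul, Finset.sum_add_distrib, mul_add]

lemma mu_zero (s : k[X]) (i J : ℕ) : mu s i J (0 : Fin J → k) = 0 := by
  simp [mu]

lemma dvd_mu (s : k[X]) (i J : ℕ) (γ : Fin J → k) : s ∣ mu s i J γ :=
  (dvd_mul_right s _).mul_right _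

lemma mu_degree (s : k[X]) (i J : ℕ) (γ : Fin J → k) :
    (mu s i J γ).degree < (s.natDegree + i + J : ℕ) := by
  have h1 : (∑ j, C (γ j) * X ^ (j : ℕ) : k[X]).degree < J := degree_sum_fin_lt γ
  by_cases h0 : (∑ j, C (γ j) * X ^ (j : ℕ) : k[X]) = 0
  · rw [mu, h0, mul_zero, degree_zero]
    exact WithBot.bot_lt_coe _
  have h2 := (natDegree_lt_iff_degree_lt h0).2 h1
  have h3 : (mu s i J γ).natDegree ≤
      s.natDegree + i + (∑ j, C (γ j) * X ^ (j : ℕ) : k[X]).natDegree := by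
    refine natDegree_mul_le.trans (Nat.add_le_add_right (natDegree_mul_le.trans ?_) _)
    rw [natDegree_X_pow]
  refine lt_of_le_of_lt (degree_le_of_natDegree_le h3) ?_
  exact_mod_cast (by omega)

lemma mu_natDegree (hs : s ≠ 0) (i J : ℕ) {γ : Fin J → k} (h : γ ≠ 0) : mu s i J γ ≠ 0 ∧
    (mu s i J γ).natDegree = s.natDegree + i + (∑ j, C (γ j) * X ^ (j : ℕ) : k[X]).natDegree := by
  have h0 : (∑ j, C (γ j) * X ^ (j : ℕ) : k[X]) ≠ 0 := by
    intro h0
    apply h
    funext j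
    have := congrArg (fun f : k[X] => f.coeff j) h0
    simp only [finsetSum_coeff, coeff_C_mul_X_pow, coeff_zero, Fin.val_inj, Finset.sum_ite_eq,
      Finset.mem_univ, if_true] at this
    exact this
  have h1 : s * X ^ i ≠ 0 := mul_ne_zero hs (pow_ne_zero i X_ne_zero)
  refine ⟨mul_ne_zero h1 h0, ?_⟩
  rw [mu, natDegree_mul h1 h0, natDegree_mul hs (pow_ne_zero i X_ne_zero), natDegree_X_pow]

lemma flip_add (a μ μ' : k[X]) :
    a + X * (μ + μ') ^ 2 = a + X * μ' ^ 2 + X * μ ^ 2 := by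
  rw [CharTwo.add_sq]
  ring

end Pool.Agent.Lib.MP_788af2_nt.AS
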