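import Pool.Agent.Lib.MP_788af2_nt.TT.Fix
import Pool.Agent.Lib.MP_788af2_nt.TT.Poly

/-!
The flips.
-/

set_option linter.unusedSectionVars false

namespace Pool.Agent.Lib.MP_788af2_nt.AS

open Polynomial WeierstrassCurve Pool.Agent.Lib.MP_a3f657_nt.Two

namespace Tw

variable {k : Type} [Field k] [Finite k] [CharP k 2] {I : Type} [Fintype I] [DecidableEq I]
  {β : I → k[X]} {L : Type} [Field L] [CharP L 2] (T : Tw β L)

variable {Hf : k[X] → AddSubgroup L} {K N ε i J m : ℕ} {a b s μ : k[X]}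

private lemma flp_id1 (B x y : L) (hx : x ≠ 0) (h : x + y ≠ 0) :
    B / (x + y) ^ 2 = B / x ^ 2 + B * (y / (x * (x + y))) ^ 2 := by
  have e : (x + y) ^ 2 + y ^ 2 = x ^ 2 := by grind
  have e2 : B / x ^ 2 + B * (y / (x * (x + y))) ^ 2 =
      B * ((x + y) ^ 2 + y ^ 2) / (x ^ 2 * (x + y) ^ 2) := by
    field_simp
  rw [e2, e]
  field_simp

private lemma flp_id2 (B x y y' : L) (hx : x ≠ 0) (h : x + y ≠ 0) (h' : x + y' ≠ 0) :
    B * (y / (x * (x + y))) ^ 2 + B * (y' / (x * (x + y'))) ^ 2 =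
      B * ((y + y') / ((x + y) * (x + y'))) ^ 2 := by
  have e : y * (x + y') + y' * (x + y) = x * (y + y') := by grind
  have e2 : y / (x * (x + y)) + y' / (x * (x + y')) =
      (y * (x + y') + y' * (x + y)) / (x * ((x + y) * (x + y'))) := by
    field_simp
  rw [← mul_add, ← CharTwo.add_sq, e2, e, mul_div_mul_left _ _ hx]

lemma kap_flip (ha : od a ≠ 0) (h : od a + μ ≠ 0) :
    T.kap (a + X * μ ^ 2) b = T.kap a b + T.del a b μ := by
  have h1 := T.p_ne h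
  rw [map_add] at h1
  rw [kap, kap, del, od_flip, map_add, flp_id1 _ _ _ (T.p_ne ha) h1]
  ring

lemma del_fix (a b μ : k[X]) : T.Fix (T.del a b μ) :=
  (T.fix_p _).mul (((T.fix_p _).div ((T.fix_p _).mul ((T.fix_p _).add (T.fix_p _)))).pow 2)

variable {T} in
lemma Cfg.kp (hC : T.Cfg Hf K b s N ε) (ha : a ∈ Ae k N ε) : T.Kp (Hf a) (T.kap a b) K := by
  obtain ⟨-, h1, h2⟩ := mem_Ae.1 ha
  refine ⟨hC.hg a, hC.pos, ((T.fix_p _).div ((T.fix_p _).pow 2)).add ((T.fix_p _).div (T.fix_p _)),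
    add_mem (DF.Le.div (T.p_mem _) ?_) (DF.Le.div (T.p_mem _) ?_)⟩
  · have h3 : ((od b).natDegree : ℝ) ≤ 2 * ε + K := by exact_mod_cast hC.le1
    rw [DF.deg_sq (T.p_ne h1), T.deg_p h1, h2]
    linarith
  · have h3 : ((ev b).natDegree : ℝ) ≤ (od b).natDegree + K := by exact_mod_cast hC.ev_le
    rw [T.deg_p hC.od_ne]
    linarith

variable {T} in
lemma Cfg.flip_mem (hC : T.Cfg Hf K b s N ε) (hF : s.natDegree + i + J + m = ε + 1) (hm : 1 ≤ m)
    (ha : a ∈ Ae k N ε) (γ : Fin J → k) : a + X * mu s i J γ ^ 2 ∈ Ae k N ε :=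
  Ae_flip ha hC.N_ge ((mu_degree s i J γ).trans_le (by exact_mod_cast (by omega)))

variable {T} in
private lemma flp_od (hC : T.Cfg Hf K b s N ε) (hF : s.natDegree + i + J + m = ε + 1) (hm : 1 ≤ m)
    (ha : a ∈ Ae k N ε) (γ : Fin J → k) : T.p (od a) + T.p (mu s i J γ) ≠ 0 ∧
      T.d.deg (T.p (od a) + T.p (mu s i J γ)) = ε := by
  obtain ⟨-, h1, h2⟩ := mem_Ae.1 (hC.flip_mem hF hm ha γ)
  rw [od_flip] at h1 h2
  rw [← map_add]
  exact ⟨T.p_ne h1, by rw [T.deg_p h1, h2]⟩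

private lemma flp_mu (hF : s.natDegree + i + J + m = ε + 1) (γ : Fin J → k) :
    T.p (mu s i J γ) ∈ T.d.Le (ε - m : ℝ) := by
  by_cases h : mu s i J γ = 0
  · rw [h, map_zero]; exact zero_mem _
  have h1 := (natDegree_lt_iff_degree_lt h).2 (mu_degree s i J γ)
  have h2 : (mu s i J γ).natDegree + m ≤ ε := by omega
  have h3 : ((mu s i J γ).natDegree : ℝ) + m ≤ ε := by exact_mod_cast h2
  exact DF.Le.mono (T.p_mem _) (by linarith)

variable {T} in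
lemma Cfg.flip_H (hC : T.Cfg Hf K b s N ε) (a : k[X]) (γ : Fin J → k) :
    Hf (a + X * mu s i J γ ^ 2) = Hf a := hC.inv _ _ (dvd_mu _ _ _ _)

variable {T} in
lemma Cfg.flip_kap (hC : T.Cfg Hf K b s N ε) (hF : s.natDegree + i + J + m = ε + 1) (hm : 1 ≤ m)
    (ha : a ∈ Ae k N ε) (γ : Fin J → k) :
    T.kap (a + X * mu s i J γ ^ 2) b = T.kap a b + T.del a b (mu s i J γ) := by
  have h1 := (mem_Ae.1 (hC.flip_mem hF hm ha γ)).2.1
  rw [od_flip] at h1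
  exact T.kap_flip (mem_Ae.1 ha).2.1 h1

variable {T} in
lemma Cfg.del_le (hC : T.Cfg Hf K b s N ε) (hF : s.natDegree + i + J + m = ε + 1) (hm : 1 ≤ m)
    (ha : a ∈ Ae k N ε) (γ : Fin J → k) :
    T.del a b (mu s i J γ) ∈ T.d.Le (-(2 * m - K : ℝ)) := by
  obtain ⟨-, h1, h2⟩ := mem_Ae.1 ha
  obtain ⟨h3, h4⟩ := flp_od hC hF hm ha γ
  have h5 : ((od b).natDegree : ℝ) ≤ 2 * ε + K := by exact_mod_cast hC.le1
  have h6 : T.p (mu s i J γ) / (T.p (od a) * (T.p (od a) + T.p (mu s i J γ))) ∈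
      T.d.Le (-(ε + m : ℝ)) := DF.Le.div (T.flp_mu hF γ) (by
    rw [T.d.deg_mul (T.p_ne h1) h3, h4, T.deg_p h1, h2]
    linarith)
  exact DF.Le.mul (T.p_mem _) (DF.Le.sq h6 le_rfl) (by linarith)

variable {T} in
lemma Cfg.del_diff (hC : T.Cfg Hf K b s N ε) (hF : s.natDegree + i + J + m = ε + 1) (hm : 1 ≤ m)
    (ha : a ∈ Ae k N ε) {γ γ' : Fin J → k} (h : γ ≠ γ') :
    T.del a b (mu s i J γ) + T.del a b (mu s i J γ') ≠ 0 ∧
      T.d.deg (T.del a b (mu s i J γ) + T.del a b (mu s i J γ')) = (od b).natDegree +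
        2 * (s.natDegree + i + (∑ j, C ((γ + γ') j) * X ^ (j : ℕ) : k[X]).natDegree) - 4 * ε ∧
      -(2 * (m + J) + K : ℝ) ≤ T.d.deg (T.del a b (mu s i J γ) + T.del a b (mu s i J γ')) := by
  obtain ⟨-, h1, -⟩ := mem_Ae.1 ha
  obtain ⟨h3, h4⟩ := flp_od hC hF hm ha γ
  obtain ⟨h3', h4'⟩ := flp_od hC hF hm ha γ'
  have hγ : γ + γ' ≠ 0 := fun e => h (funext fun j => by
    have := congrFun e j
    rwa [Pi.add_apply, Pi.zero_apply, CharTwo.add_eq_zero] at this)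
  obtain ⟨h5, h6⟩ := mu_natDegree hC.s_ne i J hγ
  have h7 := T.p_ne h5
  have h8 := mul_ne_zero h3 h3'
  have h9 := div_ne_zero h7 h8
  have e : T.del a b (mu s i J γ) + T.del a b (mu s i J γ') = T.p (od b) *
      (T.p (mu s i J (γ + γ')) / ((T.p (od a) + T.p (mu s i J γ)) *
        (T.p (od a) + T.p (mu s i J γ')))) ^ 2 := by
    rw [del, del, flp_id2 _ _ _ _ (T.p_ne h1) h3 h3', mu_add, map_add]
  have e2 : T.d.deg (T.del a b (mu s i J γ) + T.del a b (mu s i J γ')) = (od b).natDegree +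
      2 * (s.natDegree + i + (∑ j, C ((γ + γ') j) * X ^ (j : ℕ) : k[X]).natDegree) - 4 * ε := by
    rw [e, T.d.deg_mul (T.p_ne hC.od_ne) (pow_ne_zero 2 h9), DF.deg_sq h9, DF.deg_div h7 h8,
      T.d.deg_mul h3 h3', h4, h4', T.deg_p h5, T.deg_p hC.od_ne, h6]
    push_cast
    ring
  refine ⟨by rw [e]; exact mul_ne_zero (T.p_ne hC.od_ne) (pow_ne_zero 2 h9), e2, ?_⟩
  have l1 : 2 * (ε : ℝ) ≤ (od b).natDegree + K := by exact_mod_cast hC.le2
  have l2 : (s.natDegree : ℝ) + i + J + m = ε + 1 := by exact_mod_cast hF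
  have l3 : (0 : ℝ) ≤ (∑ j, C ((γ + γ') j) * X ^ (j : ℕ) : k[X]).natDegree := Nat.cast_nonneg _
  rw [e2]
  linarith

end Tw

end Pool.Agent.Lib.MP_788af2_nt.AS
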