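import Pool.Agent.Lib.MP_788af2_nt.TT.Fred

/-!
Existence of the columns of the relation matrix.
-/

set_option linter.unusedSectionVars false

namespace Pool.Agent.Lib.MP_788af2_nt.AS

open Polynomial WeierstrassCurve Pool.Agent.Lib.MP_a3f657_nt.Two

private lemma fr0_two {W : Type} (g : W → ZMod 2) : g + g = 0 :=
  funext fun i => z2_add_self (g i)

private lemma fr0_basis {L : Type} [Field L] [CharP L 2] (V : AddSubgroup L) (S : Finset L)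
    {s₀ : ℕ} (hS : S.card ≤ 2 ^ s₀) (h : ∀ z, z ∈ S ↔ z ∈ V) :
    ∃ n ≤ s₀, ∃ vv : (Fin n → ZMod 2) →+ L, Function.Injective vv ∧ ∀ z, z ∈ V ↔ ∃ u, vv u = z := by
  have e0 : (V : Set L) = S := Set.ext fun z => (h z).symm
  have hc : Nat.card V = S.card := by
    rw [← Fintype.card_coe, ← Nat.card_eq_fintype_card]
    exact Nat.card_congr (Equiv.setCongr e0)
  have : Finite V := (e0 ▸ S.finite_toSet : (V : Set L).Finite).to_subtype
  let : Module (ZMod 2) V := AddCommGroup.zmodModule fun x => by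
    rw [two_nsmul]
    exact Subtype.ext (CharTwo.add_self_eq_zero _)
  have : Module.Finite (ZMod 2) V := Module.Finite.of_finite
  let b := (Module.finBasis (ZMod 2) V).equivFun.symm.toAddEquiv
  refine ⟨Module.finrank (ZMod 2) V, ?_, V.subtype.comp b.toAddMonoidHom,
    V.subtype_injective.comp b.injective, fun z => ⟨fun hz => ⟨b.symm ⟨z, hz⟩, ?_⟩, ?_⟩⟩
  · rw [← hc, Module.natCard_eq_pow_finrank (K := ZMod 2), Nat.card_zmod] at hS
    exact (Nat.pow_le_pow_iff_right one_lt_two).1 hS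
  · exact congrArg Subtype.val (b.apply_symm_apply ⟨z, hz⟩)
  · rintro ⟨u, rfl⟩
    exact (b u).2

private lemma fr0_expand {W A : Type} [Fintype W] [DecidableEq W] [Ring A] [CharP A 2]
    (vv : (W → ZMod 2) →+ A) (u : W → ZMod 2) :
    vv u = ∑ j, zc A (u j) * vv (Pi.single j 1) := by
  conv_lhs => rw [← Finset.univ_sum_single u, map_sum]
  refine Finset.sum_congr rfl fun j _ => ?_
  rcases z2_cases (u j) with h | h <;> simp [h]

namespace Tw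

variable {k : Type} [Field k] [Finite k] [CharP k 2] {I : Type} [Fintype I] [DecidableEq I]
  {β : I → k[X]} {L : Type} [Field L] [CharP L 2] (T : Tw β L)

variable {H : AddSubgroup L} {κ : L} {K : ℕ}

private lemma fr0_pair {W : Type} [Fintype W] [DecidableEq W] (vv : (W → ZMod 2) →+ L) (x : L)
    (u : W → ZMod 2) : T.RK (x * (vv u / T.bh κ)) =
      ∑ j, u j * T.RK (x * (vv (Pi.single j 1) / T.bh κ)) := by
  rw [fr0_expand vv u, Finset.sum_div, Finset.mul_sum, RK_sum]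
  refine Finset.sum_congr rfl fun j _ => ?_
  rw [← RK_zc_mul, mul_div_assoc, mul_left_comm]

private lemma fr0_dual (hκ : T.Fix κ) {W : Type} [Fintype W] [DecidableEq W]
    (vv : (W → ZMod 2) →+ L) (hi : Function.Injective vv) (hf : ∀ u, T.Fix (vv u)) (i : W) :
    ∃ Ψ, T.Fix Ψ ∧ ∀ u, T.RK (Ψ * (vv u / T.bh κ)) = u i := by
  let U : AddSubgroup (W → ZMod 2) :=
    { carrier := {w | ∃ Ψ, T.Fix Ψ ∧ ∀ j, T.RK (Ψ * (vv (Pi.single j 1) / T.bh κ)) = w j}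
      zero_mem' := ⟨0, T.fix_zero, fun j => by rw [zero_mul, RK_zero]; rfl⟩
      add_mem' := by
        rintro x y ⟨a, h1, h2⟩ ⟨b, h3, h4⟩
        exact ⟨a + b, h1.add h3, fun j => by rw [add_mul, RK_add, h2, h4]; rfl⟩
      neg_mem' := by
        rintro x ⟨a, h1, h2⟩
        exact ⟨a, h1, fun j => by rw [h2, Pi.neg_apply, CharTwo.neg_eq]⟩ }
  by_cases hU : (Pi.single i 1 : W → ZMod 2) ∈ U
  · obtain ⟨Ψ, h1, h2⟩ := hU
    refine ⟨Ψ, h1, fun u => ?_⟩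
    rw [fr0_pair]
    simp [h2, Pi.single_apply]
  · obtain ⟨χ, h1, h2⟩ := exists_sep_hom fr0_two U hU
    have h0 : vv (fun j => χ (Pi.single j 1)) ≠ 0 := fun e =>
      h1 (congrFun (hi (e.trans (map_zero vv).symm)) i)
    obtain ⟨Ψ, h3, h4⟩ := T.RK_nd ((hf _).div (T.bh_fix hκ)) (div_ne_zero h0 (T.bh_ne κ))
    refine (h4 ?_).elim
    have h5 := h2 (fun j => T.RK (Ψ * (vv (Pi.single j 1) / T.bh κ))) ⟨Ψ, h3, fun j => rfl⟩
    rw [fr0_expand χ] at h5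
    rw [fr0_pair, ← h5]
    exact Finset.sum_congr rfl fun j _ => by rw [mul_comm]; simp [zc]

private lemma fr0_lift (hK : T.Kp H κ K) {ζ : L} (hζ : T.Fix ζ) (h : T.P.c1 ζ ∈ H) :
    ∃ z, T.P.c1 z ∈ H ∧ T.tr z = ζ := by
  obtain ⟨ht, h1, h2⟩ := hK.hg.lift _ h hζ.c1
  obtain ⟨e0, e1⟩ := T.P.uniq (g := T.lgE * T.P.c0 ζ) (h := ht) rfl
  refine ⟨_, e1.symm ▸ h1, ?_⟩
  rw [T.P.spec (T.tr _), ← tr_c0, ← tr_c1, e0, e1, h2, T.lgE_tr_mul hζ.c0, ← T.P.spec]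

section span

variable {W : Type} [Fintype W] [DecidableEq W] (Ψ : W → L)

/-- The span of the conjugates of the dual basis. -/
private noncomputable def fr0Sp (c : G I → W → ZMod 2) : L :=
  ∑ g, ∑ i, zc L (c g i) * T.σ g (T.lgE * Ψ i)

private lemma fr0Sp_add (c c' : G I → W → ZMod 2) :
    T.fr0Sp Ψ (c + c') = T.fr0Sp Ψ c + T.fr0Sp Ψ c' := by
  simp only [fr0Sp, Pi.add_apply, map_add, add_mul, Finset.sum_add_distrib]

private lemma fr0Sp_σ (g : G I) (c : G I → W → ZMod 2) :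
    T.σ g (T.fr0Sp Ψ c) = T.fr0Sp Ψ fun g' => c (g + g') := by
  rw [fr0Sp, fr0Sp, map_sum, ← Equiv.sum_comp (Equiv.addLeft g)]
  refine Finset.sum_congr rfl fun g' _ => ?_
  rw [map_sum]
  refine Finset.sum_congr rfl fun i _ => ?_
  rw [map_mul, σ_zc, ← T.σ_add, Equiv.coe_addLeft, ← add_assoc, fr0_two, zero_add]

private lemma fr0Sp_single (i : W) :
    T.fr0Sp Ψ (Pi.single 0 (Pi.single i 1)) = T.lgE * Ψ i := by
  rw [fr0Sp, Finset.sum_eq_single 0 (fun g _ hg => by simp [Pi.single_eq_of_ne hg]) (by simp),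
    Finset.sum_eq_single i (fun j _ hj => by simp [Pi.single_eq_of_ne hj]) (by simp)]
  simp [T.σ_zero]

/-- The sum of the image of a subgroup and the span. -/
private def fr0N (κ : L) (A : AddSubgroup L) : AddSubgroup L where
  carrier := {x | ∃ ζ ∈ A, ∃ c, x = T.Θ κ ζ + T.fr0Sp Ψ c}
  zero_mem' := ⟨0, zero_mem _, 0, by simp [Θ, fr0Sp]⟩
  add_mem' := by
    rintro x y ⟨a, h1, c, rfl⟩ ⟨b, h2, c', rfl⟩
    exact ⟨a + b, add_mem h1 h2, c + c', by rw [Θ_add, fr0Sp_add, add_add_add_comm]⟩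
  neg_mem' := by
    intro x hx
    rwa [CharTwo.neg_eq]

private lemma fr0_top (hK : T.Kp H κ K) (vv : (W → ZMod 2) →+ L)
    (hr : ∀ z, z ∈ T.Vs H κ ↔ ∃ u, vv u = z) (hf : ∀ i, T.Fix (Ψ i))
    (hd : ∀ i u, T.RK (Ψ i * (vv u / T.bh κ)) = u i) (x : L) :
    x ∈ T.fr0N Ψ κ (H.comap T.P.c1h) := by
  refine T.nak _ ?_ (fun x => ?_) x
  · rintro g x ⟨a, h1, c, rfl⟩
    refine ⟨T.σ g a, ?_, _, by rw [map_add, ← T.Θ_σ hK.fix, fr0Sp_σ]⟩
    change T.P.c1 _ ∈ H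
    rw [σ_c1]
    exact hK.hg.σ_mem g _ h1
  · let r : W → ZMod 2 := fun i => T.RK (T.tr x * (vv (Pi.single i 1) / T.bh κ))
    obtain ⟨ζ, h1, h2, h3⟩ := T.fred hK (Ψ := T.tr x + ∑ i, zc L (r i) * Ψ i)
      ((T.fix_tr x).add (Fix.sum _ fun i _ => (T.fix_zc _).mul (hf i))) fun v hv => by
        obtain ⟨u, rfl⟩ := (hr v).1 hv
        rw [add_mul, RK_add, fr0_pair, Finset.sum_mul, RK_sum, ← Finset.sum_add_distrib]
        refine Finset.sum_eq_zero fun i _ => ?_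
        rw [mul_assoc, RK_zc_mul, hd, mul_comm (u i)]
        exact z2_add_self _
    obtain ⟨z, h4, h5⟩ := T.fr0_lift hK h1 h2
    refine ⟨T.Θ κ z + ∑ i, zc L (r i) * (T.lgE * Ψ i), add_mem ⟨z, h4, 0, by simp [fr0Sp]⟩
      (sum_mem fun i _ => ?_), ?_⟩
    · rcases z2_cases (r i) with h | h
      · rw [h, map_zero, zero_mul]
        exact zero_mem _
      · rw [h, map_one, one_mul]
        exact ⟨0, zero_mem _, _, by rw [T.fr0Sp_single Ψ i]; simp [Θ]⟩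
    · rw [tr_add, ← T.Θ_tr hK.fix, h5, h3, tr_sum, add_assoc, ← Finset.sum_add_distrib,
        Finset.sum_eq_zero, add_zero]
      intro i _
      rw [T.tr_fix_mul (T.fix_zc _), T.lgE_tr_mul (hf i)]
      exact CharTwo.add_self_eq_zero _

private lemma fr0_col (hK : T.Kp H κ K) (hN : ∀ x, x ∈ T.fr0N Ψ κ (H.comap T.P.c1h)) {v : L}
    (hv : v ∈ T.Vs H κ) : ∃ (ζ : L) (c : G I → W → ZMod 2), T.P.c1 ζ ∈ H ∧ T.tr ζ = v ∧
      T.Θ κ ζ = ∑ g, ∑ i, zc L (c g i) * T.σ g (T.lgE * Ψ i) := by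
  obtain ⟨z, h1, h2⟩ := T.fr0_lift hK hv.2 hv.1.2
  have h3 : T.tr (T.Θ κ z) = 0 := by rw [← T.Θ_tr hK.fix, h2, T.Kr_iff.1 hv.1.1]
  have h4 : ∀ g y, T.σ g y + y ∈
      T.fr0N Ψ κ (H.comap T.P.c1h ⊓ (AddMonoidHom.mk' T.tr T.tr_add).ker) := fun g y => by
    obtain ⟨a, h5, c, rfl⟩ := hN y
    refine ⟨T.σ g a + a, ⟨add_mem ?_ h5, ?_⟩, _, by
      rw [map_add, ← T.Θ_σ hK.fix, fr0Sp_σ, add_add_add_comm, ← Θ_add, ← fr0Sp_add]⟩
    · change T.P.c1 _ ∈ H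
      rw [σ_c1]
      exact hK.hg.σ_mem g _ h5
    · change T.tr _ = 0
      rw [tr_add, tr_σ]
      exact CharTwo.add_self_eq_zero _
  obtain ⟨a, ⟨h5, h6⟩, c, h7⟩ : T.Θ κ z ∈
      T.fr0N Ψ κ (H.comap T.P.c1h ⊓ (AddMonoidHom.mk' T.tr T.tr_add).ker) := by
    rw [T.tr_zero_eq h3]
    exact sum_mem fun g _ => h4 g _
  refine ⟨z + a, c, ?_, ?_, ?_⟩
  · rw [PB.c1_add]
    exact add_mem h1 h5
  · rw [tr_add, h2, show T.tr a = 0 from h6, add_zero]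
  · rw [Θ_add, h7, add_right_comm, CharTwo.add_self_eq_zero, zero_add, fr0Sp]

end span

theorem exists_fr0 (hK : T.Kp H κ K) {e s₀ : ℕ} (he : Nat.card k ≤ 2 ^ e)
    (hs : 2 * K * e + 1 ≤ s₀) : ∃ n ≤ s₀, ∃ (vv : (Fin n → ZMod 2) →+ L) (Ψ ζ : Fin n → L)
      (B : G I → Matrix (Fin n) (Fin n) (ZMod 2)), T.Fr0 H κ vv Ψ ζ B := by
  obtain ⟨S, h1, h2⟩ := hK.exists_V' he hs
  obtain ⟨n, hn, vv, hi, hr⟩ := fr0_basis _ S h1 h2
  choose Ψ hf hd using T.fr0_dual hK.fix vv hi fun u => ((hr _).2 ⟨u, rfl⟩).2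
  choose ζ c h3 h4 h5 using fun j : Fin n =>
    T.fr0_col Ψ hK (T.fr0_top Ψ hK vv hr hf hd) ((hr _).2 ⟨Pi.single j 1, rfl⟩)
  exact ⟨n, hn, vv, Ψ, ζ, fun g => Matrix.of fun i j => c j g i, hi, hr, hf, hd, h3, h4, h5⟩

end Tw

end Pool.Agent.Lib.MP_788af2_nt.AS
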