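import Pool.Agent.Lib.MP_788af2_nt.TT.Col

/-!
The Fredholm alternative over the fixed field.
-/

set_option linter.unusedSectionVars false

namespace Pool.Agent.Lib.MP_788af2_nt.AS

open Polynomial WeierstrassCurve Pool.Agent.Lib.MP_a3f657_nt.Two

/-- The counting argument. -/
lemma fred_count {A V S : Type} [AddCommGroup A] [AddCommGroup V] [Finite A] [Finite V]
    (h2 : ∀ x : A, x + x = 0) (φ : V →+ A →+ ZMod 2) (hφ : Function.Injective φ) (A₁ : Set A)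
    (h1 : ∀ a ∈ A₁, ∀ v, φ v a = 0) (F : S → A₁ × V) (hF : Function.Injective F)
    (hS : Nat.card A ≤ Nat.card S) {a : A} (ha : ∀ v, φ v a = 0) : a ∈ A₁ := by
  let A₀ : AddSubgroup A :=
    { carrier := {a | ∀ v, φ v a = 0}
      zero_mem' := fun v => map_zero _
      add_mem' := fun hx hy v => by rw [map_add, hx v, hy v, add_zero]
      neg_mem' := fun hx v => by rw [map_neg, hx v, neg_zero] }
  have : Finite (A →+ ZMod 2) := DFunLike.finite _
  have e1 := card_ann h2 A₀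
  have e2 : Nat.card V ≤ Nat.card (ann A₀) :=
    Nat.card_le_card_of_injective (fun v => ⟨φ v, fun u hu => hu v⟩) fun v w e =>
      hφ (congrArg Subtype.val e)
  have e3 : Nat.card S ≤ Nat.card A₁ * Nat.card V := by
    rw [← Nat.card_prod]
    exact Nat.card_le_card_of_injective F hF
  have e4 : Nat.card A₀ * Nat.card V ≤ Nat.card A₁ * Nat.card V := by
    calc Nat.card A₀ * Nat.card V ≤ Nat.card A₀ * Nat.card (ann A₀) := Nat.mul_le_mul_left _ e2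
      _ = Nat.card A := by rw [mul_comm, e1]
      _ ≤ _ := hS.trans e3
  have e5 : Nat.card A₀ ≤ Nat.card A₁ := Nat.le_of_mul_le_mul_right e4 Nat.card_pos
  have e6 : A₁ = (A₀ : Set A) :=
    Set.eq_of_subset_of_ncard_le (fun x hx v => h1 x hx v) e5 (Set.toFinite _)
  rw [e6]
  exact ha

namespace Tw

variable {k : Type} [Field k] [Finite k] [CharP k 2] {I : Type} [Fintype I] [DecidableEq I]
  {β : I → k[X]} {L : Type} [Field L] [CharP L 2] (T : Tw β L)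

variable {H : AddSubgroup L} {κ : L} {K : ℕ}

/-- The representatives of the classes modulo the Artin-Schreier operator. -/
noncomputable def fredEmb (δ : k) (M : ℕ) : (ZMod 2 × degreeLT k (M + 1)) →+ L where
  toFun a := zc L a.1 * T.p (C δ) + T.p (X * a.2.1 ^ 2)
  map_zero' := by simp
  map_add' a b := by
    simp only [Prod.fst_add, Prod.snd_add, Submodule.coe_add, map_add, map_mul, map_pow]
    grind

lemma fredEmb_fix (δ : k) (M : ℕ) (a : ZMod 2 × degreeLT k (M + 1)) : T.Fix (T.fredEmb δ M a) :=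
  ((T.fix_zc _).mul (T.fix_p _)).add (T.fix_p _)

lemma fred_class {δ : k} (hδ : ∀ c : k, ∃ (u : ZMod 2) (z : k), c = zc k u * δ + wp z) (M : ℕ)
    {x : L} (hx : T.Fix x) (h : x ∈ T.d.Le (2 * M + 1)) :
    ∃ a z, T.Fix z ∧ x = T.fredEmb δ M a + wp z := by
  obtain ⟨u, γ, z, h1, h2, h3⟩ := T.fix_class hδ M hx h
  refine ⟨(u, ⟨γ, ?_⟩), z, h2, h3⟩
  rw [mem_degreeLT]
  exact degree_le_natDegree.trans_lt (by exact_mod_cast Nat.lt_succ_of_le h1)

lemma fred_card (k : Type) [Field k] [Finite k] (M : ℕ) :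
    Finite (degreeLT k (M + 1)) ∧
      Nat.card (ZMod 2 × degreeLT k (M + 1)) = Nat.card k ^ (M + 1) * 2 := by
  refine ⟨Finite.of_equiv _ (degreeLTEquiv k (M + 1)).toEquiv.symm, ?_⟩
  rw [Nat.card_prod, Nat.card_zmod, Nat.card_congr (degreeLTEquiv k (M + 1)).toEquiv,
    Nat.card_fun, mul_comm]
  simp

lemma fred_fix (hK : T.Kp H κ K) {v : L} (hv : v ∈ T.Vs H κ) : T.Fix (v / T.bh κ) :=
  Fix.div hv.2 (T.bh_fix hK.fix)

lemma fred_wp (hK : T.Kp H κ K) {v x y z : L} (hv : v ∈ T.Vs H κ) (hz : T.Fix z)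
    (e : x = y + wp z) : T.RK (x * (v / T.bh κ)) = T.RK (y * (v / T.bh κ)) := by
  rw [e, add_mul, RK_add, T.RK_wp_mul hz (T.fred_fix hK hv) hv.1.1.log, add_zero]

/-- The pairing between the Selmer group and the classes. -/
noncomputable def fredPair (H : AddSubgroup L) (κ : L) (δ : k) (M : ℕ) :
    T.Vs H κ →+ (ZMod 2 × degreeLT k (M + 1)) →+ ZMod 2 where
  toFun v :=
    { toFun := fun a => T.RK (T.fredEmb δ M a * (v.1 / T.bh κ))
      map_zero' := by rw [map_zero, zero_mul, RK_zero]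
      map_add' := fun a b => by rw [map_add, add_mul, RK_add] }
  map_zero' := by
    refine AddMonoidHom.ext fun a => ?_
    change T.RK (_ * (0 / _)) = 0
    rw [zero_div, mul_zero, RK_zero]
  map_add' v w := by
    refine AddMonoidHom.ext fun a => ?_
    change T.RK (_ * ((v.1 + w.1) / _)) = T.RK _ + T.RK _
    rw [add_div, mul_add, RK_add]

lemma fred_bound (s : Finset L) : ∃ M : ℕ, ∀ x ∈ s, x ∈ T.d.Le M := by
  classical
  induction s using Finset.induction_on with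
  | empty => exact ⟨0, by simp⟩
  | insert a s _ ih =>
    obtain ⟨M, hM⟩ := ih
    obtain ⟨n, hn⟩ := exists_nat_ge (T.d.deg a)
    refine ⟨max M n, fun x hx => ?_⟩
    rcases Finset.mem_insert.1 hx with rfl | hx
    · exact DF.mem_Le_of (hn.trans (by exact_mod_cast le_max_right M n))
    · exact DF.Le.mono (hM x hx) (by exact_mod_cast le_max_left M n)

lemma fred_rep (hK : T.Kp H κ K) {δ : k}
    (hδ : ∀ c : k, ∃ (u : ZMod 2) (z : k), c = zc k u * δ + wp z) {M : ℕ} (hM : K ≤ M) {h : L}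
    (h2 : T.Fix h) (h3 : h ∈ T.d.Le M) :
    ∃ a Z, T.Fix Z ∧ wp Z = T.bh κ * h ^ 2 + T.fredEmb δ M a := by
  have hb : T.P.b ∈ T.d.Le ((1 : ℕ) : ℝ) := by
    rw [← p_X]
    exact T.p_le_iff.2 natDegree_X_le
  have hM' : (K : ℝ) ≤ M := by exact_mod_cast hM
  have h0 : (0 : ℝ) ≤ M := by positivity
  have h4 : T.P.b * h ^ 2 + κ * h ∈ T.d.Le (2 * M + 1) :=
    add_mem (DF.Le.mul hb (DF.Le.sq h3 le_rfl) (by push_cast; linarith))
      (DF.Le.mul hK.le h3 (by linarith))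
  obtain ⟨a, z, h5, h6⟩ := T.fred_class hδ M ((T.fix_b.mul (h2.pow 2)).add (hK.fix.mul h2)) h4
  refine ⟨a, z + κ * h, h5.add (hK.fix.mul h2), ?_⟩
  rw [wp_add]
  unfold bh
  unfold wp at h6 ⊢
  grind

theorem fred (hK : T.Kp H κ K) {Ψ : L} (hΨ : T.Fix Ψ)
    (h : ∀ v ∈ T.Vs H κ, T.RK (Ψ * (v / T.bh κ)) = 0) :
    ∃ ζ, T.Fix ζ ∧ T.P.c1 ζ ∈ H ∧ T.Θ κ ζ = Ψ := by
  classical
  obtain ⟨δ, hδ⟩ := exists_delta k
  obtain ⟨SV, -, hSV⟩ := hK.exists_V
  have : Finite (T.Vs H κ) :=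
    Set.Finite.to_subtype (SV.finite_toSet.subset fun z hz => (hSV z).2 hz)
  have nd : ∀ v : L, ∃ Φ, T.Fix Φ ∧ (v ∈ T.Vs H κ → v ≠ 0 → T.RK (Φ * (v / T.bh κ)) ≠ 0) := by
    intro v
    by_cases hv : v ∈ T.Vs H κ ∧ v ≠ 0
    · obtain ⟨Φ, h1, h2⟩ := T.RK_nd (T.fred_fix hK hv.1) (div_ne_zero hv.2 (T.bh_ne κ))
      exact ⟨Φ, h1, fun _ _ => h2⟩
    · exact ⟨0, T.fix_zero, fun h1 h2 => absurd ⟨h1, h2⟩ hv⟩
  choose Φ hΦ hΦ' using nd
  obtain ⟨M₀, hM₀⟩ := T.fred_bound (insert Ψ (SV.image Φ))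
  obtain ⟨M, hM, s, hs, hs'⟩ := hK.hg.count (max M₀ K)
  have hM1 : (M₀ : ℝ) ≤ M := by exact_mod_cast (le_max_left M₀ K).trans hM
  have hM2 : K ≤ M := (le_max_right M₀ K).trans hM
  have h0 : (0 : ℝ) ≤ M := by positivity
  obtain ⟨hfin, hcard⟩ := fred_card k M
  have h2 : ∀ x : ZMod 2 × degreeLT k (M + 1), x + x = 0 := fun x =>
    Prod.ext (z2_add_self _) (Subtype.ext (CharTwo.add_self_eq_zero _))
  have inj : Function.Injective (T.fredPair H κ δ M) := by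
    rw [injective_iff_map_eq_zero]
    intro v hv
    by_contra hne
    have hne' : v.1 ≠ 0 := fun e => hne (Subtype.ext e)
    obtain ⟨a, z, hz, e⟩ := T.fred_class hδ M (hΦ v) (DF.Le.mono (hM₀ _ (Finset.mem_insert_of_mem
      (Finset.mem_image_of_mem _ ((hSV _).2 v.2)))) (by linarith))
    exact hΦ' v v.2 hne' ((T.fred_wp hK v.2 hz e).trans (DFunLike.congr_fun hv a))
  let A₁ : Set (ZMod 2 × degreeLT k (M + 1)) := {a | ∃ g Z, g ∈ H ∧ T.Fix g ∧ T.Fix Z ∧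
    wp Z = T.bh κ * g ^ 2 + T.fredEmb δ M a}
  have h1 : ∀ a ∈ A₁, ∀ v, T.fredPair H κ δ M v a = 0 := by
    rintro a ⟨g, Z, g1, g2, g3, g4⟩ v
    change T.RK (T.fredEmb δ M a * (v.1 / T.bh κ)) = 0
    rw [T.fred_wp hK v.2 g3 (y := T.bh κ * g ^ 2) (by grind)]
    have e : T.bh κ * g ^ 2 * (v.1 / T.bh κ) = g ^ 2 * v.1 := by
      have := T.bh_ne κ
      field_simp
    rw [e, T.RK_sq_mul g2 v.2.2]
    exact hK.RK_iso g1 g2 v.2.1.2 v.2.2.c1
  have base : ∀ a : A₁, ∃ g Z, g ∈ H ∧ T.Fix g ∧ T.Fix Z ∧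
    wp Z = T.bh κ * g ^ 2 + T.fredEmb δ M a := fun a => a.2
  choose g0 Z0 b1 b2 b3 b4 using base
  have rep : ∀ x : s, ∃ a : A₁, ∃ ζ ∈ T.Vs H κ, T.P.c1 ζ = x.1 + g0 a := by
    intro x
    obtain ⟨x1, x2, x3⟩ := hs' x x.2
    obtain ⟨a, Z, z1, z2⟩ := T.fred_rep hK hδ hM2 x2 x3
    let a' : A₁ := ⟨a, x, Z, x1, x2, z1, z2⟩
    have e : wp (Z + Z0 a') = T.bh κ * (x.1 + g0 a') ^ 2 := by
      rw [wp_add, z2, b4 a']
      change _ + T.fredEmb δ M a + (_ + T.fredEmb δ M a) = _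
      grind
    obtain ⟨e1, e2⟩ := T.Kr_of_wp e
    exact ⟨a', Z + Z0 a', ⟨⟨e2, by rw [e1]; exact add_mem x1 (b1 a')⟩, z1.add (b3 a')⟩, e1⟩
  choose cl ζ r1 r2 using rep
  have one : ∀ u : ZMod 2, zc L u * 1 ∈ T.Vs H κ := fun u => by
    rcases z2_cases u with rfl | rfl
    · simp
    · simpa using T.one_mem_Vs H κ
  let F : s × ZMod 2 → A₁ × T.Vs H κ := fun x =>
    (cl x.1, ⟨ζ x.1 + zc L x.2 * 1, add_mem (r1 x.1) (one x.2)⟩)
  have hF : Function.Injective F := by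
    rintro ⟨x, u⟩ ⟨y, w⟩ e
    have e1 : cl x = cl y := congrArg Prod.fst e
    have e2 : ζ x + zc L u * 1 = ζ y + zc L w * 1 := congrArg (fun q => q.2.1) e
    have e3 := congrArg T.P.c1 e2
    rw [PB.c1_add, PB.c1_add, c1_zc_mul, c1_zc_mul, PB.c1_one, mul_zero, mul_zero, add_zero,
      add_zero, r2, r2, e1, add_left_inj] at e3
    obtain rfl : x = y := Subtype.ext e3
    rw [add_right_inj, mul_one, mul_one] at e2
    rw [(zc L).injective e2]
  have hS : Nat.card (ZMod 2 × degreeLT k (M + 1)) ≤ Nat.card (s × ZMod 2) := by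
    rw [hcard, Nat.card_prod, Nat.card_zmod, Nat.card_eq_finsetCard]
    exact Nat.mul_le_mul_right _ hs
  obtain ⟨a, z, hz, e⟩ := T.fred_class hδ M (hΨ.pow 2)
    (DF.Le.sq (hM₀ _ (Finset.mem_insert_self _ _)) (by linarith))
  obtain ⟨g, Z, g1, g2, g3, g4⟩ := fred_count h2 _ inj A₁ h1 F hF hS (a := a) fun v => by
    change T.RK (T.fredEmb δ M a * (v.1 / T.bh κ)) = 0
    rw [← T.fred_wp hK v.2 hz e, T.RK_sq_mul hΨ (T.fred_fix hK v.2), v.2.1.1.log]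
    exact h v v.2
  have e1 : wp (Z + z) = Ψ ^ 2 + T.bh κ * g ^ 2 := by rw [wp_add]; grind
  have e2 : T.P.c1 (Z + z) = g := by
    rw [← PB.c1_wp, e1]
    exact (T.P.uniq (g := Ψ + κ * g) (by unfold bh; grind)).2
  refine ⟨Z + z, g3.add hz, by rwa [e2], sq_inj ?_⟩
  rw [Θ_sq, e1, e2]
  grind

end Tw

end Pool.Agent.Lib.MP_788af2_nt.AS
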