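import Pool.Agent.Lib.MP_788af2_nt.TT.Fix

/-!
The group at the finite places: basic facts.
-/

set_option linter.unusedSectionVars false

namespace Pool.Agent.Lib.MP_788af2_nt.AS

open Polynomial WeierstrassCurve Pool.Agent.Lib.MP_a3f657_nt.Two

namespace Tw

variable {k : Type} [Field k] [Finite k] [CharP k 2] {I : Type} [Fintype I] [DecidableEq I]
  {β : I → k[X]} {L : Type} [Field L] [CharP L 2] (T : Tw β L)

variable {a b ro s c μ : k[X]} {x h F u ρ z : L}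

lemma O_of_cop {q q' : k[X]} (hq : IsCoprime q q') (h1 : T.p q * x ∈ T.O) (h2 : T.p q' * x ∈ T.O) :
    x ∈ T.O := by
  obtain ⟨i, j, e⟩ := hq
  have e1 : x = T.p i * (T.p q * x) + T.p j * (T.p q' * x) := by
    rw [← mul_assoc, ← mul_assoc, ← add_mul, ← map_mul, ← map_mul, ← map_add, e, map_one, one_mul]
  rw [e1]
  exact add_mem (mul_mem (T.p_mem_O i) h1) (mul_mem (T.p_mem_O j) h2)

lemma O_of_sq (hq : IsCoprime ro (derivative ro)) (h1 : T.p ro * x ^ 2 ∈ T.O) : x ∈ T.O := by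
  have h2 := T.D_O h1
  rw [mul_comm, PB.D_sq_mul, D_p, mul_comm] at h2
  simpa using T.c0_O (T.O_of_cop hq h1 h2)

lemma fix_fl (q : k[X]) : T.Fix (T.fl q) := (T.fix_p _).div (T.fix_p _)

lemma c1_fl (q : k[X]) : T.P.c1 (T.fl q) = T.fl q := T.lg_log q

lemma fl_ne (h : derivative ro ≠ 0) : T.fl ro ≠ 0 :=
  div_ne_zero (T.p_ne h) (T.p_ne fun e => h (by rw [e, derivative_zero]))

lemma p_mul_fl {q : k[X]} (h : q ≠ 0) : T.p q * T.fl q = T.p (derivative q) :=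
  mul_div_cancel₀ _ (T.p_ne h)

lemma c1_inv_fl (h : derivative ro ≠ 0) : T.P.c1 (T.fl ro)⁻¹ = 1 := by
  have h0 := T.fl_ne h
  have e : (T.fl ro)⁻¹ = (T.fl ro)⁻¹ ^ 2 * T.fl ro := by field_simp
  rw [e, PB.c1_sq_mul, c1_fl, inv_mul_cancel₀ h0]

lemma hat_sq (h : derivative ro ≠ 0) (y : L) :
    (T.P.c0 y + T.P.c0 (T.fl ro)⁻¹ * T.P.c1 y) ^ 2 = T.P.c1 y ^ 2 / T.fl ro + y := by
  have e1 := T.P.spec (T.fl ro)⁻¹
  have e2 := T.P.spec y
  rw [T.c1_inv_fl h] at e1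
  rw [div_eq_mul_inv]
  generalize T.P.c0 (T.fl ro)⁻¹ = k0 at e1 ⊢
  generalize T.P.c0 y = y0 at e2 ⊢
  generalize T.P.c1 y = y1 at e2 ⊢
  rw [e1, e2]
  grind

lemma hat_eq (hd : derivative ro ≠ 0) {y : L} (e : h ^ 2 = F ^ 2 / T.fl ro + y) :
    T.P.c1 y = F ∧ h = T.P.c0 y + T.P.c0 (T.fl ro)⁻¹ * T.P.c1 y := by
  have e1 : T.P.c1 y = F := by
    have e2 := congrArg T.P.c1 e
    rw [PB.c1_sq, PB.c1_add, div_eq_mul_inv, PB.c1_sq_mul, T.c1_inv_fl hd, mul_one] at e2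
    exact (CharTwo.add_eq_zero.1 e2.symm).symm
  exact ⟨e1, sq_inj (by rw [T.hat_sq hd, e1, e])⟩

lemma D_fl (hA : Adm2 b ro s c a) : T.P.D (T.p b) / T.p b = T.fl ro := by
  have h0 := T.p_ne hA.s_ne
  rw [hA.eq, map_mul, map_pow, mul_comm, PB.D_sq_mul, D_p, fl,
    mul_div_mul_left _ _ (pow_ne_zero 2 h0)]

variable {T} in
lemma Rep.shift (hA : Adm2 b ro s c a) (hR : T.Rep ro c a h F u ρ z) {y : L} (hy : y ∈ T.O) :
    T.Rep ro c a h (F + y * T.fl ro) (u + wp y) ρ (z + y) := by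
  have h0 := T.fl_ne hA.d_ne
  have hr : ro ≠ 0 := fun e => hA.d_ne (by rw [e, derivative_zero])
  obtain ⟨o, ho, e⟩ := hR.cong
  refine ⟨?_, add_mem hR.u_O (add_mem (pow_mem hy 2) hy), hR.ρ_O, add_mem hR.z_O hy, ?_, hR.idem,
    ⟨o, ho, ?_⟩⟩
  · have e1 : (y * T.fl ro) ^ 2 / T.fl ro = y ^ 2 * T.fl ro := by field_simp
    rw [hR.sq, CharTwo.add_sq, add_div, e1, wp]
    grind
  · have e1 : T.p ro * (F + y * T.fl ro + ρ * T.fl c) =
        T.p ro * (F + ρ * T.fl c) + y * (T.p ro * T.fl ro) := by ring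
    rw [e1, T.p_mul_fl hr]
    exact add_mem hR.F_O (mul_mem hy (T.p_mem_O _))
  · rw [← e, wp_add]
    grind

variable {T} in
lemma Rep.σ (hR : T.Rep ro c a h F u ρ z) (g : G I) :
    T.Rep ro c a (T.σ g h) (T.σ g F) (T.σ g u) (T.σ g ρ) (T.σ g z) := by
  obtain ⟨o, ho, e⟩ := hR.idem
  obtain ⟨o', ho', e'⟩ := hR.cong
  refine ⟨?_, T.σ_O g hR.u_O, T.σ_O g hR.ρ_O, T.σ_O g hR.z_O, ?_, ⟨_, T.σ_O g ho, ?_⟩,
    ⟨_, T.σ_O g ho', ?_⟩⟩
  · have := congrArg (T.σ g) hR.sq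
    simpa only [map_pow, map_add, map_div₀, map_mul, T.fix_fl ro g] using this
  · have := T.σ_O g hR.F_O
    simpa only [map_add, map_mul, T.fix_fl c g, σ_p] using this
  · have := congrArg (T.σ g) e
    simpa only [wp, map_pow, map_add, map_mul, σ_p] using this
  · have := congrArg (T.σ g) e'
    simpa only [wp, map_pow, map_add, map_mul, σ_p] using this

lemma Hs_σ (g : G I) (hh : h ∈ T.Hs ro c a) : T.σ g h ∈ T.Hs ro c a := by
  obtain ⟨F, u, ρ, z, hR⟩ := hh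
  exact ⟨_, _, _, _, hR.σ g⟩

private lemma Hs_flip_le (ro a : k[X]) (hμ : c ∣ μ) (hh : h ∈ T.Hs ro c a) :
    h ∈ T.Hs ro c (a + X * μ ^ 2) := by
  obtain ⟨F, u, ρ, z, hR⟩ := hh
  obtain ⟨o, ho, e⟩ := hR.cong
  obtain ⟨w, rfl⟩ := hμ
  refine ⟨F, u, ρ, z, hR.sq, hR.u_O, hR.ρ_O, hR.z_O, hR.F_O, hR.idem,
    o + ρ * T.p (X * c * w ^ 2), add_mem ho (mul_mem hR.ρ_O (T.p_mem_O _)), ?_⟩
  rw [mul_add, ← e]
  simp only [map_add, map_mul, map_pow]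
  ring

lemma Hs_flip (ro a : k[X]) (hμ : c ∣ μ) : T.Hs ro c (a + X * μ ^ 2) = T.Hs ro c a := by
  refine le_antisymm (fun h hh => ?_) fun h hh => T.Hs_flip_le ro a hμ hh
  have := T.Hs_flip_le ro _ hμ hh
  rwa [add_assoc, CharTwo.add_self_eq_zero, add_zero] at this

end Tw

end Pool.Agent.Lib.MP_788af2_nt.AS
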