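import Pool.Agent.Lib.MP_788af2_nt.TT.GlobP
import Pool.Agent.Lib.MP_788af2_nt.TT.HBase
import Pool.Agent.Lib.MP_788af2_nt.TT.CurveB
import Pool.Agent.Lib.MP_788af2_nt.AS.Glob

/-!
Global points satisfy the conditions at the finite places.
-/

set_option linter.unusedSectionVars false

namespace Pool.Agent.Lib.MP_788af2_nt.AS

open Polynomial WeierstrassCurve Pool.Agent.Lib.MP_a3f657_nt.Two

namespace Tw

variable {k : Type} [Field k] [Finite k] [CharP k 2] {I : Type} [Fintype I] [DecidableEq I]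
  {β : I → k[X]} {L : Type} [Field L] [CharP L 2] (T : Tw β L)

variable [DecidableEq L] {a b ro s c : k[X]}

attribute [local instance] algOL

/-- The derivation restricted to the global field. -/
private noncomputable def gbD (y : T.Lg) : T.Lg := ⟨T.P.D y, pow_mem (T.c1_Lg y.2) 2⟩

private lemma gbD_coe (y : T.Lg) : (T.gbD y : L) = T.P.D y := rfl

private lemma gb_mul (x y : T.Lg) : T.gbD (x * y) = x * T.gbD y + y * T.gbD x :=
  Subtype.ext (by simp only [gbD_coe, Subfield.coe_add, Subfield.coe_mul, PB.D_mul])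

private lemma gb_int (o : T.O) :
    ∃ o' : T.O, T.gbD (algebraMap T.O T.Lg o) = algebraMap T.O T.Lg o' :=
  ⟨⟨_, T.D_O o.2⟩, Subtype.ext (by simp only [gbD_coe, coe_alg])⟩

private lemma gb_cop {q : k[X]} (h : IsCoprime q (derivative q)) :
    ∃ u v : T.O, algebraMap T.O T.Lg u * algebraMap T.O T.Lg (T.pO q) +
      algebraMap T.O T.Lg v * T.gbD (algebraMap T.O T.Lg (T.pO q)) = 1 := by
  obtain ⟨u, v, huv⟩ := h
  exact ⟨T.pO u, T.pO v, Subtype.ext (by
    simp only [gbD_coe, coe_alg, coe_pO, Subfield.coe_add, Subfield.coe_mul, Subfield.coe_one]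
    rw [D_p, ← map_mul, ← map_mul, ← map_add, huv, map_one])⟩

private lemma gb_ne {q : k[X]} (h : q ≠ 0) : T.pO q ≠ 0 :=
  fun e => T.p_ne h (by rw [← coe_pO, e, Subring.coe_zero])

private lemma gb_hyp [IsDedekindDomain T.O] [IsFractionRing T.O T.Lg] (hA : Adm2 b ro s c a)
    (hβ : ∀ i, s ∣ β i) : Hyp T.gbD (T.pO a) (T.pO ro) (T.pO s) (T.pO c) where
  add _ _ := Subtype.ext (by simp only [gbD_coe, Subfield.coe_add, PB.D_add])
  mul := T.gb_mul
  int := T.gb_int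
  ro_ne := T.gb_ne fun e => hA.d_ne (by rw [e, derivative_zero])
  s_ne := T.gb_ne hA.s_ne
  cop_ro := T.gb_cop hA.cop_ro
  cop_c := T.gb_cop hA.cop_c
  cop := hA.cop.map T.pO
  dvd := map_dvd _ hA.dvd
  loc v h1 h2 := by
    have hP := v.isPrime
    obtain ⟨q, hq, h7⟩ : ∃ q : k[X], Irreducible q ∧ ∀ x, T.pO x ∈ v.asIdeal ↔ q ∣ x :=
      ⟨_, (Submodule.IsPrincipal.prime_generator_of_isPrime (v.asIdeal.comap T.pO)
        fun e => hA.s_ne (Ideal.mem_bot.1 (e ▸ (show s ∈ v.asIdeal.comap T.pO from h1)))).irreducible,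
        fun x => @Submodule.IsPrincipal.mem_iff_generator_dvd _ _ (v.asIdeal.comap T.pO) _ x⟩
    obtain ⟨n, s', e, h3, h4⟩ := hA.loc q hq ((h7 s).1 h1) fun e => h2 ((h7 ro).2 e)
    obtain ⟨h5, h6⟩ := gaA_ord (F := T.Lg) v (o := T.pO s') fun e => h3 ((h7 s').1 e)
    have h8 : algebraMap T.O T.Lg (T.pO q) ≠ 0 :=
      (map_ne_zero_iff _ (IsFractionRing.injective T.O T.Lg)).2 (T.gb_ne hq.ne_zero)
    have h9 := gaA_bs v T.gb_mul T.gb_int
      (T.gb_cop (PerfectField.separable_of_irreducible hq))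
    have h10 := (mem_Fil_iff h8).1 ((gaA_one (F := T.Lg) v _).2 ((h7 q).2 dvd_rfl))
    have h11 : ord (v.valuation T.Lg) (algebraMap T.O T.Lg (T.pO s)) = n := by
      rw [e, map_mul, map_mul, map_pow, map_pow, ord_mul (pow_ne_zero n h8) h5, ord_pow, h6,
        le_antisymm h9 h10, mul_one, add_zero]
    rw [h11]
    rcases h4 with ⟨h4, h12⟩ | ⟨h4, h12, h13⟩
    · refine Or.inl ⟨(h7 c).2 h4, h12.imp (fun h => ?_) fun ⟨z, hz⟩ => ⟨T.pO z, ?_⟩⟩
      · have := Nat.odd_iff.1 h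
        omega
      · simpa only [map_add, map_pow] using (h7 _).2 hz
    · refine Or.inr ⟨fun h => h4 ((h7 c).1 h), ?_, fun o h5 => ?_⟩
      · have := Nat.even_iff.1 h12
        omega
      · obtain ⟨z, hz⟩ := T.exists_pO hβ hP h1 o
        refine h13 z ((h7 _).1 ?_)
        rw [← Ideal.Quotient.eq_zero_iff_mem] at h5 ⊢
        simpa only [map_add, map_pow, hz] using h5

theorem glob_h (hA : Adm2 b ro s c a) (hβ : ∀ i, s ∣ β i) {Q : (T.Cw a b).Point} (h : T.InG Q) :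
    hV T.P (T.p b) Q ∈ T.Hs ro c a := by
  by_cases hQ : Q = 0
  · rw [hQ, hV_zero]
    exact zero_mem _
  have hf := T.fl_ne hA.d_ne
  have hb : T.P.c1 (T.p b) ≠ 0 := fun e => hf (by rw [← T.D_fl hA, PB.D, e]; simp)
  have hx := eb_x_ne T.P hb hQ
  have hz := eb_wp Q hx
  have hs := hV_sq T.P hb Q
  rw [T.D_fl hA] at hs
  have := T.isDedekind
  have := T.isFractionRing_O
  have hw : ∀ y : T.Lg, ((wp y : T.Lg) : L) = wp (y : L) := fun _ => rfl
  have hb' : T.p ro * T.p s ^ 2 = T.p b := by rw [hA.eq, map_mul, map_pow]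
  obtain ⟨ζ, u, ρ, y, o, h1, h2, ⟨o1, h3⟩, ⟨o2, h4⟩⟩ := globP (T.gb_hyp hA hβ)
    (x := ⟨xc Q, h.1⟩) (z := ⟨yc Q / xc Q, div_mem h.2 h.1⟩)
    (fun e => hx (congrArg Subtype.val e)) (Subtype.ext (by
      simpa only [hw, coe_alg, coe_pO, Subfield.coe_add, Subfield.coe_div, SubmonoidClass.coe_pow,
        Subring.coe_mul, hb'] using hz))
  rw [Subtype.ext_iff] at h1 h2 h3 h4
  simp only [gbD_coe, hw, coe_alg, coe_pO, Subfield.coe_add, Subfield.coe_mul, Subfield.coe_div,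
    SubmonoidClass.coe_pow, Subring.coe_mul, Subring.coe_add, hb', D_p] at h1 h2 h3 h4
  refine ⟨T.P.D (xc Q) / xc Q + ζ * T.fl ro, u, ρ, y, ?_, u.2, ρ.2, y.2, ?_, ⟨o1, o1.2, h3⟩,
    ⟨o2, o2.2, h4⟩⟩
  · rw [hs, ← h1, wp, CharTwo.add_sq, add_div, mul_pow, sq (T.fl ro), ← mul_assoc,
      mul_div_cancel_right₀ _ hf]
    grind
  · exact h2 ▸ o.2

end Tw

end Pool.Agent.Lib.MP_788af2_nt.AS
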