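import Pool.Agent.Lib.MP_788af2_nt.TT.GlobV

/-!
Patching the local descent data.
-/

set_option linter.unusedSectionVars false

namespace Pool.Agent.Lib.MP_788af2_nt.AS

open Polynomial WeierstrassCurve Pool.Agent.Lib.MP_a3f657_nt.Two IsDedekindDomain

variable {O F : Type} [CommRing O] [IsDedekindDomain O] [Field F] [Algebra O F]
  [IsFractionRing O F] [CharP F 2] {D : F → F} {a ro s c : O} {x z : F}

private theorem gpP_int {w : F} (hw : ∀ v : HeightOneSpectrum O, w ∈ Fil (v.valuation F) 0) :
    ∃ o : O, w = algebraMap O F o := by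
  obtain ⟨o, ho⟩ := HeightOneSpectrum.mem_integers_of_valuation_le_one F w
    fun v => (gaA_le v).1 (hw v)
  exact ⟨o, ho.symm⟩

private theorem gpP_crt {d : O} (hd : d ≠ 0) (n : HeightOneSpectrum O → ℕ)
    (e : HeightOneSpectrum O → O) :
    ∃ o : O, ∀ v : HeightOneSpectrum O, d ∈ v.asIdeal →
      algebraMap O F o + algebraMap O F (e v) ∈ Fil (v.valuation F) (n v) := by
  classical
  have fin := Ideal.finite_factors (I := Ideal.span {d})
    (by simpa [Ideal.span_singleton_eq_bot] using hd)
  obtain ⟨o, ho⟩ := exists_forall_sub_mem_ideal (s := fin.toFinset) (fun v => v.asIdeal) n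
    (fun v _ => v.prime) (fun v _ w _ e k => e (HeightOneSpectrum.ext k)) fun v => e v.1
  refine ⟨o, fun v hv => ?_⟩
  have hv' : v ∈ fin.toFinset := by
    rwa [Set.Finite.mem_toFinset, Set.mem_ofPred_eq, Ideal.dvd_span_singleton]
  have := (gaA_pow (F := F) v _ _).2 (ho v hv')
  rwa [map_sub, CharTwo.sub_eq_add] at this

private theorem gpP_zeta (h : Hyp D a ro s c) (hx : x ≠ 0)
    (hz : wp z = x + algebraMap O F a + algebraMap O F (ro * s ^ 2) / x ^ 2) :
    ∃ ζ : F, ∀ v : HeightOneSpectrum O, Cnd D a ro s c x v ζ := by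
  classical
  obtain ⟨n, d, hd, hnd⟩ := IsFractionRing.div_surjective (A := O) z
  obtain ⟨c0, hc⟩ := gpP_crt (F := F) (nonZeroDivisors.ne_zero hd)
    (fun v => (-ord (v.valuation F) z).toNat) fun v => if Cnd D a ro s c x v z then 1 else 0
  refine ⟨algebraMap O F c0 * z, fun v => ?_⟩
  by_cases hv : d ∈ v.asIdeal
  · have h5 := Fil.mul (hc v hv) (mem_Fil_ord z) (c := 0) (by omega)
    by_cases c1 : Cnd D a ro s c x v z
    · rw [if_pos c1, map_one, add_mul, one_mul, add_comm] at h5
      exact c1.shift h h5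
    · rw [if_neg c1, map_zero, add_zero] at h5
      exact ((globV h hx hz v).resolve_right c1).shift h (by rwa [zero_add])
  · have z0 : z ∈ Fil (v.valuation F) 0 := by
      rw [← hnd]
      exact Fil.div (gaA_int v n) (by rw [(gaA_ord (F := F) v hv).2]; omega)
    have z1 := Fil.mul (gaA_int v c0) z0 (c := 0) le_rfl
    rcases globV h hx hz v with c1 | c1
    · exact c1.shift h (by rwa [zero_add])
    · exact c1.shift h (add_mem z0 z1)

private theorem gpP_dvd (h : Hyp D a ro s c) {w : O}
    (hw : ∀ v : HeightOneSpectrum O, c ∈ v.asIdeal → algebraMap O F w ∈ Fil (v.valuation F) 1) :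
    c ∣ w := by
  have inj := IsFractionRing.injective O F
  have hc0 : c ≠ 0 := ne_zero_of_dvd_ne_zero h.s_ne h.dvd
  have hcF : algebraMap O F c ≠ 0 := fun e => hc0 (inj (e.trans (map_zero _).symm))
  obtain ⟨o, ho⟩ := gpP_int (O := O) (w := algebraMap O F w / algebraMap O F c) fun v => by
    by_cases hv : c ∈ v.asIdeal
    · have := gaA_bs v h.mul h.int h.cop_c
      exact Fil.div (hw v hv) (by omega)
    · exact Fil.div (gaA_int v w) (by rw [(gaA_ord (F := F) v hv).2]; omega)
  refine ⟨o, inj ?_⟩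
  rw [map_mul, ← ho, mul_div_cancel₀ _ hcF]

theorem globP (h : Hyp D a ro s c) (hx : x ≠ 0)
    (hz : wp z = x + algebraMap O F a + algebraMap O F (ro * s ^ 2) / x ^ 2) :
    ∃ (ζ : F) (u ρ y o : O), algebraMap O F (ro * s ^ 2) / x ^ 2 + wp ζ = algebraMap O F u ∧
      algebraMap O F ro * (D x / x + ζ * (D (algebraMap O F ro) / algebraMap O F ro) +
        algebraMap O F ρ * (D (algebraMap O F c) / algebraMap O F c)) = algebraMap O F o ∧
      c ∣ ρ ^ 2 + ρ ∧ c ∣ u + ρ * a + (y ^ 2 + y) := by
  have inj := IsFractionRing.injective O F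
  have hc0 : c ≠ 0 := ne_zero_of_dvd_ne_zero h.s_ne h.dvd
  have hcF : algebraMap O F c ≠ 0 := fun e => hc0 (inj (e.trans (map_zero _).symm))
  obtain ⟨ζ, hζ⟩ := gpP_zeta h hx hz
  choose r y h01 h1 h2 h3 using hζ
  obtain ⟨ρ, hρ⟩ := gpP_crt (F := F) hc0 (fun _ => 1) r
  obtain ⟨η, hη⟩ := gpP_crt (F := F) hc0 (fun _ => 1) y
  simp only [Nat.cast_one] at hρ hη
  obtain ⟨u, hu⟩ := gpP_int h1
  obtain ⟨o, ho⟩ := gpP_int (O := O) (w := algebraMap O F ro * (D x / x +
      ζ * (D (algebraMap O F ro) / algebraMap O F ro) +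
      algebraMap O F ρ * (D (algebraMap O F c) / algebraMap O F c))) fun v => by
    have e : algebraMap O F ro * (D x / x + ζ * (D (algebraMap O F ro) / algebraMap O F ro) +
        algebraMap O F ρ * (D (algebraMap O F c) / algebraMap O F c)) =
        algebraMap O F ro * (D x / x + ζ * (D (algebraMap O F ro) / algebraMap O F ro) +
        algebraMap O F (r v) * (D (algebraMap O F c) / algebraMap O F c)) +
        algebraMap O F ro * ((algebraMap O F ρ + algebraMap O F (r v)) *
          (D (algebraMap O F c) / algebraMap O F c)) := by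
      generalize D (algebraMap O F c) / algebraMap O F c = A
      generalize D (algebraMap O F ro) / algebraMap O F ro = B
      generalize D x / x = C
      grind
    rw [e]
    refine add_mem (h2 v) (Fil.mul (gaA_int v ro) (b := 0) ?_ le_rfl)
    by_cases hv : c ∈ v.asIdeal
    · exact Fil.mul (hρ v hv) (gaA_dlog v h.mul h.int hcF) (by omega)
    · exact Fil.mul (add_mem (gaA_int v ρ) (gaA_int v _))
        (gaA_even v h.mul h.int hcF (by rw [(gaA_ord (F := F) v hv).2]; rfl)) le_rfl
  refine ⟨ζ, u, ρ, η, o, hu, ho, gpP_dvd h fun v hv => ?_, gpP_dvd h fun v hv => ?_⟩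
  · have e0 : wp (algebraMap O F (r v)) = 0 := by
      rcases h01 v with e | e <;> simp [e]
    have e : algebraMap O F (ρ ^ 2 + ρ) = wp (algebraMap O F ρ + algebraMap O F (r v)) := by
      rw [wp_add, e0, add_zero, map_add, map_pow, wp]
    rw [e]
    exact Fil.wp (hρ v hv) le_rfl (by omega)
  · have e : algebraMap O F (u + ρ * a + (η ^ 2 + η)) =
        (algebraMap O F (ro * s ^ 2) / x ^ 2 + wp ζ +
          algebraMap O F (r v * a + (y v ^ 2 + y v))) +
        (algebraMap O F ρ + algebraMap O F (r v)) * algebraMap O F a +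
        wp (algebraMap O F η + algebraMap O F (y v)) := by
      rw [hu]
      simp only [map_add, map_mul, map_pow, wp]
      grind
    rw [e]
    exact add_mem (add_mem (h3 v hv) (Fil.mul (hρ v hv) (gaA_int v a) (by omega)))
      (Fil.wp (hη v hv) le_rfl (by omega))

end Pool.Agent.Lib.MP_788af2_nt.AS
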