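import Pool.Agent.Lib.MP_788af2_nt.AS.GlobAbs

/-!
The descent data at one finite place.
-/

set_option linter.unusedSectionVars false

namespace Pool.Agent.Lib.MP_788af2_nt.AS

open Polynomial WeierstrassCurve Pool.Agent.Lib.MP_a3f657_nt.Two IsDedekindDomain

variable {O F : Type} [CommRing O] [IsDedekindDomain O] [Field F] [Algebra O F]
  [IsFractionRing O F] [CharP F 2]

/-- The conditions at the place `v` on the representative shifted by `ζ`. -/
def Cnd (D : F → F) (a ro s c : O) (x : F) (v : HeightOneSpectrum O) (ζ : F) : Prop :=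
  ∃ ρ y : O, (ρ = 0 ∨ ρ = 1) ∧
    algebraMap O F (ro * s ^ 2) / x ^ 2 + wp ζ ∈ Fil (v.valuation F) 0 ∧
    algebraMap O F ro * (D x / x + ζ * (D (algebraMap O F ro) / algebraMap O F ro) +
      algebraMap O F ρ * (D (algebraMap O F c) / algebraMap O F c)) ∈ Fil (v.valuation F) 0 ∧
    (c ∈ v.asIdeal → algebraMap O F (ro * s ^ 2) / x ^ 2 + wp ζ +
      algebraMap O F (ρ * a + (y ^ 2 + y)) ∈ Fil (v.valuation F) 1)

/-- The hypotheses on the data. -/
structure Hyp (D : F → F) (a ro s c : O) : Prop where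
  add : ∀ x y, D (x + y) = D x + D y
  mul : ∀ x y, D (x * y) = x * D y + y * D x
  int : ∀ o : O, ∃ o' : O, D (algebraMap O F o) = algebraMap O F o'
  ro_ne : ro ≠ 0
  s_ne : s ≠ 0
  cop_ro : ∃ u v : O,
    algebraMap O F u * algebraMap O F ro + algebraMap O F v * D (algebraMap O F ro) = 1
  cop_c : ∃ u v : O,
    algebraMap O F u * algebraMap O F c + algebraMap O F v * D (algebraMap O F c) = 1
  cop : IsCoprime ro c
  dvd : c ∣ s
  loc : ∀ v : HeightOneSpectrum O, s ∈ v.asIdeal → ro ∉ v.asIdeal →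
    (c ∈ v.asIdeal ∧ (ord (v.valuation F) (algebraMap O F s) % 2 = 1 ∨
      ∃ o, a + o ^ 2 + o ∈ v.asIdeal)) ∨
    (c ∉ v.asIdeal ∧ ord (v.valuation F) (algebraMap O F s) % 2 = 0 ∧
      ∀ o, a + o ^ 2 + o ∉ v.asIdeal)

variable {D : F → F} {a ro s c : O} {x z ζ ζ' : F}

private lemma gv_ne {o : O} (h : o ≠ 0) : algebraMap O F o ≠ 0 := fun e =>
  h (IsFractionRing.injective O F (e.trans (map_zero _).symm))

private lemma gv_c_ne (h : Hyp D a ro s c) : c ≠ 0 := ne_zero_of_dvd_ne_zero h.s_ne h.dvd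

private lemma gv_nn (v : HeightOneSpectrum O) {o : O} (h : o ≠ 0) :
    0 ≤ ord (v.valuation F) (algebraMap O F o) := (mem_Fil_iff (gv_ne h)).1 (gaA_int v o)

private lemma gv_mem (v : HeightOneSpectrum O) {o : O} (h : o ≠ 0) :
    o ∈ v.asIdeal ↔ 1 ≤ ord (v.valuation F) (algebraMap O F o) := by
  rw [← gaA_one (F := F) v o, mem_Fil_iff (gv_ne h)]

private lemma gv_dlog (h : Hyp D a ro s c) {p q : F} (hp : p ≠ 0) (hq : q ≠ 0) :
    D (p * q) / (p * q) = D p / p + D q / q := by
  rw [h.mul]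
  field_simp
  ring

/-- The logarithmic derivative of `y`, corrected by that of `c` when the order is odd. -/
private lemma gv_odd (h : Hyp D a ro s c) (v : HeightOneSpectrum O) {y : F} (hy : y ≠ 0)
    (hc : c ∈ v.asIdeal) (ho : ord (v.valuation F) y % 2 = 1) :
    D y / y + D (algebraMap O F c) / algebraMap O F c ∈ Fil (v.valuation F) 0 := by
  have c0 : algebraMap O F c ≠ 0 := gv_ne (gv_c_ne h)
  have c1 := (gv_mem (F := F) v (gv_c_ne h)).1 hc
  have c2 := gaA_bs v h.mul h.int h.cop_c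
  rw [← gv_dlog h hy c0]
  refine gaA_even v h.mul h.int (mul_ne_zero hy c0) ?_
  rw [ord_mul hy c0]
  omega

private lemma gv_zero (v : HeightOneSpectrum O) {ζ : F} (y : O)
    (h1 : algebraMap O F (ro * s ^ 2) / x ^ 2 + wp ζ ∈ Fil (v.valuation F) 0)
    (h2 : algebraMap O F ro * (D x / x + ζ * (D (algebraMap O F ro) / algebraMap O F ro)) ∈
      Fil (v.valuation F) 0)
    (h3 : c ∈ v.asIdeal → algebraMap O F (ro * s ^ 2) / x ^ 2 + wp ζ + wp (algebraMap O F y) ∈
      Fil (v.valuation F) 1) : Cnd D a ro s c x v ζ := by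
  refine ⟨0, y, Or.inl rfl, h1, by simpa using h2, fun hc => ?_⟩
  have := h3 hc
  rw [wp] at this ⊢
  simpa [wp] using this

private lemma gv_one (v : HeightOneSpectrum O) {ζ : F} (y : O)
    (h1 : algebraMap O F (ro * s ^ 2) / x ^ 2 + wp ζ ∈ Fil (v.valuation F) 0)
    (h2 : D x / x + ζ * (D (algebraMap O F ro) / algebraMap O F ro) +
      D (algebraMap O F c) / algebraMap O F c ∈ Fil (v.valuation F) 0)
    (h3 : algebraMap O F (ro * s ^ 2) / x ^ 2 + wp ζ +
      (algebraMap O F a + wp (algebraMap O F y)) ∈ Fil (v.valuation F) 1) :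
    Cnd D a ro s c x v ζ := by
  refine ⟨1, y, Or.inr rfl, h1, ?_, fun _ => ?_⟩
  · rw [map_one, one_mul]
    exact Fil.mul (gaA_int v ro) h2 le_rfl
  · rw [one_mul, map_add, map_add, map_pow]
    exact h3

lemma Cnd.shift (h : Hyp D a ro s c) {v : HeightOneSpectrum O} (h1 : Cnd D a ro s c x v ζ)
    (h2 : ζ + ζ' ∈ Fil (v.valuation F) 0) : Cnd D a ro s c x v ζ' := by
  obtain ⟨ρ, y, hρ, k1, k2, k3⟩ := h1
  obtain ⟨o, ho⟩ := gaA_near v h2
  obtain ⟨r', hr'⟩ := h.int ro
  have r0 : algebraMap O F ro ≠ 0 := gv_ne h.ro_ne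
  refine ⟨ρ, y + o, hρ, ?_, ?_, fun hc => ?_⟩
  · have e : algebraMap O F (ro * s ^ 2) / x ^ 2 + wp ζ' =
        algebraMap O F (ro * s ^ 2) / x ^ 2 + wp ζ + wp (ζ + ζ') := by
      rw [wp_add]
      grind
    rw [e]
    exact add_mem k1 (Fil.wp h2 le_rfl le_rfl)
  · have e : algebraMap O F ro * (D x / x + ζ' * (D (algebraMap O F ro) / algebraMap O F ro) +
        algebraMap O F ρ * (D (algebraMap O F c) / algebraMap O F c)) =
        algebraMap O F ro * (D x / x + ζ * (D (algebraMap O F ro) / algebraMap O F ro) +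
        algebraMap O F ρ * (D (algebraMap O F c) / algebraMap O F c)) +
        (ζ + ζ') * (algebraMap O F ro * (D (algebraMap O F ro) / algebraMap O F ro)) := by
      grind
    rw [e, mul_div_cancel₀ _ r0]
    refine add_mem k2 (Fil.mul (b := 0) h2 ?_ le_rfl)
    rw [hr']
    exact gaA_int v r'
  · have e : algebraMap O F (ro * s ^ 2) / x ^ 2 + wp ζ' +
        algebraMap O F (ρ * a + ((y + o) ^ 2 + (y + o))) =
        algebraMap O F (ro * s ^ 2) / x ^ 2 + wp ζ + algebraMap O F (ρ * a + (y ^ 2 + y)) +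
        wp (ζ + ζ' + algebraMap O F o) := by
      simp only [map_add, map_pow, wp]
      grind
    rw [e]
    exact add_mem (k3 hc) (Fil.wp ho le_rfl (by omega))

private lemma gv_ordu (h : Hyp D a ro s c) (hx : x ≠ 0) (v : HeightOneSpectrum O) :
    algebraMap O F (ro * s ^ 2) / x ^ 2 ≠ 0 ∧
    ord (v.valuation F) (algebraMap O F (ro * s ^ 2) / x ^ 2) =
      ord (v.valuation F) (algebraMap O F ro) + 2 * ord (v.valuation F) (algebraMap O F s) -
        2 * ord (v.valuation F) x := by
  have r0 : algebraMap O F ro ≠ 0 := gv_ne h.ro_ne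
  have s0 : algebraMap O F s ≠ 0 := gv_ne h.s_ne
  have b0 := mul_ne_zero r0 (pow_ne_zero 2 s0)
  rw [map_mul, map_pow]
  refine ⟨div_ne_zero b0 (pow_ne_zero 2 hx), ?_⟩
  rw [ord_div b0 (pow_ne_zero 2 hx), ord_mul r0 (pow_ne_zero 2 s0), ord_sq, ord_sq]

private lemma gv_cs (h : Hyp D a ro s c) {v : HeightOneSpectrum O} (hc : c ∈ v.asIdeal) :
    s ∈ v.asIdeal := Ideal.mem_of_dvd _ h.dvd hc

private lemma gv_cop (h : Hyp D a ro s c) {v : HeightOneSpectrum O} (hr : ro ∈ v.asIdeal) :
    c ∉ v.asIdeal := fun hc => by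
  obtain ⟨p, q, e⟩ := h.cop
  exact v.isPrime.ne_top ((Ideal.eq_top_iff_one _).2
    (e ▸ add_mem (Ideal.mul_mem_left _ _ hr) (Ideal.mul_mem_left _ _ hc)))

private lemma gv_wp (v : HeightOneSpectrum O) {o : O} :
    a + o ^ 2 + o ∈ v.asIdeal ↔
      algebraMap O F a + wp (algebraMap O F o) ∈ Fil (v.valuation F) 1 := by
  rw [← gaA_one (F := F) v, map_add, map_add, map_pow, wp, add_assoc]

/-- The case of non-positive order. -/
private lemma gv_low (h : Hyp D a ro s c) (hx : x ≠ 0)
    (hz : wp z = x + algebraMap O F a + algebraMap O F (ro * s ^ 2) / x ^ 2)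
    (v : HeightOneSpectrum O) (hn : ord (v.valuation F) x ≤ 0) : Cnd D a ro s c x v 0 := by
  obtain ⟨-, u1⟩ := gv_ordu h hx v
  have r1 := gv_nn (F := F) v h.ro_ne
  have s1 := gv_nn (F := F) v h.s_ne
  have u2 : algebraMap O F (ro * s ^ 2) / x ^ 2 ∈ Fil (v.valuation F) 0 :=
    mem_Fil_of_le (by omega)
  have ev : ord (v.valuation F) x % 2 = 0 := by
    rcases hn.eq_or_lt with e | e
    · omega
    · exact gaA_neg (hz.trans (add_assoc _ _ _)) e (add_mem (gaA_int v a) u2)
  refine gv_zero v 0 (by simpa using u2) ?_ fun hc => ?_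
  · rw [zero_mul, add_zero]
    exact Fil.mul (gaA_int v ro) (gaA_even v h.mul h.int hx ev) le_rfl
  · have := (gv_mem (F := F) v h.s_ne).1 (gv_cs h hc)
    rw [map_zero, wp_zero, add_zero, add_zero]
    exact mem_Fil_of_le (by omega)

/-- The case of positive order and integral `b / x ^ 2`. -/
private lemma gv_mid (h : Hyp D a ro s c) (hx : x ≠ 0)
    (hz : wp z = x + algebraMap O F a + algebraMap O F (ro * s ^ 2) / x ^ 2)
    (v : HeightOneSpectrum O) (hn : 0 < ord (v.valuation F) x)
    (hu : 0 ≤ ord (v.valuation F) (algebraMap O F (ro * s ^ 2) / x ^ 2)) :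
    Cnd D a ro s c x v 0 := by
  obtain ⟨-, u1⟩ := gv_ordu h hx v
  have u2 : algebraMap O F (ro * s ^ 2) / x ^ 2 ∈ Fil (v.valuation F) 0 := mem_Fil_of_le hu
  have u3 : algebraMap O F (ro * s ^ 2) / x ^ 2 + wp 0 ∈ Fil (v.valuation F) 0 := by
    simpa using u2
  have x1 : x ∈ Fil (v.valuation F) 1 := mem_Fil_of_le (by omega)
  by_cases hr : ro ∈ v.asIdeal
  · refine gv_zero v 0 u3 ?_ fun hc => absurd hc (gv_cop h hr)
    rw [zero_mul, add_zero]
    exact Fil.mul ((gaA_one v ro).2 hr) (gaA_dlog v h.mul h.int hx) (by omega)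
  have r1 := (gaA_ord (F := F) v hr).2
  have z0 : z ∈ Fil (v.valuation F) 0 := Fil.of_wp (a := 0) (by
    rw [hz]
    exact add_mem (add_mem (Fil.mono x1 (by omega)) (gaA_int v a)) u2) (by omega) le_rfl
  obtain ⟨o, ho⟩ := gaA_near v z0
  have k : algebraMap O F (ro * s ^ 2) / x ^ 2 + wp 0 +
      (algebraMap O F a + wp (algebraMap O F o)) ∈ Fil (v.valuation F) 1 := by
    have e : algebraMap O F (ro * s ^ 2) / x ^ 2 + wp 0 +
        (algebraMap O F a + wp (algebraMap O F o)) = wp (z + algebraMap O F o) + x := by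
      rw [wp_add, hz, wp_zero]
      grind
    rw [e]
    exact add_mem (Fil.wp ho le_rfl (by omega)) x1
  have k' : 0 < ord (v.valuation F) (algebraMap O F (ro * s ^ 2) / x ^ 2) →
      a + o ^ 2 + o ∈ v.asIdeal := fun hp => by
    have := add_mem (mem_Fil_of_le (a := 1) (by omega) :
      algebraMap O F (ro * s ^ 2) / x ^ 2 ∈ Fil (v.valuation F) 1) k
    rw [wp_zero, add_zero, ← add_assoc, two_K, zero_add] at this
    exact (gv_wp v).2 this
  have hl := h.loc v ((gv_mem (F := F) v h.s_ne).2 (by omega)) hr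
  rcases Int.emod_two_eq_zero_or_one (ord (v.valuation F) x) with ev | od
  · have k2 : algebraMap O F ro * (D x / x + 0 * (D (algebraMap O F ro) / algebraMap O F ro)) ∈
        Fil (v.valuation F) 0 := by
      rw [zero_mul, add_zero]
      exact Fil.mul (gaA_int v ro) (gaA_even v h.mul h.int hx ev) le_rfl
    by_cases hc : c ∈ v.asIdeal
    · obtain ⟨o', ho'⟩ : ∃ o', a + o' ^ 2 + o' ∈ v.asIdeal := by
        rcases hu.eq_or_lt with e | e
        · rcases hl with ⟨-, l | l⟩ | ⟨l, -⟩
          · omega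
          · exact l
          · exact absurd hc l
        · exact ⟨o, k' e⟩
      refine gv_zero v (o + o') u3 k2 fun _ => ?_
      have e : algebraMap O F (ro * s ^ 2) / x ^ 2 + wp 0 + wp (algebraMap O F (o + o')) =
          algebraMap O F (ro * s ^ 2) / x ^ 2 + wp 0 +
            (algebraMap O F a + wp (algebraMap O F o)) +
            (algebraMap O F a + wp (algebraMap O F o')) := by
        rw [map_add, wp_add]
        grind
      rw [e]
      exact add_mem k ((gv_wp v).1 ho')
    · exact gv_zero v 0 u3 k2 fun hc' => absurd hc' hc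
  · have hc : c ∈ v.asIdeal := by
      rcases hl with ⟨l, -⟩ | ⟨-, l1, l2⟩
      · exact l
      · rcases hu.eq_or_lt with e | e
        · omega
        · exact absurd (k' e) (l2 o)
    refine gv_one v o u3 ?_ k
    rw [zero_mul, add_zero]
    exact gv_odd h v hx hc od

/-- The case of a pole of `b / x ^ 2`. -/
private lemma gv_high (h : Hyp D a ro s c) (hx : x ≠ 0)
    (hz : wp z = x + algebraMap O F a + algebraMap O F (ro * s ^ 2) / x ^ 2)
    (v : HeightOneSpectrum O) (hn : 0 < ord (v.valuation F) x)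
    (hu : ord (v.valuation F) (algebraMap O F (ro * s ^ 2) / x ^ 2) < 0) :
    Cnd D a ro s c x v z := by
  obtain ⟨u0, u1⟩ := gv_ordu h hx v
  have r0 : algebraMap O F ro ≠ 0 := gv_ne h.ro_ne
  have s0 : algebraMap O F s ≠ 0 := gv_ne h.s_ne
  have r1 := gv_nn (F := F) v h.ro_ne
  have r2 := gaA_bs v h.mul h.int h.cop_ro
  have x1 : x ∈ Fil (v.valuation F) 1 := mem_Fil_of_le (by omega)
  have xa : x + algebraMap O F a ∈ Fil (v.valuation F) 0 :=
    add_mem (Fil.mono x1 (by omega)) (gaA_int v a)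
  have ev := gaA_neg (hz.trans (add_comm _ _)) hu xa
  have r3 : ord (v.valuation F) (algebraMap O F ro) = 0 := by omega
  have hr : ro ∉ v.asIdeal := fun k => by
    have := (gv_mem (F := F) v h.ro_ne).1 k
    omega
  obtain ⟨w0, w1⟩ := ord_add (w := v.valuation F) u0 (Fil.mono xa (by omega))
  rw [add_comm, ← hz] at w0 w1
  have z1 : ord (v.valuation F) z < 0 := by
    by_contra k
    have := (mem_Fil_iff w0).1 (Fil.wp (mem_Fil_ord (w := v.valuation F) z) (c := 0)
      (by omega) (by omega))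
    omega
  have z2 := (ord_wp z1).2
  have z0 : z ≠ 0 := by
    rintro rfl
    simp at z1
  have e1 : algebraMap O F (ro * s ^ 2) / x ^ 2 + wp z = x + algebraMap O F a := by
    rw [hz]
    grind
  have y0 := mul_ne_zero hx z0
  have y1 : ord (v.valuation F) (x * z) = ord (v.valuation F) (algebraMap O F s) := by
    rw [ord_mul hx z0]
    omega
  have key : D x / x + z * (D (algebraMap O F ro) / algebraMap O F ro) + D (x * z) / (x * z) ∈
      Fil (v.valuation F) 0 := by
    have d1 : D (algebraMap O F (ro * s ^ 2) / x ^ 2) / (algebraMap O F (ro * s ^ 2) / x ^ 2) =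
        D (algebraMap O F ro) / algebraMap O F ro := by
      have e : algebraMap O F (ro * s ^ 2) / x ^ 2 =
          (algebraMap O F s / x) ^ 2 * algebraMap O F ro := by
        rw [map_mul, map_pow]
        ring
      rw [e, gaA_sq h.mul, mul_div_mul_left _ _ (pow_ne_zero 2 (div_ne_zero s0 hx))]
    have e2 : algebraMap O F (ro * s ^ 2) / x ^ 2 = z ^ 2 + z + (x + algebraMap O F a) := by
      rw [← e1, wp]
      grind
    have d2 : D (algebraMap O F (ro * s ^ 2) / x ^ 2) = D z + D (x + algebraMap O F a) := by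
      have := h.mul z z
      rw [two_K] at this
      rw [e2, h.add, h.add, sq, this, zero_add]
    rw [← d1, d2, gv_dlog h hx z0]
    generalize algebraMap O F (ro * s ^ 2) / x ^ 2 = m at u0 u1 hu ev w1 e2
    have e3 : D x / x + z * ((D z + D (x + algebraMap O F a)) / m) + (D x / x + D z / z) =
        (z * D (x + algebraMap O F a) + D z / z * (z + (x + algebraMap O F a))) / m := by
      rw [eq_div_iff u0]
      have t1 := div_mul_cancel₀ (D z + D (x + algebraMap O F a)) u0
      have t2 := div_mul_cancel₀ (D z) z0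
      generalize (D z + D (x + algebraMap O F a)) / m = p at t1
      generalize D z / z = q at t2
      grind
    rw [e3]
    refine Fil.div (a := ord (v.valuation F) z - 1) (add_mem ?_ ?_) (by omega)
    · exact Fil.mul (mem_Fil_ord z) (gaA_D v h.mul h.int xa) (by omega)
    · exact Fil.mul (gaA_dlog v h.mul h.int z0)
        (add_mem (mem_Fil_ord z) (Fil.mono xa z1.le)) (by omega)
  rcases Int.emod_two_eq_zero_or_one (ord (v.valuation F) (algebraMap O F s)) with es | os
  · have k2 : algebraMap O F ro * (D x / x + z * (D (algebraMap O F ro) / algebraMap O F ro)) ∈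
        Fil (v.valuation F) 0 := by
      have := add_mem key (gaA_even v h.mul h.int y0 (by omega))
      rw [add_assoc, two_K, add_zero] at this
      exact Fil.mul (gaA_int v ro) this le_rfl
    by_cases hc : c ∈ v.asIdeal
    · obtain ⟨o', ho'⟩ : ∃ o', a + o' ^ 2 + o' ∈ v.asIdeal := by
        rcases h.loc v (gv_cs h hc) hr with ⟨-, l | l⟩ | ⟨l, -⟩
        · omega
        · exact l
        · exact absurd hc l
      refine gv_zero v o' (e1 ▸ xa) k2 fun _ => ?_
      rw [e1, add_assoc]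
      exact add_mem x1 ((gv_wp v).1 ho')
    · exact gv_zero v 0 (e1 ▸ xa) k2 fun hc' => absurd hc' hc
  · have s1 := gv_nn (F := F) v h.s_ne
    have hc : c ∈ v.asIdeal := by
      rcases h.loc v ((gv_mem (F := F) v h.s_ne).2 (by omega)) hr with ⟨l, -⟩ | ⟨-, l, -⟩
      · exact l
      · omega
    refine gv_one v 0 (e1 ▸ xa) ?_ ?_
    · have := add_mem key (gv_odd h v y0 hc (by omega))
      rwa [add_assoc, ← add_assoc (D (x * z) / (x * z)), two_K, zero_add] at this
    · rw [e1, map_zero, wp_zero, add_zero, add_assoc, two_K, add_zero]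
      exact x1

theorem globV (h : Hyp D a ro s c) (hx : x ≠ 0)
    (hz : wp z = x + algebraMap O F a + algebraMap O F (ro * s ^ 2) / x ^ 2)
    (v : HeightOneSpectrum O) : Cnd D a ro s c x v 0 ∨ Cnd D a ro s c x v z := by
  rcases le_or_gt (ord (v.valuation F) x) 0 with hn | hn
  · exact Or.inl (gv_low h hx hz v hn)
  rcases le_or_gt 0 (ord (v.valuation F) (algebraMap O F (ro * s ^ 2) / x ^ 2)) with hu | hu
  · exact Or.inl (gv_mid h hx hz v hn hu)
  · exact Or.inr (gv_high h hx hz v hn hu)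

end Pool.Agent.Lib.MP_788af2_nt.AS
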