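import Pool.Agent.Lib.MP_788af2_nt.TT.HBase
import Pool.Agent.Lib.MP_788af2_nt.TT.Fix2
import Pool.Agent.Lib.MP_788af2_nt.TT.Poly

/-!
There are many fixed elements.
-/

set_option linter.unusedSectionVars false

namespace Pool.Agent.Lib.MP_788af2_nt.AS

open Polynomial WeierstrassCurve Pool.Agent.Lib.MP_a3f657_nt.Two

section hcaux

private lemma hc_card_hom {A B : Type} [AddCommGroup A] [AddCommGroup B] (f : A →+ B) :
    Nat.card A = Nat.card f.ker * Nat.card f.range := by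
  rw [← AddSubgroup.index_ker, AddSubgroup.card_mul_index]

private lemma hc_cnt {A B Z : Type} [AddCommGroup A] [Finite A] [AddCommGroup B] [Finite B]
    [AddCommGroup Z] (Ψ : A →+ B) (φ : A →+ Z) (n : ℕ)
    (hn : Nat.card {x : A // Ψ x = 0 ∧ φ x = 0} ≤ n) :
    Nat.card A ≤ Nat.card B * (n * Nat.card (Ψ.ker.map φ)) := by
  have h1 := hc_card_hom Ψ
  have h2 := hc_card_hom (φ.comp Ψ.ker.subtype)
  have h3 : (φ.comp Ψ.ker.subtype).range = Ψ.ker.map φ := by
    rw [AddMonoidHom.range_comp, AddSubgroup.range_subtype]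
  have h4 : Nat.card (φ.comp Ψ.ker.subtype).ker ≤ n := by
    refine le_trans (Nat.card_le_card_of_injective
      (β := {x : A // Ψ x = 0 ∧ φ x = 0}) (fun x => ⟨x.1.1, x.1.2, x.2⟩) ?_) hn
    intro x y e
    have e1 : x.1.1 = y.1.1 := Subtype.mk.inj e
    exact Subtype.ext (Subtype.ext e1)
  have h5 : Nat.card Ψ.range ≤ Nat.card B := AddSubgroup.card_le_card_addGroup _
  rw [h1, h2, h3, mul_comm]
  exact Nat.mul_le_mul h5 (Nat.mul_le_mul_right _ h4)

private lemma hc_coker {A : Type} [AddCommGroup A] [Finite A] (f : A →+ A) :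
    Nat.card (A ⧸ f.range) = Nat.card f.ker := by
  have h1 := hc_card_hom f
  have h2 := AddSubgroup.card_eq_card_quotient_mul_card_addSubgroup f.range
  have h3 : 0 < Nat.card f.range := Nat.card_pos
  rw [h1] at h2
  exact (Nat.eq_of_mul_eq_mul_right h3 h2).symm

variable {k : Type} [Field k] [Finite k] [CharP k 2]

private lemma hc_fin (N : ℕ) : Finite (degreeLT k N) :=
  Finite.of_equiv _ (degreeLTEquiv k N).toEquiv.symm

private lemma hc_card (N : ℕ) : Nat.card (degreeLT k N) = Nat.card k ^ N := by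
  rw [Nat.card_congr (degreeLTEquiv k N).toEquiv, Nat.card_fun, Nat.card_eq_fintype_card (α := Fin N),
    Fintype.card_fin]

private lemma hc_mem {N : ℕ} {p : k[X]} : p ∈ degreeLT k (N + 1) ↔ p.natDegree ≤ N := by
  rw [mem_degreeLT, ← Nat.lt_succ_iff]
  by_cases h : p = 0
  · simp [h]
  · exact (natDegree_lt_iff_degree_lt h).symm

private lemma hc_od_add (x y : k[X]) : od (x + y) = od x + od y := by
  refine (od_eq (g := ev x + ev y) ?_).2
  have h1 := ev_od x
  have h2 := ev_od y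
  rw [CharTwo.add_sq, CharTwo.add_sq]
  linear_combination h1 + h2

private lemma hc_od_deg (x : k[X]) : 2 * (od x).natDegree ≤ x.natDegree := by
  by_cases h : od x = 0
  · simp [h]
  · have := od_deg h
    omega

/-- The idempotents modulo `c`, with the quotient recorded. -/
private def hcId (c : k[X]) : AddSubgroup (k[X] × k[X]) where
  carrier := {x | x.1 ∈ degreeLT k c.natDegree ∧ x.1 ^ 2 + x.1 = c * x.2}
  zero_mem' := ⟨zero_mem _, by simp⟩
  add_mem' := by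
    rintro x y ⟨h1, h2⟩ ⟨h3, h4⟩
    refine ⟨add_mem h1 h3, ?_⟩
    rw [Prod.fst_add, Prod.snd_add, CharTwo.add_sq]
    linear_combination h2 + h4
  neg_mem' := by
    rintro x ⟨h1, h2⟩
    refine ⟨neg_mem h1, ?_⟩
    rw [Prod.fst_neg, Prod.snd_neg, CharTwo.neg_eq, CharTwo.neg_eq]
    exact h2

private lemma hcId_fin {c : k[X]} (hc : c ≠ 0) : Finite (hcId c) := by
  have := hc_fin (k := k) c.natDegree
  refine Finite.of_injective (β := degreeLT k c.natDegree) (fun x => ⟨x.1.1, x.2.1⟩) ?_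
  intro x y e
  have e1 : x.1.1 = y.1.1 := congrArg Subtype.val e
  refine Subtype.ext (Prod.ext e1 (mul_left_cancel₀ hc ?_))
  rw [← x.2.2, ← y.2.2, e1]

private lemma hcId_deg {c : k[X]} (x : hcId c) : x.1.1.natDegree ≤ c.natDegree :=
  natDegree_le_of_degree_le (mem_degreeLT.1 x.2.1).le

private lemma hcId_deg' {c : k[X]} (hc : c ≠ 0) (x : hcId c) :
    x.1.2.natDegree ≤ 2 * c.natDegree := by
  by_cases h : x.1.2 = 0
  · simp [h]
  have h1 := hcId_deg x
  have h2 : (x.1.1 ^ 2 + x.1.1).natDegree ≤ 2 * c.natDegree :=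
    natDegree_add_le_of_degree_le (natDegree_pow_le.trans (by omega)) (by omega)
  rw [x.2.2, natDegree_mul hc h] at h2
  omega

private lemma hc_rep {c : k[X]} (hc : c ≠ 0) (x : k[X] ⧸ Ideal.span {c}) :
    ∃ p ∈ degreeLT k c.natDegree, Ideal.Quotient.mk _ p = x := by
  obtain ⟨p, rfl⟩ := Ideal.Quotient.mk_surjective x
  refine ⟨p % c, ?_, ?_⟩
  · rw [mem_degreeLT, ← degree_eq_natDegree hc]
    exact degree_mod_lt p hc
  · rw [Ideal.Quotient.eq, Ideal.mem_span_singleton]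
    exact ⟨-(p / c), by linear_combination EuclideanDomain.div_add_mod p c⟩

private lemma hcQ_fin {c : k[X]} (hc : c ≠ 0) : Finite (k[X] ⧸ Ideal.span {c}) := by
  have := hc_fin (k := k) c.natDegree
  refine Finite.of_surjective (α := degreeLT k c.natDegree) (fun p => Ideal.Quotient.mk _ p.1) ?_
  intro x
  obtain ⟨p, hp, e⟩ := hc_rep hc x
  exact ⟨⟨p, hp⟩, e⟩

/-- The Artin-Schreier operator modulo `c`. -/
private noncomputable def hcW (c : k[X]) : (k[X] ⧸ Ideal.span {c}) →+ (k[X] ⧸ Ideal.span {c}) :=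
  AddMonoidHom.mk' (fun x => x ^ 2 + x) (by
    intro x y
    obtain ⟨p, rfl⟩ := Ideal.Quotient.mk_surjective x
    obtain ⟨p', rfl⟩ := Ideal.Quotient.mk_surjective y
    simp only [← map_add, ← map_pow]
    rw [CharTwo.add_sq, add_add_add_comm])

private lemma hcW_mk (c p : k[X]) :
    hcW c (Ideal.Quotient.mk _ p) = Ideal.Quotient.mk _ (p ^ 2 + p) := by
  rw [map_add, map_pow]
  rfl

private lemma hcW_card {c : k[X]} (hc : c ≠ 0) :
    Nat.card ((k[X] ⧸ Ideal.span {c}) ⧸ (hcW c).range) ≤ Nat.card (hcId c) := by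
  have := hcQ_fin hc
  have := hcId_fin hc
  rw [hc_coker]
  refine Nat.card_le_card_of_surjective (fun x => ⟨Ideal.Quotient.mk _ x.1.1, ?_⟩) ?_
  · rw [AddMonoidHom.mem_ker, hcW_mk, Ideal.Quotient.eq_zero_iff_mem, Ideal.mem_span_singleton]
    exact ⟨_, x.2.2⟩
  · rintro ⟨x, hx⟩
    obtain ⟨p, hp, rfl⟩ := hc_rep hc x
    rw [AddMonoidHom.mem_ker, hcW_mk, Ideal.Quotient.eq_zero_iff_mem,
      Ideal.mem_span_singleton] at hx
    obtain ⟨o, ho⟩ := hx
    exact ⟨⟨(p, o), hp, ho⟩, rfl⟩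

/-- The parameter space. -/
private abbrev hcX (c : k[X]) (N U : ℕ) : Type :=
  degreeLT k (N + 1) × degreeLT k (U + 1) × hcId c

/-- The first condition. -/
private noncomputable def hcP1 (ro c : k[X]) (N U : ℕ) : hcX c N U →+ k[X] :=
  AddMonoidHom.mk' (fun x => x.1.1 + od (x.1.1 * ro) + x.2.1.1 * derivative ro +
    ro * x.2.2.1.2 * derivative c) (by
    intro x y
    simp only [Prod.fst_add, Prod.snd_add, Submodule.coe_add, AddSubgroup.coe_add, add_mul,
      hc_od_add]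
    ring)

/-- The second condition. -/
private noncomputable def hcP2 (a c : k[X]) (N U : ℕ) :
    hcX c N U →+ ((k[X] ⧸ Ideal.span {c}) ⧸ (hcW c).range) :=
  (QuotientAddGroup.mk' _).comp ((Ideal.Quotient.mk (Ideal.span {c})).toAddMonoidHom.comp
    (AddMonoidHom.mk' (fun x => x.2.1.1 + x.2.2.1.1 * a) (by
      intro x y
      simp only [Prod.fst_add, Prod.snd_add, Submodule.coe_add, AddSubgroup.coe_add]
      ring)))

private lemma hcP2_spec {a c : k[X]} {N U : ℕ} {x : hcX c N U} (h : hcP2 a c N U x = 0) :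
    ∃ z o : k[X], x.2.1.1 + x.2.2.1.1 * a + (z ^ 2 + z) = c * o := by
  have h1 : Ideal.Quotient.mk (Ideal.span {c}) (x.2.1.1 + x.2.2.1.1 * a) ∈ (hcW c).range :=
    (QuotientAddGroup.eq_zero_iff _).1 h
  obtain ⟨y, hy⟩ := h1
  obtain ⟨z, rfl⟩ := Ideal.Quotient.mk_surjective y
  rw [hcW_mk, Ideal.Quotient.eq, Ideal.mem_span_singleton, CharTwo.sub_eq_add] at hy
  obtain ⟨o, ho⟩ := hy
  exact ⟨z, o, by rw [← ho]; ring⟩

private lemma hcP1_mem {ro c : k[X]} (hc : c ≠ 0) {U : ℕ}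
    (hU : ro.natDegree + 3 * c.natDegree ≤ U) (x : hcX c (U + (derivative ro).natDegree) U) :
    hcP1 ro c _ U x ∈ degreeLT k (U + (derivative ro).natDegree + 1) := by
  have h1 := hc_mem.1 x.1.2
  have h2 := hc_mem.1 x.2.1.2
  have h3 := hcId_deg' hc x.2.2
  have h4 := hc_od_deg (x.1.1 * ro)
  have h5 := natDegree_mul_le (p := x.1.1) (q := ro)
  have h6 := natDegree_mul_le (p := x.2.1.1) (q := derivative ro)
  have h7 := natDegree_mul_le (p := ro * x.2.2.1.2) (q := derivative c)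
  have h8 := natDegree_mul_le (p := ro) (q := x.2.2.1.2)
  have h9 := natDegree_derivative_le c
  rw [hc_mem]
  exact natDegree_add_le_of_degree_le (natDegree_add_le_of_degree_le
    (natDegree_add_le_of_degree_le h1 (by omega)) (by omega)) (by omega)

end hcaux

namespace Tw

variable {k : Type} [Field k] [Finite k] [CharP k 2] {I : Type} [Fintype I] [DecidableEq I]
  {β : I → k[X]} {L : Type} [Field L] [CharP L 2] (T : Tw β L)

variable {a b ro s c : k[X]}

/-- The element attached to a parameter. -/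
private noncomputable def hcY (ro c : k[X]) (N U : ℕ) : hcX c N U →+ L :=
  AddMonoidHom.mk' (fun x => T.p x.1.1 / T.p ro + T.p x.2.2.1.1 ^ 2 * T.fl c) (by
    intro x y
    simp only [Prod.fst_add, Prod.snd_add, Submodule.coe_add, AddSubgroup.coe_add, map_add]
    rw [CharTwo.add_sq]
    ring)

private lemma hcY_eq {N U : ℕ} (x : hcX c N U) :
    T.hcY ro c N U x = T.p x.1.1 / T.p ro + T.p x.2.2.1.1 ^ 2 * T.fl c := rfl

private lemma hcY_fix {N U : ℕ} (x : hcX c N U) : T.Fix (T.hcY ro c N U x) :=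
  ((T.fix_p _).div (T.fix_p _)).add (((T.fix_p _).pow 2).mul (T.fix_fl c))

private lemma hcY_c1 (hro : ro ≠ 0) {N U : ℕ} (x : hcX c N U) :
    T.P.c1 (T.hcY ro c N U x) = T.p (od (x.1.1 * ro)) / T.p ro + T.p x.2.2.1.1 * T.fl c := by
  have h0 := T.p_ne hro
  have e : T.p x.1.1 / T.p ro = (T.p ro)⁻¹ ^ 2 * T.p (x.1.1 * ro) := by
    rw [map_mul]
    field_simp
  rw [hcY_eq, PB.c1_add, e, PB.c1_sq_mul, PB.c1_sq_mul, c1_od, c1_fl, div_eq_inv_mul]

private lemma hcY_rel (hro : ro ≠ 0) (hc : c ≠ 0) {N U : ℕ} {x : hcX c N U}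
    (h : hcP1 ro c N U x = 0) :
    T.hcY ro c N U x = T.P.c1 (T.hcY ro c N U x) + T.p x.2.1.1 * T.fl ro := by
  have h0 := T.p_ne hro
  have h1 := T.p_ne hc
  have e1 : T.p x.1.1 + T.p (od (x.1.1 * ro)) + T.p x.2.1.1 * T.p (derivative ro) +
      T.p ro * T.p x.2.2.1.2 * T.p (derivative c) = 0 := by
    rw [← map_mul, ← map_mul, ← map_mul, ← map_add, ← map_add, ← map_add, ← map_zero T.p]
    exact congrArg T.p h
  have e2 : T.p x.2.2.1.1 ^ 2 + T.p x.2.2.1.1 = T.p c * T.p x.2.2.1.2 := by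
    rw [← map_mul, ← x.2.2.2.2, map_add, map_pow]
  rw [T.hcY_c1 hro, hcY_eq, fl, fl]
  generalize T.p x.1.1 = n at *
  generalize T.p (od (x.1.1 * ro)) = d at *
  generalize T.p x.2.1.1 = u at *
  generalize T.p x.2.2.1.1 = ρ at *
  generalize T.p x.2.2.1.2 = o at *
  generalize T.p ro = R at *
  generalize T.p c = C at *
  generalize T.p (derivative ro) = R' at *
  generalize T.p (derivative c) = C' at *
  have e3 : n = d + u * R' + R * o * C' := by grind
  have e4 : ρ ^ 2 = C * o + ρ := by grind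
  rw [e3, e4]
  field_simp
  grind

/-- The fixed element attached to a parameter. -/
private noncomputable def hcH (ro c : k[X]) (N U : ℕ) : hcX c N U →+ L :=
  AddMonoidHom.mk' (fun x => T.P.c0 (T.hcY ro c N U x) +
    T.P.c0 (T.fl ro)⁻¹ * T.P.c1 (T.hcY ro c N U x)) (by
    intro x y
    simp only [map_add, PB.c0_add, PB.c1_add]
    ring)

private lemma hcH_eq {N U : ℕ} (x : hcX c N U) : T.hcH ro c N U x =
    T.P.c0 (T.hcY ro c N U x) + T.P.c0 (T.fl ro)⁻¹ * T.P.c1 (T.hcY ro c N U x) := rfl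

private lemma hcH_sq (hd : derivative ro ≠ 0) {N U : ℕ} (x : hcX c N U) :
    T.hcH ro c N U x ^ 2 = T.P.c1 (T.hcY ro c N U x) ^ 2 / T.fl ro + T.hcY ro c N U x :=
  T.hat_sq hd _

private lemma hcH_fix {N U : ℕ} (x : hcX c N U) : T.Fix (T.hcH ro c N U x) := by
  have h1 : T.Fix (T.fl ro)⁻¹ := by
    rw [inv_eq_one_div]
    exact T.fix_one.div (T.fix_fl ro)
  exact (T.hcY_fix x).c0.add (h1.c0.mul (T.hcY_fix x).c1)

private lemma hcH_mem (hd : derivative ro ≠ 0) (hc : c ≠ 0) {N U : ℕ} {x : hcX c N U}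
    (h1 : hcP1 ro c N U x = 0) (h2 : hcP2 a c N U x = 0) : T.hcH ro c N U x ∈ T.Hs ro c a := by
  have hro : ro ≠ 0 := fun e => hd (by simp [e])
  obtain ⟨z, o, e⟩ := hcP2_spec h2
  refine ⟨T.P.c1 (T.hcY ro c N U x), T.p x.2.1.1, T.p x.2.2.1.1, T.p z, ?_, T.p_mem_O _,
    T.p_mem_O _, T.p_mem_O _, ?_, ⟨T.p x.2.2.1.2, T.p_mem_O _, ?_⟩, ⟨T.p o, T.p_mem_O _, ?_⟩⟩
  · rw [add_assoc, ← T.hcY_rel hro hc h1]
    exact T.hcH_sq hd x
  · rw [T.hcY_c1 hro, add_assoc, CharTwo.add_self_eq_zero, add_zero,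
      mul_div_cancel₀ _ (T.p_ne hro)]
    exact T.p_mem_O _
  · rw [← map_mul, ← x.2.2.2.2, map_add, map_pow, wp]
  · rw [← map_mul T.p c, ← e, wp]
    simp only [map_add, map_mul, map_pow]

private lemma hcH_le (hd : derivative ro ≠ 0) (hc : c ≠ 0) {M : ℕ}
    (hM : ro.natDegree + 3 * c.natDegree ≤ M)
    (x : hcX c (2 * M + 1 + (derivative ro).natDegree) (2 * M + 1)) :
    T.hcH ro c _ _ x ∈ T.d.Le M := by
  have hro : ro ≠ 0 := fun e => hd (by simp [e])
  have hlt : (derivative ro).natDegree < ro.natDegree :=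
    natDegree_derivative_lt fun e => hd (derivative_of_natDegree_zero e)
  have hlt' : ((derivative ro).natDegree : ℝ) + 1 ≤ ro.natDegree := by exact_mod_cast hlt
  have hM' : (ro.natDegree : ℝ) + 3 * c.natDegree ≤ M := by exact_mod_cast hM
  have hc0 : (0 : ℝ) ≤ c.natDegree := Nat.cast_nonneg _
  have hr0 : (0 : ℝ) ≤ (derivative ro).natDegree := Nat.cast_nonneg _
  have h1 : (x.1.1.natDegree : ℝ) ≤ 2 * M + 1 + (derivative ro).natDegree := by
    exact_mod_cast hc_mem.1 x.1.2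
  have h2 : (x.2.2.1.1.natDegree : ℝ) ≤ c.natDegree := by exact_mod_cast hcId_deg x.2.2
  have h3 : ((derivative c).natDegree : ℝ) ≤ c.natDegree := by
    exact_mod_cast (natDegree_derivative_le c).trans (Nat.sub_le _ _)
  have f1 : T.fl c ∈ T.d.Le 0 := DF.Le.div (T.p_mem _) (by rw [T.deg_p hc]; linarith)
  have f2 : T.d.deg (T.fl ro) = (derivative ro).natDegree - ro.natDegree := by
    rw [fl, DF.deg_div (T.p_ne hd) (T.p_ne hro), T.deg_p hd, T.deg_p hro]
  have y1 : T.hcY ro c _ _ x ∈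
      T.d.Le (2 * M + 1 + (derivative ro).natDegree - ro.natDegree) := by
    rw [hcY_eq]
    refine add_mem (DF.Le.div (T.p_mem _) (by rw [T.deg_p hro]; linarith)) ?_
    exact DF.Le.mul (DF.Le.sq (T.p_mem _) le_rfl) f1 (by linarith)
  have y2 := T.c1_le' (T.hcY_fix x).fx y1
  have g0 : gam β ∅ = 0 := by simp [gam]
  rw [g0, add_zero] at y2
  refine DF.Le.of_sq (r := 2 * M) ?_ (by linarith)
  rw [T.hcH_sq hd]
  exact add_mem (DF.Le.div (DF.Le.sq y2 le_rfl) (by rw [f2]; linarith))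
    (DF.Le.mono y1 (by linarith))

private lemma hc_zero (hA : Adm2 b ro s c a) {N U : ℕ} {x : hcX c N U}
    (h1 : hcP1 ro c N U x = 0) (h2 : T.hcH ro c N U x = 0)
    (h3 : T.P.c1 (T.hcY ro c N U x) = 0) : x = 0 := by
  have hd := hA.d_ne
  have hro : ro ≠ 0 := fun e => hd (by simp [e])
  have hc : c ≠ 0 := fun e => hA.s_ne (zero_dvd_iff.1 (e ▸ hA.dvd))
  have e1 := T.hcH_sq hd x
  rw [h2, h3] at e1
  have e2 : T.hcY ro c N U x = 0 := by simpa using e1.symm
  have e3 := T.hcY_rel hro hc h1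
  rw [h3, e2, zero_add] at e3
  have e4 : x.2.1.1 = 0 := by
    by_contra hne
    exact mul_ne_zero (T.p_ne hne) (T.fl_ne hd) e3.symm
  have e5 : x.1.1 * c + x.2.2.1.1 ^ 2 * (derivative c * ro) = 0 := by
    apply T.p_inj
    have h0 := T.p_ne hro
    have h0' := T.p_ne hc
    rw [hcY_eq, fl] at e2
    field_simp at e2
    simp only [map_add, map_mul, map_pow, map_zero]
    linear_combination e2
  have e6 : c ∣ x.2.2.1.1 ^ 2 := by
    refine (hA.cop_c.mul_right hA.cop.symm).dvd_of_dvd_mul_right ⟨-x.1.1, ?_⟩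
    linear_combination e5
  have e7 : c ∣ x.2.2.1.1 := (dvd_add_right e6).1 ⟨_, x.2.2.2.2⟩
  have e8 : x.2.2.1.1 = 0 := by
    refine eq_zero_of_dvd_of_degree_lt e7 ?_
    rw [degree_eq_natDegree hc]
    exact mem_degreeLT.1 x.2.2.2.1
  have e9 : x.2.2.1.2 = 0 := by
    have := x.2.2.2.2
    rw [e8] at this
    simpa [hc] using this.symm
  have e10 : x.1.1 = 0 := by
    rw [e8] at e5
    simpa [hc] using e5
  exact Prod.ext (Subtype.ext e10) (Prod.ext (Subtype.ext e4) (Subtype.ext (Prod.ext e8 e9)))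

private lemma hc_poly (hd : derivative ro ≠ 0) (hc : c ≠ 0) {N M : ℕ} {x : hcX c N (2 * M + 1)}
    (h1 : hcP1 ro c N _ x = 0) (h2 : T.hcH ro c N _ x = 0) :
    ∃ z : degreeLT k (M + 1), T.P.c1 (T.hcY ro c N _ x) = T.p z.1 * T.fl ro := by
  have hro : ro ≠ 0 := fun e => hd (by simp [e])
  have h0 := T.fl_ne hd
  have e1 := T.hcH_sq hd x
  have e2 := T.hcY_rel hro hc h1
  have hF := (T.hcY_fix (ro := ro) x).c1
  rw [h2] at e1
  generalize T.P.c1 (T.hcY ro c N _ x) = F at *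
  have e3 : wp (F / T.fl ro) = T.p x.2.1.1 := by
    rw [e2] at e1
    unfold wp
    field_simp
    field_simp at e1
    grind
  obtain ⟨z, hz⟩ := T.fix_O (T.of_wp_O (e3 ▸ T.p_mem_O _)) (hF.div (T.fix_fl ro))
  have e4 : z ^ 2 + z = x.2.1.1 := by
    apply T.p_inj
    rw [← e3, hz, wp, map_add, map_pow]
  have e5 : z.natDegree ≤ M := by
    have h3 := hc_mem.1 x.2.1.2
    rw [← e4] at h3
    by_contra hlt
    rw [natDegree_add_eq_left_of_natDegree_lt (by rw [natDegree_pow]; omega), natDegree_pow] at h3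
    omega
  exact ⟨⟨z, hc_mem.2 e5⟩, by rw [← hz, div_mul_cancel₀ _ h0]⟩

theorem Hs_count (hA : Adm2 b ro s c a) (M₀ : ℕ) : ∃ M : ℕ, M₀ ≤ M ∧ ∃ S : Finset L,
    Nat.card k ^ (M + 1) ≤ S.card ∧ ∀ h ∈ S, h ∈ T.Hs ro c a ∧ T.Fix h ∧ h ∈ T.d.Le M := by
  have hd := hA.d_ne
  have hc : c ≠ 0 := fun e => hA.s_ne (zero_dvd_iff.1 (e ▸ hA.dvd))
  obtain ⟨M, hM0, hM⟩ : ∃ M, M₀ ≤ M ∧ ro.natDegree + 3 * c.natDegree ≤ M :=
    ⟨_, le_max_left _ _, le_max_right _ _⟩
  refine ⟨M, hM0, ?_⟩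
  have i1 := fun N => hc_fin (k := k) N
  have i2 := hcId_fin hc
  have i3 := hcQ_fin hc
  let Ψ := ((hcP1 ro c (2 * M + 1 + (derivative ro).natDegree) (2 * M + 1)).codRestrict _
    (hcP1_mem hc (by omega))).prod (hcP2 a c _ _)
  have hΨ : ∀ x, Ψ x = 0 → hcP1 ro c _ _ x = 0 ∧ hcP2 a c _ _ x = 0 := fun x hx =>
    ⟨congrArg (fun y => y.1.1) hx, congrArg (fun y => y.2) hx⟩
  have hK : Nat.card {x // Ψ x = 0 ∧ T.hcH ro c _ _ x = 0} ≤ Nat.card k ^ (M + 1) := by
    rw [← hc_card]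
    choose g hg using fun x : {x // Ψ x = 0 ∧ T.hcH ro c _ _ x = 0} =>
      T.hc_poly hd hc (hΨ _ x.2.1).1 x.2.2
    refine Nat.card_le_card_of_injective g fun x y e => ?_
    refine Subtype.ext (sub_eq_zero.1 (T.hc_zero hA ?_ ?_ ?_))
    · rw [map_sub, (hΨ _ x.2.1).1, (hΨ _ y.2.1).1, sub_zero]
    · rw [map_sub, x.2.2, y.2.2, sub_zero]
    · rw [map_sub, CharTwo.sub_eq_add, PB.c1_add, hg x, hg y, e, CharTwo.add_self_eq_zero]
  have h1 := hc_cnt Ψ (T.hcH ro c _ _) _ hK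
  have hfin : ((Ψ.ker.map (T.hcH ro c _ _) : AddSubgroup L) : Set L).Finite := by
    rw [AddSubgroup.coe_map]
    exact (Set.toFinite _).image _
  refine ⟨hfin.toFinset, ?_, ?_⟩
  · have h2 : hfin.toFinset.card = Nat.card (Ψ.ker.map (T.hcH ro c _ _)) := by
      rw [← Set.ncard_eq_toFinset_card _ hfin]
      rfl
    have h3 := hcW_card hc
    have h4 : 0 < Nat.card (hcId c) := Nat.card_pos
    have h5 : 0 < Nat.card k := Nat.card_pos
    rw [Nat.card_prod, Nat.card_prod, Nat.card_prod, hc_card, hc_card, ← h2, mul_assoc] at h1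
    have h6 := Nat.le_of_mul_le_mul_left h1 (pow_pos h5 _)
    have h7 := h6.trans (Nat.mul_le_mul_right _ h3)
    rw [mul_comm] at h7
    have h8 := Nat.le_of_mul_le_mul_left h7 h4
    rw [show Nat.card k ^ (2 * M + 1 + 1) = Nat.card k ^ (M + 1) * Nat.card k ^ (M + 1) by ring]
      at h8
    exact Nat.le_of_mul_le_mul_left h8 (pow_pos h5 _)
  · intro h hh
    obtain ⟨x, hx, rfl⟩ := AddSubgroup.mem_map.1 (hfin.mem_toFinset.1 hh)
    obtain ⟨e1, e2⟩ := hΨ x hx
    exact ⟨T.hcH_mem hd hc e1 e2, T.hcH_fix x, T.hcH_le hd hc hM x⟩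

end Tw

end Pool.Agent.Lib.MP_788af2_nt.AS
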