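import Pool.Agent.Lib.MP_788af2_nt.TT.HRep
import Pool.Agent.Lib.MP_788af2_nt.TT.Fix2

/-!
Small fixed elements vanish.
-/

set_option linter.unusedSectionVars false

namespace Pool.Agent.Lib.MP_788af2_nt.AS

open Polynomial WeierstrassCurve Pool.Agent.Lib.MP_a3f657_nt.Two

namespace Tw

variable {k : Type} [Field k] [Finite k] [CharP k 2] {I : Type} [Fintype I] [DecidableEq I]
  {β : I → k[X]} {L : Type} [Field L] [CharP L 2] (T : Tw β L)

variable {a b ro s c : k[X]} {h : L} {K : ℕ}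

private lemma hdisc_deg_fl {q : k[X]} (hq : derivative q ≠ 0) :
    T.d.deg (T.fl q) = ((derivative q).natDegree : ℝ) - q.natDegree := by
  have h0 : q ≠ 0 := by rintro rfl; simp at hq
  rw [fl, DF.deg_div (T.p_ne hq) (T.p_ne h0), T.deg_p hq, T.deg_p h0]

private lemma hdisc_lt {q : k[X]} (hq : derivative q ≠ 0) :
    (derivative q).natDegree + 1 ≤ q.natDegree :=
  natDegree_derivative_lt fun e => hq (derivative_of_natDegree_zero e)

private lemma hdisc_log {r n : k[X]} {F : L} (hr : r.Separable) (hF : T.P.c1 F = F)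
    (e : T.p r * F = T.p n) : ∃ d, d ∣ r ∧ F = T.fl d := by
  have h0 : r ≠ 0 := hr.ne_zero
  have hD : T.P.D F = F ^ 2 := by rw [PB.D, hF]
  have e1 := congrArg T.P.D e
  rw [PB.D_mul, hD, D_p, D_p] at e1
  have e2 : n * (n + derivative r) = r * derivative n := by
    refine T.p_inj ?_
    rw [map_mul, map_add, map_mul, ← e1, ← e]
    ring
  obtain ⟨d2, d, h2, h1, hd⟩ := exists_dvd_and_dvd_of_dvd_mul (Dvd.intro _ e2.symm)
  have hc : IsCoprime d2 d := (hd ▸ hr).isCoprime
  have hd0 : d ≠ 0 := by rintro rfl; exact h0 (by rw [hd, mul_zero])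
  have h3 : r ∣ n + derivative d * d2 := by
    rw [hd]
    refine hc.mul_dvd (dvd_add h2 (Dvd.intro_left _ rfl)) ?_
    have : n + derivative d * d2 = n + derivative r - d * derivative d2 := by
      rw [hd, derivative_mul]; ring
    rw [this]
    exact dvd_sub h1 (Dvd.intro _ rfl)
  obtain ⟨m, hm⟩ := h3
  have e3 : F + T.fl d = T.p m := by
    refine mul_left_cancel₀ (T.p_ne h0) ?_
    rw [← map_mul, ← hm, mul_add, e, map_add, map_mul, ← T.p_mul_fl hd0, hd, map_mul]
    ring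
  have e4 : T.p m = 0 := T.log_O (T.p_mem_O m) (by rw [← e3, PB.c1_add, hF, c1_fl])
  refine ⟨d, Dvd.intro_left _ hd.symm, ?_⟩
  rw [e4] at e3
  grind

theorem Hs_disc (hA : Adm2 b ro s c a) (hβ : ∀ i, s ∣ β i) (hN : NT b K) (hh : h ∈ T.Hs ro c a)
    (hf : T.Fix h) (hs : h ∈ T.d.Le (-K)) : h = 0 := by
  obtain ⟨n, ρ, u, -, e, -, -⟩ := T.krep hA hβ hh hf
  have hd := hA.d_ne
  have hro : ro ≠ 0 := by rintro rfl; simp at hd
  have hc : c ≠ 0 := ne_zero_of_dvd_ne_zero hA.s_ne hA.dvd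
  have hfb := T.fl_ne hd
  have h1 : (ro.natDegree : ℝ) ≤ (derivative ro).natDegree + K := by
    exact_mod_cast hN ro (Dvd.intro _ hA.eq.symm) hd
  have h2 : ((derivative ro).natDegree : ℝ) + 1 ≤ ro.natDegree := by
    exact_mod_cast hdisc_lt hd
  have hdeg := T.hdisc_deg_fl hd
  have h3 : h ^ 2 / T.fl ro ∈ T.d.Le (-K) :=
    DF.Le.div (DF.Le.sq hs le_rfl) (by rw [hdeg]; linarith)
  set F := T.p n + T.p ρ * T.fl c with hF
  have hFf : T.Fix F := (T.fix_p n).add ((T.fix_p ρ).mul (T.fix_fl c))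
  obtain ⟨z, hz⟩ := T.fix_pol (hFf.div (T.fix_fl ro))
  set w := F / T.fl ro + T.p z with hw
  have e0 := T.p_mul_fl hro
  have e1 : T.p (ro * u + (z ^ 2 + z)) = wp w + h ^ 2 / T.fl ro := by
    rw [e, hw, wp_add, map_mul T.p u, ← e0]
    simp only [wp, map_add, map_mul, map_pow]
    field_simp
    grind
  have e2 : ro * u + (z ^ 2 + z) = 0 := by
    refine T.p_small (r := -1) (by norm_num) ?_
    rw [e1]
    exact add_mem (DF.Le.wp_mem hz (by norm_num) le_rfl) (DF.Le.mono h3 (by linarith))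
  have e3 : wp w = h ^ 2 / T.fl ro := by
    rw [e2, map_zero] at e1
    grind
  have h4 : w ∈ T.d.Le (-K) := T.of_wp_small hz (by norm_num) (e3 ▸ h3)
  have e4 : h ^ 2 = (w * T.fl ro) ^ 2 / T.fl ro + w * T.fl ro := by
    rw [(div_eq_iff hfb).1 e3.symm, wp]
    field_simp
  have hsep : (ro * c).Separable := Separable.mul hA.cop_ro hA.cop_c hA.cop
  have e5 : T.p (ro * c) * (w * T.fl ro) =
      T.p (n * (ro * c) + ρ * derivative c * ro + z * derivative ro * c) := by
    simp only [map_add, map_mul]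
    rw [← e0, ← T.p_mul_fl hc, hw, hF]
    field_simp
  obtain ⟨d, hd1, hd2⟩ := T.hdisc_log hsep (T.hat_eq hd e4).1 e5
  have hd3 : d ∣ b := by
    refine hd1.trans ?_
    rw [hA.eq]
    exact mul_dvd_mul_left _ (hA.dvd.trans (dvd_pow_self s two_ne_zero))
  have h5 : derivative d = 0 := by
    by_contra h5
    have h6 : (d.natDegree : ℝ) ≤ (derivative d).natDegree + K := by
      exact_mod_cast hN d hd3 h5
    have h7 := T.fl_ne h5
    have h8 : w ≠ 0 := by
      rintro h8
      rw [h8, zero_mul] at hd2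
      exact h7 hd2.symm
    have h9 := T.d.deg_mul h8 hfb
    rw [hd2, T.hdisc_deg_fl h5, hdeg] at h9
    rw [DF.mem_Le_iff h8] at h4
    linarith
  rw [hd2, fl, fl, h5, map_zero, zero_div] at e4
  simpa using e4

end Tw

end Pool.Agent.Lib.MP_788af2_nt.AS
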