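import Pool.Agent.Lib.MP_788af2_nt.TT.HBase

/-!
The group at the finite places is isotropic.
-/

set_option linter.unusedSectionVars false

namespace Pool.Agent.Lib.MP_788af2_nt.AS

open Polynomial WeierstrassCurve Pool.Agent.Lib.MP_a3f657_nt.Two

namespace Tw

variable {k : Type} [Field k] [Finite k] [CharP k 2] {I : Type} [Fintype I] [DecidableEq I]
  {β : I → k[X]} {L : Type} [Field L] [CharP L 2] (T : Tw β L)

variable {a b ro s c : k[X]} {h h' : L}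

/-- The correction term of the pairing. -/
private noncomputable def hisoW (ro c j : k[X]) (y y' Z : L) : L :=
  y * y' * (T.fl ro)⁻¹ + y * y' * (T.p ro * T.p c ^ 2 * T.p j) + Z ^ 2 * T.fl c

private lemma hiso_ro (hA : Adm2 b ro s c a) : ro ≠ 0 := fun e => hA.d_ne (by simp [e])

private lemma hiso_c (hA : Adm2 b ro s c a) : c ≠ 0 := fun e =>
  hA.s_ne (by simpa [e] using hA.dvd)

private lemma hiso_j (hA : Adm2 b ro s c a) :
    ∃ m j : k[X], m * ro + j * (c ^ 2 * derivative ro) = 1 :=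
  (IsCoprime.pow_right hA.cop).mul_right hA.cop_ro

private lemma hiso_F (hA : Adm2 b ro s c a) {F u ρ z : L} (hR : T.Rep ro c a h F u ρ z) :
    T.p c * T.p ro * F ∈ T.O := by
  have e : T.p c * T.p ro * F =
      T.p c * (T.p ro * (F + ρ * T.fl c)) + T.p ro * ρ * T.p (derivative c) := by
    rw [← T.p_mul_fl (hiso_c hA)]
    grind
  rw [e]
  exact add_mem (mul_mem (T.p_mem_O _) hR.F_O)
    (mul_mem (mul_mem (T.p_mem_O _) hR.ρ_O) (T.p_mem_O _))

private lemma hiso_Fh (hA : Adm2 b ro s c a) {F u ρ z : L} (hR : T.Rep ro c a h F u ρ z) :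
    T.p c * T.p ro * (F + u * T.fl ro) ∈ T.O := by
  have e : T.p c * T.p ro * (F + u * T.fl ro) =
      T.p c * T.p ro * F + T.p c * u * T.p (derivative ro) := by
    rw [← T.p_mul_fl (hiso_ro hA)]
    ring
  rw [e]
  exact add_mem (T.hiso_F hA hR) (mul_mem (mul_mem (T.p_mem_O _) hR.u_O) (T.p_mem_O _))

private lemma hiso_inv (hA : Adm2 b ro s c a) : T.p (derivative ro) * (T.fl ro)⁻¹ = T.p ro := by
  rw [← T.p_mul_fl (hiso_ro hA), mul_assoc, mul_inv_cancel₀ (T.fl_ne hA.d_ne), mul_one]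

private lemma hiso_h (hA : Adm2 b ro s c a) {F u ρ z : L} (hR : T.Rep ro c a h F u ρ z) :
    T.p c * T.p (derivative ro) * h ∈ T.O := by
  refine T.O_of_sq hA.cop_ro ?_
  have e : T.p ro * (T.p c * T.p (derivative ro) * h) ^ 2 =
      T.p (derivative ro) * (T.p c * T.p ro * F) ^ 2 +
        T.p c * T.p (derivative ro) ^ 2 * (T.p c * T.p ro * (F + u * T.fl ro)) := by
    have e1 := T.hiso_inv hA
    rw [mul_pow, hR.sq, div_eq_mul_inv]
    linear_combination (T.p ro * T.p c ^ 2 * T.p (derivative ro) * F ^ 2) * e1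
  rw [e]
  exact add_mem (mul_mem (T.p_mem_O _) (pow_mem (T.hiso_F hA hR) 2))
    (mul_mem (mul_mem (T.p_mem_O _) (pow_mem (T.p_mem_O _) 2)) (T.hiso_Fh hA hR))

private lemma hiso_om (hA : Adm2 b ro s c a) {F u ρ z F' u' ρ' z' : L}
    (hR : T.Rep ro c a h F u ρ z) (hR' : T.Rep ro c a h' F' u' ρ' z') :
    h * h' + (F + u * T.fl ro) * (F' + u' * T.fl ro) * (T.fl ro)⁻¹ +
      T.P.c1 ((F + u * T.fl ro) * (F' + u' * T.fl ro) * (T.fl ro)⁻¹) =
      F * u' + F' * u + u * u' * T.fl ro := by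
  obtain ⟨e1, e2⟩ := T.hat_eq hA.d_ne (y := F + u * T.fl ro) (hR.sq.trans (add_assoc _ _ _))
  obtain ⟨e3, e4⟩ := T.hat_eq hA.d_ne (y := F' + u' * T.fl ro) (hR'.sq.trans (add_assoc _ _ _))
  have e5 := T.P.spec (T.fl ro)⁻¹
  have e6 := T.c1_inv_fl hA.d_ne
  have e7 := mul_inv_cancel₀ (T.fl_ne hA.d_ne)
  rw [PB.c1_mul, PB.c0_mul, PB.c1_mul, e6, e1, e3]
  rw [e1] at e2
  rw [e3] at e4
  rw [e6] at e5
  generalize T.P.c0 (F + u * T.fl ro) = y at *
  generalize T.P.c0 (F' + u' * T.fl ro) = y' at *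
  generalize T.P.c0 (T.fl ro)⁻¹ = k0 at *
  generalize (T.fl ro)⁻¹ = g at *
  generalize T.fl ro = f at *
  have h2 : (2 : L) = 0 := CharTwo.two_eq_zero
  rw [e2, e4]
  linear_combination (F * F') * e5 + (F * u' + F' * u + u * u' * f) * e7 +
    (y * y' + y * k0 * F' + k0 * F * y' + k0 ^ 2 * F * F' + T.P.b * F * F') * h2

private lemma hiso_key (hA : Adm2 b ro s c a) {F u ρ z F' u' ρ' z' : L}
    (hR : T.Rep ro c a h F u ρ z) (hR' : T.Rep ro c a h' F' u' ρ' z') {m j : k[X]}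
    (hj : m * ro + j * (c ^ 2 * derivative ro) = 1) {W : L}
    (hW : W = T.hisoW ro c j (F + u * T.fl ro) (F' + u' * T.fl ro) (z * ρ' + ρ * z')) :
    h * h' + W + T.P.c1 W ∈ T.O := by
  have h2 : (2 : L) = 0 := CharTwo.two_eq_zero
  have eo := T.hiso_om hA hR hR'
  have f1 := T.hiso_Fh hA hR
  have f2 := T.hiso_Fh hA hR'
  have er := T.p_mul_fl (hiso_ro hA)
  have ec := T.p_mul_fl (hiso_c hA)
  have ei := T.hiso_inv hA
  have hZ : z * ρ' + ρ * z' ∈ T.O :=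
    add_mem (mul_mem hR.z_O hR'.ρ_O) (mul_mem hR.ρ_O hR'.z_O)
  have ej : T.p m * T.p ro + T.p j * (T.p c ^ 2 * T.p (derivative ro)) = 1 := by
    simpa using congrArg T.p hj
  unfold hisoW at hW
  set y := F + u * T.fl ro with hy
  set y' := F' + u' * T.fl ro with hy'
  set Z := z * ρ' + ρ * z' with hZe
  set Om := y * y' * (T.fl ro)⁻¹ with hOm
  set Ga := y * y' * (T.p ro * T.p c ^ 2 * T.p j) with hGa
  have c1W : T.P.c1 W = T.P.c1 Om + T.P.c1 Ga + Z * T.fl c := by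
    rw [hW, PB.c1_add, PB.c1_add, PB.c1_sq_mul, T.c1_fl]
  refine T.O_of_cop (q := ro) (q' := (c * derivative ro) ^ 2)
    (IsCoprime.pow_right (hA.cop.mul_right hA.cop_ro)) ?_ ?_
  · obtain ⟨o1, ho1, e1⟩ := hR.idem
    obtain ⟨o2, ho2, e2⟩ := hR.cong
    obtain ⟨o3, ho3, e3⟩ := hR'.idem
    obtain ⟨o4, ho4, e4⟩ := hR'.cong
    have g1 : T.p ro * Ga ∈ T.O := by
      have : T.p ro * Ga = (T.p c * T.p ro * y) * (T.p c * T.p ro * y') * T.p j := by
        rw [hGa]; ring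
      rw [this]
      exact mul_mem (mul_mem f1 f2) (T.p_mem_O _)
    have g2 : T.p ro * T.P.c1 Ga ∈ T.O := by
      rw [← PB.c1_sq_mul, sq, mul_assoc]
      exact T.c1_O (mul_mem (T.p_mem_O _) g1)
    have e5 : ρ * u' + ρ' * u + Z ^ 2 + Z =
        T.p c * (ρ * o4 + ρ' * o2 + z ^ 2 * o3 + z' ^ 2 * o1) := by
      unfold wp at e1 e2 e3 e4
      rw [hZe]
      linear_combination ρ * e4 + ρ' * e2 + z ^ 2 * e3 + z' ^ 2 * e1 +
        (z * ρ' * ρ * z' - ρ * ρ' * T.p a - ρ * z' ^ 2 - ρ' * z ^ 2) * h2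
    have e6 : T.p ro * (h * h' + W + T.P.c1 W) =
        (T.p ro * (F + ρ * T.fl c)) * u' + (T.p ro * (F' + ρ' * T.fl c)) * u +
          u * u' * T.p (derivative ro) +
          T.p ro * T.p (derivative c) * (ρ * o4 + ρ' * o2 + z ^ 2 * o3 + z' ^ 2 * o1) +
          T.p ro * Ga + T.p ro * T.P.c1 Ga := by
      rw [c1W, hW, ← er, ← ec]
      linear_combination T.p ro * eo + T.p ro * T.fl c * e5 -
        (T.p ro * T.fl c * (ρ * u' + ρ' * u)) * h2
    rw [e6]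
    refine add_mem (add_mem (add_mem (add_mem (add_mem (mul_mem hR.F_O hR'.u_O)
      (mul_mem hR'.F_O hR.u_O)) (mul_mem (mul_mem hR.u_O hR'.u_O) (T.p_mem_O _)))
      (mul_mem (mul_mem (T.p_mem_O _) (T.p_mem_O _)) ?_)) g1) g2
    exact add_mem (add_mem (add_mem (mul_mem hR.ρ_O ho4) (mul_mem hR'.ρ_O ho2))
      (mul_mem (pow_mem hR.z_O 2) ho3)) (mul_mem (pow_mem hR'.z_O 2) ho1)
  · have g1 : (T.p c * T.p (derivative ro)) ^ 2 * (Om + Ga) ∈ T.O := by
      have : (T.p c * T.p (derivative ro)) ^ 2 * (Om + Ga) =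
          T.p (derivative ro) * T.p m * ((T.p c * T.p ro * y) * (T.p c * T.p ro * y')) := by
        rw [hOm, hGa]
        linear_combination (T.p c ^ 2 * T.p (derivative ro) * y * y') * ei -
          (T.p c ^ 2 * T.p (derivative ro) * y * y' * T.p ro) * ej +
          (T.p c ^ 4 * T.p (derivative ro) ^ 2 * y * y' * T.p ro * T.p j) * h2
      rw [this]
      exact mul_mem (mul_mem (T.p_mem_O _) (T.p_mem_O _)) (mul_mem f1 f2)
    have g2 : T.p c * T.p (derivative ro) * T.P.c1 (Om + Ga) ∈ T.O := by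
      rw [← PB.c1_sq_mul]
      exact T.c1_O g1
    have e6 : T.p ((c * derivative ro) ^ 2) * (h * h' + W + T.P.c1 W) =
        (T.p c * T.p (derivative ro) * h) * (T.p c * T.p (derivative ro) * h') +
          (T.p c * T.p (derivative ro)) ^ 2 * (Om + Ga) +
          T.p c * T.p (derivative ro) * (T.p c * T.p (derivative ro) * T.P.c1 (Om + Ga)) +
          T.p c * T.p (derivative ro) ^ 2 * T.p (derivative c) * (Z ^ 2 + Z) := by
      rw [c1W, hW, ← ec, map_pow, map_mul, PB.c1_add]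
      ring
    rw [e6]
    exact add_mem (add_mem (add_mem (mul_mem (T.hiso_h hA hR) (T.hiso_h hA hR')) g1)
      (mul_mem (mul_mem (T.p_mem_O _) (T.p_mem_O _)) g2))
      (mul_mem (mul_mem (mul_mem (T.p_mem_O _) (pow_mem (T.p_mem_O _) 2)) (T.p_mem_O _))
        (add_mem (pow_mem hZ 2) hZ))

theorem Hs_iso (hA : Adm2 b ro s c a) (hh : h ∈ T.Hs ro c a) (hh' : h' ∈ T.Hs ro c a) :
    T.R (h * h') = 0 := by
  obtain ⟨F, u, ρ, z, hR⟩ := hh
  obtain ⟨F', u', ρ', z', hR'⟩ := hh'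
  obtain ⟨m, j, hj⟩ := hiso_j hA
  have := T.R_O (T.hiso_key hA hR hR' hj rfl)
  rwa [R_add, R_add, R_c1, add_assoc, CharTwo.add_self_eq_zero, add_zero] at this

theorem Hs_iso' (hA : Adm2 b ro s c a) (hh : h ∈ T.Hs ro c a) (ξ g : G I) (hg : ξ ⬝ᵥ g = 1) :
    T.R (comb T.θ ξ * (h * T.σ g h)) = 0 := by
  obtain ⟨F, u, ρ, z, hR⟩ := hh
  obtain ⟨m, j, hj⟩ := hiso_j hA
  have hg0 : g ≠ 0 := by
    rintro rfl
    simp at hg
  obtain ⟨W, hW⟩ : ∃ W, W = T.hisoW ro c j (F + u * T.fl ro) (T.σ g F + T.σ g u * T.fl ro)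
    (z * T.σ g ρ + ρ * T.σ g z) := ⟨_, rfl⟩
  have hx := T.hiso_key hA hR (hR.σ g) hj hW
  have hσ : T.σ g W = W := by
    rw [hW]
    simp only [hisoW, map_add, map_mul, map_pow, map_inv₀, σ_σ, σ_p, T.fix_fl ro g, T.fix_fl c g]
    ring
  have hθ : comb T.θ ξ ∈ T.O := sum_mem fun i _ => mul_mem (T.zc_mem_O _) (T.θ_mem_O i)
  obtain ⟨e0, e1⟩ := T.P.uniq (T.comb_spec ξ)
  have r1 := T.R_O (mul_mem hθ hx)
  have r2 := T.R_c1 (comb T.θ ξ * W)
  have r3 : T.R (T.p (comb β ξ) * T.P.c0 W) = 0 := by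
    rw [← T.R_zero]
    refine T.R_congr ?_
    rw [T.tr_of_inv hg0 (by rw [map_mul, σ_p, ← σ_c0, hσ]), T.tr_of_inv hg0 (map_zero _)]
  rw [PB.c1_mul, e0, e1, R_add, r3, add_zero] at r2
  rwa [mul_add, mul_add, R_add, R_add, r2, add_assoc, CharTwo.add_self_eq_zero, add_zero] at r1

end Tw

end Pool.Agent.Lib.MP_788af2_nt.AS
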