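import Pool.Agent.Lib.MP_788af2_nt.TT.HRep

/-!
Fixed elements are traces.
-/

set_option linter.unusedSectionVars false

namespace Pool.Agent.Lib.MP_788af2_nt.AS

open Polynomial WeierstrassCurve Pool.Agent.Lib.MP_a3f657_nt.Two

namespace Tw

variable {k : Type} [Field k] [Finite k] [CharP k 2] {I : Type} [Fintype I] [DecidableEq I]
  {β : I → k[X]} {L : Type} [Field L] [CharP L 2] (T : Tw β L)

variable {a b ro s c : k[X]} {h : L}

private lemma hlift_tr_sq : T.tr (T.lgE ^ 2) = 1 := by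
  have h1 : T.tr (T.lgE ^ 2) = T.tr T.lgE ^ 2 := by
    simp only [tr, map_pow, CharTwo.sum_sq]
  rw [h1, lgE_tr, one_pow]

theorem Hs_lift (hA : Adm2 b ro s c a) (hβ : ∀ i, s ∣ β i) (hh : h ∈ T.Hs ro c a)
    (hf : T.Fix h) : ∃ h' ∈ T.Hs ro c a, T.tr h' = h := by
  obtain ⟨n, ρ, u, z, e, ⟨m, hm⟩, ⟨m2, hm2⟩⟩ := T.krep hA hβ hh hf
  have hc0 : c ≠ 0 := by
    rintro rfl
    exact hA.s_ne (zero_dvd_iff.1 hA.dvd)
  have hr0 : ro ≠ 0 := by
    rintro rfl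
    exact hA.d_ne derivative_zero
  obtain ⟨o0, ho0, e0⟩ := T.lgE_idem (b := c) fun i => hA.dvd.trans (hβ i)
  have hη := T.lgE_O
  have hcf := T.p_mul_fl hc0
  have hrf := T.p_mul_fl hr0
  have em : T.p ρ ^ 2 + T.p ρ = T.p c * T.p m := by
    rw [← map_mul, ← hm, map_add, map_pow]
  have em2 : T.p ro * T.p u + T.p ρ * T.p a + (T.p z ^ 2 + T.p z) = T.p c * T.p m2 := by
    rw [← map_mul T.p c, ← hm2]
    simp only [map_add, map_mul, map_pow]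
  have hw : wp (T.lgE * T.p ρ) = T.p c * (T.lgE ^ 2 * T.p m + T.p ρ * o0) := by
    unfold wp
    grind
  have hwO : T.lgE ^ 2 * T.p m + T.p ρ * o0 ∈ T.O :=
    add_mem (mul_mem (pow_mem hη 2) (T.p_mem_O m)) (mul_mem (T.p_mem_O ρ) ho0)
  have hx : T.lgE * T.p (u * derivative ro) + wp (T.lgE * T.p ρ) * T.fl c ∈ T.O := by
    refine add_mem (mul_mem hη (T.p_mem_O _)) ?_
    rw [hw, mul_right_comm, hcf]
    exact mul_mem (T.p_mem_O _) hwO
  obtain ⟨o1, ho1, e1⟩ := T.exists_c1_inv hx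
  obtain ⟨y, hy⟩ : ∃ y, y = (T.lgE * T.p ρ) ^ 2 * T.fl c + o1 := ⟨_, rfl⟩
  have hy1 : T.P.c1 y = T.lgE * T.p ρ * T.fl c + T.P.c1 o1 := by
    rw [hy, PB.c1_add, PB.c1_sq_mul, c1_fl]
  have hy2 : y + T.P.c1 y = T.lgE * T.p (u * derivative ro) := by
    rw [hy1]
    unfold wp at e1
    grind
  rw [add_assoc] at e
  obtain ⟨h1, h2⟩ := T.hat_eq hA.d_ne e
  refine ⟨T.P.c0 y + T.P.c0 (T.fl ro)⁻¹ * T.P.c1 y,
    ⟨T.P.c1 y, T.lgE * (T.p ro * T.p u), T.lgE * T.p ρ, T.lgE * T.p z, ?_,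
      mul_mem hη (mul_mem (T.p_mem_O _) (T.p_mem_O _)), mul_mem hη (T.p_mem_O _),
      mul_mem hη (T.p_mem_O _), ?_, ⟨_, hwO, hw⟩,
      ⟨T.lgE * T.p m2 + o0 * T.p z ^ 2,
        add_mem (mul_mem hη (T.p_mem_O _)) (mul_mem ho0 (pow_mem (T.p_mem_O _) 2)), ?_⟩⟩, ?_⟩
  · rw [T.hat_sq hA.d_ne, add_assoc]
    congr 1
    rw [map_mul, ← hrf] at hy2
    grind
  · have : T.P.c1 y + T.lgE * T.p ρ * T.fl c = T.P.c1 o1 := by
      rw [hy1]
      grind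
    rw [this]
    exact mul_mem (T.p_mem_O _) (T.c1_O ho1)
  · unfold wp
    grind
  · have hk : T.Fix (T.P.c0 (T.fl ro)⁻¹) := by
      have := ((T.fix_one).div (T.fix_fl ro)).c0
      rwa [one_div] at this
    obtain ⟨a1, ha1⟩ := T.tr_O ho1
    have t1 : T.tr y = T.p ρ ^ 2 * T.fl c + T.p a1 := by
      have hfx : T.Fix (T.p ρ ^ 2 * T.fl c) := ((T.fix_p ρ).pow 2).mul (T.fix_fl c)
      rw [hy, tr_add, ha1, show (T.lgE * T.p ρ) ^ 2 * T.fl c =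
        T.p ρ ^ 2 * T.fl c * T.lgE ^ 2 by ring, T.tr_fix_mul hfx, hlift_tr_sq, mul_one]
    have t2 : T.tr y + T.P.c1 (T.tr y) = T.p (u * derivative ro) := by
      rw [← tr_c1, ← tr_add, hy2, T.lgE_tr_mul (T.fix_p _)]
    have t3 : T.tr y + (T.p n + T.p ρ * T.fl c + T.p (u * derivative ro)) ∈ T.O := by
      have : T.tr y + (T.p n + T.p ρ * T.fl c + T.p (u * derivative ro)) =
          T.p m * T.p (derivative c) + T.p a1 + T.p n + T.p (u * derivative ro) := by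
        rw [t1, ← hcf]
        grind
      rw [this]
      exact add_mem (add_mem (add_mem (mul_mem (T.p_mem_O _) (T.p_mem_O _)) (T.p_mem_O _))
        (T.p_mem_O _)) (T.p_mem_O _)
    have t4 := T.log_O t3 (by
      rw [PB.c1_add, h1]
      grind)
    have t5 : T.tr y = T.p n + T.p ρ * T.fl c + T.p (u * derivative ro) := by grind
    rw [tr_add, T.tr_fix_mul hk, tr_c0, tr_c1, t5]
    exact h2.symm

end Tw

end Pool.Agent.Lib.MP_788af2_nt.AS
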