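import Pool.Agent.Lib.MP_788af2_nt.TT.HBase

/-!
Fixed elements have polynomial representatives.
-/

set_option linter.unusedSectionVars false

namespace Pool.Agent.Lib.MP_788af2_nt.AS

open Polynomial WeierstrassCurve Pool.Agent.Lib.MP_a3f657_nt.Two

namespace Tw

variable {k : Type} [Field k] [Finite k] [CharP k 2] {I : Type} [Fintype I] [DecidableEq I]
  {β : I → k[X]} {L : Type} [Field L] [CharP L 2] (T : Tw β L)

variable {a b ro s c : k[X]} {h : L}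

private lemma hrep_dvd {q w : k[X]} (hq : q ≠ 0) {o : L} (ho : o ∈ T.O)
    (e : T.p w = T.p q * o) : q ∣ w := by
  have h0 := T.p_ne hq
  have h1 : o = T.p w / T.p q := by rw [e]; field_simp
  obtain ⟨v, hv⟩ := T.fix_O ho (by rw [h1]; exact (T.fix_p w).div (T.fix_p q))
  exact ⟨v, T.p_inj (by rw [map_mul, ← hv, e])⟩

private lemma hrep_avg (x y : L) (o : G I → L) (e : ∀ g, T.σ g x + x = y * o g) :
    T.tr (T.lgE * x) = x + y * ∑ g, T.σ g T.lgE * o g := by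
  have h1 : ∀ g, T.σ g (T.lgE * x) = T.σ g T.lgE * x + y * (T.σ g T.lgE * o g) := fun g => by
    have := e g
    rw [map_mul]
    grind
  have h2 : ∑ g, T.σ g T.lgE = 1 := T.lgE_tr
  rw [tr, Finset.sum_congr rfl fun g _ => h1 g, Finset.sum_add_distrib, ← Finset.sum_mul, h2,
    one_mul, ← Finset.mul_sum]

private lemma hrep_avg_O {o : G I → L} (ho : ∀ g, o g ∈ T.O) :
    ∑ g, T.σ g T.lgE * o g ∈ T.O :=
  sum_mem fun g _ => mul_mem (T.σ_O g T.lgE_O) (ho g)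

/-- First step: the form and the coefficient `u` can be taken fixed. -/
private lemma hrep_one (hA : Adm2 b ro s c a) (hh : h ∈ T.Hs ro c a) (hf : T.Fix h) :
    ∃ (F : L) (u : k[X]) (ρ z : L), T.Fix F ∧ T.Rep ro c a h F (T.p u) ρ z := by
  obtain ⟨F, u, ρ, z, hR⟩ := hh
  have hfb := T.fl_ne hA.d_ne
  have h1 : ∀ g, (T.σ g F + F) / T.fl ro ∈ T.O := fun g => by
    refine T.of_wp_O ?_
    have e1 := hR.sq
    have e2 := (hR.σ g).sq
    rw [hf g] at e2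
    have e3 : wp ((T.σ g F + F) / T.fl ro) = T.σ g u + u := by
      generalize T.fl ro = f at *
      generalize T.σ g F = F' at *
      generalize T.σ g u = u' at *
      have e4 : F' ^ 2 / f + F' + u' * f = F ^ 2 / f + F + u * f := by rw [← e1, ← e2]
      unfold wp
      field_simp at e4 ⊢
      grind
    rw [e3]
    exact add_mem (T.σ_O g hR.u_O) hR.u_O
  have h2 := T.hrep_avg F (T.fl ro) (fun g => (T.σ g F + F) / T.fl ro) fun g => by field_simp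
  have h3 := hR.shift hA (T.hrep_avg_O h1)
  rw [mul_comm, ← h2] at h3
  have h4 : T.Fix (T.tr (T.lgE * F)) := T.fix_tr _
  generalize T.tr (T.lgE * F) = F₁ at h3 h4
  generalize u + wp (∑ g, T.σ g T.lgE * ((T.σ g F + F) / T.fl ro)) = u₁ at h3
  have h5 : u₁ = (h ^ 2 + (F₁ ^ 2 / T.fl ro + F₁)) / T.fl ro := by
    rw [h3.sq, eq_div_iff hfb]
    generalize F₁ ^ 2 / T.fl ro = y
    grind
  obtain ⟨u₀, rfl⟩ := T.fix_O h3.u_O (by
    rw [h5]
    exact ((hf.pow 2).add (((h4.pow 2).div (T.fix_fl ro)).add h4)).div (T.fix_fl ro))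
  exact ⟨F₁, u₀, ρ, _, h4, h3⟩

/-- Second step: the idempotent can be taken polynomial. -/
private lemma hrep_two (hA : Adm2 b ro s c a) {F u ρ z : L} (hF : T.Fix F)
    (hR : T.Rep ro c a h F u ρ z) : ∃ ρ₀ : k[X], T.Rep ro c a h F u (T.p ρ₀) z := by
  have hc : c ≠ 0 := ne_zero_of_dvd_ne_zero hA.s_ne hA.dvd
  have h0 := T.p_ne hc
  have hfl := T.p_mul_fl hc
  have h1 : ∀ g, (T.σ g ρ + ρ) / T.p c ∈ T.O := fun g => by
    refine T.O_of_cop (q := c) (q' := ro * derivative c) (hA.cop.symm.mul_right hA.cop_c) ?_ ?_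
    · rw [mul_div_cancel₀ _ h0]
      exact add_mem (T.σ_O g hR.ρ_O) hR.ρ_O
    · have e1 := add_mem (hR.σ g).F_O hR.F_O
      rw [hF g] at e1
      have e2 : T.p (ro * derivative c) * ((T.σ g ρ + ρ) / T.p c) =
          T.p ro * (F + T.σ g ρ * T.fl c) + T.p ro * (F + ρ * T.fl c) := by
        rw [map_mul, ← hfl]
        field_simp
        grind
      rwa [e2]
  have h2 := T.hrep_avg ρ (T.p c) (fun g => (T.σ g ρ + ρ) / T.p c) fun g => by field_simp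
  have h3 := T.hrep_avg_O h1
  generalize ∑ g, T.σ g T.lgE * ((T.σ g ρ + ρ) / T.p c) = o at h2 h3
  obtain ⟨ρ₀, e⟩ := T.tr_O (mul_mem T.lgE_O hR.ρ_O)
  rw [e] at h2
  obtain ⟨o₁, ho₁, e₁⟩ := hR.idem
  obtain ⟨o₂, ho₂, e₂⟩ := hR.cong
  refine ⟨ρ₀, hR.sq, hR.u_O, T.p_mem_O _, hR.z_O, ?_,
    ⟨o₁ + (T.p c * o ^ 2 + o), add_mem ho₁ (add_mem (mul_mem (T.p_mem_O c) (pow_mem h3 2)) h3), ?_⟩,
    ⟨o₂ + o * T.p a, add_mem ho₂ (mul_mem h3 (T.p_mem_O a)), ?_⟩⟩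
  · have e2 : T.p ro * (F + T.p ρ₀ * T.fl c) =
        T.p ro * (F + ρ * T.fl c) + T.p ro * o * T.p (derivative c) := by
      rw [h2, ← hfl]
      ring
    rw [e2]
    exact add_mem hR.F_O (mul_mem (mul_mem (T.p_mem_O _) h3) (T.p_mem_O _))
  · rw [h2, wp_add, e₁, wp]
    ring
  · rw [h2, mul_add, ← e₂]
    ring

/-- Third step: the congruence holds for polynomials. -/
private lemma hrep_three (hA : Adm2 b ro s c a) (hβ : ∀ i, s ∣ β i) {F z : L} {u ρ : k[X]}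
    (hR : T.Rep ro c a h F (T.p u) (T.p ρ) z) : ∃ z₀ : k[X], c ∣ u + ρ * a + (z₀ ^ 2 + z₀) := by
  obtain ⟨z₀, o, ho, e⟩ := T.mod_O (b := c) (fun i => hA.dvd.trans (hβ i)) 0 hR.z_O
  rw [← T.lgE_eq] at e
  obtain ⟨o₂, ho₂, e₂⟩ := hR.cong
  have hy : T.lgE * o₂ + o * (z + T.p z₀ + 1) ∈ T.O :=
    add_mem (mul_mem T.lgE_O ho₂)
      (mul_mem ho (add_mem (add_mem hR.z_O (T.p_mem_O _)) (one_mem _)))
  have h1 : T.lgE * T.p (u + ρ * a + (z₀ ^ 2 + z₀)) =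
      T.p c * (T.lgE * o₂ + o * (z + T.p z₀ + 1)) := by
    rw [map_add, map_add, map_add, map_mul, map_pow]
    rw [wp] at e₂
    grind
  obtain ⟨q, hq⟩ := T.tr_O hy
  have h2 := T.lgE_tr_mul (T.fix_p (u + ρ * a + (z₀ ^ 2 + z₀)))
  rw [h1, T.tr_fix_mul (T.fix_p c), hq, ← map_mul] at h2
  exact ⟨z₀, q, (T.p_inj h2).symm⟩

/-- Last step: the coefficient is divisible by `ro`. -/
private lemma hrep_four (hA : Adm2 b ro s c a) {n ρ u : k[X]}
    (e : h ^ 2 = (T.p n + T.p ρ * T.fl c) ^ 2 / T.fl ro + (T.p n + T.p ρ * T.fl c) +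
      T.p u * T.fl ro) : ro ∣ u := by
  have hc : c ≠ 0 := ne_zero_of_dvd_ne_zero hA.s_ne hA.dvd
  have hro : ro ≠ 0 := fun h0 => hA.d_ne (by rw [h0, derivative_zero])
  have h1 := (T.hat_eq hA.d_ne (e.trans (add_assoc _ _ _))).1
  have h2 : T.P.D (T.p n + T.p ρ * T.fl c + T.p u * T.fl ro) = (T.p n + T.p ρ * T.fl c) ^ 2 := by
    rw [PB.D, h1]
  have h3 : ∀ q : k[X], T.P.D (T.fl q) = T.fl q ^ 2 := fun q => by rw [PB.D, T.c1_fl]
  rw [PB.D_add, PB.D_add, PB.D_mul, PB.D_mul, h3, h3, T.D_p, T.D_p, T.D_p] at h2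
  have e1 := T.p_mul_fl hc
  have e2 := T.p_mul_fl hro
  have h4 : u * (derivative ro * c) ^ 2 = ro * (ro * (c ^ 2 * (n ^ 2 + derivative n) +
      (ρ ^ 2 + ρ) * derivative c ^ 2 + c * derivative c * derivative ρ) +
      derivative ro * c ^ 2 * derivative u) := by
    apply T.p_inj
    simp only [map_add, map_mul, map_pow]
    rw [← e1, ← e2]
    generalize T.p (derivative n) = n' at h2 ⊢
    generalize T.p (derivative ρ) = ρ' at h2 ⊢
    generalize T.p (derivative u) = u' at h2 ⊢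
    clear e1 e2 h3 h1 e
    grind
  exact (IsCoprime.pow_right (hA.cop_ro.mul_right hA.cop)).dvd_of_dvd_mul_right ⟨_, h4⟩

theorem krep (hA : Adm2 b ro s c a) (hβ : ∀ i, s ∣ β i) (hh : h ∈ T.Hs ro c a) (hf : T.Fix h) :
    ∃ n ρ u z : k[X], h ^ 2 = (T.p n + T.p ρ * T.fl c) ^ 2 / T.fl ro +
      (T.p n + T.p ρ * T.fl c) + T.p (u * derivative ro) ∧ c ∣ ρ ^ 2 + ρ ∧
      c ∣ ro * u + ρ * a + (z ^ 2 + z) := by
  have hc : c ≠ 0 := ne_zero_of_dvd_ne_zero hA.s_ne hA.dvd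
  have hro : ro ≠ 0 := fun h0 => hA.d_ne (by rw [h0, derivative_zero])
  obtain ⟨F, u₀, ρ, z, hF, hR⟩ := T.hrep_one hA hh hf
  obtain ⟨ρ₀, hR⟩ := T.hrep_two hA hF hR
  obtain ⟨z₀, hz⟩ := T.hrep_three hA hβ hR
  obtain ⟨n₀, hn⟩ := T.fix_O hR.F_O
    ((T.fix_p ro).mul (hF.add ((T.fix_p ρ₀).mul (T.fix_fl c))))
  obtain ⟨A, B, hAB⟩ := hA.cop_ro
  have h1 : F + T.p (n₀ * B) * T.fl ro = T.p (n₀ * A) + T.p ρ₀ * T.fl c := by
    apply mul_left_cancel₀ (T.p_ne hro)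
    have e1 := T.p_mul_fl hro
    have e2 := congrArg T.p hAB
    rw [map_add, map_mul, map_mul, map_one, ← e1] at e2
    rw [map_mul, map_mul]
    clear e1
    grind
  have h2 := (hR.shift hA (T.p_mem_O (n₀ * B))).sq
  have h3 : T.p u₀ + wp (T.p (n₀ * B)) = T.p (u₀ + ((n₀ * B) ^ 2 + n₀ * B)) := by
    rw [map_add, map_add, map_pow, wp]
  rw [h1, h3] at h2
  obtain ⟨u, hu⟩ := T.hrep_four hA h2
  obtain ⟨o, ho, e⟩ := hR.idem
  refine ⟨n₀ * A, ρ₀, u, z₀ + n₀ * B, ?_, T.hrep_dvd hc ho (by rw [← e, map_add, map_pow, wp]), ?_⟩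
  · rw [h2, hu, map_mul T.p ro u, map_mul T.p u, ← T.p_mul_fl hro]
    ring
  · have h4 : ro * u + ρ₀ * a + ((z₀ + n₀ * B) ^ 2 + (z₀ + n₀ * B)) =
        u₀ + ρ₀ * a + (z₀ ^ 2 + z₀) := by
      rw [← hu]
      generalize n₀ * B = y
      grind
    rwa [h4]

end Tw

end Pool.Agent.Lib.MP_788af2_nt.AS
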