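import Pool.Agent.Lib.MP_788af2_nt.TT.RankBd
import Pool.Agent.Lib.MP_788af2_nt.TT.CurveB

/-!
The Frobenius isogeny.
-/

set_option linter.unusedSectionVars false

namespace Pool.Agent.Lib.MP_788af2_nt.AS

open Polynomial WeierstrassCurve Pool.Agent.Lib.MP_a3f657_nt.Two

/-- A subgroup containing all fourth multiples has full rank. -/
private lemma isog_cmp {M E : Type} [AddCommGroup M] [AddCommGroup E] (ρ : M →+ E)
    (h4 : ∀ P, P + P + (P + P) ∈ ρ.range) (hM : AddGroup.FG M) (hE : AddGroup.FG E) :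
    Module.finrank ℤ E ≤ Module.finrank ℤ M := by
  have hEf : Module.Finite ℤ E := Module.Finite.iff_addGroup_fg.2 hE
  have hMf : Module.Finite ℤ M := Module.Finite.iff_addGroup_fg.2 hM
  have h1 := Submodule.finrank_quotient_add_finrank (LinearMap.range ρ.toIntLinearMap)
  have h0 : Module.finrank ℤ (E ⧸ LinearMap.range ρ.toIntLinearMap) = 0 := by
    rw [Module.finrank_eq_zero_iff]
    intro x
    obtain ⟨P, rfl⟩ := Submodule.Quotient.mk_surjective _ x
    refine ⟨2 + 2, by norm_num, ?_⟩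
    rw [← Submodule.Quotient.mk_smul, Submodule.Quotient.mk_eq_zero, add_smul, two_smul]
    exact h4 P
  have h3 := LinearMap.finrank_range_le ρ.toIntLinearMap
  omega

section field

variable {F : Type} [Field F] [CharP F 2] [DecidableEq F] {a b : F}

private lemma isog_two_zero (Q : (Eb a b).Point) (hx : xc Q = 0) : Q + Q = 0 := by
  by_cases h : Q = 0
  · rw [h, add_zero]
  · have e : -Q = Q := pt_ext (neg_ne_zero.2 h) h (xc_neg Q) (by rw [eb_yc_neg, hx, add_zero])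
    calc Q + Q = -Q + Q := by rw [e]
      _ = 0 := neg_add_cancel Q

private lemma isog_Et (a b : F) :
    ∃ j : (Et a b).Point →+ (Eb a (b ^ 2)).Point, Function.Injective j := by
  obtain ⟨j, hj, -⟩ := exists_tmap (RingHom.id F) (Et a b) (Eb a (b ^ 2)) 0 b rfl rfl rfl rfl
    (by simp [Eb, Et, wp]) (by simp [Eb, Et, CharTwo.add_self_eq_zero]) (by simp [Eb, Et])
  exact ⟨j, hj⟩

private lemma isog_frob (B : PB F) (a : F) (hb : b ≠ 0) :
    ∃ j : (Eb a b).Point →+ (Eb a (b ^ 2)).Point, ∀ P, P + P + (P + P) ∈ j.range := by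
  have t : (2 : F) = 0 := CharTwo.two_eq_zero
  have : Fact (Nat.Prime 2) := ⟨Nat.prime_two⟩
  obtain ⟨j, hj, hc⟩ := exists_tmap (frobenius F 2) (Eb a b) (Eb a (b ^ 2)) a 0 rfl rfl rfl rfl
    (by simp only [Eb, wp, frobenius_def]; linear_combination (-a ^ 2) * t)
    (by simp [Eb]) (by simp only [Eb, frobenius_def]; ring)
  have key : ∀ (R : (Eb a (b ^ 2)).Point) (w : F), R ≠ 0 → w ≠ 0 → xc R = w ^ 2 →
      R ∈ j.range := by
    intro R w hR hw hx
    have he := eb_eq hR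
    rw [hx] at he
    have hD : B.D (yc R + a * w ^ 2) = 0 := by
      have h1 := congrArg B.D he
      rw [B.D_add, B.D_add, B.D_add, B.D_sq, B.D_sq, B.D_sq_mul, mul_comm a, B.D_sq_mul,
        show (w ^ 2) ^ 3 = (w ^ 3) ^ 2 by ring, B.D_sq] at h1
      rw [B.D_add, mul_comm a, B.D_sq_mul]
      have h2 : w ^ 2 * (B.D (yc R) + w ^ 2 * B.D a) = 0 := by
        linear_combination h1 + (w ^ 4 * B.D a) * t
      exact (mul_eq_zero.1 h2).resolve_left (pow_ne_zero 2 hw)
    obtain ⟨v, hv⟩ : ∃ v, yc R + a * w ^ 2 = v ^ 2 := ⟨_, B.D_eq_zero hD⟩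
    have hy : yc R = v ^ 2 + a * w ^ 2 := by linear_combination hv - (a * w ^ 2) * t
    rw [hy] at he
    obtain ⟨Q, hQ, hQx, hQy⟩ := eb_exists (a := a) hb (x := w) (y := v) (sq_inj (by grind))
    obtain ⟨h1, h2⟩ := hc Q hQ
    have hj0 : j Q ≠ 0 := fun h => hQ (hj (by rw [h, map_zero]))
    refine ⟨Q, pt_ext hj0 hR ?_ ?_⟩
    · rw [h1, hQx, frobenius_def, hx]
    · rw [h2, hQx, hQy, frobenius_def, frobenius_def, add_zero, hy]
  refine ⟨j, fun P => ?_⟩
  by_cases hx : xc P = 0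
  · rw [isog_two_zero P hx, add_zero]
    exact zero_mem _
  obtain ⟨h1, h2⟩ := eb_two hx
  have h3 : xc (P + P) = (xc P + b / xc P) ^ 2 := by
    rw [h2, ← div_pow]
    linear_combination (-(xc P * (b / xc P))) * t
  by_cases hw : xc P + b / xc P = 0
  · rw [isog_two_zero (P + P) (by rw [h3, hw, zero_pow two_ne_zero])]
    exact zero_mem _
  · exact add_mem (key _ _ h1 hw h3) (key _ _ h1 hw h3)

end field

variable {k : Type} [Field k] [Finite k] [CharP k 2] [DecidableEq (RatFunc k)]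

private lemma isog_fg (a : k[X]) {b : k[X]} (hb : b ≠ 0) :
    AddGroup.FG (Eb (ι a) (ι b ^ 2)).Point := by
  have := fg_Eb' a (pow_ne_zero 2 hb)
  rwa [show ι (b ^ 2) = ι b ^ 2 from map_pow _ _ _] at this

theorem fg_Et (a : k[X]) {b : k[X]} (hb : b ≠ 0) : AddGroup.FG (Et (ι a) (ι b)).Point := by
  have : CharP (RatFunc k) 2 :=
    charP_of_injective_algebraMap (algebraMap k (RatFunc k)).injective 2
  obtain ⟨j, hj⟩ := isog_Et (ι a) (ι b)
  exact (rank_le_inj j hj (isog_fg a hb)).1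

theorem rank_Et_le (a : k[X]) {b : k[X]} (hb : b ≠ 0) :
    Module.finrank ℤ (Et (ι a) (ι b)).Point ≤ rkb a b := by
  have : CharP (RatFunc k) 2 :=
    charP_of_injective_algebraMap (algebraMap k (RatFunc k)).injective 2
  obtain ⟨j, hj⟩ := isog_Et (ι a) (ι b)
  obtain ⟨j', hj'⟩ := isog_frob (PX k) (ι a) (ι_ne hb)
  exact (rank_le_inj j hj (isog_fg a hb)).2.trans
    (isog_cmp j' hj' (fg_Eb' a hb) (isog_fg a hb))

theorem rkb_le {a b : k[X]} (hb : b ≠ 0) {e N : ℕ} (he : Nat.card k ≤ 2 ^ e)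
    (h1 : a.natDegree ≤ N) (h2 : b.natDegree ≤ 2 * N) : rkb a b ≤ e * (7 * N + 1) := by
  have : CharP (RatFunc k) 2 :=
    charP_of_injective_algebraMap (algebraMap k (RatFunc k)).injective 2
  obtain ⟨j, hj⟩ := frob_inj (ι a) (ι b) 0
  have h3 : rkb a b ≤ Module.finrank ℤ (Ec (ι a) (ι b)).Point := by
    have := (rank_le_inj j hj (by rw [pow_zero, pow_one]; exact fg_all a hb)).2
    rwa [pow_zero, pow_one] at this
  have h4 : 2 ^ Module.finrank ℤ (Ec (ι a) (ι b)).Point ≤ 2 ^ (e * (7 * N + 1)) :=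
    calc _ ≤ Nat.card k ^ (3 * b.natDegree + a.natDegree + 1) := rank_bd a hb
      _ ≤ (2 ^ e) ^ (3 * b.natDegree + a.natDegree + 1) := Nat.pow_le_pow_left he _
      _ ≤ (2 ^ e) ^ (7 * N + 1) := Nat.pow_le_pow_right (by positivity) (by omega)
      _ = _ := (pow_mul _ _ _).symm
  exact h3.trans ((Nat.pow_le_pow_iff_right one_lt_two).1 h4)

end Pool.Agent.Lib.MP_788af2_nt.AS
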