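import Pool.Agent.Lib.MP_788af2_nt.TT.CurveB
import Pool.Agent.Lib.MP_788af2_nt.TT.Col
import Pool.Agent.Lib.MP_788af2_nt.TT.Poly

/-!
The points of the curve at infinity.
-/

set_option linter.unusedSectionVars false

namespace Pool.Agent.Lib.MP_788af2_nt.AS

open Polynomial WeierstrassCurve Pool.Agent.Lib.MP_a3f657_nt.Two

namespace Tw

variable {k : Type} [Field k] [Finite k] [CharP k 2] {I : Type} [Fintype I] [DecidableEq I]
  {β : I → k[X]} {L : Type} [Field L] [CharP L 2] (T : Tw β L)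

variable [DecidableEq L] {a b : k[X]} {K ε : ℕ} {Q : (T.Cw a b).Point}

variable {T} in
lemma Par2.c1_ne (hP2 : T.Par2 a b K ε) : T.P.c1 (T.p b) ≠ 0 := by
  rw [c1_od]
  exact T.p_ne hP2.b_ne

private lemma locb_num (hP2 : T.Par2 a b K ε) : (1 : ℝ) ≤ K ∧ 0 ≤ gam β Finset.univ ∧
    ((od b).natDegree : ℝ) ≤ 2 * ε + K ∧ 5 * (K : ℝ) + 5 * gam β Finset.univ + 5 ≤ ε :=
  ⟨by exact_mod_cast hP2.pos, gam_nonneg β _, by exact_mod_cast hP2.le1, hP2.big⟩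

private lemma locb_al (hP2 : T.Par2 a b K ε) :
    T.p (od a) ≠ 0 ∧ T.d.deg (T.p (od a)) = ε :=
  ⟨T.p_ne hP2.a_ne, by rw [T.deg_p hP2.a_ne, hP2.a_od]⟩

private lemma locb_b (hP2 : T.Par2 a b K ε) :
    T.p b ∈ T.d.Le (2 * (od b).natDegree + K) :=
  DF.Le.mono (T.p_mem b) (by exact_mod_cast hP2.b_le)

private lemma locb_q0 (hP2 : T.Par2 a b K ε) : T.p (ev b) / T.p (od b) ∈ T.d.Le K := by
  refine DF.Le.div (T.p_mem _) ?_
  have h1 : (ev b).natDegree ≤ (od b).natDegree + K := by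
    have := ev_deg b
    have := hP2.b_le
    omega
  have h2 : ((ev b).natDegree : ℝ) ≤ (od b).natDegree + K := by exact_mod_cast h1
  rw [T.deg_p hP2.b_ne]
  linarith

private lemma locb_bh (hP2 : T.Par2 a b K ε) : T.bh (T.kap a b) ∈ T.d.Le (2 * K) := by
  obtain ⟨n1, n2, n3, n4⟩ := T.locb_num hP2
  obtain ⟨a1, a2⟩ := T.locb_al hP2
  refine add_mem (DF.Le.mono T.b_mem (by linarith)) (DF.Le.sq (r := K) ?_ le_rfl)
  exact add_mem (DF.Le.div (T.p_mem _) (by rw [DF.deg_sq a1, a2]; linarith)) (T.locb_q0 hP2)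

private lemma locb_ff {W : Affine L} (R : W.Point) : T.ff R ∈ T.d.Le (2 * gam β Finset.univ) :=
  T.log_le (T.mem_Fx_univ _) (T.c1_dlog _)

private lemma locb_hV (Q : (T.Cw a b).Point) : hV T.P (T.p b) Q =
    T.p (od b) / xc Q + (T.p (ev b) / T.p (od b) * T.ff Q + T.P.c0 (T.ff Q)) := by
  rw [hV, c1_od, c0_ev, add_assoc]
  rfl

private lemma locb_r (hP2 : T.Par2 a b K ε) (Q : (T.Cw a b).Point) :
    T.p (ev b) / T.p (od b) * T.ff Q + T.P.c0 (T.ff Q) ∈ T.d.Le (ε - 1) := by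
  obtain ⟨n1, n2, n3, n4⟩ := T.locb_num hP2
  exact add_mem (DF.Le.mul (T.locb_q0 hP2) (T.locb_ff Q) (by linarith))
    (T.c0_le (T.mem_Fx_univ _) (T.locb_ff Q) (by linarith))

private lemma locb_iff (hP2 : T.Par2 a b K ε) (Q : (T.Cw a b).Point) :
    hV T.P (T.p b) Q ∈ T.d.Le (ε - 1) ↔ T.p (od b) / xc Q ∈ T.d.Le (ε - 1) := by
  rw [T.locb_hV]
  exact add_mem_cancel_right (T.locb_r hP2 Q)

private lemma locb_z (hP2 : T.Par2 a b K ε) (h0 : Q ≠ 0) {X m : ℝ} (hx : xc Q ∈ T.d.Le X)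
    (hX : 2 * (ε : ℝ) + K ≤ X) (hu : T.p (od b) / xc Q ∈ T.d.Le m) (hm : K + 2 * m ≤ X) :
    T.P.c1 (xc Q) + T.p (od a) + T.p (od b) / xc Q ∈ T.d.Le (X / 4 + gam β Finset.univ) := by
  obtain ⟨n1, n2, n3, n4⟩ := T.locb_num hP2
  have hx0 := eb_x_ne T.P hP2.c1_ne h0
  have hb := T.p_ne hP2.b_ne
  have e1 := eb_wp Q hx0
  have e2 : T.P.c1 (yc Q / xc Q) = T.P.c1 (xc Q) + T.p (od a) + T.p (od b) / xc Q := by
    rw [← T.P.c1_wp, e1, T.P.c1_add, T.P.c1_add, c1_od,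
      show T.p b / xc Q ^ 2 = (xc Q)⁻¹ ^ 2 * T.p b by field_simp, T.P.c1_sq_mul, c1_od,
      div_eq_inv_mul]
  have h1 : T.p b / xc Q ^ 2 ∈ T.d.Le X := by
    rw [show T.p b / xc Q ^ 2 = T.p b / T.p (od b) ^ 2 * (T.p (od b) / xc Q) ^ 2 by field_simp]
    refine DF.Le.mul (r := K) (DF.Le.div (T.locb_b hP2) ?_) (DF.Le.sq hu le_rfl) hm
    rw [DF.deg_sq hb, T.deg_p hP2.b_ne]
    linarith
  have h2 : T.p a ∈ T.d.Le X :=
    DF.Le.mono (T.p_mem a) (le_trans (by exact_mod_cast hP2.a_le) hX)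
  have h3 : wp (yc Q / xc Q) ∈ T.d.Le X := by
    rw [e1]
    exact add_mem (add_mem hx h2) h1
  rw [← e2]
  exact T.c1_le (T.mem_Fx_univ _) (DF.Le.of_wp h3 (by linarith) le_rfl) (by linarith)

variable {T} in
lemma Par2.typeI (hP2 : T.Par2 a b K ε) (h0 : Q ≠ 0) (h : hV T.P (T.p b) Q ∈ T.d.Le (ε - 1)) :
    xc Q ∉ T.d.Le (2 * ε - 2 * gam β Finset.univ - 2) := by
  intro hx
  obtain ⟨n1, n2, n3, n4⟩ := T.locb_num hP2
  obtain ⟨a1, a2⟩ := T.locb_al hP2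
  rw [T.locb_iff hP2] at h
  have h1 := T.locb_z hP2 h0 (X := 2 * ε + K) (DF.Le.mono hx (by linarith)) le_rfl h (by linarith)
  have h2 : T.P.c1 (xc Q) ∈ T.d.Le (ε - 1) := T.c1_le (T.mem_Fx_univ _) hx (by linarith)
  have h3 := add_mem (add_mem (DF.Le.mono (c := ε - 1) h1 (by linarith)) h2) h
  rw [show T.P.c1 (xc Q) + T.p (od a) + T.p (od b) / xc Q + T.P.c1 (xc Q) + T.p (od b) / xc Q =
    T.p (od a) by grind, DF.mem_Le_iff a1, a2] at h3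
  linarith

private lemma locb_II (hP2 : T.Par2 a b K ε) (h : hV T.P (T.p b) Q ∉ T.d.Le (ε - 1)) :
    Q ≠ 0 ∧ T.p (od b) / xc Q + T.p (od a) ∈ T.d.Le (ε / 2 + K + gam β Finset.univ) := by
  obtain ⟨n1, n2, n3, n4⟩ := T.locb_num hP2
  obtain ⟨a1, a2⟩ := T.locb_al hP2
  have h0 : Q ≠ 0 := by
    rintro rfl
    exact h (by rw [hV_zero]; exact zero_mem _)
  refine ⟨h0, ?_⟩
  rw [T.locb_iff hP2] at h
  have hx0 := eb_x_ne T.P hP2.c1_ne h0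
  obtain ⟨u1, u2⟩ := DF.not_mem_Le.1 h
  have hx : xc Q ∈ T.d.Le (ε + K + 1) := by
    rw [DF.deg_div (T.p_ne hP2.b_ne) hx0, T.deg_p hP2.b_ne] at u2
    exact DF.mem_Le_of (by linarith)
  have h2 : T.P.c1 (xc Q) ∈ T.d.Le (ε / 2 + K + gam β Finset.univ) :=
    T.c1_le (T.mem_Fx_univ _) hx (by linarith)
  have e : T.p (od b) / xc Q + T.p (od a) =
      T.P.c1 (xc Q) + T.p (od a) + T.p (od b) / xc Q + T.P.c1 (xc Q) := by grind
  by_cases hu : T.d.deg (T.p (od b) / xc Q) ≤ ε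
  · have h1 := T.locb_z hP2 h0 (X := 2 * ε + K) (DF.Le.mono hx (by linarith)) le_rfl
      (DF.mem_Le_of hu) (by linarith)
    rw [e]
    exact add_mem (DF.Le.mono h1 (by linarith)) h2
  · rw [not_le] at hu
    have h1 := T.locb_z hP2 h0 (X := 2 * T.d.deg (T.p (od b) / xc Q) + K)
      (DF.Le.mono hx (by linarith)) (by linarith) (DF.mem_Le_deg _) (by linarith)
    have h3 := add_mem (DF.Le.mono (c := T.d.deg (T.p (od b) / xc Q) - 1) h1 (by linarith))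
      (DF.Le.mono h2 (by linarith))
    have h4 := DF.deg_add_lt u1 (DF.mem_Le_of a2.le) hu
    rw [← e, DF.mem_Le_iff h4.1, h4.2] at h3
    linarith

variable {T} in
lemma Par2.dich (hP2 : T.Par2 a b K ε) (h : hV T.P (T.p b) Q ∉ T.d.Le (ε - 1)) :
    hV T.P (T.p b) Q + T.p (od a) ∈ T.d.Le (ε - 1) := by
  obtain ⟨n1, n2, n3, n4⟩ := T.locb_num hP2
  rw [T.locb_hV, add_right_comm]
  exact add_mem (DF.Le.mono (T.locb_II hP2 h).2 (by linarith)) (T.locb_r hP2 Q)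

private lemma locb_E (hP2 : T.Par2 a b K ε) (h0 : Q ≠ 0) :
    wp (T.bh (T.kap a b) * T.ff Q) + T.bh (T.kap a b) * hV T.P (T.p b) Q ^ 2 =
      T.bh (T.kap a b) * (T.p (od b) / xc Q) ^ 2 *
        ((T.P.c1 (xc Q) + T.p (od a)) / T.p (od a)) ^ 4 := by
  obtain ⟨a1, -⟩ := T.locb_al hP2
  have hx0 := eb_x_ne T.P hP2.c1_ne h0
  have e1 := T.P.spec (T.ff Q)
  rw [show T.P.c1 (T.ff Q) = T.ff Q from T.c1_dlog _] at e1
  have e2 : T.p (od b) / T.p (od a) ^ 2 * T.ff Q =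
      T.p (od b) / xc Q * (T.P.c1 (xc Q) / T.p (od a)) ^ 2 := by
    rw [ff, PB.D]
    field_simp
  rw [T.locb_hV, add_div, div_self a1, wp, bh, kap]
  generalize T.p (od b) / T.p (od a) ^ 2 = κ₁ at *
  generalize T.p (ev b) / T.p (od b) = κ₀ at *
  generalize T.P.c0 (T.ff Q) = φ at *
  generalize T.ff Q = f at *
  generalize T.p (od b) / xc Q = u at *
  generalize T.P.c1 (xc Q) / T.p (od a) = v at *
  generalize T.P.b = t at *
  grind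

variable {T} in
lemma Par2.exists_zeta (hP2 : T.Par2 a b K ε) (h : hV T.P (T.p b) Q ∈ T.d.Le (ε - 1)) :
    ∃ ζ, wp ζ = T.bh (T.kap a b) * hV T.P (T.p b) Q ^ 2 ∧
      ζ + T.bh (T.kap a b) * T.ff Q ∈ T.d.Le (-1) := by
  by_cases h0 : Q = 0
  · subst h0
    exact ⟨0, by rw [hV_zero]; simp, by simp [ff]⟩
  obtain ⟨n1, n2, n3, n4⟩ := T.locb_num hP2
  obtain ⟨a1, a2⟩ := T.locb_al hP2
  obtain ⟨x1, x2⟩ := DF.not_mem_Le.1 (hP2.typeI h0 h)
  have hu : T.p (od b) / xc Q ∈ T.d.Le ((od b).natDegree - T.d.deg (xc Q)) :=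
    DF.Le.div (T.p_mem _) le_rfl
  have key : ∀ X : ℝ, T.d.deg (xc Q) ≤ X → 2 * (ε : ℝ) + K ≤ X →
      X - 2 * T.d.deg (xc Q) ≤ K + 4 * gam β Finset.univ + 4 - 2 * ε →
      wp (T.bh (T.kap a b) * T.ff Q) + T.bh (T.kap a b) * hV T.P (T.p b) Q ^ 2 ∈ T.d.Le (-1) := by
    intro X h1 h2 h3
    have h4 := add_mem (T.locb_z hP2 h0 (DF.mem_Le_of h1) h2 hu (by linarith))
      (DF.Le.mono hu (by linarith))
    rw [add_assoc, CharTwo.add_self_eq_zero, add_zero] at h4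
    have h5 : (T.P.c1 (xc Q) + T.p (od a)) / T.p (od a) ∈
        T.d.Le (X / 4 + gam β Finset.univ - ε) := DF.Le.div h4 (by rw [a2])
    rw [T.locb_E hP2 h0]
    exact DF.Le.mul (DF.Le.mul (T.locb_bh hP2) (DF.Le.sq hu le_rfl) le_rfl)
      (DF.Le.pow h5 4 le_rfl) (by push_cast; linarith)
  have hE : wp (T.bh (T.kap a b) * T.ff Q) + T.bh (T.kap a b) * hV T.P (T.p b) Q ^ 2 ∈
      T.d.Le (-1) := by
    rcases le_total (T.d.deg (xc Q)) (2 * ε + K) with c | c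
    · exact key _ c le_rfl (by linarith)
    · exact key _ le_rfl c (by linarith)
  obtain ⟨w, w1, w2⟩ := T.hensel (-1) _ (by norm_num) hE
  refine ⟨T.bh (T.kap a b) * T.ff Q + w, by rw [wp_add, w2]; grind, ?_⟩
  rwa [add_right_comm, CharTwo.add_self_eq_zero, zero_add]

variable {T} in
lemma Par2.ff_add (hP2 : T.Par2 a b K ε) {Q' : (T.Cw a b).Point}
    (h : hV T.P (T.p b) Q ∈ T.d.Le (ε - 1)) (h' : hV T.P (T.p b) Q' ∈ T.d.Le (ε - 1)) :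
    T.bh (T.kap a b) * (T.ff (Q + Q') + T.ff Q + T.ff Q') ∈ T.d.Le (-1) := by
  have z : T.ff (0 : (T.Cw a b).Point) = 0 := by simp [ff]
  rcases eb_add Q Q' with rfl | rfl | ⟨h1, h2⟩ | ⟨h1, h2, h3, μ, h4, -⟩
  · rw [zero_add, z, add_zero, CharTwo.add_self_eq_zero, mul_zero]
    exact zero_mem _
  · rw [add_zero, z, add_zero, CharTwo.add_self_eq_zero, mul_zero]
    exact zero_mem _
  · rw [h1, z, zero_add, ff, ff, h2, CharTwo.add_self_eq_zero, mul_zero]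
    exact zero_mem _
  obtain ⟨n1, n2, n3, n4⟩ := T.locb_num hP2
  obtain ⟨x1, x2⟩ := DF.not_mem_Le.1 (hP2.typeI h1 h)
  obtain ⟨x3, x4⟩ := DF.not_mem_Le.1 (hP2.typeI h2 h')
  obtain ⟨x5, x6⟩ := DF.not_mem_Le.1 (hP2.typeI h3
    (by rw [hV_add T.P hP2.c1_ne]; exact add_mem h h'))
  have e := eb_three T.P x1 x3 x5 h4
  rw [c1_od] at e
  rw [show T.ff (Q + Q') + T.ff Q + T.ff Q' = T.ff Q + T.ff Q' + T.ff (Q + Q') by ring, ff, ff, ff,
    e]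
  refine DF.Le.mul (T.locb_bh hP2) (DF.Le.div (DF.Le.sq (T.p_mem _) le_rfl) le_rfl) ?_
  rw [T.d.deg_mul (mul_ne_zero x1 x3) x5, T.d.deg_mul x1 x3]
  linarith

variable {T} in
lemma Par2.typeII (hP2 : T.Par2 a b K ε) (h : hV T.P (T.p b) Q ∉ T.d.Le (ε - 1)) :
    T.bh (T.kap a b) * T.ff (Q + Q) + 1 ∈ T.d.Le (-1) := by
  obtain ⟨n1, n2, n3, n4⟩ := T.locb_num hP2
  obtain ⟨a1, a2⟩ := T.locb_al hP2
  obtain ⟨h0, h1⟩ := T.locb_II hP2 h
  have hx0 := eb_x_ne T.P hP2.c1_ne h0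
  have hb := T.p_ne hP2.b_ne
  obtain ⟨h2, h3⟩ := eb_two hx0
  have hx2 := eb_x_ne T.P hP2.c1_ne h2
  have h4 := DF.deg_add_lt a1 h1 (by rw [a2]; linarith)
  rw [add_comm (T.p (od b) / xc Q), ← add_assoc, CharTwo.add_self_eq_zero, zero_add, a2] at h4
  have e1 : T.P.c1 (xc (Q + Q)) = T.p (od b) / xc Q := by
    rw [h3, T.P.c1_add, T.P.c1_sq, zero_add,
      show T.p b / xc Q ^ 2 = (xc Q)⁻¹ ^ 2 * T.p b by field_simp, T.P.c1_sq_mul, c1_od,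
      div_eq_inv_mul]
  have e2 : T.ff (Q + Q) *
      (T.P.b + (T.p (ev b) / T.p (od b) + xc Q / (T.p (od b) / xc Q)) ^ 2) = 1 := by
    have e3 := T.P.spec (T.p b)
    rw [c0_ev, c1_od] at e3
    rw [ff, PB.D, e1, div_mul_eq_mul_div, div_eq_one_iff_eq hx2, h3, CharTwo.add_sq]
    generalize xc Q = x at *
    rw [e3]
    field_simp
    ring
  have e4 : T.p (od b) / T.p (od a) ^ 2 + xc Q / (T.p (od b) / xc Q) =
      T.p (od b) * ((T.p (od b) / xc Q + T.p (od a)) / (T.p (od b) / xc Q * T.p (od a))) ^ 2 := by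
    rw [div_pow _ (_ * _), CharTwo.add_sq]
    field_simp
  have e5 : T.bh (T.kap a b) * T.ff (Q + Q) + 1 =
      T.ff (Q + Q) * (T.p (od b) / T.p (od a) ^ 2 + xc Q / (T.p (od b) / xc Q)) ^ 2 := by
    rw [← e2, bh, kap]
    grind
  rw [e5, e4]
  refine DF.Le.mul (T.locb_ff _) (DF.Le.sq (DF.Le.mul (T.p_mem _)
    (DF.Le.sq (DF.Le.div h1 le_rfl) le_rfl) le_rfl) le_rfl) ?_
  rw [T.d.deg_mul h4.1 a1, h4.2, a2]
  linarith

variable {T} in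
lemma Par2.tf (hP2 : T.Par2 a b K ε) (h : hV T.P (T.p b) Q ∈ T.d.Le (ε - 1)) {n : ℕ}
    (hn : n ≠ 0) (h0 : n • Q = 0) : Q = 0 := by
  by_contra h1
  obtain ⟨n1, n2, n3, n4⟩ := T.locb_num hP2
  have hx := DF.not_mem_Le.1 (hP2.typeI h1 h)
  have d0 : 0 < T.d.deg (xc Q) := by linarith [hx.2]
  have key : ∀ j : ℕ, xc (2 ^ j • Q) ≠ 0 ∧ T.d.deg (xc (2 ^ j • Q)) = 2 ^ j * T.d.deg (xc Q) := by
    intro j
    induction j with
    | zero => simpa using hx.1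
    | succ j ih =>
      have a1 : T.d.deg (xc Q) ≤ T.d.deg (xc (2 ^ j • Q)) := by
        have : (1 : ℝ) ≤ 2 ^ j := one_le_pow₀ one_le_two
        rw [ih.2]
        nlinarith
      have a3 := DF.deg_add_lt (pow_ne_zero 2 ih.1)
        (DF.Le.div (y := xc (2 ^ j • Q) ^ 2) (T.locb_b hP2) le_rfl)
        (by rw [DF.deg_sq ih.1]; linarith [hx.2])
      rw [pow_succ, mul_nsmul, two_nsmul, (eb_two ih.1).2, a3.2, DF.deg_sq ih.1, ih.2]
      exact ⟨a3.1, by ring⟩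
  have fin := (isOfFinAddOrder_iff_nsmul_eq_zero.2 ⟨n, Nat.pos_of_ne_zero hn, h0⟩).finite_multiples
  refine Set.infinite_of_injective_forall_mem (f := fun j : ℕ => 2 ^ j • Q) (fun i j c => ?_)
    (fun j => (AddSubmonoid.mem_multiples_iff _ _).2 ⟨2 ^ j, rfl⟩) fin
  have c' : 2 ^ i • Q = 2 ^ j • Q := c
  have := (key i).2
  rw [c', (key j).2] at this
  exact (pow_right_injective₀ two_pos (by norm_num) (mul_right_cancel₀ d0.ne' this)).symm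

end Tw

end Pool.Agent.Lib.MP_788af2_nt.AS
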