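import Pool.Agent.Lib.MP_788af2_nt.TT.Defs

/-!
Choice of the parameters.
-/

set_option linter.unusedSectionVars false

namespace Pool.Agent.Lib.MP_788af2_nt.AS

open Polynomial WeierstrassCurve Pool.Agent.Lib.MP_a3f657_nt.Two

/-- Polynomial growth of degree `d`. -/
private def PrPb (f : ℕ → ℕ) (d : ℕ) : Prop := ∃ C, ∀ K, 1 ≤ K → f K ≤ C * K ^ d

private lemma prPb_const (c : ℕ) : PrPb (fun _ => c) 0 := ⟨c, fun K _ => by simp⟩

private lemma prPb_id : PrPb (fun K => K) 1 := ⟨1, fun K _ => by simp⟩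

private lemma prPb_mono {f : ℕ → ℕ} {d d' : ℕ} (h : PrPb f d) (hd : d ≤ d') : PrPb f d' := by
  obtain ⟨C, hC⟩ := h
  exact ⟨C, fun K hK => (hC K hK).trans (Nat.mul_le_mul_left _ (Nat.pow_le_pow_right hK hd))⟩

private lemma prPb_add {f g : ℕ → ℕ} {d d' : ℕ} (h : PrPb f d) (h' : PrPb g d') :
    PrPb (fun K => f K + g K) (max d d') := by
  obtain ⟨C, hC⟩ := prPb_mono h (le_max_left d d')
  obtain ⟨C', hC'⟩ := prPb_mono h' (le_max_right d d')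
  exact ⟨C + C', fun K hK => by rw [add_mul]; exact add_le_add (hC K hK) (hC' K hK)⟩

private lemma prPb_mul {f g : ℕ → ℕ} {d d' : ℕ} (h : PrPb f d) (h' : PrPb g d') :
    PrPb (fun K => f K * g K) (d + d') := by
  obtain ⟨C, hC⟩ := h
  obtain ⟨C', hC'⟩ := h'
  refine ⟨C * C', fun K hK => (Nat.mul_le_mul (hC K hK) (hC' K hK)).trans (le_of_eq ?_)⟩
  ring

private lemma prPb_pow {f : ℕ → ℕ} {d : ℕ} (h : PrPb f d) (m : ℕ) :
    PrPb (fun K => f K ^ m) (d * m) := by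
  obtain ⟨C, hC⟩ := h
  refine ⟨C ^ m, fun K hK => (Nat.pow_le_pow_left (hC K hK) m).trans (le_of_eq ?_)⟩
  rw [mul_pow, ← pow_mul]

private lemma prPb_big {f : ℕ → ℕ} (h : PrPb f 4) :
    ∃ K₀, ∀ K, K₀ ≤ K → 2 * f K + K ≤ K ^ 8 := by
  obtain ⟨C, hC⟩ := h
  refine ⟨2 * C + 1, fun K hK => ?_⟩
  have h1 : 1 ≤ K := by omega
  have h2 := hC K h1
  have h3 : K ≤ K ^ 4 := Nat.le_self_pow (by norm_num) K
  calc 2 * f K + K ≤ (2 * C + 1) * K ^ 4 := by nlinarith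
    _ ≤ K ^ 4 * K ^ 4 := Nat.mul_le_mul_right _ (hK.trans h3)
    _ = K ^ 8 := by ring

private lemma prPb_exp {f : ℕ → ℕ} {d : ℕ} (h : PrPb f d) {η : ℝ} (hη : 0 < η) :
    ∃ K₀, ∀ K, K₀ ≤ K → (f K : ℝ) ≤ η * 2 ^ ((K - 1) / 2) := by
  obtain ⟨C, hC⟩ := h
  have ht := tendsto_pow_const_div_const_pow_of_one_lt d (one_lt_two : (1 : ℝ) < 2)
  have hpos : (0 : ℝ) < η / ((C : ℝ) * 4 ^ d + 1) := by positivity
  obtain ⟨j₀, hj₀⟩ := Filter.eventually_atTop.1 (ht.eventually (gt_mem_nhds hpos))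
  refine ⟨2 * j₀ + 3, fun K hK => ?_⟩
  set j := (K - 1) / 2 with hj
  have h1 : j₀ ≤ j := by omega
  have h2 : K ≤ 4 * j := by omega
  have h3 := hj₀ j h1
  have h4 : f K ≤ C * (4 * j) ^ d :=
    (hC K (by omega)).trans (Nat.mul_le_mul_left _ (Nat.pow_le_pow_left h2 d))
  have h5 : (f K : ℝ) ≤ (C : ℝ) * 4 ^ d * (j : ℝ) ^ d := by
    have : ((f K : ℕ) : ℝ) ≤ ((C * (4 * j) ^ d : ℕ) : ℝ) := by exact_mod_cast h4
    push_cast at this
    rw [mul_pow] at this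
    linarith
  rw [div_lt_div_iff₀ (by positivity) (by positivity)] at h3
  have h6 : (0 : ℝ) ≤ (j : ℝ) ^ d := by positivity
  nlinarith

private def prS (e K : ℕ) : ℕ := 2 * K * e + 1

private def prJ (e r K : ℕ) : ℕ := 2 * r * prS e K + 4 * r ^ 2 * e + 2 * prS e K + K + 3

private def prK3 (e r K : ℕ) : ℕ := 30 * K + 12 * (2 * (4 * K + 1 + prJ e r K) + K) + 1

private def prK4 (e r K : ℕ) : ℕ :=
  2 ^ (2 * r) * (2 * (4 * K + 1 + prJ e r K) + K) + (2 ^ (2 * r + 1) + 1) * K + 1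

private def prD (e r R K : ℕ) : ℕ :=
  2 * (prS e K ^ 2 + r * prS e K * (R + 1) + 2 * R + (r * prS e K * R + 1) * (R + 1) +
    2 * prS e K + K + 1)

private def prC (e r R K : ℕ) : ℕ := 4 * prD e r R K + 24 * K + prK3 e r K + 2 * prK4 e r K + 2

private lemma prPb_S (e : ℕ) : PrPb (fun K => prS e K) 1 :=
  prPb_add (prPb_mul (prPb_mul (prPb_const 2) prPb_id) (prPb_const e)) (prPb_const 1)

private lemma prPb_J (e r : ℕ) : PrPb (fun K => prJ e r K) 1 :=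
  prPb_add (prPb_add (prPb_add (prPb_add (prPb_mul (prPb_const (2 * r)) (prPb_S e))
    (prPb_const (4 * r ^ 2 * e))) (prPb_mul (prPb_const 2) (prPb_S e))) prPb_id) (prPb_const 3)

private lemma prPb_W (e r : ℕ) : PrPb (fun K => 2 * (4 * K + 1 + prJ e r K) + K) 1 :=
  prPb_add (prPb_mul (prPb_const 2) (prPb_add (prPb_add (prPb_mul (prPb_const 4) prPb_id)
    (prPb_const 1)) (prPb_J e r))) prPb_id

private lemma prPb_K3 (e r : ℕ) : PrPb (fun K => prK3 e r K) 1 :=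
  prPb_add (prPb_add (prPb_mul (prPb_const 30) prPb_id) (prPb_mul (prPb_const 12) (prPb_W e r)))
    (prPb_const 1)

private lemma prPb_K4 (e r : ℕ) : PrPb (fun K => prK4 e r K) 1 :=
  prPb_add (prPb_add (prPb_mul (prPb_const (2 ^ (2 * r))) (prPb_W e r))
    (prPb_mul (prPb_const (2 ^ (2 * r + 1) + 1)) prPb_id)) (prPb_const 1)

private lemma prPb_D (e r R : ℕ) : PrPb (fun K => prD e r R K) 2 :=
  prPb_mul (prPb_const 2) (prPb_add (prPb_add (prPb_add (prPb_add (prPb_add (prPb_add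
    (prPb_pow (prPb_S e) 2)
    (prPb_mul (prPb_mul (prPb_const r) (prPb_S e)) (prPb_const (R + 1)))) (prPb_const (2 * R)))
    (prPb_mul (prPb_add (prPb_mul (prPb_mul (prPb_const r) (prPb_S e)) (prPb_const R))
      (prPb_const 1)) (prPb_const (R + 1)))) (prPb_mul (prPb_const 2) (prPb_S e))) prPb_id)
    (prPb_const 1))

private lemma prPb_C (e r R : ℕ) : PrPb (fun K => prC e r R K) 2 :=
  prPb_add (prPb_add (prPb_add (prPb_add (prPb_mul (prPb_const 4) (prPb_D e r R))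
    (prPb_mul (prPb_const 24) prPb_id)) (prPb_K3 e r)) (prPb_mul (prPb_const 2) (prPb_K4 e r)))
    (prPb_const 2)

private lemma prPb_e1 (e r R : ℕ) : PrPb (fun K =>
    5 * K + 5 * (R * prD e r R K * (K + 4 ^ R * prC e r R K + prD e r R K + 1)) + 5) 4 :=
  prPb_add (prPb_add (prPb_mul (prPb_const 5) prPb_id) (prPb_mul (prPb_const 5)
    (prPb_mul (prPb_mul (prPb_const R) (prPb_D e r R)) (prPb_add (prPb_add (prPb_add prPb_id
      (prPb_mul (prPb_const (4 ^ R)) (prPb_C e r R))) (prPb_D e r R)) (prPb_const 1)))))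
    (prPb_const 5)

private lemma prPb_e2 (e r : ℕ) : PrPb (fun K => 5 * K + 1 + prJ e r K) 4 :=
  prPb_mono (prPb_add (prPb_add (prPb_mul (prPb_const 5) prPb_id) (prPb_const 1)) (prPb_J e r))
    (by norm_num)

private lemma prPb_e3 (e r R : ℕ) :
    PrPb (fun K => 2 * (4 ^ R * prC e r R K + prD e r R K + K) + 4 * K + 4) 4 :=
  prPb_mono (prPb_add (prPb_add (prPb_mul (prPb_const 2) (prPb_add (prPb_add
    (prPb_mul (prPb_const (4 ^ R)) (prPb_C e r R)) (prPb_D e r R)) prPb_id))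
    (prPb_mul (prPb_const 4) prPb_id)) (prPb_const 4)) (by norm_num)

private lemma pr_root (N : ℕ) : ∃ K, K ^ 8 ≤ N ∧ N < (K + 1) ^ 8 := by
  refine ⟨N.sqrt.sqrt.sqrt, ?_, ?_⟩
  · have h1 := Nat.sqrt_le' N
    have h2 := Nat.pow_le_pow_left (Nat.sqrt_le' N.sqrt) 2
    have h3 := Nat.pow_le_pow_left (Nat.sqrt_le' N.sqrt.sqrt) 4
    rw [← pow_mul] at h2 h3
    exact h3.trans (h2.trans h1)
  · have h1 : N < (N.sqrt + 1) ^ 2 := Nat.lt_succ_sqrt' N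
    have h2 : N.sqrt + 1 ≤ (N.sqrt.sqrt + 1) ^ 2 := Nat.lt_succ_sqrt' N.sqrt
    have h3 : N.sqrt.sqrt + 1 ≤ (N.sqrt.sqrt.sqrt + 1) ^ 2 := Nat.lt_succ_sqrt' N.sqrt.sqrt
    have h4 := Nat.pow_le_pow_left h2 2
    have h5 := Nat.pow_le_pow_left h3 4
    rw [← pow_mul] at h4 h5
    exact h1.trans_le (h4.trans h5)

theorem params3 (e r R m : ℕ) (η : ℝ) (hη : 0 < η) : ∃ N₀ : ℕ, ∀ N, N₀ ≤ N →
    ∃ K s₀ J₀ K₃ K₄ D c : ℕ, N < (K + 1) ^ 8 ∧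
      (∀ ε, N ≤ 2 * ε + K → Prm e r R K s₀ J₀ K₃ K₄ D c ε) ∧ 2 * K < N ∧
      4 * (s₀ : ℝ) ^ m ≤ η * 2 ^ K ∧
      ((e * (7 * N + 1) : ℕ) : ℝ) ^ m * (8 * N + 9) ≤ η * 2 ^ ((K - 1) / 2) := by
  obtain ⟨k1, hk1⟩ := prPb_big (prPb_e1 e r R)
  obtain ⟨k2, hk2⟩ := prPb_big (prPb_e2 e r)
  obtain ⟨k3, hk3⟩ := prPb_big (prPb_e3 e r R)
  obtain ⟨k4, hk4⟩ := prPb_exp (prPb_mul (prPb_const 4) (prPb_pow (prPb_S e) m)) hη
  have hQ := prPb_pow (prPb_add prPb_id (prPb_const 1)) 8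
  obtain ⟨k5, hk5⟩ := prPb_exp (prPb_mul (prPb_pow (prPb_mul (prPb_const e)
    (prPb_add (prPb_mul (prPb_const 7) hQ) (prPb_const 1))) m)
    (prPb_add (prPb_mul (prPb_const 8) hQ) (prPb_const 9))) hη
  refine ⟨(k1 + k2 + k3 + k4 + k5 + 2) ^ 8, fun N hN => ?_⟩
  obtain ⟨K, hK1, hK2⟩ := pr_root N
  have hK : k1 + k2 + k3 + k4 + k5 + 2 < K + 1 :=
    lt_of_pow_lt_pow_left₀ 8 (Nat.zero_le _) (hN.trans_lt hK2)
  have a1 := hk1 K (by omega)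
  have a2 := hk2 K (by omega)
  have a3 := hk3 K (by omega)
  have a4 := hk4 K (by omega)
  have a5 := hk5 K (by omega)
  refine ⟨K, prS e K, prJ e r K, prK3 e r K, prK4 e r K, prD e r R K, prC e r R K, hK2,
    fun ε hε => ⟨by omega, le_rfl, le_rfl, le_rfl, le_rfl, ?_, le_rfl, by omega, by omega,
      by omega⟩, by omega, ?_, ?_⟩
  · unfold prD
    omega
  · push_cast at a4
    refine a4.trans (mul_le_mul_of_nonneg_left ?_ hη.le)
    exact pow_le_pow_right₀ one_le_two (by omega)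
  · refine le_trans ?_ a5
    have b1 : (e * (7 * N + 1)) ^ m * (8 * N + 9) ≤
        (e * (7 * (K + 1) ^ 8 + 1)) ^ m * (8 * (K + 1) ^ 8 + 9) :=
      Nat.mul_le_mul (Nat.pow_le_pow_left (Nat.mul_le_mul_left _ (by omega)) m) (by omega)
    exact_mod_cast b1

theorem params2 (e r R m : ℕ) (η : ℝ) (hη : 0 < η) : ∃ N₀ : ℕ, ∀ N, N₀ ≤ N →
    ∃ K s₀ J₀ K₃ K₄ D c : ℕ, (∀ ε, N ≤ 2 * ε + K → Prm e r R K s₀ J₀ K₃ K₄ D c ε) ∧ 2 * K < N ∧
      4 * (s₀ : ℝ) ^ m ≤ η * 2 ^ K ∧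
      ((e * (7 * N + 1) : ℕ) : ℝ) ^ m * (8 * N + 9) ≤ η * 2 ^ ((K - 1) / 2) := by
  obtain ⟨N₀, h⟩ := params3 e r R m η hη
  refine ⟨N₀, fun N hN => ?_⟩
  obtain ⟨K, s₀, J₀, K₃, K₄, D, c, -, h1⟩ := h N hN
  exact ⟨K, s₀, J₀, K₃, K₄, D, c, h1⟩

end Pool.Agent.Lib.MP_788af2_nt.AS
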