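import Pool.Agent.Lib.MP_788af2_nt.TT.OneB
import Pool.Agent.Lib.MP_788af2_nt.TT.Alg2
import Pool.Agent.Lib.MP_788af2_nt.TT.Isog
import Pool.Agent.Lib.MP_788af2_nt.TT.BadB
import Pool.Agent.Lib.MP_788af2_nt.TT.Params

/-!
Assembly.
-/

set_option linter.unusedSectionVars false

namespace Pool.Agent.Lib.MP_788af2_nt.AS

open Polynomial WeierstrassCurve Pool.Agent.Lib.MP_a3f657_nt.Two

open AllDegAux

variable {k : Type} [Field k] [Finite k] [CharP k 2] [DecidableEq (RatFunc k)]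

private lemma main2_a (φ : k[X] → ℝ) {N K : ℕ} (hK : K ≤ N) {u v : ℝ} (hu : 0 ≤ u) (hv : 0 ≤ v)
    (hφ : ∀ a, a.natDegree ≤ N → φ a ≤ v) (h : ∀ ε, N ≤ 2 * ε + K → 2 * ε + 1 ≤ N →
      ∑ a ∈ Ae k N ε, φ a ≤ u * (Ae k N ε).card) :
    ∑ a ∈ box k N, φ a ≤ (u + v / 2 ^ (K / 2)) * (box k N).card := by
  classical
  set P : k[X] → Prop := fun a => od a = 0 ∨ 2 * (od a).natDegree + K < N with hP
  rw [← Finset.sum_filter_add_sum_filter_not _ P, add_mul, add_comm]
  refine add_le_add ?_ ?_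
  · set S := (box k N).filter fun a => ¬ P a with hS
    have hm : ∀ a ∈ S, (od a).natDegree ∈ S.image fun a => (od a).natDegree :=
      fun a ha => Finset.mem_image_of_mem _ ha
    refine le_trans ?_ (mul_le_mul_of_nonneg_left
      (Nat.cast_le.2 (Finset.card_filter_le (box k N) fun a => ¬ P a)) hu)
    rw [← hS, ← Finset.sum_fiberwise_of_maps_to hm, Finset.card_eq_sum_card_fiberwise hm,
      Nat.cast_sum, Finset.mul_sum]
    refine Finset.sum_le_sum fun ε hε => ?_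
    obtain ⟨a₀, ha₀, rfl⟩ := Finset.mem_image.1 hε
    simp only [hS, hP, Finset.mem_filter, mem_box, not_or, not_lt] at ha₀
    have e : (S.filter fun a => (od a).natDegree = (od a₀).natDegree) =
        Ae k N (od a₀).natDegree := by
      ext a
      simp only [hS, hP, Finset.mem_filter, mem_box, not_or, not_lt, mem_Ae]
      exact ⟨fun h => ⟨h.1.1, h.1.2.1, h.2⟩, fun h => ⟨⟨h.1, h.2.1, h.2.2 ▸ ha₀.2.2⟩, h.2.2⟩⟩
    rw [e]
    exact h _ ha₀.2.2 ((od_deg ha₀.2.1).trans ha₀.1)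
  · have h1 := badA (k := k) N K hK
    have e : {a : k[X] | a.natDegree ≤ N ∧ (od a = 0 ∨ 2 * (od a).natDegree + K < N)} =
        ((box k N).filter P : Finset k[X]) := by
      ext a
      simp [hP, mem_box]
    rw [e, Set.ncard_coe_finset, ← card_box] at h1
    have h2 : (((box k N).filter P).card : ℝ) * 2 ^ (K / 2) ≤ (box k N).card := by
      exact_mod_cast h1
    refine (Finset.sum_le_card_nsmul _ _ v fun a ha =>
      hφ a (mem_box.1 (Finset.mem_filter.1 ha).1)).trans ?_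
    rw [nsmul_eq_mul, div_mul_eq_mul_div, le_div_iff₀ (by positivity), mul_right_comm, mul_comm]
    exact mul_le_mul_of_nonneg_left h2 hv

private lemma main2_b (ψ : k[X] → ℝ) {N K : ℕ} (hK : K ≤ N) {u v : ℝ} (hu : 0 ≤ u) (hv : 0 ≤ v)
    (S : Finset k[X]) (hS : ∀ b, b ∈ S ↔ b.natDegree ≤ 2 * N ∧ b ≠ 0) (hψ : ∀ b ∈ S, ψ b ≤ v)
    (h : ∀ b, GoodB b N K → ψ b ≤ u) :
    ∑ b ∈ S, ψ b ≤ (u + v * (8 * N + 8) / 2 ^ ((K - 1) / 2)) * S.card := by
  classical
  rw [← Finset.sum_filter_add_sum_filter_not _ fun b => GoodB b N K, add_mul]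
  refine add_le_add ?_ ?_
  · refine (Finset.sum_le_card_nsmul _ _ u fun b hb => h b (Finset.mem_filter.1 hb).2).trans ?_
    rw [nsmul_eq_mul, mul_comm]
    exact mul_le_mul_of_nonneg_left (Nat.cast_le.2 (Finset.card_filter_le _ _)) hu
  · have h1 := badB (k := k) N K hK
    have h2 : (S.filter fun b => ¬ GoodB b N K).card ≤
        {b : k[X] | b.natDegree ≤ 2 * N ∧ ¬ GoodB b N K}.ncard := by
      rw [← Set.ncard_coe_finset]
      refine Set.ncard_le_ncard (fun b hb => ?_)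
        ((box k (2 * N)).finite_toSet.subset fun b hb => mem_box.2 hb.1)
      have := Finset.mem_filter.1 hb
      exact ⟨((hS b).1 this.1).1, this.2⟩
    have h3 : Nat.card k ^ (2 * N + 1) ≤ 2 * S.card := by
      have e : S = (box k (2 * N)).erase 0 := by
        ext b
        rw [hS, Finset.mem_erase, mem_box, and_comm]
      have h4 : 2 ≤ Nat.card k ^ (2 * N + 1) :=
        Finite.one_lt_card.trans_le (Nat.le_self_pow (by omega) _)
      rw [e, Finset.card_erase_of_mem (mem_box.2 (by simp)), card_box]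
      omega
    have h5 : ((S.filter fun b => ¬ GoodB b N K).card : ℝ) * 2 ^ ((K - 1) / 2) ≤
        (8 * N + 8) * S.card := by
      have := (Nat.mul_le_mul_right _ h2).trans (h1.trans (Nat.mul_le_mul_left _ h3))
      rw [← mul_assoc, show (4 * N + 4) * 2 = 8 * N + 8 by ring] at this
      exact_mod_cast this
    refine (Finset.sum_le_card_nsmul _ _ v fun b hb =>
      hψ b (Finset.mem_filter.1 hb).1).trans ?_
    rw [nsmul_eq_mul, div_mul_eq_mul_div, le_div_iff₀ (by positivity), mul_right_comm, mul_comm,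
      mul_assoc]
    exact mul_le_mul_of_nonneg_left h5 hv

theorem main2 (m : ℕ) (hm : 1 ≤ m) (η : ℝ) (hη : 0 < η) : ∃ N₀ : ℕ, ∀ N, N₀ ≤ N →
    ∃ A : Finset (k[X] × k[X]), A.Nonempty ∧
      (∀ p, p ∈ A ↔ p.1.natDegree ≤ N ∧ p.2.natDegree ≤ 2 * N ∧ p.2 ≠ 0) ∧
      (∀ p ∈ A, AddGroup.FG (Et (ι p.1) (ι p.2)).Point) ∧
      ∑ p ∈ A, (Module.finrank ℤ (Et (ι p.1) (ι p.2)).Point : ℝ) ^ m ≤ (1 / 2 + η) * A.card := by
  classical
  obtain ⟨r, R₀, hA⟩ := alg2 m hm (η / 3) (by positivity)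
  obtain ⟨N₀, hN₀⟩ := params2 (Nat.card k) r (R₀ + 1) m (η / 3) (by positivity)
  refine ⟨N₀, fun N hN => ?_⟩
  obtain ⟨K, s₀, J₀, K₃, K₄, D, c, hP, hK, h1, h2⟩ := hN₀ N hN
  have he : Nat.card k ≤ 2 ^ Nat.card k := Nat.lt_two_pow_self.le
  set S := (box k (2 * N)).erase 0 with hSd
  have hS : ∀ b, b ∈ S ↔ b.natDegree ≤ 2 * N ∧ b ≠ 0 := fun b => by
    rw [hSd, Finset.mem_erase, mem_box, and_comm]
  have hm' : ∀ p : k[X] × k[X], p ∈ box k N ×ˢ S ↔
      p.1.natDegree ≤ N ∧ p.2.natDegree ≤ 2 * N ∧ p.2 ≠ 0 := fun p => by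
    rw [Finset.mem_product, mem_box, hS]
  refine ⟨box k N ×ˢ S, ⟨(0, 1), (hm' _).2 (by simp)⟩, hm',
    fun p hp => fg_Et _ ((hm' p).1 hp).2.2, ?_⟩
  set v : ℝ := ((Nat.card k * (7 * N + 1) : ℕ) : ℝ) ^ m with hv
  have hv0 : 0 ≤ v := by positivity
  have hbd : ∀ b ∈ S, ∀ a : k[X], a.natDegree ≤ N → (rkb a b : ℝ) ^ m ≤ v := fun b hb a ha =>
    pow_le_pow_left₀ (by positivity)
      (by exact_mod_cast rkb_le ((hS b).1 hb).2 he ha ((hS b).1 hb).1) m
  have h3 : 4 * (s₀ : ℝ) ^ m / 2 ^ K ≤ η / 3 := by rwa [div_le_iff₀ (by positivity)]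
  have h4 := main2_b (fun b => ∑ a ∈ box k N, (rkb a b : ℝ) ^ m) (K := K) (by omega)
    (u := (1 / 2 + η / 3 + η / 3 + v / 2 ^ (K / 2)) * (box k N).card) (v := v * (box k N).card)
    (by positivity) (by positivity) S hS (fun b hb => by
      refine (Finset.sum_le_card_nsmul _ _ v fun a ha => hbd b hb a (mem_box.1 ha)).trans ?_
      rw [nsmul_eq_mul, mul_comm]) fun b hb =>
    main2_a _ (by omega) (by positivity) hv0 (hbd b ((hS b).2 ⟨hb.le, hb.ne⟩)) fun ε e1 e2 =>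
      (oneB (by positivity) hb hK e1 e2 (hP ε e1) he hA).trans
        (mul_le_mul_of_nonneg_right (by linarith) (by positivity))
  have h5 : v / 2 ^ (K / 2) ≤ v / 2 ^ ((K - 1) / 2) :=
    div_le_div_of_nonneg_left hv0 (by positivity) (pow_le_pow_right₀ one_le_two (by omega))
  have h6 : v / 2 ^ ((K - 1) / 2) + v * (8 * N + 8) / 2 ^ ((K - 1) / 2) ≤ η / 3 := by
    rw [← add_div, div_le_iff₀ (by positivity)]
    linarith
  refine le_trans (Finset.sum_le_sum fun p hp => pow_le_pow_left₀ (by positivity)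
    (Nat.cast_le.2 (rank_Et_le p.1 ((hm' p).1 hp).2.2)) m) ?_
  rw [Finset.sum_product_right, Finset.card_product, Nat.cast_mul, ← mul_assoc]
  refine h4.trans (mul_le_mul_of_nonneg_right ?_ (by positivity))
  rw [mul_right_comm, mul_div_right_comm, ← add_mul]
  exact mul_le_mul_of_nonneg_right (by linarith) (by positivity)

end Pool.Agent.Lib.MP_788af2_nt.AS
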