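import Pool.Agent.Lib.MP_788af2_nt.TT.TwB2
import Pool.Agent.Lib.MP_788af2_nt.TT.Frame
import Pool.Agent.Lib.MP_788af2_nt.TT.Clique
import Pool.Agent.Lib.MP_788af2_nt.AS.Lattice

/-!
The average over the twists of one curve.
-/

set_option linter.unusedSectionVars false

namespace Pool.Agent.Lib.MP_788af2_nt.AS

open Polynomial WeierstrassCurve Pool.Agent.Lib.MP_a3f657_nt.Two Matrix

section

variable {k : Type} [Field k] [Finite k] [CharP k 2] {I : Type} [Fintype I] [DecidableEq I]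
  {β : I → k[X]} {L : Type} [Field L] [CharP L 2] {T : Tw β L} {H : AddSubgroup L} {κ : L}
  {K K₃ : ℕ} {W : Type} [Fintype W] [DecidableEq W] {vv : (W → ZMod 2) →+ L}
  {ν : L →+ (W → ZMod 2)} {B : G I → Matrix W W (ZMod 2)}

private lemma oneA_entry (M : Matrix W W (ZMod 2)) (i j : W) :
    M i j = Pi.single i 1 ⬝ᵥ M *ᵥ Pi.single j 1 := by simp

private lemma oneA_two (u : W → ZMod 2) : u + u = 0 := funext fun i => z2_add_self (u i)

lemma Tw.Frm.frA (hK : T.Kp H κ K) (hF : T.Frm H κ vv ν B) (h6 : 6 * K ≤ K₃)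
    (g3 : T.Gd3 H κ K₃) (g1 : T.Gd1 H κ K₃) : ∃ τ, FrA B τ := by
  obtain ⟨τ, hτ⟩ := (hF.range 1).1 (T.one_mem_Vs H _)
  have hV : ∀ u, vv u ∈ T.Vs H κ := fun u => (hF.range _).2 ⟨u, rfl⟩
  have hne : ∀ u, u ≠ 0 → vv u ≠ 0 := fun u hu e => hu (hF.inj (by rw [e, map_zero]))
  refine ⟨τ, hF.d0, ?_, fun ξ => ?_, fun ξ v => ?_, fun z w hz hw hzw => ?_,
    fun z w hz hzτ => ?_⟩
  · rintro rfl
    exact zero_ne_one ((map_zero vv).symm.trans hτ)
  · ext i j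
    rw [transpose_apply, oneA_entry (D1 B ξ) j i, oneA_entry (D1 B ξ) i j, hF.d1_eq, hF.d1_eq,
      hK.d1_symm (hV _) (hV _)]
  · rw [hF.d1_eq, hF.d1_eq, hτ, hK.d1_wu (hV _)]
  · have h3 : τ + z + w ≠ 0 := fun e => hzw (by
      rw [add_comm z τ, ← add_zero w, ← oneA_two (τ + z), ← add_assoc, add_comm w, e, zero_add])
    obtain ⟨a1, a2⟩ := DF.not_mem_Le.1 (hK.V_not_le (hV z) (hne z hz))
    obtain ⟨b1, b2⟩ := DF.not_mem_Le.1 (hK.V_not_le (hV w) (hne w hw))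
    obtain ⟨c1, c2⟩ := DF.not_mem_Le.1 (hK.V_not_le (hV _) (hne _ h3))
    have h6' : 6 * (K : ℝ) ≤ K₃ := by exact_mod_cast h6
    obtain ⟨ξ, hξ⟩ := g1 _ (hV z) _ (hV w) 0 (by
      have e : Gq (vv z) (vv w) + zc L 0 = vv z * vv w * vv (τ + z + w) := by
        rw [map_zero, add_zero, map_add, map_add, hτ, Gq]
      rw [e, DF.not_mem_Le]
      refine ⟨mul_ne_zero (mul_ne_zero a1 b1) c1, ?_⟩
      rw [T.d.deg_mul (mul_ne_zero a1 b1) c1, T.d.deg_mul a1 b1]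
      linarith)
    exact ⟨ξ, by rwa [zero_mul, add_zero, ← hF.d1_eq] at hξ⟩
  · obtain ⟨ξ, hξ⟩ := g1 _ (hV z) _ (hV w) 1 (by
      rw [map_one]
      exact g3 _ (hV z) _ (hV w) (hne z hz) fun e => hzτ (hF.inj (e.trans hτ.symm)))
    exact ⟨ξ, by rwa [one_mul, ← hτ, ← hF.d1_eq, ← hF.d1_eq] at hξ⟩

end

variable {k : Type} [Field k] [Finite k] [CharP k 2] {s : k[X]} {R D c : ℕ} {L : Type} [Field L]
  [CharP L 2] (T : Tw (bet s R D c) L) {Hf : k[X] → AddSubgroup L} {b : k[X]}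
  {e r K s₀ J₀ K₃ K₄ N ε : ℕ}

lemma Tw.Frm.clq {T : Tw (bet s R D c) L} {H : AddSubgroup L} {κ : L} (hK : T.Kp H κ K) {W : Type}
    [Fintype W] [DecidableEq W] (hW : Fintype.card W ≤ s₀) {vv : (W → ZMod 2) →+ L}
    {ν : L →+ (W → ZMod 2)} {B : G (Ix fun _ : Fin R => D) → Matrix W W (ZMod 2)}
    (hF : T.Frm H κ vv ν B) (g0 : T.Gd0 H κ r K₄)
    (g2 : T.Gd2 H κ r K₄ ((r * s₀ * R + 1) * (R + 1))) : Clq B r R := by
  classical
  intro p Mt hMt
  have hV : ∀ u, vv u ∈ T.Vs H κ := fun u => (hF.range _).2 ⟨u, rfl⟩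
  obtain ⟨ξ, h1, h2⟩ := clique hW (fun x => funext fun i => z2_add_self (x i)) (T.Xb H κ)
    T.zero_mem_Xb (fun l x hx y hy => T.add_mem_Xb hx hy) (D2 B) (D2_add B) (D2_comm B) p hMt (by
      intro m w hw
      obtain ⟨l₀, h3, h4⟩ := Finset.exists_max_image
        (Finset.univ.filter fun l => l < m ∧ ¬ Triv p (w l)) id (by
          obtain ⟨l, hl⟩ := hw
          exact ⟨l, Finset.mem_filter.2 ⟨Finset.mem_univ _, hl⟩⟩)
      obtain ⟨h5, h6⟩ := (Finset.mem_filter.1 h3).2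
      refine le_trans (Nat.mul_le_mul_right _ (Set.ncard_le_ncard ?_ (Set.toFinite _)))
        (g2 m l₀ h5 (fun a => vv (p a)) (fun l a => vv (w l a)) (fun a => hV _) (fun l a => hV _)
          (g0 _ _ (fun a => hV _) (fun a => hV _) fun h => h6
            (Triv.of_map (fun x => CharTwo.add_self_eq_zero x) vv hF.inj h)))
      rintro ξ ⟨h7, h8⟩
      refine ⟨h7, fun x hx => ?_⟩
      have h9 : ∀ l, l < m → T.InK H κ (ξ l) := fun l hl => by
        have := Fintype.mem_piFinset.1 h7 l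
        rw [if_pos hl] at this
        exact (T.mem_Xb.1 this).2
      have hx' := (T.mem_Xb.1 hx).2
      rw [← h8 x hx]
      symm
      refine Eq.trans (Finset.sum_subset (fun l hl => ?_) fun l hl hl' => ?_).symm
        (Finset.sum_congr rfl fun l hl => Finset.sum_congr rfl fun a _ => ?_)
      · simp only [Finset.mem_filter, Finset.mem_univ, true_and] at hl ⊢
        exact hl.trans_lt h5
      · simp only [Finset.mem_filter, Finset.mem_univ, true_and, not_le] at hl hl'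
        have ht : Triv p (w l) := by
          by_contra hc
          exact absurd (h4 l (Finset.mem_filter.2 ⟨Finset.mem_univ _, hl, hc⟩)) (not_le.2 hl')
        refine Triv.alt oneA_two ⊤ (fun _ => trivial) (fun _ => trivial)
          (fun u u' => u ⬝ᵥ D2 B (ξ l) x *ᵥ u') (fun _ _ _ _ _ _ => add_dotProduct _ _ _)
          (fun _ _ _ _ _ _ => by rw [mulVec_add, dotProduct_add]) (fun u _ => ?_) ht
        rw [hF.d2_eq _ _ (h9 l hl) hx']
        exact hK.d2_alt hx' (hV u) (hF.lift _ (h9 l hl) _ (hV u))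
      · simp only [Finset.mem_filter, Finset.mem_univ, true_and] at hl
        exact hF.d2_eq _ _ (h9 l (hl.trans_lt h5)) hx' _ _)
  exact ⟨ξ, fun l => (hF.inK_iff _).1 (T.mem_Xb.1 (h1 l)).2, h2⟩

theorem Tw.oneA [DecidableEq (RatFunc k)] {a : k[X]} {H : AddSubgroup L}
    (hK : T.Kp H (T.kap a b) K) (hP2 : T.Par2 a b K ε)
    (hH : ∀ Q : (T.Cw a b).Point, T.InG Q → hV T.P (T.p b) Q ∈ H)
    (hP : Prm e r R K s₀ J₀ K₃ K₄ D c ε) (he : Nat.card k ≤ 2 ^ e) : rkb a b ≤ s₀ ∧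
    ∀ (m : ℕ) (η : ℝ) (R₀ : ℕ), R₀ ≤ R → AlgOK m η r R₀ → T.Gd0 H (T.kap a b) r K₄ →
      T.Gd3 H (T.kap a b) K₃ → T.Gd1 H (T.kap a b) K₃ →
      T.Gd2 H (T.kap a b) r K₄ ((r * s₀ * R + 1) * (R + 1)) →
      ∑ ξ, (rkb (a + X * comb (bet s R D c) ξ ^ 2) b : ℝ) ^ m ≤
        (1 / 2 + η) * Fintype.card (G (Ix fun _ : Fin R => D)) := by
  classical
  obtain ⟨n, hn, vv, ν, B, hF⟩ := T.exists_frm hK he hP.hs
  obtain ⟨νM, hL⟩ := hP2.exists_lat hH hF
  have hfg := fun ξ => (hP2.eig_cmp ξ).1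
  have hW : Fintype.card (Fin n) ≤ s₀ := by simpa using hn
  refine ⟨?_, fun m η R₀ hR hA g0 g3 g1 g2 => ?_⟩
  · have h1 := (hP2.eig_cmp 0).2
    rw [show a + X * comb (bet s R D c) 0 ^ 2 = a by simp [comb]] at h1
    exact h1.trans ((hL.rank_le hfg 0).trans hW)
  · obtain ⟨τ, hτ⟩ := hF.frA hK (by have := hP.h3; omega) g3 g1
    have hC : Clq B r R₀ := fun p Mt hMt => by
      obtain ⟨ξ, h1, h2⟩ := hF.clq hK hW g0 g2 p Mt hMt
      exact ⟨fun l => ξ (Fin.castLE hR l), fun l => h1 _, fun l l' h =>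
        h2 _ _ fun e => h (Fin.castLE_injective hR e)⟩
    refine le_trans (Finset.sum_le_sum fun ξ _ => ?_) (hA _ _ _ _ _ _ hL hfg τ hτ hC)
    exact pow_le_pow_left₀ (by positivity) (by exact_mod_cast (hP2.eig_cmp ξ).2) m

end Pool.Agent.Lib.MP_788af2_nt.AS
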