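import Pool.Agent.Lib.MP_788af2_nt.TT.OneA
import Pool.Agent.Lib.MP_788af2_nt.TT.Bad0
import Pool.Agent.Lib.MP_788af2_nt.TT.Bad1
import Pool.Agent.Lib.MP_788af2_nt.TT.Bad2
import Pool.Agent.Lib.MP_788af2_nt.TT.Bad3
import Pool.Agent.Lib.MP_788af2_nt.TT.HIso
import Pool.Agent.Lib.MP_788af2_nt.TT.HLift
import Pool.Agent.Lib.MP_788af2_nt.TT.HDisc
import Pool.Agent.Lib.MP_788af2_nt.TT.HCount
import Pool.Agent.Lib.MP_788af2_nt.TT.GlobB
import Pool.Agent.Lib.MP_788af2_nt.AS.TwEx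

/-!
The average over the first coefficient.
-/

set_option linter.unusedSectionVars false

namespace Pool.Agent.Lib.MP_788af2_nt.AS

open Polynomial WeierstrassCurve Pool.Agent.Lib.MP_a3f657_nt.Two

private lemma oneB_avg {α Γ : Type} [Fintype Γ] [Nonempty Γ] (A : Finset α) (act : Γ → α → α)
    (hA : ∀ γ, ∀ a ∈ A, act γ a ∈ A) (hi : ∀ γ a, act γ (act γ a) = a) (φ : α → ℝ) {u v t : ℝ}
    (hu : 0 ≤ u) (hv : 0 ≤ v) (ht : 0 < t) (hφ : ∀ a ∈ A, φ a ≤ v) (P : Fin 4 → α → Prop)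
    (hP : ∀ i, ({a | a ∈ A ∧ ¬ P i a}.ncard : ℝ) * t ≤ A.card)
    (h : ∀ a ∈ A, (∀ i, P i a) → ∑ γ, φ (act γ a) ≤ u * Fintype.card Γ) :
    ∑ a ∈ A, φ a ≤ (u + 4 * v / t) * A.card := by
  classical
  have hΓ : (0 : ℝ) < Fintype.card Γ := by exact_mod_cast Fintype.card_pos
  have h1 : (Fintype.card Γ : ℝ) * ∑ a ∈ A, φ a = ∑ a ∈ A, ∑ γ, φ (act γ a) := by
    rw [Finset.sum_comm, ← nsmul_eq_mul, ← Finset.card_univ, ← Finset.sum_const]
    exact Finset.sum_congr rfl fun γ _ => Finset.sum_nbij' (act γ) (act γ) (hA γ) (hA γ)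
      (fun a _ => hi γ a) (fun a _ => hi γ a) fun a _ => by rw [hi]
  have h2 : ∀ a ∈ A, ∑ γ, φ (act γ a) ≤
      (u + ∑ i, if P i a then 0 else v) * Fintype.card Γ := by
    intro a ha
    by_cases hg : ∀ i, P i a
    · simpa [hg] using h a ha hg
    · obtain ⟨i, hi⟩ := not_forall.1 hg
      have h3 : v ≤ ∑ i, if P i a then 0 else v := by
        have := Finset.single_le_sum (f := fun i => if P i a then 0 else v)
          (fun j _ => by positivity) (Finset.mem_univ i)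
        rwa [if_neg hi] at this
      refine (Finset.sum_le_card_nsmul _ _ v fun γ _ => hφ _ (hA γ a ha)).trans ?_
      rw [nsmul_eq_mul, Finset.card_univ, mul_comm]
      exact mul_le_mul_of_nonneg_right (by linarith) hΓ.le
  have h4 : ∀ i, ∑ a ∈ A, (if P i a then 0 else v) ≤ v / t * A.card := by
    intro i
    have e : {a | a ∈ A ∧ ¬ P i a} = (A.filter fun a => ¬ P i a : Finset α) := by
      ext a
      simp
    have h5 := hP i
    rw [e, Set.ncard_coe_finset] at h5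
    rw [Finset.sum_ite, Finset.sum_const_zero, zero_add, Finset.sum_const, nsmul_eq_mul,
      div_mul_eq_mul_div, le_div_iff₀ ht, mul_right_comm, mul_comm]
    exact mul_le_mul_of_nonneg_left h5 hv
  have h5 := Finset.sum_le_sum h2
  rw [← h1, ← Finset.sum_mul, mul_comm, mul_le_mul_iff_left₀ hΓ, Finset.sum_add_distrib,
    Finset.sum_comm, Finset.sum_const, nsmul_eq_mul] at h5
  have h6 := Finset.sum_le_card_nsmul Finset.univ _ _ fun i _ => h4 i
  rw [Finset.card_univ, Fintype.card_fin, nsmul_eq_mul] at h6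
  have e : (u + 4 * v / t) * A.card = A.card * u + (4 : ℕ) * (v / t * A.card) := by
    push_cast
    ring
  linarith

variable {k : Type} [Field k] [Finite k] [CharP k 2] [DecidableEq (RatFunc k)]

theorem oneB {b : k[X]} {e r R₀ K s₀ J₀ K₃ K₄ D c N ε m : ℕ} {η : ℝ} (hη : 0 ≤ η)
    (hb : GoodB b N K) (hK : 2 * K < N) (h1 : N ≤ 2 * ε + K) (h2 : 2 * ε + 1 ≤ N)
    (hP : Prm e r (R₀ + 1) K s₀ J₀ K₃ K₄ D c ε) (he : Nat.card k ≤ 2 ^ e) (hA : AlgOK m η r R₀) :
    ∑ a ∈ Ae k N ε, (rkb a b : ℝ) ^ m ≤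
      (1 / 2 + η + 4 * (s₀ : ℝ) ^ m / 2 ^ K) * (Ae k N ε).card := by
  classical
  obtain ⟨o1, o2, o3, o4⟩ := hb.od hK
  obtain ⟨ro, s, hs⟩ := exists_adm o1
  have hs0 := (hs 0).s_ne
  have hsK : s.natDegree ≤ K := hb.sq s ⟨ro, by rw [mul_comm]; exact (hs 0).eq⟩
  obtain ⟨L, _, _, ⟨T⟩⟩ := exists_tw (bet s (R₀ + 1) D c)
    (comb_bet_ne hs0 (by have := hP.hc; omega))
  have hC : T.Cfg (fun a => T.Hs ro (cq ro s a) a) K b s N ε :=
    { pos := hP.K_pos
      hg := fun a =>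
        { σ_mem := fun g h hh => T.Hs_σ g hh
          iso := fun h hh h' hh' => T.Hs_iso (hs a) hh hh'
          iso' := fun h hh ξ g hg => T.Hs_iso' (hs a) hh ξ g hg
          lift := fun h hh hf => T.Hs_lift (hs a) dvd_bet hh hf
          disc := fun h hh hf hl => T.Hs_disc (hs a) dvd_bet hb.nt hh hf hl
          count := T.Hs_count (hs a) }
      inv := fun a μ hμ => by
        rw [cq_flip ro hs0 a hμ, T.Hs_flip ro a ((hs a).dvd.trans hμ)]
      od_ne := o1
      ev_le := by have := ev_deg b; omega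
      le1 := by omega
      le2 := by omega
      s_ne := hs0
      s_le := hsK
      N_ge := h2 }
  have key := fun a (ha : a ∈ Ae k N ε) => T.oneA (hC.kp ha)
    { pos := hP.K_pos
      a_ne := (mem_Ae.1 ha).2.1
      a_od := (mem_Ae.1 ha).2.2
      a_le := (mem_Ae.1 ha).1.trans h1
      b_ne := o1
      b_le := o2
      le1 := hC.le1
      le2 := hC.le2
      big := by
        have h3 := gam_bet (R := R₀ + 1) (D := D) (c := c) hsK
        have h4 : ((5 * K + 5 * ((R₀ + 1) * D * (K + 4 ^ (R₀ + 1) * c + D + 1)) + 5 : ℕ) : ℝ) ≤ ε :=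
          by exact_mod_cast hP.e1
        push_cast at h3 h4
        linarith }
    (fun Q hQ => T.glob_h (hs a) dvd_bet hQ) hP he
  refine oneB_avg _ (fun ξ a => a + X * comb (bet s (R₀ + 1) D c) ξ ^ 2)
    (fun ξ a ha => Ae_flip ha h2 (degree_le_natDegree.trans_lt ?_))
    (fun ξ a => by rw [add_assoc, CharTwo.add_self_eq_zero, add_zero]) _ (by positivity)
    (by positivity) (by positivity)
    (fun a ha => pow_le_pow_left₀ (by positivity) (by exact_mod_cast (key a ha).1) m)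
    ![fun a => T.Gd0 (T.Hs ro (cq ro s a) a) (T.kap a b) r K₄,
      fun a => T.Gd3 (T.Hs ro (cq ro s a) a) (T.kap a b) K₃,
      fun a => T.Gd1 (T.Hs ro (cq ro s a) a) (T.kap a b) K₃,
      fun a => T.Gd2 (T.Hs ro (cq ro s a) a) (T.kap a b) r K₄
        ((r * s₀ * (R₀ + 1) + 1) * (R₀ + 1 + 1))] (fun i => ?_)
    fun a ha hg => (key a ha).2 m η R₀ R₀.le_succ hA (hg 0) (hg 1) (hg 2) (hg 3)
  · have h3 := comb_bet_deg (R := R₀ + 1) (D := D) (c := c) hsK ξ
    have h4 := hP.e3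
    exact_mod_cast (by omega : (comb (bet s (R₀ + 1) D c) ξ).natDegree < ε)
  · fin_cases i
    · exact_mod_cast T.bad0 hC hP he
    · exact_mod_cast T.bad3 hC hP he
    · exact_mod_cast T.bad1 hC hP he R₀.succ_pos
    · exact_mod_cast T.bad2 hC hP he

end Pool.Agent.Lib.MP_788af2_nt.AS
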