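import Pool.Agent.Lib.MP_788af2_nt.TT.ADefs

/-!
The symmetric case of the second anticoncentration bound.
-/

set_option linter.unusedSectionVars false

namespace Pool.Agent.Lib.MP_788af2_nt.AS

open Polynomial WeierstrassCurve Pool.Agent.Lib.MP_a3f657_nt.Two Matrix

private theorem s2_cb (n : ℕ) : Nat.centralBinom n ^ 2 * (2 * n + 1) ≤ 16 ^ n := by
  induction n with
  | zero => simp
  | succ n ih =>
    have h := Nat.succ_mul_centralBinom_succ n
    have h1 : (n + 1) ^ 2 * (Nat.centralBinom (n + 1) ^ 2 * (2 * (n + 1) + 1)) =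
        4 * ((2 * n + 1) * (2 * n + 3)) * (Nat.centralBinom n ^ 2 * (2 * n + 1)) := by
      calc (n + 1) ^ 2 * (Nat.centralBinom (n + 1) ^ 2 * (2 * (n + 1) + 1))
          = ((n + 1) * Nat.centralBinom (n + 1)) ^ 2 * (2 * n + 3) := by ring
        _ = _ := by rw [h]; ring
    have h2 : 4 * ((2 * n + 1) * (2 * n + 3)) ≤ (n + 1) ^ 2 * 16 := by nlinarith
    have h3 := Nat.mul_le_mul h2 ih
    rw [← h1, mul_assoc] at h3
    have h4 := Nat.le_of_mul_le_mul_left h3 (by positivity)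
    rwa [pow_succ' 16 n]

private theorem s2_rho (w : ℕ) (η : ℝ) (hη : 0 < η) :
    ∃ ρ : ℕ, ∀ j, (w : ℝ) * (ρ.choose j : ℝ) ≤ η * 2 ^ ρ := by
  obtain ⟨n, hn⟩ := exists_nat_ge ((w : ℝ) ^ 2 / η ^ 2)
  refine ⟨2 * n, fun j => ?_⟩
  have h1 : (((2 * n).choose j : ℕ) : ℝ) ≤ Nat.centralBinom n := by
    exact_mod_cast Nat.choose_le_centralBinom j n
  have h2 : (Nat.centralBinom n : ℝ) ^ 2 * (2 * n + 1) ≤ 16 ^ n := by exact_mod_cast s2_cb n
  have h3 : (w : ℝ) ^ 2 ≤ η ^ 2 * (2 * n + 1) := by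
    rw [div_le_iff₀ (by positivity)] at hn
    have : (0 : ℝ) ≤ n := n.cast_nonneg
    nlinarith [sq_nonneg η]
  have h4 : ((w : ℝ) * Nat.centralBinom n) ^ 2 ≤ (η * 2 ^ (2 * n)) ^ 2 := by
    have e : ((2 : ℝ) ^ (2 * n)) ^ 2 = 16 ^ n := by
      rw [← pow_mul, show 2 * n * 2 = 4 * n by ring, pow_mul]
      norm_num
    rw [mul_pow, mul_pow, e]
    calc (w : ℝ) ^ 2 * (Nat.centralBinom n : ℝ) ^ 2
        ≤ η ^ 2 * (2 * n + 1) * (Nat.centralBinom n : ℝ) ^ 2 := by gcongr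
      _ = η ^ 2 * ((Nat.centralBinom n : ℝ) ^ 2 * (2 * n + 1)) := by ring
      _ ≤ _ := by gcongr
  have h5 := (pow_le_pow_iff_left₀ (by positivity) (by positivity) two_ne_zero).1 h4
  exact (mul_le_mul_of_nonneg_left h1 w.cast_nonneg).trans h5

private theorem s2_dvd (A : ℕ) (q : ℤ) (k : ℕ) :
    ∀ d : ℤ, ¬ (2 : ℤ) ^ k ∣ d → (2 : ℤ) ^ (A + k) ∣ d * q → (2 : ℤ) ^ A ∣ q := by
  induction k with
  | zero => intro d h; simp at h
  | succ k ih =>
    intro d h1 h2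
    by_cases h : (2 : ℤ) ∣ d
    · obtain ⟨d', rfl⟩ := h
      refine ih d' (fun h3 => h1 ?_) ?_
      · rw [pow_succ']
        exact mul_dvd_mul_left 2 h3
      · rw [← add_assoc, pow_succ', mul_assoc] at h2
        exact (mul_dvd_mul_iff_left two_ne_zero).1 h2
    · exact (pow_dvd_pow 2 (Nat.le_add_right _ _)).trans
        (Int.prime_two.pow_dvd_of_dvd_mul_left _ h h2)

/-- A polynomial that is nonzero of degree at most `r` modulo two has at most `r` approximate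
roots below `2 ^ k`. -/
private theorem s2_roots (k r : ℕ) : ∀ F : ℤ[X], F.map (Int.castRingHom (ZMod 2)) ≠ 0 →
    (F.map (Int.castRingHom (ZMod 2))).natDegree ≤ r → ∀ s : Finset ℕ,
    (∀ n ∈ s, n < 2 ^ k ∧ (2 : ℤ) ^ (r * k + 1) ∣ F.eval (n : ℤ)) → s.card ≤ r := by
  have ev : ∀ (F : ℤ[X]) (x : ℤ) (m : ℕ), (2 : ℤ) ^ (m + 1) ∣ F.eval x →
      Int.castRingHom (ZMod 2) (F.eval x) = 0 := by
    intro F x m h
    exact (ZMod.intCast_zmod_eq_zero_iff_dvd _ 2).2 ((dvd_pow_self 2 m.succ_ne_zero).trans h)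
  induction r with
  | zero =>
    intro F h0 hd s hs
    rw [Nat.le_zero, Finset.card_eq_zero, Finset.eq_empty_iff_forall_notMem]
    intro n hn
    have h1 := ev F n _ (hs n hn).2
    rw [← eval_map_apply, eq_C_of_natDegree_le_zero hd, eval_C] at h1
    rw [eq_C_of_natDegree_le_zero hd, h1, C_0] at h0
    exact h0 rfl
  | succ r ih =>
    intro F h0 hd s hs
    rcases s.eq_empty_or_nonempty with rfl | ⟨n0, hn0⟩
    · simp
    obtain ⟨Q, hQ⟩ := X_sub_C_dvd_sub_C_eval (p := F) (a := (n0 : ℤ))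
    have h1 := ev F n0 _ (hs n0 hn0).2
    have h2 : F.map (Int.castRingHom (ZMod 2)) =
        (X - C (Int.castRingHom (ZMod 2) n0)) * Q.map (Int.castRingHom (ZMod 2)) := by
      have h3 := congrArg (Polynomial.map (Int.castRingHom (ZMod 2))) hQ
      rwa [Polynomial.map_sub, map_C, h1, C_0, sub_zero, Polynomial.map_mul, Polynomial.map_sub,
        map_X, map_C] at h3
    have hQ0 : Q.map (Int.castRingHom (ZMod 2)) ≠ 0 := by
      intro h
      rw [h2, h, mul_zero] at h0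
      exact h0 rfl
    have hQd : (Q.map (Int.castRingHom (ZMod 2))).natDegree ≤ r := by
      rw [h2, (monic_X_sub_C _).natDegree_mul' hQ0, natDegree_X_sub_C] at hd
      omega
    have h4 := ih Q hQ0 hQd (s.erase n0) (by
      intro n hn
      obtain ⟨hne, hn⟩ := Finset.mem_erase.1 hn
      refine ⟨(hs n hn).1, s2_dvd _ _ k ((n : ℤ) - n0) (fun h => ?_) ?_⟩
      · have h5 : ((2 ^ k : ℕ) : ℤ) ∣ (n : ℤ) - n0 := by exact_mod_cast h
        have h6 := (hs n hn).1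
        have h7 := (hs n0 hn0).1
        have h8 := Int.eq_zero_of_abs_lt_dvd h5 (by rw [abs_lt]; constructor <;> omega)
        omega
      · have h5 := congrArg (eval (n : ℤ)) hQ
        rw [eval_sub, eval_C, eval_mul, eval_sub, eval_X, eval_C] at h5
        rw [← h5, show r * k + 1 + k = (r + 1) * k + 1 by ring]
        exact dvd_sub (hs n hn).2 (hs n0 hn0).2)
    rw [Finset.card_erase_of_mem hn0] at h4
    omega

private theorem s2_odd1 (m : ℕ) : ∃ o : ℕ, Odd o ∧ (m ≠ 0 → 2 * m.factorial ∣ o * 2 ^ m) := by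
  obtain ⟨u, o, ho, h⟩ := Nat.exists_eq_two_pow_mul_odd m.factorial_ne_zero
  refine ⟨o, ho, fun hm => ?_⟩
  have h1 : (u : ℕ∞) ≤ emultiplicity 2 m.factorial :=
    pow_dvd_iff_le_emultiplicity.1 ⟨o, h⟩
  have h2 : u < m := by
    exact_mod_cast h1.trans_lt (Nat.emultiplicity_two_factorial_lt hm)
  rw [h, ← mul_assoc, ← pow_succ', mul_comm o]
  exact mul_dvd_mul_right (pow_dvd_pow 2 h2) o

private theorem s2_odd2 (s : ℕ) :
    ∃ o : ℕ, Odd o ∧ 2 * (s + 2).factorial ∣ o * 2 ^ (2 * ((s + 2) / 2)) := by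
  rcases Nat.even_or_odd' s with ⟨t, rfl | rfl⟩
  · obtain ⟨o, ho, h⟩ := s2_odd1 (2 * t + 2)
    refine ⟨o, ho, ?_⟩
    rw [show 2 * ((2 * t + 2) / 2) = 2 * t + 2 by omega]
    exact h (by omega)
  · obtain ⟨o, ho, h⟩ := s2_odd1 (2 * t + 2)
    refine ⟨(2 * t + 2 + 1) * o, Odd.mul ⟨t + 1, by ring⟩ ho, ?_⟩
    rw [show 2 * ((2 * t + 1 + 2) / 2) = 2 * t + 2 by omega,
      show 2 * t + 1 + 2 = (2 * t + 2) + 1 by ring, Nat.factorial_succ, mul_left_comm, mul_assoc]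
    exact mul_dvd_mul_left _ (h (by omega))

private theorem s2_odd (ρ : ℕ) : ∃ o : ℕ, Odd o ∧
    ∀ s, s ≤ ρ → 2 * (s + 2).factorial ∣ o * 2 ^ (2 * ((s + 2) / 2)) := by
  choose o ho using s2_odd2
  refine ⟨∏ m ∈ Finset.range (ρ + 1), o m,
    Finset.prod_induction _ _ (fun a b => Odd.mul) odd_one fun m _ => (ho m).1,
    fun m hm => (ho m).2.trans (mul_dvd_mul_right ?_ _)⟩
  exact Finset.dvd_prod_of_mem _ (Finset.mem_range.2 (Nat.lt_succ_of_le hm))

private theorem s2_desc (n₀ : ℤ) (s : ℕ) : ∃ g : ℤ[X], ∀ m : ℤ,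
    (descPochhammer ℤ s).eval (n₀ + 2 * m) = 2 ^ (s / 2) * g.eval m := by
  induction s using Nat.twoStepInduction with
  | zero => exact ⟨1, fun m => by simp⟩
  | one => exact ⟨C n₀ + 2 * X, fun m => by simp⟩
  | more s ih _ =>
    obtain ⟨g, hg⟩ := ih
    obtain ⟨c, hc⟩ := Int.even_mul_pred_self (n₀ - s)
    refine ⟨g * (C c + C (2 * (n₀ - s) - 1) * X + 2 * X ^ 2), fun m => ?_⟩
    rw [descPochhammer_succ_eval, descPochhammer_succ_eval, hg,
      show (s + 2) / 2 = s / 2 + 1 by omega, pow_succ]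
    simp only [eval_mul, eval_add, eval_C, eval_X, eval_pow, eval_ofNat]
    push_cast
    linear_combination (2 ^ (s / 2) * g.eval m) * hc

private theorem s2_poly {ρ o : ℕ}
    (ho : ∀ s, s ≤ ρ → 2 * (s + 2).factorial ∣ o * 2 ^ (2 * ((s + 2) / 2))) (n₀ : ℕ)
    (a : ℕ → ℤ) (ha : ∀ s, (2 : ℤ) ^ (s / 2) ∣ a s) : ∃ g : ℤ[X], ∀ m : ℕ, n₀ + 2 * m ≤ ρ →
      (o : ℤ) * ∑ s ∈ Finset.range (n₀ + 2 * m + 1), (n₀ + 2 * m).choose s • a s =
        o * a 0 + o * a 1 * n₀ + 2 * g.eval (m : ℤ) := by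
  have h1 : ∀ s, ∃ G : ℤ[X], s ≤ ρ → ∀ m : ℕ,
      (o : ℤ) * ((n₀ + 2 * m).choose (s + 2) • a (s + 2)) = 2 * G.eval (m : ℤ) := by
    intro s
    by_cases hs : s ≤ ρ
    · have h2 : (2 : ℤ) * (s + 2).factorial ∣ o * 2 ^ (2 * ((s + 2) / 2)) := by
        exact_mod_cast Int.natCast_dvd_natCast.2 (ho s hs)
      obtain ⟨e, he⟩ := h2
      obtain ⟨a', ha'⟩ := ha (s + 2)
      obtain ⟨g, hg⟩ := s2_desc n₀ (s + 2)
      refine ⟨C (e * a') * g, fun _ m => ?_⟩
      have h3 := hg m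
      have h4 : ((n₀ : ℤ) + 2 * m) = ((n₀ + 2 * m : ℕ) : ℤ) := by push_cast; ring
      rw [h4, descPochhammer_eval_eq_descFactorial, Nat.descFactorial_eq_factorial_mul_choose,
        Nat.cast_mul] at h3
      have h5 : (2 : ℤ) ^ ((s + 2) / 2) ≠ 0 := by positivity
      refine mul_left_cancel₀ h5 ?_
      rw [two_mul ((s + 2) / 2), pow_add] at he
      rw [eval_mul, eval_C, nsmul_eq_mul, ha']
      linear_combination ((((n₀ + 2 * m).choose (s + 2) : ℕ) : ℤ) * a') * he + (2 * e * a') * h3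
    · exact ⟨0, fun h => absurd h hs⟩
  choose G hG using h1
  refine ⟨∑ s ∈ Finset.range (ρ + 1), G s + C ((o : ℤ) * a 1) * X, fun m hm => ?_⟩
  have h2 : ∑ s ∈ Finset.range (n₀ + 2 * m + 1), (n₀ + 2 * m).choose s • a s =
      ∑ s ∈ Finset.range (ρ + 1 + 1 + 1), (n₀ + 2 * m).choose s • a s := by
    refine Finset.sum_subset (Finset.range_subset_range.2 (by omega)) fun s _ hs => ?_
    rw [Nat.choose_eq_zero_of_lt (by simpa using hs), zero_smul]
  have h3 : (o : ℤ) * ∑ s ∈ Finset.range (ρ + 1), (n₀ + 2 * m).choose (s + 1 + 1) • a (s + 1 + 1) =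
      2 * (∑ s ∈ Finset.range (ρ + 1), G s).eval (m : ℤ) := by
    rw [eval_finsetSum, Finset.mul_sum, Finset.mul_sum]
    exact Finset.sum_congr rfl fun s hs => hG s (Nat.le_of_lt_succ (Finset.mem_range.1 hs)) m
  rw [h2, Finset.sum_range_succ', Finset.sum_range_succ', mul_add, mul_add, h3,
    Nat.choose_zero_right, one_smul, zero_add, Nat.choose_one_right, nsmul_eq_mul, eval_add,
    eval_mul, eval_C, eval_X]
  push_cast
  ring

private theorem s2_choose (n m : ℕ) : (((n + 2 * m).choose 2 : ℕ) : ℤ) =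
    (n.choose 2 : ℕ) + (2 * n - 1) * m + 2 * m ^ 2 := by
  induction m with
  | zero => simp
  | succ m ih =>
    rw [show n + 2 * (m + 1) = n + 2 * m + 1 + 1 by ring, Nat.choose_succ_succ' _ 1,
      Nat.choose_succ_succ' (n + 2 * m) 1, Nat.choose_one_right, Nat.choose_one_right]
    push_cast at ih ⊢
    linear_combination ih

private theorem s2_det {v : ℕ} (d : ℤ) (A B : Matrix (Fin v) (Fin v) ℤ)
    (h : ∀ a b, d ∣ A a b - B a b) : d ∣ A.det - B.det := by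
  rw [← Ideal.mem_span_singleton, ← Ideal.Quotient.eq, RingHom.map_det, RingHom.map_det]
  congr 1
  ext a b
  simp only [RingHom.mapMatrix_apply, Matrix.map_apply]
  rw [Ideal.Quotient.eq, Ideal.mem_span_singleton]
  exact h a b

private theorem s2_core {v : ℕ} (ρ n₀ N₀ : ℕ) (y z : ℕ → Matrix (Fin v) (Fin v) ℤ)
    (hy : ∀ s a b, (2 : ℤ) ^ ((s + 1) / 2) ∣ y s a b) (hz : ∀ s a b, (2 : ℤ) ^ (s / 2) ∣ z s a b)
    (hodd : Odd (y 0).det) (t : Finset ℕ) (ht : ∀ m ∈ t, n₀ + 2 * m ≤ ρ ∧ (2 : ℤ) ^ (v * ρ + 1) ∣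
      ((((N₀ + (n₀ + 2 * m)).choose 2 : ℕ) : ℤ) •
        ∑ s ∈ Finset.range (n₀ + 2 * m + 1), (n₀ + 2 * m).choose s • y s +
        ∑ s ∈ Finset.range (n₀ + 2 * m + 1), (n₀ + 2 * m).choose s • z s).det) : t.card ≤ v := by
  obtain ⟨o, hoo, ho⟩ := s2_odd ρ
  have hgy := fun a b => s2_poly ho n₀ (fun s => y s a b) fun s =>
    (pow_dvd_pow 2 (by omega)).trans (hy s a b)
  have hgz := fun a b => s2_poly ho n₀ (fun s => z s a b) fun s => hz s a b
  choose gy hgy using hgy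
  choose gz hgz using hgz
  let M : Matrix (Fin v) (Fin v) ℤ[X] := Matrix.of fun a b =>
    (C (((N₀ + n₀).choose 2 : ℕ) : ℤ) + C (2 * ((N₀ + n₀ : ℕ) : ℤ) - 1) * X + 2 * X ^ 2) *
      (C ((o : ℤ) * y 0 a b + o * y 1 a b * n₀) + 2 * gy a b) +
      (C ((o : ℤ) * z 0 a b + o * z 1 a b * n₀) + 2 * gz a b)
  let φ := Int.castRingHom (ZMod 2)
  have ho1 : φ (o : ℤ) = 1 := by
    obtain ⟨u, rfl⟩ := hoo
    have : (2 : ZMod 2) = 0 := rfl
    simp [φ, this]
  have hF : M.det.map φ = ((X : (ZMod 2)[X]) • ((y 0).map φ).map C +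
      (Matrix.of fun a b => φ (((N₀ + n₀).choose 2 : ℕ) : ℤ) * φ (y 0 a b) +
        φ ((o : ℤ) * z 0 a b + o * z 1 a b * n₀)).map C).det := by
    have h2 : (2 : (ZMod 2)[X]) = 0 := by exact_mod_cast CharP.cast_eq_zero (ZMod 2)[X] 2
    rw [← coe_mapRingHom, RingHom.map_det]
    congr 1
    refine Matrix.ext fun a b => ?_
    have h3 : φ (y 1 a b) = 0 := (ZMod.intCast_zmod_eq_zero_iff_dvd _ 2).2 (by simpa using hy 1 a b)
    have h4 : φ (2 * ((N₀ + n₀ : ℕ) : ℤ) - 1) = 1 := by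
      have : (2 : ZMod 2) = 0 := rfl
      rw [map_sub, map_mul, map_ofNat, this, zero_mul, map_one]
      rfl
    have h5 : φ ((o : ℤ) * y 0 a b + o * y 1 a b * n₀) = φ (y 0 a b) := by
      rw [map_add, map_mul, map_mul, map_mul, ho1, h3]
      ring
    simp only [M, RingHom.mapMatrix_apply, Matrix.map_apply, Matrix.of_apply, coe_mapRingHom,
      Polynomial.map_mul, Polynomial.map_add, Polynomial.map_pow, map_X, map_C,
      Polynomial.map_ofNat, h2, zero_mul, add_zero, h4, h5, Matrix.add_apply, Matrix.smul_apply,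
      smul_eq_mul, C_1]
    rw [C_add (a := φ _ * φ _), C_mul]
    ring
  have hFd : (M.det.map φ).natDegree ≤ v := by
    rw [hF]
    exact (natDegree_det_X_add_C_le _ _).trans (Fintype.card_fin v).le
  have hF0 : M.det.map φ ≠ 0 := by
    intro h
    have h1 := coeff_det_X_add_C_card ((y 0).map φ)
      (Matrix.of fun a b => φ (((N₀ + n₀).choose 2 : ℕ) : ℤ) * φ (y 0 a b) +
        φ ((o : ℤ) * z 0 a b + o * z 1 a b * n₀))
    rw [← hF, h, coeff_zero, ← RingHom.mapMatrix_apply, ← RingHom.map_det] at h1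
    have h3 : (2 : ℤ) ∣ (y 0).det := (ZMod.intCast_zmod_eq_zero_iff_dvd _ 2).1 h1.symm
    exact Int.not_even_iff_odd.2 hodd (even_iff_two_dvd.2 h3)
  refine s2_roots ρ v M.det hF0 hFd t fun m hm => ?_
  obtain ⟨h1, h2⟩ := ht m hm
  refine ⟨lt_of_le_of_lt (by omega) (Nat.lt_two_pow_self (n := ρ)), ?_⟩
  have h3 : M.det.eval (m : ℤ) = ((o : ℤ) • ((((N₀ + (n₀ + 2 * m)).choose 2 : ℕ) : ℤ) •
        ∑ s ∈ Finset.range (n₀ + 2 * m + 1), (n₀ + 2 * m).choose s • y s +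
        ∑ s ∈ Finset.range (n₀ + 2 * m + 1), (n₀ + 2 * m).choose s • z s)).det := by
    rw [← coe_evalRingHom, RingHom.map_det]
    congr 1
    refine Matrix.ext fun a b => ?_
    have h4 := hgy a b m h1
    have h5 := hgz a b m h1
    have h6 := s2_choose (N₀ + n₀) m
    rw [add_assoc N₀] at h6
    simp only [M, RingHom.mapMatrix_apply, Matrix.map_apply, Matrix.of_apply, coe_evalRingHom,
      eval_mul, eval_add, eval_pow, eval_X, eval_C, eval_ofNat, Matrix.add_apply,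
      Matrix.smul_apply, Matrix.sum_apply]
    rw [← h4, ← h5, ← h6, smul_eq_mul, smul_eq_mul]
    ring
  rw [h3, Matrix.det_smul]
  exact h2.mul_left _

theorem sym_case2 (w : ℕ) (η : ℝ) (hη : 0 < η) : ∃ ρ J : ℕ, ∀ v ≤ w, ∀ (α : Type) [DecidableEq α]
    (B : Finset α), B.card = ρ → ∀ (x h : Finset α → Matrix (Fin v) (Fin v) ℤ) (N₀ : ℕ),
    (∀ S a b, (2 : ℤ) ^ ((S.card + 1) / 2) ∣ x S a b) →
    (∀ S a b, (2 : ℤ) ^ (S.card / 2) ∣ h S a b) →
    (∀ S ⊆ B, ∀ S' ⊆ B, S.card = S'.card → ∀ a b,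
      (2 : ℤ) ^ J ∣ x S a b - x S' a b ∧ (2 : ℤ) ^ J ∣ h S a b - h S' a b) →
    Odd (x ∅).det → ((B.powerset.filter fun C =>
      ((((N₀ + C.card).choose 2 : ℕ) : ℤ) • ∑ S ∈ C.powerset, x S +
        ∑ S ∈ C.powerset, h S).det = 0).card : ℝ) ≤ η * 2 ^ ρ := by
  obtain ⟨ρ, hρ⟩ := s2_rho (2 * w) η hη
  refine ⟨ρ, w * ρ + 1, fun v hv α _ B hB x h N₀ hx hh hsym hodd => ?_⟩
  have hT : ∀ s, ∃ y z : Matrix (Fin v) (Fin v) ℤ, (∀ a b, (2 : ℤ) ^ ((s + 1) / 2) ∣ y a b) ∧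
      (∀ a b, (2 : ℤ) ^ (s / 2) ∣ z a b) ∧ (s = 0 → y = x ∅) ∧ ∀ S ⊆ B, S.card = s → ∀ a b,
        (2 : ℤ) ^ (w * ρ + 1) ∣ x S a b - y a b ∧ (2 : ℤ) ^ (w * ρ + 1) ∣ h S a b - z a b := by
    intro s
    by_cases hs : s ≤ ρ
    · obtain ⟨T, hTB, rfl⟩ := Finset.exists_subset_card_eq (s := B) (hB ▸ hs)
      exact ⟨x T, h T, hx T, hh T, fun h0 => by rw [Finset.card_eq_zero.1 h0],
        fun S hS hc => hsym S hS T hTB hc⟩
    · refine ⟨0, 0, fun _ _ => dvd_zero _, fun _ _ => dvd_zero _, fun h0 => by omega,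
        fun S hS hc => ?_⟩
      have := Finset.card_le_card hS
      omega
  choose y z hy hz hy0 hyz using hT
  let P : ℕ → Prop := fun n => n ≤ ρ ∧ (2 : ℤ) ^ (v * ρ + 1) ∣
      ((((N₀ + n).choose 2 : ℕ) : ℤ) • ∑ s ∈ Finset.range (n + 1), n.choose s • y s +
        ∑ s ∈ Finset.range (n + 1), n.choose s • z s).det
  have hc : ∀ n₀, ((Finset.range (ρ + 1)).filter fun m => P (n₀ + 2 * m)).card ≤ v := fun n₀ =>
    s2_core ρ n₀ N₀ y z hy hz (by rwa [hy0 0 rfl]) _ fun m hm => (Finset.mem_filter.1 hm).2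
  let s : Finset ℕ := (Finset.range (ρ + 1)).filter P
  have hs : s.card ≤ 2 * w := by
    have h1 : s ⊆ ((Finset.range (ρ + 1)).filter fun m => P (0 + 2 * m)).image (fun m => 0 + 2 * m)
        ∪ ((Finset.range (ρ + 1)).filter fun m => P (1 + 2 * m)).image (fun m => 1 + 2 * m) := by
      intro n hn
      obtain ⟨h2, h3⟩ := Finset.mem_filter.1 hn
      have h4 := Finset.mem_range.1 h2
      rcases Nat.even_or_odd' n with ⟨m, hm | hm⟩
      · have h5 : 0 + 2 * m = n := by omega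
        exact Finset.mem_union_left _ (Finset.mem_image.2 ⟨m, Finset.mem_filter.2
          ⟨Finset.mem_range.2 (by omega), by rw [h5]; exact h3⟩, h5⟩)
      · have h5 : 1 + 2 * m = n := by omega
        exact Finset.mem_union_right _ (Finset.mem_image.2 ⟨m, Finset.mem_filter.2
          ⟨Finset.mem_range.2 (by omega), by rw [h5]; exact h3⟩, h5⟩)
    have h2 := (Finset.card_le_card h1).trans ((Finset.card_union_le _ _).trans
      (add_le_add (Finset.card_image_le.trans (hc 0)) (Finset.card_image_le.trans (hc 1))))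
    omega
  have hsub : (B.powerset.filter fun C =>
      ((((N₀ + C.card).choose 2 : ℕ) : ℤ) • ∑ S ∈ C.powerset, x S +
        ∑ S ∈ C.powerset, h S).det = 0) ⊆ s.biUnion fun n => B.powersetCard n := by
    intro D hD
    obtain ⟨hDB, hD0⟩ := Finset.mem_filter.1 hD
    have hDB := Finset.mem_powerset.1 hDB
    have hDρ : D.card ≤ ρ := hB ▸ Finset.card_le_card hDB
    refine Finset.mem_biUnion.2 ⟨D.card, Finset.mem_filter.2
      ⟨Finset.mem_range.2 (Nat.lt_succ_of_le hDρ), hDρ, ?_⟩, Finset.mem_powersetCard.2 ⟨hDB, rfl⟩⟩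
    rw [← Finset.sum_powerset_apply_card (f := y), ← Finset.sum_powerset_apply_card (f := z),
      ← dvd_neg, ← zero_sub, ← hD0]
    refine (pow_dvd_pow 2 (Nat.succ_le_succ (Nat.mul_le_mul_right ρ hv))).trans
      (s2_det _ _ _ fun a b => ?_)
    simp only [Matrix.add_apply, Matrix.smul_apply, Matrix.sum_apply, smul_eq_mul]
    rw [add_sub_add_comm, ← mul_sub, ← Finset.sum_sub_distrib, ← Finset.sum_sub_distrib]
    exact dvd_add (Dvd.dvd.mul_left (Finset.dvd_sum fun S hS =>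
      (hyz _ S ((Finset.mem_powerset.1 hS).trans hDB) rfl a b).1) _) (Finset.dvd_sum fun S hS =>
      (hyz _ S ((Finset.mem_powerset.1 hS).trans hDB) rfl a b).2)
  have h1 := (Finset.card_le_card hsub).trans Finset.card_biUnion_le
  have h2 : ∑ n ∈ s, (B.powersetCard n).card ≤ 2 * w * ρ.choose (ρ / 2) := by
    refine (Finset.sum_le_card_nsmul s _ (ρ.choose (ρ / 2)) fun n _ => ?_).trans ?_
    · rw [Finset.card_powersetCard, hB]
      exact Nat.choose_le_middle n ρ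
    · exact Nat.mul_le_mul_right _ hs
  refine le_trans ?_ (hρ (ρ / 2))
  exact_mod_cast h1.trans h2

end Pool.Agent.Lib.MP_788af2_nt.AS
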