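import Pool.Agent.Lib.MP_788af2_nt.TT.LocB

/-!
The lattice of global points near infinity.
-/

set_option linter.unusedSectionVars false

namespace Pool.Agent.Lib.MP_788af2_nt.AS

open Polynomial WeierstrassCurve Pool.Agent.Lib.MP_a3f657_nt.Two

namespace Tw

variable {k : Type} [Field k] [Finite k] [CharP k 2] {I : Type} [Fintype I] [DecidableEq I]
  {β : I → k[X]} {L : Type} [Field L] [CharP L 2] (T : Tw β L)

variable [DecidableEq L] {a b : k[X]} {K ε : ℕ}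

lemma exists_sQ (a b : k[X]) (g : G I) : ∃ j : (T.Cw a b).Point →+ (T.Cw a b).Point,
    Function.Injective j ∧ ∀ Q, xc (j Q) = T.σ g (xc Q) ∧ yc (j Q) = T.σ g (yc Q) := by
  obtain ⟨j, h1, h2⟩ := exists_tmap (T.σ g) (T.Cw a b) (T.Cw a b) 0 0 rfl rfl rfl rfl
    (by simp [Eb, T.σ_p]) (by simp [Eb]) (by simp [Eb, T.σ_p])
  refine ⟨j, h1, fun Q => ?_⟩
  by_cases h0 : Q = 0
  · simp [h0]
  · simpa using h2 Q h0

/-- The Galois action on the points. -/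
noncomputable def sQ (a b : k[X]) (g : G I) : (T.Cw a b).Point →+ (T.Cw a b).Point :=
  (T.exists_sQ a b g).choose

lemma sQ_inj (a b : k[X]) (g : G I) : Function.Injective (T.sQ a b g) :=
  (T.exists_sQ a b g).choose_spec.1

lemma xc_sQ (g : G I) (Q : (T.Cw a b).Point) : xc (T.sQ a b g Q) = T.σ g (xc Q) :=
  ((T.exists_sQ a b g).choose_spec.2 Q).1

lemma yc_sQ (g : G I) (Q : (T.Cw a b).Point) : yc (T.sQ a b g Q) = T.σ g (yc Q) :=
  ((T.exists_sQ a b g).choose_spec.2 Q).2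

lemma hV_sQ (g : G I) (Q : (T.Cw a b).Point) :
    hV T.P (T.p b) (T.sQ a b g Q) = T.σ g (hV T.P (T.p b) Q) := by
  have h0 := ((T.fix_p b).c0) g
  have h1 := ((T.fix_p b).c1) g
  simp only [hV, xc_sQ, map_add, map_mul, map_div₀, h0, h1, T.σ_D, ← T.σ_c0]

private lemma twa2_zero (Q : (T.Cw a b).Point) : T.sQ a b 0 Q = Q := by
  by_cases h0 : Q = 0
  · rw [h0, map_zero]
  exact pt_ext ((map_ne_zero_iff _ (T.sQ_inj a b 0)).2 h0) h0 (by rw [xc_sQ, T.σ_zero])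
    (by rw [yc_sQ, T.σ_zero])

private lemma twa2_add (g h : G I) (Q : (T.Cw a b).Point) :
    T.sQ a b (g + h) Q = T.sQ a b g (T.sQ a b h Q) := by
  by_cases h0 : Q = 0
  · rw [h0, map_zero, map_zero, map_zero]
  exact pt_ext ((map_ne_zero_iff _ (T.sQ_inj a b _)).2 h0)
    ((map_ne_zero_iff _ (T.sQ_inj a b _)).2 ((map_ne_zero_iff _ (T.sQ_inj a b _)).2 h0))
    (by rw [xc_sQ, xc_sQ, xc_sQ, T.σ_add]) (by rw [yc_sQ, yc_sQ, yc_sQ, T.σ_add])

private lemma twa2_ff (g : G I) (Q : (T.Cw a b).Point) :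
    T.ff (T.sQ a b g Q) = T.σ g (T.ff Q) := by
  rw [ff, ff, xc_sQ, T.σ_D, map_div₀]

private lemma twa2_fix (a b : k[X]) : T.Fix (T.bh (T.kap a b)) :=
  T.bh_fix (((T.fix_p _).div ((T.fix_p _).pow 2)).add ((T.fix_p _).div (T.fix_p _)))

/-- The characterisation of the local class of a point. -/
private def twa2S (a b : k[X]) (Q : (T.Cw a b).Point) (ζ : L) : Prop :=
  wp ζ = T.bh (T.kap a b) * hV T.P (T.p b) Q ^ 2 ∧ ζ + T.bh (T.kap a b) * T.ff Q ∈ T.d.Le (-1)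

private lemma twa2S_uniq {Q : (T.Cw a b).Point} {ζ ζ' : L} (h : T.twa2S a b Q ζ)
    (h' : T.twa2S a b Q ζ') : ζ = ζ' := by
  have h1 := add_mem h.2 h'.2
  rw [add_add_add_comm, CharTwo.add_self_eq_zero, add_zero] at h1
  have h2 := T.eq_zero_of_wp h1 (by norm_num)
    (by rw [wp_add, h.1, h'.1, CharTwo.add_self_eq_zero])
  rwa [CharTwo.add_eq_zero] at h2

private lemma twa2S_σ {Q : (T.Cw a b).Point} {ζ : L} (h : T.twa2S a b Q ζ) (g : G I) :
    T.twa2S a b (T.sQ a b g Q) (T.σ g ζ) := by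
  refine ⟨?_, ?_⟩
  · have h1 := congrArg (T.σ g) h.1
    rw [map_mul, map_pow, T.twa2_fix a b g, wp, map_add, map_pow] at h1
    rw [hV_sQ, wp, h1]
  · have h1 := T.σ_mem g h.2
    rwa [map_add, map_mul, T.twa2_fix a b g, ← twa2_ff] at h1

variable {T}

/-- The global points near infinity. -/
def Par2.Mh (hP2 : T.Par2 a b K ε) : AddSubgroup (T.Cw a b).Point where
  carrier := {Q | hV T.P (T.p b) Q ∈ T.d.Le (ε - 1) ∧ T.InG Q}
  zero_mem' := ⟨by rw [hV_zero]; exact zero_mem _, zero_mem T.Lg, zero_mem T.Lg⟩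
  add_mem' hx hy := ⟨by rw [hV_add T.P hP2.c1_ne]; exact add_mem hx.1 hy.1,
    eb_sub_add T.Lg (T.e_mem_Lg _) hx.2.1 hx.2.2 hy.2.1 hy.2.2⟩
  neg_mem' hx := ⟨by rw [hV_neg]; exact hx.1, by rw [xc_neg]; exact hx.2.1, by
    rw [eb_yc_neg]; exact add_mem hx.2.2 hx.2.1⟩

/-- The Galois action on the lattice. -/
noncomputable def Par2.sM (hP2 : T.Par2 a b K ε) (g : G I) : hP2.Mh →+ hP2.Mh :=
  ((T.sQ a b g).comp hP2.Mh.subtype).codRestrict _ fun Q =>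
    ⟨by
      change hV T.P (T.p b) (T.sQ a b g Q) ∈ _
      rw [hV_sQ]; exact T.σ_mem g Q.2.1, by
      change xc (T.sQ a b g Q) ∈ _
      rw [xc_sQ]; exact T.σ_Lg g Q.2.2.1, by
      change yc (T.sQ a b g Q) ∈ _
      rw [yc_sQ]; exact T.σ_Lg g Q.2.2.2⟩

lemma Par2.coe_sM (hP2 : T.Par2 a b K ε) (g : G I) (Q : hP2.Mh) :
    (hP2.sM g Q).1 = T.sQ a b g Q.1 := rfl

theorem Par2.exists_lat (hP2 : T.Par2 a b K ε) {H : AddSubgroup L}
    (hH : ∀ Q : (T.Cw a b).Point, T.InG Q → hV T.P (T.p b) Q ∈ H) {W : Type} [Fintype W]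
    {vv : (W → ZMod 2) →+ L} {ν : L →+ (W → ZMod 2)} {B : G I → Matrix W W (ZMod 2)}
    (h : T.Frm H (T.kap a b) vv ν B) : ∃ νM : hP2.Mh →+ (W → ZMod 2), Lat hP2.sM νM B := by
  have hex : ∀ m : hP2.Mh, ∃ ζ, T.twa2S a b m.1 ζ := fun m => hP2.exists_zeta m.2.1
  choose Z hZ using hex
  have hadd : ∀ m m' : hP2.Mh, Z (m + m') = Z m + Z m' := fun m m' => by
    refine T.twa2S_uniq (hZ _) ⟨?_, ?_⟩
    · rw [wp_add, (hZ m).1, (hZ m').1, AddSubgroup.coe_add, hV_add T.P hP2.c1_ne, CharTwo.add_sq,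
        mul_add]
    · have h1 := add_mem (add_mem (hZ m).2 (hZ m').2) (hP2.ff_add m.2.1 m'.2.1)
      have e : Z m + T.bh (T.kap a b) * T.ff m.1 + (Z m' + T.bh (T.kap a b) * T.ff m'.1) +
          T.bh (T.kap a b) * (T.ff (m.1 + m'.1) + T.ff m.1 + T.ff m'.1) =
          Z m + Z m' + T.bh (T.kap a b) * T.ff (m.1 + m'.1) := by
        have h2 : (2 : L) = 0 := CharTwo.two_eq_zero
        linear_combination (T.bh (T.kap a b) * (T.ff m.1 + T.ff m'.1)) * h2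
      rwa [e] at h1
  have hσ : ∀ (g : G I) (m : hP2.Mh), Z (hP2.sM g m) = T.σ g (Z m) := fun g m =>
    T.twa2S_uniq (hZ _) (T.twa2S_σ (hZ m) g)
  have hS : ∀ m : hP2.Mh, Z m ∈ T.Sh H (T.kap a b) := fun m => by
    obtain ⟨h1, h2⟩ := T.Kr_of_wp (hZ m).1
    exact ⟨h2, h1 ▸ hH _ m.2.2⟩
  let νM : hP2.Mh →+ (W → ZMod 2) := AddMonoidHom.mk' (fun m => ν (Z m)) fun m m' => by
    rw [hadd, map_add]
  have hν : ∀ (g : G I) (m : hP2.Mh), νM (hP2.sM g m) = ν (T.σ g (Z m)) := fun g m => by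
    rw [← hσ]; rfl
  refine ⟨νM, fun m => Subtype.ext (T.twa2_zero m.1), fun g g' m => Subtype.ext (T.twa2_add g g' m.1),
    fun n m hn h0 => Subtype.ext (hP2.tf m.2.1 hn (congrArg Subtype.val h0)), fun m h0 => ?_,
    fun m j => ?_⟩
  · have h1 : Z m = 0 := h.ν_inj _ (hS m) fun g => by rw [← hν, h0 g]
    have h2 : hV T.P (T.p b) m.1 = 0 := by
      rw [← (T.Kr_of_wp (hZ m).1).1, h1]
      simp
    obtain ⟨Q, hQ, hx, hy⟩ := eb_half T.P hP2.c1_ne T.Lg (fun x hx => ⟨T.c0_Lg hx, T.c1_Lg hx⟩)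
      (T.e_mem_Lg _) m.2.2.1 m.2.2.2 h2
    have h3 : hV T.P (T.p b) Q ∈ T.d.Le (ε - 1) := by
      by_contra h4
      have h5 := hP2.typeII h4
      have h6 := (hZ m).2
      rw [h1, zero_add] at h6
      rw [hQ] at h5
      have h7 := add_mem h6 h5
      rw [← add_assoc, CharTwo.add_self_eq_zero, zero_add, DF.mem_Le_iff one_ne_zero,
        DF.deg_one] at h7
      linarith
    exact ⟨⟨Q, h3, hx, hy⟩, Subtype.ext hQ.symm⟩
  · simp only [hν]
    exact h.rel _ (hS m) j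

end Tw

end Pool.Agent.Lib.MP_788af2_nt.AS
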