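import Pool.Agent.Lib.MP_788af2_nt.TT.TwA2
import Pool.Agent.Lib.MP_788af2_nt.TT.RankBd

/-!
The eigen-lattices are the Mordell-Weil lattices of the twists.
-/

set_option linter.unusedSectionVars false

namespace Pool.Agent.Lib.MP_788af2_nt.AS

open Polynomial WeierstrassCurve Pool.Agent.Lib.MP_a3f657_nt.Two

/-- Comparison of a finitely generated group with a subgroup containing all doubles. -/
private lemma twB2_cmp {M E : Type} [AddCommGroup M] [AddCommGroup E] (ρ : M →+ E)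
    (hρ : Function.Injective ρ) (h2 : ∀ P, P + P ∈ ρ.range) (hE : AddGroup.FG E) :
    AddGroup.FG M ∧ Module.finrank ℤ E ≤ Module.finrank ℤ M := by
  have hEf : Module.Finite ℤ E := Module.Finite.iff_addGroup_fg.2 hE
  have hMf : Module.Finite ℤ M := Module.Finite.of_injective ρ.toIntLinearMap hρ
  refine ⟨Module.Finite.iff_addGroup_fg.1 hMf, ?_⟩
  have h1 := Submodule.finrank_quotient_add_finrank (LinearMap.range ρ.toIntLinearMap)
  have h0 : Module.finrank ℤ (E ⧸ LinearMap.range ρ.toIntLinearMap) = 0 := by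
    rw [Module.finrank_eq_zero_iff]
    intro x
    obtain ⟨P, rfl⟩ := Submodule.Quotient.mk_surjective _ x
    refine ⟨2, two_ne_zero, ?_⟩
    rw [← Submodule.Quotient.mk_smul, Submodule.Quotient.mk_eq_zero, two_smul]
    exact h2 P
  have h3 := LinearMap.finrank_range_le ρ.toIntLinearMap
  omega

private lemma twB2_cases (x : ZMod 2) : x = 0 ∨ x = 1 := by
  revert x
  decide

namespace Tw

variable {k : Type} [Field k] [Finite k] [CharP k 2] {I : Type} [Fintype I] [DecidableEq I]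
  {β : I → k[X]} {L : Type} [Field L] [CharP L 2] (T : Tw β L)

private lemma twB2_comb_mem (ξ : G I) : comb T.θ ξ ∈ T.Lg :=
  T.O_le_Lg (Subring.sum_mem _ fun i _ => mul_mem (T.zc_mem_O _) (T.θ_mem_O i))

/-- Coordinates of `sg u • Q`. -/
private lemma twB2_sg [DecidableEq L] {a s : L} (u : ZMod 2) (Q : (Eb a s).Point) :
    xc (sg u • Q) = xc Q ∧ yc (sg u • Q) = yc Q + zc L u * xc Q ∧ (Q ≠ 0 → sg u • Q ≠ 0) := by
  rcases twB2_cases u with rfl | rfl
  · simp [sg]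
  · have : sg 1 = -1 := by decide
    rw [this, neg_smul, one_smul, xc_neg, eb_yc_neg, map_one, one_mul]
    exact ⟨rfl, rfl, neg_ne_zero.2⟩

variable [DecidableEq L] [DecidableEq (RatFunc k)] {a b : k[X]} {K ε : ℕ}

variable {T} in
theorem Par2.eig_cmp (hP2 : T.Par2 a b K ε) (ξ : G I) : (eig hP2.sM ξ).FG ∧
    rkb (a + X * comb β ξ ^ 2) b ≤ Module.finrank ℤ (eig hP2.sM ξ) := by
  have : CharP (RatFunc k) 2 :=
    charP_of_injective_algebraMap (algebraMap k (RatFunc k)).injective 2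
  have hb0 : b ≠ 0 := by
    rintro rfl
    apply hP2.c1_ne
    rw [p_eq]
    simp
  have hb : ι b ≠ 0 := ι_ne hb0
  have hwp := T.wp_comb ξ
  have ha' : T.e (ι (a + X * comb β ξ ^ 2)) = T.p a + wp (comb T.θ ξ) := by
    rw [hwp, ← p_eq, map_add]
  obtain ⟨j, hj, hjc⟩ := exists_tmap T.e (Eb (ι (a + X * comb β ξ ^ 2)) (ι b)) (T.Cw a b)
    (comb T.θ ξ) 0 rfl rfl rfl rfl
    (by
      change T.p a = T.e (ι (a + X * comb β ξ ^ 2)) + wp (comb T.θ ξ)
      rw [ha', add_assoc, CharTwo.add_self_eq_zero, add_zero])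
    (by
      change (0 : L) = T.e 0 + 0
      simp)
    (by
      change T.p b = T.e (ι b) + 0 ^ 2
      rw [p_eq]
      simp)
  have hj0 : ∀ P, P ≠ 0 → j P ≠ 0 := fun P h0 h1 => h0 (hj (by rw [h1, map_zero]))
  have hsP0 : ∀ (g : G I) (Q : (T.Cw a b).Point), Q ≠ 0 → T.sQ a b g Q ≠ 0 :=
    fun g Q h0 h1 => h0 (T.sQ_inj a b g (by rw [h1, map_zero]))
  -- the image of `j` consists of global eigenpoints
  have hjG : ∀ P, T.InG (j P) := by
    intro P
    by_cases h0 : P = 0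
    · subst h0
      rw [map_zero]
      exact ⟨zero_mem T.Lg, zero_mem T.Lg⟩
    · obtain ⟨h1, h2⟩ := hjc P h0
      refine ⟨h1 ▸ T.e_mem_Lg _, ?_⟩
      rw [h2, add_zero]
      exact add_mem (T.e_mem_Lg _) (mul_mem (T.twB2_comb_mem ξ) (T.e_mem_Lg _))
  have hjs : ∀ P g, T.sQ a b g (j P) = sg (ξ ⬝ᵥ g) • j P := by
    intro P g
    by_cases h0 : P = 0
    · subst h0
      simp
    · obtain ⟨h1, h2⟩ := hjc P h0
      obtain ⟨h3, h4, h5⟩ := twB2_sg (ξ ⬝ᵥ g) (j P)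
      refine pt_ext (hsP0 g _ (hj0 P h0)) (h5 (hj0 P h0)) ?_ ?_
      · rw [h3, xc_sQ, h1, T.σ_e]
      · rw [h4, yc_sQ, h1, h2]
        simp only [map_add, map_mul, map_zero, T.σ_e, T.σ_comb]
        ring
  -- every global eigenpoint is in the image
  have hsurj : ∀ m : eig hP2.sM ξ, ∃ P, j P = m.1.1 := by
    rintro ⟨⟨Q, hQ⟩, hm⟩
    change ∃ P, j P = Q
    by_cases h0 : Q = 0
    · exact ⟨0, by rw [map_zero, h0]⟩
    have hm' : ∀ g, T.sQ a b g Q = sg (ξ ⬝ᵥ g) • Q := fun g => congrArg Subtype.val (hm g)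
    have hx : ∀ g, T.σ g (xc Q) = xc Q := fun g => by
      rw [← xc_sQ, hm', (twB2_sg _ Q).1]
    have hy : ∀ g, T.σ g (yc Q + comb T.θ ξ * xc Q) = yc Q + comb T.θ ξ * xc Q := fun g => by
      rw [map_add, map_mul, hx, ← yc_sQ, hm', (twB2_sg _ Q).2.1, T.σ_comb]
      linear_combination (exp := 1) CharTwo.add_self_eq_zero (zc L (ξ ⬝ᵥ g) * xc Q)
    obtain ⟨x, hx'⟩ := T.fix_Lg hQ.2.1 hx
    obtain ⟨y, hy'⟩ := T.fix_Lg (add_mem hQ.2.2 (mul_mem (T.twB2_comb_mem ξ) hQ.2.1)) hy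
    have hy'' : yc Q = T.e y + comb T.θ ξ * T.e x := by
      rw [← hy', ← hx', add_assoc, CharTwo.add_self_eq_zero, add_zero]
    have heq := eb_eq h0
    obtain ⟨P, hP0, hPx, hPy⟩ := eb_exists (a := ι (a + X * comb β ξ ^ 2)) hb (x := x) (y := y)
      (by
        apply T.e.injective
        rw [map_add T.e, map_add T.e, map_add T.e, map_mul T.e, map_mul T.e, ha',
          map_pow T.e, map_pow T.e, map_pow T.e, ← p_eq, wp]
        rw [hy'', hx'] at heq
        have h2 : (2 : L) = 0 := CharTwo.two_eq_zero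
        linear_combination heq - (T.e y * comb T.θ ξ * T.e x + (comb T.θ ξ ^ 2 + comb T.θ ξ) *
          T.e x ^ 2) * h2)
    obtain ⟨h1, h2⟩ := hjc P hP0
    exact ⟨P, pt_ext (hj0 P hP0) h0 (by rw [h1, hPx, hx']) (by rw [h2, hPx, hPy, add_zero, hy''])⟩
  choose r hr using hsurj
  let ρ : eig hP2.sM ξ →+ (Eb (ι (a + X * comb β ξ ^ 2)) (ι b)).Point :=
    AddMonoidHom.mk' r fun m m' => hj (by rw [map_add, hr, hr, hr]; rfl)
  have hρ : Function.Injective ρ := fun m m' hh => by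
    apply Subtype.ext
    apply Subtype.ext
    rw [← hr, ← hr]
    exact congrArg j hh
  have hmem : ∀ P, hV T.P (T.p b) (j P) ∈ T.d.Le (ε - 1) → P ∈ ρ.range := fun P hM =>
    ⟨⟨⟨j P, hM, hjG P⟩, fun g => Subtype.ext (hjs P g)⟩, hj (hr _)⟩
  have := twB2_cmp ρ hρ
    (fun P => hmem _ (by
      rw [map_add, hV_add T.P hP2.c1_ne, CharTwo.add_self_eq_zero]
      exact zero_mem _))
    (fg_Eb' _ hb0)
  exact ⟨(AddGroup.fg_iff_addSubgroup_fg _).1 this.1, this.2⟩

end Tw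

end Pool.Agent.Lib.MP_788af2_nt.AS
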